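import Pool.Agent.Helper98.IS.Defs2

/-!
# IS-11a: the power series of `((c + x) ^ 2 - 1) ^ (-1 / 2)`
-/

namespace IsingS2

open Complex Set MeasureTheory Filter Topology IsingNB
open scoped Real Matrix

noncomputable section

private def gC (c : ℝ) (z : ℂ) : ℂ :=
  ((c : ℂ) - 1 + z) ^ (-1 / 2 : ℂ) * ((c : ℂ) + 1 + z) ^ (-1 / 2 : ℂ)

private theorem gC_real {c x : ℝ} (hx : |x| < c - 1) :
    gC c x = ((1 / Real.sqrt ((c + x) ^ 2 - 1) : ℝ) : ℂ) := by
  have h := abs_lt.1 hx
  have h1 : 0 < c - 1 + x := by linarith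
  have h2 : 0 < c + 1 + x := by linarith
  have e1 : ((c : ℂ) - 1 + x) ^ (-1 / 2 : ℂ) = (((c - 1 + x) ^ (-1 / 2 : ℝ) : ℝ) : ℂ) := by
    rw [Complex.ofReal_cpow h1.le]
    push_cast
    rfl
  have e2 : ((c : ℂ) + 1 + x) ^ (-1 / 2 : ℂ) = (((c + 1 + x) ^ (-1 / 2 : ℝ) : ℝ) : ℂ) := by
    rw [Complex.ofReal_cpow h2.le]
    push_cast
    rfl
  unfold gC
  rw [e1, e2, ← Complex.ofReal_mul, ← Real.mul_rpow h1.le h2.le]
  congr 1
  have e3 : (c - 1 + x) * (c + 1 + x) = (c + x) ^ 2 - 1 := by ring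
  have h3 : 0 < (c + x) ^ 2 - 1 := by rw [← e3]; positivity
  rw [e3, Real.sqrt_eq_rpow, one_div, ← Real.rpow_neg h3.le]
  congr 1
  norm_num

private theorem gC_diff {c : ℝ} : DifferentiableOn ℂ (gC c) (Metric.ball 0 (c - 1)) := by
  intro z hz
  rw [Metric.mem_ball, dist_zero_right] at hz
  have h1 : -(c - 1) < z.re := by
    have := (abs_lt.1 ((Complex.abs_re_le_norm z).trans_lt hz)).1
    linarith
  have e1 : (c : ℂ) - 1 + z ∈ slitPlane := by
    left
    simp only [add_re, sub_re, ofReal_re, one_re]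
    linarith
  have e2 : (c : ℂ) + 1 + z ∈ slitPlane := by
    left
    simp only [add_re, ofReal_re, one_re]
    linarith
  unfold gC
  refine DifferentiableAt.differentiableWithinAt ?_
  exact ((differentiableAt_id.const_add _).cpow_const e1).mul
    ((differentiableAt_id.const_add _).cpow_const e2)

/-- the coefficients of the complex function -/
private def cC (c : ℝ) (n : ℕ) : ℂ := (n.factorial : ℂ)⁻¹ * iteratedDeriv n (gC c) 0

private theorem real_hasSum {c x : ℝ} (hx : |x| < c - 1) :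
    HasSum (fun n => (cC c n).re * x ^ n) (1 / Real.sqrt ((c + x) ^ 2 - 1)) := by
  have hz : (x : ℂ) ∈ Metric.ball (0 : ℂ) (c - 1) := by
    rw [Metric.mem_ball, dist_zero_right, Complex.norm_real, Real.norm_eq_abs]
    exact hx
  have h := Complex.hasSum_taylorSeries_on_ball (gC_diff (c := c)) hz
  rw [gC_real hx] at h
  have h2 := Complex.hasSum_re h
  rw [Complex.ofReal_re] at h2
  have h3 : (fun n => (cC c n).re * x ^ n) =
      fun n => ((n.factorial : ℂ)⁻¹ • ((x : ℂ) - 0) ^ n • iteratedDeriv n (gC c) 0).re := by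
    funext n
    have e1 : (n.factorial : ℂ)⁻¹ • ((x : ℂ) - 0) ^ n • iteratedDeriv n (gC c) 0 =
        ((x ^ n : ℝ) : ℂ) * cC c n := by
      simp only [smul_eq_mul, sub_zero, cC]
      push_cast
      ring
    rw [e1, Complex.re_ofReal_mul, mul_comm]
  rw [h3]
  exact h2

private theorem re_summable {c ρ : ℝ} (h0 : 0 ≤ ρ) (hρ : ρ < c - 1) :
    Summable fun n => |(cC c n).re| * ρ ^ n := by
  have h := (real_hasSum (c := c) (x := ρ) (by rwa [abs_of_nonneg h0])).summable.abs
  refine h.congr fun n => ?_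
  rw [abs_mul, abs_of_nonneg (pow_nonneg h0 n)]

private theorem ac_eq {c : ℝ} (hc : 1 < c) (n : ℕ) : ac c n = (cC c n).re := by
  set f : ℝ → ℝ := fun x => 1 / Real.sqrt ((c + x) ^ 2 - 1) with hf
  set a : ℕ → ℝ := fun n => (cC c n).re with ha
  have hr0 : 0 < (c - 1) / 2 := by linarith
  have hps : HasFPowerSeriesOnBall f (FormalMultilinearSeries.ofScalars ℝ a) 0
      (ENNReal.ofReal ((c - 1) / 2)) := by
    refine ⟨?_, ENNReal.ofReal_pos.2 hr0, ?_⟩
    · change ((Real.toNNReal ((c - 1) / 2) : NNReal) : ENNReal) ≤ _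
      apply FormalMultilinearSeries.le_radius_of_summable
      have h2 := re_summable (c := c) (ρ := (c - 1) / 2) hr0.le (by linarith)
      refine h2.congr fun n => ?_
      rw [FormalMultilinearSeries.ofScalars_norm, Real.coe_toNNReal _ hr0.le]
      rfl
    · intro y hy
      rw [Metric.eball_ofReal, Metric.mem_ball, dist_zero_right] at hy
      have h3 := real_hasSum (c := c) (x := y) (by
        rw [← Real.norm_eq_abs]; linarith)
      rw [zero_add]
      refine h3.congr_fun fun n => ?_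
      rw [FormalMultilinearSeries.ofScalars_apply_eq]
      rfl
  have hA : AnalyticAt ℝ f 0 := ⟨_, _, hps⟩
  have h4 := hA.hasFPowerSeriesAt.eq_formalMultilinearSeries ⟨_, hps⟩
  have h5 := congrArg (fun p : FormalMultilinearSeries ℝ ℝ ℝ => p.coeff n) h4
  simp only [FormalMultilinearSeries.coeff_ofScalars] at h5
  exact h5

theorem ac_hasSum {c x : ℝ} (hc : 1 < c) (hx : |x| < c - 1) :
    HasSum (fun n => ac c n * x ^ n) (1 / Real.sqrt ((c + x) ^ 2 - 1)) := by
  have h := real_hasSum (c := c) hx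
  have h2 : (fun n => ac c n * x ^ n) = fun n => (cC c n).re * x ^ n := by
    funext n
    rw [ac_eq hc]
  rw [h2]
  exact h

theorem ac_summable {c ρ : ℝ} (hc : 1 < c) (h0 : 0 ≤ ρ) (hρ : ρ < c - 1) :
    Summable fun n => |ac c n| * ρ ^ n := by
  refine (re_summable (c := c) h0 hρ).congr fun n => ?_
  rw [ac_eq hc]

end

end IsingS2
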