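import Pool.Agent.Helper98.IS.Defs2
import Pool.Agent.Helper98.IS.ASeries

/-!
# IS-11b: the matrix `((c + X) ^ 2 - 1) ^ (-1 / 2)`
-/

namespace IsingS2

open Complex Set MeasureTheory Filter Topology IsingNB
open scoped Real Matrix

noncomputable section

private theorem eig_abs {m : ℕ} {X : Matrix (Fin m) (Fin m) ℝ} (hr : ∀ k, ∑ l, |X k l| ≤ 1)
    {lam : ℝ} {x : Fin m → ℝ} (hx : x ≠ 0) (h : X.mulVec x = lam • x) : |lam| ≤ 1 := by
  obtain ⟨i, hi⟩ := Function.ne_iff.1 hx
  have hne : (Finset.univ : Finset (Fin m)).Nonempty := ⟨i, Finset.mem_univ i⟩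
  obtain ⟨k, -, hk⟩ := Finset.exists_max_image Finset.univ (fun k => |x k|) hne
  have hkpos : 0 < |x k| := (abs_pos.2 hi).trans_le (hk i (Finset.mem_univ i))
  have h1 : lam * x k = ∑ l, X k l * x l := by
    have := congrFun h k
    simp only [Pi.smul_apply, smul_eq_mul] at this
    rw [← this]
    rfl
  have h2 : |lam| * |x k| ≤ 1 * |x k| := by
    rw [← abs_mul, h1]
    calc |∑ l, X k l * x l| ≤ ∑ l, |X k l * x l| := Finset.abs_sum_le_sum_abs _ _
      _ ≤ ∑ l, |X k l| * |x k| := by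
          refine Finset.sum_le_sum fun l _ => ?_
          rw [abs_mul]
          exact mul_le_mul_of_nonneg_left (hk l (Finset.mem_univ l)) (abs_nonneg _)
      _ = (∑ l, |X k l|) * |x k| := by rw [Finset.sum_mul]
      _ ≤ 1 * |x k| := mul_le_mul_of_nonneg_right (hr k) hkpos.le
  exact le_of_mul_le_mul_right h2 hkpos

theorem aS_spec {c : ℝ} (hc : 2 < c) {m : ℕ} (X : Matrix (Fin m) (Fin m) ℝ) (hX : Xᵀ = X)
    (hr : ∀ k, ∑ l, |X k l| ≤ 1) :
    (aS c X)ᵀ = aS c X ∧ X * aS c X = aS c X * X ∧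
      aS c X * aS c X * ((X + c • (1 : Matrix (Fin m) (Fin m) ℝ)) *
        (X + c • (1 : Matrix (Fin m) (Fin m) ℝ)) - 1) = 1 ∧
      ∀ x : Fin m → ℝ, 0 ≤ x ⬝ᵥ (aS c X).mulVec x := by
  classical
  have hH : X.IsHermitian := by
    rw [Matrix.IsHermitian, Matrix.conjTranspose_eq_transpose_of_trivial]
    exact hX
  -- the orthogonal matrix and the eigenvalues
  set U : Matrix (Fin m) (Fin m) ℝ := (hH.eigenvectorUnitary : Matrix (Fin m) (Fin m) ℝ) with hU
  set d : Fin m → ℝ := hH.eigenvalues with hd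
  have hU1 : U * Uᵀ = 1 := by
    have := Unitary.coe_mul_star_self hH.eigenvectorUnitary
    rw [Unitary.coe_star, Matrix.star_eq_conjTranspose, Matrix.conjTranspose_eq_transpose_of_trivial] at this
    exact this
  have hU2 : Uᵀ * U = 1 := by
    have := Unitary.coe_star_mul_self hH.eigenvectorUnitary
    rw [Matrix.star_eq_conjTranspose, Matrix.conjTranspose_eq_transpose_of_trivial] at this
    exact this
  have hsp : X = U * Matrix.diagonal d * Uᵀ := by
    have h1 := hH.spectral_theorem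
    rw [Unitary.conjStarAlgAut_apply, Matrix.star_eq_conjTranspose,
      Matrix.conjTranspose_eq_transpose_of_trivial] at h1
    exact h1
  have hd1 : ∀ i, |d i| ≤ 1 := by
    intro i
    refine eig_abs hr (x := ⇑(hH.eigenvectorBasis i)) ?_ (hH.mulVec_eigenvectorBasis i)
    intro h0
    have h1 := hH.eigenvectorBasis.orthonormal.1 i
    have h2 : hH.eigenvectorBasis i = 0 := by
      ext k
      exact congrFun h0 k
    rw [h2, norm_zero] at h1
    exact zero_ne_one h1
  have hpow : ∀ n : ℕ, X ^ n = U * Matrix.diagonal (fun i => d i ^ n) * Uᵀ := by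
    intro n
    induction n with
    | zero => simp [hU1]
    | succ n ih =>
      rw [pow_succ, ih]
      conv_lhs => rw [hsp]
      have e1 : U * Matrix.diagonal (fun i => d i ^ n) * Uᵀ * (U * Matrix.diagonal d * Uᵀ) =
          U * Matrix.diagonal (fun i => d i ^ n) * (Uᵀ * U) * Matrix.diagonal d * Uᵀ := by
        simp only [Matrix.mul_assoc]
      rw [e1, hU2, Matrix.mul_one, Matrix.mul_assoc U, Matrix.diagonal_mul_diagonal]
      congr 3
  set φ : Fin m → ℝ := fun i => 1 / Real.sqrt ((c + d i) ^ 2 - 1) with hφ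
  have hent : ∀ (e : Fin m → ℝ) (k l : Fin m), (U * Matrix.diagonal e * Uᵀ) k l =
      ∑ i, U k i * e i * U l i := by
    intro e k l
    rw [Matrix.mul_apply]
    refine Finset.sum_congr rfl fun i _ => ?_
    rw [Matrix.mul_diagonal, Matrix.transpose_apply]
  have haS : aS c X = U * Matrix.diagonal φ * Uᵀ := by
    ext k l
    rw [hent]
    have h1 : HasSum (fun n => ac c n * (X ^ n) k l) (∑ i, U k i * φ i * U l i) := by
      have h2 : (fun n => ac c n * (X ^ n) k l) =
          fun n => ∑ i, U k i * (ac c n * d i ^ n) * U l i := by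
        funext n
        rw [hpow n, hent, Finset.mul_sum]
        exact Finset.sum_congr rfl fun i _ => by ring
      rw [h2]
      refine hasSum_sum fun i _ => ?_
      have h3 := ac_hasSum (c := c) (x := d i) (by linarith) (by linarith [hd1 i])
      exact (h3.mul_left (U k i)).mul_right (U l i)
    exact h1.tsum_eq
  have hmul : ∀ e e' : Fin m → ℝ, (U * Matrix.diagonal e * Uᵀ) * (U * Matrix.diagonal e' * Uᵀ) =
      U * Matrix.diagonal (fun i => e i * e' i) * Uᵀ := by
    intro e e'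
    have e1 : U * Matrix.diagonal e * Uᵀ * (U * Matrix.diagonal e' * Uᵀ) =
        U * Matrix.diagonal e * (Uᵀ * U) * Matrix.diagonal e' * Uᵀ := by
      simp only [Matrix.mul_assoc]
    rw [e1, hU2, Matrix.mul_one, Matrix.mul_assoc U, Matrix.diagonal_mul_diagonal]
  have hone : (1 : Matrix (Fin m) (Fin m) ℝ) = U * Matrix.diagonal (fun _ => 1) * Uᵀ := by
    rw [Matrix.diagonal_one, Matrix.mul_one, hU1]
  have hsub : ∀ e e' : Fin m → ℝ, (U * Matrix.diagonal e * Uᵀ) - (U * Matrix.diagonal e' * Uᵀ) =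
      U * Matrix.diagonal (fun i => e i - e' i) * Uᵀ := by
    intro e e'
    rw [← Matrix.sub_mul, ← Matrix.mul_sub, Matrix.diagonal_sub]
  have hadd : ∀ e e' : Fin m → ℝ, (U * Matrix.diagonal e * Uᵀ) + (U * Matrix.diagonal e' * Uᵀ) =
      U * Matrix.diagonal (fun i => e i + e' i) * Uᵀ := by
    intro e e'
    rw [← Matrix.add_mul, ← Matrix.mul_add, Matrix.diagonal_add]
  have hXc : X + c • (1 : Matrix (Fin m) (Fin m) ℝ) =
      U * Matrix.diagonal (fun i => d i + c) * Uᵀ := by
    have e1 : c • (1 : Matrix (Fin m) (Fin m) ℝ) = U * Matrix.diagonal (fun _ => c) * Uᵀ := by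
      have e2 : Matrix.diagonal (fun _ : Fin m => c) = c • (1 : Matrix (Fin m) (Fin m) ℝ) := by
        rw [← Matrix.diagonal_one]
        ext i j
        by_cases h : i = j
        · subst h; simp
        · simp [h]
      rw [e2, Matrix.mul_smul, Matrix.mul_one, Matrix.smul_mul, hU1]
    rw [e1]
    conv_lhs => rw [hsp]
    exact hadd _ _
  have hpos : ∀ i, 0 < (c + d i) ^ 2 - 1 := by
    intro i
    have := (abs_le.1 (hd1 i)).1
    nlinarith
  refine ⟨?_, ?_, ?_, ?_⟩
  · rw [haS, Matrix.transpose_mul, Matrix.transpose_mul, Matrix.transpose_transpose,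
      Matrix.diagonal_transpose, Matrix.mul_assoc]
  · rw [haS]
    conv_lhs => rw [hsp]
    conv_rhs => rw [hsp]
    rw [hmul, hmul]
    congr 3
    funext i
    ring
  · rw [hXc, haS, hmul, hmul, hone, hsub, hmul]
    congr 3
    funext i
    have h1 := hpos i
    have h2 : Real.sqrt ((c + d i) ^ 2 - 1) * Real.sqrt ((c + d i) ^ 2 - 1) =
        (c + d i) ^ 2 - 1 := Real.mul_self_sqrt h1.le
    have h3 : 0 < Real.sqrt ((c + d i) ^ 2 - 1) := Real.sqrt_pos.2 h1
    simp only [hφ]
    have h4 : 1 / Real.sqrt ((c + d i) ^ 2 - 1) * (1 / Real.sqrt ((c + d i) ^ 2 - 1)) =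
        1 / ((c + d i) ^ 2 - 1) := by
      rw [div_mul_div_comm, one_mul, h2]
    rw [h4, show (d i + c) * (d i + c) - 1 = (c + d i) ^ 2 - 1 by ring]
    exact one_div_mul_cancel h1.ne'
  · intro x
    rw [haS]
    have h1 : (U * Matrix.diagonal φ * Uᵀ).mulVec x = U.mulVec ((Matrix.diagonal φ).mulVec
        (Uᵀ.mulVec x)) := by
      rw [← Matrix.mulVec_mulVec, ← Matrix.mulVec_mulVec]
    have h2 : x ⬝ᵥ (U * Matrix.diagonal φ * Uᵀ).mulVec x =
        ∑ i, φ i * (Uᵀ.mulVec x i) ^ 2 := by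
      rw [h1, Matrix.dotProduct_mulVec, ← Matrix.mulVec_transpose]
      simp only [dotProduct, Matrix.mulVec_diagonal]
      exact Finset.sum_congr rfl fun i _ => by ring
    rw [h2]
    refine Finset.sum_nonneg fun i _ => mul_nonneg ?_ (sq_nonneg _)
    simp only [hφ]
    positivity

end

end IsingS2
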