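import Pool.Agent.Helper98.IS.Defs2

/-!
# IS-10a: the one particle matrices of the chain (helper87)
-/

set_option autoImplicit false

namespace IsingS2

open Complex Set MeasureTheory Filter Topology IsingNB
open scoped Real Matrix

noncomputable section

private theorem cm_c1_sq (v : ℝ) : c1 v ^ 2 = (Cs v + 1) / 2 := by
  rw [c1, Real.sq_sqrt]
  have : 0 ≤ Cs v := Real.sqrt_nonneg _
  positivity

private theorem cm_Cs_ge (v : ℝ) : 1 ≤ Cs v := by
  rw [Cs]
  apply Real.one_le_sqrt.2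
  nlinarith [sq_nonneg v]

private theorem cm_s1_sq (v : ℝ) : s1 v ^ 2 = (Cs v - 1) / 2 := by
  rw [s1, Real.sq_sqrt]
  have := cm_Cs_ge v
  linarith

private theorem cm_diff (v : ℝ) : c1 v ^ 2 - s1 v ^ 2 = 1 := by
  rw [cm_c1_sq, cm_s1_sq]; ring

private theorem cm_Cs_sq (v : ℝ) : Cs v ^ 2 = 1 + v ^ 2 := by
  rw [Cs, Real.sq_sqrt]
  positivity

private theorem cm_prod {v : ℝ} (hv : 0 < v) : 2 * c1 v * s1 v = v := by
  have h0 : 0 ≤ c1 v := Real.sqrt_nonneg _
  have h1 : 0 ≤ s1 v := Real.sqrt_nonneg _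
  have h2 : (2 * c1 v * s1 v) ^ 2 = v ^ 2 := by
    rw [mul_pow, mul_pow, cm_c1_sq, cm_s1_sq]
    have := cm_Cs_sq v
    linear_combination this
  exact (sq_eq_sq₀ (by positivity) hv.le).1 h2

private theorem cm_Cw_sq {v : ℝ} (hv : 0 < v) : Cw v ^ 2 - 1 / v ^ 2 = 1 := by
  have h := cm_Cs_sq v
  have : Cw v = Cs v / v := rfl
  rw [this, div_pow, h]
  field_simp
  ring

private theorem cm_cc {v : ℝ} (hv : 0 < v) : (c1 v ^ 2 + s1 v ^ 2) * Cw v = cc v := by
  have h := cm_Cs_sq v
  have : Cw v = Cs v / v := rfl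
  rw [this, cm_c1_sq, cm_s1_sq, cc]
  field_simp
  linear_combination 2 * h

/-- diagonal matrices -/
private def cmF (v : ℝ) (m : ℕ) : Matrix (Fin m) (Fin m) ℝ := Matrix.diagonal (df v)
private def cmG (v : ℝ) (m : ℕ) : Matrix (Fin m) (Fin m) ℝ := Matrix.diagonal (dg v)

private theorem cm_Hf {v : ℝ} (hv : 0 < v) (m : ℕ) : Hf v m =
    (c1 v ^ 2) • cmF v m + (s1 v ^ 2) • cmG v m - (1 / 2 : ℝ) • (Um m + (Um m)ᵀ) := by
  ext k l
  have h := cm_cc hv
  simp only [Hf, cmF, cmG, Um, Matrix.of_apply, Matrix.sub_apply, Matrix.add_apply,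
    Matrix.smul_apply, Matrix.transpose_apply, smul_eq_mul, Matrix.diagonal_apply, df, dg]
  by_cases hkl : k = l
  · subst hkl
    simp only [if_true, if_neg (show ¬ ((k : ℕ) = k + 1) by omega)]
    rw [← h]
    split_ifs <;> ring
  · rw [if_neg hkl, if_neg hkl, if_neg hkl]
    have hkl' : (k : ℕ) ≠ l := fun h => hkl (Fin.ext h)
    by_cases h1 : (l : ℕ) = k + 1
    · rw [if_pos (Or.inl h1), if_pos h1, if_neg (by omega)]
      ring
    · by_cases h2 : (k : ℕ) = l + 1
      · rw [if_pos (Or.inr h2), if_neg h1, if_pos h2]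
        ring
      · rw [if_neg (by omega), if_neg h1, if_neg h2]
        ring

private theorem cm_Hg {v : ℝ} (hv : 0 < v) (m : ℕ) : Hg v m =
    (c1 v ^ 2) • cmG v m + (s1 v ^ 2) • cmF v m - (1 / 2 : ℝ) • (Um m + (Um m)ᵀ) := by
  ext k l
  have h := cm_cc hv
  simp only [Hg, cmF, cmG, Um, Matrix.of_apply, Matrix.sub_apply, Matrix.add_apply,
    Matrix.smul_apply, Matrix.transpose_apply, smul_eq_mul, Matrix.diagonal_apply, df, dg]
  by_cases hkl : k = l
  · subst hkl
    simp only [if_true, if_neg (show ¬ ((k : ℕ) = k + 1) by omega)]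
    rw [← h]
    split_ifs <;> ring
  · rw [if_neg hkl, if_neg hkl, if_neg hkl]
    have hkl' : (k : ℕ) ≠ l := fun h => hkl (Fin.ext h)
    by_cases h1 : (l : ℕ) = k + 1
    · rw [if_pos (Or.inl h1), if_pos h1, if_neg (by omega)]
      ring
    · by_cases h2 : (k : ℕ) = l + 1
      · rw [if_pos (Or.inr h2), if_neg h1, if_pos h2]
        ring
      · rw [if_neg (by omega), if_neg h1, if_neg h2]
        ring

private theorem cm_Lm {v : ℝ} (m : ℕ) : Lm v m =
    (c1 v * s1 v) • (cmF v m + cmG v m) -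
      ((c1 v ^ 2 / v) • Um m + (s1 v ^ 2 / v) • (Um m)ᵀ) := by
  ext k l
  simp only [Lm, cmF, cmG, Um, Matrix.of_apply, Matrix.sub_apply, Matrix.add_apply,
    Matrix.smul_apply, Matrix.transpose_apply, smul_eq_mul, Matrix.diagonal_apply]
  by_cases hkl : k = l
  · subst hkl
    simp only [if_true, if_neg (show ¬ ((k : ℕ) = k + 1) by omega)]
    ring
  · rw [if_neg hkl, if_neg hkl, if_neg hkl]
    have hkl' : (k : ℕ) ≠ l := fun h => hkl (Fin.ext h)
    by_cases h1 : (l : ℕ) = k + 1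
    · rw [if_pos h1, if_pos h1, if_neg (by omega)]
      ring
    · by_cases h2 : (k : ℕ) = l + 1
      · rw [if_neg h1, if_pos h2, if_neg h1, if_pos h2]
        ring
      · rw [if_neg h1, if_neg h2, if_neg h1, if_neg h2]
        ring

private theorem cm_FU (v : ℝ) (m : ℕ) : Um m * cmF v m = cmG v m * Um m := by
  ext k l
  rw [cmF, cmG, Matrix.mul_diagonal, Matrix.diagonal_mul, Um, Matrix.of_apply]
  by_cases h : (l : ℕ) = k + 1
  · have := l.2
    rw [if_pos h, df, dg, if_neg (by omega), if_neg (by omega)]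
    ring
  · rw [if_neg h]; ring

private theorem cm_UG (v : ℝ) (m : ℕ) : (Um m)ᵀ * cmG v m = cmF v m * (Um m)ᵀ := by
  have h := congrArg Matrix.transpose (cm_FU v m)
  rw [Matrix.transpose_mul, Matrix.transpose_mul, cmF, cmG, Matrix.diagonal_transpose,
    Matrix.diagonal_transpose] at h
  exact h.symm

private theorem cm_GF (v : ℝ) (m : ℕ) : cmG v m * cmF v m = cmF v m * cmG v m := by
  rw [cmF, cmG, Matrix.diagonal_mul_diagonal, Matrix.diagonal_mul_diagonal]
  congr 1
  funext k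
  ring

private theorem cm_UUt {v : ℝ} (hv : 0 < v) (m : ℕ) :
    Um m * (Um m)ᵀ = (v ^ 2) • (cmG v m * cmG v m - 1) := by
  ext k l
  rw [cmG, Matrix.diagonal_mul_diagonal, Matrix.mul_apply, Matrix.smul_apply, Matrix.sub_apply,
    Matrix.diagonal_apply, Matrix.one_apply, smul_eq_mul]
  simp only [Um, Matrix.transpose_apply, Matrix.of_apply]
  have hc := cm_Cw_sq hv
  by_cases hkl : k = l
  · subst hkl
    rw [if_pos rfl, if_pos rfl, dg]
    by_cases h : (k : ℕ) + 1 = m
    · rw [if_pos h, Finset.sum_eq_zero]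
      · ring
      · intro x _
        have := x.2
        rw [if_neg (by omega)]; ring
    · rw [if_neg h, Finset.sum_eq_single (⟨k + 1, by omega⟩ : Fin m)]
      · simp only [if_true]
        field_simp at hc ⊢
        linear_combination -hc
      · intro b _ hb
        rw [if_neg (fun h' => hb (Fin.ext h'))]; ring
      · intro h'
        exact absurd (Finset.mem_univ _) h'
  · rw [if_neg hkl, if_neg hkl, Finset.sum_eq_zero]
    · ring
    · intro x _
      have hkl' : (k : ℕ) ≠ l := fun h => hkl (Fin.ext h)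
      by_cases h1 : (x : ℕ) = k + 1
      · rw [if_neg (show ¬ ((x : ℕ) = l + 1) by omega)]; ring
      · rw [if_neg h1]; ring

private theorem cm_UtU {v : ℝ} (hv : 0 < v) (m : ℕ) :
    (Um m)ᵀ * Um m = (v ^ 2) • (cmF v m * cmF v m - 1) := by
  ext k l
  rw [cmF, Matrix.diagonal_mul_diagonal, Matrix.mul_apply, Matrix.smul_apply, Matrix.sub_apply,
    Matrix.diagonal_apply, Matrix.one_apply, smul_eq_mul]
  simp only [Um, Matrix.transpose_apply, Matrix.of_apply]
  have hc := cm_Cw_sq hv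
  by_cases hkl : k = l
  · subst hkl
    rw [if_pos rfl, if_pos rfl, df]
    by_cases h : (k : ℕ) = 0
    · rw [if_pos h, Finset.sum_eq_zero]
      · ring
      · intro x _
        rw [if_neg (by omega)]; ring
    · rw [if_neg h, Finset.sum_eq_single (⟨k - 1, by omega⟩ : Fin m)]
      · rw [if_pos (by simp only; omega)]
        field_simp at hc ⊢
        linear_combination -hc
      · intro b _ hb
        rw [if_neg (fun h' => hb (Fin.ext (by simp only; omega)))]; ring
      · intro h'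
        exact absurd (Finset.mem_univ _) h'
  · rw [if_neg hkl, if_neg hkl, Finset.sum_eq_zero]
    · ring
    · intro x _
      have hkl' : (k : ℕ) ≠ l := fun h => hkl (Fin.ext h)
      by_cases h1 : (k : ℕ) = x + 1
      · rw [if_neg (show ¬ ((l : ℕ) = x + 1) by omega)]; ring
      · rw [if_neg h1]; ring

theorem Hf_symm (v : ℝ) (m : ℕ) : (Hf v m)ᵀ = Hf v m := by
  ext k l
  rw [Matrix.transpose_apply, Hf, Matrix.of_apply, Matrix.of_apply]
  by_cases hkl : k = l
  · subst hkl; rfl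
  · rw [if_neg (Ne.symm hkl), if_neg hkl]
    congr 1
    exact propext Or.comm

theorem Hg_symm (v : ℝ) (m : ℕ) : (Hg v m)ᵀ = Hg v m := by
  ext k l
  rw [Matrix.transpose_apply, Hg, Matrix.of_apply, Matrix.of_apply]
  by_cases hkl : k = l
  · subst hkl; rfl
  · rw [if_neg (Ne.symm hkl), if_neg hkl]
    congr 1
    exact propext Or.comm

private theorem cm_LmT {v : ℝ} (m : ℕ) : (Lm v m)ᵀ =
    (c1 v * s1 v) • (cmF v m + cmG v m) -
      ((c1 v ^ 2 / v) • (Um m)ᵀ + (s1 v ^ 2 / v) • Um m) := by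
  rw [cm_Lm]
  simp only [Matrix.transpose_sub, Matrix.transpose_add, Matrix.transpose_smul,
    Matrix.transpose_transpose, cmF, cmG, Matrix.diagonal_transpose]

theorem Lm_mul_transpose {v : ℝ} (hv : 0 < v) (m : ℕ) :
    Lm v m * (Lm v m)ᵀ = Hg v m * Hg v m - 1 := by
  rw [cm_LmT, cm_Lm, cm_Hg hv]
  have h1 := cm_FU v m
  have h2 := cm_UG v m
  have h3 := cm_GF v m
  have h4 := cm_UUt hv m
  have h5 := cm_UtU hv m
  have hp := cm_prod hv
  have hd := cm_diff v
  simp only [mul_add, add_mul, mul_sub, sub_mul, smul_mul_assoc, mul_smul_comm, smul_add, smul_sub,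
    smul_smul, h1, h2, h3, h4, h5]
  match_scalars
  all_goals
    clear h1 h2 h3 h4 h5
    have hv0 : v ≠ 0 := hv.ne'
    generalize c1 v = c at *
    generalize s1 v = s at *
    subst hp
    grind

theorem transpose_mul_Lm {v : ℝ} (hv : 0 < v) (m : ℕ) :
    (Lm v m)ᵀ * Lm v m = Hf v m * Hf v m - 1 := by
  rw [cm_LmT, cm_Lm, cm_Hf hv]
  have h1 := cm_FU v m
  have h2 := cm_UG v m
  have h3 := cm_GF v m
  have h4 := cm_UUt hv m
  have h5 := cm_UtU hv m
  have hp := cm_prod hv
  have hd := cm_diff v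
  simp only [mul_add, add_mul, mul_sub, sub_mul, smul_mul_assoc, mul_smul_comm, smul_add, smul_sub,
    smul_smul, h1, h2, h3, h4, h5]
  match_scalars
  all_goals
    clear h1 h2 h3 h4 h5
    have hv0 : v ≠ 0 := hv.ne'
    generalize c1 v = c at *
    generalize s1 v = s at *
    subst hp
    grind

theorem Lm_mul_Hf {v : ℝ} (hv : 0 < v) (m : ℕ) : Lm v m * Hf v m = Hg v m * Lm v m := by
  rw [cm_Lm, cm_Hf hv, cm_Hg hv]
  have h1 := cm_FU v m
  have h2 := cm_UG v m
  have h3 := cm_GF v m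
  have h4 := cm_UUt hv m
  have h5 := cm_UtU hv m
  have hp := cm_prod hv
  have hd := cm_diff v
  simp only [mul_add, add_mul, mul_sub, sub_mul, smul_mul_assoc, mul_smul_comm, smul_add, smul_sub,
    smul_smul, h1, h2, h3, h4, h5]
  match_scalars
  all_goals
    clear h1 h2 h3 h4 h5
    have hv0 : v ≠ 0 := hv.ne'
    generalize c1 v = c at *
    generalize s1 v = s at *
    subst hp
    grind

private theorem cm_Cw_one {v : ℝ} (hv : 0 < v) : 1 ≤ Cw v := by
  rw [Cw, le_div_iff₀ hv, one_mul]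
  apply Real.le_sqrt_of_sq_le
  linarith

private theorem cm_bd {v : ℝ} (hv : 1 < v) : (Cw v - 1) * c1 v ^ 2 ≤ 1 / 2 := by
  have hv0 : 0 < v := by linarith
  have h := cm_Cs_sq v
  have e : Cw v = Cs v / v := rfl
  have h1 : v - 1 ≤ Cs v := by
    rw [Cs]
    apply Real.le_sqrt_of_sq_le
    nlinarith
  rw [e, cm_c1_sq]
  have h2 : (Cs v / v - 1) * ((Cs v + 1) / 2) = (Cs v - v) * (Cs v + 1) / (2 * v) := by
    field_simp
  rw [h2, div_le_div_iff₀ (by positivity) (by norm_num)]
  nlinarith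

private theorem cm_bd' {v : ℝ} (hv : 1 < v) : (Cw v - 1) * s1 v ^ 2 ≤ 1 / 2 := by
  have h1 := cm_bd hv
  have h2 := cm_diff v
  have h3 := cm_Cw_one (show 0 < v by linarith)
  have h4 : s1 v ^ 2 = c1 v ^ 2 - 1 := by linarith
  rw [h4]
  nlinarith

/-- the common estimate of the row sums -/
private theorem cm_row {m : ℕ} (k : Fin m) (A B : ℝ) (hA' : A ≤ 1 / 2)
    (hB' : B ≤ 1 / 2) (H : Matrix (Fin m) (Fin m) ℝ)
    (hH : ∀ l, |H k l| ≤ (if k = l then (if (k : ℕ) = 0 then A else 0) +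
      (if (k : ℕ) + 1 = m then B else 0) else 0) +
      ((if (l : ℕ) = k + 1 then 1 / 2 else 0) + (if (k : ℕ) = l + 1 then 1 / 2 else 0))) :
    ∑ l, |H k l| ≤ 1 := by
  refine (Finset.sum_le_sum fun l _ => hH l).trans ?_
  rw [Finset.sum_add_distrib, Finset.sum_add_distrib, Finset.sum_ite_eq, if_pos (Finset.mem_univ _)]
  have e1 : ∑ l : Fin m, (if (l : ℕ) = k + 1 then (1 / 2 : ℝ) else 0) =
      if (k : ℕ) + 1 = m then 0 else 1 / 2 := by
    by_cases h : (k : ℕ) + 1 = m
    · rw [if_pos h, Finset.sum_eq_zero]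
      intro x _
      have := x.2
      rw [if_neg (by omega)]
    · rw [if_neg h, Finset.sum_eq_single (⟨k + 1, by omega⟩ : Fin m)]
      · simp only [if_true]
      · intro b _ hb
        rw [if_neg (fun h' => hb (Fin.ext h'))]
      · intro h'
        exact absurd (Finset.mem_univ _) h'
  have e2 : ∑ l : Fin m, (if (k : ℕ) = l + 1 then (1 / 2 : ℝ) else 0) =
      if (k : ℕ) = 0 then 0 else 1 / 2 := by
    by_cases h : (k : ℕ) = 0
    · rw [if_pos h, Finset.sum_eq_zero]
      intro x _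
      rw [if_neg (by omega)]
    · rw [if_neg h, Finset.sum_eq_single (⟨k - 1, by omega⟩ : Fin m)]
      · rw [if_pos (by simp only; omega)]
      · intro b _ hb
        rw [if_neg (fun h' => hb (Fin.ext (by simp only; omega)))]
      · intro h'
        exact absurd (Finset.mem_univ _) h'
  rw [e1, e2]
  split_ifs <;> linarith

theorem Hf_row {v : ℝ} (hv : 1 < v) (m : ℕ) (k : Fin m) :
    ∑ l, |(Hf v m - (cc v) • (1 : Matrix (Fin m) (Fin m) ℝ)) k l| ≤ 1 := by
  have h0 : 0 ≤ Cw v - 1 := by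
    have := cm_Cw_one (show 0 < v by linarith)
    linarith
  apply cm_row k ((Cw v - 1) * c1 v ^ 2) ((Cw v - 1) * s1 v ^ 2)
    (cm_bd hv) (cm_bd' hv)
  intro l
  rw [Matrix.sub_apply, Matrix.smul_apply, Matrix.one_apply, smul_eq_mul, Hf, Matrix.of_apply]
  by_cases hkl : k = l
  · subst hkl
    simp only [if_true, if_neg (show ¬ ((k : ℕ) = k + 1) by omega)]
    rw [mul_one, sub_right_comm, sub_self, zero_sub, abs_neg, abs_of_nonneg]
    · rw [mul_add]
      split_ifs <;> simp
    · apply mul_nonneg h0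
      apply add_nonneg <;> split_ifs <;> positivity
  · rw [if_neg hkl, if_neg hkl, if_neg hkl, mul_zero, sub_zero, zero_add]
    by_cases h1 : (l : ℕ) = k + 1
    · rw [if_pos (Or.inl h1), if_pos h1, if_neg (by omega)]
      norm_num
    · by_cases h2 : (k : ℕ) = l + 1
      · rw [if_pos (Or.inr h2), if_neg h1, if_pos h2]
        norm_num
      · rw [if_neg (by omega), if_neg h1, if_neg h2]
        norm_num

theorem Hg_row {v : ℝ} (hv : 1 < v) (m : ℕ) (k : Fin m) :
    ∑ l, |(Hg v m - (cc v) • (1 : Matrix (Fin m) (Fin m) ℝ)) k l| ≤ 1 := by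
  have h0 : 0 ≤ Cw v - 1 := by
    have := cm_Cw_one (show 0 < v by linarith)
    linarith
  apply cm_row k ((Cw v - 1) * s1 v ^ 2) ((Cw v - 1) * c1 v ^ 2)
    (cm_bd' hv) (cm_bd hv)
  intro l
  rw [Matrix.sub_apply, Matrix.smul_apply, Matrix.one_apply, smul_eq_mul, Hg, Matrix.of_apply]
  by_cases hkl : k = l
  · subst hkl
    simp only [if_true, if_neg (show ¬ ((k : ℕ) = k + 1) by omega)]
    rw [mul_one, sub_right_comm, sub_self, zero_sub, abs_neg, abs_of_nonneg]
    · rw [mul_add]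
      split_ifs <;> simp
    · apply mul_nonneg h0
      apply add_nonneg <;> split_ifs <;> positivity
  · rw [if_neg hkl, if_neg hkl, if_neg hkl, mul_zero, sub_zero, zero_add]
    by_cases h1 : (l : ℕ) = k + 1
    · rw [if_pos (Or.inl h1), if_pos h1, if_neg (by omega)]
      norm_num
    · by_cases h2 : (k : ℕ) = l + 1
      · rw [if_pos (Or.inr h2), if_neg h1, if_pos h2]
        norm_num
      · rw [if_neg (by omega), if_neg h1, if_neg h2]
        norm_num

end

end IsingS2
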