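import Pool.Agent.Helper98.IS.Defs2

/-!
# IS-08: elementary facts on the couplings
-/

namespace IsingS2

open Complex Set MeasureTheory Filter Topology IsingNB
open scoped Real Matrix

noncomputable section

theorem Cs_sq (v : ℝ) : Cs v ^ 2 = 1 + v ^ 2 := by
  unfold Cs
  exact Real.sq_sqrt (by positivity)

theorem Cs_pos (v : ℝ) : 0 < Cs v := by
  unfold Cs
  exact Real.sqrt_pos.mpr (by positivity)

theorem one_lt_Cs {v : ℝ} (hv : 0 < v) : 1 < Cs v := by
  have h := Cs_sq v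
  have h0 := Cs_pos v
  nlinarith [mul_pos hv hv]

theorem lt_Cs (v : ℝ) : v < Cs v := by
  have h := Cs_sq v
  have h0 := Cs_pos v
  nlinarith

theorem c1_sq {v : ℝ} (hv : 0 < v) : c1 v ^ 2 = (Cs v + 1) / 2 := by
  unfold c1
  exact Real.sq_sqrt (by linarith [one_lt_Cs hv])

theorem s1_sq {v : ℝ} (hv : 0 < v) : s1 v ^ 2 = (Cs v - 1) / 2 := by
  unfold s1
  exact Real.sq_sqrt (by linarith [one_lt_Cs hv])

theorem c1_pos {v : ℝ} (hv : 0 < v) : 0 < c1 v := by
  unfold c1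
  exact Real.sqrt_pos.mpr (by linarith [one_lt_Cs hv])

theorem s1_pos {v : ℝ} (hv : 0 < v) : 0 < s1 v := by
  unfold s1
  exact Real.sqrt_pos.mpr (by linarith [one_lt_Cs hv])

theorem two_c1_s1 {v : ℝ} (hv : 0 < v) : 2 * c1 v * s1 v = v := by
  have h1 := c1_sq hv
  have h2 := s1_sq hv
  have h3 := Cs_sq v
  have hp : 0 ≤ 2 * c1 v * s1 v := by
    have := c1_pos hv
    have := s1_pos hv
    positivity
  have : (2 * c1 v * s1 v) ^ 2 = v ^ 2 := by
    rw [mul_pow, mul_pow, h1, h2]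
    nlinarith
  exact (pow_left_inj₀ hp hv.le two_ne_zero).mp this

theorem cosh_two_κs {v : ℝ} (hv : 0 < v) : Real.cosh (2 * κs v) = Cs v := by
  unfold κs Cs
  rw [mul_div_cancel₀ _ (two_ne_zero), Real.cosh_arsinh]

theorem sinh_two_κs {v : ℝ} (hv : 0 < v) : Real.sinh (2 * κs v) = v := by
  unfold κs
  rw [mul_div_cancel₀ _ (two_ne_zero), Real.sinh_arsinh]

theorem cosh_two_κw {v : ℝ} (hv : 0 < v) : Real.cosh (2 * κw v) = Cw v := by
  unfold κw Cw
  rw [mul_div_cancel₀ _ (two_ne_zero), Real.cosh_arsinh]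
  rw [show (1 : ℝ) + (1 / v) ^ 2 = (1 + v ^ 2) / v ^ 2 by field_simp; ring]
  rw [Real.sqrt_div (by positivity), Real.sqrt_sq hv.le]

theorem sinh_two_κw {v : ℝ} (hv : 0 < v) : Real.sinh (2 * κw v) = 1 / v := by
  unfold κw
  rw [mul_div_cancel₀ _ (two_ne_zero), Real.sinh_arsinh]

theorem κs_pos {v : ℝ} (hv : 0 < v) : 0 < κs v := by
  unfold κs
  have := Real.arsinh_pos_iff.mpr hv
  positivity

theorem c1_eq_cosh {v : ℝ} (hv : 0 < v) : c1 v = Real.cosh (κs v) := by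
  have h1 := c1_sq hv
  have h2 := cosh_two_κs hv
  rw [Real.cosh_two_mul] at h2
  have h3 := Real.cosh_sq (κs v)
  have h : c1 v ^ 2 = Real.cosh (κs v) ^ 2 := by
    rw [h1]; linarith
  exact (pow_left_inj₀ (c1_pos hv).le (Real.cosh_pos _).le two_ne_zero).mp h

theorem s1_eq_sinh {v : ℝ} (hv : 0 < v) : s1 v = Real.sinh (κs v) := by
  have h1 := s1_sq hv
  have h2 := cosh_two_κs hv
  rw [Real.cosh_two_mul] at h2
  have h3 := Real.cosh_sq (κs v)
  have h : s1 v ^ 2 = Real.sinh (κs v) ^ 2 := by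
    rw [h1]; linarith
  exact (pow_left_inj₀ (s1_pos hv).le (Real.sinh_pos_iff.mpr (κs_pos hv)).le two_ne_zero).mp h

theorem exp_neg_two_κw {v : ℝ} (hv : 0 < v) : Real.exp (-(2 * κw v)) = (Cs v - 1) / v := by
  have := Real.cosh_sub_sinh (2 * κw v)
  rw [← this, cosh_two_κw hv, sinh_two_κw hv]
  unfold Cw Cs
  field_simp

theorem tanh_κs {v : ℝ} (hv : 0 < v) :
    Real.sinh (κs v) = Real.exp (-(2 * κw v)) * Real.cosh (κs v) := by
  rw [← s1_eq_sinh hv, ← c1_eq_cosh hv, exp_neg_two_κw hv]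
  have h2 := s1_sq hv
  have h3 := two_c1_s1 hv
  have h4 : Cs v - 1 = 2 * s1 v ^ 2 := by linarith
  rw [h4]
  field_simp
  linear_combination (-(s1 v)) * h3

theorem tanh_κw {v : ℝ} (hv : 0 < v) :
    Real.sinh (κw v) = Real.exp (-(2 * κs v)) * Real.cosh (κw v) := by
  have h := tanh_κs (v := 1 / v) (by positivity)
  have h1 : κs (1 / v) = κw v := rfl
  have h2 : κw (1 / v) = κs v := by
    unfold κs κw
    rw [one_div_one_div]
  rw [h1, h2] at h
  exact h

theorem cc_gt_two {v : ℝ} (hv : 1 < v) : 2 < cc v := by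
  unfold cc
  have h0 : 0 < v := by linarith
  rw [← sub_pos]
  have : v + 1 / v - 2 = (v - 1) ^ 2 / v := by field_simp; ring
  rw [this]
  have : 0 < (v - 1) ^ 2 := by
    have : v - 1 ≠ 0 := by linarith
    positivity
  positivity

theorem Cs_mul_Cw {v : ℝ} (hv : 0 < v) : Cs v * Cw v = cc v := by
  have h := Cs_sq v
  have h1 : Cw v = Cs v / v := rfl
  rw [h1, cc]
  field_simp
  linarith

theorem one_lt_Cw {v : ℝ} (hv : 0 < v) : 1 < Cw v := by
  have h1 : Cw v = Cs v / v := rfl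
  rw [h1, lt_div_iff₀ hv, one_mul]
  exact lt_Cs v

theorem boundary_ineq {v : ℝ} (hv : 1 < v) : (Cw v - 1) * c1 v ^ 2 ≤ 1 / 2 := by
  have h0 : 0 < v := by linarith
  have h1 : Cw v = Cs v / v := rfl
  have h := Cs_sq v
  have hl := lt_Cs v
  rw [c1_sq h0, h1]
  have h2 : (Cs v / v - 1) * ((Cs v + 1) / 2) = 1 / 2 - (v - 1) * (Cs v - (v - 1)) / (2 * v) := by
    field_simp
    linear_combination h
  rw [h2]
  have h3 : 0 ≤ (v - 1) * (Cs v - (v - 1)) / (2 * v) := by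
    apply div_nonneg _ (by positivity)
    apply mul_nonneg
    · linarith
    · linarith
  linarith

theorem boundary_ineq' {v : ℝ} (hv : 1 < v) : (Cw v - 1) * s1 v ^ 2 ≤ 1 / 2 := by
  have h0 : 0 < v := by linarith
  refine le_trans ?_ (boundary_ineq hv)
  apply mul_le_mul_of_nonneg_left
  · rw [c1_sq h0, s1_sq h0]; linarith
  · linarith [one_lt_Cw h0]

theorem tt_pos {v : ℝ} (hv : 0 < v) : 0 < tt v := by
  unfold tt
  exact div_pos (s1_pos hv) (c1_pos hv)

theorem tt_lt_one {v : ℝ} (hv : 0 < v) : tt v < 1 := by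
  unfold tt
  rw [div_lt_one (c1_pos hv)]
  have h1 := c1_sq hv
  have h2 := s1_sq hv
  have h3 := c1_pos hv
  have h4 := s1_pos hv
  nlinarith

theorem one_sub_tt_sq {v : ℝ} (hv : 0 < v) : 1 - tt v ^ 2 = 1 / c1 v ^ 2 := by
  unfold tt
  have h1 := c1_sq hv
  have h2 := s1_sq hv
  have h3 := c1_pos hv
  rw [div_pow]
  field_simp
  rw [h1, h2]
  ring

/-- `v = 2 t / (1 - t^2)` -/
theorem v_eq_tt {v : ℝ} (hv : 0 < v) : v = 2 * tt v / (1 - tt v ^ 2) := by
  have h1 := two_c1_s1 hv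
  have h3 := c1_pos hv
  rw [one_sub_tt_sq hv]
  unfold tt
  field_simp
  linarith

theorem Cs_eq_tt {v : ℝ} (hv : 0 < v) : Cs v = (1 + tt v ^ 2) / (1 - tt v ^ 2) := by
  have h1 := c1_sq hv
  have h2 := s1_sq hv
  have h3 := c1_pos hv
  rw [one_sub_tt_sq hv]
  unfold tt
  rw [div_pow]
  field_simp
  linarith

theorem al1_pos {v : ℝ} (hv : 0 < v) : 0 < al1 v := by
  unfold al1
  have h1 := tt_pos hv
  have h2 := tt_lt_one hv
  apply div_pos (mul_pos h1 (by linarith)) (by linarith)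

theorem al1_lt {v : ℝ} (hv : 1 < v) : al1 v < al2 v := by
  have h0 : 0 < v := by linarith
  have h1 := tt_pos h0
  have h2 := tt_lt_one h0
  unfold al1 al2
  rw [div_lt_div_iff₀ (by linarith) (by positivity)]
  have h3 : tt v * tt v < 1 := by nlinarith
  have h4 : 0 < (1 - tt v) * (1 + tt v) := mul_pos (by linarith) (by linarith)
  nlinarith

theorem al2_lt_one {v : ℝ} (hv : 1 < v) : al2 v < 1 := by
  have h0 : 0 < v := by linarith
  have h1 := tt_pos h0
  have h2 := tt_lt_one h0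
  unfold al2
  rw [div_lt_one (by positivity)]
  have h3 := v_eq_tt h0
  have h4 : 0 < 1 - tt v ^ 2 := by nlinarith
  rw [h3, lt_div_iff₀ h4] at hv
  nlinarith

/-- the prefactor `A = 1 / (1 - t) * (1 + t) / 2` -/
theorem Lx_factor {v : ℝ} (hv : 1 < v) {x : ℂ} (hx : x ≠ 0) :
    Lx v x = ((1 + tt v) / (2 * (1 - tt v)) : ℝ) * (1 - al1 v * x) * (1 - al2 v * x⁻¹) := by
  have h0 : 0 < v := by linarith
  have h1 := tt_pos h0
  have h2 := tt_lt_one h0
  have hc := c1_pos h0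
  have hs := s1_pos h0
  have h2cs := two_c1_s1 h0
  have h3 : (1 : ℝ) - tt v ≠ 0 := by linarith
  have h4 : (1 : ℝ) + tt v ≠ 0 := by linarith
  have h5 : tt v ≠ 0 := h1.ne'
  have h6 : (1 : ℝ) - tt v ^ 2 ≠ 0 := by
    rw [show (1 : ℝ) - tt v ^ 2 = (1 - tt v) * (1 + tt v) by ring]
    exact mul_ne_zero h3 h4
  have e1 : (1 + tt v) / (2 * (1 - tt v)) * al2 v = c1 v ^ 2 / v := by
    have : c1 v ^ 2 / v = 1 / (2 * tt v) := by
      nth_rw 2 [← h2cs]
      unfold tt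
      field_simp
    rw [this]
    unfold al2
    field_simp
  have e2 : (1 + tt v) / (2 * (1 - tt v)) * al1 v = s1 v ^ 2 / v := by
    have : s1 v ^ 2 / v = tt v / 2 := by
      nth_rw 2 [← h2cs]
      unfold tt
      field_simp
    rw [this]
    unfold al1
    field_simp
  have e3 : (1 + tt v) / (2 * (1 - tt v)) * (1 + al1 v * al2 v) = Cs v := by
    rw [Cs_eq_tt h0]
    unfold al1 al2
    rw [show (1 : ℝ) - tt v ^ 2 = (1 - tt v) * (1 + tt v) by ring]
    field_simp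
    ring
  unfold Lx
  rw [← e1, ← e2, ← e3]
  push_cast
  field_simp
  ring

theorem cc_add_one {v : ℝ} (hv : 1 < v) : (al1 v + 1 / al1 v) / 2 = cc v + 1 := by
  have h0 : 0 < v := by linarith
  have h1 := tt_pos h0
  have h2 := tt_lt_one h0
  have h3 : (1 : ℝ) - tt v ≠ 0 := by linarith
  have h4 : (1 : ℝ) + tt v ≠ 0 := by linarith
  have h5 : tt v ≠ 0 := h1.ne'
  have h7 : cc v = 2 * tt v / ((1 - tt v) * (1 + tt v)) + (1 - tt v) * (1 + tt v) / (2 * tt v) := by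
    unfold cc
    have := v_eq_tt h0
    rw [show (1 : ℝ) - tt v ^ 2 = (1 - tt v) * (1 + tt v) by ring] at this
    have h8 : 1 / v = (1 - tt v) * (1 + tt v) / (2 * tt v) := by
      nth_rw 1 [this]
      field_simp
    rw [h8]
    nth_rw 1 [this]
  rw [h7]
  unfold al1
  field_simp
  ring

theorem cc_sub_one {v : ℝ} (hv : 1 < v) : (al2 v + 1 / al2 v) / 2 = cc v - 1 := by
  have h0 : 0 < v := by linarith
  have h1 := tt_pos h0
  have h2 := tt_lt_one h0
  have h3 : (1 : ℝ) - tt v ≠ 0 := by linarith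
  have h4 : (1 : ℝ) + tt v ≠ 0 := by linarith
  have h5 : tt v ≠ 0 := h1.ne'
  have h7 : cc v = 2 * tt v / ((1 - tt v) * (1 + tt v)) + (1 - tt v) * (1 + tt v) / (2 * tt v) := by
    unfold cc
    have := v_eq_tt h0
    rw [show (1 : ℝ) - tt v ^ 2 = (1 - tt v) * (1 + tt v) by ring] at this
    have h8 : 1 / v = (1 - tt v) * (1 + tt v) / (2 * tt v) := by
      nth_rw 1 [this]
      field_simp
    rw [h8]
    nth_rw 1 [this]
  rw [h7]
  unfold al2
  field_simp
  ring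

theorem al1_div_al2 {v : ℝ} (hv : 1 < v) : al1 v / al2 v = tt v ^ 2 := by
  have h0 : 0 < v := by linarith
  have h1 := tt_pos h0
  have h2 := tt_lt_one h0
  have h3 : (1 : ℝ) - tt v ≠ 0 := by linarith
  have h4 : (1 : ℝ) + tt v ≠ 0 := by linarith
  have h5 : tt v ≠ 0 := h1.ne'
  unfold al1 al2
  field_simp

theorem al_identity {v : ℝ} (hv : 1 < v) :
    (1 - al1 v ^ 2) * (1 - al2 v ^ 2) / (1 - al1 v * al2 v) ^ 2 = 1 - 1 / v ^ 4 := by
  have h0 : 0 < v := by linarith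
  have h1 := tt_pos h0
  have h2 := tt_lt_one h0
  have h3 : (1 : ℝ) - tt v ≠ 0 := by linarith
  have h4 : (1 : ℝ) + tt v ≠ 0 := by linarith
  have h5 : tt v ≠ 0 := h1.ne'
  have h7 : v = 2 * tt v / ((1 - tt v) * (1 + tt v)) := by
    have := v_eq_tt h0
    rwa [show (1 : ℝ) - tt v ^ 2 = (1 - tt v) * (1 + tt v) by ring] at this
  have h8 : 1 / v ^ 4 = ((1 - tt v) * (1 + tt v)) ^ 4 / (2 * tt v) ^ 4 := by
    nth_rw 1 [h7]
    field_simp
  rw [h8]
  have h9 : 1 - al1 v * al2 v = 4 * tt v / (1 + tt v) ^ 2 := by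
    unfold al1 al2
    field_simp
    ring
  rw [h9]
  unfold al1 al2
  field_simp
  ring

end

end IsingS2
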