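import Pool.Agent.Helper98.IS.Defs2
import Pool.Agent.Helper98.IS.Coupling
import Pool.Agent.Helper98.IS.ChainMat
import Pool.Agent.Helper98.IS.ASpec

/-!
# The matrices b and w
-/

namespace IsingS2

open Complex Set MeasureTheory Filter Topology IsingNB
open scoped Real Matrix

noncomputable section


private theorem bw_S {v : ℝ} (hv : 1 < v) (m : ℕ) :
    ∃ S : Matrix (Fin m) (Fin m) ℝ, bm v m = Lm v m * S ∧ Sᵀ = S ∧
      Hf v m * S = S * Hf v m ∧ S * S * (Hf v m * Hf v m - 1) = 1 ∧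
      ∀ x : Fin m → ℝ, 0 ≤ x ⬝ᵥ S.mulVec x := by
  have hX : (Hf v m - (cc v) • (1 : Matrix (Fin m) (Fin m) ℝ))ᵀ =
      Hf v m - (cc v) • (1 : Matrix (Fin m) (Fin m) ℝ) := by
    rw [Matrix.transpose_sub, Hf_symm, Matrix.transpose_smul, Matrix.transpose_one]
  obtain ⟨h1, h2, h3, h4⟩ := aS_spec (cc_gt_two hv) _ hX (Hf_row hv m)
  refine ⟨aS (cc v) (Hf v m - (cc v) • 1), rfl, h1, ?_, ?_, h4⟩
  · rw [Matrix.sub_mul, Matrix.mul_sub, Matrix.smul_mul, Matrix.mul_smul, Matrix.one_mul,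
      Matrix.mul_one] at h2
    exact sub_left_injective h2
  · rwa [sub_add_cancel] at h3

private theorem bw_mid {v : ℝ} (hv : 1 < v) {m : ℕ} {S : Matrix (Fin m) (Fin m) ℝ}
    (h3 : Hf v m * S = S * Hf v m) (h4 : S * S * (Hf v m * Hf v m - 1) = 1) :
    S * (Lm v m)ᵀ * Lm v m * S = 1 := by
  rw [Matrix.mul_assoc S, transpose_mul_Lm (by linarith)]
  have h5 : (Hf v m * Hf v m - 1) * S = S * (Hf v m * Hf v m - 1) := by
    rw [Matrix.sub_mul, Matrix.mul_sub, Matrix.one_mul, Matrix.mul_one, Matrix.mul_assoc, h3,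
      ← Matrix.mul_assoc, h3, Matrix.mul_assoc]
  rw [Matrix.mul_assoc, h5, ← Matrix.mul_assoc, h4]

theorem transpose_mul_bm {v : ℝ} (hv : 1 < v) (m : ℕ) : (bm v m)ᵀ * bm v m = 1 := by
  obtain ⟨S, h1, h2, h3, h4, h5⟩ := bw_S hv m
  rw [h1, Matrix.transpose_mul, h2, ← Matrix.mul_assoc]
  exact bw_mid hv h3 h4

theorem bm_mul_transpose {v : ℝ} (hv : 1 < v) (m : ℕ) : bm v m * (bm v m)ᵀ = 1 :=
  mul_eq_one_comm.1 (transpose_mul_bm hv m)

theorem wm_symm {v : ℝ} (hv : 1 < v) (m : ℕ) : (wm v m)ᵀ = wm v m := by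
  obtain ⟨S, h1, h2, h3, h4, h5⟩ := bw_S hv m
  rw [wm, Matrix.transpose_sub, Hg_symm, Matrix.transpose_mul, Matrix.transpose_transpose, h1,
    Matrix.transpose_mul, h2, Matrix.mul_assoc]

theorem Hf_mul_bT {v : ℝ} (hv : 1 < v) (m : ℕ) :
    Hf v m * (bm v m)ᵀ = (bm v m)ᵀ * Hg v m := by
  obtain ⟨S, h1, h2, h3, h4, h5⟩ := bw_S hv m
  have h6 := congrArg Matrix.transpose (Lm_mul_Hf (v := v) (by linarith) m)
  rw [Matrix.transpose_mul, Matrix.transpose_mul, Hf_symm, Hg_symm] at h6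
  rw [h1, Matrix.transpose_mul, h2, ← Matrix.mul_assoc, h3, Matrix.mul_assoc, h6,
    Matrix.mul_assoc]

theorem bT_Lm_bT {v : ℝ} (hv : 1 < v) (m : ℕ) :
    (bm v m)ᵀ * Lm v m * (bm v m)ᵀ = (Lm v m)ᵀ := by
  obtain ⟨S, h1, h2, h3, h4, h5⟩ := bw_S hv m
  rw [h1, Matrix.transpose_mul, h2, ← Matrix.mul_assoc, bw_mid hv h3 h4, Matrix.one_mul]

theorem wm_inv {v : ℝ} (hv : 1 < v) (m : ℕ) :
    (Hg v m + Lm v m * (bm v m)ᵀ) * wm v m = 1 := by
  have h1 : Lm v m * (bm v m)ᵀ * Hg v m = Hg v m * (Lm v m * (bm v m)ᵀ) := by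
    rw [Matrix.mul_assoc, ← Hf_mul_bT hv, ← Matrix.mul_assoc, Lm_mul_Hf (by linarith),
      Matrix.mul_assoc]
  have h2 : Lm v m * (bm v m)ᵀ * (Lm v m * (bm v m)ᵀ) = Hg v m * Hg v m - 1 := by
    rw [Matrix.mul_assoc, ← Matrix.mul_assoc (bm v m)ᵀ, bT_Lm_bT hv,
      Lm_mul_transpose (by linarith)]
  rw [wm, Matrix.add_mul, Matrix.mul_sub, Matrix.mul_sub, h1, h2]
  abel

theorem bT_wm {v : ℝ} (hv : 1 < v) (m : ℕ) :
    (bm v m)ᵀ * wm v m = Hf v m * (bm v m)ᵀ - (Lm v m)ᵀ := by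
  rw [wm, Matrix.mul_sub, ← Hf_mul_bT hv, ← Matrix.mul_assoc, bT_Lm_bT hv]

private theorem bw_form {m : ℕ} (X : Matrix (Fin m) (Fin m) ℝ) (hX : Xᵀ = X)
    (hr : ∀ k, ∑ l, |X k l| ≤ 1) (y : Fin m → ℝ) :
    -∑ k, y k ^ 2 ≤ y ⬝ᵥ X.mulVec y := by
  have hsym : ∀ k l, X l k = X k l := fun k l => congrFun (congrFun hX k) l
  have h1 : ∀ k l, -(|X k l| * (y k ^ 2 + y l ^ 2) / 2) ≤ y k * (X k l * y l) := by
    intro k l
    have h2 : |y k * y l| ≤ (y k ^ 2 + y l ^ 2) / 2 := by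
      rw [abs_le]
      constructor <;> nlinarith [sq_nonneg (y k + y l), sq_nonneg (y k - y l)]
    have h3 : |y k * (X k l * y l)| ≤ |X k l| * ((y k ^ 2 + y l ^ 2) / 2) := by
      have : y k * (X k l * y l) = X k l * (y k * y l) := by ring
      rw [this, abs_mul]
      exact mul_le_mul_of_nonneg_left h2 (abs_nonneg _)
    have h4 := neg_abs_le (y k * (X k l * y l))
    linarith
  have h5 : ∑ k, ∑ l, |X k l| * (y k ^ 2 + y l ^ 2) / 2 = ∑ k, y k ^ 2 * ∑ l, |X k l| := by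
    have h6 : ∀ k l, |X k l| * (y k ^ 2 + y l ^ 2) / 2 =
        |X k l| * y k ^ 2 / 2 + |X k l| * y l ^ 2 / 2 := fun k l => by ring
    simp only [h6, Finset.sum_add_distrib]
    have h7 : ∑ k, ∑ l, |X k l| * y l ^ 2 / 2 = ∑ k, ∑ l, |X k l| * y k ^ 2 / 2 := by
      rw [Finset.sum_comm]
      refine Finset.sum_congr rfl fun k _ => Finset.sum_congr rfl fun l _ => ?_
      rw [hsym]
    rw [h7, ← Finset.sum_add_distrib]
    refine Finset.sum_congr rfl fun k _ => ?_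
    rw [← Finset.sum_add_distrib, Finset.mul_sum]
    refine Finset.sum_congr rfl fun l _ => ?_
    ring
  have h8 : ∑ k, y k ^ 2 * ∑ l, |X k l| ≤ ∑ k, y k ^ 2 := by
    refine Finset.sum_le_sum fun k _ => ?_
    have := mul_le_mul_of_nonneg_left (hr k) (sq_nonneg (y k))
    rwa [mul_one] at this
  have h9 : y ⬝ᵥ X.mulVec y = ∑ k, ∑ l, y k * (X k l * y l) := by
    simp only [dotProduct, Matrix.mulVec, Finset.mul_sum]
  rw [h9]
  calc -∑ k, y k ^ 2 ≤ -∑ k, y k ^ 2 * ∑ l, |X k l| := by linarith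
    _ = ∑ k, ∑ l, -(|X k l| * (y k ^ 2 + y l ^ 2) / 2) := by
        rw [← h5]
        simp only [Finset.sum_neg_distrib]
    _ ≤ _ := Finset.sum_le_sum fun k _ => Finset.sum_le_sum fun l _ => h1 k l

theorem wm_contract {v : ℝ} (hv : 1 < v) :
    ∃ ρ : ℝ, 0 < ρ ∧ ρ < 1 ∧ ∀ (m : ℕ) (x : Fin m → ℝ),
      ∑ k, ((wm v m).mulVec x k) ^ 2 ≤ ρ ^ 2 * ∑ k, x k ^ 2 := by
  have hc := cc_gt_two hv
  refine ⟨1 / (cc v - 1), by apply one_div_pos.2; linarith, ?_, fun m x => ?_⟩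
  · rw [div_lt_one (by linarith)]
    linarith
  obtain ⟨S, h1, h2, h3, h4, h5⟩ := bw_S hv m
  set y := (wm v m).mulVec x with hy
  have hK : (Hg v m + Lm v m * (bm v m)ᵀ).mulVec y = x := by
    rw [hy, Matrix.mulVec_mulVec, wm_inv hv, Matrix.one_mulVec]
  have hX : (Hg v m - (cc v) • (1 : Matrix (Fin m) (Fin m) ℝ))ᵀ =
      Hg v m - (cc v) • (1 : Matrix (Fin m) (Fin m) ℝ) := by
    rw [Matrix.transpose_sub, Hg_symm, Matrix.transpose_smul, Matrix.transpose_one]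
  have h6 := bw_form _ hX (Hg_row hv m) y
  have h7 : 0 ≤ y ⬝ᵥ (Lm v m * (bm v m)ᵀ).mulVec y := by
    rw [h1, Matrix.transpose_mul, h2, ← Matrix.mulVec_mulVec, ← Matrix.mulVec_mulVec,
      Matrix.dotProduct_mulVec, ← Matrix.mulVec_transpose]
    exact h5 _
  have h8 : y ⬝ᵥ (Hg v m).mulVec y = y ⬝ᵥ (Hg v m - (cc v) • (1 : Matrix (Fin m) (Fin m) ℝ)).mulVec y +
      cc v * ∑ k, y k ^ 2 := by
    rw [Matrix.sub_mulVec, Matrix.smul_mulVec, Matrix.one_mulVec, dotProduct_sub, dotProduct_smul]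
    have : y ⬝ᵥ y = ∑ k, y k ^ 2 := by
      simp only [dotProduct]
      exact Finset.sum_congr rfl fun k _ => by ring
    rw [this, smul_eq_mul]
    ring
  have h9 : (cc v - 1) * ∑ k, y k ^ 2 ≤ y ⬝ᵥ x := by
    rw [← hK]
    rw [Matrix.add_mulVec, dotProduct_add, h8]
    linarith
  have h10 : (y ⬝ᵥ x) ^ 2 ≤ (∑ k, y k ^ 2) * ∑ k, x k ^ 2 := by
    simp only [dotProduct]
    exact Finset.sum_mul_sq_le_sq_mul_sq _ _ _
  set Y := ∑ k, y k ^ 2 with hY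
  set Z := ∑ k, x k ^ 2 with hZ
  have hY0 : 0 ≤ Y := Finset.sum_nonneg fun k _ => sq_nonneg _
  have hZ0 : 0 ≤ Z := Finset.sum_nonneg fun k _ => sq_nonneg _
  have hc1 : 0 < cc v - 1 := by linarith
  have h11 : ((cc v - 1) * Y) ^ 2 ≤ Y * Z := by
    refine le_trans ?_ h10
    exact pow_le_pow_left₀ (mul_nonneg hc1.le hY0) h9 2
  rcases eq_or_lt_of_le hY0 with h | h
  · rw [← h]
    positivity
  · have h12 : (cc v - 1) ^ 2 * Y ≤ Z := by
      have : Y * ((cc v - 1) ^ 2 * Y) ≤ Y * Z := by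
        calc Y * ((cc v - 1) ^ 2 * Y) = ((cc v - 1) * Y) ^ 2 := by ring
          _ ≤ Y * Z := h11
      exact le_of_mul_le_mul_left this h
    rw [div_pow, one_pow, div_mul_eq_mul_div, one_mul, le_div_iff₀ (by positivity)]
    linarith

end

end IsingS2
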