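import Pool.Agent.Helper98.IS.Defs2

/-!
# IS-20 Embedding of finite matrices into `ℤ × ℤ`
-/

namespace IsingS2

open Complex Set MeasureTheory Filter Topology IsingNB
open scoped Real Matrix

/-! ### values -/

private lemma emb_val (a : ℕ) {m : ℕ} (A : Matrix (Fin m) (Fin m) ℝ) (k l : ℤ) (i j : Fin m)
    (hi : (i : ℤ) = k + a) (hj : (j : ℤ) = l + a) : emb a A k l = ((A i j : ℝ) : ℂ) := by
  unfold emb
  have hi2 := i.2
  have hj2 := j.2
  have h : (0 ≤ k + a ∧ k + a < m) ∧ (0 ≤ l + a ∧ l + a < m) := by omega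
  rw [dif_pos h]
  have e1 : (⟨(k + a).toNat, by omega⟩ : Fin m) = i := by
    apply Fin.ext
    show (k + a).toNat = (i : ℕ)
    omega
  have e2 : (⟨(l + a).toNat, by omega⟩ : Fin m) = j := by
    apply Fin.ext
    show (l + a).toNat = (j : ℕ)
    omega
  rw [e1, e2]

private lemma emb_zl (a : ℕ) {m : ℕ} (A : Matrix (Fin m) (Fin m) ℝ) (k l : ℤ)
    (h : ¬ (0 ≤ k + a ∧ k + a < m)) : emb a A k l = 0 := by
  unfold emb
  rw [dif_neg (fun h' => h h'.1)]

private lemma emb_zr (a : ℕ) {m : ℕ} (A : Matrix (Fin m) (Fin m) ℝ) (k l : ℤ)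
    (h : ¬ (0 ≤ l + a ∧ l + a < m)) : emb a A k l = 0 := by
  unfold emb
  rw [dif_neg (fun h' => h h'.2)]

private lemma embV_val (a : ℕ) {m : ℕ} (u : Fin m → ℝ) (k : ℤ) (i : Fin m)
    (hi : (i : ℤ) = k + a) : embV a u k = ((u i : ℝ) : ℂ) := by
  unfold embV
  have hi2 := i.2
  have h : 0 ≤ k + a ∧ k + a < m := by omega
  rw [dif_pos h]
  have e1 : (⟨(k + a).toNat, by omega⟩ : Fin m) = i := by
    apply Fin.ext
    show (k + a).toNat = (i : ℕ)
    omega
  rw [e1]

private lemma embV_z (a : ℕ) {m : ℕ} (u : Fin m → ℝ) (k : ℤ)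
    (h : ¬ (0 ≤ k + a ∧ k + a < m)) : embV a u k = 0 := by
  unfold embV
  rw [dif_neg h]

/-- an index in the window -/
private lemma win_idx (a : ℕ) {m : ℕ} (k : ℤ) (h : 0 ≤ k + a ∧ k + a < m) :
    ∃ i : Fin m, (i : ℤ) = k + a :=
  ⟨⟨(k + a).toNat, by omega⟩, by show (((k + a).toNat : ℕ) : ℤ) = k + a; omega⟩

private lemma shift_inj (a m : ℕ) : Function.Injective (fun j : Fin m => ((j : ℕ) : ℤ) - a) := by
  intro x y h
  have h' : ((x : ℕ) : ℤ) - a = ((y : ℕ) : ℤ) - a := h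
  apply Fin.ext
  omega

/-- a sum over `ℤ` whose terms vanish outside the window -/
private lemma tsum_win (a m : ℕ) (f : ℤ → ℂ) (hf : ∀ k : ℤ, ¬ (0 ≤ k + a ∧ k + a < m) → f k = 0) :
    ∑' k : ℤ, f k = ∑ j : Fin m, f (((j : ℕ) : ℤ) - a) := by
  have h0 : ∑' j : Fin m, f (((j : ℕ) : ℤ) - a) = ∑ j : Fin m, f (((j : ℕ) : ℤ) - a) :=
    tsum_fintype _
  rw [← h0]
  refine ((shift_inj a m).tsum_eq (f := f) ?_).symm
  intro k hk
  by_contra hcon
  apply hk
  apply hf
  intro h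
  obtain ⟨i, hi⟩ := win_idx a k h
  apply hcon
  exact ⟨i, by show ((i : ℕ) : ℤ) - a = k; omega⟩

theorem emb_apply (a : ℕ) {m : ℕ} (A : Matrix (Fin m) (Fin m) ℝ) (k l : Fin m) :
    emb a A ((k : ℤ) - a) ((l : ℤ) - a) = ((A k l : ℝ) : ℂ) :=
  emb_val a A _ _ k l (by ring) (by ring)

private lemma embV_apply' (a : ℕ) {m : ℕ} (u : Fin m → ℝ) (k : Fin m) :
    embV a u ((k : ℤ) - a) = ((u k : ℝ) : ℂ) :=
  embV_val a u _ k (by ring)

theorem emb_mul (a : ℕ) {m : ℕ} (A B : Matrix (Fin m) (Fin m) ℝ) :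
    emb a (A * B) = mm (emb a A) (emb a B) := by
  funext k l
  unfold mm
  rw [tsum_win a m (fun i => emb a A k i * emb a B i l)
    (fun i hi => by simp only [emb_zr a A k i hi, zero_mul])]
  by_cases hk : 0 ≤ k + a ∧ k + a < m
  · by_cases hl : 0 ≤ l + a ∧ l + a < m
    · obtain ⟨i, hi⟩ := win_idx a k hk
      obtain ⟨j, hj⟩ := win_idx a l hl
      rw [emb_val a (A * B) k l i j hi hj, Matrix.mul_apply]
      push_cast
      refine Finset.sum_congr rfl fun t _ => ?_
      rw [emb_val a A k (((t : ℕ) : ℤ) - a) i t hi (by ring),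
        emb_val a B (((t : ℕ) : ℤ) - a) l t j (by ring) hj]
    · rw [emb_zr a (A * B) k l hl]
      symm
      refine Finset.sum_eq_zero fun t _ => ?_
      rw [emb_zr a B _ l hl, mul_zero]
  · rw [emb_zl a (A * B) k l hk]
    symm
    refine Finset.sum_eq_zero fun t _ => ?_
    rw [emb_zl a A k _ hk, zero_mul]

theorem emb_add (a : ℕ) {m : ℕ} (A B : Matrix (Fin m) (Fin m) ℝ) (k l : ℤ) :
    emb a (A + B) k l = emb a A k l + emb a B k l := by
  by_cases hk : 0 ≤ k + a ∧ k + a < m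
  · by_cases hl : 0 ≤ l + a ∧ l + a < m
    · obtain ⟨i, hi⟩ := win_idx a k hk
      obtain ⟨j, hj⟩ := win_idx a l hl
      rw [emb_val a _ k l i j hi hj, emb_val a _ k l i j hi hj, emb_val a _ k l i j hi hj]
      simp [Matrix.add_apply]
    · simp [emb_zr a _ k l hl]
  · simp [emb_zl a _ k l hk]

theorem emb_smul (a : ℕ) {m : ℕ} (r : ℝ) (A : Matrix (Fin m) (Fin m) ℝ) (k l : ℤ) :
    emb a (r • A) k l = r * emb a A k l := by
  by_cases hk : 0 ≤ k + a ∧ k + a < m
  · by_cases hl : 0 ≤ l + a ∧ l + a < m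
    · obtain ⟨i, hi⟩ := win_idx a k hk
      obtain ⟨j, hj⟩ := win_idx a l hl
      rw [emb_val a _ k l i j hi hj, emb_val a _ k l i j hi hj]
      simp [Matrix.smul_apply]
    · simp [emb_zr a _ k l hl]
  · simp [emb_zl a _ k l hk]

theorem emb_transpose (a : ℕ) {m : ℕ} (A : Matrix (Fin m) (Fin m) ℝ) (k l : ℤ) :
    emb a Aᵀ k l = emb a A l k := by
  by_cases hk : 0 ≤ k + a ∧ k + a < m
  · by_cases hl : 0 ≤ l + a ∧ l + a < m
    · obtain ⟨i, hi⟩ := win_idx a k hk
      obtain ⟨j, hj⟩ := win_idx a l hl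
      rw [emb_val a _ k l i j hi hj, emb_val a _ l k j i hj hi, Matrix.transpose_apply]
    · rw [emb_zr a _ k l hl, emb_zl a _ l k hl]
  · rw [emb_zl a _ k l hk, emb_zr a _ l k hk]

theorem embV_mulVec (a : ℕ) {m : ℕ} (A : Matrix (Fin m) (Fin m) ℝ) (u : Fin m → ℝ) :
    embV a (A.mulVec u) = mv (emb a A) (embV a u) := by
  funext k
  unfold mv
  rw [tsum_win a m (fun i => emb a A k i * embV a u i)
    (fun i hi => by simp only [emb_zr a A k i hi, zero_mul])]
  by_cases hk : 0 ≤ k + a ∧ k + a < m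
  · obtain ⟨i, hi⟩ := win_idx a k hk
    rw [embV_val a _ k i hi, Matrix.mulVec, dotProduct]
    push_cast
    refine Finset.sum_congr rfl fun t _ => ?_
    rw [emb_val a A k (((t : ℕ) : ℤ) - a) i t hi (by ring), embV_apply']
  · rw [embV_z a _ k hk]
    symm
    refine Finset.sum_eq_zero fun t _ => ?_
    rw [emb_zl a A k _ hk, zero_mul]

theorem embV_add (a : ℕ) {m : ℕ} (u w : Fin m → ℝ) (k : ℤ) :
    embV a (u + w) k = embV a u k + embV a w k := by
  by_cases hk : 0 ≤ k + a ∧ k + a < m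
  · obtain ⟨i, hi⟩ := win_idx a k hk
    rw [embV_val a _ k i hi, embV_val a _ k i hi, embV_val a _ k i hi]
    simp
  · simp [embV_z a _ k hk]

theorem embV_smul (a : ℕ) {m : ℕ} (r : ℝ) (u : Fin m → ℝ) (k : ℤ) :
    embV a (r • u) k = r * embV a u k := by
  by_cases hk : 0 ≤ k + a ∧ k + a < m
  · obtain ⟨i, hi⟩ := win_idx a k hk
    rw [embV_val a _ k i hi, embV_val a _ k i hi]
    simp
  · simp [embV_z a _ k hk]

/-! ### the window filter -/

theorem win_neBot : win.NeBot := by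
  unfold win
  refine NeBot.comap_of_surj inferInstance ?_
  intro n
  exact ⟨(2 * n, n), by show min n (2 * n - n) = n; omega⟩

theorem win_eventually (R : ℕ) : ∀ᶠ p in win, R ≤ p.2 ∧ p.2 + R ≤ p.1 := by
  have h : Tendsto (fun p : ℕ × ℕ => min p.2 (p.1 - p.2)) win atTop := tendsto_comap
  filter_upwards [h.eventually (eventually_ge_atTop (R + 1))] with p hp
  have hp' : R + 1 ≤ min p.2 (p.1 - p.2) := hp
  omega

private lemma win_in (k : ℤ) : ∀ᶠ p : ℕ × ℕ in win, 0 ≤ k + (p.2 : ℤ) ∧ k + (p.2 : ℤ) < p.1 := by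
  filter_upwards [win_eventually (k.natAbs + 1)] with p hp
  omega

theorem emb_one_band : Band win (fun p => emb p.2 (1 : Matrix (Fin p.1) (Fin p.1) ℝ)) one' := by
  constructor
  · refine ⟨1, 1 / 2, by norm_num, by norm_num, by norm_num, Eventually.of_forall fun p k l => ?_⟩
    by_cases hk : 0 ≤ k + (p.2 : ℤ) ∧ k + (p.2 : ℤ) < p.1
    · by_cases hl : 0 ≤ l + (p.2 : ℤ) ∧ l + (p.2 : ℤ) < p.1
      · obtain ⟨i, hi⟩ := win_idx p.2 k hk
        obtain ⟨j, hj⟩ := win_idx p.2 l hl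
        show ‖emb p.2 (1 : Matrix (Fin p.1) (Fin p.1) ℝ) k l‖ ≤ _
        rw [emb_val p.2 _ k l i j hi hj]
        by_cases hij : i = j
        · subst hij
          have : k = l := by omega
          subst this
          simp
        · rw [Matrix.one_apply_ne hij]
          simp
      · show ‖emb p.2 (1 : Matrix (Fin p.1) (Fin p.1) ℝ) k l‖ ≤ _
        rw [emb_zr p.2 _ k l hl]
        simp
    · show ‖emb p.2 (1 : Matrix (Fin p.1) (Fin p.1) ℝ) k l‖ ≤ _
      rw [emb_zl p.2 _ k l hk]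
      simp
  · intro k l
    refine tendsto_const_nhds.congr' ?_
    filter_upwards [win_in k, win_in l] with p hk hl
    obtain ⟨i, hi⟩ := win_idx p.2 k hk
    obtain ⟨j, hj⟩ := win_idx p.2 l hl
    rw [emb_val p.2 _ k l i j hi hj]
    unfold one'
    by_cases hij : i = j
    · subst hij
      have : k = l := by omega
      subst this
      simp
    · have : k ≠ l := by
        intro h
        apply hij
        apply Fin.ext
        omega
      rw [Matrix.one_apply_ne hij, if_neg this]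
      simp

theorem emb_Wc_band :
    Band win (fun p => emb p.2 (Wc p.1 p.2)) (fun k l => 2 * PiZ k l - one' k l) := by
  constructor
  · refine ⟨1, 1 / 2, by norm_num, by norm_num, by norm_num, Eventually.of_forall fun p k l => ?_⟩
    by_cases hk : 0 ≤ k + (p.2 : ℤ) ∧ k + (p.2 : ℤ) < p.1
    · by_cases hl : 0 ≤ l + (p.2 : ℤ) ∧ l + (p.2 : ℤ) < p.1
      · obtain ⟨i, hi⟩ := win_idx p.2 k hk
        obtain ⟨j, hj⟩ := win_idx p.2 l hl
        show ‖emb p.2 (Wc p.1 p.2) k l‖ ≤ _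
        rw [emb_val p.2 _ k l i j hi hj, Wc]
        by_cases hij : i = j
        · subst hij
          have : k = l := by omega
          subst this
          rw [Matrix.diagonal_apply_eq]
          by_cases h0 : (i : ℕ) < p.2
          · rw [if_pos h0]
            simp
          · rw [if_neg h0]
            simp
        · rw [Matrix.diagonal_apply_ne _ hij]
          simp
      · show ‖emb p.2 (Wc p.1 p.2) k l‖ ≤ _
        rw [emb_zr p.2 _ k l hl]
        simp
    · show ‖emb p.2 (Wc p.1 p.2) k l‖ ≤ _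
      rw [emb_zl p.2 _ k l hk]
      simp
  · intro k l
    refine tendsto_const_nhds.congr' ?_
    filter_upwards [win_in k, win_in l] with p hk hl
    obtain ⟨i, hi⟩ := win_idx p.2 k hk
    obtain ⟨j, hj⟩ := win_idx p.2 l hl
    rw [emb_val p.2 _ k l i j hi hj, Wc]
    unfold one' PiZ
    by_cases hij : i = j
    · subst hij
      have : k = l := by omega
      subst this
      rw [Matrix.diagonal_apply_eq]
      by_cases h0 : (i : ℕ) < p.2
      · have hk0 : ¬ (k = k ∧ 0 ≤ k) := by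
          rintro ⟨-, h⟩
          omega
        rw [if_pos h0, if_neg hk0, if_pos rfl]
        push_cast
        ring
      · have hk0 : k = k ∧ 0 ≤ k := ⟨rfl, by omega⟩
        rw [if_neg h0, if_pos hk0, if_pos rfl]
        push_cast
        ring
    · have : k ≠ l := by
        intro h
        apply hij
        apply Fin.ext
        omega
      rw [Matrix.diagonal_apply_ne _ hij, if_neg this, if_neg (fun h => this h.1)]
      push_cast
      ring

/-! ### moving the origin -/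

/-- moving the cut by `M` -/
private def shp (M : ℤ) (p : ℕ × ℕ) : ℕ × ℕ := (p.1, ((p.2 : ℤ) + M).toNat)

private lemma shp_tendsto (M : ℤ) : Tendsto (shp M) win win := by
  have h : Tendsto (fun p => min (shp M p).2 ((shp M p).1 - (shp M p).2)) win atTop := by
    rw [tendsto_atTop]
    intro R
    filter_upwards [win_eventually (M.natAbs + R)] with p hp
    show R ≤ min ((p.2 : ℤ) + M).toNat (p.1 - ((p.2 : ℤ) + M).toNat)
    omega
  exact tendsto_comap_iff.2 h

private lemma emb_shp (M : ℤ) (p : ℕ × ℕ) (hp : 0 ≤ (p.2 : ℤ) + M)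
    (X : Matrix (Fin p.1) (Fin p.1) ℝ) (k l : ℤ) :
    emb p.2 X k l = emb ((p.2 : ℤ) + M).toNat X (k - M) (l - M) := by
  by_cases hk : 0 ≤ k + (p.2 : ℤ) ∧ k + (p.2 : ℤ) < p.1
  · by_cases hl : 0 ≤ l + (p.2 : ℤ) ∧ l + (p.2 : ℤ) < p.1
    · obtain ⟨i, hi⟩ := win_idx p.2 k hk
      obtain ⟨j, hj⟩ := win_idx p.2 l hl
      rw [emb_val p.2 _ k l i j hi hj, emb_val ((p.2 : ℤ) + M).toNat X (k - M) (l - M) i j
        (by omega) (by omega)]
    · rw [emb_zr p.2 _ k l hl, emb_zr _ _ _ _ (by omega)]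
  · rw [emb_zl p.2 _ k l hk, emb_zl _ _ _ _ (by omega)]

private lemma embV_shp (M : ℤ) (p : ℕ × ℕ) (hp : 0 ≤ (p.2 : ℤ) + M)
    (u : Fin p.1 → ℝ) (k : ℤ) :
    embV p.2 u k = embV ((p.2 : ℤ) + M).toNat u (k - M) := by
  by_cases hk : 0 ≤ k + (p.2 : ℤ) ∧ k + (p.2 : ℤ) < p.1
  · obtain ⟨i, hi⟩ := win_idx p.2 k hk
    rw [embV_val p.2 _ k i hi, embV_val ((p.2 : ℤ) + M).toNat u (k - M) i (by omega)]
  · rw [embV_z p.2 _ k hk, embV_z _ _ _ (by omega)]

private lemma win_pos (M : ℤ) : ∀ᶠ p : ℕ × ℕ in win, 0 ≤ (p.2 : ℤ) + M := by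
  filter_upwards [win_eventually M.natAbs] with p hp
  omega

/-- `q ^ |k - M| ≤ q⁻¹ ^ |M| q ^ |k|` in the form needed -/
private lemma pow_shift {q : ℝ} (hq0 : 0 < q) (hq1 : q < 1) {s t r : ℕ} (h : t ≤ s + r) :
    q ^ s ≤ (q⁻¹) ^ r * q ^ t := by
  have h1 : q ^ (s + r) ≤ q ^ t := pow_le_pow_of_le_one hq0.le hq1.le h
  have h2 : q ^ s = (q⁻¹) ^ r * q ^ (s + r) := by
    rw [pow_add, inv_pow]
    field_simp
  rw [h2]
  exact mul_le_mul_of_nonneg_left h1 (by positivity)

/-- moving the origin from the cut `a` to the cut `a + M` -/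
theorem Band.sft {A : (p : ℕ × ℕ) → Matrix (Fin p.1) (Fin p.1) ℝ} {A0 : ℤ → ℤ → ℂ}
    (h : Band win (fun p => emb p.2 (A p)) A0) (M : ℤ) :
    Band win (fun p => emb p.2 (A (p.1, (p.2 + M).toNat))) (sft M A0) := by
  constructor
  · obtain ⟨C, q, hC, hq0, hq1, hb⟩ := h.bound
    refine ⟨C, q, hC, hq0, hq1, ?_⟩
    filter_upwards [(shp_tendsto M).eventually hb, win_pos M] with p hp hpos
    intro k l
    have e := emb_shp M p hpos (A (p.1, (p.2 + M).toNat)) k l
    have h1 := hp (k - M) (l - M)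
    have e2 : (k - M) - (l - M) = k - l := by ring
    rw [e2] at h1
    show ‖emb p.2 (A (p.1, (p.2 + M).toNat)) k l‖ ≤ _
    rw [e]
    exact h1
  · intro k l
    have h1 := (h.lim (k - M) (l - M)).comp (shp_tendsto M)
    refine h1.congr' ?_
    filter_upwards [win_pos M] with p hpos
    exact (emb_shp M p hpos (A (p.1, (p.2 + M).toNat)) k l).symm

theorem Loc.sft {A : (p : ℕ × ℕ) → Matrix (Fin p.1) (Fin p.1) ℝ} {A0 : ℤ → ℤ → ℂ}
    (h : Loc win (fun p => emb p.2 (A p)) A0) (M : ℤ) :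
    Loc win (fun p => emb p.2 (A (p.1, (p.2 + M).toNat))) (sft M A0) := by
  constructor
  · obtain ⟨C, q, hC, hq0, hq1, hb⟩ := h.bound
    refine ⟨C * (q⁻¹) ^ (2 * M.natAbs), q, by positivity, hq0, hq1, ?_⟩
    filter_upwards [(shp_tendsto M).eventually hb, win_pos M] with p hp hpos
    intro k l
    have e := emb_shp M p hpos (A (p.1, (p.2 + M).toNat)) k l
    have h1 := hp (k - M) (l - M)
    show ‖emb p.2 (A (p.1, (p.2 + M).toNat)) k l‖ ≤ _
    rw [e]
    refine le_trans h1 ?_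
    rw [mul_assoc]
    refine mul_le_mul_of_nonneg_left (pow_shift hq0 hq1 ?_) hC
    omega
  · intro k l
    have h1 := (h.lim (k - M) (l - M)).comp (shp_tendsto M)
    refine h1.congr' ?_
    filter_upwards [win_pos M] with p hpos
    exact (emb_shp M p hpos (A (p.1, (p.2 + M).toNat)) k l).symm

theorem LocV.sft {u : (p : ℕ × ℕ) → Fin p.1 → ℝ} {u0 : ℤ → ℂ}
    (h : LocV win (fun p => embV p.2 (u p)) u0) (M : ℤ) :
    LocV win (fun p => embV p.2 (u (p.1, (p.2 + M).toNat))) (fun k => u0 (k - M)) := by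
  constructor
  · obtain ⟨C, q, hC, hq0, hq1, hb⟩ := h.bound
    refine ⟨C * (q⁻¹) ^ M.natAbs, q, by positivity, hq0, hq1, ?_⟩
    filter_upwards [(shp_tendsto M).eventually hb, win_pos M] with p hp hpos
    intro k
    have e := embV_shp M p hpos (u (p.1, (p.2 + M).toNat)) k
    have h1 := hp (k - M)
    show ‖embV p.2 (u (p.1, (p.2 + M).toNat)) k‖ ≤ _
    rw [e]
    refine le_trans h1 ?_
    rw [mul_assoc]
    refine mul_le_mul_of_nonneg_left (pow_shift hq0 hq1 ?_) hC
    omega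
  · intro k
    have h1 := (h.lim (k - M)).comp (shp_tendsto M)
    refine h1.congr' ?_
    filter_upwards [win_pos M] with p hpos
    exact (embV_shp M p hpos (u (p.1, (p.2 + M).toNat)) k).symm

theorem ev1_locV : LocV win (fun p => embV p.2 (ev1 p.1 p.2)) (dl 0) := by
  constructor
  · refine ⟨1, 1 / 2, by norm_num, by norm_num, by norm_num, Eventually.of_forall fun p k => ?_⟩
    by_cases hk : 0 ≤ k + (p.2 : ℤ) ∧ k + (p.2 : ℤ) < p.1
    · obtain ⟨i, hi⟩ := win_idx p.2 k hk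
      show ‖embV p.2 (ev1 p.1 p.2) k‖ ≤ _
      rw [embV_val p.2 _ k i hi, ev1]
      by_cases hi0 : (i : ℕ) = p.2
      · have : k = 0 := by omega
        subst this
        rw [if_pos hi0]
        simp
      · rw [if_neg hi0]
        simp
    · show ‖embV p.2 (ev1 p.1 p.2) k‖ ≤ _
      rw [embV_z p.2 _ k hk]
      simp
  · intro k
    refine tendsto_const_nhds.congr' ?_
    filter_upwards [win_in k] with p hk
    obtain ⟨i, hi⟩ := win_idx p.2 k hk
    rw [embV_val p.2 _ k i hi, ev1, dl]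
    by_cases hi0 : (i : ℕ) = p.2
    · rw [if_pos hi0, if_pos (by omega)]
      simp
    · rw [if_neg hi0, if_neg (by omega)]
      simp

end IsingS2
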