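import Pool.Agent.Helper98.IS.Defs2

/-!
# IS-22: Fourier coefficients of functions analytic near the unit circle
-/

namespace IsingS2

open Complex Set MeasureTheory Filter Topology IsingNB
open scoped Real Matrix

noncomputable section

namespace FCaux

theorem norm_ex (φ : ℝ) : ‖Complex.exp (I * φ)‖ = 1 := by
  rw [mul_comm]; exact Complex.norm_exp_ofReal_mul_I φ

theorem exp_zpow (φ : ℝ) (n : ℤ) : Complex.exp (I * φ) ^ n = Complex.exp (I * n * φ) := by
  rw [← Complex.exp_int_mul]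
  congr 1
  ring

theorem ex_periodic (φ : ℝ) : Complex.exp (I * ((φ + 2 * π : ℝ) : ℂ)) = Complex.exp (I * φ) := by
  have h : I * ((φ + 2 * π : ℝ) : ℂ) = I * φ + 2 * π * I := by
    push_cast; ring
  rw [h, Complex.exp_add, Complex.exp_two_pi_mul_I, mul_one]

theorem per (f : ℂ → ℂ) (n : ℤ) : Function.Periodic
    (fun φ : ℝ => f (Complex.exp (I * φ)) * Complex.exp (-(I * n * φ))) (2 * π) := by
  intro φ
  simp only
  rw [ex_periodic]
  congr 1
  rw [Complex.exp_neg, Complex.exp_neg, ← exp_zpow, ← exp_zpow, ex_periodic]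

theorem fc_circle (f : ℂ → ℂ) (n : ℤ) :
    2 * π * I * fc f n = ∮ z in C(0, 1), f z * z ^ (-n - 1) := by
  have h1 : (∮ z in C(0, 1), f z * z ^ (-n - 1)) =
      ∫ φ in (0 : ℝ)..2 * π, I * (f (Complex.exp (I * φ)) * Complex.exp (-(I * n * φ))) := by
    unfold circleIntegral
    refine intervalIntegral.integral_congr fun φ _ => ?_
    simp only [deriv_circleMap, circleMap, Complex.ofReal_one, one_mul, zero_add, smul_eq_mul]
    have h2 : Complex.exp (-(I * n * φ)) = Complex.exp (φ * I) ^ (-n) := by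
      rw [← Complex.exp_int_mul]
      congr 1
      push_cast
      ring
    rw [h2, mul_comm I (φ : ℂ), sub_eq_add_neg, zpow_add₀ (Complex.exp_ne_zero _), zpow_neg_one]
    field_simp
  rw [h1, intervalIntegral.integral_const_mul]
  have h3 := (per f n).intervalIntegral_add_eq 0 (-π)
  have e1 : (0 : ℝ) + 2 * π = 2 * π := by ring
  have e2 : -π + 2 * π = π := by ring
  rw [e1, e2] at h3
  rw [h3]
  unfold fc
  have hpi : (π : ℂ) ≠ 0 := by exact_mod_cast Real.pi_ne_zero
  generalize (∫ φ in (-π)..π, f (Complex.exp (I * φ)) * Complex.exp (-(I * n * φ))) = J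
  field_simp

theorem shift {f : ℂ → ℂ} {q : ℝ} (hq : 0 < q) (hq1 : q < 1)
    (hf : DifferentiableOn ℂ f {x | q < ‖x‖ ∧ ‖x‖ < q⁻¹}) (n : ℤ) {r : ℝ} (h1 : q < r)
    (h2 : r < q⁻¹) : (∮ z in C(0, 1), f z * z ^ n) = ∮ z in C(0, r), f z * z ^ n := by
  have hopen : IsOpen {x : ℂ | q < ‖x‖ ∧ ‖x‖ < q⁻¹} :=
    (isOpen_lt continuous_const continuous_norm).inter (isOpen_lt continuous_norm continuous_const)
  have hd : ∀ z ∈ {x : ℂ | q < ‖x‖ ∧ ‖x‖ < q⁻¹}, DifferentiableAt ℂ (fun z => f z * z ^ n) z := by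
    intro z hz
    have hz0 : z ≠ 0 := by
      rintro rfl
      have := hz.1
      rw [norm_zero] at this
      linarith
    exact (hf.differentiableAt (hopen.mem_nhds hz)).mul (differentiableAt_zpow.2 (Or.inl hz0))
  have hq' : 1 < q⁻¹ := (one_lt_inv₀ hq).2 hq1
  rcases le_total r 1 with h | h
  · refine Complex.circleIntegral_eq_of_differentiable_on_annulus_off_countable (by linarith) h
      (Set.countable_empty) ?_ ?_
    · intro z hz
      simp only [Set.mem_sdiff, Metric.mem_closedBall, dist_zero_right, Metric.mem_ball, not_lt] at hz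
      exact (hd z ⟨by linarith [hz.2], by linarith [hz.1]⟩).continuousAt.continuousWithinAt
    · intro z hz
      simp only [Set.mem_sdiff, Metric.mem_closedBall, dist_zero_right, Metric.mem_ball, not_le] at hz
      exact hd z ⟨by linarith [hz.1.2], by linarith [hz.1.1]⟩
  · symm
    refine Complex.circleIntegral_eq_of_differentiable_on_annulus_off_countable (by linarith) h
      (Set.countable_empty) ?_ ?_
    · intro z hz
      simp only [Set.mem_sdiff, Metric.mem_closedBall, dist_zero_right, Metric.mem_ball, not_lt] at hz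
      exact (hd z ⟨by linarith [hz.2], by linarith [hz.1]⟩).continuousAt.continuousWithinAt
    · intro z hz
      simp only [Set.mem_sdiff, Metric.mem_closedBall, dist_zero_right, Metric.mem_ball, not_le] at hz
      exact hd z ⟨by linarith [hz.1.2], by linarith [hz.1.1]⟩

theorem bound_r {f : ℂ → ℂ} {q : ℝ} (hq : 0 < q) (hq1 : q < 1)
    (hf : DifferentiableOn ℂ f {x | q < ‖x‖ ∧ ‖x‖ < q⁻¹}) {r : ℝ} (h1 : q < r) (h2 : r < q⁻¹) :
    ∃ C : ℝ, 0 ≤ C ∧ ∀ n : ℤ, ‖fc f n‖ ≤ C * r ^ (-n) := by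
  have hr : 0 < r := hq.trans h1
  have hcont : ContinuousOn f (Metric.sphere (0 : ℂ) r) := by
    refine hf.continuousOn.mono ?_
    intro z hz
    rw [mem_sphere_zero_iff_norm] at hz
    rw [mem_ofPred_eq, hz]
    exact ⟨h1, h2⟩
  obtain ⟨C, hC⟩ := (isCompact_sphere (0 : ℂ) r).exists_bound_of_continuousOn hcont
  refine ⟨max C 0, le_max_right _ _, fun n => ?_⟩
  have hb : ∀ z ∈ Metric.sphere (0 : ℂ) r, ‖f z * z ^ (-n - 1)‖ ≤ max C 0 * r ^ (-n - 1) := by
    intro z hz
    rw [norm_mul, norm_zpow]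
    have hz' : ‖z‖ = r := mem_sphere_zero_iff_norm.1 hz
    rw [hz']
    exact mul_le_mul_of_nonneg_right ((hC z hz).trans (le_max_left _ _)) (zpow_nonneg hr.le _)
  have h3 := circleIntegral.norm_integral_le_of_norm_le_const hr.le hb
  have h4 := fc_circle f n
  rw [shift hq hq1 hf (-n - 1) h1 h2] at h4
  rw [← h4, norm_mul] at h3
  have h5 : ‖(2 * π * I : ℂ)‖ = 2 * π := by
    simp [abs_of_pos Real.pi_pos]
  rw [h5] at h3
  have h6 : r * r ^ (-n - 1) = r ^ (-n) := by
    rw [← zpow_one_add₀ hr.ne']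
    congr 1
    ring
  have h7 : 2 * π * r * (max C 0 * r ^ (-n - 1)) = 2 * π * (max C 0 * r ^ (-n)) := by
    rw [← h6]
    ring
  rw [h7] at h3
  exact le_of_mul_le_mul_left h3 (by positivity)

end FCaux

open FCaux

theorem fc_bound {f : ℂ → ℂ} (hf : Ann f) :
    ∃ C q : ℝ, 0 ≤ C ∧ 0 < q ∧ q < 1 ∧ ∀ n : ℤ, ‖fc f n‖ ≤ C * q ^ n.natAbs := by
  obtain ⟨q, hq, hq1, hd⟩ := hf
  obtain ⟨p, hp1, hp2⟩ := exists_between hq1
  have hp0 : 0 < p := hq.trans hp1
  have hinv : p⁻¹ < q⁻¹ := (inv_lt_inv₀ hp0 hq).2 hp1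
  have hpinv : 1 < p⁻¹ := (one_lt_inv₀ hp0).2 hp2
  obtain ⟨C1, hC1, hb1⟩ := bound_r hq hq1 hd hp1 (by linarith)
  obtain ⟨C2, hC2, hb2⟩ := bound_r hq hq1 hd (show q < p⁻¹ by linarith) hinv
  refine ⟨max C1 C2, p, le_max_of_le_left hC1, hp0, hp2, fun n => ?_⟩
  rcases le_total 0 n with h | h
  · obtain ⟨m, rfl⟩ := Int.eq_ofNat_of_zero_le h
    refine (hb2 m).trans ?_
    have e : p⁻¹ ^ (-(m : ℤ)) = p ^ m := by
      rw [zpow_neg, inv_zpow, inv_inv, zpow_natCast]
    rw [e, Int.natAbs_natCast]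
    exact mul_le_mul_of_nonneg_right (le_max_right _ _) (by positivity)
  · obtain ⟨m, hm⟩ := Int.eq_ofNat_of_zero_le (neg_nonneg.2 h)
    have hn : n = -(m : ℤ) := by
      rw [← neg_neg n, hm]
    subst hn
    refine (hb1 _).trans ?_
    rw [neg_neg, zpow_natCast, Int.natAbs_neg, Int.natAbs_natCast]
    exact mul_le_mul_of_nonneg_right (le_max_left _ _) (by positivity)

namespace FCaux

theorem summable_geo {q : ℝ} (hq0 : 0 < q) (hq1 : q < 1) :
    Summable fun n : ℤ => q ^ n.natAbs := by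
  refine Summable.of_nat_of_neg ?_ ?_
  · simpa using summable_geometric_of_lt_one hq0.le hq1
  · simpa using summable_geometric_of_lt_one hq0.le hq1

theorem summable_fc {f : ℂ → ℂ} (hf : Ann f) : Summable fun n : ℤ => ‖fc f n‖ := by
  obtain ⟨C, q, _, hq0, hq1, hb⟩ := fc_bound hf
  exact Summable.of_nonneg_of_le (fun _ => norm_nonneg _) hb ((summable_geo hq0 hq1).mul_left C)

theorem cont_circle {f : ℂ → ℂ} (hf : Ann f) : Continuous fun φ : ℝ => f (Complex.exp (I * φ)) := by
  obtain ⟨q, hq, hq1, hd⟩ := hf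
  refine hd.continuousOn.comp_continuous (by fun_prop) fun φ => ?_
  rw [mem_ofPred_eq, norm_ex]
  exact ⟨hq1, (one_lt_inv₀ hq).2 hq1⟩

theorem exists_angle {x : ℂ} (hx : ‖x‖ = 1) : ∃ φ : ℝ, Complex.exp (I * φ) = x := by
  refine ⟨Complex.arg x, ?_⟩
  have h := Complex.norm_mul_exp_arg_mul_I x
  rw [hx, Complex.ofReal_one, one_mul] at h
  rw [mul_comm]
  exact h

/-- Integrating a trigonometric series against a continuous function. -/
theorem hasSum_key {a : ℤ → ℂ} (ha : Summable fun n => ‖a n‖) {F : ℂ → ℂ}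
    (hF : ∀ x : ℂ, ‖x‖ = 1 → HasSum (fun n : ℤ => a n * x ^ n) (F x)) {G : ℝ → ℂ}
    (hG : Continuous G) :
    HasSum (fun n : ℤ => a n * ∫ φ in (-π)..π, Complex.exp (I * φ) ^ n * G φ)
      (∫ φ in (-π)..π, F (Complex.exp (I * φ)) * G φ) := by
  have hc : ∀ n : ℤ, Continuous fun φ : ℝ => Complex.exp (I * φ) ^ n * G φ := by
    intro n
    refine Continuous.mul ?_ hG
    have : (fun φ : ℝ => Complex.exp (I * φ) ^ n) = fun φ : ℝ => Complex.exp (I * n * φ) := by
      funext φ
      exact exp_zpow φ n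
    rw [this]
    fun_prop
  have key := intervalIntegral.hasSum_integral_of_dominated_convergence (μ := volume)
    (a := -π) (b := π)
    (F := fun (n : ℤ) (φ : ℝ) => a n * (Complex.exp (I * φ) ^ n * G φ))
    (f := fun φ : ℝ => F (Complex.exp (I * φ)) * G φ)
    (bound := fun (n : ℤ) (φ : ℝ) => ‖a n‖ * ‖G φ‖) ?_ ?_ ?_ ?_ ?_
  · simpa only [intervalIntegral.integral_const_mul] using key
  · intro n
    exact (continuous_const.mul (hc n)).aestronglyMeasurable
  · intro n
    refine Eventually.of_forall fun φ _ => ?_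
    rw [norm_mul, norm_mul, norm_zpow, norm_ex, one_zpow, one_mul]
  · exact Eventually.of_forall fun φ _ => ha.mul_right _
  · have h : (fun φ : ℝ => ∑' n : ℤ, ‖a n‖ * ‖G φ‖) = fun φ => (∑' n : ℤ, ‖a n‖) * ‖G φ‖ := by
      funext φ
      rw [tsum_mul_right]
    rw [h]
    exact (continuous_const.mul hG.norm).intervalIntegrable _ _
  · refine Eventually.of_forall fun φ _ => ?_
    have h := (hF _ (norm_ex φ)).mul_right (G φ)
    simpa only [mul_assoc] using h

theorem orth (m n : ℤ) : (∫ φ in (-π)..π, Complex.exp (I * φ) ^ m * Complex.exp (-(I * n * φ))) =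
    if m = n then (2 * π : ℂ) else 0 := by
  have h1 : ∀ φ : ℝ, Complex.exp (I * φ) ^ m * Complex.exp (-(I * n * φ)) =
      Complex.exp ((I * ((m - n : ℤ) : ℂ)) * φ) := by
    intro φ
    rw [exp_zpow, ← Complex.exp_add]
    congr 1
    push_cast
    ring
  simp only [h1]
  split_ifs with h
  · subst h
    simp only [sub_self, Int.cast_zero, mul_zero, zero_mul, Complex.exp_zero]
    rw [intervalIntegral.integral_const, Complex.real_smul]
    push_cast
    ring
  · have hne : I * ((m - n : ℤ) : ℂ) ≠ 0 := by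
      refine mul_ne_zero I_ne_zero ?_
      exact_mod_cast sub_ne_zero.2 h
    rw [integral_exp_mul_complex hne]
    have e : Complex.exp (I * ((m - n : ℤ) : ℂ) * (π : ℝ)) =
        Complex.exp (I * ((m - n : ℤ) : ℂ) * ((-π : ℝ) : ℂ)) := by
      have h2 : I * ((m - n : ℤ) : ℂ) * (π : ℝ) =
          I * ((m - n : ℤ) : ℂ) * ((-π : ℝ) : ℂ) + ((m - n : ℤ) : ℂ) * (2 * π * I) := by
        push_cast
        ring
      rw [h2, Complex.exp_add, Complex.exp_int_mul_two_pi_mul_I, mul_one]
    rw [e, sub_self, zero_div]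

end FCaux

theorem fc_hasSum {f : ℂ → ℂ} (hf : Ann f) {x : ℂ} (hx : ‖x‖ = 1) :
    HasSum (fun n : ℤ => fc f n * x ^ n) (f x) := by
  obtain ⟨s, rfl⟩ := exists_angle hx
  have hT : Fact (0 < 2 * π) := ⟨by positivity⟩
  have hper : Function.Periodic (fun φ : ℝ => f (Complex.exp (I * φ))) (2 * π) := by
    intro φ
    simp only
    rw [ex_periodic]
  have hcl : Continuous hper.lift := continuous_coinduced_dom.mpr (cont_circle hf)
  let F : C(AddCircle (2 * π), ℂ) := ⟨hper.lift, hcl⟩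
  have hF : ∀ φ : ℝ, F (φ : AddCircle (2 * π)) = f (Complex.exp (I * φ)) := fun φ => rfl
  have hpi : (π : ℂ) ≠ 0 := by exact_mod_cast Real.pi_ne_zero
  have hfour : ∀ (n : ℤ) (φ : ℝ), fourier n (φ : AddCircle (2 * π)) =
      Complex.exp (I * n * φ) := by
    intro n φ
    rw [fourier_coe_apply]
    congr 1
    push_cast
    field_simp
  have hco : ∀ n : ℤ, fourierCoeff F n = fc f n := by
    intro n
    rw [fourierCoeff_eq_intervalIntegral (F : AddCircle (2 * π) → ℂ) n (-π)]
    have e2 : -π + 2 * π = π := by ring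
    rw [e2]
    unfold fc
    have h1 : ∀ φ : ℝ, fourier (-n) (φ : AddCircle (2 * π)) • F (φ : AddCircle (2 * π)) =
        f (Complex.exp (I * φ)) * Complex.exp (-(I * n * φ)) := by
      intro φ
      rw [hfour, hF, smul_eq_mul, mul_comm]
      congr 2
      push_cast
      ring
    simp only [h1]
    rw [Complex.real_smul]
    push_cast
    rfl
  have hsum : Summable (fourierCoeff F) := by
    have : fourierCoeff (F : AddCircle (2 * π) → ℂ) = fc f := by
      funext n
      exact hco n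
    rw [this]
    exact (summable_fc hf).of_norm
  have h2 := has_pointwise_sum_fourier_series_of_summable hsum (s : AddCircle (2 * π))
  rw [hF] at h2
  have h4 : (fun n : ℤ => fc f n * Complex.exp (I * s) ^ n) =
      (fun i => fourierCoeff F i • fourier i (s : AddCircle (2 * π))) := by
    funext n
    rw [hco, hfour, smul_eq_mul, exp_zpow]
  rw [h4]
  exact h2

theorem fc_of_hasSum {f : ℂ → ℂ} {s : ℤ → ℂ} (hs : Summable fun n => ‖s n‖)
    (hf : ∀ x : ℂ, ‖x‖ = 1 → HasSum (fun n : ℤ => s n * x ^ n) (f x)) (n : ℤ) : fc f n = s n := by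
  have h := hasSum_key hs hf (G := fun φ => Complex.exp (-(I * n * φ))) (by fun_prop)
  simp only [orth] at h
  have h1 : HasSum (fun m : ℤ => s m * if m = n then (2 * π : ℂ) else 0) (s n * (2 * π)) := by
    have := hasSum_single (f := fun m : ℤ => s m * if m = n then (2 * π : ℂ) else 0) n
      (fun m hm => by simp [hm])
    simpa using this
  have h2 := h.unique h1
  unfold fc
  rw [h2]
  have hpi : (π : ℂ) ≠ 0 := by exact_mod_cast Real.pi_ne_zero
  field_simp

theorem fc_congr {f g : ℂ → ℂ} (h : ∀ x : ℂ, ‖x‖ = 1 → f x = g x) (n : ℤ) : fc f n = fc g n := by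
  unfold fc
  congr 1
  refine intervalIntegral.integral_congr fun φ _ => ?_
  rw [h _ (norm_ex φ)]

theorem Tz_BB {f : ℂ → ℂ} (hf : Ann f) : BB (Tz f) := by
  obtain ⟨C, q, hC, hq0, hq1, hb⟩ := fc_bound hf
  exact ⟨C, q, hC, hq0, hq1, fun k l => hb (k - l)⟩

theorem Tz_mul {f g : ℂ → ℂ} (hf : Ann f) (hg : Ann g) :
    mm (Tz f) (Tz g) = Tz fun x => f x * g x := by
  funext k l
  unfold mm Tz
  have h := hasSum_key (summable_fc hf) (fun x hx => fc_hasSum hf hx)
    (G := fun φ : ℝ => g (Complex.exp (I * φ)) * Complex.exp (-(I * (k - l : ℤ) * φ)))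
    ((cont_circle hg).mul (by fun_prop))
  have h2 : ∀ j : ℤ, (∫ φ in (-π)..π, Complex.exp (I * φ) ^ j *
      (g (Complex.exp (I * φ)) * Complex.exp (-(I * (k - l : ℤ) * φ)))) =
      2 * π * fc g (k - j - l) := by
    intro j
    have hpi : (π : ℂ) ≠ 0 := by exact_mod_cast Real.pi_ne_zero
    unfold fc
    rw [← mul_assoc, mul_one_div_cancel (by simp), one_mul]
    refine intervalIntegral.integral_congr fun φ _ => ?_
    rw [exp_zpow, mul_left_comm, ← Complex.exp_add]
    congr 2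
    push_cast
    ring
  simp only [h2] at h
  have h3 := h.mul_left (1 / (2 * π) : ℂ)
  have h4 : fc (fun x => f x * g x) (k - l) = 1 / (2 * π) * ∫ φ in (-π)..π,
      f (Complex.exp (I * φ)) *
        (g (Complex.exp (I * φ)) * Complex.exp (-(I * (k - l : ℤ) * φ))) := by
    unfold fc
    simp only [mul_assoc]
  rw [h4]
  have h5 := (Equiv.subLeft k).hasSum_iff.2 h3
  rw [← h5.tsum_eq]
  refine tsum_congr fun i => ?_
  simp only [Function.comp_apply, Equiv.subLeft_apply]
  have hpi : (π : ℂ) ≠ 0 := by exact_mod_cast Real.pi_ne_zero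
  rw [sub_sub_cancel]
  field_simp

theorem Tz_one : Tz (fun _ => 1) = one' := by
  funext k l
  unfold Tz one'
  have h := fc_of_hasSum (f := fun _ => 1) (s := fun n : ℤ => if n = 0 then (1 : ℂ) else 0)
    (summable_of_ne_finset_zero (s := {0}) fun n hn => by
      rw [Finset.mem_singleton] at hn
      simp [hn])
    (fun x _ => by
      have := hasSum_single (f := fun n : ℤ => (if n = 0 then (1 : ℂ) else 0) * x ^ n) 0
        (fun m hm => by simp [hm])
      simpa using this) (k - l)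
  rw [h]
  simp only [sub_eq_zero]

theorem Tz_inv (f : ℂ → ℂ) (k l : ℤ) : Tz (fun x => f x⁻¹) k l = Tz f l k := by
  unfold Tz fc
  congr 1
  have h := intervalIntegral.integral_comp_neg (a := -π) (b := π)
    (fun φ : ℝ => f (Complex.exp (I * φ)) * Complex.exp (-(I * (l - k : ℤ) * φ)))
  rw [neg_neg] at h
  rw [← h]
  refine intervalIntegral.integral_congr fun φ _ => ?_
  simp only
  rw [← Complex.exp_neg]
  congr 2
  · congr 1
    push_cast
    ring
  · push_cast
    ring

theorem fc_inside {f : ℂ → ℂ} {r : ℝ} (hr : 1 < r) (hf : DifferentiableOn ℂ f (Metric.ball 0 r))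
    {n : ℤ} (hn : n < 0) : fc f n = 0 := by
  obtain ⟨m, hm⟩ := Int.eq_ofNat_of_zero_le (show 0 ≤ -n - 1 by omega)
  have h1 := fc_circle f n
  rw [hm] at h1
  have h2 : (∮ z in C(0, 1), f z * z ^ (m : ℤ)) = 0 := by
    have hd : ∀ z ∈ Metric.ball (0 : ℂ) r, DifferentiableAt ℂ (fun z => f z * z ^ (m : ℤ)) z := by
      intro z hz
      refine (hf.differentiableAt (Metric.isOpen_ball.mem_nhds hz)).mul ?_
      simp only [zpow_natCast]
      exact differentiableAt_pow m
    refine Complex.circleIntegral_eq_zero_of_differentiable_on_off_countable zero_le_one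
      Set.countable_empty ?_ ?_
    · intro z hz
      refine (hd z ?_).continuousAt.continuousWithinAt
      rw [Metric.mem_closedBall] at hz
      rw [Metric.mem_ball]
      linarith
    · intro z hz
      refine hd z ?_
      have := hz.1
      rw [Metric.mem_ball] at this ⊢
      linarith
  have h3 : (2 * π * I : ℂ) * fc f n = 0 := by
    rw [h1]
    exact h2
  rcases mul_eq_zero.1 h3 with h | h
  · exfalso
    have hpi : (π : ℂ) ≠ 0 := by exact_mod_cast Real.pi_ne_zero
    exact mul_ne_zero (mul_ne_zero two_ne_zero hpi) I_ne_zero h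
  · exact h

theorem Ann.mul {f g : ℂ → ℂ} (hf : Ann f) (hg : Ann g) : Ann fun x => f x * g x := by
  obtain ⟨q, hq0, hq1, hd⟩ := hf
  obtain ⟨p, hp0, hp1, he⟩ := hg
  refine ⟨max q p, lt_max_of_lt_left hq0, max_lt hq1 hp1, ?_⟩
  have hm : 0 < max q p := lt_max_of_lt_left hq0
  refine DifferentiableOn.mul (hd.mono ?_) (he.mono ?_)
  · intro x hx
    exact ⟨(le_max_left _ _).trans_lt hx.1,
      hx.2.trans_le ((inv_le_inv₀ hm hq0).2 (le_max_left _ _))⟩
  · intro x hx
    exact ⟨(le_max_right _ _).trans_lt hx.1,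
      hx.2.trans_le ((inv_le_inv₀ hm hp0).2 (le_max_right _ _))⟩

theorem Ann.inv' {f : ℂ → ℂ} (hf : Ann f) : Ann fun x => f x⁻¹ := by
  obtain ⟨q, hq0, hq1, hd⟩ := hf
  refine ⟨q, hq0, hq1, ?_⟩
  refine hd.comp (t := {x | q < ‖x‖ ∧ ‖x‖ < q⁻¹}) ?_ ?_
  · intro x hx
    have hx0 : x ≠ 0 := by
      rintro rfl
      have := hx.1
      rw [norm_zero] at this
      linarith
    exact (differentiableAt_inv hx0).differentiableWithinAt
  · intro x hx
    have hxp : 0 < ‖x‖ := hq0.trans hx.1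
    rw [mem_ofPred_eq, norm_inv]
    refine ⟨?_, (inv_lt_inv₀ hxp hq0).2 hx.1⟩
    rw [← inv_inv q]
    exact (inv_lt_inv₀ (inv_pos.2 hq0) hxp).2 hx.2

end

end IsingS2
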