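import Pool.Agent.Helper98.IS.Defs2

/-!
# IS-19b: convergent families of infinite matrices
-/

namespace IsingS2

open Complex Set MeasureTheory Filter Topology IsingNB
open scoped Real Matrix

noncomputable section

namespace FamAux

/-- summability of a two sided geometric series -/
lemma summable_pow_natAbs {r : ℝ} (h0 : 0 < r) (h1 : r < 1) :
    Summable fun j : ℤ => r ^ j.natAbs := by
  have hg : Summable fun n : ℕ => r ^ n := summable_geometric_of_lt_one h0.le h1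
  apply Summable.of_nat_of_neg
  · simpa using hg
  · simpa using hg

lemma summable_pow_sub {r : ℝ} (h0 : 0 < r) (h1 : r < 1) (k : ℤ) :
    Summable fun i : ℤ => r ^ (k - i).natAbs := by
  have h := (Equiv.subLeft k).summable_iff.2 (summable_pow_natAbs h0 h1)
  exact h

lemma tsum_pow_sub {r : ℝ} (k : ℤ) :
    ∑' i : ℤ, r ^ (k - i).natAbs = ∑' j : ℤ, r ^ j.natAbs :=
  (Equiv.subLeft k).tsum_eq (fun j : ℤ => r ^ j.natAbs)

lemma S_nonneg {r : ℝ} (h0 : 0 < r) : 0 ≤ ∑' j : ℤ, r ^ j.natAbs :=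
  tsum_nonneg fun _ => by positivity

/-- pointwise estimate, decay away from the diagonal -/
lemma pt_band {r C1 C2 : ℝ} (h0 : 0 < r) (h1 : r < 1) (hC1 : 0 ≤ C1) (hC2 : 0 ≤ C2)
    {x y : ℂ} {k i l : ℤ}
    (hx : ‖x‖ ≤ C1 * (r ^ 2) ^ (k - i).natAbs) (hy : ‖y‖ ≤ C2 * (r ^ 2) ^ (i - l).natAbs) :
    ‖x * y‖ ≤ C1 * C2 * r ^ (k - l).natAbs * r ^ (k - i).natAbs := by
  rw [norm_mul]
  calc ‖x‖ * ‖y‖ ≤ (C1 * (r ^ 2) ^ (k - i).natAbs) * (C2 * (r ^ 2) ^ (i - l).natAbs) :=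
        mul_le_mul hx hy (norm_nonneg _) (by positivity)
    _ = C1 * C2 * (r ^ ((k - i).natAbs + 2 * (i - l).natAbs) * r ^ (k - i).natAbs) := by
        rw [← pow_mul, ← pow_mul]
        ring
    _ ≤ C1 * C2 * (r ^ (k - l).natAbs * r ^ (k - i).natAbs) := by
        apply mul_le_mul_of_nonneg_left _ (by positivity)
        apply mul_le_mul_of_nonneg_right _ (by positivity)
        apply pow_le_pow_of_le_one h0.le h1.le
        omega
    _ = C1 * C2 * r ^ (k - l).natAbs * r ^ (k - i).natAbs := by ring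

/-- pointwise estimate, localised on the right -/
lemma pt_loc {r C1 C2 : ℝ} (h0 : 0 < r) (h1 : r < 1) (hC1 : 0 ≤ C1) (hC2 : 0 ≤ C2)
    {x y : ℂ} {k i l : ℤ}
    (hx : ‖x‖ ≤ C1 * (r ^ 2) ^ (k - i).natAbs)
    (hy : ‖y‖ ≤ C2 * (r ^ 2) ^ (i.natAbs + l.natAbs)) :
    ‖x * y‖ ≤ C1 * C2 * r ^ (k.natAbs + l.natAbs) * r ^ (k - i).natAbs := by
  rw [norm_mul]
  calc ‖x‖ * ‖y‖ ≤ (C1 * (r ^ 2) ^ (k - i).natAbs) * (C2 * (r ^ 2) ^ (i.natAbs + l.natAbs)) :=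
        mul_le_mul hx hy (norm_nonneg _) (by positivity)
    _ = C1 * C2 * (r ^ ((k - i).natAbs + 2 * (i.natAbs + l.natAbs)) * r ^ (k - i).natAbs) := by
        rw [← pow_mul, ← pow_mul]
        ring
    _ ≤ C1 * C2 * (r ^ (k.natAbs + l.natAbs) * r ^ (k - i).natAbs) := by
        apply mul_le_mul_of_nonneg_left _ (by positivity)
        apply mul_le_mul_of_nonneg_right _ (by positivity)
        apply pow_le_pow_of_le_one h0.le h1.le
        omega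
    _ = C1 * C2 * r ^ (k.natAbs + l.natAbs) * r ^ (k - i).natAbs := by ring

/-- pointwise estimate, localised on the left -/
lemma pt_loc' {r C1 C2 : ℝ} (h0 : 0 < r) (h1 : r < 1) (hC1 : 0 ≤ C1) (hC2 : 0 ≤ C2)
    {x y : ℂ} {k i l : ℤ}
    (hx : ‖x‖ ≤ C1 * (r ^ 2) ^ (k.natAbs + i.natAbs))
    (hy : ‖y‖ ≤ C2 * (r ^ 2) ^ (i - l).natAbs) :
    ‖x * y‖ ≤ C1 * C2 * r ^ (k.natAbs + l.natAbs) * r ^ (l - i).natAbs := by
  rw [norm_mul]
  calc ‖x‖ * ‖y‖ ≤ (C1 * (r ^ 2) ^ (k.natAbs + i.natAbs)) * (C2 * (r ^ 2) ^ (i - l).natAbs) :=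
        mul_le_mul hx hy (norm_nonneg _) (by positivity)
    _ = C1 * C2 * (r ^ (2 * (k.natAbs + i.natAbs) + (i - l).natAbs) * r ^ (i - l).natAbs) := by
        rw [← pow_mul, ← pow_mul]
        ring
    _ ≤ C1 * C2 * (r ^ (k.natAbs + l.natAbs) * r ^ (l - i).natAbs) := by
        apply mul_le_mul_of_nonneg_left _ (by positivity)
        apply mul_le_mul _ _ (by positivity) (by positivity)
        · apply pow_le_pow_of_le_one h0.le h1.le
          omega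
        · apply pow_le_pow_of_le_one h0.le h1.le
          omega
    _ = C1 * C2 * r ^ (k.natAbs + l.natAbs) * r ^ (l - i).natAbs := by ring

/-- pointwise estimate for vectors -/
lemma pt_vec {r C1 C2 : ℝ} (h0 : 0 < r) (h1 : r < 1) (hC1 : 0 ≤ C1) (hC2 : 0 ≤ C2)
    {x y : ℂ} {k i : ℤ}
    (hx : ‖x‖ ≤ C1 * (r ^ 2) ^ (k - i).natAbs)
    (hy : ‖y‖ ≤ C2 * (r ^ 2) ^ i.natAbs) :
    ‖x * y‖ ≤ C1 * C2 * r ^ k.natAbs * r ^ (k - i).natAbs := by
  have h := pt_loc (l := 0) h0 h1 hC1 hC2 hx (by simpa using hy)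
  simpa using h

/-- sum of a dominated family -/
lemma norm_tsum_le_aux {r K : ℝ} (h0 : 0 < r) (h1 : r < 1) {f : ℤ → ℂ} (k : ℤ)
    (h : ∀ i, ‖f i‖ ≤ K * r ^ (k - i).natAbs) :
    ‖∑' i, f i‖ ≤ K * ∑' j : ℤ, r ^ j.natAbs := by
  have hs : Summable fun i : ℤ => K * r ^ (k - i).natAbs := (summable_pow_sub h0 h1 k).mul_left K
  calc ‖∑' i, f i‖ ≤ ∑' i : ℤ, K * r ^ (k - i).natAbs :=
        tsum_of_norm_bounded hs.hasSum h
    _ = K * ∑' j : ℤ, r ^ j.natAbs := by rw [tsum_mul_left, tsum_pow_sub]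

/-- change of the rate -/
lemma rate {C q Q : ℝ} (hC : 0 ≤ C) (hq : 0 < q) (hQ : q ≤ Q) {x : ℝ} {n : ℕ}
    (h : x ≤ C * q ^ n) : x ≤ C * Q ^ n :=
  h.trans (mul_le_mul_of_nonneg_left (pow_le_pow_left₀ hq.le hQ n) hC)

/-- common square root of a rate dominating two given rates -/
lemma common {q1 q2 : ℝ} (h1 : 0 < q1) (h1' : q1 < 1) (h2' : q2 < 1) :
    ∃ r : ℝ, 0 < r ∧ r < 1 ∧ q1 ≤ r ^ 2 ∧ q2 ≤ r ^ 2 := by
  refine ⟨Real.sqrt (max q1 q2), ?_, ?_, ?_, ?_⟩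
  · exact Real.sqrt_pos.2 (lt_of_lt_of_le h1 (le_max_left _ _))
  · have : Real.sqrt (max q1 q2) < Real.sqrt 1 :=
      Real.sqrt_lt_sqrt (h1.le.trans (le_max_left _ _)) (max_lt h1' h2')
    simpa using this
  · rw [Real.sq_sqrt (h1.le.trans (le_max_left _ _))]
    exact le_max_left _ _
  · rw [Real.sq_sqrt (h1.le.trans (le_max_left _ _))]
    exact le_max_right _ _

end FamAux

open FamAux

section families
variable {β : Type*} {F : Filter β}

theorem Band.mm {A B : β → ℤ → ℤ → ℂ} {A0 B0 : ℤ → ℤ → ℂ} (hA : Band F A A0) (hB : Band F B B0) :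
    Band F (fun p => mm (A p) (B p)) (mm A0 B0) := by
  obtain ⟨C1, q1, hC1, hq1, hq1', hb1⟩ := hA.bound
  obtain ⟨C2, q2, hC2, hq2, hq2', hb2⟩ := hB.bound
  obtain ⟨r, hr0, hr1, hr2, hr3⟩ := common hq1 hq1' hq2'
  have key : ∀ᶠ p in F, ∀ k l i, ‖A p k i * B p i l‖ ≤
      C1 * C2 * r ^ (k - l).natAbs * r ^ (k - i).natAbs := by
    filter_upwards [hb1, hb2] with p h1 h2 k l i
    exact pt_band hr0 hr1 hC1 hC2 (rate hC1 hq1 hr2 (h1 k i)) (rate hC2 hq2 hr3 (h2 i l))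
  refine ⟨⟨C1 * C2 * ∑' j : ℤ, r ^ j.natAbs, r, ?_, hr0, hr1, ?_⟩, ?_⟩
  · have := S_nonneg hr0
    positivity
  · filter_upwards [key] with p hp k l
    have h := norm_tsum_le_aux hr0 hr1 k (hp k l)
    calc ‖IsingS2.mm (A p) (B p) k l‖
        ≤ C1 * C2 * r ^ (k - l).natAbs * ∑' j : ℤ, r ^ j.natAbs := h
      _ = _ := by ring
  · intro k l
    show Tendsto (fun p => ∑' i, A p k i * B p i l) F (𝓝 (∑' i, A0 k i * B0 i l))
    apply tendsto_tsum_of_dominated_convergence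
      (bound := fun i => C1 * C2 * r ^ (k - l).natAbs * r ^ (k - i).natAbs)
    · exact (summable_pow_sub hr0 hr1 k).mul_left _
    · intro i
      exact (hA.lim k i).mul (hB.lim i l)
    · filter_upwards [key] with p hp i
      exact hp k l i

theorem Band.mm_loc {A B : β → ℤ → ℤ → ℂ} {A0 B0 : ℤ → ℤ → ℂ} (hA : Band F A A0) (hB : Loc F B B0) :
    Loc F (fun p => IsingS2.mm (A p) (B p)) (IsingS2.mm A0 B0) := by
  obtain ⟨C1, q1, hC1, hq1, hq1', hb1⟩ := hA.bound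
  obtain ⟨C2, q2, hC2, hq2, hq2', hb2⟩ := hB.bound
  obtain ⟨r, hr0, hr1, hr2, hr3⟩ := common hq1 hq1' hq2'
  have key : ∀ᶠ p in F, ∀ k l i, ‖A p k i * B p i l‖ ≤
      C1 * C2 * r ^ (k.natAbs + l.natAbs) * r ^ (k - i).natAbs := by
    filter_upwards [hb1, hb2] with p h1 h2 k l i
    exact pt_loc hr0 hr1 hC1 hC2 (rate hC1 hq1 hr2 (h1 k i)) (rate hC2 hq2 hr3 (h2 i l))
  refine ⟨⟨C1 * C2 * ∑' j : ℤ, r ^ j.natAbs, r, ?_, hr0, hr1, ?_⟩, ?_⟩
  · have := S_nonneg hr0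
    positivity
  · filter_upwards [key] with p hp k l
    have h := norm_tsum_le_aux hr0 hr1 k (hp k l)
    calc ‖IsingS2.mm (A p) (B p) k l‖
        ≤ C1 * C2 * r ^ (k.natAbs + l.natAbs) * ∑' j : ℤ, r ^ j.natAbs := h
      _ = _ := by ring
  · intro k l
    show Tendsto (fun p => ∑' i, A p k i * B p i l) F (𝓝 (∑' i, A0 k i * B0 i l))
    apply tendsto_tsum_of_dominated_convergence
      (bound := fun i => C1 * C2 * r ^ (k.natAbs + l.natAbs) * r ^ (k - i).natAbs)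
    · exact (summable_pow_sub hr0 hr1 k).mul_left _
    · intro i
      exact (hA.lim k i).mul (hB.lim i l)
    · filter_upwards [key] with p hp i
      exact hp k l i

theorem Loc.mm_band {A B : β → ℤ → ℤ → ℂ} {A0 B0 : ℤ → ℤ → ℂ} (hA : Loc F A A0) (hB : Band F B B0) :
    Loc F (fun p => IsingS2.mm (A p) (B p)) (IsingS2.mm A0 B0) := by
  obtain ⟨C1, q1, hC1, hq1, hq1', hb1⟩ := hA.bound
  obtain ⟨C2, q2, hC2, hq2, hq2', hb2⟩ := hB.bound
  obtain ⟨r, hr0, hr1, hr2, hr3⟩ := common hq1 hq1' hq2'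
  have key : ∀ᶠ p in F, ∀ k l i, ‖A p k i * B p i l‖ ≤
      C1 * C2 * r ^ (k.natAbs + l.natAbs) * r ^ (l - i).natAbs := by
    filter_upwards [hb1, hb2] with p h1 h2 k l i
    exact pt_loc' hr0 hr1 hC1 hC2 (rate hC1 hq1 hr2 (h1 k i)) (rate hC2 hq2 hr3 (h2 i l))
  refine ⟨⟨C1 * C2 * ∑' j : ℤ, r ^ j.natAbs, r, ?_, hr0, hr1, ?_⟩, ?_⟩
  · have := S_nonneg hr0
    positivity
  · filter_upwards [key] with p hp k l
    have h := norm_tsum_le_aux hr0 hr1 l (hp k l)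
    calc ‖IsingS2.mm (A p) (B p) k l‖
        ≤ C1 * C2 * r ^ (k.natAbs + l.natAbs) * ∑' j : ℤ, r ^ j.natAbs := h
      _ = _ := by ring
  · intro k l
    show Tendsto (fun p => ∑' i, A p k i * B p i l) F (𝓝 (∑' i, A0 k i * B0 i l))
    apply tendsto_tsum_of_dominated_convergence
      (bound := fun i => C1 * C2 * r ^ (k.natAbs + l.natAbs) * r ^ (l - i).natAbs)
    · exact (summable_pow_sub hr0 hr1 l).mul_left _
    · intro i
      exact (hA.lim k i).mul (hB.lim i l)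
    · filter_upwards [key] with p hp i
      exact hp k l i

theorem Loc.band {A : β → ℤ → ℤ → ℂ} {A0 : ℤ → ℤ → ℂ} (hA : Loc F A A0) : Band F A A0 := by
  obtain ⟨C, q, hC, hq, hq', hb⟩ := hA.bound
  refine ⟨⟨C, q, hC, hq, hq', ?_⟩, hA.lim⟩
  filter_upwards [hb] with p hp k l
  refine (hp k l).trans (mul_le_mul_of_nonneg_left ?_ hC)
  apply pow_le_pow_of_le_one hq.le hq'.le
  omega

theorem Band.add {A B : β → ℤ → ℤ → ℂ} {A0 B0 : ℤ → ℤ → ℂ} (hA : Band F A A0) (hB : Band F B B0) :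
    Band F (fun p k l => A p k l + B p k l) (fun k l => A0 k l + B0 k l) := by
  obtain ⟨C1, q1, hC1, hq1, hq1', hb1⟩ := hA.bound
  obtain ⟨C2, q2, hC2, hq2, hq2', hb2⟩ := hB.bound
  refine ⟨⟨C1 + C2, max q1 q2, by positivity, lt_max_of_lt_left hq1, max_lt hq1' hq2', ?_⟩,
    fun k l => (hA.lim k l).add (hB.lim k l)⟩
  filter_upwards [hb1, hb2] with p h1 h2 k l
  have e1 := rate hC1 hq1 (le_max_left q1 q2) (h1 k l)
  have e2 := rate hC2 hq2 (le_max_right q1 q2) (h2 k l)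
  calc ‖A p k l + B p k l‖ ≤ ‖A p k l‖ + ‖B p k l‖ := norm_add_le _ _
    _ ≤ _ := add_le_add e1 e2
    _ = _ := by ring

theorem Loc.add {A B : β → ℤ → ℤ → ℂ} {A0 B0 : ℤ → ℤ → ℂ} (hA : Loc F A A0) (hB : Loc F B B0) :
    Loc F (fun p k l => A p k l + B p k l) (fun k l => A0 k l + B0 k l) := by
  obtain ⟨C1, q1, hC1, hq1, hq1', hb1⟩ := hA.bound
  obtain ⟨C2, q2, hC2, hq2, hq2', hb2⟩ := hB.bound
  refine ⟨⟨C1 + C2, max q1 q2, by positivity, lt_max_of_lt_left hq1, max_lt hq1' hq2', ?_⟩,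
    fun k l => (hA.lim k l).add (hB.lim k l)⟩
  filter_upwards [hb1, hb2] with p h1 h2 k l
  have e1 := rate hC1 hq1 (le_max_left q1 q2) (h1 k l)
  have e2 := rate hC2 hq2 (le_max_right q1 q2) (h2 k l)
  calc ‖A p k l + B p k l‖ ≤ ‖A p k l‖ + ‖B p k l‖ := norm_add_le _ _
    _ ≤ _ := add_le_add e1 e2
    _ = _ := by ring

theorem Band.smul {A : β → ℤ → ℤ → ℂ} {A0 : ℤ → ℤ → ℂ} (hA : Band F A A0) (r : ℂ) :
    Band F (fun p k l => r * A p k l) (fun k l => r * A0 k l) := by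
  obtain ⟨C1, q1, hC1, hq1, hq1', hb1⟩ := hA.bound
  refine ⟨⟨‖r‖ * C1, q1, by positivity, hq1, hq1', ?_⟩, fun k l => (hA.lim k l).const_mul r⟩
  filter_upwards [hb1] with p h1 k l
  rw [norm_mul, mul_assoc]
  exact mul_le_mul_of_nonneg_left (h1 k l) (norm_nonneg _)

theorem Loc.smul {A : β → ℤ → ℤ → ℂ} {A0 : ℤ → ℤ → ℂ} (hA : Loc F A A0) (r : ℂ) :
    Loc F (fun p k l => r * A p k l) (fun k l => r * A0 k l) := by
  obtain ⟨C1, q1, hC1, hq1, hq1', hb1⟩ := hA.bound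
  refine ⟨⟨‖r‖ * C1, q1, by positivity, hq1, hq1', ?_⟩, fun k l => (hA.lim k l).const_mul r⟩
  filter_upwards [hb1] with p h1 k l
  rw [norm_mul, mul_assoc]
  exact mul_le_mul_of_nonneg_left (h1 k l) (norm_nonneg _)

theorem Band.const {A : ℤ → ℤ → ℂ} (hA : BB A) : Band F (fun _ => A) A := by
  obtain ⟨C, q, hC, hq, hq', hb⟩ := hA
  exact ⟨⟨C, q, hC, hq, hq', Eventually.of_forall fun _ => hb⟩, fun k l => tendsto_const_nhds⟩

theorem Band.bb [F.NeBot] {A : β → ℤ → ℤ → ℂ} {A0 : ℤ → ℤ → ℂ} (hA : Band F A A0) : BB A0 := by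
  obtain ⟨C, q, hC, hq, hq', hb⟩ := hA.bound
  refine ⟨C, q, hC, hq, hq', fun k l => ?_⟩
  refine le_of_tendsto (hA.lim k l).norm ?_
  filter_upwards [hb] with p hp
  exact hp k l

theorem Loc.ll [F.NeBot] {A : β → ℤ → ℤ → ℂ} {A0 : ℤ → ℤ → ℂ} (hA : Loc F A A0) : LL A0 := by
  obtain ⟨C, q, hC, hq, hq', hb⟩ := hA.bound
  refine ⟨C, q, hC, hq, hq', fun k l => ?_⟩
  refine le_of_tendsto (hA.lim k l).norm ?_
  filter_upwards [hb] with p hp
  exact hp k l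

theorem Band.mv_loc {A : β → ℤ → ℤ → ℂ} {A0 : ℤ → ℤ → ℂ} {u : β → ℤ → ℂ} {u0 : ℤ → ℂ}
    (hA : Band F A A0) (hu : LocV F u u0) : LocV F (fun p => mv (A p) (u p)) (mv A0 u0) := by
  obtain ⟨C1, q1, hC1, hq1, hq1', hb1⟩ := hA.bound
  obtain ⟨C2, q2, hC2, hq2, hq2', hb2⟩ := hu.bound
  obtain ⟨r, hr0, hr1, hr2, hr3⟩ := common hq1 hq1' hq2'
  have key : ∀ᶠ p in F, ∀ k i, ‖A p k i * u p i‖ ≤
      C1 * C2 * r ^ k.natAbs * r ^ (k - i).natAbs := by
    filter_upwards [hb1, hb2] with p h1 h2 k i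
    exact pt_vec hr0 hr1 hC1 hC2 (rate hC1 hq1 hr2 (h1 k i)) (rate hC2 hq2 hr3 (h2 i))
  refine ⟨⟨C1 * C2 * ∑' j : ℤ, r ^ j.natAbs, r, ?_, hr0, hr1, ?_⟩, ?_⟩
  · have := S_nonneg hr0
    positivity
  · filter_upwards [key] with p hp k
    have h := norm_tsum_le_aux hr0 hr1 k (hp k)
    calc ‖mv (A p) (u p) k‖
        ≤ C1 * C2 * r ^ k.natAbs * ∑' j : ℤ, r ^ j.natAbs := h
      _ = _ := by ring
  · intro k
    show Tendsto (fun p => ∑' i, A p k i * u p i) F (𝓝 (∑' i, A0 k i * u0 i))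
    apply tendsto_tsum_of_dominated_convergence
      (bound := fun i => C1 * C2 * r ^ k.natAbs * r ^ (k - i).natAbs)
    · exact (summable_pow_sub hr0 hr1 k).mul_left _
    · intro i
      exact (hA.lim k i).mul (hu.lim i)
    · filter_upwards [key] with p hp i
      exact hp k i

theorem LocV.add {u w : β → ℤ → ℂ} {u0 w0 : ℤ → ℂ} (hu : LocV F u u0) (hw : LocV F w w0) :
    LocV F (fun p k => u p k + w p k) (fun k => u0 k + w0 k) := by
  obtain ⟨C1, q1, hC1, hq1, hq1', hb1⟩ := hu.bound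
  obtain ⟨C2, q2, hC2, hq2, hq2', hb2⟩ := hw.bound
  refine ⟨⟨C1 + C2, max q1 q2, by positivity, lt_max_of_lt_left hq1, max_lt hq1' hq2', ?_⟩,
    fun k => (hu.lim k).add (hw.lim k)⟩
  filter_upwards [hb1, hb2] with p h1 h2 k
  have e1 := rate hC1 hq1 (le_max_left q1 q2) (h1 k)
  have e2 := rate hC2 hq2 (le_max_right q1 q2) (h2 k)
  calc ‖u p k + w p k‖ ≤ ‖u p k‖ + ‖w p k‖ := norm_add_le _ _
    _ ≤ _ := add_le_add e1 e2
    _ = _ := by ring

theorem LocV.smul {u : β → ℤ → ℂ} {u0 : ℤ → ℂ} (hu : LocV F u u0) (r : ℂ) :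
    LocV F (fun p k => r * u p k) (fun k => r * u0 k) := by
  obtain ⟨C1, q1, hC1, hq1, hq1', hb1⟩ := hu.bound
  refine ⟨⟨‖r‖ * C1, q1, by positivity, hq1, hq1', ?_⟩, fun k => (hu.lim k).const_mul r⟩
  filter_upwards [hb1] with p h1 k
  rw [norm_mul, mul_assoc]
  exact mul_le_mul_of_nonneg_left (h1 k) (norm_nonneg _)

/-- the sum of the absolute values of a family with limit zero tends to zero -/
theorem Loc.tendsto_sum {A : β → ℤ → ℤ → ℂ} (hA : Loc F A fun _ _ => 0) :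
    Tendsto (fun p => ∑' q : ℤ × ℤ, ‖A p q.1 q.2‖) F (𝓝 0) := by
  obtain ⟨C, q, hC, hq, hq', hb⟩ := hA.bound
  have hs : Summable fun x : ℤ × ℤ => C * q ^ (x.1.natAbs + x.2.natAbs) := by
    have h := (summable_pow_natAbs hq hq').mul_of_nonneg (summable_pow_natAbs hq hq')
      (fun _ => by positivity) (fun _ => by positivity)
    refine (h.mul_left C).congr fun x => ?_
    rw [pow_add]
  have h0 : Tendsto (fun p => ∑' x : ℤ × ℤ, ‖A p x.1 x.2‖) F (𝓝 (∑' _ : ℤ × ℤ, (0 : ℝ))) := by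
    apply tendsto_tsum_of_dominated_convergence
      (bound := fun x : ℤ × ℤ => C * q ^ (x.1.natAbs + x.2.natAbs)) hs
    · intro x
      simpa using (hA.lim x.1 x.2).norm
    · filter_upwards [hb] with p hp x
      rw [norm_norm]
      exact hp x.1 x.2
  simpa using h0

end families

end

end IsingS2
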