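import Pool.Agent.Helper98.IS.Defs2
import Pool.Agent.Helper98.NB.WBasic

/-!
# IS-23a: the symbols on the unit circle, elementary facts on `ww`
-/

namespace IsingS2

open Complex Set MeasureTheory Filter Topology IsingNB
open scoped Real Matrix

noncomputable section

/-- in a thin annulus the argument of `W` has real part larger than one -/
theorem arg_re_gt_one {c : ℝ} (hc : 2 < c) {x : ℂ} (h1 : (c - 1)⁻¹ < ‖x‖) (h2 : ‖x‖ < c - 1) :
    1 < ((c : ℂ) - (x + x⁻¹) / 2).re := by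
  have h0 : 0 < c - 1 := by linarith
  have hx : 0 < ‖x‖ := lt_trans (by positivity) h1
  have h3 : ‖x⁻¹‖ < c - 1 := by
    rw [norm_inv]
    exact inv_lt_of_inv_lt₀ h0 h1
  have h4 : (x + x⁻¹).re ≤ ‖x‖ + ‖x⁻¹‖ := le_trans (Complex.re_le_norm _) (norm_add_le _ _)
  have h5 : ((c : ℂ) - (x + x⁻¹) / 2).re = c - (x + x⁻¹).re / 2 := by
    rw [Complex.sub_re, Complex.ofReal_re]
    congr 1
    rw [show (x + x⁻¹) / 2 = ((1 / 2 : ℝ) : ℂ) * (x + x⁻¹) by push_cast; ring]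
    rw [Complex.re_ofReal_mul]
    ring
  rw [h5]
  linarith

theorem notMem_Seg_of_re {u : ℂ} (h : 1 < u.re) : u ∉ Seg := by
  rintro ⟨_, _, h3⟩
  linarith

theorem ww_lt_of_annulus {c : ℝ} (hc : 2 < c) {x : ℂ} (h1 : (c - 1)⁻¹ < ‖x‖) (h2 : ‖x‖ < c - 1) :
    ‖ww c x‖ < 1 :=
  norm_W_lt_one (notMem_Seg_of_re (arg_re_gt_one hc h1 h2))

theorem ww_diff_of_annulus {c : ℝ} (hc : 2 < c) {x : ℂ} (h1 : (c - 1)⁻¹ < ‖x‖)
    (h2 : ‖x‖ < c - 1) : DifferentiableAt ℂ (ww c) x := by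
  have h0 : 0 < c - 1 := by linarith
  have hx : 0 < ‖x‖ := lt_trans (by positivity) h1
  have hx0 : x ≠ 0 := norm_pos_iff.mp hx
  have hW : DifferentiableAt ℂ W ((c : ℂ) - (x + x⁻¹) / 2) :=
    W_differentiableAt (notMem_Seg_of_re (arg_re_gt_one hc h1 h2))
  have hi : DifferentiableAt ℂ (fun x : ℂ => (c : ℂ) - (x + x⁻¹) / 2) x := by
    apply DifferentiableAt.const_sub
    apply DifferentiableAt.div_const
    exact differentiableAt_id.add (differentiableAt_inv hx0)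
  exact DifferentiableAt.comp x hW hi

theorem annulus_norm {c : ℝ} (hc : 2 < c) {x : ℂ} (hx : ‖x‖ = 1) :
    (c - 1)⁻¹ < ‖x‖ ∧ ‖x‖ < c - 1 := by
  rw [hx]
  exact ⟨inv_lt_one_of_one_lt₀ (by linarith), by linarith⟩

theorem ww_ann {c : ℝ} (hc : 2 < c) : Ann (ww c) := by
  have h0 : 0 < c - 1 := by linarith
  refine ⟨(c - 1)⁻¹, by positivity, inv_lt_one_of_one_lt₀ (by linarith), ?_⟩
  rintro x ⟨h1, h2⟩
  rw [inv_inv] at h2
  exact (ww_diff_of_annulus hc h1 h2).differentiableWithinAt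

theorem one_sub_ww_sq_ne_of_annulus {c : ℝ} (hc : 2 < c) {x : ℂ} (h1 : (c - 1)⁻¹ < ‖x‖)
    (h2 : ‖x‖ < c - 1) : 1 - ww c x ^ 2 ≠ 0 := by
  intro h
  have h3 : ww c x ^ 2 = 1 := (sub_eq_zero.mp h).symm
  have h4 : ‖ww c x‖ ^ 2 = 1 := by rw [← norm_pow, h3, norm_one]
  have h5 := ww_lt_of_annulus hc h1 h2
  have h6 := norm_nonneg (ww c x)
  nlinarith

theorem sx_ann {c : ℝ} (hc : 2 < c) : Ann (sx c) := by
  have h0 : 0 < c - 1 := by linarith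
  refine ⟨(c - 1)⁻¹, by positivity, inv_lt_one_of_one_lt₀ (by linarith), ?_⟩
  rintro x ⟨h1, h2⟩
  rw [inv_inv] at h2
  have hw := ww_diff_of_annulus hc h1 h2
  have : DifferentiableAt ℂ (fun x => 2 * ww c x / (1 - ww c x ^ 2)) x :=
    (hw.const_mul 2).div ((hw.pow 2).const_sub 1) (one_sub_ww_sq_ne_of_annulus hc h1 h2)
  exact this.differentiableWithinAt

theorem ww_lt {c : ℝ} (hc : 2 < c) {x : ℂ} (hx : ‖x‖ = 1) : ‖ww c x‖ < 1 :=
  ww_lt_of_annulus hc (annulus_norm hc hx).1 (annulus_norm hc hx).2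

theorem ww_ne {c : ℝ} (hc : 2 < c) {x : ℂ} (hx : ‖x‖ = 1) : ww c x ≠ 0 := W_ne_zero _

theorem ww_inv (c x : ℂ) : ww c x⁻¹ = ww c x := by
  unfold ww
  rw [inv_inv, add_comm]

theorem ww_rel {c : ℝ} (hc : 2 < c) {x : ℂ} (hx : ‖x‖ = 1) :
    x + x⁻¹ + ww c x + (ww c x)⁻¹ = 2 * c := by
  have := W_add_inv ((c : ℂ) - (x + x⁻¹) / 2)
  unfold ww
  linear_combination this

theorem ex_add_inv (φ : ℝ) : ex φ + (ex φ)⁻¹ = 2 * ((Real.cos φ : ℝ) : ℂ) := by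
  unfold ex
  rw [← Complex.exp_neg, Complex.ofReal_cos, Complex.two_cos]
  congr 2 <;> ring

theorem norm_ex (φ : ℝ) : ‖ex φ‖ = 1 := by
  unfold ex
  rw [mul_comm]
  exact Complex.norm_exp_ofReal_mul_I φ

/-- `ww` on the unit circle is the small root of `r + 1/r = 2 (c - cos φ)` -/
theorem ww_ex {c : ℝ} (hc : 2 < c) (φ : ℝ) :
    ww c (ex φ) = (((c - Real.cos φ) - Real.sqrt ((c - Real.cos φ) ^ 2 - 1) : ℝ) : ℂ) ∧
      0 < (c - Real.cos φ) - Real.sqrt ((c - Real.cos φ) ^ 2 - 1) ∧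
      (c - Real.cos φ) - Real.sqrt ((c - Real.cos φ) ^ 2 - 1) < 1 := by
  set u : ℝ := c - Real.cos φ with hu
  have hu1 : 1 < u := by
    have := Real.cos_le_one φ
    rw [hu]; linarith
  have hs : Real.sqrt (u ^ 2 - 1) ^ 2 = u ^ 2 - 1 := Real.sq_sqrt (by nlinarith)
  have hs0 : 0 ≤ Real.sqrt (u ^ 2 - 1) := Real.sqrt_nonneg _
  have h0 : 0 < u - Real.sqrt (u ^ 2 - 1) := by
    nlinarith
  have h1 : u - Real.sqrt (u ^ 2 - 1) < 1 := by
    by_contra hcon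
    push Not at hcon
    nlinarith
  refine ⟨?_, h0, h1⟩
  unfold ww
  have harg : (c : ℂ) - (ex φ + (ex φ)⁻¹) / 2 = (u : ℂ) := by
    rw [ex_add_inv, hu]
    push_cast
    ring
  rw [harg]
  symm
  have hne : ((u - Real.sqrt (u ^ 2 - 1) : ℝ) : ℂ) ≠ 0 := by
    exact_mod_cast h0.ne'
  apply W_unique _ _ hne
  · rw [Complex.norm_real, Real.norm_of_nonneg h0.le]
    exact h1
  · have : (u - Real.sqrt (u ^ 2 - 1)) + (u - Real.sqrt (u ^ 2 - 1))⁻¹ = 2 * u := by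
      field_simp
      nlinarith
    exact_mod_cast this

theorem ww_real {c : ℝ} (hc : 2 < c) (φ : ℝ) : ∃ r : ℝ, 0 < r ∧ r < 1 ∧ ww c (ex φ) = (r : ℂ) :=
  ⟨_, (ww_ex hc φ).2.1, (ww_ex hc φ).2.2, (ww_ex hc φ).1⟩

theorem gx_den {c : ℝ} (hc : 2 < c) {x y : ℂ} (hx : ‖x‖ = 1) (hy : ‖y‖ = 1) :
    1 - ww c x * ww c y ≠ 0 := by
  intro h
  have h3 : ww c x * ww c y = 1 := (sub_eq_zero.mp h).symm
  have h4 : ‖ww c x‖ * ‖ww c y‖ = 1 := by rw [← norm_mul, h3, norm_one]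
  have h5 := ww_lt hc hx
  have h6 := ww_lt hc hy
  have h7 := norm_nonneg (ww c x)
  have h8 := norm_nonneg (ww c y)
  nlinarith

theorem ne_zero_of_norm_one {x : ℂ} (hx : ‖x‖ = 1) : x ≠ 0 := by
  intro h
  rw [h, norm_zero] at hx
  exact zero_ne_one hx

theorem gx_inv_inv {c : ℝ} (hc : 2 < c) {x y : ℂ} (hx : ‖x‖ = 1) (hy : ‖y‖ = 1) :
    gx c x⁻¹ y⁻¹ = -gx c x y / (x * y) := by
  have h1 := ne_zero_of_norm_one hx
  have h2 := ne_zero_of_norm_one hy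
  have h3 := gx_den hc hx hy
  unfold gx
  rw [ww_inv, ww_inv]
  field_simp
  ring

/-- `w - w'` in terms of `x - x'` -/
theorem ww_sub {c : ℝ} (hc : 2 < c) {x y : ℂ} (hx : ‖x‖ = 1) (hy : ‖y‖ = 1) :
    (ww c y - ww c x) * (x * y) = (1 - x * y) * (ww c x * ww c y) * gx c x y := by
  have h1 := ne_zero_of_norm_one hx
  have h2 := ne_zero_of_norm_one hy
  have h3 := gx_den hc hx hy
  have h4 := ww_ne hc hx
  have h5 := ww_ne hc hy
  have r1 := ww_rel hc hx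
  have r2 := ww_rel hc hy
  have r3 : x + x⁻¹ + ww c x + (ww c x)⁻¹ = y + y⁻¹ + ww c y + (ww c y)⁻¹ := by rw [r1, r2]
  unfold gx
  rw [mul_div_assoc', eq_div_iff h3]
  field_simp at r3
  linear_combination r3

end

end IsingS2
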