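import Pool.Agent.Helper98.IS.Coupling
import Pool.Agent.Helper98.IS.ChainMat
import Pool.Agent.Helper98.IS.ASeries
import Pool.Agent.Helper98.IS.Fam
import Pool.Agent.Helper98.IS.Emb
import Pool.Agent.Helper98.IS.FC
import Pool.Agent.Helper98.IS.Symbols

/-!
# IS-24: limits of `b` and `w`
-/

namespace IsingS2

open Complex Set MeasureTheory Filter Topology IsingNB
open scoped Real Matrix

noncomputable section

/-! ### functions on the circle -/

private theorem bw_norm_exp (φ : ℝ) : ‖Complex.exp (I * φ)‖ = 1 := by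
  rw [mul_comm]; exact Complex.norm_exp_ofReal_mul_I φ

private theorem bw_cont {f : ℂ → ℂ} (hf : Ann f) :
    Continuous fun φ : ℝ => f (Complex.exp (I * φ)) := by
  obtain ⟨q, hq0, hq1, hd⟩ := hf
  refine hd.continuousOn.comp_continuous (by fun_prop) ?_
  intro φ
  show q < ‖Complex.exp (I * φ)‖ ∧ ‖Complex.exp (I * φ)‖ < q⁻¹
  rw [bw_norm_exp]
  exact ⟨hq1, (one_lt_inv₀ hq0).mpr hq1⟩

private theorem bw_fc_sub {f g : ℂ → ℂ} (hf : Ann f) (hg : Ann g) (n : ℤ) :
    fc (fun x => f x - g x) n = fc f n - fc g n := by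
  unfold fc
  rw [← mul_sub, ← intervalIntegral.integral_sub]
  · congr 1
    refine intervalIntegral.integral_congr fun φ _ => ?_
    simp only
    ring
  · exact ((bw_cont hf).mul (by fun_prop)).intervalIntegrable _ _
  · exact ((bw_cont hg).mul (by fun_prop)).intervalIntegrable _ _

private theorem bw_ann {f : ℂ → ℂ} (hf : DifferentiableOn ℂ f {x | x ≠ 0}) : Ann f := by
  refine ⟨1 / 2, by norm_num, by norm_num, hf.mono ?_⟩
  rintro x ⟨hx, -⟩
  show x ≠ 0
  rintro rfl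
  rw [norm_zero] at hx
  norm_num at hx

/-- Laurent polynomial of degree one -/
private def lau (α β γ : ℝ) (x : ℂ) : ℂ := (α : ℂ) * x⁻¹ + β + γ * x

private theorem lau_ann (α β γ : ℝ) : Ann (lau α β γ) := by
  apply bw_ann
  unfold lau
  refine DifferentiableOn.add (DifferentiableOn.add ?_ (differentiableOn_const _)) ?_
  · exact (differentiableOn_inv).const_mul _
  · exact (differentiableOn_id).const_mul _

private theorem lau_pow_ann (α β γ : ℝ) (n : ℕ) : Ann (fun x => lau α β γ x ^ n) := by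
  apply bw_ann
  refine DifferentiableOn.pow ?_ n
  unfold lau
  refine DifferentiableOn.add (DifferentiableOn.add ?_ (differentiableOn_const _)) ?_
  · exact (differentiableOn_inv).const_mul _
  · exact (differentiableOn_id).const_mul _

private theorem fc_lau (α β γ : ℝ) (n : ℤ) :
    fc (lau α β γ) n = if n = -1 then (α : ℂ) else if n = 0 then (β : ℂ) else
      if n = 1 then (γ : ℂ) else 0 := by
  have hz : ∀ n : ℤ, n ∉ ({-1, 0, 1} : Finset ℤ) →
      (if n = -1 then (α : ℂ) else if n = 0 then (β : ℂ) else if n = 1 then (γ : ℂ) else 0) = 0 := by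
    intro n hn
    simp only [Finset.mem_insert, Finset.mem_singleton, not_or] at hn
    rw [if_neg hn.1, if_neg hn.2.1, if_neg hn.2.2]
  refine fc_of_hasSum (s := fun n => if n = -1 then (α : ℂ) else if n = 0 then (β : ℂ) else
      if n = 1 then (γ : ℂ) else 0) ?_ ?_ n
  · refine summable_of_ne_finset_zero (s := ({-1, 0, 1} : Finset ℤ)) ?_
    intro n hn
    rw [hz n hn, norm_zero]
  · intro x hx
    have hx0 : x ≠ 0 := by
      rintro rfl
      simp at hx
    have h : HasSum (fun n : ℤ => (if n = -1 then (α : ℂ) else if n = 0 then (β : ℂ) else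
        if n = 1 then (γ : ℂ) else 0) * x ^ n) (∑ n ∈ ({-1, 0, 1} : Finset ℤ),
          (if n = -1 then (α : ℂ) else if n = 0 then (β : ℂ) else
        if n = 1 then (γ : ℂ) else 0) * x ^ n) := hasSum_sum_of_ne_finset_zero (by
        intro n hn
        rw [hz n hn, zero_mul])
    have h2 : ∑ n ∈ ({-1, 0, 1} : Finset ℤ), (if n = -1 then (α : ℂ) else if n = 0 then (β : ℂ)
        else if n = 1 then (γ : ℂ) else 0) * x ^ n = lau α β γ x := by
      rw [Finset.sum_insert (by decide), Finset.sum_insert (by decide), Finset.sum_singleton]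
      simp [lau]
      ring
    rw [h2] at h
    exact h

/-! ### embedded matrices -/

private theorem bw_emb_bound (a : ℕ) {m : ℕ} (A : Matrix (Fin m) (Fin m) ℝ) (φ : ℕ → ℝ)
    (h0 : ∀ n, 0 ≤ φ n) (h : ∀ i j : Fin m, |A i j| ≤ φ ((i : ℤ) - j).natAbs) (k l : ℤ) :
    ‖emb a A k l‖ ≤ φ (k - l).natAbs := by
  unfold emb
  split_ifs with hw
  · have h1 := h ⟨(k + a).toNat, by omega⟩ ⟨(l + a).toNat, by omega⟩
    have h2 : ((((k + a).toNat : ℕ) : ℤ) - (((l + a).toNat : ℕ) : ℤ)).natAbs =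
        (k - l).natAbs := by omega
    simp only [h2] at h1
    rw [Complex.norm_real, Real.norm_eq_abs]
    exact h1
  · rw [norm_zero]
    exact h0 _

private theorem bw_tri (A : (m : ℕ) → Matrix (Fin m) (Fin m) ℝ) (α β γ K : ℝ) (hK0 : 0 ≤ K)
    (hK : ∀ m k l, |A m k l| ≤ K)
    (h0 : ∀ m (k l : Fin m), k ≠ l → (l : ℕ) ≠ k + 1 → (k : ℕ) ≠ l + 1 → A m k l = 0)
    (hα : ∀ m (k l : Fin m), (l : ℕ) = k + 1 → A m k l = α)
    (hγ : ∀ m (k l : Fin m), (k : ℕ) = l + 1 → A m k l = γ)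
    (hβ : ∀ m (k : Fin m), (k : ℕ) ≠ 0 → (k : ℕ) + 1 ≠ m → A m k k = β) :
    Band win (fun p => emb p.2 (A p.1)) (Tz (lau α β γ)) where
  bound := by
    refine ⟨2 * K, 1 / 2, by positivity, by norm_num, by norm_num, Eventually.of_forall ?_⟩
    intro p k l
    refine bw_emb_bound p.2 (A p.1) (fun n => 2 * K * (1 / 2) ^ n) (fun n => by positivity) ?_ k l
    intro i j
    by_cases hij : ((i : ℤ) - j).natAbs ≤ 1
    · refine (hK _ _ _).trans ?_
      have h1 : (1 / 2 : ℝ) ^ 1 ≤ (1 / 2) ^ ((i : ℤ) - j).natAbs :=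
        pow_le_pow_of_le_one (by norm_num) (by norm_num) hij
      calc K = 2 * K * (1 / 2 : ℝ) ^ 1 := by ring
        _ ≤ _ := mul_le_mul_of_nonneg_left h1 (by positivity)
    · rw [h0 _ i j (by rintro rfl; simp at hij) (by omega) (by omega), abs_zero]
      positivity
  lim := by
    intro k l
    refine Tendsto.congr' ?_ (tendsto_const_nhds (x := Tz (lau α β γ) k l))
    filter_upwards [win_eventually (k.natAbs + l.natAbs + 2)] with p hp
    have hw : (0 ≤ k + p.2 ∧ k + p.2 < p.1) ∧ (0 ≤ l + p.2 ∧ l + p.2 < p.1) := by omega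
    unfold Tz emb
    rw [dif_pos hw, fc_lau]
    split_ifs with h1 h2 h3
    · rw [hα]
      show (l + p.2).toNat = (k + p.2).toNat + 1
      omega
    · have : l = k := by omega
      subst this
      rw [hβ]
      · show (l + p.2).toNat ≠ 0
        omega
      · show (l + p.2).toNat + 1 ≠ p.1
        omega
    · rw [hγ]
      show (k + p.2).toNat = (l + p.2).toNat + 1
      omega
    · rw [h0]
      · simp
      · intro h4
        have := congrArg Fin.val h4
        simp only at this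
        omega
      · show (l + p.2).toNat ≠ (k + p.2).toNat + 1
        omega
      · show (k + p.2).toNat ≠ (l + p.2).toNat + 1
        omega

/-! ### powers -/

private theorem bw_pow_row {m : ℕ} (X : Matrix (Fin m) (Fin m) ℝ) (hr : ∀ k, ∑ l, |X k l| ≤ 1)
    (n : ℕ) (k : Fin m) : ∑ l, |(X ^ n) k l| ≤ 1 := by
  induction n with
  | zero =>
    rw [pow_zero]
    rw [Finset.sum_eq_single k]
    · simp
    · intro l _ hl
      rw [Matrix.one_apply_ne hl.symm, abs_zero]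
    · intro h
      exact absurd (Finset.mem_univ k) h
  | succ n ih =>
    calc ∑ l, |(X ^ (n + 1)) k l| = ∑ l, |∑ j, (X ^ n) k j * X j l| := by
          simp only [pow_succ, Matrix.mul_apply]
      _ ≤ ∑ l, ∑ j, |(X ^ n) k j| * |X j l| := by
          refine Finset.sum_le_sum fun l _ => (Finset.abs_sum_le_sum_abs _ _).trans ?_
          exact le_of_eq (Finset.sum_congr rfl fun j _ => abs_mul _ _)
      _ = ∑ j, |(X ^ n) k j| * ∑ l, |X j l| := by
          rw [Finset.sum_comm]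
          exact Finset.sum_congr rfl fun j _ => (Finset.mul_sum _ _ _).symm
      _ ≤ ∑ j, |(X ^ n) k j| * 1 :=
          Finset.sum_le_sum fun j _ => mul_le_mul_of_nonneg_left (hr j) (abs_nonneg _)
      _ ≤ 1 := by simpa using ih

private theorem bw_pow_le {m : ℕ} (X : Matrix (Fin m) (Fin m) ℝ) (hr : ∀ k, ∑ l, |X k l| ≤ 1)
    (n : ℕ) (k l : Fin m) : |(X ^ n) k l| ≤ 1 :=
  (Finset.single_le_sum (f := fun l => |(X ^ n) k l|) (fun _ _ => abs_nonneg _)
    (Finset.mem_univ l)).trans (bw_pow_row X hr n k)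

private theorem bw_pow_band {m : ℕ} (X : Matrix (Fin m) (Fin m) ℝ)
    (hb : ∀ k l : Fin m, 1 < ((k : ℤ) - l).natAbs → X k l = 0) (n : ℕ) :
    ∀ k l : Fin m, n < ((k : ℤ) - l).natAbs → (X ^ n) k l = 0 := by
  induction n with
  | zero =>
    intro k l h
    rw [pow_zero, Matrix.one_apply_ne]
    rintro rfl
    simp at h
  | succ n ih =>
    intro k l h
    rw [pow_succ, Matrix.mul_apply]
    refine Finset.sum_eq_zero fun j _ => ?_
    by_cases h1 : n < ((k : ℤ) - j).natAbs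
    · rw [ih k j h1, zero_mul]
    · rw [hb j l (by omega), mul_zero]

/-! ### the symbols on the circle -/

private theorem bw_circ (φ : ℝ) :
    (Complex.exp (I * φ) + (Complex.exp (I * φ))⁻¹) / 2 = ((Real.cos φ : ℝ) : ℂ) := by
  rw [← Complex.exp_neg, Complex.ofReal_cos, Complex.cos, mul_comm I (φ : ℂ), neg_mul]

private theorem bw_W {u : ℝ} (hu : 1 < u) :
    W (u : ℂ) = ((u - Real.sqrt (u ^ 2 - 1) : ℝ) : ℂ) := by
  unfold W
  have h1 : ((u : ℂ) - 1) ^ (1 / 2 : ℂ) = ((Real.sqrt (u - 1) : ℝ) : ℂ) := by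
    rw [Real.sqrt_eq_rpow, Complex.ofReal_cpow (by linarith)]
    push_cast
    rfl
  have h2 : ((u : ℂ) + 1) ^ (1 / 2 : ℂ) = ((Real.sqrt (u + 1) : ℝ) : ℂ) := by
    rw [Real.sqrt_eq_rpow, Complex.ofReal_cpow (by linarith)]
    push_cast
    rfl
  have h3 : Real.sqrt (u - 1) * Real.sqrt (u + 1) = Real.sqrt (u ^ 2 - 1) := by
    rw [← Real.sqrt_mul (by linarith)]
    congr 1
    ring
  rw [h1, h2, ← h3]
  push_cast
  ring

private theorem bw_ww (c φ : ℝ) (hc : 2 < c) :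
    ww c (Complex.exp (I * φ)) =
      (((c - Real.cos φ) - Real.sqrt ((c - Real.cos φ) ^ 2 - 1) : ℝ) : ℂ) := by
  have h1 : 1 < c - Real.cos φ := by have := Real.cos_le_one φ; linarith
  unfold ww
  rw [bw_circ, ← Complex.ofReal_sub, bw_W h1]

private theorem bw_sx (c φ : ℝ) (hc : 2 < c) :
    sx c (Complex.exp (I * φ)) = ((1 / Real.sqrt ((c - Real.cos φ) ^ 2 - 1) : ℝ) : ℂ) := by
  have h1 : 1 < c - Real.cos φ := by have := Real.cos_le_one φ; linarith
  unfold sx
  rw [bw_ww c φ hc]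
  generalize c - Real.cos φ = u at h1
  have h2 : 0 < u ^ 2 - 1 := by nlinarith
  have h3 : Real.sqrt (u ^ 2 - 1) ^ 2 = u ^ 2 - 1 := Real.sq_sqrt h2.le
  have h4 : 0 < Real.sqrt (u ^ 2 - 1) := Real.sqrt_pos.mpr h2
  generalize Real.sqrt (u ^ 2 - 1) = r at h3 h4
  have h5 : 0 < u - r := by
    by_contra h6
    push Not at h6
    nlinarith
  have h6 : 1 - (u - r) ^ 2 = 2 * r * (u - r) := by nlinarith
  rw [← Complex.ofReal_pow, ← Complex.ofReal_one, ← Complex.ofReal_sub, h6,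
    ← Complex.ofReal_ofNat, ← Complex.ofReal_mul, ← Complex.ofReal_div]
  congr 1
  field_simp

private theorem bw_lau_circ (φ : ℝ) :
    lau (-1 / 2) 0 (-1 / 2) (Complex.exp (I * φ)) = ((-Real.cos φ : ℝ) : ℂ) := by
  have h := bw_circ φ
  unfold lau
  rw [Complex.ofReal_neg, ← h]
  push_cast
  ring

/-- expansion of the symbol `sx` -/
private theorem bw_hasSum {c : ℝ} (hc : 2 < c) (d : ℤ) :
    HasSum (fun n : ℕ => ((ac c n : ℝ) : ℂ) * fc (fun x => lau (-1 / 2) 0 (-1 / 2) x ^ n) d)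
      (fc (sx c) d) := by
  have hsum1 : Summable fun n => |ac c n| := by
    have := ac_summable (c := c) (ρ := 1) (by linarith) (by norm_num) (by linarith)
    simpa using this
  have hcont : ∀ n : ℕ, Continuous fun φ : ℝ => ((ac c n : ℝ) : ℂ) *
      (lau (-1 / 2) 0 (-1 / 2) (Complex.exp (I * φ)) ^ n * Complex.exp (-(I * d * φ))) := by
    intro n
    refine continuous_const.mul (((bw_cont (lau_ann _ _ _)).pow n).mul ?_)
    fun_prop
  have key := intervalIntegral.hasSum_integral_of_dominated_convergence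
    (a := -π) (b := π) (μ := volume)
    (F := fun (n : ℕ) (φ : ℝ) => ((ac c n : ℝ) : ℂ) *
      (lau (-1 / 2) 0 (-1 / 2) (Complex.exp (I * φ)) ^ n * Complex.exp (-(I * d * φ))))
    (f := fun φ : ℝ => sx c (Complex.exp (I * φ)) * Complex.exp (-(I * d * φ)))
    (bound := fun n _ => |ac c n|)
    (fun n => (hcont n).aestronglyMeasurable)
    (fun n => Eventually.of_forall fun φ _ => by
      rw [norm_mul, norm_mul, norm_pow, bw_lau_circ, Complex.norm_real, Complex.norm_real,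
        Real.norm_eq_abs, Real.norm_eq_abs, abs_neg]
      have e1 : ‖Complex.exp (-(I * d * φ))‖ = 1 := by
        have : -(I * (d : ℂ) * (φ : ℂ)) = ((-(d * φ) : ℝ) : ℂ) * I := by push_cast; ring
        rw [this]
        exact Complex.norm_exp_ofReal_mul_I _
      rw [e1, mul_one]
      have e2 : |Real.cos φ| ^ n ≤ 1 := pow_le_one₀ (abs_nonneg _) (Real.abs_cos_le_one φ)
      calc |ac c n| * |Real.cos φ| ^ n ≤ |ac c n| * 1 :=
            mul_le_mul_of_nonneg_left e2 (abs_nonneg _)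
        _ = |ac c n| := mul_one _)
    (Eventually.of_forall fun _ _ => hsum1)
    (by simp)
    (Eventually.of_forall fun φ _ => by
      have h1 : |-(Real.cos φ)| < c - 1 := by
        rw [abs_neg]
        have := Real.abs_cos_le_one φ
        linarith
      have h2 := ac_hasSum (c := c) (x := -(Real.cos φ)) (by linarith) h1
      have h3 : HasSum (fun n => ((ac c n * (-(Real.cos φ)) ^ n : ℝ) : ℂ))
          ((1 / Real.sqrt ((c + -(Real.cos φ)) ^ 2 - 1) : ℝ) : ℂ) := Complex.hasSum_ofReal.mpr h2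
      have h4 : sx c (Complex.exp (I * φ)) =
          ((1 / Real.sqrt ((c + -(Real.cos φ)) ^ 2 - 1) : ℝ) : ℂ) := by
        rw [bw_sx c φ hc, ← sub_eq_add_neg]
      rw [← h4] at h3
      have h5 := h3.mul_right (Complex.exp (-(I * d * φ)))
      have h6 : (fun n : ℕ => ((ac c n : ℝ) : ℂ) *
          (lau (-1 / 2) 0 (-1 / 2) (Complex.exp (I * φ)) ^ n * Complex.exp (-(I * d * φ)))) =
          fun n : ℕ => ((ac c n * (-(Real.cos φ)) ^ n : ℝ) : ℂ) * Complex.exp (-(I * d * φ)) := by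
        funext n
        rw [bw_lau_circ]
        push_cast
        ring
      rw [h6]
      exact h5)
  have key2 := key.mul_left (1 / (2 * π) : ℂ)
  unfold fc
  have h7 : (fun n : ℕ => ((ac c n : ℝ) : ℂ) * ((1 / (2 * π) : ℂ) *
      ∫ φ in (-π)..π, lau (-1 / 2) 0 (-1 / 2) (Complex.exp (I * φ)) ^ n *
        Complex.exp (-(I * d * φ)))) = fun n : ℕ => (1 / (2 * π) : ℂ) *
      ∫ φ in (-π)..π, ((ac c n : ℝ) : ℂ) *
        (lau (-1 / 2) 0 (-1 / 2) (Complex.exp (I * φ)) ^ n * Complex.exp (-(I * d * φ))) := by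
    funext n
    rw [intervalIntegral.integral_const_mul]
    ring
  rw [h7]
  exact key2

/-- the matrix `Hf - c` -/
private def bwX (v : ℝ) (m : ℕ) : Matrix (Fin m) (Fin m) ℝ :=
  Hf v m - (cc v) • (1 : Matrix (Fin m) (Fin m) ℝ)

private theorem bwX_row {v : ℝ} (hv : 1 < v) (m : ℕ) (k : Fin m) : ∑ l, |bwX v m k l| ≤ 1 :=
  Hf_row hv m k

private theorem bwX_band (v : ℝ) (m : ℕ) (k l : Fin m) (h : 1 < ((k : ℤ) - l).natAbs) :
    bwX v m k l = 0 := by
  have h1 : k ≠ l := by rintro rfl; simp at h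
  have h2 : ¬ ((l : ℕ) = k + 1 ∨ (k : ℕ) = l + 1) := by omega
  simp [bwX, Hf, h1, h2]

private theorem bw_X_lim {v : ℝ} (hv : 1 < v) :
    Band win (fun p => emb p.2 (bwX v p.1)) (Tz (lau (-1 / 2) 0 (-1 / 2))) := by
  refine bw_tri (bwX v) (-1 / 2) 0 (-1 / 2) 1 (by norm_num) ?_ ?_ ?_ ?_ ?_
  · intro m k l
    have := bw_pow_le (bwX v m) (bwX_row hv m) 1 k l
    rwa [pow_one] at this
  · intro m k l h1 h2 h3
    have h4 : ¬ ((l : ℕ) = k + 1 ∨ (k : ℕ) = l + 1) := by omega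
    simp [bwX, Hf, h1, h4]
  · intro m k l h
    have h1 : k ≠ l := by rintro rfl; omega
    simp [bwX, Hf, h1, h]
  · intro m k l h
    have h1 : k ≠ l := by rintro rfl; omega
    simp [bwX, Hf, h1, h]
  · intro m k h1 h2
    simp [bwX, Hf, h1, h2]

private theorem bw_X_pow {v : ℝ} (hv : 1 < v) (n : ℕ) :
    Band win (fun p => emb p.2 (bwX v p.1 ^ n)) (Tz fun x => lau (-1 / 2) 0 (-1 / 2) x ^ n) := by
  induction n with
  | zero =>
    have h : (Tz fun x : ℂ => lau (-1 / 2) 0 (-1 / 2) x ^ 0) = one' := by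
      simp only [pow_zero]
      exact Tz_one
    rw [h]
    simpa using emb_one_band
  | succ n ih =>
    have h1 := Band.mm ih (bw_X_lim hv)
    rw [Tz_mul (lau_pow_ann _ _ _ n) (lau_ann _ _ _)] at h1
    have h2 : (fun p : ℕ × ℕ => emb p.2 (bwX v p.1 ^ (n + 1))) =
        fun p : ℕ × ℕ => mm (emb p.2 (bwX v p.1 ^ n)) (emb p.2 (bwX v p.1)) := by
      funext p
      rw [pow_succ, emb_mul]
    rw [h2]
    simpa only [pow_succ] using h1

private theorem bw_emb_aS (c : ℝ) (a : ℕ) {m : ℕ} (X : Matrix (Fin m) (Fin m) ℝ) (k l : ℤ) :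
    emb a (aS c X) k l = ∑' n, ((ac c n : ℝ) : ℂ) * emb a (X ^ n) k l := by
  unfold emb
  split_ifs with h
  · simp only [aS, Matrix.of_apply]
    rw [Complex.ofReal_tsum]
    congr 1
    funext n
    push_cast
    rfl
  · simp

private theorem bw_aS_band {v : ℝ} (hv : 1 < v) :
    Band win (fun p => emb p.2 (aS (cc v) (bwX v p.1))) (Tz (sx (cc v))) := by
  have hc := cc_gt_two hv
  obtain ⟨c, hcdef⟩ : ∃ c, c = cc v := ⟨_, rfl⟩
  rw [← hcdef] at hc ⊢
  obtain ⟨ρ, hρdef⟩ : ∃ ρ, ρ = c / 2 := ⟨_, rfl⟩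
  have hρ1 : 1 < ρ := by linarith
  have hρ0 : 0 < ρ := by linarith
  have hsum := ac_summable (c := c) (ρ := ρ) (by linarith) hρ0.le (by linarith)
  have hsum1 : Summable fun n => |ac c n| := by
    have := ac_summable (c := c) (ρ := 1) (by linarith) (by norm_num) (by linarith)
    simpa using this
  refine ⟨⟨∑' n, |ac c n| * ρ ^ n, ρ⁻¹, ?_, inv_pos.mpr hρ0, inv_lt_one_of_one_lt₀ hρ1,
    Eventually.of_forall ?_⟩, ?_⟩
  · exact tsum_nonneg fun n => by positivity
  · intro p k l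
    refine bw_emb_bound p.2 _ (fun d => (∑' n, |ac c n| * ρ ^ n) * ρ⁻¹ ^ d) (fun d => ?_) ?_ k l
    · have : 0 ≤ ∑' n, |ac c n| * ρ ^ n := tsum_nonneg fun n => by positivity
      positivity
    · intro i j
      rw [← Real.norm_eq_abs]
      show ‖∑' n, ac c n * (bwX v p.1 ^ n) i j‖ ≤ _
      refine tsum_of_norm_bounded (hsum.hasSum.mul_right _) ?_
      intro n
      rw [Real.norm_eq_abs, abs_mul]
      by_cases hn : n < ((i : ℤ) - j).natAbs
      · rw [bw_pow_band _ (bwX_band v p.1) n i j hn, abs_zero, mul_zero]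
        positivity
      · push Not at hn
        have h1 : |(bwX v p.1 ^ n) i j| ≤ 1 := bw_pow_le _ (bwX_row hv p.1) n i j
        have h2 : 1 ≤ ρ ^ n * ρ⁻¹ ^ ((i : ℤ) - j).natAbs := by
          rw [inv_pow, ← div_eq_mul_inv, one_le_div (by positivity)]
          exact pow_le_pow_right₀ hρ1.le hn
        calc |ac c n| * |(bwX v p.1 ^ n) i j|
            ≤ |ac c n| * (ρ ^ n * ρ⁻¹ ^ ((i : ℤ) - j).natAbs) :=
              mul_le_mul_of_nonneg_left (h1.trans h2) (abs_nonneg _)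
          _ = |ac c n| * ρ ^ n * ρ⁻¹ ^ ((i : ℤ) - j).natAbs := by ring
  · intro k l
    have h1 : HasSum (fun n : ℕ => ((ac c n : ℝ) : ℂ) *
        Tz (fun x => lau (-1 / 2) 0 (-1 / 2) x ^ n) k l) (Tz (sx c) k l) := bw_hasSum hc (k - l)
    rw [← h1.tsum_eq]
    simp only [bw_emb_aS]
    refine tendsto_tsum_of_dominated_convergence (bound := fun n => |ac c n|) hsum1 ?_ ?_
    · intro n
      exact ((bw_X_pow hv n).lim k l).const_mul _
    · refine Eventually.of_forall fun p n => ?_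
      rw [norm_mul, Complex.norm_real, Real.norm_eq_abs]
      have h2 : ‖emb p.2 (bwX v p.1 ^ n) k l‖ ≤ 1 :=
        bw_emb_bound p.2 _ (fun _ => 1) (fun _ => by norm_num)
          (fun i j => bw_pow_le _ (bwX_row hv p.1) n i j) k l
      calc |ac c n| * ‖emb p.2 (bwX v p.1 ^ n) k l‖ ≤ |ac c n| * 1 :=
            mul_le_mul_of_nonneg_left h2 (abs_nonneg _)
        _ = |ac c n| := mul_one _

/-! ### the matrices `L`, `Hg`, `b`, `w` -/

private theorem bw_Cs_eq {v : ℝ} (hv : 1 < v) : c1 v * s1 v * (Cw v + Cw v) = Cs v := by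
  have h0 : 0 < v := by linarith
  have h1 := two_c1_s1 h0
  have h2 : Cw v * v = Cs v := by
    unfold Cw Cs
    field_simp
  calc c1 v * s1 v * (Cw v + Cw v) = (2 * c1 v * s1 v) * Cw v := by ring
    _ = v * Cw v := by rw [h1]
    _ = Cs v := by rw [mul_comm, h2]

private theorem bw_Lx (v : ℝ) : Lx v = lau (-(c1 v ^ 2) / v) (Cs v) (-(s1 v ^ 2) / v) := by
  funext x
  unfold Lx lau
  push_cast
  ring

private theorem bw_L_lim {v : ℝ} (hv : 1 < v) :
    Band win (fun p => emb p.2 (Lm v p.1)) (Tz (Lx v)) := by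
  have h0 : 0 < v := by linarith
  rw [bw_Lx]
  have hc1 := c1_pos h0
  have hs1 := s1_pos h0
  have hCs : 0 ≤ Cs v := Real.sqrt_nonneg _
  have hCw : 1 < Cw v := one_lt_Cw h0
  have hle : ∀ m (k : Fin m), 0 ≤ c1 v * s1 v * (df v k + dg v k) ∧
      c1 v * s1 v * (df v k + dg v k) ≤ Cs v := by
    intro m k
    have h1 : 0 ≤ df v k ∧ df v k ≤ Cw v := by
      unfold df
      split_ifs
      · exact ⟨by norm_num, hCw.le⟩
      · exact ⟨by linarith, le_rfl⟩
    have h2 : 0 ≤ dg v k ∧ dg v k ≤ Cw v := by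
      unfold dg
      split_ifs
      · exact ⟨by norm_num, hCw.le⟩
      · exact ⟨by linarith, le_rfl⟩
    have h3 : 0 ≤ c1 v * s1 v := by positivity
    refine ⟨mul_nonneg h3 (by linarith [h1.1, h2.1]), ?_⟩
    rw [← bw_Cs_eq hv]
    exact mul_le_mul_of_nonneg_left (by linarith [h1.2, h2.2]) h3
  refine bw_tri (Lm v) _ _ _ (Cs v + c1 v ^ 2 / v + s1 v ^ 2 / v) (by positivity) ?_ ?_ ?_ ?_ ?_
  · intro m k l
    unfold Lm
    rw [Matrix.of_apply]
    have e1 : 0 ≤ c1 v ^ 2 / v := by positivity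
    have e2 : 0 ≤ s1 v ^ 2 / v := by positivity
    split_ifs with h1 h2 h3
    · rw [abs_of_nonneg (hle m k).1]
      linarith [(hle m k).2]
    · rw [neg_div, abs_neg, abs_of_nonneg e1]
      linarith
    · rw [neg_div, abs_neg, abs_of_nonneg e2]
      linarith
    · rw [abs_zero]
      linarith
  · intro m k l h1 h2 h3
    simp [Lm, h1, h2, h3]
  · intro m k l h
    have h1 : k ≠ l := by rintro rfl; omega
    simp [Lm, h1, h]
  · intro m k l h
    have h1 : k ≠ l := by rintro rfl; omega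
    have h2 : ¬ ((l : ℕ) = k + 1) := by omega
    unfold Lm
    rw [Matrix.of_apply, if_neg h1, if_neg h2, if_pos h]
  · intro m k h1 h2
    simp only [Lm, Matrix.of_apply, if_true, df, dg, h1, h2, if_false]
    exact bw_Cs_eq hv

private theorem bw_Lx_ann (v : ℝ) : Ann (Lx v) := by
  rw [bw_Lx]
  exact lau_ann _ _ _

theorem bm_band {v : ℝ} (hv : 1 < v) : Band win (fun p => emb p.2 (bm v p.1)) (Tz (bx v)) := by
  have h1 := Band.mm (bw_L_lim hv) (bw_aS_band hv)
  rw [Tz_mul (bw_Lx_ann v) (sx_ann (cc_gt_two hv))] at h1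
  have h2 : (fun p : ℕ × ℕ => emb p.2 (bm v p.1)) =
      fun p : ℕ × ℕ => mm (emb p.2 (Lm v p.1)) (emb p.2 (aS (cc v) (bwX v p.1))) := by
    funext p
    rw [← emb_mul]
    rfl
  rw [h2]
  exact h1

private theorem bw_Hg_lim {v : ℝ} (hv : 1 < v) :
    Band win (fun p => emb p.2 (Hg v p.1)) (Tz (lau (-1 / 2) (cc v) (-1 / 2))) := by
  have hc := cc_gt_two hv
  have hrow : ∀ (m : ℕ) (k l : Fin m),
      |(Hg v m - (cc v) • (1 : Matrix (Fin m) (Fin m) ℝ)) k l| ≤ 1 := fun m k l =>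
    (Finset.single_le_sum (f := fun l => |(Hg v m - (cc v) • (1 : Matrix (Fin m) (Fin m) ℝ)) k l|)
      (fun _ _ => abs_nonneg _) (Finset.mem_univ l)).trans (Hg_row hv m k)
  refine bw_tri (Hg v) (-1 / 2) (cc v) (-1 / 2) (cc v + 1) (by linarith) ?_ ?_ ?_ ?_ ?_
  · intro m k l
    have h1 := hrow m k l
    rw [Matrix.sub_apply] at h1
    have h2 : |((cc v) • (1 : Matrix (Fin m) (Fin m) ℝ)) k l| ≤ cc v := by
      rw [Matrix.smul_apply, Matrix.one_apply, smul_eq_mul]
      split_ifs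
      · rw [mul_one, abs_of_pos (by linarith)]
      · rw [mul_zero, abs_zero]; linarith
    have h3 := abs_sub_abs_le_abs_sub (Hg v m k l)
      (((cc v) • (1 : Matrix (Fin m) (Fin m) ℝ)) k l)
    linarith
  · intro m k l h1 h2 h3
    have h4 : ¬ ((l : ℕ) = k + 1 ∨ (k : ℕ) = l + 1) := by omega
    simp [Hg, h1, h4]
  · intro m k l h
    have h1 : k ≠ l := by rintro rfl; omega
    simp [Hg, h1, h]
  · intro m k l h
    have h1 : k ≠ l := by rintro rfl; omega
    simp [Hg, h1, h]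
  · intro m k h1 h2
    simp [Hg, h1, h2]

private theorem bw_bT_band {v : ℝ} (hv : 1 < v) :
    Band win (fun p => emb p.2 ((bm v p.1)ᵀ)) (Tz fun x => bx v x⁻¹) := by
  have h := bm_band hv
  obtain ⟨C, q, hC, hq0, hq1, hb⟩ := h.bound
  refine ⟨⟨C, q, hC, hq0, hq1, ?_⟩, ?_⟩
  · filter_upwards [hb] with p hp k l
    rw [emb_transpose]
    have := hp l k
    rwa [show (l - k).natAbs = (k - l).natAbs by omega] at this
  · intro k l
    rw [Tz_inv]
    simp only [emb_transpose]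
    exact h.lim l k

private theorem bw_Lx_mul {v : ℝ} (hv : 1 < v) (φ : ℝ) :
    Lx v (Complex.exp (I * φ)) * Lx v (Complex.exp (I * φ))⁻¹ =
      (((cc v - Real.cos φ) ^ 2 - 1 : ℝ) : ℂ) := by
  have h0 : 0 < v := by linarith
  have hx0 : Complex.exp (I * φ) ≠ 0 := Complex.exp_ne_zero _
  have hcirc := bw_circ φ
  generalize Complex.exp (I * φ) = x at hx0 hcirc
  have hc : ((Real.cos φ : ℝ) : ℂ) = (x + x⁻¹) / 2 := hcirc.symm
  -- real identities
  have k1 := c1_sq h0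
  have k2 := s1_sq h0
  have k3 := two_c1_s1 h0
  have k4 := Cs_mul_Cw h0
  have k5 : Cw v * v = Cs v := by
    unfold Cw Cs
    field_simp
  have k6 : Cs v ^ 2 = 1 + v ^ 2 := Real.sq_sqrt (by positivity)
  obtain ⟨a, ha⟩ : ∃ a, a = c1 v ^ 2 / v := ⟨_, rfl⟩
  obtain ⟨b, hb⟩ : ∃ b, b = s1 v ^ 2 / v := ⟨_, rfl⟩
  have e1 : a + b = Cw v := by
    rw [ha, hb, ← add_div, k1, k2, div_eq_iff h0.ne', k5]; ring
  have e2 : a * b = 1 / 4 := by
    have : c1 v ^ 2 * s1 v ^ 2 = v ^ 2 / 4 := by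
      calc c1 v ^ 2 * s1 v ^ 2 = (2 * c1 v * s1 v) ^ 2 / 4 := by ring
        _ = v ^ 2 / 4 := by rw [k3]
    rw [ha, hb, div_mul_div_comm, this]
    field_simp
  have e3 : Cs v ^ 2 + (a + b) ^ 2 = cc v ^ 2 + 0 := by
    rw [e1, ← k4, mul_pow]
    have h7 : Cw v ^ 2 * v ^ 2 = Cs v ^ 2 := by rw [← mul_pow, k5]
    have h8 : v ^ 2 ≠ 0 := by positivity
    have h9 : Cw v ^ 2 = Cs v ^ 2 / v ^ 2 := by rw [eq_div_iff h8, h7]
    rw [h9, k6]
    field_simp
    ring
  have f1 : ((a : ℝ) : ℂ) + b = Cw v := by exact_mod_cast congrArg (fun r : ℝ => (r : ℂ)) e1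
  have f2 : ((a : ℝ) : ℂ) * b = 1 / 4 := by
    have := congrArg (fun r : ℝ => (r : ℂ)) e2
    push_cast at this
    exact this
  have f3 : ((Cs v : ℝ) : ℂ) ^ 2 + ((a : ℂ) + b) ^ 2 = (cc v : ℂ) ^ 2 := by
    have := congrArg (fun r : ℝ => (r : ℂ)) e3
    push_cast at this
    rw [add_zero] at this
    exact this
  have f4 : ((Cs v : ℝ) : ℂ) * ((a : ℂ) + b) = (cc v : ℂ) := by
    rw [f1]
    exact_mod_cast congrArg (fun r : ℝ => (r : ℂ)) k4
  unfold Lx
  rw [← ha, ← hb, inv_inv]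
  push_cast
  rw [← Complex.ofReal_cos, hc]
  have hxx : x * x⁻¹ = 1 := mul_inv_cancel₀ hx0
  generalize x⁻¹ = y at hxx
  have g1 : ((Cs v : ℂ) - a * y - b * x) * ((Cs v : ℂ) - a * x - b * y) =
      (Cs v : ℂ) ^ 2 - (Cs v : ℂ) * ((a : ℂ) + b) * (x + y) + ((a : ℂ) ^ 2 + b ^ 2) * (x * y) +
        (a : ℂ) * b * (x ^ 2 + y ^ 2) := by ring
  rw [g1, f4, hxx, f2, mul_one]
  have g2 : (a : ℂ) ^ 2 + b ^ 2 = (cc v : ℂ) ^ 2 - (Cs v : ℂ) ^ 2 - 1 / 2 := by
    have : ((a : ℂ) + b) ^ 2 = (a : ℂ) ^ 2 + b ^ 2 + 2 * ((a : ℂ) * b) := by ring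
    rw [f2] at this
    linear_combination f3 - this
  rw [g2]
  linear_combination (-1 / 2 : ℂ) * hxx

private theorem bw_w_symb {v : ℝ} (hv : 1 < v) {x : ℂ} (hx : ‖x‖ = 1) :
    lau (-1 / 2) (cc v) (-1 / 2) x - Lx v x * bx v x⁻¹ = ww (cc v) x := by
  obtain ⟨φ, rfl⟩ : ∃ φ : ℝ, x = Complex.exp (I * φ) := by
    refine ⟨x.arg, ?_⟩
    have := Complex.norm_mul_exp_arg_mul_I x
    rw [hx, Complex.ofReal_one, one_mul] at this
    rw [mul_comm I, this]
  have hc := cc_gt_two hv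
  have hinv : (Complex.exp (I * φ))⁻¹ = Complex.exp (I * ((-φ : ℝ) : ℂ)) := by
    rw [← Complex.exp_neg]
    congr 1
    push_cast
    ring
  have h1 : bx v (Complex.exp (I * φ))⁻¹ = Lx v (Complex.exp (I * φ))⁻¹ *
      ((1 / Real.sqrt ((cc v - Real.cos φ) ^ 2 - 1) : ℝ) : ℂ) := by
    unfold bx
    congr 1
    rw [hinv, bw_sx _ _ hc, Real.cos_neg]
  have h2 : lau (-1 / 2) (cc v) (-1 / 2) (Complex.exp (I * φ)) =
      ((cc v - Real.cos φ : ℝ) : ℂ) := by
    have h := bw_circ φ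
    unfold lau
    rw [Complex.ofReal_sub, ← h]
    push_cast
    ring
  rw [h1, ← mul_assoc, bw_Lx_mul hv, h2, bw_ww _ _ hc]
  have h3 : 1 < cc v - Real.cos φ := by have := Real.cos_le_one φ; linarith
  generalize cc v - Real.cos φ = u at h3
  have h4 : 0 < u ^ 2 - 1 := by nlinarith
  have h5 : Real.sqrt (u ^ 2 - 1) ^ 2 = u ^ 2 - 1 := Real.sq_sqrt h4.le
  have h6 : 0 < Real.sqrt (u ^ 2 - 1) := Real.sqrt_pos.mpr h4
  rw [← Complex.ofReal_mul, ← Complex.ofReal_sub]
  congr 1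
  rw [← h5, Real.sqrt_sq h6.le]
  field_simp

theorem wm_band {v : ℝ} (hv : 1 < v) (N : ℕ) :
    Band win (fun p => emb p.2 (wm v p.1 ^ N)) (Tz fun x => ww (cc v) x ^ N) := by
  have hc := cc_gt_two hv
  have hbx0 : Ann (bx v) := Ann.mul (bw_Lx_ann v) (sx_ann hc)
  have hbx : Ann fun x => bx v x⁻¹ := Ann.inv' hbx0
  -- the case `N = 1`
  have hone : Band win (fun p => emb p.2 (wm v p.1)) (Tz (ww (cc v))) := by
    have h1 := Band.mm (bw_L_lim hv) (bw_bT_band hv)
    rw [Tz_mul (bw_Lx_ann v) hbx] at h1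
    have h2 := (bw_Hg_lim hv).add (h1.smul (-1))
    have h3 : (fun k l => Tz (lau (-1 / 2) (cc v) (-1 / 2)) k l +
        (-1) * Tz (fun x => Lx v x * bx v x⁻¹) k l) = Tz (ww (cc v)) := by
      funext k l
      unfold Tz
      have h4 := bw_fc_sub (lau_ann (-1 / 2) (cc v) (-1 / 2)) ((bw_Lx_ann v).mul hbx) (k - l)
      rw [neg_one_mul, ← sub_eq_add_neg, ← h4]
      exact fc_congr (fun x hx => bw_w_symb hv hx) _
    rw [h3] at h2
    have h4 : (fun p : ℕ × ℕ => emb p.2 (wm v p.1)) = fun (p : ℕ × ℕ) k l =>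
        emb p.2 (Hg v p.1) k l + (-1) * mm (emb p.2 (Lm v p.1)) (emb p.2 ((bm v p.1)ᵀ)) k l := by
      funext p k l
      have e1 : wm v p.1 = Hg v p.1 + (-1 : ℝ) • (Lm v p.1 * (bm v p.1)ᵀ) := by
        unfold wm
        rw [neg_one_smul, sub_eq_add_neg]
      rw [e1, emb_add, emb_smul, emb_mul]
      push_cast
      rfl
    rw [h4]
    exact h2
  induction N with
  | zero =>
    have h : (Tz fun x : ℂ => ww (cc v) x ^ 0) = one' := by
      simp only [pow_zero]
      exact Tz_one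
    rw [h]
    simpa using emb_one_band
  | succ n ih =>
    have h1 := Band.mm ih hone
    have hann : Ann fun x => ww (cc v) x ^ n := by
      obtain ⟨q, hq0, hq1, hd⟩ := ww_ann hc
      exact ⟨q, hq0, hq1, hd.pow n⟩
    rw [Tz_mul hann (ww_ann hc)] at h1
    have h2 : (fun p : ℕ × ℕ => emb p.2 (wm v p.1 ^ (n + 1))) =
        fun p : ℕ × ℕ => mm (emb p.2 (wm v p.1 ^ n)) (emb p.2 (wm v p.1)) := by
      funext p
      rw [pow_succ, emb_mul]
    rw [h2]
    simpa only [pow_succ] using h1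

end

end IsingS2
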