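import Pool.Agent.Helper98.IS.Defs2

/-!
# IS-19a: toolkit for decaying infinite matrices
-/

set_option autoImplicit false

namespace IsingS2

open Complex Set MeasureTheory Filter Topology IsingNB
open scoped Real Matrix

noncomputable section

/-! ### elementary estimates -/

theorem band_summable_pow {q : ℝ} (hq0 : 0 ≤ q) (hq1 : q < 1) :
    Summable fun i : ℤ => q ^ i.natAbs := by
  apply Summable.of_nat_of_neg
  · simpa using summable_geometric_of_lt_one hq0 hq1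
  · simpa using summable_geometric_of_lt_one hq0 hq1

theorem band_summable_sub {q : ℝ} (hq0 : 0 ≤ q) (hq1 : q < 1) (k : ℤ) :
    Summable fun i : ℤ => q ^ (k - i).natAbs := by
  have h := band_summable_pow hq0 hq1
  exact (Equiv.subLeft k).summable_iff.2 h

theorem band_tsum_sub (q : ℝ) (k : ℤ) :
    ∑' i : ℤ, q ^ (k - i).natAbs = ∑' i : ℤ, q ^ i.natAbs :=
  (Equiv.subLeft k).tsum_eq fun i : ℤ => q ^ i.natAbs

theorem band_S_nonneg {q : ℝ} (hq0 : 0 ≤ q) : 0 ≤ ∑' i : ℤ, q ^ i.natAbs :=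
  tsum_nonneg fun _ => pow_nonneg hq0 _

/-- basic summation bound -/
theorem band_sum_core {f : ℤ → ℂ} {c r : ℝ} (hr0 : 0 ≤ r) (hr1 : r < 1) {k : ℤ}
    (h : ∀ i, ‖f i‖ ≤ c * r ^ (k - i).natAbs) :
    Summable (fun i => ‖f i‖) ∧ ‖∑' i, f i‖ ≤ c * ∑' i : ℤ, r ^ i.natAbs := by
  have hs : Summable fun i : ℤ => c * r ^ (k - i).natAbs := (band_summable_sub hr0 hr1 k).mul_left c
  have h1 : Summable fun i => ‖f i‖ := Summable.of_nonneg_of_le (fun _ => norm_nonneg _) h hs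
  refine ⟨h1, ?_⟩
  calc ‖∑' i, f i‖ ≤ ∑' i, ‖f i‖ := norm_tsum_le_tsum_norm h1
    _ ≤ ∑' i : ℤ, c * r ^ (k - i).natAbs := h1.tsum_le_tsum h hs
    _ = c * ∑' i : ℤ, r ^ i.natAbs := by rw [tsum_mul_left, band_tsum_sub]

theorem band_sqrt {q : ℝ} (hq0 : 0 < q) (hq1 : q < 1) :
    0 < Real.sqrt q ∧ Real.sqrt q < 1 ∧ Real.sqrt q * Real.sqrt q = q := by
  refine ⟨Real.sqrt_pos.2 hq0, ?_, Real.mul_self_sqrt hq0.le⟩
  rw [show (1 : ℝ) = Real.sqrt 1 by simp]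
  exact Real.sqrt_lt_sqrt hq0.le hq1

/-- `q ^ n ≤ r ^ a * r ^ b` if `r ^ 2 = q` and `a ≤ n`, `b ≤ n`. -/
theorem band_split {r q : ℝ} (hr0 : 0 < r) (hr1 : r < 1) (hq : r * r = q) {n a b : ℕ} (ha : a ≤ n)
    (hb : b ≤ n) : q ^ n ≤ r ^ a * r ^ b := by
  rw [← hq, mul_pow]
  exact mul_le_mul (pow_le_pow_of_le_one hr0.le hr1.le ha) (pow_le_pow_of_le_one hr0.le hr1.le hb)
    (pow_nonneg hr0.le _) (pow_nonneg hr0.le _)

/-- change of constants -/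
theorem band_mono {C C' q q' : ℝ} (hC : 0 ≤ C) (hq : 0 < q) (hCC : C ≤ C') (hqq : q ≤ q') (n : ℕ) :
    C * q ^ n ≤ C' * q' ^ n :=
  mul_le_mul hCC (pow_le_pow_left₀ hq.le hqq n) (pow_nonneg hq.le _) (hC.trans hCC)

theorem band_mm_core {A B : ℤ → ℤ → ℂ} {C D q : ℝ} (hC : 0 ≤ C) (hD : 0 ≤ D) (hq0 : 0 < q)
    (hq1 : q < 1) (hA : ∀ k l, ‖A k l‖ ≤ C * q ^ (k - l).natAbs)
    (hB : ∀ k l, ‖B k l‖ ≤ D * q ^ (k - l).natAbs) (k l : ℤ) :
    Summable (fun i => ‖A k i * B i l‖) ∧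
      ‖mm A B k l‖ ≤ (C * D * ∑' i : ℤ, Real.sqrt q ^ i.natAbs) * Real.sqrt q ^ (k - l).natAbs := by
  obtain ⟨hr0, hr1, hr⟩ := band_sqrt hq0 hq1
  have h : ∀ i, ‖A k i * B i l‖ ≤
      (C * D * Real.sqrt q ^ (k - l).natAbs) * Real.sqrt q ^ (k - i).natAbs := by
    intro i
    rw [norm_mul]
    calc ‖A k i‖ * ‖B i l‖ ≤ (C * q ^ (k - i).natAbs) * (D * q ^ (i - l).natAbs) :=
          mul_le_mul (hA k i) (hB i l) (norm_nonneg _) (mul_nonneg hC (pow_nonneg hq0.le _))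
      _ = C * D * q ^ ((k - i).natAbs + (i - l).natAbs) := by rw [pow_add]; ring
      _ ≤ C * D * (Real.sqrt q ^ (k - l).natAbs * Real.sqrt q ^ (k - i).natAbs) := by
          apply mul_le_mul_of_nonneg_left _ (mul_nonneg hC hD)
          apply band_split hr0 hr1 hr
          · omega
          · omega
      _ = _ := by ring
  obtain ⟨h1, h2⟩ := band_sum_core hr0.le hr1 h
  refine ⟨h1, h2.trans (le_of_eq ?_)⟩
  ring

theorem band_mm_left_core {A B : ℤ → ℤ → ℂ} {C D q : ℝ} (hC : 0 ≤ C) (hD : 0 ≤ D) (hq0 : 0 < q)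
    (hq1 : q < 1) (hA : ∀ k l, ‖A k l‖ ≤ C * q ^ (k - l).natAbs)
    (hB : ∀ k l, ‖B k l‖ ≤ D * q ^ (k.natAbs + l.natAbs)) (k l : ℤ) :
    ‖mm A B k l‖ ≤ (C * D * ∑' i : ℤ, Real.sqrt q ^ i.natAbs) *
      Real.sqrt q ^ (k.natAbs + l.natAbs) := by
  obtain ⟨hr0, hr1, hr⟩ := band_sqrt hq0 hq1
  have h : ∀ i, ‖A k i * B i l‖ ≤
      (C * D * Real.sqrt q ^ (k.natAbs + l.natAbs)) * Real.sqrt q ^ (k - i).natAbs := by
    intro i
    rw [norm_mul]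
    calc ‖A k i‖ * ‖B i l‖ ≤ (C * q ^ (k - i).natAbs) * (D * q ^ (i.natAbs + l.natAbs)) :=
          mul_le_mul (hA k i) (hB i l) (norm_nonneg _) (mul_nonneg hC (pow_nonneg hq0.le _))
      _ = C * D * q ^ ((k - i).natAbs + (i.natAbs + l.natAbs)) := by
          rw [pow_add q (k - i).natAbs]; ring
      _ ≤ C * D * (Real.sqrt q ^ (k.natAbs + l.natAbs) * Real.sqrt q ^ (k - i).natAbs) := by
          apply mul_le_mul_of_nonneg_left _ (mul_nonneg hC hD)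
          apply band_split hr0 hr1 hr
          · omega
          · omega
      _ = _ := by ring
  obtain ⟨_, h2⟩ := band_sum_core hr0.le hr1 h
  refine h2.trans (le_of_eq ?_)
  ring

theorem band_mm_right_core {A B : ℤ → ℤ → ℂ} {C D q : ℝ} (hC : 0 ≤ C) (hD : 0 ≤ D) (hq0 : 0 < q)
    (hq1 : q < 1) (hA : ∀ k l, ‖A k l‖ ≤ C * q ^ (k.natAbs + l.natAbs))
    (hB : ∀ k l, ‖B k l‖ ≤ D * q ^ (k - l).natAbs) (k l : ℤ) :
    ‖mm A B k l‖ ≤ (C * D * ∑' i : ℤ, Real.sqrt q ^ i.natAbs) *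
      Real.sqrt q ^ (k.natAbs + l.natAbs) := by
  obtain ⟨hr0, hr1, hr⟩ := band_sqrt hq0 hq1
  have h : ∀ i, ‖A k i * B i l‖ ≤
      (C * D * Real.sqrt q ^ (k.natAbs + l.natAbs)) * Real.sqrt q ^ (l - i).natAbs := by
    intro i
    rw [norm_mul]
    calc ‖A k i‖ * ‖B i l‖ ≤ (C * q ^ (k.natAbs + i.natAbs)) * (D * q ^ (i - l).natAbs) :=
          mul_le_mul (hA k i) (hB i l) (norm_nonneg _) (mul_nonneg hC (pow_nonneg hq0.le _))
      _ = C * D * q ^ ((k.natAbs + i.natAbs) + (i - l).natAbs) := by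
          rw [pow_add q (k.natAbs + i.natAbs)]; ring
      _ ≤ C * D * (Real.sqrt q ^ (k.natAbs + l.natAbs) * Real.sqrt q ^ (l - i).natAbs) := by
          apply mul_le_mul_of_nonneg_left _ (mul_nonneg hC hD)
          apply band_split hr0 hr1 hr
          · omega
          · omega
      _ = _ := by ring
  obtain ⟨_, h2⟩ := band_sum_core hr0.le hr1 h
  refine h2.trans (le_of_eq ?_)
  ring

theorem band_mv_core {A : ℤ → ℤ → ℂ} {u : ℤ → ℂ} {C D q : ℝ} (hC : 0 ≤ C) (hD : 0 ≤ D)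
    (hq0 : 0 < q) (hq1 : q < 1) (hA : ∀ k l, ‖A k l‖ ≤ C * q ^ (k - l).natAbs)
    (hu : ∀ k, ‖u k‖ ≤ D * q ^ k.natAbs) (k : ℤ) :
    Summable (fun i => ‖A k i * u i‖) ∧
      ‖mv A u k‖ ≤ (C * D * ∑' i : ℤ, Real.sqrt q ^ i.natAbs) * Real.sqrt q ^ k.natAbs := by
  obtain ⟨hr0, hr1, hr⟩ := band_sqrt hq0 hq1
  have h : ∀ i, ‖A k i * u i‖ ≤
      (C * D * Real.sqrt q ^ k.natAbs) * Real.sqrt q ^ (k - i).natAbs := by
    intro i
    rw [norm_mul]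
    calc ‖A k i‖ * ‖u i‖ ≤ (C * q ^ (k - i).natAbs) * (D * q ^ i.natAbs) :=
          mul_le_mul (hA k i) (hu i) (norm_nonneg _) (mul_nonneg hC (pow_nonneg hq0.le _))
      _ = C * D * q ^ ((k - i).natAbs + i.natAbs) := by rw [pow_add]; ring
      _ ≤ C * D * (Real.sqrt q ^ k.natAbs * Real.sqrt q ^ (k - i).natAbs) := by
          apply mul_le_mul_of_nonneg_left _ (mul_nonneg hC hD)
          apply band_split hr0 hr1 hr
          · omega
          · omega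
      _ = _ := by ring
  obtain ⟨h1, h2⟩ := band_sum_core hr0.le hr1 h
  refine ⟨h1, h2.trans (le_of_eq ?_)⟩
  ring

/-- two bounds of type `BB` can be given the same `q` -/
theorem band_common {P Q : ℝ → ℝ → Prop}
    (hP : ∀ C q q', 0 ≤ C → 0 < q → q ≤ q' → P C q → P C q')
    (hQ : ∀ C q q', 0 ≤ C → 0 < q → q ≤ q' → Q C q → Q C q')
    (h1 : ∃ C q : ℝ, 0 ≤ C ∧ 0 < q ∧ q < 1 ∧ P C q)
    (h2 : ∃ C q : ℝ, 0 ≤ C ∧ 0 < q ∧ q < 1 ∧ Q C q) :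
    ∃ C D q : ℝ, 0 ≤ C ∧ 0 ≤ D ∧ 0 < q ∧ q < 1 ∧ P C q ∧ Q D q := by
  obtain ⟨C, q, hC, hq0, hq1, h⟩ := h1
  obtain ⟨D, q', hD, hq0', hq1', h'⟩ := h2
  exact ⟨C, D, max q q', hC, hD, lt_max_of_lt_left hq0, max_lt hq1 hq1',
    hP _ _ _ hC hq0 (le_max_left _ _) h, hQ _ _ _ hD hq0' (le_max_right _ _) h'⟩

theorem band_BB_mono {A : ℤ → ℤ → ℂ} (C q q' : ℝ) (hC : 0 ≤ C) (hq : 0 < q) (hqq : q ≤ q')
    (h : ∀ k l, ‖A k l‖ ≤ C * q ^ (k - l).natAbs) : ∀ k l, ‖A k l‖ ≤ C * q' ^ (k - l).natAbs :=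
  fun k l => (h k l).trans (band_mono hC hq le_rfl hqq _)

theorem band_LL_mono {A : ℤ → ℤ → ℂ} (C q q' : ℝ) (hC : 0 ≤ C) (hq : 0 < q) (hqq : q ≤ q')
    (h : ∀ k l, ‖A k l‖ ≤ C * q ^ (k.natAbs + l.natAbs)) :
    ∀ k l, ‖A k l‖ ≤ C * q' ^ (k.natAbs + l.natAbs) :=
  fun k l => (h k l).trans (band_mono hC hq le_rfl hqq _)

theorem band_LV_mono {u : ℤ → ℂ} (C q q' : ℝ) (hC : 0 ≤ C) (hq : 0 < q) (hqq : q ≤ q')
    (h : ∀ k, ‖u k‖ ≤ C * q ^ k.natAbs) : ∀ k, ‖u k‖ ≤ C * q' ^ k.natAbs :=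
  fun k => (h k).trans (band_mono hC hq le_rfl hqq _)

theorem band_BB_BB {A B : ℤ → ℤ → ℂ} (hA : BB A) (hB : BB B) :
    ∃ C D q : ℝ, 0 ≤ C ∧ 0 ≤ D ∧ 0 < q ∧ q < 1 ∧ (∀ k l, ‖A k l‖ ≤ C * q ^ (k - l).natAbs) ∧
      (∀ k l, ‖B k l‖ ≤ D * q ^ (k - l).natAbs) :=
  band_common (P := fun C q => ∀ k l, ‖A k l‖ ≤ C * q ^ (k - l).natAbs)
    (Q := fun C q => ∀ k l, ‖B k l‖ ≤ C * q ^ (k - l).natAbs) band_BB_mono band_BB_mono hA hB

theorem band_BB_LL {A B : ℤ → ℤ → ℂ} (hA : BB A) (hB : LL B) :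
    ∃ C D q : ℝ, 0 ≤ C ∧ 0 ≤ D ∧ 0 < q ∧ q < 1 ∧ (∀ k l, ‖A k l‖ ≤ C * q ^ (k - l).natAbs) ∧
      (∀ k l, ‖B k l‖ ≤ D * q ^ (k.natAbs + l.natAbs)) :=
  band_common (P := fun C q => ∀ k l, ‖A k l‖ ≤ C * q ^ (k - l).natAbs)
    (Q := fun C q => ∀ k l, ‖B k l‖ ≤ C * q ^ (k.natAbs + l.natAbs)) band_BB_mono band_LL_mono hA hB

theorem band_LL_LL {A B : ℤ → ℤ → ℂ} (hA : LL A) (hB : LL B) :
    ∃ C D q : ℝ, 0 ≤ C ∧ 0 ≤ D ∧ 0 < q ∧ q < 1 ∧ (∀ k l, ‖A k l‖ ≤ C * q ^ (k.natAbs + l.natAbs)) ∧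
      (∀ k l, ‖B k l‖ ≤ D * q ^ (k.natAbs + l.natAbs)) :=
  band_common (P := fun C q => ∀ k l, ‖A k l‖ ≤ C * q ^ (k.natAbs + l.natAbs))
    (Q := fun C q => ∀ k l, ‖B k l‖ ≤ C * q ^ (k.natAbs + l.natAbs)) band_LL_mono band_LL_mono hA hB

theorem band_BB_LV {A : ℤ → ℤ → ℂ} {u : ℤ → ℂ} (hA : BB A) (hu : LV u) :
    ∃ C D q : ℝ, 0 ≤ C ∧ 0 ≤ D ∧ 0 < q ∧ q < 1 ∧ (∀ k l, ‖A k l‖ ≤ C * q ^ (k - l).natAbs) ∧
      (∀ k, ‖u k‖ ≤ D * q ^ k.natAbs) :=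
  band_common (P := fun C q => ∀ k l, ‖A k l‖ ≤ C * q ^ (k - l).natAbs)
    (Q := fun C q => ∀ k, ‖u k‖ ≤ C * q ^ k.natAbs) band_BB_mono band_LV_mono hA hu

/-! ### the statements -/

theorem BB_mm {A B : ℤ → ℤ → ℂ} (hA : BB A) (hB : BB B) : BB (mm A B) := by
  obtain ⟨C, D, q, hC, hD, hq0, hq1, h1, h2⟩ := band_BB_BB hA hB
  obtain ⟨hr0, hr1, _⟩ := band_sqrt hq0 hq1
  exact ⟨_, Real.sqrt q, mul_nonneg (mul_nonneg hC hD) (band_S_nonneg hr0.le), hr0, hr1,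
    fun k l => (band_mm_core hC hD hq0 hq1 h1 h2 k l).2⟩

theorem LL_mm_left {A B : ℤ → ℤ → ℂ} (hA : BB A) (hB : LL B) : LL (mm A B) := by
  obtain ⟨C, D, q, hC, hD, hq0, hq1, h1, h2⟩ := band_BB_LL hA hB
  obtain ⟨hr0, hr1, _⟩ := band_sqrt hq0 hq1
  exact ⟨_, Real.sqrt q, mul_nonneg (mul_nonneg hC hD) (band_S_nonneg hr0.le), hr0, hr1,
    fun k l => band_mm_left_core hC hD hq0 hq1 h1 h2 k l⟩

theorem LL_mm_right {A B : ℤ → ℤ → ℂ} (hA : LL A) (hB : BB B) : LL (mm A B) := by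
  obtain ⟨D, C, q, hD, hC, hq0, hq1, h2, h1⟩ := band_BB_LL hB hA
  obtain ⟨hr0, hr1, _⟩ := band_sqrt hq0 hq1
  exact ⟨_, Real.sqrt q, mul_nonneg (mul_nonneg hC hD) (band_S_nonneg hr0.le), hr0, hr1,
    fun k l => band_mm_right_core hC hD hq0 hq1 h1 h2 k l⟩

theorem LL.bb {A : ℤ → ℤ → ℂ} (hA : LL A) : BB A := by
  obtain ⟨C, q, hC, hq0, hq1, h⟩ := hA
  refine ⟨C, q, hC, hq0, hq1, fun k l => (h k l).trans ?_⟩
  exact mul_le_mul_of_nonneg_left (pow_le_pow_of_le_one hq0.le hq1.le (by omega)) hC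

theorem BB_add {A B : ℤ → ℤ → ℂ} (hA : BB A) (hB : BB B) : BB (fun k l => A k l + B k l) := by
  obtain ⟨C, D, q, hC, hD, hq0, hq1, h1, h2⟩ := band_BB_BB hA hB
  refine ⟨C + D, q, add_nonneg hC hD, hq0, hq1, fun k l => ?_⟩
  rw [add_mul]
  exact (norm_add_le _ _).trans (add_le_add (h1 k l) (h2 k l))

theorem LL_add {A B : ℤ → ℤ → ℂ} (hA : LL A) (hB : LL B) : LL (fun k l => A k l + B k l) := by
  obtain ⟨C, D, q, hC, hD, hq0, hq1, h1, h2⟩ := band_LL_LL hA hB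
  refine ⟨C + D, q, add_nonneg hC hD, hq0, hq1, fun k l => ?_⟩
  rw [add_mul]
  exact (norm_add_le _ _).trans (add_le_add (h1 k l) (h2 k l))

theorem BB_neg {A : ℤ → ℤ → ℂ} (hA : BB A) : BB (fun k l => -A k l) := by
  obtain ⟨C, q, hC, hq0, hq1, h⟩ := hA
  exact ⟨C, q, hC, hq0, hq1, fun k l => by rw [norm_neg]; exact h k l⟩

theorem LL_neg {A : ℤ → ℤ → ℂ} (hA : LL A) : LL (fun k l => -A k l) := by
  obtain ⟨C, q, hC, hq0, hq1, h⟩ := hA
  exact ⟨C, q, hC, hq0, hq1, fun k l => by rw [norm_neg]; exact h k l⟩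

theorem BB_one : BB one' := by
  refine ⟨1, 1 / 2, zero_le_one, by norm_num, by norm_num, fun k l => ?_⟩
  unfold one'
  by_cases h : k = l
  · subst h
    simp
  · rw [if_neg h, norm_zero]
    positivity

theorem BB_Pi : BB PiZ := by
  refine ⟨1, 1 / 2, zero_le_one, by norm_num, by norm_num, fun k l => ?_⟩
  unfold PiZ
  by_cases h : k = l ∧ 0 ≤ k
  · rw [if_pos h]
    obtain ⟨rfl, _⟩ := h
    simp
  · rw [if_neg h, norm_zero]
    positivity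

theorem BB_sft {A : ℤ → ℤ → ℂ} (hA : BB A) (M : ℤ) : BB (sft M A) := by
  obtain ⟨C, q, hC, hq0, hq1, h⟩ := hA
  refine ⟨C, q, hC, hq0, hq1, fun k l => ?_⟩
  have h1 := h (k - M) (l - M)
  have h2 : k - M - (l - M) = k - l := by ring
  rw [h2] at h1
  exact h1

theorem LL_sft {A : ℤ → ℤ → ℂ} (hA : LL A) (M : ℤ) : LL (sft M A) := by
  obtain ⟨C, q, hC, hq0, hq1, h⟩ := hA
  refine ⟨C * (q ^ (2 * M.natAbs))⁻¹, q, mul_nonneg hC (inv_nonneg.2 (pow_nonneg hq0.le _)),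
    hq0, hq1, fun k l => (h (k - M) (l - M)).trans ?_⟩
  rw [mul_assoc]
  apply mul_le_mul_of_nonneg_left _ hC
  rw [inv_mul_eq_div, le_div_iff₀ (pow_pos hq0 _), ← pow_add]
  exact pow_le_pow_of_le_one hq0.le hq1.le (by omega)

theorem mm_summable {A B : ℤ → ℤ → ℂ} (hA : BB A) (hB : BB B) (k l : ℤ) :
    Summable fun i => A k i * B i l := by
  obtain ⟨C, D, q, hC, hD, hq0, hq1, h1, h2⟩ := band_BB_BB hA hB
  exact (band_mm_core hC hD hq0 hq1 h1 h2 k l).1.of_norm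

theorem mv_summable {A : ℤ → ℤ → ℂ} {u : ℤ → ℂ} (hA : BB A) (hu : LV u) (k : ℤ) :
    Summable fun i => A k i * u i := by
  obtain ⟨C, D, q, hC, hD, hq0, hq1, h1, h2⟩ := band_BB_LV hA hu
  exact (band_mv_core hC hD hq0 hq1 h1 h2 k).1.of_norm

theorem mm_assoc {A B C : ℤ → ℤ → ℂ} (hA : BB A) (hB : BB B) (hC : BB C) :
    mm (mm A B) C = mm A (mm B C) := by
  obtain ⟨a, qa, ha, ha0, ha1, hA'⟩ := id hA
  obtain ⟨b, qb, hb, hb0, hb1, hB'⟩ := id hB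
  obtain ⟨c, qc, hc, hc0, hc1, hC'⟩ := id hC
  funext k l
  have hsum : Summable (Function.uncurry fun (j i : ℤ) => A k i * B i j * C j l) := by
    have h1 : Summable fun p : ℤ × ℤ =>
        (c * b * qc ^ (l - p.1).natAbs) * (a * qa ^ (k - p.2).natAbs) := by
      exact Summable.mul_of_nonneg (f := fun j : ℤ => c * b * qc ^ (l - j).natAbs)
        (g := fun i : ℤ => a * qa ^ (k - i).natAbs)
        ((band_summable_sub hc0.le hc1 l).mul_left _) ((band_summable_sub ha0.le ha1 k).mul_left _)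
        (fun j => mul_nonneg (mul_nonneg hc hb) (pow_nonneg hc0.le _))
        (fun i => mul_nonneg ha (pow_nonneg ha0.le _))
    refine Summable.of_norm_bounded h1 ?_
    rintro ⟨j, i⟩
    simp only [Function.uncurry_apply_pair, norm_mul]
    have e1 : ‖B i j‖ ≤ b := (hB' i j).trans
      (mul_le_of_le_one_right hb (pow_le_one₀ hb0.le hb1.le))
    have e2 : ‖C j l‖ ≤ c * qc ^ (l - j).natAbs := by
      have := hC' j l
      rwa [show (j - l).natAbs = (l - j).natAbs by omega] at this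
    have e3 := hA' k i
    calc ‖A k i‖ * ‖B i j‖ * ‖C j l‖ ≤ (a * qa ^ (k - i).natAbs) * b * (c * qc ^ (l - j).natAbs) := by
          apply mul_le_mul _ e2 (norm_nonneg _)
          · exact mul_nonneg (mul_nonneg ha (pow_nonneg ha0.le _)) hb
          · exact mul_le_mul e3 e1 (norm_nonneg _) (mul_nonneg ha (pow_nonneg ha0.le _))
      _ = _ := by ring
  have hL : mm (mm A B) C k l = ∑' j : ℤ, ∑' i : ℤ, A k i * B i j * C j l := by
    unfold mm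
    refine tsum_congr fun j => ?_
    rw [tsum_mul_right]
  have hR : mm A (mm B C) k l = ∑' i : ℤ, ∑' j : ℤ, A k i * B i j * C j l := by
    unfold mm
    refine tsum_congr fun i => ?_
    rw [← tsum_mul_left]
    refine tsum_congr fun j => ?_
    ring
  rw [hL, hR]
  exact hsum.tsum_comm.symm

theorem one_mm (A : ℤ → ℤ → ℂ) : mm one' A = A := by
  funext k l
  unfold mm one'
  rw [tsum_eq_single k]
  · simp
  · intro i hi
    rw [if_neg (Ne.symm hi), zero_mul]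

theorem mm_one (A : ℤ → ℤ → ℂ) : mm A one' = A := by
  funext k l
  unfold mm one'
  rw [tsum_eq_single l]
  · simp
  · intro i hi
    rw [if_neg hi, mul_zero]

theorem mm_add_left {A B C : ℤ → ℤ → ℂ} (hA : BB A) (hB : BB B) (hC : BB C) :
    mm (fun k l => A k l + B k l) C = fun k l => mm A C k l + mm B C k l := by
  funext k l
  unfold mm
  rw [← (mm_summable hA hC k l).tsum_add (mm_summable hB hC k l)]
  refine tsum_congr fun i => ?_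
  ring

theorem mm_add_right {A B C : ℤ → ℤ → ℂ} (hA : BB A) (hB : BB B) (hC : BB C) :
    mm A (fun k l => B k l + C k l) = fun k l => mm A B k l + mm A C k l := by
  funext k l
  unfold mm
  rw [← (mm_summable hA hB k l).tsum_add (mm_summable hA hC k l)]
  refine tsum_congr fun i => ?_
  ring

theorem LV_mv {A : ℤ → ℤ → ℂ} {u : ℤ → ℂ} (hA : BB A) (hu : LV u) : LV (mv A u) := by
  obtain ⟨C, D, q, hC, hD, hq0, hq1, h1, h2⟩ := band_BB_LV hA hu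
  obtain ⟨hr0, hr1, _⟩ := band_sqrt hq0 hq1
  exact ⟨_, Real.sqrt q, mul_nonneg (mul_nonneg hC hD) (band_S_nonneg hr0.le), hr0, hr1,
    fun k => (band_mv_core hC hD hq0 hq1 h1 h2 k).2⟩

theorem mv_mm {A B : ℤ → ℤ → ℂ} {u : ℤ → ℂ} (hA : BB A) (hB : BB B) (hu : LV u) :
    mv (mm A B) u = mv A (mv B u) := by
  obtain ⟨a, qa, ha, ha0, ha1, hA'⟩ := id hA
  obtain ⟨b, qb, hb, hb0, hb1, hB'⟩ := id hB
  obtain ⟨c, qc, hc, hc0, hc1, hC'⟩ := id hu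
  funext k
  have hsum : Summable (Function.uncurry fun (j i : ℤ) => A k i * B i j * u j) := by
    have h1 : Summable fun p : ℤ × ℤ =>
        (c * b * qc ^ p.1.natAbs) * (a * qa ^ (k - p.2).natAbs) := by
      exact Summable.mul_of_nonneg (f := fun j : ℤ => c * b * qc ^ j.natAbs)
        (g := fun i : ℤ => a * qa ^ (k - i).natAbs)
        ((band_summable_pow hc0.le hc1).mul_left _) ((band_summable_sub ha0.le ha1 k).mul_left _)
        (fun j => mul_nonneg (mul_nonneg hc hb) (pow_nonneg hc0.le _))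
        (fun i => mul_nonneg ha (pow_nonneg ha0.le _))
    refine Summable.of_norm_bounded h1 ?_
    rintro ⟨j, i⟩
    simp only [Function.uncurry_apply_pair, norm_mul]
    have e1 : ‖B i j‖ ≤ b := (hB' i j).trans
      (mul_le_of_le_one_right hb (pow_le_one₀ hb0.le hb1.le))
    have e2 : ‖u j‖ ≤ c * qc ^ j.natAbs := hC' j
    have e3 := hA' k i
    calc ‖A k i‖ * ‖B i j‖ * ‖u j‖ ≤ (a * qa ^ (k - i).natAbs) * b * (c * qc ^ j.natAbs) := by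
          apply mul_le_mul _ e2 (norm_nonneg _)
          · exact mul_nonneg (mul_nonneg ha (pow_nonneg ha0.le _)) hb
          · exact mul_le_mul e3 e1 (norm_nonneg _) (mul_nonneg ha (pow_nonneg ha0.le _))
      _ = _ := by ring
  have hL : mv (mm A B) u k = ∑' j : ℤ, ∑' i : ℤ, A k i * B i j * u j := by
    unfold mv mm
    refine tsum_congr fun j => ?_
    rw [tsum_mul_right]
  have hR : mv A (mv B u) k = ∑' i : ℤ, ∑' j : ℤ, A k i * B i j * u j := by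
    unfold mv
    refine tsum_congr fun i => ?_
    rw [← tsum_mul_left]
    refine tsum_congr fun j => ?_
    ring
  rw [hL, hR]
  exact hsum.tsum_comm.symm

theorem LV_dl (a : ℤ) : LV (dl a) := by
  refine ⟨((1 / 2 : ℝ) ^ a.natAbs)⁻¹, 1 / 2, by positivity, by norm_num, by norm_num, fun k => ?_⟩
  unfold dl
  by_cases h : k = a
  · subst h
    rw [if_pos rfl, norm_one, inv_mul_cancel₀ (by positivity)]
  · rw [if_neg h, norm_zero]
    positivity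

end

end IsingS2
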