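import Pool.Agent.Helper98.IS.Defs2

/-!
# IS-10b: adjoint action of the transfer operator on the Majorana operators
-/

set_option autoImplicit false

namespace IsingS2

open Complex Set MeasureTheory Filter Topology IsingNB
open scoped Real Matrix

/-! ### coupling -/

private theorem act_Cs (v : ℝ) : Cs v = Real.cosh (2 * κs v) := by
  unfold Cs κs
  rw [show 2 * (Real.arsinh v / 2) = Real.arsinh v by ring, Real.cosh_arsinh]

private theorem act_sinh_s (v : ℝ) : Real.sinh (2 * κs v) = v := by
  unfold κs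
  rw [show 2 * (Real.arsinh v / 2) = Real.arsinh v by ring, Real.sinh_arsinh]

private theorem act_c1 (v : ℝ) : c1 v = Real.cosh (κs v) := by
  unfold c1
  rw [act_Cs, Real.cosh_two_mul,
    show (Real.cosh (κs v) ^ 2 + Real.sinh (κs v) ^ 2 + 1) / 2 = Real.cosh (κs v) ^ 2 by
      rw [Real.cosh_sq]; ring]
  exact Real.sqrt_sq (Real.cosh_pos _).le

private theorem act_s1 {v : ℝ} (hv : 0 < v) : s1 v = Real.sinh (κs v) := by
  unfold s1
  rw [act_Cs, Real.cosh_two_mul,
    show (Real.cosh (κs v) ^ 2 + Real.sinh (κs v) ^ 2 - 1) / 2 = Real.sinh (κs v) ^ 2 by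
      rw [Real.cosh_sq]; ring]
  apply Real.sqrt_sq
  rw [Real.sinh_nonneg_iff]
  unfold κs
  have := (Real.arsinh_nonneg_iff (x := v)).2 hv.le
  positivity

private theorem act_two_c1_s1 {v : ℝ} (hv : 0 < v) : 2 * (c1 v * s1 v) = v := by
  rw [act_c1, act_s1 hv]
  have h := act_sinh_s v
  rw [Real.sinh_two_mul] at h
  linarith

private theorem act_sq_add {v : ℝ} (hv : 0 < v) : c1 v ^ 2 + s1 v ^ 2 = Cs v := by
  rw [act_c1, act_s1 hv, act_Cs, Real.cosh_two_mul]

private theorem act_Cw {v : ℝ} (hv : 0 < v) : Cw v = Real.cosh (2 * κw v) := by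
  unfold Cw κw
  rw [show 2 * (Real.arsinh (1 / v) / 2) = Real.arsinh (1 / v) by ring, Real.cosh_arsinh]
  rw [show 1 + (1 / v) ^ 2 = (1 + v ^ 2) / v ^ 2 by field_simp; ring]
  rw [Real.sqrt_div (by positivity), Real.sqrt_sq hv.le]

private theorem act_sinh_w (v : ℝ) : Real.sinh (2 * κw v) = 1 / v := by
  unfold κw
  rw [show 2 * (Real.arsinh (1 / v) / 2) = Real.arsinh (1 / v) by ring, Real.sinh_arsinh]

private theorem act_Cs_Cw {v : ℝ} (hv : 0 < v) : Cs v * Cw v = cc v := by
  unfold Cs Cw cc
  have h : Real.sqrt (1 + v ^ 2) * Real.sqrt (1 + v ^ 2) = 1 + v ^ 2 :=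
    Real.mul_self_sqrt (by positivity)
  rw [← mul_div_assoc, h]
  field_simp
  ring

/-! ### single factors -/

section
variable {m : ℕ} {V : Type*} [AddCommGroup V] [Module ℂ V]

private theorem act_single_a {a b : Module.End ℂ V} (ha : a * a = 1) (hb : b * b = 1)
    (hab : a * b = -(b * a)) {C S C2 S2 : ℂ} (h1 : C2 * C - S2 * S = C)
    (h2 : S2 * C - C2 * S = S) :
    (C • (1 : Module.End ℂ V) + (S * I) • (a * b)) * a =
      (C2 • a - (I * S2) • b) * (C • (1 : Module.End ℂ V) + (S * I) • (a * b)) := by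
  have e1 : a * b * a = -b := by
    rw [hab, neg_mul, mul_assoc, ha, mul_one]
  have e2 : a * (a * b) = b := by rw [← mul_assoc, ha, one_mul]
  have e3 : b * (a * b) = -a := by
    rw [hab, mul_neg, ← mul_assoc, hb, one_mul]
  have hI : I * I = -1 := Complex.I_mul_I
  simp only [add_mul, sub_mul, mul_add, smul_mul_assoc, mul_smul_comm, one_mul, mul_one, e1, e2, e3]
  have k1 : C • a = ((C2 * C - S2 * S)) • a := by rw [h1]
  have k2 : (S * I) • (-b) = -((((S2 * C - C2 * S)) * I) • b) := by rw [h2, smul_neg]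
  rw [k1, k2]
  simp only [smul_neg, smul_sub, smul_smul]
  have hS : S * I * (I * S2) = -(S2 * S) := by linear_combination (S2 * S) * hI
  rw [hS]
  module

private theorem act_single_b {a b : Module.End ℂ V} (ha : a * a = 1) (hb : b * b = 1)
    (hab : a * b = -(b * a)) {C S C2 S2 : ℂ} (h1 : C2 * C - S2 * S = C)
    (h2 : S2 * C - C2 * S = S) :
    (C • (1 : Module.End ℂ V) + (S * I) • (a * b)) * b =
      (C2 • b + (I * S2) • a) * (C • (1 : Module.End ℂ V) + (S * I) • (a * b)) := by
  have e1 : a * b * b = a := by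
    rw [mul_assoc, hb, mul_one]
  have e2 : a * (a * b) = b := by rw [← mul_assoc, ha, one_mul]
  have e3 : b * (a * b) = -a := by
    rw [hab, mul_neg, ← mul_assoc, hb, one_mul]
  have hI : I * I = -1 := Complex.I_mul_I
  simp only [add_mul, mul_add, smul_mul_assoc, mul_smul_comm, one_mul, mul_one, e1, e2, e3]
  have k1 : C • b = ((C2 * C - S2 * S)) • b := by rw [h1]
  have k2 : (S * I) • a = (((S2 * C - C2 * S)) * I) • a := by rw [h2]
  rw [k1, k2]
  simp only [smul_neg, smul_add, smul_smul]
  have hS : S * I * (I * S2) = -(S2 * S) := by linear_combination (S2 * S) * hI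
  rw [hS]
  module

/-- a pair product commutes with an operator that anticommutes with both factors -/
private theorem act_comm {a b x : Module.End ℂ V} (hax : a * x = -(x * a))
    (hbx : b * x = -(x * b)) (C S : ℂ) :
    (C • (1 : Module.End ℂ V) + (S * I) • (a * b)) * x =
      x * (C • (1 : Module.End ℂ V) + (S * I) • (a * b)) := by
  have e : a * b * x = x * (a * b) := by
    rw [mul_assoc, hbx, mul_neg, ← mul_assoc, hax, neg_mul, neg_neg, mul_assoc]
  simp only [add_mul, mul_add, smul_mul_assoc, mul_smul_comm, one_mul, mul_one, e]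

private theorem act_lin_sub {E x y : Module.End ℂ V} (hx : E * x = x * E) (hy : E * y = y * E)
    (a b : ℂ) : E * (a • x - b • y) = (a • x - b • y) * E := by
  simp only [mul_sub, sub_mul, mul_smul_comm, smul_mul_assoc, hx, hy]

private theorem act_lin_add {E x y : Module.End ℂ V} (hx : E * x = x * E) (hy : E * y = y * E)
    (a b : ℂ) : E * (a • x + b • y) = (a • x + b • y) * E := by
  simp only [mul_add, add_mul, mul_smul_comm, smul_mul_assoc, hx, hy]

private theorem act_list_comm {α : Type*} (E : α → Module.End ℂ V) (x : Module.End ℂ V)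
    (l : List α) (h : ∀ j ∈ l, E j * x = x * E j) : (l.map E).prod * x = x * (l.map E).prod := by
  induction l with
  | nil => simp
  | cons a l ih =>
    rw [List.map_cons, List.prod_cons, mul_assoc, ih (fun j hj => h j (List.mem_cons_of_mem _ hj)),
      ← mul_assoc, h a List.mem_cons_self, mul_assoc]

private theorem act_list {α : Type*} (E : α → Module.End ℂ V) (x y : Module.End ℂ V)
    (k : α) (l : List α) (hl : l.Nodup) (hk : k ∈ l) (hx : ∀ j, j ≠ k → E j * x = x * E j)
    (hy : ∀ j, j ≠ k → E j * y = y * E j) (hkk : E k * x = y * E k) :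
    (l.map E).prod * x = y * (l.map E).prod := by
  induction l with
  | nil => simp at hk
  | cons a l ih =>
    rw [List.nodup_cons] at hl
    rw [List.map_cons, List.prod_cons]
    by_cases hak : a = k
    · subst hak
      rw [mul_assoc, act_list_comm E x l (fun j hj => hx j (fun h => hl.1 (h ▸ hj))),
        ← mul_assoc, hkk, mul_assoc]
    · have hkl : k ∈ l := by
        rcases List.mem_cons.1 hk with h | h
        · exact absurd h.symm hak
        · exact h
      rw [mul_assoc, ih hl.2 hkl, ← mul_assoc, hy a hak, mul_assoc]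

/-! ### consequences of the relations -/

private theorem act_sq {a : Module.End ℂ V} (h : a * a + a * a = 2) : a * a = 1 := by
  have h2 : (2 : ℂ) • (a * a) = (2 : ℂ) • (1 : Module.End ℂ V) := by
    rw [two_smul, two_smul, h]
    norm_num
  have h3 := congrArg (fun z => (1 / 2 : ℂ) • z) h2
  simpa [smul_smul] using h3

variable {f g : Fin m → Module.End ℂ V}

private theorem act_ff (hC : CAR f g) (i : Fin m) : f i * f i = 1 := by
  apply act_sq
  simpa using hC.ff i i

private theorem act_gg (hC : CAR f g) (i : Fin m) : g i * g i = 1 := by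
  apply act_sq
  simpa using hC.gg i i

private theorem act_ff' (hC : CAR f g) {i j : Fin m} (h : i ≠ j) : f i * f j = -(f j * f i) := by
  have := hC.ff i j
  rw [if_neg h] at this
  exact eq_neg_of_add_eq_zero_left this

private theorem act_gg' (hC : CAR f g) {i j : Fin m} (h : i ≠ j) : g i * g j = -(g j * g i) := by
  have := hC.gg i j
  rw [if_neg h] at this
  exact eq_neg_of_add_eq_zero_left this

private theorem act_fg (hC : CAR f g) (i j : Fin m) : f i * g j = -(g j * f i) :=
  eq_neg_of_add_eq_zero_left (hC.fg i j)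

private theorem act_gf (hC : CAR f g) (i j : Fin m) : g i * f j = -(f j * g i) := by
  rw [act_fg hC j i, neg_neg]

/-! ### the half step `Sh` -/

private theorem act_hyp (x : ℝ) : ((Real.cosh (2 * x) : ℝ) : ℂ) * (Real.cosh x : ℝ) -
    ((Real.sinh (2 * x) : ℝ) : ℂ) * (Real.sinh x : ℝ) = ((Real.cosh x : ℝ) : ℂ) := by
  have h : Real.cosh (2 * x) * Real.cosh x - Real.sinh (2 * x) * Real.sinh x = Real.cosh x := by
    rw [← Real.cosh_sub]
    congr 1
    ring
  exact_mod_cast h

private theorem act_hyp' (x : ℝ) : ((Real.sinh (2 * x) : ℝ) : ℂ) * (Real.cosh x : ℝ) -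
    ((Real.cosh (2 * x) : ℝ) : ℂ) * (Real.sinh x : ℝ) = ((Real.sinh x : ℝ) : ℂ) := by
  have h : Real.sinh (2 * x) * Real.cosh x - Real.cosh (2 * x) * Real.sinh x = Real.sinh x := by
    rw [← Real.sinh_sub]
    congr 1
    ring
  exact_mod_cast h

private theorem act_Sh_f {v : ℝ} (hv : 0 < v) (hC : CAR f g) (k : Fin m) :
    Sh v f g * f k = (((c1 v : ℝ) : ℂ) • f k - (I * (s1 v : ℝ)) • g k) * Sh v f g := by
  have hx : ∀ j, j ≠ k → ∀ C S : ℂ, (C • (1 : Module.End ℂ V) + (S * I) • (f j * g j)) * f k =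
      f k * (C • (1 : Module.End ℂ V) + (S * I) • (f j * g j)) := fun j hj C S =>
    act_comm (act_ff' hC hj) (act_gf hC j k) C S
  have hx' : ∀ j, j ≠ k → ∀ C S : ℂ, (C • (1 : Module.End ℂ V) + (S * I) • (f j * g j)) * g k =
      g k * (C • (1 : Module.End ℂ V) + (S * I) • (f j * g j)) := fun j hj C S =>
    act_comm (act_fg hC j k) (act_gg' hC hj) C S
  unfold Sh
  apply act_list _ _ _ k _ (List.nodup_finRange m) (List.mem_finRange k)
  · intro j hj
    exact hx j hj _ _
  · intro j hj
    exact act_lin_sub (hx j hj _ _) (hx' j hj _ _) _ _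
  · have h2 : κs v = 2 * (κs v / 2) := by ring
    rw [act_c1, act_s1 hv]
    apply act_single_a (act_ff hC k) (act_gg hC k) (act_fg hC k k)
    · conv_lhs => rw [h2]
      simpa using act_hyp (κs v / 2)
    · conv_lhs => rw [h2]
      simpa using act_hyp' (κs v / 2)

private theorem act_Sh_g {v : ℝ} (hv : 0 < v) (hC : CAR f g) (k : Fin m) :
    Sh v f g * g k = (((c1 v : ℝ) : ℂ) • g k + (I * (s1 v : ℝ)) • f k) * Sh v f g := by
  have hx : ∀ j, j ≠ k → ∀ C S : ℂ, (C • (1 : Module.End ℂ V) + (S * I) • (f j * g j)) * f k =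
      f k * (C • (1 : Module.End ℂ V) + (S * I) • (f j * g j)) := fun j hj C S =>
    act_comm (act_ff' hC hj) (act_gf hC j k) C S
  have hx' : ∀ j, j ≠ k → ∀ C S : ℂ, (C • (1 : Module.End ℂ V) + (S * I) • (f j * g j)) * g k =
      g k * (C • (1 : Module.End ℂ V) + (S * I) • (f j * g j)) := fun j hj C S =>
    act_comm (act_fg hC j k) (act_gg' hC hj) C S
  unfold Sh
  apply act_list _ _ _ k _ (List.nodup_finRange m) (List.mem_finRange k)
  · intro j hj
    exact hx' j hj _ _
  · intro j hj
    exact act_lin_add (hx' j hj _ _) (hx j hj _ _) _ _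
  · have h2 : κs v = 2 * (κs v / 2) := by ring
    rw [act_c1, act_s1 hv]
    apply act_single_b (act_ff hC k) (act_gg hC k) (act_fg hC k k)
    · conv_lhs => rw [h2]
      simpa using act_hyp (κs v / 2)
    · conv_lhs => rw [h2]
      simpa using act_hyp' (κs v / 2)

/-! ### the wall step `Wk` -/

private theorem act_Wk_comm {v : ℝ} {x : Module.End ℂ V} (j : Fin m) (hg : g j * x = -(x * g j))
    (hf : ∀ h : (j : ℕ) + 1 < m, f ⟨(j : ℕ) + 1, h⟩ * x = -(x * f ⟨(j : ℕ) + 1, h⟩)) :
    (if h : (j : ℕ) + 1 < m then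
      ((Real.cosh (κw v) : ℝ) : ℂ) • (1 : Module.End ℂ V) +
        (((Real.sinh (κw v) : ℝ) : ℂ) * I) • (g j * f ⟨(j : ℕ) + 1, h⟩)
    else 1) * x = x * (if h : (j : ℕ) + 1 < m then
      ((Real.cosh (κw v) : ℝ) : ℂ) • (1 : Module.End ℂ V) +
        (((Real.sinh (κw v) : ℝ) : ℂ) * I) • (g j * f ⟨(j : ℕ) + 1, h⟩)
    else 1) := by
  by_cases h : (j : ℕ) + 1 < m
  · simp only [dif_pos h]
    exact act_comm hg (hf h) _ _
  · simp only [dif_neg h, one_mul, mul_one]

private theorem act_Wk_f_comm {v : ℝ} (hC : CAR f g) (k j : Fin m) (hkj : (j : ℕ) + 1 ≠ k) :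
    (if h : (j : ℕ) + 1 < m then
      ((Real.cosh (κw v) : ℝ) : ℂ) • (1 : Module.End ℂ V) +
        (((Real.sinh (κw v) : ℝ) : ℂ) * I) • (g j * f ⟨(j : ℕ) + 1, h⟩)
    else 1) * f k = f k * (if h : (j : ℕ) + 1 < m then
      ((Real.cosh (κw v) : ℝ) : ℂ) • (1 : Module.End ℂ V) +
        (((Real.sinh (κw v) : ℝ) : ℂ) * I) • (g j * f ⟨(j : ℕ) + 1, h⟩)
    else 1) := by
  apply act_Wk_comm j (act_gf hC j k)
  intro h
  apply act_ff' hC
  intro h'
  exact hkj (congrArg Fin.val h')

private theorem act_Wk_g_comm {v : ℝ} (hC : CAR f g) (k j : Fin m) (hkj : j ≠ k) :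
    (if h : (j : ℕ) + 1 < m then
      ((Real.cosh (κw v) : ℝ) : ℂ) • (1 : Module.End ℂ V) +
        (((Real.sinh (κw v) : ℝ) : ℂ) * I) • (g j * f ⟨(j : ℕ) + 1, h⟩)
    else 1) * g k = g k * (if h : (j : ℕ) + 1 < m then
      ((Real.cosh (κw v) : ℝ) : ℂ) • (1 : Module.End ℂ V) +
        (((Real.sinh (κw v) : ℝ) : ℂ) * I) • (g j * f ⟨(j : ℕ) + 1, h⟩)
    else 1) := by
  apply act_Wk_comm j (act_gg' hC hkj)
  intro h
  exact act_fg hC _ _

private theorem act_Wk_f_zero {v : ℝ} (hC : CAR f g) (k : Fin m) (hk : (k : ℕ) = 0) :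
    Wk v f g * f k = f k * Wk v f g := by
  unfold Wk
  apply act_list_comm
  intro j _
  apply act_Wk_f_comm hC
  omega

private theorem act_Wk_g_last {v : ℝ} (hC : CAR f g) (k : Fin m) (hk : (k : ℕ) + 1 = m) :
    Wk v f g * g k = g k * Wk v f g := by
  unfold Wk
  apply act_list_comm
  intro j _
  by_cases hjk : j = k
  · subst hjk
    have h : ¬ ((j : ℕ) + 1 < m) := by omega
    simp only [dif_neg h, one_mul, mul_one]
  · exact act_Wk_g_comm hC _ _ hjk

private theorem act_Wk_f_succ {v : ℝ} (hv : 0 < v) (hC : CAR f g) (k l : Fin m)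
    (hkl : (l : ℕ) + 1 = k) :
    Wk v f g * f k = (((Cw v : ℝ) : ℂ) • f k + (I * ((1 / v : ℝ) : ℂ)) • g l) * Wk v f g := by
  unfold Wk
  apply act_list _ _ _ l _ (List.nodup_finRange m) (List.mem_finRange l)
  · intro j hj
    apply act_Wk_f_comm hC
    intro h
    exact hj (Fin.ext (by omega))
  · intro j hj
    apply act_lin_add
    · apply act_Wk_f_comm hC
      intro h
      exact hj (Fin.ext (by omega))
    · exact act_Wk_g_comm hC _ _ hj
  · have h : (l : ℕ) + 1 < m := by omega
    have hk : (⟨(l : ℕ) + 1, h⟩ : Fin m) = k := Fin.ext hkl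
    simp only [dif_pos h, hk]
    have h1 := act_hyp (κw v)
    have h2 := act_hyp' (κw v)
    rw [act_Cw hv, ← act_sinh_w v]
    exact act_single_b (act_gg hC l) (act_ff hC k) (act_gf hC l k) h1 h2

private theorem act_Wk_g_succ {v : ℝ} (hv : 0 < v) (hC : CAR f g) (k l : Fin m)
    (hkl : (k : ℕ) + 1 = l) :
    Wk v f g * g k = (((Cw v : ℝ) : ℂ) • g k - (I * ((1 / v : ℝ) : ℂ)) • f l) * Wk v f g := by
  unfold Wk
  apply act_list _ _ _ k _ (List.nodup_finRange m) (List.mem_finRange k)
  · intro j hj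
    exact act_Wk_g_comm hC _ _ hj
  · intro j hj
    apply act_lin_sub
    · exact act_Wk_g_comm hC _ _ hj
    · apply act_Wk_f_comm hC
      intro h
      exact hj (Fin.ext (by omega))
  · have h : (k : ℕ) + 1 < m := by omega
    have hk : (⟨(k : ℕ) + 1, h⟩ : Fin m) = l := Fin.ext hkl
    simp only [dif_pos h, hk]
    have h1 := act_hyp (κw v)
    have h2 := act_hyp' (κw v)
    rw [act_Cw hv, ← act_sinh_w v]
    exact act_single_a (act_gg hC k) (act_ff hC l) (act_gf hC k l) h1 h2

/-- the action of the wall step in uniform form -/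
private theorem act_Wk_f {v : ℝ} (hv : 0 < v) (hC : CAR f g) (k : Fin m) :
    Wk v f g * f k = (((df v k : ℝ) : ℂ) • f k +
      ∑ l : Fin m, (if (l : ℕ) + 1 = k then I * ((1 / v : ℝ) : ℂ) else 0) • g l) * Wk v f g := by
  by_cases hk : (k : ℕ) = 0
  · rw [act_Wk_f_zero hC k hk]
    have h1 : df v k = 1 := by simp [df, hk]
    have h2 : ∑ l : Fin m, (if (l : ℕ) + 1 = k then I * ((1 / v : ℝ) : ℂ) else 0) • g l = 0 := by
      apply Finset.sum_eq_zero
      intro l _
      rw [if_neg (by omega), zero_smul]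
    rw [h1, h2]
    simp
  · obtain ⟨l, hl⟩ : ∃ l : Fin m, (l : ℕ) + 1 = k := ⟨⟨(k : ℕ) - 1, by omega⟩, by simp; omega⟩
    rw [act_Wk_f_succ hv hC k l hl]
    have h1 : df v k = Cw v := by simp [df, hk]
    have h2 : ∑ l' : Fin m, (if (l' : ℕ) + 1 = k then I * ((1 / v : ℝ) : ℂ) else 0) • g l' =
        (I * ((1 / v : ℝ) : ℂ)) • g l := by
      rw [Finset.sum_eq_single l]
      · rw [if_pos hl]
      · intro l' _ hne
        rw [if_neg, zero_smul]
        intro h
        exact hne (Fin.ext (by omega))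
      · intro h
        exact absurd (Finset.mem_univ l) h
    rw [h1, h2]

private theorem act_Wk_g {v : ℝ} (hv : 0 < v) (hC : CAR f g) (k : Fin m) :
    Wk v f g * g k = (((dg v k : ℝ) : ℂ) • g k -
      ∑ l : Fin m, (if (l : ℕ) = k + 1 then I * ((1 / v : ℝ) : ℂ) else 0) • f l) * Wk v f g := by
  by_cases hk : (k : ℕ) + 1 = m
  · rw [act_Wk_g_last hC k hk]
    have h1 : dg v k = 1 := by simp [dg, hk]
    have h2 : ∑ l : Fin m, (if (l : ℕ) = k + 1 then I * ((1 / v : ℝ) : ℂ) else 0) • f l = 0 := by
      apply Finset.sum_eq_zero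
      intro l _
      rw [if_neg (by omega), zero_smul]
    rw [h1, h2]
    simp
  · obtain ⟨l, hl⟩ : ∃ l : Fin m, (k : ℕ) + 1 = l := ⟨⟨(k : ℕ) + 1, by omega⟩, rfl⟩
    rw [act_Wk_g_succ hv hC k l hl]
    have h1 : dg v k = Cw v := by simp [dg, hk]
    have h2 : ∑ l' : Fin m, (if (l' : ℕ) = k + 1 then I * ((1 / v : ℝ) : ℂ) else 0) • f l' =
        (I * ((1 / v : ℝ) : ℂ)) • f l := by
      rw [Finset.sum_eq_single l]
      · rw [if_pos hl.symm]
      · intro l' _ hne
        rw [if_neg, zero_smul]
        intro h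
        exact hne (Fin.ext (by omega))
      · intro h
        exact absurd (Finset.mem_univ l) h
    rw [h1, h2]

/-- the half step on a linear combination -/
private theorem act_Sh_lin {v : ℝ} (hv : 0 < v) (hC : CAR f g) (α β : Fin m → ℂ) :
    Sh v f g * ∑ l, (α l • f l + β l • g l) =
      (∑ l, ((c1 v * α l + I * s1 v * β l) • f l + (c1 v * β l - I * s1 v * α l) • g l)) *
        Sh v f g := by
  rw [Finset.mul_sum, Finset.sum_mul]
  apply Finset.sum_congr rfl
  intro l _
  rw [mul_add, mul_smul_comm, mul_smul_comm, act_Sh_f hv hC, act_Sh_g hv hC,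
    ← smul_mul_assoc, ← smul_mul_assoc, ← add_mul]
  congr 1
  module

/-- real scalars -/
private theorem act_real {v : ℝ} (hv : 0 < v) :
    c1 v * c1 v * Cw v + s1 v * s1 v * Cw v = cc v ∧ c1 v * s1 v / v = 1 / 2 := by
  constructor
  · have h1 := act_sq_add hv
    have h2 := act_Cs_Cw hv
    rw [← h2, ← h1]
    ring
  · have h := act_two_c1_s1 hv
    rw [div_eq_iff hv.ne']
    linarith

private theorem act_Hf_diag {v : ℝ} (hv : 0 < v) (k : Fin m) :
    Hf v m k k = c1 v * c1 v * df v k + s1 v * s1 v * dg v k := by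
  have h := (act_real hv).1
  unfold Hf df dg
  simp only [Matrix.of_apply, if_true]
  by_cases h0 : (k : ℕ) = 0
  · by_cases h1 : (k : ℕ) + 1 = m
    · simp only [if_pos h0, if_pos h1]; linear_combination -h
    · simp only [if_pos h0, if_neg h1]; linear_combination -h
  · by_cases h1 : (k : ℕ) + 1 = m
    · simp only [if_neg h0, if_pos h1]; linear_combination -h
    · simp only [if_neg h0, if_neg h1]; linear_combination -h

private theorem act_Hg_diag {v : ℝ} (hv : 0 < v) (k : Fin m) :
    Hg v m k k = s1 v * s1 v * df v k + c1 v * c1 v * dg v k := by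
  have h := (act_real hv).1
  unfold Hg df dg
  simp only [Matrix.of_apply, if_true]
  by_cases h0 : (k : ℕ) = 0
  · by_cases h1 : (k : ℕ) + 1 = m
    · simp only [if_pos h0, if_pos h1]; linear_combination -h
    · simp only [if_pos h0, if_neg h1]; linear_combination -h
  · by_cases h1 : (k : ℕ) + 1 = m
    · simp only [if_neg h0, if_pos h1]; linear_combination -h
    · simp only [if_neg h0, if_neg h1]; linear_combination -h

end

/-- adjoint action of the transfer operator -/
theorem VV_mul_f {v : ℝ} (hv : 0 < v) {m : ℕ} {V : Type*} [AddCommGroup V] [Module ℂ V]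
    {f g : Fin m → Module.End ℂ V} (hC : CAR f g) (k : Fin m) :
    VV v f g * f k = (∑ l, (((Hf v m l k : ℝ) : ℂ) • f l - (I * (Lm v m l k : ℝ)) • g l)) *
      VV v f g := by
  set α : Fin m → ℂ := fun l => (if l = k then (c1 v : ℂ) * (df v k : ℝ) else 0) +
    (if (l : ℕ) = k + 1 then (I * s1 v) * (I * ((1 / v : ℝ) : ℂ)) else 0) with hα
  set β : Fin m → ℂ := fun l => (if (l : ℕ) + 1 = k then (c1 v : ℂ) * (I * ((1 / v : ℝ) : ℂ)) else 0) -
    (if l = k then (I * s1 v) * (dg v k : ℝ) else 0) with hβ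
  have hW : Wk v f g * (((c1 v : ℝ) : ℂ) • f k - (I * (s1 v : ℝ)) • g k) =
      (∑ l, (α l • f l + β l • g l)) * Wk v f g := by
    rw [mul_sub, mul_smul_comm, mul_smul_comm, act_Wk_f hv hC, act_Wk_g hv hC,
      ← smul_mul_assoc, ← smul_mul_assoc, ← sub_mul]
    congr 1
    have e1 : f k = ∑ l, (if l = k then (1 : ℂ) else 0) • f l := by
      simp [ite_smul]
    have e2 : g k = ∑ l, (if l = k then (1 : ℂ) else 0) • g l := by
      simp [ite_smul]
    conv_lhs => rw [e1, e2]
    simp only [Finset.smul_sum, smul_add, smul_sub, ← Finset.sum_add_distrib,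
      ← Finset.sum_sub_distrib]
    apply Finset.sum_congr rfl
    intro l _
    simp only [hα, hβ, smul_smul]
    have a1 : (if l = k then (c1 v : ℂ) * (df v k : ℝ) else 0) =
        (c1 v : ℂ) * ((df v k : ℝ) * (if l = k then (1 : ℂ) else 0)) := by
      split_ifs <;> ring
    have a2 : (if (l : ℕ) = k + 1 then (I * s1 v) * (I * ((1 / v : ℝ) : ℂ)) else 0) =
        (I * s1 v) * (if (l : ℕ) = k + 1 then (I * ((1 / v : ℝ) : ℂ)) else 0) := by
      split_ifs <;> ring
    have a3 : (if (l : ℕ) + 1 = k then (c1 v : ℂ) * (I * ((1 / v : ℝ) : ℂ)) else 0) =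
        (c1 v : ℂ) * (if (l : ℕ) + 1 = k then (I * ((1 / v : ℝ) : ℂ)) else 0) := by
      split_ifs <;> ring
    have a4 : (if l = k then (I * s1 v) * (dg v k : ℝ) else 0) =
        (I * s1 v) * ((dg v k : ℝ) * (if l = k then (1 : ℂ) else 0)) := by
      split_ifs <;> ring
    rw [a1, a2, a3, a4]
    module
  have hmain : VV v f g * f k = (∑ l, ((c1 v * α l + I * s1 v * β l) • f l +
      (c1 v * β l - I * s1 v * α l) • g l)) * VV v f g := by
    unfold VV
    rw [mul_assoc, act_Sh_f hv hC k, mul_assoc (Sh v f g), ← mul_assoc (Wk v f g), hW, mul_assoc,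
      ← mul_assoc (Sh v f g), act_Sh_lin hv hC α β]
    simp only [mul_assoc]
  rw [hmain]
  congr 1
  apply Finset.sum_congr rfl
  intro l _
  have hI : I * I = -1 := Complex.I_mul_I
  have hr : (c1 v : ℂ) * s1 v * (1 / v : ℝ) = 1 / 2 := by
    have h0 := (act_real hv).2
    rw [div_eq_mul_one_div] at h0
    have h1 : ((c1 v * s1 v * (1 / v) : ℝ) : ℂ) = ((1 / 2 : ℝ) : ℂ) := congrArg _ h0
    push_cast at h1 ⊢
    exact h1
  have k1 : c1 v * α l + I * s1 v * β l = ((Hf v m l k : ℝ) : ℂ) := by
    by_cases hlk : l = k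
    · subst hlk
      have h1 : ¬ ((l : ℕ) = l + 1) := by omega
      have h2 : ¬ ((l : ℕ) + 1 = l) := by omega
      simp only [hα, hβ, if_true, if_neg h1, if_neg h2]
      rw [act_Hf_diag hv]
      push_cast
      linear_combination -(s1 v * s1 v * dg v l : ℂ) * hI
    · have hne : (l : ℕ) ≠ k := fun h => hlk (Fin.ext h)
      by_cases h1 : (l : ℕ) = k + 1
      · have h2 : ¬ ((l : ℕ) + 1 = k) := by omega
        simp only [hα, hβ, if_neg hlk, if_pos h1, if_neg h2]
        have h3 : Hf v m l k = -1 / 2 := by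
          unfold Hf
          simp only [Matrix.of_apply, if_neg hlk]
          rw [if_pos (Or.inr h1)]
        rw [h3]
        push_cast
        push_cast at hr
        linear_combination (c1 v * s1 v * (1 / v) : ℂ) * hI - hr
      · by_cases h2 : (l : ℕ) + 1 = k
        · simp only [hα, hβ, if_neg hlk, if_neg h1, if_pos h2]
          have h3 : Hf v m l k = -1 / 2 := by
            unfold Hf
            simp only [Matrix.of_apply, if_neg hlk]
            rw [if_pos (Or.inl h2.symm)]
          rw [h3]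
          push_cast
          push_cast at hr
          linear_combination (c1 v * s1 v * (1 / v) : ℂ) * hI - hr
        · simp only [hα, hβ, if_neg hlk, if_neg h1, if_neg h2]
          have h3 : Hf v m l k = 0 := by
            unfold Hf
            simp only [Matrix.of_apply, if_neg hlk]
            rw [if_neg]
            rintro (h | h)
            · exact h2 h.symm
            · exact h1 h
          rw [h3]
          simp
  have k2 : c1 v * β l - I * s1 v * α l = -(I * (Lm v m l k : ℝ)) := by
    by_cases hlk : l = k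
    · subst hlk
      have h1 : ¬ ((l : ℕ) = l + 1) := by omega
      have h2 : ¬ ((l : ℕ) + 1 = l) := by omega
      simp only [hα, hβ, if_true, if_neg h1, if_neg h2]
      have h3 : Lm v m l l = c1 v * s1 v * (df v l + dg v l) := by
        unfold Lm
        simp only [Matrix.of_apply, if_true]
      rw [h3]
      push_cast
      ring
    · have hne : (l : ℕ) ≠ k := fun h => hlk (Fin.ext h)
      by_cases h1 : (l : ℕ) = k + 1
      · have h2 : ¬ ((l : ℕ) + 1 = k) := by omega
        simp only [hα, hβ, if_neg hlk, if_pos h1, if_neg h2]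
        have h3 : Lm v m l k = -(s1 v ^ 2) / v := by
          unfold Lm
          simp only [Matrix.of_apply, if_neg hlk]
          rw [if_neg (by omega), if_pos h1]
        rw [h3]
        push_cast
        linear_combination -(I * s1 v * s1 v * (1 / v) : ℂ) * hI
      · by_cases h2 : (l : ℕ) + 1 = k
        · simp only [hα, hβ, if_neg hlk, if_neg h1, if_pos h2]
          have h3 : Lm v m l k = -(c1 v ^ 2) / v := by
            unfold Lm
            simp only [Matrix.of_apply, if_neg hlk]
            rw [if_pos h2.symm]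
          rw [h3]
          push_cast
          ring
        · simp only [hα, hβ, if_neg hlk, if_neg h1, if_neg h2]
          have h3 : Lm v m l k = 0 := by
            unfold Lm
            simp only [Matrix.of_apply, if_neg hlk]
            rw [if_neg (fun h => h2 h.symm), if_neg h1]
          rw [h3]
          simp
  rw [k1, k2, neg_smul, sub_eq_add_neg]

theorem VV_mul_g {v : ℝ} (hv : 0 < v) {m : ℕ} {V : Type*} [AddCommGroup V] [Module ℂ V]
    {f g : Fin m → Module.End ℂ V} (hC : CAR f g) (k : Fin m) :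
    VV v f g * g k = (∑ l, ((I * (Lm v m k l : ℝ)) • f l + ((Hg v m l k : ℝ) : ℂ) • g l)) *
      VV v f g := by
  set α : Fin m → ℂ := fun l => (if l = k then (I * s1 v) * (df v k : ℝ) else 0) -
    (if (l : ℕ) = k + 1 then (c1 v : ℂ) * (I * ((1 / v : ℝ) : ℂ)) else 0) with hα
  set β : Fin m → ℂ := fun l =>
    (if (l : ℕ) + 1 = k then (I * s1 v) * (I * ((1 / v : ℝ) : ℂ)) else 0) +
    (if l = k then (c1 v : ℂ) * (dg v k : ℝ) else 0) with hβ
  have hW : Wk v f g * (((c1 v : ℝ) : ℂ) • g k + (I * (s1 v : ℝ)) • f k) =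
      (∑ l, (α l • f l + β l • g l)) * Wk v f g := by
    rw [mul_add, mul_smul_comm, mul_smul_comm, act_Wk_f hv hC, act_Wk_g hv hC,
      ← smul_mul_assoc, ← smul_mul_assoc, ← add_mul]
    congr 1
    have e1 : f k = ∑ l, (if l = k then (1 : ℂ) else 0) • f l := by
      simp [ite_smul]
    have e2 : g k = ∑ l, (if l = k then (1 : ℂ) else 0) • g l := by
      simp [ite_smul]
    conv_lhs => rw [e1, e2]
    simp only [Finset.smul_sum, smul_add, smul_sub, ← Finset.sum_add_distrib,
      ← Finset.sum_sub_distrib]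
    apply Finset.sum_congr rfl
    intro l _
    simp only [hα, hβ, smul_smul]
    have a1 : (if l = k then (I * s1 v) * (df v k : ℝ) else 0) =
        (I * s1 v) * ((df v k : ℝ) * (if l = k then (1 : ℂ) else 0)) := by
      split_ifs <;> ring
    have a2 : (if (l : ℕ) = k + 1 then (c1 v : ℂ) * (I * ((1 / v : ℝ) : ℂ)) else 0) =
        (c1 v : ℂ) * (if (l : ℕ) = k + 1 then (I * ((1 / v : ℝ) : ℂ)) else 0) := by
      split_ifs <;> ring
    have a3 : (if (l : ℕ) + 1 = k then (I * s1 v) * (I * ((1 / v : ℝ) : ℂ)) else 0) =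
        (I * s1 v) * (if (l : ℕ) + 1 = k then (I * ((1 / v : ℝ) : ℂ)) else 0) := by
      split_ifs <;> ring
    have a4 : (if l = k then (c1 v : ℂ) * (dg v k : ℝ) else 0) =
        (c1 v : ℂ) * ((dg v k : ℝ) * (if l = k then (1 : ℂ) else 0)) := by
      split_ifs <;> ring
    rw [a1, a2, a3, a4]
    module
  have hmain : VV v f g * g k = (∑ l, ((c1 v * α l + I * s1 v * β l) • f l +
      (c1 v * β l - I * s1 v * α l) • g l)) * VV v f g := by
    unfold VV
    rw [mul_assoc, act_Sh_g hv hC k, mul_assoc (Sh v f g), ← mul_assoc (Wk v f g), hW, mul_assoc,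
      ← mul_assoc (Sh v f g), act_Sh_lin hv hC α β]
    simp only [mul_assoc]
  rw [hmain]
  congr 1
  apply Finset.sum_congr rfl
  intro l _
  have hI : I * I = -1 := Complex.I_mul_I
  have hr : (c1 v : ℂ) * s1 v * (1 / v : ℝ) = 1 / 2 := by
    have h0 := (act_real hv).2
    rw [div_eq_mul_one_div] at h0
    have h1 : ((c1 v * s1 v * (1 / v) : ℝ) : ℂ) = ((1 / 2 : ℝ) : ℂ) := congrArg _ h0
    push_cast at h1 ⊢
    exact h1
  have k1 : c1 v * β l - I * s1 v * α l = ((Hg v m l k : ℝ) : ℂ) := by
    by_cases hlk : l = k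
    · subst hlk
      have h1 : ¬ ((l : ℕ) = l + 1) := by omega
      have h2 : ¬ ((l : ℕ) + 1 = l) := by omega
      simp only [hα, hβ, if_true, if_neg h1, if_neg h2]
      rw [act_Hg_diag hv]
      push_cast
      linear_combination -(s1 v * s1 v * df v l : ℂ) * hI
    · have hne : (l : ℕ) ≠ k := fun h => hlk (Fin.ext h)
      by_cases h1 : (l : ℕ) = k + 1
      · have h2 : ¬ ((l : ℕ) + 1 = k) := by omega
        simp only [hα, hβ, if_neg hlk, if_pos h1, if_neg h2]
        have h3 : Hg v m l k = -1 / 2 := by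
          unfold Hg
          simp only [Matrix.of_apply, if_neg hlk]
          rw [if_pos (Or.inr h1)]
        rw [h3]
        push_cast
        push_cast at hr
        linear_combination (c1 v * s1 v * (1 / v) : ℂ) * hI - hr
      · by_cases h2 : (l : ℕ) + 1 = k
        · simp only [hα, hβ, if_neg hlk, if_neg h1, if_pos h2]
          have h3 : Hg v m l k = -1 / 2 := by
            unfold Hg
            simp only [Matrix.of_apply, if_neg hlk]
            rw [if_pos (Or.inl h2.symm)]
          rw [h3]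
          push_cast
          push_cast at hr
          linear_combination (c1 v * s1 v * (1 / v) : ℂ) * hI - hr
        · simp only [hα, hβ, if_neg hlk, if_neg h1, if_neg h2]
          have h3 : Hg v m l k = 0 := by
            unfold Hg
            simp only [Matrix.of_apply, if_neg hlk]
            rw [if_neg]
            rintro (h | h)
            · exact h2 h.symm
            · exact h1 h
          rw [h3]
          simp
  have k2 : c1 v * α l + I * s1 v * β l = I * (Lm v m k l : ℝ) := by
    by_cases hlk : l = k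
    · subst hlk
      have h1 : ¬ ((l : ℕ) = l + 1) := by omega
      have h2 : ¬ ((l : ℕ) + 1 = l) := by omega
      simp only [hα, hβ, if_true, if_neg h1, if_neg h2]
      have h3 : Lm v m l l = c1 v * s1 v * (df v l + dg v l) := by
        unfold Lm
        simp only [Matrix.of_apply, if_true]
      rw [h3]
      push_cast
      ring
    · have hne : (l : ℕ) ≠ k := fun h => hlk (Fin.ext h)
      have hkl : ¬ (k = l) := fun h => hlk h.symm
      by_cases h1 : (l : ℕ) = k + 1
      · have h2 : ¬ ((l : ℕ) + 1 = k) := by omega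
        simp only [hα, hβ, if_neg hlk, if_pos h1, if_neg h2]
        have h3 : Lm v m k l = -(c1 v ^ 2) / v := by
          unfold Lm
          simp only [Matrix.of_apply, if_neg hkl]
          rw [if_pos h1]
        rw [h3]
        push_cast
        ring
      · by_cases h2 : (l : ℕ) + 1 = k
        · simp only [hα, hβ, if_neg hlk, if_neg h1, if_pos h2]
          have h3 : Lm v m k l = -(s1 v ^ 2) / v := by
            unfold Lm
            simp only [Matrix.of_apply, if_neg hkl]
            rw [if_neg h1, if_pos h2.symm]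
          rw [h3]
          push_cast
          linear_combination (I * s1 v * s1 v * (1 / v) : ℂ) * hI
        · simp only [hα, hβ, if_neg hlk, if_neg h1, if_neg h2]
          have h3 : Lm v m k l = 0 := by
            unfold Lm
            simp only [Matrix.of_apply, if_neg hkl]
            rw [if_neg h1, if_neg (fun h => h2 h.symm)]
          rw [h3]
          simp
  rw [k1, k2]

end IsingS2
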