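import Pool.Agent.Helper98.IS.Defs2
import Pool.Agent.Helper98.IS.Coupling

/-!
# Chain operators on spin space, part 1
-/

namespace IsingS2

open Complex Set MeasureTheory Filter Topology IsingNB
open scoped Real Matrix

noncomputable section

theorem opM_mul {n : ℕ} (A B : Matrix (Fin n → Bool) (Fin n → Bool) ℝ) :
    opM (A * B) = opM A * opM B := by
  have h : (A * B).map (fun x : ℝ => (x : ℂ)) =
      A.map (fun x : ℝ => (x : ℂ)) * B.map (fun x : ℝ => (x : ℂ)) := by
    ext i j
    simp [Matrix.mul_apply]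
  rw [opM, opM, opM, h, Matrix.toLin'_mul]
  rfl

private theorem cs_XX {n : ℕ} (a : Fin n) : Xo a * Xo a = (1 : Module.End ℂ (Sp n)) := by
  refine LinearMap.ext fun φ => funext fun σ => ?_
  change φ (Function.update (Function.update σ a (!(σ a))) a
    (!(Function.update σ a (!(σ a)) a))) = φ σ
  congr 1
  rw [Function.update_idem, Function.update_self, Bool.not_not, Function.update_eq_self]

private theorem cs_comm {n : ℕ} (a b : Fin n) :
    Commute (Xo a : Module.End ℂ (Sp n)) (Xo b) := by
  by_cases hab : a = b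
  · subst hab
    exact Commute.refl _
  · refine LinearMap.ext fun φ => funext fun σ => ?_
    change φ (Function.update (Function.update σ a (!(σ a))) b
      (!(Function.update σ a (!(σ a)) b))) = φ (Function.update (Function.update σ b (!(σ b))) a
      (!(Function.update σ b (!(σ b)) a)))
    congr 1
    rw [Function.update_of_ne (Ne.symm hab), Function.update_of_ne hab,
      Function.update_comm hab]

private theorem cs_fac {n : ℕ} (α β γ δ : ℂ) (a b : Fin n) :
    Commute (α • (1 : Module.End ℂ (Sp n)) + β • Xo a) (γ • (1 : Module.End ℂ (Sp n)) + δ • Xo b) :=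
  ((((Commute.one_left _).smul_left α)).add_left ((((Commute.one_right _).smul_right γ).add_right
    ((cs_comm a b).smul_right δ)).smul_left β))

private theorem cs_list {M ι : Type*} [Monoid M] (f g : ι → M) (l : List ι)
    (h : ∀ a b, Commute (g a) (f b)) :
    (l.map f).prod * (l.map g).prod = (l.map fun a => f a * g a).prod := by
  induction l with
  | nil => simp
  | cons a l ih =>
    rw [List.map_cons, List.map_cons, List.map_cons, List.prod_cons, List.prod_cons,
      List.prod_cons, ← ih]
    have h1 : Commute (g a) (l.map f).prod := by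
      refine Commute.list_prod_right _ _ fun x hx => ?_
      obtain ⟨b, _, rfl⟩ := List.mem_map.1 hx
      exact h a b
    rw [mul_assoc (f a), ← mul_assoc (l.map f).prod, ← h1.eq]
    simp only [mul_assoc]

theorem eX_mul (κ κ' : ℝ) (n : ℕ) : eX κ n * eX κ' n = eX (κ + κ') n := by
  rw [eX, eX, eX, cs_list _ _ _ (fun a b => cs_fac _ _ _ _ a b)]
  congr 2
  funext a
  have h : Xo a * Xo a = (1 : Module.End ℂ (Sp n)) := cs_XX a
  rw [add_mul, mul_add, mul_add, smul_mul_smul_comm, smul_mul_smul_comm, smul_mul_smul_comm,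
    smul_mul_smul_comm, h, one_mul, mul_one, one_mul, Real.cosh_add, Real.sinh_add]
  push_cast
  module

theorem eX_zero (n : ℕ) : eX 0 n = 1 := by
  rw [eX]
  refine List.prod_eq_one fun x hx => ?_
  obtain ⟨a, _, rfl⟩ := List.mem_map.1 hx
  simp

private theorem cs_kernel {n : ℕ} (α β : ℂ) (φ : Sp n) (l : List (Fin n)) (hl : l.Nodup)
    (σ : Fin n → Bool) :
    ((l.map fun a : Fin n => α • (1 : Module.End ℂ (Sp n)) + β • Xo a).prod φ) σ =
      ∑ τ : Fin n → Bool, (∏ a, if a ∈ l then (if τ a = σ a then α else β)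
        else (if τ a = σ a then 1 else 0)) * φ τ := by
  induction l generalizing σ with
  | nil =>
    rw [Finset.sum_eq_single σ]
    · simp
    · intro τ _ hτ
      obtain ⟨a, ha⟩ := Function.ne_iff.1 hτ
      rw [Finset.prod_eq_zero (Finset.mem_univ a), zero_mul]
      simp [ha]
    · intro h
      exact absurd (Finset.mem_univ _) h
  | cons a l ih =>
    obtain ⟨ha, hl'⟩ := List.nodup_cons.1 hl
    have h1 : ((((a :: l).map fun a : Fin n =>
        α • (1 : Module.End ℂ (Sp n)) + β • Xo a).prod φ) σ) =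
        α * ((l.map fun a : Fin n => α • (1 : Module.End ℂ (Sp n)) + β • Xo a).prod φ) σ +
        β * ((l.map fun a : Fin n => α • (1 : Module.End ℂ (Sp n)) + β • Xo a).prod φ)
          (Function.update σ a (!(σ a))) := by
      rw [List.map_cons, List.prod_cons]
      rfl
    rw [h1, ih hl', ih hl', Finset.mul_sum, Finset.mul_sum, ← Finset.sum_add_distrib]
    refine Finset.sum_congr rfl fun τ _ => ?_
    rw [← mul_assoc, ← mul_assoc, ← add_mul]
    congr 1
    rw [← Finset.mul_prod_erase Finset.univ _ (Finset.mem_univ a),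
      ← Finset.mul_prod_erase Finset.univ (fun b => if b ∈ l then
        (if τ b = Function.update σ a (!(σ a)) b then α else β)
        else (if τ b = Function.update σ a (!(σ a)) b then (1 : ℂ) else 0)) (Finset.mem_univ a),
      ← Finset.mul_prod_erase Finset.univ (fun b => if b ∈ a :: l then
        (if τ b = σ b then α else β) else (if τ b = σ b then (1 : ℂ) else 0)) (Finset.mem_univ a)]
    have h2 : ∏ b ∈ Finset.univ.erase a, (if b ∈ l then
        (if τ b = Function.update σ a (!(σ a)) b then α else β)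
        else (if τ b = Function.update σ a (!(σ a)) b then (1 : ℂ) else 0)) =
        ∏ b ∈ Finset.univ.erase a, (if b ∈ l then (if τ b = σ b then α else β)
        else (if τ b = σ b then (1 : ℂ) else 0)) := by
      refine Finset.prod_congr rfl fun b hb => ?_
      rw [Function.update_of_ne (Finset.ne_of_mem_erase hb)]
    have h3 : ∏ b ∈ Finset.univ.erase a, (if b ∈ a :: l then (if τ b = σ b then α else β)
        else (if τ b = σ b then (1 : ℂ) else 0)) =
        ∏ b ∈ Finset.univ.erase a, (if b ∈ l then (if τ b = σ b then α else β)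
        else (if τ b = σ b then (1 : ℂ) else 0)) := by
      refine Finset.prod_congr rfl fun b hb => ?_
      have : b ∈ a :: l ↔ b ∈ l := by
        rw [List.mem_cons]
        exact or_iff_right (Finset.ne_of_mem_erase hb)
      simp only [this]
    rw [h2, h3, ← mul_assoc, ← mul_assoc, ← add_mul]
    congr 1
    rw [if_neg ha, if_neg ha, if_pos List.mem_cons_self, Function.update_self]
    rcases Bool.eq_false_or_eq_true (σ a) with h | h <;>
      rcases Bool.eq_false_or_eq_true (τ a) with h' | h' <;> simp [h, h']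

private theorem cs_Bm (K κ : ℝ) (n : ℕ) (h : Real.sinh κ = Real.exp (-(2 * K)) * Real.cosh κ) :
    opM (Bm K n) = (((Real.exp K / Real.cosh κ) ^ (n + 1) : ℝ) : ℂ) • eX κ (n + 1) := by
  have hc : Real.cosh κ ≠ 0 := (Real.cosh_pos κ).ne'
  refine LinearMap.ext fun φ => funext fun σ => ?_
  have h1 : (eX κ (n + 1) φ) σ = ∑ τ : Fin (n + 1) → Bool,
      (∏ a, if τ a = σ a then ((Real.cosh κ : ℝ) : ℂ) else ((Real.sinh κ : ℝ) : ℂ)) * φ τ := by
    rw [eX, cs_kernel _ _ _ _ (List.nodup_finRange _)]
    refine Finset.sum_congr rfl fun τ _ => ?_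
    congr 1
    refine Finset.prod_congr rfl fun a _ => ?_
    rw [if_pos (List.mem_finRange a)]
  have h2 : (opM (Bm K n) φ) σ = ∑ τ : Fin (n + 1) → Bool,
      ((Real.exp (K * ∑ a, sg (σ a) * sg (τ a)) : ℝ) : ℂ) * φ τ := by
    simp only [opM, Matrix.toLin'_apply, Matrix.mulVec, dotProduct, Matrix.map_apply, Bm,
      Matrix.of_apply]
  rw [h2, LinearMap.smul_apply, Pi.smul_apply, smul_eq_mul, h1, Finset.mul_sum]
  refine Finset.sum_congr rfl fun τ _ => ?_
  rw [← mul_assoc]
  congr 1
  have h3 : (Real.exp K / Real.cosh κ) ^ (n + 1) =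
      ∏ _a : Fin (n + 1), (Real.exp K / Real.cosh κ) := by
    rw [Finset.prod_const, Finset.card_univ, Fintype.card_fin]
  rw [h3, Finset.mul_sum, Real.exp_sum]
  push_cast
  rw [← Finset.prod_mul_distrib]
  refine Finset.prod_congr rfl fun a _ => ?_
  have h4 : Real.exp (K * (sg (σ a) * sg (τ a))) =
      Real.exp K / Real.cosh κ * (if τ a = σ a then Real.cosh κ else Real.sinh κ) := by
    by_cases hs : τ a = σ a
    · rw [if_pos hs, hs, div_mul_cancel₀ _ hc]
      have : sg (σ a) * sg (σ a) = 1 := by
        rcases Bool.eq_false_or_eq_true (σ a) with h5 | h5 <;> simp [sg, h5]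
      rw [this, mul_one]
    · rw [if_neg hs, h]
      have : sg (σ a) * sg (τ a) = -1 := by
        rcases Bool.eq_false_or_eq_true (σ a) with h5 | h5 <;>
          rcases Bool.eq_false_or_eq_true (τ a) with h6 | h6 <;> simp_all [sg]
      rw [this]
      have h7 : Real.exp K / Real.cosh κ * (Real.exp (-(2 * K)) * Real.cosh κ) =
          Real.exp K * Real.exp (-(2 * K)) := by
        field_simp
      rw [h7, ← Real.exp_add]
      congr 1
      ring
  have h5 := congrArg (fun x : ℝ => (x : ℂ)) h4
  by_cases hs : τ a = σ a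
  · simp only [hs, if_true] at h5 ⊢
    push_cast at h5 ⊢
    exact h5
  · simp only [hs, if_false] at h5 ⊢
    push_cast at h5 ⊢
    exact h5

theorem opM_Bm_H {v : ℝ} (hv : 0 < v) (n : ℕ) :
    opM (Bm (κw v) n) = ((nfH v n : ℝ) : ℂ) • eX (κs v) (n + 1) :=
  cs_Bm _ _ _ (tanh_κs hv)

theorem opM_Bm_L {v : ℝ} (hv : 0 < v) (n : ℕ) :
    opM (Bm (κs v) n) = ((nfL v n : ℝ) : ℂ) • eX (κw v) (n + 1) :=
  cs_Bm _ _ _ (tanh_κw hv)

theorem opM_Vm (plus : Bool) (K : ℝ) (n : ℕ) :
    opM (Vm plus K n) = mulO (fun σ => Real.sqrt (Av plus K n σ)) * opM (Bm K n) *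
      mulO (fun σ => Real.sqrt (Av plus K n σ)) := by
  refine LinearMap.ext fun φ => funext fun σ => ?_
  change (opM (Vm plus K n) φ) σ = ((Real.sqrt (Av plus K n σ) : ℝ) : ℂ) *
    ((opM (Bm K n)) (fun τ => ((Real.sqrt (Av plus K n τ) : ℝ) : ℂ) * φ τ)) σ
  simp only [opM, Matrix.toLin'_apply, Matrix.mulVec, dotProduct, Matrix.map_apply, Vm,
    Matrix.of_apply]
  rw [Finset.mul_sum]
  refine Finset.sum_congr rfl fun τ _ => ?_
  push_cast
  ring

end

end IsingS2
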