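import Pool.Agent.Helper98.IS.Defs2

/-!
# IS-07: spin operators (Jordan-Wigner)

All operators are evaluated explicitly: with the flip `spF P σ` of the spins in `P`,
`pM a φ σ = σ_a φ (flip of b < a)` and `qM a φ σ = -i σ_a φ (flip of b ≤ a)`.
-/

namespace IsingS2

open Complex Set MeasureTheory Filter Topology IsingNB
open scoped Real Matrix

noncomputable section

/-- flip of the spins in `P` -/
private def spF {n : ℕ} (P : Fin n → Prop) [DecidablePred P] (σ : Fin n → Bool) : Fin n → Bool :=
  fun b => if P b then !(σ b) else σ b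

private theorem spF_pos {n : ℕ} (P : Fin n → Prop) [DecidablePred P] (σ : Fin n → Bool)
    {b : Fin n} (h : P b) : spF P σ b = !(σ b) := by
  simp [spF, h]

private theorem spF_neg {n : ℕ} (P : Fin n → Prop) [DecidablePred P] (σ : Fin n → Bool)
    {b : Fin n} (h : ¬ P b) : spF P σ b = σ b := by
  simp [spF, h]

private theorem spL_pos {n : ℕ} {a b : Fin n} (σ : Fin n → Bool) (h : b < a) :
    spF (fun c => c < a) σ b = !(σ b) := spF_pos _ _ h

private theorem spL_neg {n : ℕ} {a b : Fin n} (σ : Fin n → Bool) (h : ¬ b < a) :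
    spF (fun c => c < a) σ b = σ b := spF_neg (fun c => c < a) _ h

private theorem spE_pos {n : ℕ} {a b : Fin n} (σ : Fin n → Bool) (h : b ≤ a) :
    spF (fun c => c ≤ a) σ b = !(σ b) := spF_pos _ _ h

private theorem spE_neg {n : ℕ} {a b : Fin n} (σ : Fin n → Bool) (h : ¬ b ≤ a) :
    spF (fun c => c ≤ a) σ b = σ b := spF_neg (fun c => c ≤ a) _ h

private theorem spF_comm {n : ℕ} (P Q : Fin n → Prop) [DecidablePred P] [DecidablePred Q]
    (σ : Fin n → Bool) : spF P (spF Q σ) = spF Q (spF P σ) := by
  funext b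
  unfold spF
  by_cases h1 : P b <;> by_cases h2 : Q b <;> simp [h1, h2]

private theorem spF_self {n : ℕ} (P : Fin n → Prop) [DecidablePred P]
    (σ : Fin n → Bool) : spF P (spF P σ) = σ := by
  funext b
  unfold spF
  by_cases h1 : P b <;> simp [h1]

private theorem sg_not (b : Bool) : sg (!b) = - sg b := by
  cases b <;> simp [sg]

private theorem sg_sq (b : Bool) : sg b * sg b = 1 := by
  cases b <;> simp [sg]

private theorem sgC_sq (b : Bool) : (sg b : ℂ) * (sg b : ℂ) = 1 := by
  rw [← Complex.ofReal_mul, sg_sq, Complex.ofReal_one]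

private theorem Zo_ap {n : ℕ} (a : Fin n) (φ : Sp n) (σ : Fin n → Bool) :
    Zo a φ σ = (sg (σ a) : ℂ) * φ σ := rfl

private theorem Xo_ap {n : ℕ} (a : Fin n) (φ : Sp n) (σ : Fin n → Bool) :
    Xo a φ σ = φ (Function.update σ a (!(σ a))) := rfl

private theorem list_flip {n : ℕ} (P : Fin n → Prop) [DecidablePred P] (l : List (Fin n))
    (hl : l.Nodup) (φ : Sp n) (σ : Fin n → Bool) :
    (l.map fun b : Fin n => if P b then Xo b else 1).prod φ σ =
      φ (spF (fun b => b ∈ l ∧ P b) σ) := by
  induction l generalizing σ with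
  | nil =>
    simp only [List.map_nil, List.prod_nil, Module.End.one_apply]
    congr 1
  | cons c l ih =>
    rw [List.nodup_cons] at hl
    rw [List.map_cons, List.prod_cons, Module.End.mul_apply]
    by_cases hc : P c
    · rw [if_pos hc, Xo_ap, ih hl.2]
      congr 1
      funext b
      unfold spF
      by_cases hb : b = c
      · subst hb
        simp [hl.1, hc]
      · simp [hb]
    · rw [if_neg hc, Module.End.one_apply, ih hl.2]
      congr 1
      funext b
      unfold spF
      by_cases hb : b = c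
      · subst hb
        simp [hc]
      · simp [hb]

private theorem Str_ap {n : ℕ} (a : Fin n) (φ : Sp n) (σ : Fin n → Bool) :
    Str a φ σ = φ (spF (fun b => b < a) σ) := by
  unfold Str
  rw [list_flip (fun b => b < a) _ (List.nodup_finRange n)]
  congr 1
  funext b
  simp [spF]

private theorem pM_ap {n : ℕ} (a : Fin n) (φ : Sp n) (σ : Fin n → Bool) :
    pM a φ σ = (sg (σ a) : ℂ) * φ (spF (fun b => b < a) σ) := by
  unfold pM
  rw [Module.End.mul_apply, Str_ap, Zo_ap, spL_neg _ (lt_irrefl a)]

private theorem qM_ap {n : ℕ} (a : Fin n) (φ : Sp n) (σ : Fin n → Bool) :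
    qM a φ σ = -(I * (sg (σ a) : ℂ)) * φ (spF (fun b => b ≤ a) σ) := by
  unfold qM
  rw [Module.End.mul_apply, Str_ap, LinearMap.smul_apply, Pi.smul_apply, Module.End.mul_apply,
    Xo_ap, Zo_ap, Function.update_self, spL_neg _ (lt_irrefl a), sg_not]
  have h : Function.update (spF (fun b => b < a) σ) a (!(σ a)) = spF (fun b => b ≤ a) σ := by
    funext b
    unfold spF
    by_cases hb : b = a
    · subst hb
      simp
    · have : b < a ↔ b ≤ a := ⟨le_of_lt, fun h => lt_of_le_of_ne h hb⟩
      simp [hb, this]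
  rw [h, smul_eq_mul]
  push_cast
  ring

theorem car_spin (n : ℕ) : CAR (pM (n := n)) (qM (n := n)) := by
  constructor
  · intro i j
    apply LinearMap.ext
    intro φ
    funext σ
    rw [LinearMap.add_apply, Pi.add_apply, Module.End.mul_apply, Module.End.mul_apply, pM_ap,
      pM_ap, pM_ap, pM_ap, spF_comm (fun b => b < i) (fun b => b < j)]
    rcases lt_trichotomy i j with h | h | h
    · rw [if_neg h.ne, spL_neg _ (not_lt.2 h.le), spL_pos _ h, sg_not]
      simp only [LinearMap.zero_apply, Pi.zero_apply]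
      push_cast
      ring
    · subst h
      rw [if_pos rfl, spL_neg _ (lt_irrefl i), spF_self]
      have := sgC_sq (σ i)
      have e : ((2 : Module.End ℂ (Sp n)) φ) σ = 2 * φ σ := by
        rw [show (2 : Module.End ℂ (Sp n)) = 1 + 1 by norm_num, LinearMap.add_apply, Pi.add_apply,
          Module.End.one_apply]
        ring
      rw [e]
      linear_combination (2 * φ σ) * this
    · rw [if_neg h.ne', spL_pos _ h, spL_neg _ (not_lt.2 h.le), sg_not]
      simp only [LinearMap.zero_apply, Pi.zero_apply]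
      push_cast
      ring
  · intro i j
    apply LinearMap.ext
    intro φ
    funext σ
    rw [LinearMap.add_apply, Pi.add_apply, Module.End.mul_apply, Module.End.mul_apply, qM_ap,
      qM_ap, qM_ap, qM_ap, spF_comm (fun b => b ≤ i) (fun b => b ≤ j)]
    rcases lt_trichotomy i j with h | h | h
    · rw [if_neg h.ne, spE_neg _ (not_le.2 h), spE_pos _ h.le, sg_not]
      simp only [LinearMap.zero_apply, Pi.zero_apply]
      push_cast
      ring
    · subst h
      rw [if_pos rfl, spE_pos _ (le_refl i), spF_self, sg_not]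
      have := sgC_sq (σ i)
      have e : ((2 : Module.End ℂ (Sp n)) φ) σ = 2 * φ σ := by
        rw [show (2 : Module.End ℂ (Sp n)) = 1 + 1 by norm_num, LinearMap.add_apply, Pi.add_apply,
          Module.End.one_apply]
        ring
      rw [e]
      push_cast
      linear_combination (2 * φ σ) * this - 2 * (sg (σ i) : ℂ) * (sg (σ i) : ℂ) * φ σ * I_sq
    · rw [if_neg h.ne', spE_pos _ h.le, spE_neg _ (not_le.2 h), sg_not]
      simp only [LinearMap.zero_apply, Pi.zero_apply]
      push_cast
      ring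
  · intro i j
    apply LinearMap.ext
    intro φ
    funext σ
    rw [LinearMap.add_apply, Pi.add_apply, Module.End.mul_apply, Module.End.mul_apply, pM_ap,
      qM_ap, qM_ap, pM_ap, spF_comm (fun b => b < i) (fun b => b ≤ j)]
    rcases le_or_gt i j with h | h
    · rw [spL_neg _ (not_lt.2 h), spE_pos _ h, sg_not]
      simp only [LinearMap.zero_apply, Pi.zero_apply]
      push_cast
      ring
    · rw [spL_pos _ h, spE_neg _ (not_le.2 h), sg_not]
      simp only [LinearMap.zero_apply, Pi.zero_apply]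
      push_cast
      ring

theorem car_wall (m : ℕ) : CAR (fL (m := m)) (gL (m := m)) := by
  have h := car_spin (m + 1)
  constructor
  · intro i j
    have := h.gg i.castSucc j.castSucc
    simpa [fL, Fin.castSucc_inj] using this
  · intro i j
    have := h.ff i.succ j.succ
    simpa [gL, Fin.succ_inj] using this
  · intro i j
    have h2 := h.fg j.succ i.castSucc
    have hL : ∀ k : Fin m, fL k = qM k.castSucc := fun _ => rfl
    have hG : ∀ k : Fin m, gL k = pM k.succ := fun _ => rfl
    rw [hL, hG]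
    exact (add_comm _ _).trans h2

theorem pM_mul_qM {n : ℕ} (a : Fin n) : I • (pM a * qM a) = Xo a := by
  apply LinearMap.ext
  intro φ
  funext σ
  rw [LinearMap.smul_apply, Pi.smul_apply, Module.End.mul_apply, pM_ap, qM_ap, Xo_ap,
    spL_neg _ (lt_irrefl a)]
  have h : spF (fun b => b ≤ a) (spF (fun b => b < a) σ) = Function.update σ a (!(σ a)) := by
    funext b
    unfold spF
    by_cases hb : b = a
    · subst hb
      simp
    · have : b ≤ a ↔ b < a := ⟨fun h => lt_of_le_of_ne h hb, le_of_lt⟩
      by_cases h2 : b < a <;> simp [hb, this, h2]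
  rw [h, smul_eq_mul]
  have := sgC_sq (σ a)
  linear_combination (φ (Function.update σ a (!(σ a)))) * this -
    (sg (σ a) : ℂ) * (sg (σ a) : ℂ) * (φ (Function.update σ a (!(σ a)))) * I_sq

theorem qM_mul_pM {n : ℕ} (a : Fin n) (h : (a : ℕ) + 1 < n) :
    I • (qM a * pM ⟨(a : ℕ) + 1, h⟩) = Zo a * Zo ⟨(a : ℕ) + 1, h⟩ := by
  apply LinearMap.ext
  intro φ
  funext σ
  rw [LinearMap.smul_apply, Pi.smul_apply, Module.End.mul_apply, Module.End.mul_apply, qM_ap,
    pM_ap, Zo_ap, Zo_ap]
  have h0 : ¬ ((⟨(a : ℕ) + 1, h⟩ : Fin n) ≤ a) := by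
    rw [Fin.le_def]
    simp
  have h1 : spF (fun b => b < (⟨(a : ℕ) + 1, h⟩ : Fin n)) (spF (fun b => b ≤ a) σ) = σ := by
    have e : spF (fun b => b < (⟨(a : ℕ) + 1, h⟩ : Fin n)) (spF (fun b => b ≤ a) σ) =
        spF (fun b => b ≤ a) (spF (fun b => b ≤ a) σ) := by
      funext b
      have : b < (⟨(a : ℕ) + 1, h⟩ : Fin n) ↔ b ≤ a := by
        rw [Fin.lt_def, Fin.le_def]
        exact Nat.lt_succ_iff
      unfold spF
      simp only [this]
    rw [e, spF_self]
  rw [h1, spE_neg _ h0, smul_eq_mul]
  linear_combination -((sg (σ a) : ℂ) * (sg (σ (⟨(a : ℕ) + 1, h⟩ : Fin n)) : ℂ) * φ σ) * I_sq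

theorem Zo_eq {n : ℕ} (a : Fin n) : Zo a = Oa a pM qM * pM a := by
  have h1 : Oa (a : ℕ) (pM (n := n)) qM = Str a := by
    unfold Oa Str
    congr 1
    apply List.map_congr_left
    intro k _
    by_cases hk : k < a
    · rw [if_pos hk, if_pos (Fin.lt_def.1 hk), pM_mul_qM]
    · rw [if_neg hk, if_neg (fun h => hk (Fin.lt_def.2 h))]
  rw [h1]
  apply LinearMap.ext
  intro φ
  funext σ
  rw [Module.End.mul_apply, Str_ap, pM_ap, Zo_ap, spL_neg _ (lt_irrefl a), spF_self]

private theorem list_diag {n : ℕ} {α : Type*} (T : α → Module.End ℂ (Sp n)) (d : α → ℂ)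
    (σ : Fin n → Bool) (h : ∀ k φ, T k φ σ = d k * φ σ) (l : List α) (φ : Sp n) :
    (l.map T).prod φ σ = (l.map d).prod * φ σ := by
  induction l with
  | nil => simp
  | cons c l ih =>
    rw [List.map_cons, List.prod_cons, Module.End.mul_apply, h, ih, List.map_cons, List.prod_cons]
    ring

private theorem telescope (c : ℕ → ℂ) (hc : ∀ i, c i * c i = 1) (j : ℕ) :
    ∏ k ∈ Finset.range j, (c k * c (k + 1)) = c 0 * c j := by
  induction j with
  | zero => simp [hc]
  | succ j ih =>
    rw [Finset.prod_range_succ, ih]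
    linear_combination (c 0 * c (j + 1)) * hc j

theorem Oa_wall {m : ℕ} (j : Fin (m + 1)) :
    Oa (j : ℕ) (fL (m := m)) gL = Zo 0 * Zo j := by
  apply LinearMap.ext
  intro φ
  funext σ
  set c : ℕ → ℂ := fun i => if h : i < m + 1 then (sg (σ ⟨i, h⟩) : ℂ) else 1 with hc
  have hcc : ∀ i, c i * c i = 1 := by
    intro i
    rw [hc]
    by_cases h : i < m + 1
    · simp only [h, dif_pos]
      exact sgC_sq _
    · simp [h]
  unfold Oa
  rw [list_diag (fun k : Fin m => if (k : ℕ) < (j : ℕ) then I • (fL k * gL k) else 1)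
    (fun k : Fin m => if (k : ℕ) < (j : ℕ) then c k * c ((k : ℕ) + 1) else 1) σ]
  · rw [← Fin.prod_univ_def, Module.End.mul_apply, Zo_ap, Zo_ap]
    have h1 : ∏ i : Fin m, (if (i : ℕ) < (j : ℕ) then c i * c ((i : ℕ) + 1) else 1) =
        ∏ i ∈ Finset.range m, (if i < (j : ℕ) then c i * c (i + 1) else 1) :=
      Fin.prod_univ_eq_prod_range (fun i => if i < (j : ℕ) then c i * c (i + 1) else 1) m
    have h2 : ∏ i ∈ Finset.range m, (if i < (j : ℕ) then c i * c (i + 1) else 1) =
        ∏ i ∈ Finset.range (j : ℕ), c i * c (i + 1) := by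
      rw [← Finset.prod_filter]
      apply Finset.prod_congr _ fun _ _ => rfl
      ext i
      rw [Finset.mem_filter, Finset.mem_range, Finset.mem_range]
      have := j.2
      omega
    rw [h1, h2, telescope c hcc]
    have e0 : c 0 = (sg (σ 0) : ℂ) := by
      rw [hc]
      simp
    have ej : c (j : ℕ) = (sg (σ j) : ℂ) := by
      rw [hc]
      simp only [j.2, dif_pos]
    rw [e0, ej]
    ring
  · intro k φ
    by_cases hk : (k : ℕ) < (j : ℕ)
    · simp only [hk, if_true]
      have hlt : ((k.castSucc : Fin (m + 1)) : ℕ) + 1 < m + 1 := by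
        have := k.2
        simp
      have h1 := qM_mul_pM k.castSucc hlt
      have h2 : (⟨((k.castSucc : Fin (m + 1)) : ℕ) + 1, hlt⟩ : Fin (m + 1)) = k.succ := by
        apply Fin.ext
        simp
      rw [h2] at h1
      have h3 : I • (fL k * gL k) = Zo k.castSucc * Zo k.succ := h1
      rw [h3, Module.End.mul_apply, Zo_ap, Zo_ap, hc]
      have a1 : (k : ℕ) < m + 1 := by have := k.2; omega
      have a2 : (k : ℕ) + 1 < m + 1 := by have := k.2; omega
      simp only [a1, a2, dif_pos]
      have b1 : (⟨(k : ℕ), a1⟩ : Fin (m + 1)) = k.castSucc := by apply Fin.ext; simp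
      have b2 : (⟨(k : ℕ) + 1, a2⟩ : Fin (m + 1)) = k.succ := by apply Fin.ext; simp
      rw [b1, b2]
      ring
    · simp only [hk, if_false, Module.End.one_apply, one_mul]

end

end IsingS2
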