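import Pool.Agent.Helper98.IS.Defs2
import Pool.Agent.Helper98.IS.Spin

/-!
# The chain operators on spin space, second part

`Sh_H`, `Wk_H`, `Sh_L`, `Wk_L`: the two factors of the transfer operator of the chain, evaluated for
the Majorana operators of the high temperature strip and of the low temperature strip.
-/

namespace IsingS2

open Complex Set MeasureTheory Filter Topology IsingNB
open scoped Real Matrix

noncomputable section

private theorem mulO_mul_B {n : ℕ} (F G : (Fin n → Bool) → ℝ) :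
    mulO F * mulO G = mulO fun σ => F σ * G σ := by
  ext φ σ
  simp [mulO, mul_assoc]

private theorem mulO_one_B (n : ℕ) : mulO (fun _ : Fin n → Bool => (1 : ℝ)) = 1 := by
  ext φ σ
  simp [mulO]

private theorem prod_mulO_B {n : ℕ} {ι : Type*} (l : List ι) (F : ι → (Fin n → Bool) → ℝ) :
    (l.map fun i => mulO (F i)).prod = mulO fun σ => (l.map fun i => F i σ).prod := by
  induction l with
  | nil => simp [mulO_one_B]
  | cons i l ih => simp [ih, mulO_mul_B]

private theorem factor_B {n : ℕ} (κ : ℝ) (a b : Fin n) :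
    ((Real.cosh κ : ℝ) : ℂ) • (1 : Module.End ℂ (Sp n)) +
      (((Real.sinh κ : ℝ) : ℂ) * I) • (-I • (Zo a * Zo b)) =
      mulO fun σ => Real.exp (κ * (sg (σ a) * sg (σ b))) := by
  have h1 : (((Real.sinh κ : ℝ) : ℂ) * I) • (-I • (Zo a * Zo b)) =
      ((Real.sinh κ : ℝ) : ℂ) • (Zo a * Zo b : Module.End ℂ (Sp n)) := by
    rw [smul_smul]
    congr 1
    linear_combination (-((Real.sinh κ : ℝ) : ℂ)) * I_sq
  rw [h1]
  refine LinearMap.ext fun φ => funext fun σ => ?_
  have hc : Real.exp κ = Real.cosh κ + Real.sinh κ := by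
    rw [Real.cosh_eq, Real.sinh_eq]; ring
  have hs : Real.exp (-κ) = Real.cosh κ - Real.sinh κ := by
    rw [Real.cosh_eq, Real.sinh_eq]; ring
  have he : Real.exp (κ * (sg (σ a) * sg (σ b))) =
      Real.cosh κ + Real.sinh κ * (sg (σ a) * sg (σ b)) := by
    rcases h1 : σ a <;> rcases h2 : σ b
    · have : κ * (sg false * sg false) = κ := by simp [sg]
      rw [this, hc]
      norm_num [sg]
    · have : κ * (sg false * sg true) = -κ := by simp [sg]
      have h3 : sg (σ a) * sg (σ b) = -1 := by rw [h1, h2]; simp [sg]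
      rw [h1, h2] at h3
      rw [this, hs, h3]
      ring
    · have : κ * (sg true * sg false) = -κ := by simp [sg]
      have h3 : sg (σ a) * sg (σ b) = -1 := by rw [h1, h2]; simp [sg]
      rw [h1, h2] at h3
      rw [this, hs, h3]
      ring
    · have : κ * (sg true * sg true) = κ := by simp [sg]
      rw [this, hc]
      norm_num [sg]
  show ((Real.cosh κ : ℝ) : ℂ) * φ σ + ((Real.sinh κ : ℝ) : ℂ) *
      ((sg (σ a) : ℂ) * ((sg (σ b) : ℂ) * φ σ)) =
      ((Real.exp (κ * (sg (σ a) * sg (σ b))) : ℝ) : ℂ) * φ σ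
  rw [he, ofReal_add, ofReal_mul, ofReal_mul]
  ring

private theorem zz_B {n : ℕ} (a : Fin n) (h : (a : ℕ) + 1 < n) :
    qM a * pM ⟨(a : ℕ) + 1, h⟩ = -I • (Zo a * Zo ⟨(a : ℕ) + 1, h⟩) := by
  rw [← qM_mul_pM a h, smul_smul]
  have : -I * I = 1 := by
    linear_combination -I_sq
  rw [this, one_smul]

private theorem x_B {n : ℕ} (κ : ℝ) (a : Fin n) :
    (((Real.sinh κ : ℝ) : ℂ) * I) • (pM a * qM a) = ((Real.sinh κ : ℝ) : ℂ) • Xo a := by
  rw [← smul_smul, pM_mul_qM]

theorem Sh_H (v : ℝ) (n : ℕ) : Sh v (pM (n := n)) qM = eX (κs v / 2) n := by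
  unfold Sh eX
  simp only [x_B]

theorem Wk_H (v : ℝ) (n : ℕ) : Wk v (pM (n := n + 1)) qM = mulO (Av false (κw v) n) := by
  have h1 : ∀ k : Fin (n + 1), (if h : (k : ℕ) + 1 < n + 1 then
      ((Real.cosh (κw v) : ℝ) : ℂ) • (1 : Module.End ℂ (Sp (n + 1))) +
        (((Real.sinh (κw v) : ℝ) : ℂ) * I) • (qM k * pM ⟨(k : ℕ) + 1, h⟩)
      else 1) = mulO fun σ => if h : (k : ℕ) + 1 < n + 1 then
        Real.exp (κw v * (sg (σ k) * sg (σ ⟨(k : ℕ) + 1, h⟩))) else 1 := by
    intro k
    by_cases h : (k : ℕ) + 1 < n + 1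
    · simp only [dif_pos h]
      rw [zz_B, factor_B]
    · simp only [dif_neg h]
      rw [mulO_one_B]
  unfold Wk
  rw [List.map_congr_left fun k _ => h1 k, prod_mulO_B]
  congr 1
  funext σ
  rw [← Fin.prod_univ_def, Fin.prod_univ_castSucc]
  simp only [Fin.val_castSucc, Fin.val_last, lt_irrefl, dite_false, mul_one]
  unfold Av
  rw [if_neg (by simp), add_zero, Finset.mul_sum, Real.exp_sum]
  refine Finset.prod_congr rfl fun k _ => ?_
  rw [dif_pos (by omega)]
  rfl

theorem Sh_L (v : ℝ) (m : ℕ) : Sh v (fL (m := m)) gL =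
    mulO (fun σ => Real.exp (κs v / 2 * ∑ k : Fin m, sg (σ k.castSucc) * sg (σ k.succ))) := by
  have h1 : ∀ k : Fin m, ((Real.cosh (κs v / 2) : ℝ) : ℂ) • (1 : Module.End ℂ (Sp (m + 1))) +
      (((Real.sinh (κs v / 2) : ℝ) : ℂ) * I) • (fL k * gL k) =
      mulO fun σ => Real.exp (κs v / 2 * (sg (σ k.castSucc) * sg (σ k.succ))) := by
    intro k
    have h2 : fL k * gL k = -I • (Zo k.castSucc * Zo k.succ) :=
      zz_B k.castSucc (by simp)
    rw [h2, factor_B]
  unfold Sh
  rw [List.map_congr_left fun k _ => h1 k, prod_mulO_B]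
  congr 1
  funext σ
  rw [← Fin.prod_univ_def, Finset.mul_sum, Real.exp_sum]

/-- `X_1, ..., X_{m-1}` with `m = n + 2` -/
theorem Wk_L (v : ℝ) (n : ℕ) : Wk v (fL (m := n + 2)) gL =
    ((List.finRange (n + 1)).map fun a : Fin (n + 1) =>
      ((Real.cosh (κw v) : ℝ) : ℂ) • (1 : Module.End ℂ (Sp (n + 3))) +
        ((Real.sinh (κw v) : ℝ) : ℂ) • Xo (n := n + 3) a.succ.castSucc).prod := by
  unfold Wk
  rw [List.finRange_succ_last, List.map_append, List.prod_append, List.map_map]
  simp only [List.map_cons, List.map_nil, List.prod_cons, List.prod_nil, Fin.val_last,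
    lt_irrefl, dite_false, mul_one]
  congr 1
  refine List.map_congr_left fun a _ => ?_
  simp only [Function.comp]
  have h : ((a.castSucc : Fin (n + 2)) : ℕ) + 1 < n + 2 := by
    have := a.isLt
    rw [Fin.val_castSucc]
    omega
  rw [dif_pos h]
  congr 1
  exact x_B (κw v) (n := n + 3) a.succ.castSucc

end

end IsingS2
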