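import Pool.Agent.Helper98.IS.DetFin
import Pool.Agent.Helper98.NB.Hadamard
import Pool.Agent.Helper98.NB.PairBound

/-!
# IS-21b: limits of determinants
-/

set_option autoImplicit false

namespace IsingS2

open Complex Set MeasureTheory Filter Topology IsingNB
open scoped Real Matrix

noncomputable section

/-! ### Bounds -/

/-- Hadamard bound for a matrix with decaying entries. -/
private theorem dl_had {ι : Type*} [Fintype ι] [DecidableEq ι] (M : Matrix ι ι ℂ) (d : ι → ℝ)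
    (hd : ∀ i, 0 < d i) {C : ℝ} (hC : 0 ≤ C) (h : ∀ i l, ‖M i l‖ ≤ C * (d i * d l)) {n : ℕ}
    (hn : Fintype.card ι = n) :
    ‖M.det‖ ≤ C ^ n * Real.sqrt ((n : ℝ) ^ n) * ∏ i, d i ^ 2 := by
  set M' : Matrix ι ι ℂ := Matrix.of fun i l => M i l / ((d i : ℂ) * d l) with hM'
  have hd' : ∀ i, (d i : ℂ) ≠ 0 := fun i => by exact_mod_cast (hd i).ne'
  have hM : M = Matrix.diagonal (fun i => (d i : ℂ)) * M' * Matrix.diagonal (fun i => (d i : ℂ)) := by
    ext i l
    rw [Matrix.mul_diagonal, Matrix.diagonal_mul, hM', Matrix.of_apply]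
    field_simp [hd' i, hd' l]
  have hb : ∀ i l, ‖M' i l‖ ≤ C := by
    intro i l
    rw [hM', Matrix.of_apply, norm_div, norm_mul, Complex.norm_real, Complex.norm_real,
      Real.norm_of_nonneg (hd i).le, Real.norm_of_nonneg (hd l).le,
      div_le_iff₀ (mul_pos (hd i) (hd l))]
    exact h i l
  let e : ι ≃ Fin n := Fintype.equivFinOfCardEq hn
  have h1 := norm_det_sq_le (M'.submatrix e.symm e.symm) C (fun i k => hb _ _)
  rw [Matrix.det_submatrix_equiv_self] at h1
  have h2 : ‖M'.det‖ ≤ C ^ n * Real.sqrt ((n : ℝ) ^ n) := by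
    have h3 : ‖M'.det‖ ≤ Real.sqrt (C ^ (2 * n) * (n : ℝ) ^ n) := Real.le_sqrt_of_sq_le h1
    rwa [mul_comm 2 n, pow_mul, Real.sqrt_mul (by positivity), Real.sqrt_sq (by positivity)] at h3
  rw [hM, Matrix.det_mul, Matrix.det_mul, Matrix.det_diagonal, norm_mul, norm_mul, norm_prod]
  have h4 : ∀ i, ‖(d i : ℂ)‖ = d i := fun i => by
    rw [Complex.norm_real, Real.norm_of_nonneg (hd i).le]
  simp only [h4]
  calc (∏ i, d i) * ‖M'.det‖ * ∏ i, d i = ‖M'.det‖ * ∏ i, d i ^ 2 := by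
        rw [Finset.prod_pow]; ring
    _ ≤ _ := mul_le_mul_of_nonneg_right h2 (Finset.prod_nonneg fun i _ => sq_nonneg _)

/-- Hadamard bound for principal minors of a decaying matrix -/
theorem det_bound {C q : ℝ} (hC : 0 ≤ C) (hq : 0 < q) {A : ℤ → ℤ → ℂ}
    (hA : ∀ k l, ‖A k l‖ ≤ C * q ^ (k.natAbs + l.natAbs)) {j : ℕ} (k : Fin j → ℤ) :
    ‖(Matrix.of fun i l : Fin j => A (k i) (k l)).det‖ ≤
      C ^ j * Real.sqrt ((j : ℝ) ^ j) * ∏ i, q ^ (2 * (k i).natAbs) := by
  have h := dl_had (Matrix.of fun i l : Fin j => A (k i) (k l)) (fun i => q ^ (k i).natAbs)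
    (fun i => pow_pos hq _) hC (fun i l => by
      rw [Matrix.of_apply, ← pow_add]
      exact hA _ _) (Fintype.card_fin j)
  refine h.trans (le_of_eq ?_)
  congr 1
  apply Finset.prod_congr rfl
  intro i _
  rw [← pow_mul, mul_comm]

theorem bdet_bound {C q : ℝ} (hC : 0 ≤ C) (hq : 0 < q) {A : ℤ → ℤ → ℂ} {h g : ℤ → ℂ}
    (hA : ∀ k l, ‖A k l‖ ≤ C * q ^ (k.natAbs + l.natAbs)) (hh : ∀ k, ‖h k‖ ≤ C * q ^ k.natAbs)
    (hg : ∀ k, ‖g k‖ ≤ C * q ^ k.natAbs) {j : ℕ} (k : Fin j → ℤ) :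
    ‖bdet (Matrix.of fun i l : Fin j => A (k i) (k l)) (fun i => h (k i)) (fun i => g (k i))‖ ≤
      C ^ (j + 1) * Real.sqrt (((j + 1 : ℕ) : ℝ) ^ (j + 1)) * ∏ i, q ^ (2 * (k i).natAbs) := by
  have h1 := dl_had (Matrix.fromBlocks (Matrix.of fun i l : Fin j => A (k i) (k l))
    (Matrix.of fun i (_ : Unit) => h (k i)) (Matrix.of fun (_ : Unit) l => g (k l))
    (0 : Matrix Unit Unit ℂ)) (Sum.elim (fun i => q ^ (k i).natAbs) (fun _ => 1))
    (by
      rintro (i | i)
      · exact pow_pos hq _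
      · exact one_pos) hC (by
      rintro (i | i) (l | l)
      · simp only [Matrix.fromBlocks_apply₁₁, Matrix.of_apply, Sum.elim_inl]
        rw [← pow_add]
        exact hA _ _
      · simp only [Matrix.fromBlocks_apply₁₂, Matrix.of_apply, Sum.elim_inl, Sum.elim_inr, mul_one]
        exact hh _
      · simp only [Matrix.fromBlocks_apply₂₁, Matrix.of_apply, Sum.elim_inl, Sum.elim_inr, one_mul]
        exact hg _
      · simp only [Matrix.fromBlocks_apply₂₂, Matrix.zero_apply, norm_zero, Sum.elim_inr, mul_one]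
        exact hC) (n := j + 1) (by
      rw [Fintype.card_sum, Fintype.card_fin, Fintype.card_unit])
  refine h1.trans (le_of_eq ?_)
  congr 1
  rw [Fintype.prod_sum_type]
  simp only [Sum.elim_inl, Sum.elim_inr, one_pow, Finset.prod_const_one, mul_one]
  apply Finset.prod_congr rfl
  intro i _
  rw [← pow_mul, mul_comm]

/-! ### Sums over the indices -/

private theorem dl_geom {q : ℝ} (hq0 : 0 < q) (hq1 : q < 1) :
    Summable fun k : ℤ => q ^ (2 * k.natAbs) := by
  have hq2 : q ^ 2 < 1 := by nlinarith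
  have h1 : Summable fun n : ℕ => (q ^ 2) ^ n := summable_geometric_of_lt_one (by positivity) hq2
  rw [summable_int_iff_summable_nat_and_neg]
  constructor
  · refine h1.congr fun n => ?_
    rw [Int.natAbs_natCast, pow_mul]
  · refine h1.congr fun n => ?_
    rw [Int.natAbs_neg, Int.natAbs_natCast, pow_mul]

private theorem dl_prod {f : ℤ → ℝ} (hf0 : ∀ k, 0 ≤ f k) (hf : Summable f) (j : ℕ) :
    (Summable fun k : Fin j → ℤ => ∏ i, f (k i)) ∧
      ∑' k : Fin j → ℤ, ∏ i, f (k i) = (∑' k, f k) ^ j := by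
  induction j with
  | zero =>
    refine ⟨Summable.of_finite, ?_⟩
    simp
  | succ n ih =>
    obtain ⟨h1, h2⟩ := ih
    have e1 : ∀ p : ℤ × (Fin n → ℤ),
        ∏ i, f ((Fin.consEquiv (fun _ : Fin (n + 1) => ℤ)) p i) =
          f p.1 * ∏ i : Fin n, f (p.2 i) := by
      rintro ⟨m, k⟩
      rw [Fin.prod_univ_succ]
      simp [Fin.consEquiv]
    have s1 : Summable fun p : ℤ × (Fin n → ℤ) => f p.1 * ∏ i : Fin n, f (p.2 i) :=
      hf.mul_of_nonneg h1 hf0 fun k => Finset.prod_nonneg fun i _ => hf0 _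
    constructor
    · rw [← (Fin.consEquiv (fun _ : Fin (n + 1) => ℤ)).summable_iff]
      refine s1.congr fun p => ?_
      rw [Function.comp_apply, e1]
    · rw [← (Fin.consEquiv (fun _ : Fin (n + 1) => ℤ)).tsum_eq, pow_succ', ← h2,
        hf.tsum_mul_tsum h1 s1]
      exact tsum_congr fun p => e1 p

/-- dominated convergence for the double series -/
private theorem dl_dom {β : Type*} {F : Filter β} {T : β → (j : ℕ) → (Fin j → ℤ) → ℂ}
    {T0 : (j : ℕ) → (Fin j → ℤ) → ℂ} {q : ℝ} (hq0 : 0 < q) (hq1 : q < 1) (D : ℕ → ℝ)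
    (hD0 : ∀ j, 0 ≤ D j)
    (hD : ∀ S : ℝ, 0 ≤ S → Summable fun j : ℕ => D j * S ^ j / (j.factorial : ℝ))
    (hb : ∀ᶠ p in F, ∀ j k, ‖T p j k‖ ≤ D j * ∏ i, q ^ (2 * (k i).natAbs))
    (hT : ∀ j k, Tendsto (fun p => T p j k) F (𝓝 (T0 j k))) :
    Tendsto (fun p => ∑' j : ℕ, (1 / (j.factorial : ℂ)) * ∑' k : Fin j → ℤ, T p j k) F
      (𝓝 (∑' j : ℕ, (1 / (j.factorial : ℂ)) * ∑' k : Fin j → ℤ, T0 j k)) := by
  have hg := dl_geom hq0 hq1
  have hg0 : ∀ k : ℤ, 0 ≤ q ^ (2 * k.natAbs) := fun k => by positivity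
  set S : ℝ := ∑' k : ℤ, q ^ (2 * k.natAbs) with hS
  have hS0 : 0 ≤ S := tsum_nonneg hg0
  refine tendsto_tsum_of_dominated_convergence (hD S hS0) (fun j => ?_) ?_
  · apply Tendsto.const_mul
    refine tendsto_tsum_of_dominated_convergence
      (bound := fun k : Fin j → ℤ => D j * ∏ i, q ^ (2 * (k i).natAbs))
      ((dl_prod hg0 hg j).1.mul_left _) (hT j) ?_
    filter_upwards [hb] with p hp k
    exact hp j k
  · filter_upwards [hb] with p hp j
    have h1 : ‖∑' k : Fin j → ℤ, T p j k‖ ≤ D j * S ^ j := by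
      have hs := (dl_prod hg0 hg j).1.mul_left (D j)
      have h2 := tsum_of_norm_bounded hs.hasSum (hp j)
      rwa [tsum_mul_left, (dl_prod hg0 hg j).2] at h2
    rw [norm_mul, norm_div, norm_one, Complex.norm_natCast, one_div_mul_eq_div]
    gcongr

private theorem dl_det_tendsto {ι β : Type*} [Fintype ι] [DecidableEq ι] {F : Filter β}
    {M : β → Matrix ι ι ℂ} {M0 : Matrix ι ι ℂ}
    (h : ∀ i l, Tendsto (fun p => M p i l) F (𝓝 (M0 i l))) :
    Tendsto (fun p => (M p).det) F (𝓝 M0.det) := by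
  simp only [Matrix.det_apply]
  apply tendsto_finsetSum
  intro σ _
  apply Tendsto.const_smul
  exact tendsto_finsetProd _ fun i _ => h _ _

theorem Fdet_lim {β : Type*} {F : Filter β} {A : β → ℤ → ℤ → ℂ} {A0 : ℤ → ℤ → ℂ} (h : Loc F A A0) :
    Tendsto (fun p => Fdet (A p)) F (𝓝 (Fdet A0)) := by
  obtain ⟨C, q, hC, hq0, hq1, hb⟩ := h.bound
  unfold Fdet
  refine dl_dom hq0 hq1 (fun j => C ^ j * Real.sqrt ((j : ℝ) ^ j)) (fun j => by positivity)
    (fun S hS => ?_) ?_ ?_
  · refine (summable_bd (C * S)).congr fun j => ?_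
    unfold bd
    rw [mul_pow]
    ring
  · filter_upwards [hb] with p hp j k
    exact det_bound hC hq0 hp k
  · intro j k
    apply dl_det_tendsto
    intro i l
    exact h.lim _ _

theorem Fbord_lim {β : Type*} {F : Filter β} {A : β → ℤ → ℤ → ℂ} {A0 : ℤ → ℤ → ℂ} (h : Loc F A A0)
    {u w : β → ℤ → ℂ} {u0 w0 : ℤ → ℂ} (hu : LocV F u u0) (hw : LocV F w w0) :
    Tendsto (fun p => Fbord (A p) (u p) (w p)) F (𝓝 (Fbord A0 u0 w0)) := by
  obtain ⟨C1, q1, hC1, hq10, hq11, hb1⟩ := h.bound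
  obtain ⟨C2, q2, hC2, hq20, hq21, hb2⟩ := hu.bound
  obtain ⟨C3, q3, hC3, hq30, hq31, hb3⟩ := hw.bound
  set C := max C1 (max C2 C3) with hCdef
  set q := max q1 (max q2 q3) with hqdef
  have hC : 0 ≤ C := hC1.trans (le_max_left _ _)
  have hq0 : 0 < q := hq10.trans_le (le_max_left _ _)
  have hq1 : q < 1 := max_lt hq11 (max_lt hq21 hq31)
  have c1 : C1 ≤ C := le_max_left _ _
  have c2 : C2 ≤ C := (le_max_left _ _).trans (le_max_right _ _)
  have c3 : C3 ≤ C := (le_max_right _ _).trans (le_max_right _ _)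
  have d1 : q1 ≤ q := le_max_left _ _
  have d2 : q2 ≤ q := (le_max_left _ _).trans (le_max_right _ _)
  have d3 : q3 ≤ q := (le_max_right _ _).trans (le_max_right _ _)
  unfold Fbord
  refine dl_dom hq0 hq1 (fun j => C ^ (j + 1) * Real.sqrt (((j + 1 : ℕ) : ℝ) ^ (j + 1)))
    (fun j => by positivity) (fun S hS => ?_) ?_ ?_
  · -- summability
    rcases eq_or_lt_of_le hS with h0 | hS
    · refine summable_of_ne_finset_zero (s := {0}) fun j hj => ?_
      have hj0 : j ≠ 0 := by simpa using hj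
      rw [← h0, zero_pow hj0]
      simp
    have h1 : Summable fun j : ℕ => bd (2 * (C * S)) (j + 1) / S :=
      ((summable_nat_add_iff 1).2 (summable_bd (2 * (C * S)))).div_const S
    refine Summable.of_nonneg_of_le (fun j => by positivity) (fun j => ?_) h1
    unfold bd
    rw [Nat.factorial_succ, Nat.cast_mul, mul_pow 2, mul_pow C S (j + 1), pow_succ S j]
    have hf : (0 : ℝ) < (j.factorial : ℝ) := by exact_mod_cast Nat.factorial_pos j
    have hj1 : (0 : ℝ) < ((j + 1 : ℕ) : ℝ) := by positivity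
    have h2 : ((j + 1 : ℕ) : ℝ) ≤ 2 ^ (j + 1) := by
      exact_mod_cast (Nat.lt_two_pow_self (n := j + 1)).le
    rw [div_div, div_le_div_iff₀ hf (by positivity)]
    set r := Real.sqrt (((j + 1 : ℕ) : ℝ) ^ (j + 1)) with hr
    have hr0 : 0 ≤ r := Real.sqrt_nonneg _
    calc C ^ (j + 1) * r * S ^ j * (((j + 1 : ℕ) : ℝ) * (j.factorial : ℝ) * S)
        = ((j + 1 : ℕ) : ℝ) * (C ^ (j + 1) * (S ^ j * S) * r * (j.factorial : ℝ)) := by ring
      _ ≤ 2 ^ (j + 1) * (C ^ (j + 1) * (S ^ j * S) * r * (j.factorial : ℝ)) := by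
          apply mul_le_mul_of_nonneg_right h2
          positivity
      _ = _ := by ring
  · filter_upwards [hb1, hb2, hb3] with p hp1 hp2 hp3 j k
    refine bdet_bound hC hq0 (fun k l => (hp1 k l).trans ?_) (fun k => (hp2 k).trans ?_)
      (fun k => (hp3 k).trans ?_) k
    · gcongr
    · gcongr
    · gcongr
  · intro j k
    unfold bdet
    apply dl_det_tendsto
    rintro (i | i) (l | l)
    · exact h.lim _ _
    · exact hu.lim _
    · exact hw.lim _
    · exact tendsto_const_nhds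

/-! ### Finite matrices -/

/-- inclusion of the window -/
private def dl_inc (a j : ℕ) {m : ℕ} (k : Fin j → Fin m) : Fin j → ℤ := fun i => (k i : ℤ) - a

private theorem dl_inc_inj (a j m : ℕ) : Function.Injective (dl_inc a j (m := m)) := by
  intro k k' h
  funext i
  have h1 := congrFun h i
  unfold dl_inc at h1
  apply Fin.ext
  omega

private theorem dl_emb (a : ℕ) {m : ℕ} (A : Matrix (Fin m) (Fin m) ℝ) (k l : Fin m) :
    emb a A ((k : ℤ) - a) ((l : ℤ) - a) = ((A k l : ℝ) : ℂ) := by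
  unfold emb
  have hk := k.isLt
  have hl := l.isLt
  rw [dif_pos (by omega)]
  congr 2 <;> apply Fin.ext <;> simp

private theorem dl_embV (a : ℕ) {m : ℕ} (u : Fin m → ℝ) (k : Fin m) :
    embV a u ((k : ℤ) - a) = ((u k : ℝ) : ℂ) := by
  unfold embV
  have hk := k.isLt
  rw [dif_pos (by omega)]
  congr 2
  apply Fin.ext
  simp

private theorem dl_out (a m : ℕ) (k : ℤ) (hk : ¬ ∃ l : Fin m, k = (l : ℤ) - a) :
    ¬ (0 ≤ k + a ∧ k + a < m) := by
  intro h
  exact hk ⟨⟨(k + a).toNat, by omega⟩, by simp; omega⟩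

/-- the series of a finite matrix -/
private theorem dl_series (a m : ℕ) (T : (j : ℕ) → (Fin j → ℤ) → ℂ)
    (T' : (j : ℕ) → (Fin j → Fin m) → ℂ) (h1 : ∀ j k, T j (dl_inc a j k) = T' j k)
    (h2 : ∀ j k, (∃ i, ¬ ∃ l : Fin m, k i = (l : ℤ) - a) → T j k = 0)
    (h3 : ∀ j k, ¬ Function.Injective k → T' j k = 0) :
    ∑' j : ℕ, (1 / (j.factorial : ℂ)) * ∑' k : Fin j → ℤ, T j k =
      ∑ j ∈ Finset.range (Fintype.card (Fin m) + 1), (1 / (j.factorial : ℂ)) *
        ∑ k : Fin j → Fin m, T' j k := by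
  have hk : ∀ j : ℕ, ∑' k : Fin j → ℤ, T j k = ∑ k : Fin j → Fin m, T' j k := by
    intro j
    rw [← (dl_inc_inj a j m).tsum_eq (f := T j), tsum_fintype]
    · exact Finset.sum_congr rfl fun k _ => h1 j k
    · intro k hk
      rw [Function.mem_support] at hk
      have h4 : ∀ i, ∃ l : Fin m, k i = (l : ℤ) - a := by
        intro i
        by_contra hi
        exact hk (h2 j k ⟨i, hi⟩)
      choose l hl using h4
      exact ⟨l, by funext i; exact (hl i).symm⟩
  rw [tsum_eq_sum (s := Finset.range (Fintype.card (Fin m) + 1))]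
  · exact Finset.sum_congr rfl fun j _ => by rw [hk]
  · intro j hj
    rw [hk, Finset.sum_eq_zero, mul_zero]
    intro k _
    apply h3
    intro hinj
    have h5 := Fintype.card_le_of_injective k hinj
    rw [Fintype.card_fin] at h5
    apply hj
    rw [Finset.mem_range]
    omega

theorem Fdet_emb (a : ℕ) {m : ℕ} (A : Matrix (Fin m) (Fin m) ℝ) :
    Fdet (emb a A) = (((1 + A).det : ℝ) : ℂ) := by
  set B : Matrix (Fin m) (Fin m) ℂ := A.map (algebraMap ℝ ℂ) with hB
  have hdet : (((1 + A).det : ℝ) : ℂ) = (1 + B).det := by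
    have h1 := RingHom.map_det (algebraMap ℝ ℂ) (1 + A)
    have h2 : (algebraMap ℝ ℂ).mapMatrix (1 + A) = 1 + B := by
      rw [map_add, map_one]
      rfl
    rw [h2] at h1
    exact h1
  rw [hdet, det_one_add_eq]
  unfold Fdet
  apply dl_series a m
  · intro j k
    congr 1
    ext i l
    exact dl_emb a A (k i) (k l)
  · rintro j k ⟨i, hi⟩
    apply Matrix.det_eq_zero_of_row_eq_zero i
    intro l
    rw [Matrix.of_apply]
    unfold emb
    rw [dif_neg]
    intro h
    exact dl_out a m (k i) hi h.1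
  · intro j k hk
    obtain ⟨i, i', hii, hne⟩ : ∃ i i', k i = k i' ∧ i ≠ i' := by
      unfold Function.Injective at hk
      push Not at hk
      exact hk
    apply Matrix.det_zero_of_row_eq hne
    funext l
    rw [Matrix.of_apply, Matrix.of_apply, hii]

theorem Fbord_emb (a : ℕ) {m : ℕ} (A : Matrix (Fin m) (Fin m) ℝ) (h g : Fin m → ℝ) :
    Fbord (emb a A) (embV a h) (embV a g) =
      ((-(g ⬝ᵥ (1 + A).adjugate.mulVec h) : ℝ) : ℂ) := by
  set B : Matrix (Fin m) (Fin m) ℂ := A.map (algebraMap ℝ ℂ) with hB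
  have hdet : ((-(g ⬝ᵥ (1 + A).adjugate.mulVec h) : ℝ) : ℂ) =
      bdet (1 + B) (fun i => (h i : ℂ)) (fun i => (g i : ℂ)) := by
    rw [bdet_eq]
    have h2 : (1 + B) = (1 + A).map (algebraMap ℝ ℂ) := by
      have : (algebraMap ℝ ℂ).mapMatrix (1 + A) = 1 + B := by
        rw [map_add, map_one]
        rfl
      exact this.symm
    have h3 : (1 + B).adjugate = ((1 + A).adjugate).map (algebraMap ℝ ℂ) := by
      rw [h2]
      exact (RingHom.map_adjugate (algebraMap ℝ ℂ) (1 + A)).symm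
    rw [h3]
    simp only [dotProduct, Matrix.mulVec, Matrix.map_apply, Complex.coe_algebraMap]
    push_cast
    rfl
  rw [hdet, bdet_one_add_eq]
  unfold Fbord
  apply dl_series a m
  · intro j k
    congr 1
    · ext i l
      exact dl_emb a A (k i) (k l)
    · funext i
      exact dl_embV a h (k i)
    · funext i
      exact dl_embV a g (k i)
  · rintro j k ⟨i, hi⟩
    unfold bdet
    apply Matrix.det_eq_zero_of_row_eq_zero (Sum.inl i)
    rintro (l | l)
    · rw [Matrix.fromBlocks_apply₁₁, Matrix.of_apply]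
      unfold emb
      rw [dif_neg]
      intro h
      exact dl_out a m (k i) hi h.1
    · rw [Matrix.fromBlocks_apply₁₂, Matrix.of_apply]
      change embV a h (k i) = 0
      unfold embV
      rw [dif_neg]
      exact dl_out a m (k i) hi
  · intro j k hk
    obtain ⟨i, i', hii, hne⟩ : ∃ i i', k i = k i' ∧ i ≠ i' := by
      unfold Function.Injective at hk
      push Not at hk
      exact hk
    unfold bdet
    apply Matrix.det_zero_of_row_eq (i := Sum.inl i) (j := Sum.inl i')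
      (fun h => hne (Sum.inl_injective h))
    funext l
    rcases l with l | l
    · rw [Matrix.fromBlocks_apply₁₁, Matrix.fromBlocks_apply₁₁, Matrix.of_apply, Matrix.of_apply,
        hii]
    · rw [Matrix.fromBlocks_apply₁₂, Matrix.fromBlocks_apply₁₂, Matrix.of_apply, Matrix.of_apply]
      change ((h (k i) : ℝ) : ℂ) = ((h (k i') : ℝ) : ℂ)
      rw [hii]

end

end IsingS2
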