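import Pool.Agent.Helper98.IS.DetFin
import Pool.Agent.Helper98.IS.DetLim
import Pool.Agent.Helper98.IS.Fam

/-!
# IS-37: multiplicativity of the Fredholm series, by finite sections
-/

set_option autoImplicit false

namespace IsingS2

open Complex Set MeasureTheory Filter Topology IsingNB
open scoped Real Matrix

noncomputable section

/-- the finite section -/
private def fmSec (n : ℕ) (A : ℤ → ℤ → ℂ) (k l : ℤ) : ℂ :=
  if k.natAbs ≤ n ∧ l.natAbs ≤ n then A k l else 0

/-- the index set of the finite section -/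
private abbrev FmI (n : ℕ) : Type := {x : ℤ // x ∈ Finset.Icc (-(n : ℤ)) n}

private lemma fm_mem {n : ℕ} {k : ℤ} : k ∈ Finset.Icc (-(n : ℤ)) n ↔ k.natAbs ≤ n := by
  rw [Finset.mem_Icc]
  omega

/-- the Fredholm series of a matrix with finite support -/
private lemma fm_finite (n : ℕ) (X : ℤ → ℤ → ℂ) (hX : ∀ k l, n < k.natAbs → X k l = 0) :
    Fdet X = (1 + Matrix.of fun i l : FmI n => X i.1 l.1).det := by
  rw [det_one_add_eq]
  have h1 : ∀ j : ℕ, ∑' k : Fin j → ℤ, (Matrix.of fun i l : Fin j => X (k i) (k l)).det =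
      ∑ k : Fin j → FmI n, (Matrix.of fun i l : Fin j => X (k i).1 (k l).1).det := by
    intro j
    let g : (Fin j → FmI n) → (Fin j → ℤ) := fun k i => (k i).1
    have hg : Function.Injective g := by
      intro k k' h
      funext i
      exact Subtype.ext (congrFun h i)
    have h2 : Function.support (fun k : Fin j → ℤ =>
        (Matrix.of fun i l : Fin j => X (k i) (k l)).det) ⊆ Set.range g := by
      intro k hk
      rw [Function.mem_support] at hk
      have h3 : ∀ i, k i ∈ Finset.Icc (-(n : ℤ)) n := by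
        intro i
        rw [fm_mem]
        by_contra hcon
        push Not at hcon
        apply hk
        apply Matrix.det_eq_zero_of_row_eq_zero i
        intro l
        exact hX _ _ hcon
      exact ⟨fun i => ⟨k i, h3 i⟩, rfl⟩
    rw [← hg.tsum_eq h2, tsum_fintype]
  have h4 : ∀ j : ℕ, j ∉ Finset.range (Fintype.card (FmI n) + 1) →
      (1 / (j.factorial : ℂ)) *
        ∑' k : Fin j → ℤ, (Matrix.of fun i l : Fin j => X (k i) (k l)).det = 0 := by
    intro j hj
    rw [Finset.mem_range, not_lt] at hj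
    rw [h1, Finset.sum_eq_zero, mul_zero]
    intro k _
    have hni : ¬ Function.Injective k := by
      intro hinj
      have := Fintype.card_le_of_injective k hinj
      rw [Fintype.card_fin] at this
      omega
    rw [Function.not_injective_iff] at hni
    obtain ⟨a, b, hab, hne⟩ := hni
    apply Matrix.det_zero_of_row_eq hne
    funext l
    simp only [Matrix.of_apply, hab]
  rw [Fdet, tsum_eq_sum h4]
  refine Finset.sum_congr rfl fun j _ => ?_
  rw [h1]
  rfl

private lemma fm_sec_loc {A : ℤ → ℤ → ℂ} (hA : LL A) : Loc atTop (fun n => fmSec n A) A := by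
  obtain ⟨C, q, hC, hq, hq1, h⟩ := hA
  refine ⟨⟨C, q, hC, hq, hq1, Eventually.of_forall fun n k l => ?_⟩, fun k l => ?_⟩
  · unfold fmSec
    split_ifs
    · exact h k l
    · rw [norm_zero]
      positivity
  · refine tendsto_const_nhds.congr' ?_
    filter_upwards [eventually_ge_atTop (max k.natAbs l.natAbs)] with n hn
    rw [fmSec, if_pos ⟨(le_max_left _ _).trans hn, (le_max_right _ _).trans hn⟩]

private lemma fm_sec_band {A : ℤ → ℤ → ℂ} (hA : BB A) : Band atTop (fun n => fmSec n A) A := by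
  obtain ⟨C, q, hC, hq, hq1, h⟩ := hA
  refine ⟨⟨C, q, hC, hq, hq1, Eventually.of_forall fun n k l => ?_⟩, fun k l => ?_⟩
  · unfold fmSec
    split_ifs
    · exact h k l
    · rw [norm_zero]
      positivity
  · refine tendsto_const_nhds.congr' ?_
    filter_upwards [eventually_ge_atTop (max k.natAbs l.natAbs)] with n hn
    rw [fmSec, if_pos ⟨(le_max_left _ _).trans hn, (le_max_right _ _).trans hn⟩]

private lemma fm_sec_apply (n : ℕ) (A : ℤ → ℤ → ℂ) (k l : FmI n) :
    fmSec n A k.1 l.1 = A k.1 l.1 := by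
  rw [fmSec, if_pos ⟨fm_mem.1 k.2, fm_mem.1 l.2⟩]

private lemma fm_sec_zero (n : ℕ) (A : ℤ → ℤ → ℂ) (k l : ℤ) (h : n < k.natAbs) :
    fmSec n A k l = 0 := by
  rw [fmSec, if_neg]
  omega

/-- product of two sections -/
private lemma fm_mm (n : ℕ) (A B : ℤ → ℤ → ℂ) (k l : FmI n) :
    mm (fmSec n A) (fmSec n B) k.1 l.1 =
      ((Matrix.of fun i l : FmI n => A i.1 l.1) * Matrix.of fun i l : FmI n => B i.1 l.1) k l := by
  rw [mm, Matrix.mul_apply]
  have h1 : Function.support (fun i : ℤ => fmSec n A k.1 i * fmSec n B i l.1) ⊆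
      Set.range (Subtype.val : FmI n → ℤ) := by
    intro i hi
    rw [Function.mem_support] at hi
    rw [Subtype.range_coe_subtype]
    show i ∈ Finset.Icc (-(n : ℤ)) n
    rw [fm_mem]
    by_contra hcon
    push Not at hcon
    apply hi
    rw [fm_sec_zero n B i l.1 hcon, mul_zero]
  rw [← Subtype.val_injective.tsum_eq h1, tsum_fintype]
  refine Finset.sum_congr rfl fun i _ => ?_
  rw [fm_sec_apply, fm_sec_apply]
  rfl

private lemma fm_mm_zero (n : ℕ) (A B : ℤ → ℤ → ℂ) (k l : ℤ) (h : n < k.natAbs) :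
    mm (fmSec n A) (fmSec n B) k l = 0 := by
  rw [mm]
  have : (fun i : ℤ => fmSec n A k i * fmSec n B i l) = fun _ => 0 := by
    funext i
    rw [fm_sec_zero n A k i h, zero_mul]
  rw [this, tsum_zero]

theorem Fdet_mul {A B : ℤ → ℤ → ℂ} (hA : LL A) (hB : LL B) :
    (Fdet fun k l => A k l + B k l + mm A B k l) = Fdet A * Fdet B := by
  have hLA := fm_sec_loc hA
  have hLB := fm_sec_loc hB
  have h1 := Fdet_lim ((hLA.add hLB).add (hLA.mm_band hLB.band))
  have h2 := (Fdet_lim hLA).mul (Fdet_lim hLB)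
  refine tendsto_nhds_unique h1 (h2.congr fun n => ?_)
  have e1 := fm_finite n (fmSec n A) (fun k l h => fm_sec_zero n A k l h)
  have e2 := fm_finite n (fmSec n B) (fun k l h => fm_sec_zero n B k l h)
  have e3 := fm_finite n (fun k l => fmSec n A k l + fmSec n B k l +
    mm (fmSec n A) (fmSec n B) k l) (fun k l h => by
      rw [fm_sec_zero n A k l h, fm_sec_zero n B k l h, fm_mm_zero n A B k l h, add_zero,
        add_zero])
  rw [e1, e2, e3, ← Matrix.det_mul]
  congr 1
  have f1 : (Matrix.of fun i l : FmI n => fmSec n A i.1 l.1) =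
      Matrix.of fun i l : FmI n => A i.1 l.1 := by
    ext i l
    exact fm_sec_apply n A i l
  have f2 : (Matrix.of fun i l : FmI n => fmSec n B i.1 l.1) =
      Matrix.of fun i l : FmI n => B i.1 l.1 := by
    ext i l
    exact fm_sec_apply n B i l
  have f3 : (Matrix.of fun i l : FmI n => fmSec n A i.1 l.1 + fmSec n B i.1 l.1 +
      mm (fmSec n A) (fmSec n B) i.1 l.1) = (Matrix.of fun i l : FmI n => A i.1 l.1) +
      (Matrix.of fun i l : FmI n => B i.1 l.1) +
      (Matrix.of fun i l : FmI n => A i.1 l.1) * Matrix.of fun i l : FmI n => B i.1 l.1 := by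
    ext i l
    rw [Matrix.add_apply, Matrix.add_apply, ← fm_mm n A B i l, Matrix.of_apply, fm_sec_apply,
      fm_sec_apply]
    rfl
  rw [f1, f2, f3]
  noncomm_ring

theorem Fdet_cyc {A L : ℤ → ℤ → ℂ} (hA : BB A) (hL : LL L) : Fdet (mm A L) = Fdet (mm L A) := by
  have hBA := fm_sec_band hA
  have hLL := fm_sec_loc hL
  have h1 := Fdet_lim (hBA.mm_loc hLL)
  have h2 := Fdet_lim (hLL.mm_band hBA)
  refine tendsto_nhds_unique h1 (h2.congr fun n => ?_)
  have e1 := fm_finite n (mm (fmSec n A) (fmSec n L)) (fun k l h => fm_mm_zero n A L k l h)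
  have e2 := fm_finite n (mm (fmSec n L) (fmSec n A)) (fun k l h => fm_mm_zero n L A k l h)
  rw [e1, e2]
  have f1 : (Matrix.of fun i l : FmI n => mm (fmSec n A) (fmSec n L) i.1 l.1) =
      (Matrix.of fun i l : FmI n => A i.1 l.1) * Matrix.of fun i l : FmI n => L i.1 l.1 := by
    ext i l
    exact fm_mm n A L i l
  have f2 : (Matrix.of fun i l : FmI n => mm (fmSec n L) (fmSec n A) i.1 l.1) =
      (Matrix.of fun i l : FmI n => L i.1 l.1) * Matrix.of fun i l : FmI n => A i.1 l.1 := by
    ext i l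
    exact fm_mm n L A i l
  rw [f1, f2, Matrix.det_one_add_mul_comm]

theorem Fdet_zero : (Fdet fun _ _ => 0) = 1 := by
  rw [fm_finite 0 (fun _ _ => 0) (fun _ _ _ => rfl)]
  have : (Matrix.of fun _ _ : FmI 0 => (0 : ℂ)) = 0 := by
    ext i l
    rfl
  rw [this, add_zero, Matrix.det_one]

end

end IsingS2
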