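import Pool.Agent.Helper98.IS.CommB
import Pool.Agent.Helper98.IS.FdetMul

/-!
# Multiplicativity of the determinant of the commutator (third part of IS-38)
-/

namespace IsingS2

open Complex Set MeasureTheory Filter Topology
open scoped Real Matrix

noncomputable section

/-- the commutator minus one -/
def cK (f h : PowerSeries ℂ) (k l : ℤ) : ℂ :=
  mm (mm (mm (Tm f) (Tp h)) (Tm f⁻¹)) (Tp h⁻¹) k l - PiZ k l

theorem cK_LL {f h : PowerSeries ℂ} (hf : GoodPS f) (hh : GoodPS h) : LL (cK f h) := comm_LL hf hh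

theorem Fc_eq (f h : PowerSeries ℂ) : Fc f h = Fdet (cK f h) := rfl

/-- `A B = (1 + K) B A` -/
theorem cK_rel {f h : PowerSeries ℂ} (hf : GoodPS f) (hh : GoodPS h) :
    mm (mm (mm (Tm f) (Tp h)) (Tm f⁻¹)) (Tp h⁻¹) = fun k l => cK f h k l + PiZ k l := by
  funext k l; unfold cK; ring

theorem Pi_cK {f h : PowerSeries ℂ} (hf : GoodPS f) (hh : GoodPS h) : mm PiZ (cK f h) = cK f h := by
  have hA := Tm_BB hf
  have hB := Tp_BB hh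
  have hA' := Tm_BB hf.inv
  have hB' := Tp_BB hh.inv
  have e1 : mm PiZ (mm (mm (mm (Tm f) (Tp h)) (Tm f⁻¹)) (Tp h⁻¹)) =
      mm (mm (mm (Tm f) (Tp h)) (Tm f⁻¹)) (Tp h⁻¹) := by
    rw [← mm_assoc BB_Pi (BB_mm (BB_mm hA hB) hA') hB', ← mm_assoc BB_Pi (BB_mm hA hB) hA',
      ← mm_assoc BB_Pi hA hB, mm_PiZ_Tm]
  have e2 : mm PiZ PiZ = PiZ := by rw [← Tm_one, Tm_mul, one_mul]
  rw [cK_rel hf hh, mm_add_right BB_Pi (cK_LL hf hh).bb BB_Pi, e2] at e1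
  funext k l
  have := congrFun (congrFun e1 k) l
  simpa using this

theorem cK_Pi {f h : PowerSeries ℂ} (hf : GoodPS f) (hh : GoodPS h) : mm (cK f h) PiZ = cK f h := by
  have hA := Tm_BB hf
  have hB := Tp_BB hh
  have hA' := Tm_BB hf.inv
  have hB' := Tp_BB hh.inv
  have e1 : mm (mm (mm (mm (Tm f) (Tp h)) (Tm f⁻¹)) (Tp h⁻¹)) PiZ =
      mm (mm (mm (Tm f) (Tp h)) (Tm f⁻¹)) (Tp h⁻¹) := by
    rw [mm_assoc (BB_mm (BB_mm hA hB) hA') hB' BB_Pi, mm_Tp_PiZ]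
  have e2 : mm PiZ PiZ = PiZ := by rw [← Tm_one, Tm_mul, one_mul]
  rw [cK_rel hf hh, mm_add_left (cK_LL hf hh).bb BB_Pi BB_Pi, e2] at e1
  funext k l
  have := congrFun (congrFun e1 k) l
  simpa using this

theorem Fc_mul_left {f f' h : PowerSeries ℂ} (hf : GoodPS f) (hf' : GoodPS f') (hh : GoodPS h) :
    Fc (f * f') h = Fc f h * Fc f' h := by
  have hA := Tm_BB hf
  have hA2 := Tm_BB hf'
  have hB := Tp_BB hh
  have hA' := Tm_BB hf.inv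
  have hA2' := Tm_BB hf'.inv
  have hB' := Tp_BB hh.inv
  have hK := (cK_LL hf hh)
  have hK2 := (cK_LL hf' hh)
  have hL : LL (mm (mm (Tm f) (cK f' h)) (Tm f⁻¹)) := LL_mm_right (LL_mm_left hA hK2) hA'
  -- A' B A'⁻¹ = (1 + K') B
  have e1 : mm (mm (Tm f') (Tp h)) (Tm f'⁻¹) = mm (fun k l => cK f' h k l + PiZ k l) (Tp h) := by
    rw [← cK_rel hf' hh, mm_assoc (BB_mm (BB_mm hA2 hB) hA2') hB' hB, Tp_mul, hh.inv_mul, Tp_one,
      mm_assoc (BB_mm hA2 hB) hA2' BB_Pi, mm_Tm_PiZ]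
  -- A B A⁻¹ = (1 + K) B
  have e1' : mm (mm (Tm f) (Tp h)) (Tm f⁻¹) = mm (fun k l => cK f h k l + PiZ k l) (Tp h) := by
    rw [← cK_rel hf hh, mm_assoc (BB_mm (BB_mm hA hB) hA') hB' hB, Tp_mul, hh.inv_mul, Tp_one,
      mm_assoc (BB_mm hA hB) hA' BB_Pi, mm_Tm_PiZ]
  have hK1B : BB (fun k l => cK f h k l + PiZ k l) := BB_add hK.bb BB_Pi
  have hK2B : BB (fun k l => cK f' h k l + PiZ k l) := BB_add hK2.bb BB_Pi
  -- A (1 + K') = (1 + A K' A⁻¹) A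
  have e2 : mm (Tm f) (fun k l => cK f' h k l + PiZ k l) =
      mm (fun k l => mm (mm (Tm f) (cK f' h)) (Tm f⁻¹) k l + PiZ k l) (Tm f) := by
    rw [mm_add_right hA hK2.bb BB_Pi, mm_add_left hL.bb BB_Pi hA, mm_Tm_PiZ, mm_PiZ_Tm,
      mm_assoc (BB_mm hA hK2.bb) hA' hA, Tm_mul, hf.inv_mul, Tm_one, mm_assoc hA hK2.bb BB_Pi,
      cK_Pi hf' hh]
  have hLB : BB (fun k l => mm (mm (Tm f) (cK f' h)) (Tm f⁻¹) k l + PiZ k l) := BB_add hL.bb BB_Pi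
  have e3 : mm (mm (mm (Tm (f * f')) (Tp h)) (Tm (f * f')⁻¹)) (Tp h⁻¹) =
      mm (fun k l => mm (mm (Tm f) (cK f' h)) (Tm f⁻¹) k l + PiZ k l)
        (fun k l => cK f h k l + PiZ k l) := by
    rw [PowerSeries.mul_inv_rev, ← Tm_mul, ← Tm_mul]
    calc mm (mm (mm (mm (Tm f) (Tm f')) (Tp h)) (mm (Tm f'⁻¹) (Tm f⁻¹))) (Tp h⁻¹)
        = mm (mm (mm (Tm f) (mm (mm (Tm f') (Tp h)) (Tm f'⁻¹))) (Tm f⁻¹)) (Tp h⁻¹) := by
          rw [← mm_assoc (BB_mm (BB_mm hA hA2) hB) hA2' hA', mm_assoc hA hA2 hB,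
            mm_assoc hA (BB_mm hA2 hB) hA2']
      _ = mm (mm (mm (mm (Tm f) (fun k l => cK f' h k l + PiZ k l)) (Tp h)) (Tm f⁻¹)) (Tp h⁻¹) := by
          rw [e1, mm_assoc hA hK2B hB]
      _ = mm (mm (mm (mm (fun k l => mm (mm (Tm f) (cK f' h)) (Tm f⁻¹) k l + PiZ k l) (Tm f))
            (Tp h)) (Tm f⁻¹)) (Tp h⁻¹) := by rw [e2]
      _ = mm (fun k l => mm (mm (Tm f) (cK f' h)) (Tm f⁻¹) k l + PiZ k l)
            (mm (mm (mm (Tm f) (Tp h)) (Tm f⁻¹)) (Tp h⁻¹)) := by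
          rw [mm_assoc hLB hA hB, mm_assoc hLB (BB_mm hA hB) hA',
            mm_assoc hLB (BB_mm (BB_mm hA hB) hA') hB']
      _ = _ := by rw [cK_rel hf hh]
  have e4 : cK (f * f') h = fun k l => mm (mm (Tm f) (cK f' h)) (Tm f⁻¹) k l + cK f h k l +
      mm (mm (mm (Tm f) (cK f' h)) (Tm f⁻¹)) (cK f h) k l := by
    funext k l
    unfold cK
    rw [e3]
    have e2' : mm PiZ PiZ = PiZ := by rw [← Tm_one, Tm_mul, one_mul]
    have hLPi : mm (mm (mm (Tm f) (cK f' h)) (Tm f⁻¹)) PiZ = mm (mm (Tm f) (cK f' h)) (Tm f⁻¹) := by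
      rw [mm_assoc (BB_mm hA hK2.bb) hA' BB_Pi, mm_Tm_PiZ]
    rw [mm_add_left hL.bb BB_Pi hK1B, mm_add_right hL.bb hK.bb BB_Pi, mm_add_right BB_Pi hK.bb BB_Pi,
      e2', hLPi, Pi_cK hf hh]
    change _ = mm (mm (Tm f) (cK f' h)) (Tm f⁻¹) k l + cK f h k l +
      mm (mm (mm (Tm f) (cK f' h)) (Tm f⁻¹)) (cK f h) k l
    ring
  rw [Fc_eq, Fc_eq, Fc_eq, e4, Fdet_mul hL hK, mm_assoc hA hK2.bb hA',
    Fdet_cyc hA (LL_mm_right hK2 hA'), mm_assoc hK2.bb hA' hA, Tm_mul, hf.inv_mul, Tm_one,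
    cK_Pi hf' hh, mul_comm]

theorem Fc_mul_right {f h h' : PowerSeries ℂ} (hf : GoodPS f) (hh : GoodPS h) (hh' : GoodPS h') :
    Fc f (h * h') = Fc f h * Fc f h' := by
  have hA := Tm_BB hf
  have hA' := Tm_BB hf.inv
  have hB := Tp_BB hh
  have hB' := Tp_BB hh.inv
  have hB2 := Tp_BB hh'
  have hB2' := Tp_BB hh'.inv
  have hK := (cK_LL hf hh)
  have hK2 := (cK_LL hf hh')
  have hL : LL (mm (mm (Tp h) (cK f h')) (Tp h⁻¹)) := LL_mm_right (LL_mm_left hB hK2) hB'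
  have hK1B : BB (fun k l => cK f h k l + PiZ k l) := BB_add hK.bb BB_Pi
  have hK2B : BB (fun k l => cK f h' k l + PiZ k l) := BB_add hK2.bb BB_Pi
  have hLB : BB (fun k l => mm (mm (Tp h) (cK f h')) (Tp h⁻¹) k l + PiZ k l) := BB_add hL.bb BB_Pi
  -- A B = (1+K) B A
  have e1 : mm (Tm f) (Tp h) = mm (mm (fun k l => cK f h k l + PiZ k l) (Tp h)) (Tm f) := by
    rw [← cK_rel hf hh, mm_assoc (BB_mm (BB_mm hA hB) hA') hB' hB, Tp_mul, hh.inv_mul, Tp_one,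
      mm_assoc (BB_mm hA hB) hA' BB_Pi, mm_Tm_PiZ, mm_assoc (BB_mm hA hB) hA' hA, Tm_mul,
      hf.inv_mul, Tm_one, mm_assoc hA hB BB_Pi, mm_Tp_PiZ]
  -- A B' A⁻¹ B'⁻¹ = 1 + K'
  have e2 : mm (Tp h) (fun k l => cK f h' k l + PiZ k l) =
      mm (fun k l => mm (mm (Tp h) (cK f h')) (Tp h⁻¹) k l + PiZ k l) (Tp h) := by
    rw [mm_add_right hB hK2.bb BB_Pi, mm_add_left hL.bb BB_Pi hB, mm_Tp_PiZ, mm_PiZ_Tp,
      mm_assoc (BB_mm hB hK2.bb) hB' hB, Tp_mul, hh.inv_mul, Tp_one, mm_assoc hB hK2.bb BB_Pi,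
      cK_Pi hf hh']
  have e3 : mm (mm (mm (Tm f) (Tp (h * h'))) (Tm f⁻¹)) (Tp (h * h')⁻¹) =
      mm (fun k l => cK f h k l + PiZ k l)
        (fun k l => mm (mm (Tp h) (cK f h')) (Tp h⁻¹) k l + PiZ k l) := by
    rw [PowerSeries.mul_inv_rev, ← Tp_mul, ← Tp_mul]
    calc mm (mm (mm (Tm f) (mm (Tp h) (Tp h'))) (Tm f⁻¹)) (mm (Tp h'⁻¹) (Tp h⁻¹))
        = mm (mm (mm (mm (mm (Tm f) (Tp h)) (Tp h')) (Tm f⁻¹)) (Tp h'⁻¹)) (Tp h⁻¹) := by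
          rw [← mm_assoc hA hB hB2,
            ← mm_assoc (BB_mm (BB_mm (BB_mm hA hB) hB2) hA') hB2' hB']
      _ = mm (mm (mm (mm (mm (mm (fun k l => cK f h k l + PiZ k l) (Tp h)) (Tm f)) (Tp h'))
            (Tm f⁻¹)) (Tp h'⁻¹)) (Tp h⁻¹) := by rw [e1]
      _ = mm (mm (mm (fun k l => cK f h k l + PiZ k l) (Tp h))
            (mm (mm (mm (Tm f) (Tp h')) (Tm f⁻¹)) (Tp h'⁻¹))) (Tp h⁻¹) := by
          rw [mm_assoc (BB_mm hK1B hB) hA hB2, mm_assoc (BB_mm hK1B hB) (BB_mm hA hB2) hA',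
            mm_assoc (BB_mm hK1B hB) (BB_mm (BB_mm hA hB2) hA') hB2']
      _ = mm (mm (fun k l => cK f h k l + PiZ k l)
            (mm (Tp h) (fun k l => cK f h' k l + PiZ k l))) (Tp h⁻¹) := by
          rw [cK_rel hf hh', mm_assoc hK1B hB hK2B]
      _ = mm (fun k l => cK f h k l + PiZ k l)
            (mm (mm (fun k l => mm (mm (Tp h) (cK f h')) (Tp h⁻¹) k l + PiZ k l) (Tp h))
              (Tp h⁻¹)) := by
          rw [e2, mm_assoc hK1B (BB_mm hLB hB) hB']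
      _ = _ := by
          rw [mm_assoc hLB hB hB', Tp_mul, hh.mul_inv, Tp_one, mm_add_left hL.bb BB_Pi BB_Pi,
            mm_assoc (BB_mm hB hK2.bb) hB' BB_Pi, mm_Tp_PiZ]
          have e2' : mm PiZ PiZ = PiZ := by rw [← Tm_one, Tm_mul, one_mul]
          rw [e2']
  have e4 : cK f (h * h') = fun k l => cK f h k l + mm (mm (Tp h) (cK f h')) (Tp h⁻¹) k l +
      mm (cK f h) (mm (mm (Tp h) (cK f h')) (Tp h⁻¹)) k l := by
    funext k l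
    unfold cK
    rw [e3]
    have e2' : mm PiZ PiZ = PiZ := by rw [← Tm_one, Tm_mul, one_mul]
    have hPiL : mm PiZ (mm (mm (Tp h) (cK f h')) (Tp h⁻¹)) = mm (mm (Tp h) (cK f h')) (Tp h⁻¹) := by
      rw [← mm_assoc BB_Pi (BB_mm hB hK2.bb) hB', ← mm_assoc BB_Pi hB hK2.bb, mm_PiZ_Tp]
    rw [mm_add_left hK.bb BB_Pi hLB, mm_add_right hK.bb hL.bb BB_Pi, mm_add_right BB_Pi hL.bb BB_Pi,
      e2', hPiL, cK_Pi hf hh]
    change _ = cK f h k l + mm (mm (Tp h) (cK f h')) (Tp h⁻¹) k l +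
      mm (cK f h) (mm (mm (Tp h) (cK f h')) (Tp h⁻¹)) k l
    ring
  rw [Fc_eq, Fc_eq, Fc_eq, e4, Fdet_mul hK hL, mm_assoc hB hK2.bb hB',
    Fdet_cyc hB (LL_mm_right hK2 hB'), mm_assoc hK2.bb hB' hB, Tp_mul, hh.inv_mul, Tp_one,
    cK_Pi hf hh']

theorem ps_one_inv : (1 : PowerSeries ℂ)⁻¹ = 1 := by
  have h1 : PowerSeries.constantCoeff (1 : PowerSeries ℂ) ≠ 0 := by simp
  rw [eq_comm, PowerSeries.eq_inv_iff_mul_eq_one h1, one_mul]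

theorem Fc_one_left {h : PowerSeries ℂ} (hh : GoodPS h) : Fc 1 h = 1 := by
  rw [Fc_eq, ← Fdet_zero]
  congr 1
  funext k l
  unfold cK
  rw [ps_one_inv, Tm_one, mm_PiZ_Tp, mm_Tp_PiZ, Tp_mul, hh.mul_inv, Tp_one, sub_self]

theorem Fc_one_right {f : PowerSeries ℂ} (hf : GoodPS f) : Fc f 1 = 1 := by
  rw [Fc_eq, ← Fdet_zero]
  congr 1
  funext k l
  unfold cK
  rw [ps_one_inv, Tp_one, mm_Tm_PiZ, Tm_mul, hf.mul_inv, Tm_one]
  have e2' : mm PiZ PiZ = PiZ := by rw [← Tm_one, Tm_mul, one_mul]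
  rw [e2', sub_self]

end

end IsingS2
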