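import Pool.Agent.Helper98.IS.Defs2
import Pool.Agent.Helper98.IS.Band

/-!
# Semi infinite Toeplitz matrices of power series (first part of IS-38)
-/

namespace IsingS2

open Complex Set MeasureTheory Filter Topology
open scoped Real Matrix

noncomputable section

theorem comm_Tm_BB_of {f : PowerSeries ℂ}
    (h : ∃ C q : ℝ, 0 ≤ C ∧ 0 < q ∧ q < 1 ∧ ∀ n, ‖PowerSeries.coeff n f‖ ≤ C * q ^ n) :
    BB (Tm f) := by
  obtain ⟨C, q, hC, hq, hq1, hb⟩ := h
  refine ⟨C, q, hC, hq, hq1, fun k l => ?_⟩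
  unfold Tm
  split_ifs with hkl
  · refine (hb _).trans (le_of_eq ?_)
    congr 2
    omega
  · rw [norm_zero]; positivity

theorem comm_Tp_BB_of {f : PowerSeries ℂ}
    (h : ∃ C q : ℝ, 0 ≤ C ∧ 0 < q ∧ q < 1 ∧ ∀ n, ‖PowerSeries.coeff n f‖ ≤ C * q ^ n) :
    BB (Tp f) := by
  obtain ⟨C, q, hC, hq, hq1, hb⟩ := h
  refine ⟨C, q, hC, hq, hq1, fun k l => ?_⟩
  unfold Tp
  split_ifs with hkl
  · refine (hb _).trans (le_of_eq ?_)
    congr 2
    omega
  · rw [norm_zero]; positivity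

theorem comm_dec_of_BB {f : PowerSeries ℂ} (h : BB (Tm f)) :
    ∃ C q : ℝ, 0 ≤ C ∧ 0 < q ∧ q < 1 ∧ ∀ n, ‖PowerSeries.coeff n f‖ ≤ C * q ^ n := by
  obtain ⟨C, q, hC, hq, hq1, hb⟩ := h
  refine ⟨C, q, hC, hq, hq1, fun n => ?_⟩
  have h1 := hb 0 n
  unfold Tm at h1
  rw [if_pos ⟨le_rfl, Int.natCast_nonneg n⟩] at h1
  simpa using h1

theorem comm_sum (f g : PowerSeries ℂ) (k l : ℤ) (hkl : k ≤ l) :
    ∑ i ∈ Finset.Icc k l, PowerSeries.coeff (i - k).toNat f * PowerSeries.coeff (l - i).toNat g =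
      PowerSeries.coeff (l - k).toNat (f * g) := by
  rw [PowerSeries.coeff_mul]
  refine Finset.sum_bij' (fun i _ => ((i - k).toNat, (l - i).toNat)) (fun p _ => k + p.1)
    ?_ ?_ ?_ ?_ ?_
  · intro i hi
    rw [Finset.mem_Icc] at hi
    rw [Finset.HasAntidiagonal.mem_antidiagonal]
    omega
  · intro p hp
    rw [Finset.HasAntidiagonal.mem_antidiagonal] at hp
    rw [Finset.mem_Icc]
    omega
  · intro i hi
    rw [Finset.mem_Icc] at hi
    simp only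
    omega
  · intro p hp
    rw [Finset.HasAntidiagonal.mem_antidiagonal] at hp
    ext <;> simp only <;> omega
  · intro i _
    rfl

theorem Tm_mul (f g : PowerSeries ℂ) : mm (Tm f) (Tm g) = Tm (f * g) := by
  funext k l
  unfold mm
  rw [tsum_eq_sum (s := Finset.Icc k l)]
  · by_cases h : 0 ≤ k ∧ k ≤ l
    · have h1 : Tm (f * g) k l = PowerSeries.coeff (l - k).toNat (f * g) := by
        unfold Tm; rw [if_pos h]
      rw [h1, ← comm_sum f g k l h.2]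
      refine Finset.sum_congr rfl fun i hi => ?_
      rw [Finset.mem_Icc] at hi
      unfold Tm
      rw [if_pos ⟨h.1, hi.1⟩, if_pos ⟨by omega, hi.2⟩]
    · have h1 : Tm (f * g) k l = 0 := by unfold Tm; rw [if_neg h]
      rw [h1]
      refine Finset.sum_eq_zero fun i hi => ?_
      rw [Finset.mem_Icc] at hi
      unfold Tm
      by_cases h2 : 0 ≤ k
      · exfalso
        exact h ⟨h2, by omega⟩
      · rw [if_neg (fun h3 => h2 h3.1), zero_mul]
  · intro i hi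
    rw [Finset.mem_Icc] at hi
    unfold Tm
    by_cases h1 : 0 ≤ k ∧ k ≤ i
    · rw [if_neg (fun h3 => hi ⟨h1.2, h3.2⟩ : ¬ (0 ≤ i ∧ i ≤ l)), mul_zero]
    · rw [if_neg h1, zero_mul]

theorem Tp_mul (f g : PowerSeries ℂ) : mm (Tp f) (Tp g) = Tp (f * g) := by
  funext k l
  unfold mm
  rw [tsum_eq_sum (s := Finset.Icc l k)]
  · by_cases h : 0 ≤ l ∧ l ≤ k
    · have h1 : Tp (f * g) k l = PowerSeries.coeff (k - l).toNat (g * f) := by
        unfold Tp; rw [if_pos h, mul_comm]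
      rw [h1, ← comm_sum g f l k h.2]
      refine Finset.sum_congr rfl fun i hi => ?_
      rw [Finset.mem_Icc] at hi
      unfold Tp
      rw [if_pos ⟨by omega, hi.2⟩, if_pos ⟨h.1, hi.1⟩, mul_comm]
    · have h1 : Tp (f * g) k l = 0 := by unfold Tp; rw [if_neg h]
      rw [h1]
      refine Finset.sum_eq_zero fun i hi => ?_
      rw [Finset.mem_Icc] at hi
      unfold Tp
      by_cases h2 : 0 ≤ l
      · exfalso
        exact h ⟨h2, by omega⟩
      · rw [if_neg (fun h3 => h2 h3.1 : ¬ (0 ≤ l ∧ l ≤ i)), mul_zero]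
  · intro i hi
    rw [Finset.mem_Icc] at hi
    unfold Tp
    by_cases h1 : 0 ≤ l ∧ l ≤ i
    · rw [if_neg (fun h3 => hi ⟨h1.2, h3.2⟩ : ¬ (0 ≤ i ∧ i ≤ k)), zero_mul]
    · rw [if_neg h1, mul_zero]

theorem Tm_one : Tm 1 = PiZ := by
  funext k l
  unfold Tm PiZ
  rw [PowerSeries.coeff_one]
  by_cases h : k = l ∧ 0 ≤ k
  · rw [if_pos h, if_pos ⟨h.2, h.1.le⟩, if_pos (by omega)]
  · rw [if_neg h]
    by_cases h1 : 0 ≤ k ∧ k ≤ l
    · rw [if_pos h1, if_neg (by omega)]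
    · rw [if_neg h1]

theorem Tp_one : Tp 1 = PiZ := by
  funext k l
  unfold Tp PiZ
  rw [PowerSeries.coeff_one]
  by_cases h : k = l ∧ 0 ≤ k
  · rw [if_pos h, if_pos (by omega), if_pos (by omega)]
  · rw [if_neg h]
    by_cases h1 : 0 ≤ l ∧ l ≤ k
    · rw [if_pos h1, if_neg (by omega)]
    · rw [if_neg h1]

theorem Tm_BB {f : PowerSeries ℂ} (hf : GoodPS f) : BB (Tm f) := comm_Tm_BB_of hf.dec
theorem Tp_BB {f : PowerSeries ℂ} (hf : GoodPS f) : BB (Tp f) := comm_Tp_BB_of hf.dec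

theorem GoodPS.cc {f : PowerSeries ℂ} (hf : GoodPS f) : PowerSeries.constantCoeff f = 1 := by
  rw [← PowerSeries.coeff_zero_eq_constantCoeff_apply]; exact hf.one

theorem GoodPS.mul_inv {f : PowerSeries ℂ} (hf : GoodPS f) : f * f⁻¹ = 1 :=
  PowerSeries.mul_inv_cancel f (by rw [hf.cc]; exact one_ne_zero)

theorem GoodPS.inv_mul {f : PowerSeries ℂ} (hf : GoodPS f) : f⁻¹ * f = 1 :=
  PowerSeries.inv_mul_cancel f (by rw [hf.cc]; exact one_ne_zero)

theorem GoodPS.inv_inv {f : PowerSeries ℂ} (hf : GoodPS f) : f⁻¹⁻¹ = f := by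
  have h1 : PowerSeries.constantCoeff f⁻¹ ≠ 0 := by
    rw [PowerSeries.constantCoeff_inv, hf.cc]; simp
  rw [eq_comm, PowerSeries.eq_inv_iff_mul_eq_one h1]
  exact hf.mul_inv

theorem GoodPS.mul {f g : PowerSeries ℂ} (hf : GoodPS f) (hg : GoodPS g) : GoodPS (f * g) := by
  refine ⟨?_, ?_, ?_⟩
  · rw [PowerSeries.coeff_zero_eq_constantCoeff_apply, map_mul, hf.cc, hg.cc, one_mul]
  · apply comm_dec_of_BB
    rw [← Tm_mul]
    exact BB_mm (comm_Tm_BB_of hf.dec) (comm_Tm_BB_of hg.dec)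
  · apply comm_dec_of_BB
    rw [PowerSeries.mul_inv_rev, ← Tm_mul]
    exact BB_mm (comm_Tm_BB_of hg.dec') (comm_Tm_BB_of hf.dec')

theorem GoodPS.inv {f : PowerSeries ℂ} (hf : GoodPS f) : GoodPS f⁻¹ := by
  refine ⟨?_, hf.dec', ?_⟩
  · rw [PowerSeries.coeff_zero_eq_constantCoeff_apply, PowerSeries.constantCoeff_inv, hf.cc, inv_one]
  · rw [hf.inv_inv]; exact hf.dec

end

end IsingS2
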