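import Pool.Agent.Helper98.IS.CommA

/-!
# Commutators of upper and lower triangular Toeplitz matrices (second part of IS-38)
-/

namespace IsingS2

open Complex Set MeasureTheory Filter Topology
open scoped Real Matrix

noncomputable section

/-- extended coefficients -/
def cfe (f : PowerSeries ℂ) (n : ℤ) : ℂ := if 0 ≤ n then PowerSeries.coeff n.toNat f else 0

theorem cfe_bound {f : PowerSeries ℂ} {C q : ℝ} (hC : 0 ≤ C) (hq : 0 < q)
    (h : ∀ n, ‖PowerSeries.coeff n f‖ ≤ C * q ^ n) (n : ℤ) : ‖cfe f n‖ ≤ C * q ^ n.natAbs := by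
  unfold cfe
  split_ifs with hn
  · refine (h _).trans (le_of_eq ?_)
    congr 2
    omega
  · rw [norm_zero]; positivity

theorem mm_PiZ_Tp (h : PowerSeries ℂ) : mm PiZ (Tp h) = Tp h := by
  rw [← Tp_one, Tp_mul, one_mul]
theorem mm_Tp_PiZ (h : PowerSeries ℂ) : mm (Tp h) PiZ = Tp h := by
  rw [← Tp_one, Tp_mul, mul_one]
theorem mm_PiZ_Tm (h : PowerSeries ℂ) : mm PiZ (Tm h) = Tm h := by
  rw [← Tm_one, Tm_mul, one_mul]
theorem mm_Tm_PiZ (h : PowerSeries ℂ) : mm (Tm h) PiZ = Tm h := by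
  rw [← Tm_one, Tm_mul, mul_one]

theorem comm_formula {f h : PowerSeries ℂ} (hf : GoodPS f) (hh : GoodPS h) (k l : ℤ) :
    mm (Tm f) (Tp h) k l - mm (Tp h) (Tm f) k l =
      if 0 ≤ k ∧ 0 ≤ l then ∑' i : ℤ, (if i < 0 then cfe h (k - i) * cfe f (l - i) else 0) else 0 := by
  split_ifs with hkl
  · obtain ⟨hk, hl⟩ := hkl
    have s1 := mm_summable (Tm_BB hf) (Tp_BB hh) k l
    have s2 := mm_summable (Tp_BB hh) (Tm_BB hf) k l
    have e1 : ∀ i : ℤ, Tm f k i * Tp h i l = cfe f (i - k) * cfe h (i - l) := by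
      intro i
      unfold Tm Tp cfe
      by_cases h1 : k ≤ i
      · by_cases h2 : l ≤ i
        · rw [if_pos ⟨hk, h1⟩, if_pos ⟨hl, h2⟩, if_pos (by omega), if_pos (by omega)]
        · rw [if_neg (fun h3 => h2 h3.2 : ¬ (0 ≤ l ∧ l ≤ i)), if_neg (by omega : ¬ 0 ≤ i - l),
            mul_zero, mul_zero]
      · rw [if_neg (fun h3 => h1 h3.2 : ¬ (0 ≤ k ∧ k ≤ i)), if_neg (by omega : ¬ 0 ≤ i - k),
            zero_mul, zero_mul]
    have e2 : ∀ i : ℤ, Tp h k i * Tm f i l =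
        if i < 0 then 0 else cfe h (k - i) * cfe f (l - i) := by
      intro i
      unfold Tm Tp cfe
      by_cases h0 : i < 0
      · rw [if_pos h0, if_neg (by omega : ¬ (0 ≤ i ∧ i ≤ k)), zero_mul]
      · rw [if_neg h0]
        by_cases h1 : i ≤ k
        · rw [if_pos ⟨by omega, h1⟩, if_pos (by omega : 0 ≤ k - i)]
          by_cases h2 : i ≤ l
          · rw [if_pos ⟨by omega, h2⟩, if_pos (by omega : 0 ≤ l - i)]
          · rw [if_neg (by omega : ¬ (0 ≤ i ∧ i ≤ l)), if_neg (by omega : ¬ 0 ≤ l - i)]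
        · rw [if_neg (by omega : ¬ (0 ≤ i ∧ i ≤ k)), if_neg (by omega : ¬ 0 ≤ k - i),
            zero_mul, zero_mul]
    simp only [e1] at s1
    simp only [e2] at s2
    have r1 : mm (Tm f) (Tp h) k l = ∑' i : ℤ, cfe h (k - i) * cfe f (l - i) := by
      unfold mm
      simp only [e1]
      rw [← (Equiv.subLeft (k + l)).tsum_eq]
      refine tsum_congr fun i => ?_
      simp only [Equiv.subLeft_apply]
      rw [mul_comm]
      congr 2 <;> ring
    have s1' : Summable fun i : ℤ => cfe h (k - i) * cfe f (l - i) := by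
      have := (Equiv.subLeft (k + l)).summable_iff.2 s1
      refine this.congr fun i => ?_
      simp only [Function.comp_apply, Equiv.subLeft_apply]
      rw [mul_comm]
      congr 2 <;> ring
    have r2 : mm (Tp h) (Tm f) k l =
        ∑' i : ℤ, (if i < 0 then 0 else cfe h (k - i) * cfe f (l - i)) := by
      unfold mm
      simp only [e2]
    rw [r1, r2, ← s1'.tsum_sub s2]
    refine tsum_congr fun i => ?_
    split_ifs <;> ring
  · have a1 : mm (Tm f) (Tp h) k l = 0 := by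
      unfold mm
      rw [← tsum_zero (α := ℂ) (β := ℤ)]
      refine tsum_congr fun i => ?_
      unfold Tm Tp
      by_cases hk : 0 ≤ k
      · rw [if_neg (fun h3 => hkl ⟨hk, h3.1⟩ : ¬ (0 ≤ l ∧ l ≤ i)), mul_zero]
      · rw [if_neg (fun h3 => hk h3.1 : ¬ (0 ≤ k ∧ k ≤ i)), zero_mul]
    have a2 : mm (Tp h) (Tm f) k l = 0 := by
      unfold mm
      rw [← tsum_zero (α := ℂ) (β := ℤ)]
      refine tsum_congr fun i => ?_
      unfold Tm Tp
      by_cases h1 : 0 ≤ i ∧ i ≤ k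
      · rw [if_neg (fun h3 => hkl ⟨by omega, by omega⟩ : ¬ (0 ≤ i ∧ i ≤ l)), mul_zero]
      · rw [if_neg h1, zero_mul]
    rw [a1, a2, sub_zero]

theorem comm_sub_LL {f h : PowerSeries ℂ} (hf : GoodPS f) (hh : GoodPS h) :
    LL fun k l => mm (Tm f) (Tp h) k l - mm (Tp h) (Tm f) k l := by
  obtain ⟨C1, q1, hC1, hq1, hq1', hb1⟩ := hf.dec
  obtain ⟨C2, q2, hC2, hq2, hq2', hb2⟩ := hh.dec
  set q := max q1 q2 with hq
  have hq0 : 0 < q := lt_max_of_lt_left hq1
  have hqlt : q < 1 := max_lt hq1' hq2'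
  have hsum := band_summable_pow hq0.le hqlt
  refine ⟨C2 * C1 * ∑' i : ℤ, q ^ i.natAbs, q, ?_, hq0, hqlt, fun k l => ?_⟩
  · exact mul_nonneg (mul_nonneg hC2 hC1) (band_S_nonneg hq0.le)
  · simp only
    rw [comm_formula hf hh]
    split_ifs with hkl
    · have hg : HasSum (fun i : ℤ => (C2 * C1 * q ^ (k.natAbs + l.natAbs)) * q ^ i.natAbs)
          ((C2 * C1 * q ^ (k.natAbs + l.natAbs)) * ∑' i : ℤ, q ^ i.natAbs) := hsum.hasSum.mul_left _
      refine (tsum_of_norm_bounded hg fun i => ?_).trans (le_of_eq (by ring))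
      split_ifs with hi
      · rw [norm_mul]
        have b1 := cfe_bound hC1 hq1 hb1 (l - i)
        have b2 := cfe_bound hC2 hq2 hb2 (k - i)
        have c1 : C1 * q1 ^ (l - i).natAbs ≤ C1 * q ^ (l - i).natAbs :=
          mul_le_mul_of_nonneg_left (pow_le_pow_left₀ hq1.le (le_max_left _ _) _) hC1
        have c2 : C2 * q2 ^ (k - i).natAbs ≤ C2 * q ^ (k - i).natAbs :=
          mul_le_mul_of_nonneg_left (pow_le_pow_left₀ hq2.le (le_max_right _ _) _) hC2
        calc ‖cfe h (k - i)‖ * ‖cfe f (l - i)‖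
            ≤ (C2 * q ^ (k - i).natAbs) * (C1 * q ^ (l - i).natAbs) :=
              mul_le_mul (b2.trans c2) (b1.trans c1) (norm_nonneg _) (by positivity)
          _ = C2 * C1 * (q ^ (k.natAbs + l.natAbs + i.natAbs) * q ^ i.natAbs) := by
              have h1 : (k - i).natAbs = k.natAbs + i.natAbs := by omega
              have h2 : (l - i).natAbs = l.natAbs + i.natAbs := by omega
              rw [h1, h2, pow_add, pow_add, pow_add, pow_add]
              ring
          _ ≤ C2 * C1 * (q ^ (k.natAbs + l.natAbs) * q ^ i.natAbs) := by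
              refine mul_le_mul_of_nonneg_left ?_ (mul_nonneg hC2 hC1)
              refine mul_le_mul_of_nonneg_right ?_ (by positivity)
              exact pow_le_pow_of_le_one hq0.le hqlt.le (by omega)
          _ = C2 * C1 * q ^ (k.natAbs + l.natAbs) * q ^ i.natAbs := by ring
      · rw [norm_zero]; positivity
    · rw [norm_zero]
      exact mul_nonneg (mul_nonneg (mul_nonneg hC2 hC1) (band_S_nonneg hq0.le)) (by positivity)

theorem comm_rewrite {f h : PowerSeries ℂ} (hf : GoodPS f) (hh : GoodPS h) (k l : ℤ) :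
    mm (mm (mm (Tm f) (Tp h)) (Tm f⁻¹)) (Tp h⁻¹) k l - PiZ k l =
      mm (mm (fun k l => mm (Tm f) (Tp h) k l - mm (Tp h) (Tm f) k l) (Tm f⁻¹)) (Tp h⁻¹) k l := by
  set D : ℤ → ℤ → ℂ := fun k l => mm (Tm f) (Tp h) k l - mm (Tp h) (Tm f) k l with hD
  have hDB : BB D := (comm_sub_LL hf hh).bb
  have hA := Tm_BB hf
  have hB := Tp_BB hh
  have hA' := Tm_BB hf.inv
  have hB' := Tp_BB hh.inv
  have e1 : mm (Tm f) (Tp h) = fun k l => D k l + mm (Tp h) (Tm f) k l := by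
    funext k l; simp only [hD]; ring
  have e2 : mm (mm (Tp h) (Tm f)) (Tm f⁻¹) = Tp h := by
    rw [mm_assoc hB hA hA', Tm_mul, hf.mul_inv, Tm_one, mm_Tp_PiZ]
  have e3 : mm (mm (Tm f) (Tp h)) (Tm f⁻¹) = fun k l => mm D (Tm f⁻¹) k l + Tp h k l := by
    rw [e1, mm_add_left hDB (BB_mm hB hA) hA', e2]
  have e4 : mm (mm (mm (Tm f) (Tp h)) (Tm f⁻¹)) (Tp h⁻¹) =
      fun k l => mm (mm D (Tm f⁻¹)) (Tp h⁻¹) k l + PiZ k l := by
    rw [e3, mm_add_left (BB_mm hDB hA') hB hB', Tp_mul, hh.mul_inv, Tp_one]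
  rw [e4]
  ring

theorem comm_LL {f h : PowerSeries ℂ} (hf : GoodPS f) (hh : GoodPS h) :
    LL fun k l => mm (mm (mm (Tm f) (Tp h)) (Tm f⁻¹)) (Tp h⁻¹) k l - PiZ k l := by
  have h1 : (fun k l => mm (mm (mm (Tm f) (Tp h)) (Tm f⁻¹)) (Tp h⁻¹) k l - PiZ k l) =
      mm (mm (fun k l => mm (Tm f) (Tp h) k l - mm (Tp h) (Tm f) k l) (Tm f⁻¹)) (Tp h⁻¹) := by
    funext k l
    exact comm_rewrite hf hh k l
  rw [h1]
  exact LL_mm_right (LL_mm_right (comm_sub_LL hf hh) (Tm_BB hf.inv)) (Tp_BB hh.inv)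

end

end IsingS2
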