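import Pool.Agent.Helper98.IS.Symbols
import Pool.Agent.Helper98.IS.Coupling

/-!
# IS-23b: the symbols on the unit circle, the factors of `bx`
-/

namespace IsingS2

open Complex Set MeasureTheory Filter Topology IsingNB
open scoped Real Matrix

noncomputable section

theorem one_sub_re_pos {α : ℝ} (hα : 0 < α) {x : ℂ} (hx : ‖x‖ < α⁻¹) :
    0 < (1 - (α : ℂ) * x).re := by
  have h1 : (1 - (α : ℂ) * x).re = 1 - α * x.re := by
    rw [Complex.sub_re, Complex.one_re, Complex.re_ofReal_mul]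
  rw [h1]
  have h2 : α * x.re ≤ α * ‖x‖ := mul_le_mul_of_nonneg_left (Complex.re_le_norm x) hα.le
  have h3 : α * ‖x‖ < 1 := by
    calc α * ‖x‖ < α * α⁻¹ := mul_lt_mul_of_pos_left hx hα
      _ = 1 := mul_inv_cancel₀ hα.ne'
  linarith

theorem div_mem_slitPlane {a b : ℂ} (ha : 0 < a.re) (hb : 0 < b.re) : a / b ∈ Complex.slitPlane := by
  by_contra h
  rw [Complex.mem_slitPlane_iff] at h
  push Not at h
  have hb0 : b ≠ 0 := by
    intro h0
    rw [h0] at hb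
    simp at hb
  have h1 : a = (((a / b).re : ℝ) : ℂ) * b := by
    have h2 : a / b = (((a / b).re : ℝ) : ℂ) := by
      apply Complex.ext
      · simp
      · simp [h.2]
    rw [← h2]
    field_simp
  have h3 : a.re = (a / b).re * b.re := by
    nth_rw 1 [h1]
    rw [Complex.re_ofReal_mul]
  nlinarith [h.1]

theorem al1_lt_one {v : ℝ} (hv : 1 < v) : al1 v < 1 := lt_trans (al1_lt hv) (al2_lt_one hv)

theorem al2_pos {v : ℝ} (hv : 1 < v) : 0 < al2 v :=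
  lt_trans (al1_pos (by linarith)) (al1_lt hv)

theorem bp_base_mem {v : ℝ} (hv : 1 < v) {x : ℂ} (hx : ‖x‖ < (al2 v)⁻¹) :
    (1 - (al1 v : ℂ) * x) / (1 - (al2 v : ℂ) * x) ∈ Complex.slitPlane := by
  apply div_mem_slitPlane
  · apply one_sub_re_pos (al1_pos (by linarith))
    refine lt_trans hx ?_
    exact inv_strictAnti₀ (al1_pos (by linarith)) (al1_lt hv)
  · exact one_sub_re_pos (al2_pos hv) hx

theorem one_sub_al2_ne {v : ℝ} (hv : 1 < v) {x : ℂ} (hx : ‖x‖ < (al2 v)⁻¹) :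
    1 - (al2 v : ℂ) * x ≠ 0 := by
  intro h
  have := one_sub_re_pos (al2_pos hv) hx
  rw [h] at this
  simp at this

theorem one_sub_al1_ne {v : ℝ} (hv : 1 < v) {x : ℂ} (hx : ‖x‖ < (al2 v)⁻¹) :
    1 - (al1 v : ℂ) * x ≠ 0 := by
  intro h
  have hx' : ‖x‖ < (al1 v)⁻¹ :=
    lt_trans hx (inv_strictAnti₀ (al1_pos (by linarith)) (al1_lt hv))
  have := one_sub_re_pos (al1_pos (by linarith)) hx'
  rw [h] at this
  simp at this

theorem bp_ne_of_lt {v : ℝ} (hv : 1 < v) {x : ℂ} (hx : ‖x‖ < (al2 v)⁻¹) : bp v x ≠ 0 := by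
  unfold bp
  rw [Complex.cpow_ne_zero_iff]
  left
  exact Complex.slitPlane_ne_zero (bp_base_mem hv hx)

theorem bp_differentiableAt {v : ℝ} (hv : 1 < v) {x : ℂ} (hx : ‖x‖ < (al2 v)⁻¹) :
    DifferentiableAt ℂ (bp v) x := by
  have h1 : DifferentiableAt ℂ (fun x : ℂ => (1 - (al1 v : ℂ) * x) / (1 - (al2 v : ℂ) * x)) x := by
    apply DifferentiableAt.div
    · exact (differentiableAt_id.const_mul _).const_sub _
    · exact (differentiableAt_id.const_mul _).const_sub _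
    · exact one_sub_al2_ne hv hx
  exact h1.cpow (differentiableAt_const _) (bp_base_mem hv hx)

theorem one_lt_inv_al2 {v : ℝ} (hv : 1 < v) : 1 < (al2 v)⁻¹ :=
  (one_lt_inv₀ (al2_pos hv)).mpr (al2_lt_one hv)

theorem bp_disc {v : ℝ} (hv : 1 < v) : ∃ r > 1, DifferentiableOn ℂ (bp v) (Metric.ball 0 r) ∧
    DifferentiableOn ℂ (fun x => (bp v x)⁻¹) (Metric.ball 0 r) := by
  refine ⟨(al2 v)⁻¹, one_lt_inv_al2 hv, ?_, ?_⟩
  · intro x hx
    rw [mem_ball_zero_iff] at hx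
    exact (bp_differentiableAt hv hx).differentiableWithinAt
  · intro x hx
    rw [mem_ball_zero_iff] at hx
    exact ((bp_differentiableAt hv hx).inv (bp_ne_of_lt hv hx)).differentiableWithinAt

theorem bp_ann {v : ℝ} (hv : 1 < v) : Ann (bp v) := by
  refine ⟨al2 v, al2_pos hv, al2_lt_one hv, ?_⟩
  rintro x ⟨_, hx⟩
  exact (bp_differentiableAt hv hx).differentiableWithinAt

theorem bp_inv_ann {v : ℝ} (hv : 1 < v) : Ann fun x => (bp v x)⁻¹ := by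
  refine ⟨al2 v, al2_pos hv, al2_lt_one hv, ?_⟩
  rintro x ⟨_, hx⟩
  exact ((bp_differentiableAt hv hx).inv (bp_ne_of_lt hv hx)).differentiableWithinAt

theorem bp_comp_inv_differentiableAt {v : ℝ} (hv : 1 < v) {x : ℂ} (hx : al2 v < ‖x‖) :
    DifferentiableAt ℂ (fun x => bp v x⁻¹) x := by
  have hx0 : x ≠ 0 := norm_pos_iff.mp (lt_trans (al2_pos hv) hx)
  have h1 : ‖x⁻¹‖ < (al2 v)⁻¹ := by
    rw [norm_inv]
    exact inv_strictAnti₀ (al2_pos hv) hx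
  exact DifferentiableAt.comp (g := bp v) x (bp_differentiableAt hv h1) (differentiableAt_inv hx0)

theorem bq_inv_eq (v : ℝ) : (fun x => (bq v x)⁻¹) = fun x => bp v x⁻¹ := by
  funext x
  unfold bq
  rw [inv_inv]

theorem bq_ann {v : ℝ} (hv : 1 < v) : Ann (bq v) := by
  refine ⟨al2 v, al2_pos hv, al2_lt_one hv, ?_⟩
  rintro x ⟨hx, _⟩
  have h1 : ‖x⁻¹‖ < (al2 v)⁻¹ := by
    rw [norm_inv]
    exact inv_strictAnti₀ (al2_pos hv) hx
  exact ((bp_comp_inv_differentiableAt hv hx).inv (bp_ne_of_lt hv h1)).differentiableWithinAt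

theorem bq_inv_ann {v : ℝ} (hv : 1 < v) : Ann fun x => (bq v x)⁻¹ := by
  rw [bq_inv_eq]
  refine ⟨al2 v, al2_pos hv, al2_lt_one hv, ?_⟩
  rintro x ⟨hx, _⟩
  exact (bp_comp_inv_differentiableAt hv hx).differentiableWithinAt

theorem norm_lt_of_one {v : ℝ} (hv : 1 < v) {x : ℂ} (hx : ‖x‖ = 1) : ‖x‖ < (al2 v)⁻¹ := by
  rw [hx]
  exact one_lt_inv_al2 hv

theorem bp_ne {v : ℝ} (hv : 1 < v) {x : ℂ} (hx : ‖x‖ = 1) : bp v x ≠ 0 :=
  bp_ne_of_lt hv (norm_lt_of_one hv hx)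

theorem bp_sq {v : ℝ} (x : ℂ) :
    bp v x ^ 2 = (1 - (al1 v : ℂ) * x) / (1 - (al2 v : ℂ) * x) := by
  unfold bp
  rw [← Complex.cpow_nat_mul]
  norm_num

theorem inv_eq_conj_of_norm_one {x : ℂ} (hx : ‖x‖ = 1) : x⁻¹ = (starRingEnd ℂ) x := by
  rw [Complex.inv_def, Complex.normSq_eq_norm_sq, hx]
  simp

theorem bp_inv_eq_conj {v : ℝ} (hv : 1 < v) {x : ℂ} (hx : ‖x‖ = 1) :
    bp v x⁻¹ = (starRingEnd ℂ) (bp v x) := by
  rw [inv_eq_conj_of_norm_one hx]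
  unfold bp
  have h := bp_base_mem hv (norm_lt_of_one hv hx)
  have harg : ((1 - (al1 v : ℂ) * x) / (1 - (al2 v : ℂ) * x)).arg ≠ π :=
    Complex.slitPlane_arg_ne_pi h
  have h1 : (1 - (al1 v : ℂ) * (starRingEnd ℂ) x) / (1 - (al2 v : ℂ) * (starRingEnd ℂ) x) =
      (starRingEnd ℂ) ((1 - (al1 v : ℂ) * x) / (1 - (al2 v : ℂ) * x)) := by
    simp [map_div₀]
  have h2 : (starRingEnd ℂ) (1 / 2 : ℂ) = 1 / 2 := by
    have h3 : (1 / 2 : ℂ) = ((1 / 2 : ℝ) : ℂ) := by push_cast; rfl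
    rw [h3, Complex.conj_ofReal]
  rw [h1, Complex.conj_cpow _ _ harg, h2]

theorem exists_ex {x : ℂ} (hx : ‖x‖ = 1) : ∃ φ : ℝ, x = ex φ := by
  refine ⟨x.arg, ?_⟩
  have := Complex.norm_mul_exp_arg_mul_I x
  rw [hx, Complex.ofReal_one, one_mul] at this
  unfold ex
  rw [mul_comm]
  exact this.symm

/-- products over the unit circle, first factor -/
theorem al1_prod {v : ℝ} (hv : 1 < v) {x : ℂ} (hx : ‖x‖ = 1) :
    (1 - (al1 v : ℂ) * x) * (1 - al1 v * x⁻¹) * ww (cc v) x =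
      al1 v * (1 + ww (cc v) x) ^ 2 := by
  have h0 : 0 < v := by linarith
  have hx0 := ne_zero_of_norm_one hx
  have hc := cc_gt_two hv
  have hr := ww_rel hc hx
  have hw := ww_ne hc hx
  have h1 : ((al1 v : ℝ) : ℂ) ≠ 0 := by exact_mod_cast (al1_pos h0).ne'
  have h2 : ((al1 v : ℂ) + 1 / al1 v) / 2 = cc v + 1 := by exact_mod_cast cc_add_one hv
  have h3 : 1 + (al1 v : ℂ) ^ 2 = 2 * al1 v * (cc v + 1) := by
    rw [← h2]
    field_simp
    ring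
  have h4 : (ww (cc v) x) * (x + x⁻¹) = 2 * cc v * ww (cc v) x - ww (cc v) x ^ 2 - 1 := by
    have h5 : x + x⁻¹ = 2 * cc v - ww (cc v) x - (ww (cc v) x)⁻¹ := by
      rw [← hr]; ring
    rw [h5]
    field_simp
  have h6 : (1 - (al1 v : ℂ) * x) * (1 - al1 v * x⁻¹) =
      (1 + (al1 v : ℂ) ^ 2) - al1 v * (x + x⁻¹) := by
    field_simp
    ring
  rw [h6, h3]
  linear_combination (-(al1 v : ℂ)) * h4

/-- products over the unit circle, second factor -/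
theorem al2_prod {v : ℝ} (hv : 1 < v) {x : ℂ} (hx : ‖x‖ = 1) :
    (1 - (al2 v : ℂ) * x) * (1 - al2 v * x⁻¹) * ww (cc v) x =
      al2 v * (1 - ww (cc v) x) ^ 2 := by
  have hx0 := ne_zero_of_norm_one hx
  have hc := cc_gt_two hv
  have hr := ww_rel hc hx
  have hw := ww_ne hc hx
  have h1 : ((al2 v : ℝ) : ℂ) ≠ 0 := by exact_mod_cast (al2_pos hv).ne'
  have h2 : ((al2 v : ℂ) + 1 / al2 v) / 2 = cc v - 1 := by exact_mod_cast cc_sub_one hv
  have h3 : 1 + (al2 v : ℂ) ^ 2 = 2 * al2 v * (cc v - 1) := by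
    rw [← h2]
    field_simp
    ring
  have h4 : (ww (cc v) x) * (x + x⁻¹) = 2 * cc v * ww (cc v) x - ww (cc v) x ^ 2 - 1 := by
    have h5 : x + x⁻¹ = 2 * cc v - ww (cc v) x - (ww (cc v) x)⁻¹ := by
      rw [← hr]; ring
    rw [h5]
    field_simp
  have h6 : (1 - (al2 v : ℂ) * x) * (1 - al2 v * x⁻¹) =
      (1 + (al2 v : ℂ) ^ 2) - al2 v * (x + x⁻¹) := by
    field_simp
    ring
  rw [h6, h3]
  linear_combination (-(al2 v : ℂ)) * h4

theorem one_sub_ww_ne {c : ℝ} (hc : 2 < c) {x : ℂ} (hx : ‖x‖ = 1) : 1 - ww c x ≠ 0 := by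
  intro h
  have h1 := ww_lt hc hx
  rw [← sub_eq_zero.mp h, norm_one] at h1
  exact lt_irrefl _ h1

theorem one_add_ww_ne {c : ℝ} (hc : 2 < c) {x : ℂ} (hx : ‖x‖ = 1) : 1 + ww c x ≠ 0 := by
  intro h
  have h1 := ww_lt hc hx
  rw [← neg_eq_of_add_eq_zero_right h, norm_neg, norm_one] at h1
  exact lt_irrefl _ h1

/-- `b₊(x) b₊(1/x) = t (1 + w) / (1 - w)` -/
theorem bp_mul_bp_inv {v : ℝ} (hv : 1 < v) {x : ℂ} (hx : ‖x‖ = 1) :
    bp v x * bp v x⁻¹ = tt v * ((1 + ww (cc v) x) / (1 - ww (cc v) x)) := by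
  have h0 : 0 < v := by linarith
  have hx0 := ne_zero_of_norm_one hx
  have hc := cc_gt_two hv
  have hxi : ‖x⁻¹‖ = 1 := by rw [norm_inv, hx, inv_one]
  have hw := ww_ne hc hx
  have hw1 := one_sub_ww_ne hc hx
  have hw2 := one_add_ww_ne hc hx
  have ha1 : ((al1 v : ℝ) : ℂ) ≠ 0 := by exact_mod_cast (al1_pos h0).ne'
  have ha2 : ((al2 v : ℝ) : ℂ) ≠ 0 := by exact_mod_cast (al2_pos hv).ne'
  have hd1 := one_sub_al2_ne hv (norm_lt_of_one hv hx)
  have hd2 := one_sub_al2_ne hv (norm_lt_of_one hv hxi)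
  -- squares agree
  have hsq : (bp v x * bp v x⁻¹) ^ 2 = (tt v * ((1 + ww (cc v) x) / (1 - ww (cc v) x))) ^ 2 := by
    rw [mul_pow, bp_sq, bp_sq, div_mul_div_comm]
    have e1 := al1_prod hv hx
    have e2 := al2_prod hv hx
    have e3 : (tt v : ℂ) ^ 2 = al1 v / al2 v := by exact_mod_cast (al1_div_al2 hv).symm
    have e1' : (1 - (al1 v : ℂ) * x) * (1 - al1 v * x⁻¹) =
        al1 v * (1 + ww (cc v) x) ^ 2 / ww (cc v) x := by
      rw [eq_div_iff hw, e1]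
    have e2' : (1 - (al2 v : ℂ) * x) * (1 - al2 v * x⁻¹) =
        al2 v * (1 - ww (cc v) x) ^ 2 / ww (cc v) x := by
      rw [eq_div_iff hw, e2]
    rw [e1', e2', mul_pow, div_pow, e3]
    field_simp
  -- both sides are positive reals
  obtain ⟨φ, hφ⟩ := exists_ex hx
  obtain ⟨r, hr0, hr1, hr⟩ := ww_real hc φ
  rw [← hφ] at hr
  have hpos : 0 < tt v * ((1 + r) / (1 - r)) :=
    mul_pos (tt_pos h0) (div_pos (by linarith) (by linarith))
  have hR : (tt v : ℂ) * ((1 + ww (cc v) x) / (1 - ww (cc v) x)) =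
      ((tt v * ((1 + r) / (1 - r)) : ℝ) : ℂ) := by
    rw [hr]; push_cast; ring
  have hL : bp v x * bp v x⁻¹ = ((‖bp v x‖ ^ 2 : ℝ) : ℂ) := by
    rw [bp_inv_eq_conj hv hx, Complex.mul_conj, Complex.normSq_eq_norm_sq]
  rw [hR, hL] at hsq ⊢
  have hsq' : (‖bp v x‖ ^ 2) ^ 2 = (tt v * ((1 + r) / (1 - r))) ^ 2 := by exact_mod_cast hsq
  have := (pow_left_inj₀ (by positivity) hpos.le two_ne_zero).mp hsq'
  exact_mod_cast this

/-- `b₊ / b₋ = t (1 + w) / (1 - w)` -/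
theorem rho_eq {v : ℝ} (hv : 1 < v) {x : ℂ} (hx : ‖x‖ = 1) :
    bp v x = bq v x * (tt v * ((1 + ww (cc v) x) / (1 - ww (cc v) x))) := by
  have hxi : ‖x⁻¹‖ = 1 := by rw [norm_inv, hx, inv_one]
  have hne := bp_ne hv hxi
  rw [← bp_mul_bp_inv hv hx]
  unfold bq
  generalize bp v x⁻¹ = b at hne
  field_simp

theorem bx_eq {v : ℝ} (hv : 1 < v) {x : ℂ} (hx : ‖x‖ = 1) : bx v x = bp v x * bq v x := by
  have h0 : 0 < v := by linarith
  have hx0 := ne_zero_of_norm_one hx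
  have hc := cc_gt_two hv
  have hxi : ‖x⁻¹‖ = 1 := by rw [norm_inv, hx, inv_one]
  have hw := ww_ne hc hx
  have hw1 := one_sub_ww_ne hc hx
  have hw2 := one_add_ww_ne hc hx
  have hd1 := one_sub_al2_ne hv (norm_lt_of_one hv hx)
  have ht : ((tt v : ℝ) : ℂ) ≠ 0 := by exact_mod_cast (tt_pos h0).ne'
  have htp := tt_pos h0
  have htl := tt_lt_one h0
  have hP := bp_ne hv hx
  have hP' := bp_ne hv hxi
  have e0 := bp_mul_bp_inv hv hx
  have e2 := al2_prod hv hx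
  have hA : (((1 + tt v) / (2 * (1 - tt v)) : ℝ) : ℂ) * al2 v * (2 * tt v) = 1 := by
    have : (1 + tt v) / (2 * (1 - tt v)) * al2 v * (2 * tt v) = 1 := by
      unfold al2
      have h3 : (1 : ℝ) - tt v ≠ 0 := by linarith
      have h4 : (1 : ℝ) + tt v ≠ 0 := by linarith
      field_simp
    exact_mod_cast this
  -- bp * bq = bp ^ 2 / (bp * bp')
  have e3 : bp v x * bq v x = bp v x ^ 2 / (bp v x * bp v x⁻¹) := by
    unfold bq
    field_simp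
  rw [e3, bp_sq, e0]
  unfold bx sx
  rw [Lx_factor hv hx0]
  set A : ℂ := (((1 + tt v) / (2 * (1 - tt v)) : ℝ) : ℂ)
  set w : ℂ := ww (cc v) x
  have hw3 : 1 - w ^ 2 ≠ 0 := by
    rw [show (1 : ℂ) - w ^ 2 = (1 - w) * (1 + w) by ring]
    exact mul_ne_zero hw1 hw2
  have key : A * (1 - al2 v * x⁻¹) * (1 - al2 v * x) * (2 * w) * tt v = (1 - w) ^ 2 := by
    calc A * (1 - al2 v * x⁻¹) * (1 - al2 v * x) * (2 * w) * tt v
        = A * (2 * tt v) * ((1 - (al2 v : ℂ) * x) * (1 - al2 v * x⁻¹) * w) := by ring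
      _ = (A * al2 v * (2 * tt v)) * (1 - w) ^ 2 := by rw [e2]; ring
      _ = (1 - w) ^ 2 := by rw [hA, one_mul]
  rw [mul_div_assoc', div_div, div_eq_div_iff hw3 (by
    refine mul_ne_zero hd1 (mul_ne_zero ht (div_ne_zero hw2 hw1)))]
  have h7 : (1 - (al2 v : ℂ) * x) * (tt v * ((1 + w) / (1 - w))) =
      (1 - (al2 v : ℂ) * x) * tt v * (1 + w) / (1 - w) := by
    field_simp
  rw [h7, mul_div_assoc', div_eq_iff hw1]
  linear_combination (1 - (al1 v : ℂ) * x) * (1 + w) * key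

theorem bx_inv {v : ℝ} (hv : 1 < v) {x : ℂ} (hx : ‖x‖ = 1) : bx v x * bx v x⁻¹ = 1 := by
  have hxi : ‖x⁻¹‖ = 1 := by rw [norm_inv, hx, inv_one]
  have hP := bp_ne hv hx
  have hP' := bp_ne hv hxi
  rw [bx_eq hv hx, bx_eq hv hxi]
  unfold bq
  rw [inv_inv]
  generalize bp v x⁻¹ = b at hP'
  generalize bp v x = a at hP
  field_simp

theorem Lx_differentiableAt {v : ℝ} {x : ℂ} (hx : x ≠ 0) : DifferentiableAt ℂ (Lx v) x := by
  unfold Lx
  apply DifferentiableAt.sub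
  · apply DifferentiableAt.const_sub
    exact (differentiableAt_inv hx).const_mul _
  · exact differentiableAt_id.const_mul _

theorem bx_ann {v : ℝ} (hv : 1 < v) : Ann (bx v) := by
  obtain ⟨q, hq0, hq1, hq⟩ := sx_ann (cc_gt_two hv)
  refine ⟨q, hq0, hq1, ?_⟩
  have h1 : DifferentiableOn ℂ (Lx v) {x | q < ‖x‖ ∧ ‖x‖ < q⁻¹} := by
    rintro x ⟨hx, _⟩
    have hx0 : x ≠ 0 := norm_pos_iff.mp (lt_trans hq0 hx)
    exact (Lx_differentiableAt hx0).differentiableWithinAt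
  exact h1.mul hq

theorem mu_mul_mu {v : ℝ} (hv : 1 < v) {x : ℂ} (hx : ‖x‖ = 1) :
    mu v x * mu v x⁻¹ = ww (cc v) x ^ 2 / (tt v * (1 - ww (cc v) x ^ 2)) := by
  have h0 : 0 < v := by linarith
  have hx0 := ne_zero_of_norm_one hx
  have hc := cc_gt_two hv
  have hxi : ‖x⁻¹‖ = 1 := by rw [norm_inv, hx, inv_one]
  have hw := ww_ne hc hx
  have hw1 := one_sub_ww_ne hc hx
  have hw2 := one_add_ww_ne hc hx
  have ht : ((tt v : ℝ) : ℂ) ≠ 0 := by exact_mod_cast (tt_pos h0).ne'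
  have hP := bp_ne hv hx
  have hP' := bp_ne hv hxi
  have e0 := bp_mul_bp_inv hv hx
  unfold mu bq
  rw [ww_inv, inv_inv]
  set w : ℂ := ww (cc v) x
  have hw3 : 1 - w ^ 2 ≠ 0 := by
    rw [show (1 : ℂ) - w ^ 2 = (1 - w) * (1 + w) by ring]
    exact mul_ne_zero hw1 hw2
  have h1 : (bp v x⁻¹)⁻¹ * w / ((1 - w) * x) * ((bp v x)⁻¹ * w / ((1 - w) * x⁻¹)) =
      (bp v x * bp v x⁻¹)⁻¹ * w ^ 2 / (1 - w) ^ 2 := by
    field_simp
  rw [h1, e0]
  rw [show (1 : ℂ) - w ^ 2 = (1 - w) * (1 + w) by ring]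
  field_simp

theorem mu_ne {v : ℝ} (hv : 1 < v) {x : ℂ} (hx : ‖x‖ = 1) : mu v x ≠ 0 := by
  have hx0 := ne_zero_of_norm_one hx
  have hc := cc_gt_two hv
  have hxi : ‖x⁻¹‖ = 1 := by rw [norm_inv, hx, inv_one]
  unfold mu bq
  refine div_ne_zero (mul_ne_zero (inv_ne_zero (bp_ne hv hxi)) (ww_ne hc hx))
    (mul_ne_zero (one_sub_ww_ne hc hx) hx0)

end

end IsingS2
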