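import Pool.Agent.Helper98.IS.Coupling
import Pool.Agent.Helper98.IS.Band
import Pool.Agent.Helper98.IS.FC
import Pool.Agent.Helper98.IS.Symbols
import Pool.Agent.Helper98.IS.SymbolsB
import Pool.Agent.Helper98.IS.FdetMul
import Pool.Agent.Helper98.IS.Comm

/-!
# IS-39: linear factors
-/

set_option autoImplicit false

namespace IsingS2

open Complex Set MeasureTheory Filter Topology IsingNB
open scoped Real Matrix

noncomputable section

/-! ### the linear power series -/

theorem L39_coeff_lin (α : ℂ) (n : ℕ) :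
    PowerSeries.coeff n (1 - PowerSeries.C α * PowerSeries.X : PowerSeries ℂ) =
      if n = 0 then 1 else if n = 1 then -α else 0 := by
  rw [map_sub, PowerSeries.coeff_one]
  rcases n with _ | _ | n
  · simp
  · rw [PowerSeries.coeff_succ_mul_X]
    simp
  · rw [PowerSeries.coeff_succ_mul_X]
    simp

theorem L39_lin_mul (α : ℂ) :
    (1 - PowerSeries.C α * PowerSeries.X : PowerSeries ℂ) * PowerSeries.mk (fun n => α ^ n) = 1 := by
  ext n
  rw [sub_mul, one_mul, map_sub, PowerSeries.coeff_mk, PowerSeries.coeff_one, mul_assoc,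
    PowerSeries.coeff_C_mul]
  rcases n with _ | n
  · simp
  · rw [mul_comm PowerSeries.X, PowerSeries.coeff_succ_mul_X, PowerSeries.coeff_mk]
    simp [pow_succ, mul_comm]

theorem L39_lin_inv (α : ℂ) :
    (1 - PowerSeries.C α * PowerSeries.X : PowerSeries ℂ)⁻¹ = PowerSeries.mk (fun n => α ^ n) := by
  rw [PowerSeries.inv_eq_iff_mul_eq_one]
  · rw [mul_comm]
    exact L39_lin_mul α
  · simp

theorem good_lin {α : ℝ} (hα : |α| < 1) : GoodPS (1 - PowerSeries.C (α : ℂ) * PowerSeries.X) := by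
  have hq1 : max |α| (1 / 2) < 1 := max_lt hα (by norm_num)
  have hq0 : 0 < max |α| (1 / 2) := lt_max_of_lt_right (by norm_num)
  refine ⟨?_, ⟨1, max |α| (1 / 2), zero_le_one, hq0, hq1, fun n => ?_⟩,
    ⟨1, max |α| (1 / 2), zero_le_one, hq0, hq1, fun n => ?_⟩⟩
  · rw [L39_coeff_lin]
    simp
  · rw [L39_coeff_lin, one_mul]
    rcases n with _ | _ | n
    · simp
    · simp
    · simp only [Nat.add_eq_zero_iff, one_ne_zero, and_false, and_self, if_false]
      rw [if_neg (by omega), norm_zero]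
      positivity
  · rw [L39_lin_inv, PowerSeries.coeff_mk, one_mul, norm_pow, Complex.norm_real, Real.norm_eq_abs]
    exact pow_le_pow_left₀ (abs_nonneg _) (le_max_left _ _) n

/-! ### determinant of a matrix with one nonzero row -/

theorem L39_Fdet_row {A : ℤ → ℤ → ℂ} (h : ∀ k, k ≠ 0 → ∀ l, A k l = 0) :
    Fdet A = 1 + A 0 0 := by
  unfold Fdet
  rw [tsum_eq_sum (s := Finset.range 2)]
  · rw [Finset.sum_range_succ, Finset.sum_range_one]
    congr 1
    · have : ∀ k : Fin 0 → ℤ, (Matrix.of fun i l : Fin 0 => A (k i) (k l)).det = 1 := by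
        intro k
        exact Matrix.det_fin_zero
      rw [tsum_congr this, tsum_fintype]
      simp
    · rw [tsum_eq_single (fun _ => 0)]
      · simp
      · intro k hk
        rw [Matrix.det_fin_one, Matrix.of_apply]
        apply h
        intro h0
        apply hk
        funext i
        rw [Subsingleton.elim i 0, h0]
  · intro j hj
    rw [Finset.mem_range, not_lt] at hj
    have : ∀ k : Fin j → ℤ, (Matrix.of fun i l : Fin j => A (k i) (k l)).det = 0 := by
      intro k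
      by_cases hk : ∃ i, k i ≠ 0
      · obtain ⟨i, hi⟩ := hk
        exact Matrix.det_eq_zero_of_row_eq_zero i fun l => h _ hi _
      · push Not at hk
        refine Matrix.det_zero_of_row_eq (i := ⟨0, by omega⟩) (j := ⟨1, by omega⟩) ?_ ?_
        · intro h0
          have := congrArg Fin.val h0
          simp at this
        · funext l
          simp only [Matrix.of_apply, hk]
    rw [tsum_congr this, tsum_zero, mul_zero]

/-! ### the commutator of two linear factors -/

theorem L39_Tm_lin (β : ℂ) (k l : ℤ) :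
    Tm (1 - PowerSeries.C β * PowerSeries.X) k l =
      if 0 ≤ k ∧ l = k then 1 else if 0 ≤ k ∧ l = k + 1 then -β else 0 := by
  unfold Tm
  rw [L39_coeff_lin]
  split_ifs <;> first | rfl | (exfalso; omega)

theorem L39_Tp_lin (α : ℂ) (k l : ℤ) :
    Tp (1 - PowerSeries.C α * PowerSeries.X) k l =
      if 0 ≤ l ∧ k = l then 1 else if 0 ≤ l ∧ k = l + 1 then -α else 0 := by
  unfold Tp
  rw [L39_coeff_lin]
  split_ifs <;> first | rfl | (exfalso; omega)

theorem L39_Tm_row (β : ℂ) (B : ℤ → ℤ → ℂ) (k l : ℤ) :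
    mm (Tm (1 - PowerSeries.C β * PowerSeries.X)) B k l =
      if 0 ≤ k then B k l - β * B (k + 1) l else 0 := by
  unfold mm
  simp only [L39_Tm_lin]
  rw [tsum_eq_sum (s := {k, k + 1})]
  · rw [Finset.sum_pair (by omega)]
    by_cases hk : 0 ≤ k
    · rw [if_pos hk, if_pos ⟨hk, rfl⟩, if_neg (by omega), if_pos ⟨hk, rfl⟩]
      ring
    · rw [if_neg hk, if_neg (fun h => hk h.1), if_neg (fun h => hk h.1),
        if_neg (fun h => hk h.1), if_neg (fun h => hk h.1)]
      ring
  · intro i hi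
    rw [Finset.mem_insert, Finset.mem_singleton, not_or] at hi
    rw [if_neg (fun h => hi.1 h.2), if_neg (fun h => hi.2 h.2), zero_mul]

theorem L39_Tp_row (α : ℂ) (A : ℤ → ℤ → ℂ) (hA : ∀ k l, k < 0 → A k l = 0) (k l : ℤ) :
    mm (Tp (1 - PowerSeries.C α * PowerSeries.X)) A k l = A k l - α * A (k - 1) l := by
  unfold mm
  simp only [L39_Tp_lin]
  rw [tsum_eq_sum (s := {k, k - 1})]
  · rw [Finset.sum_pair (by omega)]
    by_cases hk : 0 ≤ k
    · rw [if_pos ⟨hk, rfl⟩, if_neg (by omega)]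
      by_cases hk1 : 0 ≤ k - 1
      · rw [if_pos ⟨hk1, by omega⟩]
        ring
      · rw [if_neg (fun h => hk1 h.1), hA (k - 1) l (by omega)]
        ring
    · rw [hA k l (by omega), hA (k - 1) l (by omega)]
      ring
  · intro i hi
    rw [Finset.mem_insert, Finset.mem_singleton, not_or] at hi
    rw [if_neg (by omega), if_neg (by omega), zero_mul]

theorem L39_comm (α β : ℂ) (k l : ℤ) :
    mm (Tm (1 - PowerSeries.C β * PowerSeries.X)) (Tp (1 - PowerSeries.C α * PowerSeries.X)) k l =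
      mm (Tp (1 - PowerSeries.C α * PowerSeries.X)) (Tm (1 - PowerSeries.C β * PowerSeries.X)) k l +
        if k = 0 ∧ l = 0 then α * β else 0 := by
  rw [L39_Tm_row, L39_Tp_row _ _ (fun k l hk => by unfold Tm; rw [if_neg (by omega)])]
  simp only [L39_Tp_lin, L39_Tm_lin]
  split_ifs <;> first | (exfalso; omega) | ring1

/-- matrix with the single entry `r` at `(0,0)` -/
def L39_E (r : ℂ) (k l : ℤ) : ℂ := if k = 0 ∧ l = 0 then r else 0

theorem L39_E_BB (r : ℂ) : BB (L39_E r) := by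
  refine ⟨‖r‖, 1 / 2, norm_nonneg _, by norm_num, by norm_num, fun k l => ?_⟩
  unfold L39_E
  by_cases h : k = 0 ∧ l = 0
  · rw [if_pos h, h.1, h.2]
    simp
  · rw [if_neg h, norm_zero]
    positivity

theorem L39_E_mm (r : ℂ) (A : ℤ → ℤ → ℂ) (k l : ℤ) :
    mm (L39_E r) A k l = if k = 0 then r * A 0 l else 0 := by
  unfold mm L39_E
  rw [tsum_eq_single 0]
  · by_cases h : k = 0
    · simp [h]
    · simp [h]
  · intro i hi
    simp [hi]

theorem L39_PiZ_mm (A : ℤ → ℤ → ℂ) (k l : ℤ) :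
    mm PiZ A k l = if 0 ≤ k then A k l else 0 := by
  unfold mm PiZ
  rw [tsum_eq_single k]
  · by_cases h : 0 ≤ k
    · simp [h]
    · simp [h]
  · intro i hi
    rw [if_neg (fun h => hi h.1.symm), zero_mul]

theorem L39_mm_PiZ_Tp (f : PowerSeries ℂ) : mm (Tp f) PiZ = Tp f := by
  funext k l
  unfold mm PiZ Tp
  rw [tsum_eq_single l]
  · by_cases h : 0 ≤ l
    · simp [h]
    · simp [h]
  · intro i hi
    have h1 : ¬(i = l ∧ 0 ≤ i) := fun h => hi h.1
    simp only [if_neg h1, mul_zero]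

theorem Fc_lin {α β : ℝ} (hα : |α| < 1) (hβ : |β| < 1) :
    Fc (1 - PowerSeries.C (β : ℂ) * PowerSeries.X) (1 - PowerSeries.C (α : ℂ) * PowerSeries.X) =
      1 / (1 - α * β) := by
  set f : PowerSeries ℂ := 1 - PowerSeries.C (β : ℂ) * PowerSeries.X with hf
  set h : PowerSeries ℂ := 1 - PowerSeries.C (α : ℂ) * PowerSeries.X with hh
  have gf : GoodPS f := good_lin hβ
  have gh : GoodPS h := good_lin hα
  have bA := Tm_BB gf
  have bB := Tp_BB gh
  have bA' := Tm_BB gf.inv
  have bB' := Tp_BB gh.inv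
  have cf : PowerSeries.constantCoeff f ≠ 0 := by
    rw [← PowerSeries.coeff_zero_eq_constantCoeff_apply, gf.one]
    exact one_ne_zero
  have ch : PowerSeries.constantCoeff h ≠ 0 := by
    rw [← PowerSeries.coeff_zero_eq_constantCoeff_apply, gh.one]
    exact one_ne_zero
  have hcomm : mm (Tm f) (Tp h) = fun k l => mm (Tp h) (Tm f) k l + L39_E (α * β) k l := by
    funext k l
    exact L39_comm (α : ℂ) (β : ℂ) k l
  have bBA : BB (mm (Tp h) (Tm f)) := BB_mm bB bA
  have e1 : mm (mm (mm (Tm f) (Tp h)) (Tm f⁻¹)) (Tp h⁻¹) =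
      fun k l => PiZ k l + mm (mm (L39_E (α * β)) (Tm f⁻¹)) (Tp h⁻¹) k l := by
    rw [hcomm, mm_add_left bBA (L39_E_BB _) bA', mm_add_left (BB_mm bBA bA')
      (BB_mm (L39_E_BB _) bA') bB']
    have e2 : mm (mm (mm (Tp h) (Tm f)) (Tm f⁻¹)) (Tp h⁻¹) = PiZ := by
      rw [mm_assoc bB bA bA', Tm_mul, PowerSeries.mul_inv_cancel _ cf, Tm_one, L39_mm_PiZ_Tp,
        Tp_mul, PowerSeries.mul_inv_cancel _ ch, Tp_one]
    rw [e2]
  have e3 : (fun k l => mm (mm (mm (Tm f) (Tp h)) (Tm f⁻¹)) (Tp h⁻¹) k l - PiZ k l) =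
      fun k l => if k = 0 then (α * β : ℂ) * mm (Tm f⁻¹) (Tp h⁻¹) 0 l else 0 := by
    funext k l
    rw [e1, add_sub_cancel_left, mm_assoc (L39_E_BB _) bA' bB', L39_E_mm]
  unfold Fc
  rw [e3, L39_Fdet_row (fun k hk l => if_neg hk), if_pos rfl]
  have hab : ‖(β * α : ℂ)‖ < 1 := by
    rw [norm_mul, Complex.norm_real, Complex.norm_real, Real.norm_eq_abs, Real.norm_eq_abs]
    calc |β| * |α| ≤ |β| * 1 := mul_le_mul_of_nonneg_left hα.le (abs_nonneg _)
      _ < 1 := by rw [mul_one]; exact hβ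
  have e4 : mm (Tm f⁻¹) (Tp h⁻¹) 0 0 = 1 / (1 - α * β) := by
    unfold mm Tm Tp
    rw [hf, hh, L39_lin_inv, L39_lin_inv]
    have hs : HasSum (fun n : ℕ => (β * α : ℂ) ^ n) (1 - (β * α : ℂ))⁻¹ :=
      hasSum_geometric_of_norm_lt_one hab
    have hinj : Function.Injective (fun n : ℕ => (n : ℤ)) := Nat.cast_injective
    have h2 : HasSum (fun i : ℤ => (if (0 : ℤ) ≤ 0 ∧ 0 ≤ i then
        PowerSeries.coeff (i - 0).toNat (PowerSeries.mk fun n => (β : ℂ) ^ n) else 0) *
        (if (0 : ℤ) ≤ 0 ∧ 0 ≤ i then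
        PowerSeries.coeff (i - 0).toNat (PowerSeries.mk fun n => (α : ℂ) ^ n) else 0))
        (1 - (β * α : ℂ))⁻¹ := by
      rw [← hinj.hasSum_iff]
      · refine hs.congr_fun ?_
        intro n
        simp [mul_pow]
      · intro i hi
        rw [if_neg, zero_mul]
        rintro ⟨_, h0⟩
        exact hi ⟨i.toNat, Int.toNat_of_nonneg h0⟩
    rw [h2.tsum_eq, mul_comm (β : ℂ), one_div]
  rw [e4]
  have hne : (1 - α * β : ℂ) ≠ 0 := by
    intro h0
    have h1 : (β * α : ℂ) = 1 := by linear_combination -h0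
    rw [h1, norm_one] at hab
    exact lt_irrefl _ hab
  field_simp
  ring

/-! ### power series of functions analytic in a disc -/

theorem L39_ann {f : ℂ → ℂ} {r : ℝ} (hr : 1 < r) (hf : DifferentiableOn ℂ f (Metric.ball 0 r)) :
    Ann f := by
  refine ⟨r⁻¹, by positivity, inv_lt_one_of_one_lt₀ hr, hf.mono ?_⟩
  rintro x ⟨_, hx⟩
  rw [inv_inv] at hx
  rw [Metric.mem_ball, dist_zero_right]
  exact hx

theorem L39_mul {f g : ℂ → ℂ} {r : ℝ} (hr : 1 < r) (hf : DifferentiableOn ℂ f (Metric.ball 0 r))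
    (hg : DifferentiableOn ℂ g (Metric.ball 0 r)) :
    (PowerSeries.mk fun n => fc f n) * (PowerSeries.mk fun n => fc g n) =
      PowerSeries.mk fun n => fc (fun x => f x * g x) n := by
  ext n
  rw [PowerSeries.coeff_mul, PowerSeries.coeff_mk]
  have h := congrFun (congrFun (Tz_mul (L39_ann hr hf) (L39_ann hr hg)) n) 0
  unfold mm Tz at h
  rw [sub_zero] at h
  rw [← h]
  simp only [sub_zero]
  rw [tsum_eq_sum (s := (Finset.range (n + 1)).map ⟨fun i : ℕ => (i : ℤ), Nat.cast_injective⟩)]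
  · rw [Finset.sum_map]
    rw [Finset.Nat.sum_antidiagonal_eq_sum_range_succ_mk]
    simp only [PowerSeries.coeff_mk, Function.Embedding.coeFn_mk]
    rw [← Finset.sum_range_reflect]
    refine Finset.sum_congr rfl fun i hi => ?_
    rw [Finset.mem_range] at hi
    have h1 : ((n + 1 - 1 - i : ℕ) : ℤ) = (n : ℤ) - i := by omega
    have h2 : ((n - (n + 1 - 1 - i) : ℕ) : ℤ) = i := by omega
    rw [h1, h2]
  · intro i hi
    by_cases h0 : i < 0
    · rw [fc_inside hr hg h0, mul_zero]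
    · have h1 : (n : ℤ) - i < 0 := by
        by_contra h2
        apply hi
        rw [Finset.mem_map]
        refine ⟨i.toNat, ?_, ?_⟩
        · rw [Finset.mem_range]
          omega
        · simp only [Function.Embedding.coeFn_mk]
          omega
      rw [fc_inside hr hf h1, zero_mul]

theorem L39_fc_lin (α : ℂ) (n : ℤ) :
    fc (fun x => 1 - α * x) n = if n = 0 then 1 else if n = 1 then -α else 0 := by
  refine fc_of_hasSum (s := fun n : ℤ => if n = 0 then (1 : ℂ) else if n = 1 then -α else 0)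
    ?_ ?_ n
  · apply summable_of_ne_finset_zero (s := {0, 1})
    intro b hb
    rw [Finset.mem_insert, Finset.mem_singleton, not_or] at hb
    rw [if_neg hb.1, if_neg hb.2, norm_zero]
  · intro x _
    have h : HasSum _ _ := hasSum_sum_of_ne_finset_zero (s := ({0, 1} : Finset ℤ))
      (f := fun n : ℤ => (if n = 0 then (1 : ℂ) else if n = 1 then -α else 0) * x ^ n) (by
        intro b hb
        rw [Finset.mem_insert, Finset.mem_singleton, not_or] at hb
        rw [if_neg hb.1, if_neg hb.2, zero_mul])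
    rw [Finset.sum_pair (by norm_num)] at h
    convert h using 1
    simp
    ring

theorem L39_mk_lin (α : ℂ) :
    (PowerSeries.mk fun n => fc (fun x => 1 - α * x) n) =
      1 - PowerSeries.C α * PowerSeries.X := by
  ext n
  rw [PowerSeries.coeff_mk, L39_fc_lin, L39_coeff_lin]
  norm_cast

theorem L39_mk_one :
    (PowerSeries.mk fun n => fc (fun _ => 1) n) = 1 := by
  have h := L39_mk_lin 0
  simpa using h

theorem L39_bps_mul {v : ℝ} (hv : 1 < v) :
    bps v * (PowerSeries.mk fun n => fc (fun x => (bp v x)⁻¹) n) = 1 := by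
  obtain ⟨r, hr, h1, h2⟩ := bp_disc hv
  unfold bps
  rw [L39_mul hr h1 h2, ← L39_mk_one]
  ext n
  rw [PowerSeries.coeff_mk, PowerSeries.coeff_mk]
  refine fc_congr (fun x hx => ?_) n
  exact mul_inv_cancel₀ (bp_ne hv hx)

theorem L39_bp_zero (v : ℝ) : bp v 0 = 1 := by
  unfold bp
  simp

theorem L39_fc_zero {f : ℂ → ℂ} {r : ℝ} (hr : 1 < r)
    (hf : DifferentiableOn ℂ f (Metric.ball 0 r)) : fc f 0 = f 0 := by
  have h1 : (∮ z in C(0, 1), z⁻¹ * f z) = 2 * π * I * f 0 := by
    have h2 := DiffContOnCl.circleIntegral_sub_inv_smul (R := 1) (c := 0) (w := 0) (f := f)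
      ?_ (by simp)
    · simpa using h2
    · apply DifferentiableOn.diffContOnCl
      refine hf.mono ?_
      rw [closure_ball 0 one_ne_zero]
      exact Metric.closedBall_subset_ball hr
  have h3 : (∮ z in C(0, 1), z⁻¹ * f z) =
      I * ∫ φ in (0 : ℝ)..2 * π, f (Complex.exp (I * φ)) := by
    unfold circleIntegral
    rw [← intervalIntegral.integral_const_mul]
    refine intervalIntegral.integral_congr fun φ _ => ?_
    simp only [deriv_circleMap, circleMap, zero_add, Complex.ofReal_one, one_mul, smul_eq_mul]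
    have hne := Complex.exp_ne_zero (φ * I)
    rw [mul_comm I (φ : ℂ)]
    field_simp
  have h4 : (∫ φ in (0 : ℝ)..2 * π, f (Complex.exp (I * φ))) =
      ∫ φ in (-π)..π, f (Complex.exp (I * φ)) := by
    have hper : Function.Periodic (fun φ : ℝ => f (Complex.exp (I * φ))) (2 * π) := by
      intro φ
      have : Complex.exp (I * ((φ + 2 * π : ℝ) : ℂ)) = Complex.exp (I * φ) := by
        rw [Complex.exp_eq_exp_iff_exists_int]
        exact ⟨1, by push_cast; ring⟩
      simp only [this]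
    have h := hper.intervalIntegral_add_eq 0 (-π)
    have e : -π + 2 * π = π := by ring
    rw [zero_add, e] at h
    exact h
  unfold fc
  have h5 : (fun φ : ℝ => f (Complex.exp (I * φ)) * Complex.exp (-(I * (0 : ℤ) * φ))) =
      fun φ : ℝ => f (Complex.exp (I * φ)) := by
    funext φ
    simp
  rw [h5, ← h4]
  rw [h3] at h1
  have hpi : (π : ℂ) ≠ 0 := by exact_mod_cast Real.pi_ne_zero
  have h6 : (∫ φ in (0 : ℝ)..2 * π, f (Complex.exp (I * φ))) = 2 * π * f 0 := by
    apply mul_left_cancel₀ I_ne_zero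
    rw [h1]
    ring
  rw [h6]
  field_simp

theorem L39_const {v : ℝ} (hv : 1 < v) : PowerSeries.coeff 0 (bps v) = 1 := by
  obtain ⟨r, hr, h1, h2⟩ := bp_disc hv
  unfold bps
  rw [PowerSeries.coeff_mk]
  have := L39_fc_zero hr h1
  rw [L39_bp_zero] at this
  exact_mod_cast this

theorem L39_inv {v : ℝ} (hv : 1 < v) :
    (bps v)⁻¹ = PowerSeries.mk fun n => fc (fun x => (bp v x)⁻¹) n := by
  rw [PowerSeries.inv_eq_iff_mul_eq_one]
  · rw [mul_comm]
    exact L39_bps_mul hv
  · rw [← PowerSeries.coeff_zero_eq_constantCoeff_apply, L39_const hv]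
    exact one_ne_zero

theorem bps_inv {v : ℝ} (hv : 1 < v) (n : ℕ) :
    PowerSeries.coeff n (bps v)⁻¹ = fc (fun x => (bp v x)⁻¹) n := by
  rw [L39_inv hv, PowerSeries.coeff_mk]

theorem bps_good {v : ℝ} (hv : 1 < v) : GoodPS (bps v) := by
  refine ⟨L39_const hv, ?_, ?_⟩
  · obtain ⟨C, q, hC, h0, h1, hb⟩ := fc_bound (bp_ann hv)
    refine ⟨C, q, hC, h0, h1, fun n => ?_⟩
    have := hb n
    rw [Int.natAbs_natCast] at this
    unfold bps
    rw [PowerSeries.coeff_mk]
    exact this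
  · obtain ⟨C, q, hC, h0, h1, hb⟩ := fc_bound (bp_inv_ann hv)
    refine ⟨C, q, hC, h0, h1, fun n => ?_⟩
    have := hb n
    rw [Int.natAbs_natCast] at this
    rw [bps_inv hv]
    exact this

theorem bps_sq {v : ℝ} (hv : 1 < v) :
    bps v * bps v * (1 - PowerSeries.C (al2 v : ℂ) * PowerSeries.X) =
      1 - PowerSeries.C (al1 v : ℂ) * PowerSeries.X := by
  obtain ⟨r, hr, h1, h2⟩ := bp_disc hv
  have hl : DifferentiableOn ℂ (fun x : ℂ => 1 - (al2 v : ℂ) * x) (Metric.ball 0 r) := by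
    fun_prop
  rw [← L39_mk_lin, ← L39_mk_lin]
  unfold bps
  rw [L39_mul hr h1 h1, L39_mul (f := fun x => bp v x * bp v x) hr (h1.mul h1) hl]
  ext n
  rw [PowerSeries.coeff_mk, PowerSeries.coeff_mk]
  refine fc_congr (fun x hx => ?_) n
  have h3 : (1 - (al2 v : ℂ) * x) ≠ 0 := by
    intro h0
    have h4 : (al2 v : ℂ) * x = 1 := by linear_combination -h0
    have h5 : ‖(al2 v : ℂ) * x‖ = 1 := by rw [h4, norm_one]
    rw [norm_mul, hx, mul_one, Complex.norm_real, Real.norm_eq_abs, abs_of_pos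
      ((al1_pos (by linarith)).trans (al1_lt hv))] at h5
    have := al2_lt_one hv
    linarith
  have h6 : bp v x * bp v x = (1 - al1 v * x) / (1 - al2 v * x) := by
    unfold bp
    rw [← sq, ← Complex.cpow_mul_nat]
    norm_num
  rw [h6, div_mul_cancel₀ _ h3]

theorem Fc_value {v : ℝ} (hv : 1 < v) : Fc (bps v)⁻¹ (bps v) ^ 4 = 1 - 1 / (v : ℂ) ^ 4 := by
  have a1 : |al1 v| < 1 := by
    rw [abs_of_pos (al1_pos (by linarith))]
    exact (al1_lt hv).trans (al2_lt_one hv)
  have a2 : |al2 v| < 1 := by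
    rw [abs_of_pos ((al1_pos (by linarith)).trans (al1_lt hv))]
    exact al2_lt_one hv
  have gP := bps_good hv
  have gR := gP.inv
  have g1 := good_lin a1
  have g2 := good_lin a2
  have cP : PowerSeries.constantCoeff (bps v) ≠ 0 := by
    rw [← PowerSeries.coeff_zero_eq_constantCoeff_apply, gP.one]
    exact one_ne_zero
  have hRP : (bps v)⁻¹ * (bps v)⁻¹ * (1 - PowerSeries.C (al1 v : ℂ) * PowerSeries.X) =
      1 - PowerSeries.C (al2 v : ℂ) * PowerSeries.X := by
    rw [← bps_sq hv]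
    have h := PowerSeries.inv_mul_cancel _ cP
    linear_combination ((bps v)⁻¹ * bps v * (1 - PowerSeries.C (al2 v : ℂ) * PowerSeries.X) +
      (1 - PowerSeries.C (al2 v : ℂ) * PowerSeries.X)) * h
  have e1 : Fc ((bps v)⁻¹ * (bps v)⁻¹) (bps v * bps v) = Fc (bps v)⁻¹ (bps v) ^ 4 := by
    rw [Fc_mul_left gR gR (gP.mul gP), Fc_mul_right gR gP gP]
    ring
  have hne1 : (1 - al1 v * al1 v : ℂ) ≠ 0 := by
    have h : (1 - al1 v * al1 v) ≠ 0 := by
      have := abs_lt.mp a1
      nlinarith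
    exact_mod_cast h
  have hne2 : (1 - al2 v * al2 v : ℂ) ≠ 0 := by
    have h : (1 - al2 v * al2 v) ≠ 0 := by
      have := abs_lt.mp a2
      nlinarith
    exact_mod_cast h
  have hne12 : (1 - al1 v * al2 v : ℂ) ≠ 0 := by
    have h : (1 - al1 v * al2 v) ≠ 0 := by
      have h1 := abs_lt.mp a1
      have h2 := abs_lt.mp a2
      have h3 := al1_pos (show 0 < v by linarith)
      nlinarith
    exact_mod_cast h
  have hne21 : (1 - al2 v * al1 v : ℂ) ≠ 0 := by
    rw [mul_comm]
    exact hne12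
  have k1 : Fc (1 - PowerSeries.C (al1 v : ℂ) * PowerSeries.X) (bps v * bps v) *
      (1 / (1 - al2 v * al1 v)) = 1 / (1 - al1 v * al1 v) := by
    rw [← Fc_lin a2 a1, ← Fc_lin a1 a1, ← Fc_mul_right g1 (gP.mul gP) g2, bps_sq hv]
  have k2 : Fc (1 - PowerSeries.C (al2 v : ℂ) * PowerSeries.X) (bps v * bps v) *
      (1 / (1 - al2 v * al2 v)) = 1 / (1 - al1 v * al2 v) := by
    rw [← Fc_lin a2 a2, ← Fc_lin a1 a2, ← Fc_mul_right g2 (gP.mul gP) g2, bps_sq hv]
  have k3 : Fc ((bps v)⁻¹ * (bps v)⁻¹) (bps v * bps v) *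
      Fc (1 - PowerSeries.C (al1 v : ℂ) * PowerSeries.X) (bps v * bps v) =
      Fc (1 - PowerSeries.C (al2 v : ℂ) * PowerSeries.X) (bps v * bps v) := by
    rw [← Fc_mul_left (gR.mul gR) g1 (gP.mul gP), hRP]
  have j1 : Fc (1 - PowerSeries.C (al1 v : ℂ) * PowerSeries.X) (bps v * bps v) =
      (1 - al2 v * al1 v) / (1 - al1 v * al1 v) := by
    rw [mul_one_div, div_eq_div_iff hne21 hne1] at k1
    rw [eq_div_iff hne1, k1, one_mul]
  have j2 : Fc (1 - PowerSeries.C (al2 v : ℂ) * PowerSeries.X) (bps v * bps v) =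
      (1 - al2 v * al2 v) / (1 - al1 v * al2 v) := by
    rw [mul_one_div, div_eq_div_iff hne2 hne12] at k2
    rw [eq_div_iff hne12, k2, one_mul]
  rw [j1, j2, e1] at k3
  have h4 := al_identity hv
  have h5 : (((1 - al1 v ^ 2) * (1 - al2 v ^ 2) / (1 - al1 v * al2 v) ^ 2 : ℝ) : ℂ) =
      ((1 - 1 / v ^ 4 : ℝ) : ℂ) := by rw [h4]
  push_cast at h5
  rw [← h5]
  have h6 : Fc (bps v)⁻¹ (bps v) ^ 4 = ((1 - al2 v * al2 v) / (1 - al1 v * al2 v)) /
      ((1 - al2 v * al1 v) / (1 - al1 v * al1 v)) := by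
    rw [← k3, mul_div_assoc, div_self (div_ne_zero hne21 hne1), mul_one]
  rw [h6]
  have hsw : (1 - al2 v * al1 v : ℂ) = 1 - al1 v * al2 v := by ring
  rw [hsw]
  field_simp

end

end IsingS2
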