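import Pool.Agent.Helper98.IS.Riemann

/-! IS-33: composition of kernels -/

namespace IsingS2

open Complex Set MeasureTheory Filter Topology IsingNB
open scoped Real Matrix

noncomputable section

theorem adj_comp {n : ℕ} (A : Matrix (Fin n) (Fin n) ℂ) :
    (2 : ℂ) • (1 - A * A).adjugate =
      (1 + A).det • (1 - A).adjugate + (1 - A).det • (1 + A).adjugate := by
  have e : 1 - A * A = (1 + A) * (1 - A) := by noncomm_ring
  have h1 : (1 + A).adjugate * (1 + A) = (1 + A).det • 1 := Matrix.adjugate_mul _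
  have h2 : (1 + A) * (1 + A).adjugate = (1 + A).det • 1 := Matrix.mul_adjugate _
  have h3 : (1 - A).adjugate * (1 - A) = (1 - A).det • 1 := Matrix.adjugate_mul _
  have hc : (1 + A).adjugate * (1 - A) = (1 - A) * (1 + A).adjugate := by
    have e1 : (1 - A) = (1 + 1) - (1 + A) := by noncomm_ring
    rw [e1, mul_sub, sub_mul, h1, h2, mul_add, add_mul, mul_one, one_mul]
  rw [e, Matrix.adjugate_mul_distrib]
  calc (2 : ℂ) • ((1 - A).adjugate * (1 + A).adjugate)
      = (1 - A).adjugate * ((1 + A).adjugate * (1 + A)) +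
        (1 - A).adjugate * ((1 + A).adjugate * (1 - A)) := by
        rw [two_smul]
        noncomm_ring
    _ = (1 - A).adjugate * ((1 + A).det • 1) +
        ((1 - A).adjugate * (1 - A)) * (1 + A).adjugate := by
        rw [h1, hc, Matrix.mul_assoc]
    _ = _ := by
        rw [h3, Matrix.mul_smul, Matrix.mul_one, Matrix.smul_mul, Matrix.one_mul]

theorem bdet_comp {n : ℕ} (A : Matrix (Fin n) (Fin n) ℂ) (u w : Fin n → ℂ) :
    2 * bdet (1 - A * A) u w =
      (1 + A).det * bdet (1 - A) u w + (1 - A).det * bdet (1 + A) u w := by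
  rw [bdet_eq, bdet_eq, bdet_eq]
  have h1 := congrArg (fun M : Matrix (Fin n) (Fin n) ℂ => w ⬝ᵥ M.mulVec u) (adj_comp A)
  simp only [Matrix.smul_mulVec, Matrix.add_mulVec, dotProduct_add, dotProduct_smul,
    smul_eq_mul] at h1
  linear_combination -h1

theorem kc_cont {K : ℝ → ℝ → ℂ} (hK : Continuous fun p : ℝ × ℝ => K p.1 p.2) :
    Continuous fun p : ℝ × ℝ => kc K K p.1 p.2 := by
  unfold kc
  apply continuous_const.mul
  apply intervalIntegral.continuous_parametric_intervalIntegral_of_continuous'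
  have h1 : Continuous fun q : (ℝ × ℝ) × ℝ => K q.1.1 q.2 :=
    hK.comp (by fun_prop : Continuous fun q : (ℝ × ℝ) × ℝ => (q.1.1, q.2))
  have h2 : Continuous fun q : (ℝ × ℝ) × ℝ => K q.2 q.1.2 :=
    hK.comp (by fun_prop : Continuous fun q : (ℝ × ℝ) × ℝ => (q.2, q.1.2))
  exact h1.mul h2

theorem rm_kc {K : ℝ → ℝ → ℂ} (hK : Continuous fun p : ℝ × ℝ => K p.1 p.2) {ε : ℝ} (hε : 0 < ε) :
    ∀ᶠ n : ℕ in atTop, ∀ φ ∈ Icc (-π) π, ∀ ψ ∈ Icc (-π) π,
      ‖(1 / (n : ℂ)) * ∑ i : Fin n, K φ (gr n i) * K (gr n i) ψ - kc K K φ ψ‖ < ε := by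
  have hp := Real.pi_pos
  have hF : Continuous fun q : (ℝ × ℝ) × ℝ => K q.1.1 q.2 * K q.2 q.1.2 := by
    have h1 : Continuous fun q : (ℝ × ℝ) × ℝ => K q.1.1 q.2 :=
      hK.comp (by fun_prop : Continuous fun q : (ℝ × ℝ) × ℝ => (q.1.1, q.2))
    have h2 : Continuous fun q : (ℝ × ℝ) × ℝ => K q.2 q.1.2 :=
      hK.comp (by fun_prop : Continuous fun q : (ℝ × ℝ) × ℝ => (q.2, q.1.2))
    exact h1.mul h2
  have hc : IsCompact ((Icc (-π) π ×ˢ Icc (-π) π) ×ˢ Icc (-π) π : Set ((ℝ × ℝ) × ℝ)) :=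
    (isCompact_Icc.prod isCompact_Icc).prod isCompact_Icc
  have huc := hc.uniformContinuousOn_of_continuous hF.continuousOn
  rw [Metric.uniformContinuousOn_iff] at huc
  obtain ⟨δ, hδ, hδG⟩ := huc (ε / 2) (by positivity)
  obtain ⟨N, hN⟩ := exists_nat_gt (2 * π / δ)
  filter_upwards [eventually_ge_atTop (N + 1)] with n hn φ hφ ψ hψ
  have hn0 : 0 < n := by omega
  have hn' : (0 : ℝ) < n := by exact_mod_cast hn0
  have hnδ : 2 * π / n < δ := by
    rw [div_lt_iff₀ hn']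
    rw [div_lt_iff₀ hδ] at hN
    have : (N : ℝ) ≤ n := by exact_mod_cast (by omega : N ≤ n)
    nlinarith
  set G : ℝ → ℂ := fun θ => K φ θ * K θ ψ with hG
  have hGc : Continuous G := hF.comp (by fun_prop : Continuous fun θ : ℝ => ((φ, ψ), θ))
  have hsub : ∀ i : Fin n, rmCell n i ⊆ Icc (-π) π := by
    intro i t ht
    have h1 : t ∈ ⋃ i, rmCell n i := mem_iUnion.2 ⟨i, ht⟩
    rw [rm_cell_union hn0] at h1
    exact ⟨h1.1, h1.2.le⟩
  have hint : IntegrableOn G (Icc (-π) π) := hGc.continuousOn.integrableOn_compact isCompact_Icc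
  have h1 : ∫ θ in (-π)..π, G θ = ∑ i, ∫ t in rmCell n i, G t := by
    rw [← integral_iUnion_fintype (s := fun i : Fin n => rmCell n i) (fun _ => measurableSet_Ico)
      (fun i l h => rm_cell_disj h) (fun i => hint.mono_set (hsub i)), rm_cell_union hn0,
      intervalIntegral.integral_of_le (by linarith), integral_Ioc_eq_integral_Ioo,
      integral_Ico_eq_integral_Ioo]
  have hvol : ∀ i : Fin n, volume.real (rmCell n i) = 2 * π / n := by
    intro i
    rw [rmCell, Measure.real, Real.volume_Ico, add_sub_cancel_left,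
      ENNReal.toReal_ofReal (by positivity)]
  have hfin : ∀ i : Fin n, volume (rmCell n i) ≠ ⊤ := fun i =>
    ((measure_mono (hsub i)).trans_lt isCompact_Icc.measure_lt_top).ne
  have h2 : ∀ i : Fin n, ‖(∫ t in rmCell n i, G t) - ((2 * π / n : ℝ) : ℂ) * G (gr n i)‖ ≤
      ε / 2 * (2 * π / n) := by
    intro i
    have h3 : ((2 * π / n : ℝ) : ℂ) * G (gr n i) = ∫ _ in rmCell n i, G (gr n i) := by
      rw [setIntegral_const, hvol i]
      rfl
    rw [h3, ← integral_sub (hint.mono_set (hsub i)) (integrableOn_const (hfin i)), ← hvol i]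
    apply norm_setIntegral_le_of_norm_le_const (hfin i).lt_top
    intro t ht
    rw [← dist_eq_norm]
    apply le_of_lt
    have hgk : gr n i ∈ rmCell n i := by
      rw [rmCell, left_mem_Ico]
      have : (0 : ℝ) < 2 * π / n := by positivity
      linarith
    apply hδG ((φ, ψ), t) ⟨⟨hφ, hψ⟩, hsub i ht⟩ ((φ, ψ), gr n i) ⟨⟨hφ, hψ⟩, hsub i hgk⟩
    rw [Prod.dist_eq, dist_self, max_lt_iff]
    refine ⟨hδ, ?_⟩
    rw [rmCell] at ht
    simp only
    rw [Real.dist_eq, abs_lt]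
    constructor
    · linarith [ht.1]
    · linarith [ht.2]
  have h5 : (1 / (n : ℂ)) * ∑ i : Fin n, K φ (gr n i) * K (gr n i) ψ - kc K K φ ψ =
      -(1 / (2 * π)) *
      ∑ i, ((∫ t in rmCell n i, G t) - ((2 * π / n : ℝ) : ℂ) * G (gr n i)) := by
    rw [kc, h1, Finset.sum_sub_distrib, ← Finset.mul_sum]
    have h6 : (1 / (n : ℂ)) = (1 / (2 * π)) * ((2 * π / n : ℝ) : ℂ) := by
      push_cast
      have : (π : ℂ) ≠ 0 := by exact_mod_cast hp.ne'
      field_simp
    rw [h6]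
    ring
  rw [h5, norm_mul]
  have h7 : ‖-(1 / (2 * (π : ℂ)))‖ = 1 / (2 * π) := by
    rw [norm_neg, norm_div, norm_one, norm_mul, Complex.norm_ofNat, Complex.norm_real,
      Real.norm_eq_abs, abs_of_pos hp]
  rw [h7]
  have h8 : ‖∑ i, ((∫ t in rmCell n i, G t) - ((2 * π / n : ℝ) : ℂ) * G (gr n i))‖ ≤
      (n : ℝ) * (ε / 2 * (2 * π / n)) := by
    refine (norm_sum_le _ _).trans ?_
    refine (Finset.sum_le_sum fun k _ => h2 k).trans ?_
    rw [Finset.sum_const, Finset.card_univ, Fintype.card_fin, nsmul_eq_mul]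
  calc 1 / (2 * π) * ‖∑ i, ((∫ t in rmCell n i, G t) - ((2 * π / n : ℝ) : ℂ) * G (gr n i))‖
      ≤ 1 / (2 * π) * ((n : ℝ) * (ε / 2 * (2 * π / n))) := by gcongr
    _ = ε / 2 := by field_simp
    _ < ε := by linarith

theorem rm_sq {K : ℝ → ℝ → ℂ} (hK : Continuous fun p : ℝ × ℝ => K p.1 p.2) :
    ∀ ε > 0, ∀ᶠ n : ℕ in atTop, ∀ i l : Fin n,
      ‖(-((1 / (n : ℂ)) • ((Matrix.of fun i l : Fin n => K (gr n i) (gr n l)) *
        (Matrix.of fun i l : Fin n => K (gr n i) (gr n l))))) i l -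
        (-kc K K (gr n i) (gr n l))‖ < ε := by
  intro ε hε
  filter_upwards [rm_kc hK hε] with n hn i l
  have h1 := hn _ (rm_gr_mem i) _ (rm_gr_mem l)
  rw [Matrix.neg_apply, Matrix.smul_apply, Matrix.mul_apply, smul_eq_mul, neg_sub_neg,
    ← norm_neg, neg_sub]
  exact h1

theorem Kdet_comp {K : ℝ → ℝ → ℂ} (hK : Continuous fun p : ℝ × ℝ => K p.1 p.2) :
    Kdet (fun φ ψ => -kc K K φ ψ) = Kdet K * Kdet fun φ ψ => -K φ ψ := by
  have h1 := riemann_det hK (fun n => Matrix.of fun i l : Fin n => K (gr n i) (gr n l))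
    (by intro ε hε; filter_upwards with n i l; simpa using hε)
  have h2 := riemann_det (K := fun φ ψ => -K φ ψ) hK.neg
    (fun n => -Matrix.of fun i l : Fin n => K (gr n i) (gr n l))
    (by intro ε hε; filter_upwards with n i l; simpa using hε)
  have h3 := riemann_det (K := fun φ ψ => -kc K K φ ψ) (kc_cont hK).neg
    (fun n => -((1 / (n : ℂ)) • ((Matrix.of fun i l : Fin n => K (gr n i) (gr n l)) *
        (Matrix.of fun i l : Fin n => K (gr n i) (gr n l))))) (rm_sq hK)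
  refine tendsto_nhds_unique h3 ((h1.mul h2).congr fun n => ?_)
  rw [← Matrix.det_mul]
  congr 1
  set A := (Matrix.of fun i l : Fin n => K (gr n i) (gr n l))
  rw [smul_neg, smul_neg, ← sub_eq_add_neg, ← sub_eq_add_neg]
  have e : ∀ B : Matrix (Fin n) (Fin n) ℂ, (1 + B) * (1 - B) = 1 - B * B := by
    intro B
    noncomm_ring
  rw [e, Matrix.smul_mul, Matrix.mul_smul]

theorem Kbd_comp {K : ℝ → ℝ → ℂ} (hK : Continuous fun p : ℝ × ℝ => K p.1 p.2) {u w : ℝ → ℂ}
    (hu : Continuous u) (hw : Continuous w) :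
    2 * Kbd (fun φ ψ => -kc K K φ ψ) u w =
      Kdet K * Kbd (fun φ ψ => -K φ ψ) u w + (Kdet fun φ ψ => -K φ ψ) * Kbd K u w := by
  have a1 : ∀ ε > 0, ∀ᶠ n : ℕ in atTop, ∀ i l : Fin n,
      ‖(Matrix.of fun i l : Fin n => K (gr n i) (gr n l)) i l - K (gr n i) (gr n l)‖ < ε := by
    intro ε hε; filter_upwards with n i l; simpa using hε
  have a2 : ∀ ε > 0, ∀ᶠ n : ℕ in atTop, ∀ i l : Fin n,
      ‖(-Matrix.of fun i l : Fin n => K (gr n i) (gr n l)) i l - (-K (gr n i) (gr n l))‖ < ε := by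
    intro ε hε; filter_upwards with n i l; simpa using hε
  have h1 := riemann_det hK (fun n => Matrix.of fun i l : Fin n => K (gr n i) (gr n l)) a1
  have h2 := riemann_det (K := fun φ ψ => -K φ ψ) hK.neg
    (fun n => -Matrix.of fun i l : Fin n => K (gr n i) (gr n l)) a2
  have g1 := riemann_bdet hK hu hw (fun n => Matrix.of fun i l : Fin n => K (gr n i) (gr n l)) a1
  have g2 := riemann_bdet (K := fun φ ψ => -K φ ψ) hK.neg hu hw
    (fun n => -Matrix.of fun i l : Fin n => K (gr n i) (gr n l)) a2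
  have g3 := riemann_bdet (K := fun φ ψ => -kc K K φ ψ) (kc_cont hK).neg hu hw
    (fun n => -((1 / (n : ℂ)) • ((Matrix.of fun i l : Fin n => K (gr n i) (gr n l)) *
        (Matrix.of fun i l : Fin n => K (gr n i) (gr n l))))) (rm_sq hK)
  refine tendsto_nhds_unique (g3.const_mul 2) (((h1.mul g2).add (h2.mul g1)).congr fun n => ?_)
  set A := (Matrix.of fun i l : Fin n => K (gr n i) (gr n l))
  rw [smul_neg, smul_neg, ← sub_eq_add_neg, ← sub_eq_add_neg, ← bdet_comp, Matrix.smul_mul,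
    Matrix.mul_smul]

end

end IsingS2
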