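import Pool.Agent.Helper98.IS.BW
import Pool.Agent.Helper98.IS.Band
import Pool.Agent.Helper98.IS.Fam
import Pool.Agent.Helper98.IS.Emb
import Pool.Agent.Helper98.IS.FC
import Pool.Agent.Helper98.IS.SymbolsB
import Pool.Agent.Helper98.IS.BWLim

/-!
# IS-25: limits of the matrices `B` and `D`
-/

set_option autoImplicit false

namespace IsingS2

open Complex Set MeasureTheory Filter Topology IsingNB
open scoped Real Matrix

noncomputable section

/-- transpose of a family -/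
private theorem cl_transpose {β : Type*} {F : Filter β} {A : β → ℤ → ℤ → ℂ} {A0 : ℤ → ℤ → ℂ}
    (h : Band F A A0) : Band F (fun p k l => A p l k) (fun k l => A0 l k) := by
  obtain ⟨C, q, hC, hq0, hq1, hb⟩ := h.bound
  refine ⟨⟨C, q, hC, hq0, hq1, ?_⟩, fun k l => h.lim l k⟩
  filter_upwards [hb] with p hp k l
  refine (hp l k).trans (le_of_eq ?_)
  rw [show (l - k).natAbs = (k - l).natAbs by omega]

private theorem cl_bT_band {v : ℝ} (hv : 1 < v) :
    Band win (fun p => emb p.2 (bm v p.1)ᵀ) (Tz fun x => bx v x⁻¹) := by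
  have h := cl_transpose (bm_band hv)
  have e1 : (fun (p : ℕ × ℕ) (k l : ℤ) => emb p.2 (bm v p.1) l k) =
      fun p => emb p.2 (bm v p.1)ᵀ := by
    funext p k l
    rw [emb_transpose]
  have e2 : (fun k l : ℤ => Tz (bx v) l k) = Tz fun x => bx v x⁻¹ := by
    funext k l
    rw [Tz_inv]
  rw [e1, e2] at h
  exact h

private theorem cl_bbT {v : ℝ} (hv : 1 < v) :
    mm (Tz (bx v)) (Tz fun x => bx v x⁻¹) = one' := by
  rw [Tz_mul (bx_ann hv) (bx_ann hv).inv', ← Tz_one]
  funext k l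
  unfold Tz
  exact fc_congr (fun x hx => bx_inv hv hx) _

/-- the limit of `b W bᵀ` -/
private theorem cl_bWb {v : ℝ} (hv : 1 < v) :
    Band win (fun p => emb p.2 (bm v p.1 * Wc p.1 p.2 * (bm v p.1)ᵀ))
      (fun k l => 2 * mm (mm (Tz (bx v)) PiZ) (Tz fun x => bx v x⁻¹) k l - one' k l) := by
  have h := ((bm_band hv).mm emb_Wc_band).mm (cl_bT_band hv)
  have e1 : (fun p : ℕ × ℕ => mm (mm (emb p.2 (bm v p.1)) (emb p.2 (Wc p.1 p.2)))
      (emb p.2 (bm v p.1)ᵀ)) = fun p => emb p.2 (bm v p.1 * Wc p.1 p.2 * (bm v p.1)ᵀ) := by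
    funext p
    rw [emb_mul, emb_mul]
  have e2 : mm (mm (Tz (bx v)) (fun k l => 2 * PiZ k l - one' k l)) (Tz fun x => bx v x⁻¹) =
      fun k l => 2 * mm (mm (Tz (bx v)) PiZ) (Tz fun x => bx v x⁻¹) k l - one' k l := by
    have hb := Tz_BB (bx_ann hv)
    have hbT := Tz_BB (bx_ann hv).inv'
    have h1 : (fun k l : ℤ => 2 * PiZ k l - one' k l) =
        fun k l => (fun k l => PiZ k l + PiZ k l) k l + (fun k l => - one' k l) k l := by
      funext k l
      ring
    have hP2 : BB (fun k l : ℤ => PiZ k l + PiZ k l) := BB_add BB_Pi BB_Pi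
    have hneg : BB (fun k l : ℤ => - one' k l) := BB_neg BB_one
    rw [h1, mm_add_right hb hP2 hneg, mm_add_right hb BB_Pi BB_Pi]
    have h2 : mm (Tz (bx v)) (fun k l => - one' k l) = fun k l => - Tz (bx v) k l := by
      have h3 := mm_one (Tz (bx v))
      funext k l
      have h4 := congrFun (congrFun h3 k) l
      unfold mm at h4 ⊢
      simp only [mul_neg, tsum_neg, h4]
    rw [h2, mm_add_left (BB_add (BB_mm hb BB_Pi) (BB_mm hb BB_Pi)) (BB_neg hb) hbT,
      mm_add_left (BB_mm hb BB_Pi) (BB_mm hb BB_Pi) hbT]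
    have h5 : mm (fun k l => - Tz (bx v) k l) (Tz fun x => bx v x⁻¹) = fun k l => - one' k l := by
      have h6 := cl_bbT hv
      funext k l
      have h7 := congrFun (congrFun h6 k) l
      unfold mm at h7 ⊢
      simp only [neg_mul, tsum_neg, h7]
    rw [h5]
    funext k l
    ring
  rw [e1, e2] at h
  exact h

theorem Dm_band {v : ℝ} (hv : 1 < v) : Band win (fun p => emb p.2 (Dm v p.1 p.2)) (D0 v) := by
  have h := ((cl_bWb hv).add emb_Wc_band).smul (1 / 2)
  have e1 : (fun (p : ℕ × ℕ) (k l : ℤ) => (1 / 2 : ℂ) *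
      (emb p.2 (bm v p.1 * Wc p.1 p.2 * (bm v p.1)ᵀ) k l + emb p.2 (Wc p.1 p.2) k l)) =
      fun p => emb p.2 (Dm v p.1 p.2) := by
    funext p k l
    unfold Dm
    rw [emb_smul, emb_add]
    push_cast
    ring
  have e2 : (fun k l : ℤ => (1 / 2 : ℂ) *
      ((2 * mm (mm (Tz (bx v)) PiZ) (Tz fun x => bx v x⁻¹) k l - one' k l) +
        (2 * PiZ k l - one' k l))) = D0 v := by
    funext k l
    unfold D0
    ring
  rw [e1, e2] at h
  exact h

private theorem cl_Bc_band {v : ℝ} (hv : 1 < v) :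
    Band win (fun p => emb p.2 (Bc v p.1 p.2)) (B0 v) := by
  have h := ((emb_Wc_band).add ((cl_bWb hv).smul (-1))).smul (1 / 2)
  have e1 : (fun (p : ℕ × ℕ) (k l : ℤ) => (1 / 2 : ℂ) *
      (emb p.2 (Wc p.1 p.2) k l + -1 * emb p.2 (bm v p.1 * Wc p.1 p.2 * (bm v p.1)ᵀ) k l)) =
      fun p => emb p.2 (Bc v p.1 p.2) := by
    funext p k l
    unfold Bc
    rw [emb_smul, sub_eq_add_neg, emb_add, ← neg_one_smul ℝ (bm v p.1 * Wc p.1 p.2 * (bm v p.1)ᵀ),
      emb_smul]
    push_cast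
    ring
  have e2 : (fun k l : ℤ => (1 / 2 : ℂ) * ((2 * PiZ k l - one' k l) +
      -1 * (2 * mm (mm (Tz (bx v)) PiZ) (Tz fun x => bx v x⁻¹) k l - one' k l))) = B0 v := by
    funext k l
    unfold B0
    ring
  rw [e1, e2] at h
  exact h

/-- the entries of `W b - b W` -/
private theorem cl_comm (a m : ℕ) (A : Matrix (Fin m) (Fin m) ℝ) (k l : ℤ) :
    ‖emb a (Wc m a * A - A * Wc m a) k l‖ ≤
      if (k < 0 ∧ 0 ≤ l) ∨ (l < 0 ∧ 0 ≤ k) then 2 * ‖emb a A k l‖ else 0 := by
  unfold emb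
  by_cases h : (0 ≤ k + a ∧ k + a < m) ∧ (0 ≤ l + a ∧ l + a < m)
  · rw [dif_pos h, dif_pos h]
    unfold Wc
    rw [Matrix.sub_apply, Matrix.diagonal_mul, Matrix.mul_diagonal]
    simp only
    by_cases hk : k < 0
    · have h1 : (k + a).toNat < a := by omega
      rw [if_pos h1]
      by_cases hl : l < 0
      · have h2 : (l + a).toNat < a := by omega
        rw [if_pos h2, if_neg (by omega)]
        simp
      · have h2 : ¬ (l + a).toNat < a := by omega
        rw [if_neg h2, if_pos (by omega)]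
        set x := A ⟨(k + a).toNat, by omega⟩ ⟨(l + a).toNat, by omega⟩
        rw [Complex.norm_real, Complex.norm_real, show -1 * x - x * 1 = -(2 * x) by ring, norm_neg,
          norm_mul]
        simp
    · have h1 : ¬ (k + a).toNat < a := by omega
      rw [if_neg h1]
      by_cases hl : l < 0
      · have h2 : (l + a).toNat < a := by omega
        rw [if_pos h2, if_pos (by omega)]
        set x := A ⟨(k + a).toNat, by omega⟩ ⟨(l + a).toNat, by omega⟩
        rw [Complex.norm_real, Complex.norm_real, show 1 * x - x * -1 = 2 * x by ring, norm_mul]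
        simp
      · have h2 : ¬ (l + a).toNat < a := by omega
        rw [if_neg h2, if_neg (by omega)]
        simp
  · rw [dif_neg h, dif_neg h]
    simp

private theorem cl_K_loc {v : ℝ} (hv : 1 < v) :
    ∃ K0, Loc win (fun p => emb p.2 (Wc p.1 p.2 * bm v p.1 - bm v p.1 * Wc p.1 p.2)) K0 := by
  have h := ((emb_Wc_band).mm (bm_band hv)).add (((bm_band hv).mm emb_Wc_band).smul (-1))
  obtain ⟨C, q, hC, hq0, hq1, hb⟩ := (bm_band hv).bound
  refine ⟨_, ⟨⟨2 * C, q, by positivity, hq0, hq1, ?_⟩, fun k l => (h.lim k l).congr fun p => ?_⟩⟩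
  · filter_upwards [hb] with p hp k l
    refine (cl_comm p.2 p.1 (bm v p.1) k l).trans ?_
    split_ifs with hs
    · have h1 := hp k l
      rw [show (k - l).natAbs = k.natAbs + l.natAbs by omega] at h1
      linarith
    · positivity
  · rw [← emb_mul, ← emb_mul, sub_eq_add_neg, emb_add,
      ← neg_one_smul ℝ (bm v p.1 * Wc p.1 p.2), emb_smul]
    push_cast
    ring

theorem Bc_loc {v : ℝ} (hv : 1 < v) : Loc win (fun p => emb p.2 (Bc v p.1 p.2)) (B0 v) := by
  obtain ⟨K0, hK⟩ := cl_K_loc hv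
  have h := (hK.mm_band (cl_bT_band hv)).smul (1 / 2)
  have e1 : (fun (p : ℕ × ℕ) (k l : ℤ) => (1 / 2 : ℂ) *
      mm (emb p.2 (Wc p.1 p.2 * bm v p.1 - bm v p.1 * Wc p.1 p.2)) (emb p.2 (bm v p.1)ᵀ) k l) =
      fun p => emb p.2 (Bc v p.1 p.2) := by
    funext p k l
    have h2 : Bc v p.1 p.2 = (1 / 2 : ℝ) •
        ((Wc p.1 p.2 * bm v p.1 - bm v p.1 * Wc p.1 p.2) * (bm v p.1)ᵀ) := by
      unfold Bc
      rw [Matrix.sub_mul, Matrix.mul_assoc (Wc p.1 p.2), bm_mul_transpose hv, Matrix.mul_one]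
    rw [h2, emb_smul, emb_mul]
    push_cast
    rfl
  rw [e1] at h
  exact ⟨h.bound, (cl_Bc_band hv).lim⟩

end

end IsingS2
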