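import Pool.Agent.Helper98.NB.Defs

/-!
# The two dimensional Ising model and its form factor series: definitions

Part 1: the lattice model.  Part 2: the matrices of the Majorana chain.  Part 3: the spin operators.
-/

namespace IsingS2

open Complex Set MeasureTheory Filter Topology IsingNB
open scoped Real Matrix

noncomputable section

/-! ### Part 1: the lattice model -/

/-- The value `±1` of a spin. -/
def sg (b : Bool) : ℝ := if b then 1 else -1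

/-- A configuration on `Λ`, extended by `+1` outside `Λ`. -/
def ext (Λ : Finset (ℤ × ℤ)) (σ : Λ → Bool) (x : ℤ × ℤ) : ℝ :=
  if h : x ∈ Λ then sg (σ ⟨x, h⟩) else 1

/-- The four nearest neighbours of a site. -/
def nbr (x : ℤ × ℤ) : Finset (ℤ × ℤ) := {(x.1 + 1, x.2), (x.1 - 1, x.2), (x.1, x.2 + 1), (x.1, x.2 - 1)}

/-- The sum of `σ_x σ_y` over all nearest neighbour pairs inside `Λ`, plus (if `plus = true`) the sum
over all pairs of a site of `Λ` and a site outside, where the outside spins are `+1`. -/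
def action (plus : Bool) (Λ : Finset (ℤ × ℤ)) (σ : Λ → Bool) : ℝ :=
  ∑ x ∈ Λ, ∑ y ∈ nbr x,
    if y ∈ Λ then ext Λ σ x * ext Λ σ y / 2 else if plus then ext Λ σ x else 0

/-- The finite volume Gibbs expectation with plus (`plus = true`) or free boundary condition at
coupling `K = E/(kT)`. -/
def ev (plus : Bool) (K : ℝ) (Λ : Finset (ℤ × ℤ)) (F : (ℤ × ℤ → ℝ) → ℝ) : ℝ :=
  (∑ σ : Λ → Bool, F (ext Λ σ) * Real.exp (K * action plus Λ σ)) /
    ∑ σ : Λ → Bool, Real.exp (K * action plus Λ σ)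

/-- two point function -/
def corr (plus : Bool) (K : ℝ) (Λ : Finset (ℤ × ℤ)) (x y : ℤ × ℤ) : ℝ :=
  ev plus K Λ (fun s => s x * s y)

/-- magnetisation -/
def mag (plus : Bool) (K : ℝ) (Λ : Finset (ℤ × ℤ)) (x : ℤ × ℤ) : ℝ := ev plus K Λ (fun s => s x)

/-- The rectangle `[-k,k] × [-L,L]`. -/
def rect (k L : ℕ) : Finset (ℤ × ℤ) :=
  Finset.Icc (-(k : ℤ)) k ×ˢ Finset.Icc (-(L : ℤ)) L

/-! ### transfer matrices; space sites `Fin (n+1)` -/

/-- The vertical part of the weight of one column of `n+1` spins. -/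
def Av (plus : Bool) (K : ℝ) (n : ℕ) (σ : Fin (n + 1) → Bool) : ℝ :=
  Real.exp (K * ((∑ a : Fin n, sg (σ a.castSucc) * sg (σ a.succ)) +
    if plus then sg (σ 0) + sg (σ (Fin.last n)) else 0))

/-- The horizontal part. -/
def Bm (K : ℝ) (n : ℕ) : Matrix (Fin (n + 1) → Bool) (Fin (n + 1) → Bool) ℝ :=
  Matrix.of fun σ τ => Real.exp (K * ∑ a, sg (σ a) * sg (τ a))

/-- The symmetric transfer matrix. -/
def Vm (plus : Bool) (K : ℝ) (n : ℕ) : Matrix (Fin (n + 1) → Bool) (Fin (n + 1) → Bool) ℝ :=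
  Matrix.of fun σ τ => Real.sqrt (Av plus K n σ) * Bm K n σ τ * Real.sqrt (Av plus K n τ)

/-- The spin at the space site `a` as a diagonal matrix. -/
def Zd (n : ℕ) (a : Fin (n + 1)) : Matrix (Fin (n + 1) → Bool) (Fin (n + 1) → Bool) ℝ :=
  Matrix.diagonal fun σ => sg (σ a)

/-- The boundary vector at the two ends in time. -/
def lv (plus : Bool) (K : ℝ) (n : ℕ) (σ : Fin (n + 1) → Bool) : ℝ :=
  Real.sqrt (Av plus K n σ) * if plus then Real.exp (K * ∑ a, sg (σ a)) else 1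

/-- `Ω` is the normalised positive top eigenvector of `V`, with eigenvalue `Λ`. -/
structure PFvec {ι : Type*} [Fintype ι] (V : Matrix ι ι ℝ) (Ω : ι → ℝ) (Λ : ℝ) : Prop where
  pos : ∀ i, 0 < Ω i
  norm : ∑ i, Ω i ^ 2 = 1
  Λ_pos : 0 < Λ
  eig : V.mulVec Ω = Λ • Ω
  bound : ∀ x : ι → ℝ, ∑ i, (V.mulVec x i) ^ 2 ≤ Λ ^ 2 * ∑ i, x i ^ 2

/-! ### Part 2: the chain; `v > 1` is `sinh` of twice the strong coupling -/

def Cs (v : ℝ) : ℝ := Real.sqrt (1 + v ^ 2)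
def Cw (v : ℝ) : ℝ := Real.sqrt (1 + v ^ 2) / v
def c1 (v : ℝ) : ℝ := Real.sqrt ((Cs v + 1) / 2)
def s1 (v : ℝ) : ℝ := Real.sqrt ((Cs v - 1) / 2)
/-- strong and weak coupling -/
def κs (v : ℝ) : ℝ := Real.arsinh v / 2
def κw (v : ℝ) : ℝ := Real.arsinh (1 / v) / 2
/-- `c = v + 1/v` -/
def cc (v : ℝ) : ℝ := v + 1 / v

def df (v : ℝ) {m : ℕ} (k : Fin m) : ℝ := if (k : ℕ) = 0 then 1 else Cw v
def dg (v : ℝ) {m : ℕ} (k : Fin m) : ℝ := if (k : ℕ) + 1 = m then 1 else Cw v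

/-- The off diagonal block of the one particle transfer matrix. -/
def Lm (v : ℝ) (m : ℕ) : Matrix (Fin m) (Fin m) ℝ := Matrix.of fun k l =>
  if k = l then c1 v * s1 v * (df v k + dg v k)
  else if (l : ℕ) = k + 1 then -(c1 v ^ 2) / v
  else if (k : ℕ) = l + 1 then -(s1 v ^ 2) / v else 0

def Hf (v : ℝ) (m : ℕ) : Matrix (Fin m) (Fin m) ℝ := Matrix.of fun k l =>
  if k = l then cc v - (Cw v - 1) * ((if (k : ℕ) = 0 then c1 v ^ 2 else 0) +
    (if (k : ℕ) + 1 = m then s1 v ^ 2 else 0))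
  else if (l : ℕ) = k + 1 ∨ (k : ℕ) = l + 1 then -1 / 2 else 0

def Hg (v : ℝ) (m : ℕ) : Matrix (Fin m) (Fin m) ℝ := Matrix.of fun k l =>
  if k = l then cc v - (Cw v - 1) * ((if (k : ℕ) = 0 then s1 v ^ 2 else 0) +
    (if (k : ℕ) + 1 = m then c1 v ^ 2 else 0))
  else if (l : ℕ) = k + 1 ∨ (k : ℕ) = l + 1 then -1 / 2 else 0

/-- Taylor coefficients at `0` of `x ↦ ((c+x)^2-1)^(-1/2)`. -/
def ac (c : ℝ) (n : ℕ) : ℝ :=
  iteratedDeriv n (fun x : ℝ => 1 / Real.sqrt ((c + x) ^ 2 - 1)) 0 / n.factorial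

/-- `((c+X)^2-1)^(-1/2)` by the power series. -/
def aS (c : ℝ) {m : ℕ} (X : Matrix (Fin m) (Fin m) ℝ) : Matrix (Fin m) (Fin m) ℝ :=
  Matrix.of fun k l => ∑' n, ac c n * (X ^ n) k l

/-- The orthogonal matrix `b`. -/
def bm (v : ℝ) (m : ℕ) : Matrix (Fin m) (Fin m) ℝ := Lm v m * aS (cc v) (Hf v m - (cc v) • 1)

/-- The one particle transfer matrix on the creation operators. -/
def wm (v : ℝ) (m : ℕ) : Matrix (Fin m) (Fin m) ℝ := Hg v m - Lm v m * (bm v m)ᵀ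

/-- The sign matrix of the cut `a`. -/
def Wc (m a : ℕ) : Matrix (Fin m) (Fin m) ℝ := Matrix.diagonal fun k => if (k : ℕ) < a then -1 else 1

def Dm (v : ℝ) (m a : ℕ) : Matrix (Fin m) (Fin m) ℝ :=
  (1 / 2 : ℝ) • (bm v m * Wc m a * (bm v m)ᵀ + Wc m a)
def Bc (v : ℝ) (m a : ℕ) : Matrix (Fin m) (Fin m) ℝ :=
  (1 / 2 : ℝ) • (Wc m a - bm v m * Wc m a * (bm v m)ᵀ)
def Ym (v : ℝ) (m a : ℕ) : Matrix (Fin m) (Fin m) ℝ := (Dm v m a)⁻¹ * Bc v m a

/-- `1 - w^N Y_b w^N Y_a` -/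
def Pm (v : ℝ) (m a b N : ℕ) : Matrix (Fin m) (Fin m) ℝ :=
  1 - wm v m ^ N * Ym v m b * wm v m ^ N * Ym v m a

/-- The vectors `g_a` and `g'_b` (with the unit vector `e` at `a` resp. `b`). -/
def ga (v : ℝ) (m a : ℕ) (e : Fin m → ℝ) : Fin m → ℝ :=
  (c1 v • bm v m + s1 v • 1).mulVec e + (Ym v m a).mulVec ((s1 v • 1 - c1 v • bm v m).mulVec e)
def gb (v : ℝ) (m b : ℕ) (e : Fin m → ℝ) : Fin m → ℝ :=
  (s1 v • 1 - c1 v • bm v m).mulVec e + (Ym v m b).mulVec ((c1 v • bm v m + s1 v • 1).mulVec e)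

/-- the unit vector at position `a` (zero if `m ≤ a`) -/
def ev1 (m a : ℕ) : Fin m → ℝ := fun k => if (k : ℕ) = a then 1 else 0

/-- `- g_a · adj(1 - w^N Y_b w^N Y_a) w^N g'_b` -/
def Qm (v : ℝ) (m a b N : ℕ) : ℝ :=
  -(ga v m a (ev1 m a) ⬝ᵥ (Pm v m a b N).adjugate.mulVec ((wm v m ^ N).mulVec (gb v m b (ev1 m b))))

/-! ### Part 3: abstract chain -/

/-- Canonical anticommutation relations of `2m` Majorana operators. -/
structure CAR {m : ℕ} {V : Type*} [AddCommGroup V] [Module ℂ V] (f g : Fin m → Module.End ℂ V) : Prop where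
  ff : ∀ i j, f i * f j + f j * f i = if i = j then 2 else 0
  gg : ∀ i j, g i * g j + g j * g i = if i = j then 2 else 0
  fg : ∀ i j, f i * g j + g j * f i = 0

section chain
variable {m : ℕ} {V : Type*} [AddCommGroup V] [Module ℂ V]

/-- `exp((κs/2) Σ i f_k g_k)` -/
def Sh (v : ℝ) (f g : Fin m → Module.End ℂ V) : Module.End ℂ V :=
  ((List.finRange m).map fun k : Fin m =>
    ((Real.cosh (κs v / 2) : ℝ) : ℂ) • (1 : Module.End ℂ V) +
      (((Real.sinh (κs v / 2) : ℝ) : ℂ) * I) • (f k * g k)).prod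

/-- `exp(κw Σ i g_k f_{k+1})` -/
def Wk (v : ℝ) (f g : Fin m → Module.End ℂ V) : Module.End ℂ V :=
  ((List.finRange m).map fun k : Fin m =>
    if h : (k : ℕ) + 1 < m then
      ((Real.cosh (κw v) : ℝ) : ℂ) • (1 : Module.End ℂ V) +
        (((Real.sinh (κw v) : ℝ) : ℂ) * I) • (g k * f ⟨(k : ℕ) + 1, h⟩)
    else 1).prod

/-- the transfer operator of the chain -/
def VV (v : ℝ) (f g : Fin m → Module.End ℂ V) : Module.End ℂ V := Sh v f g * Wk v f g * Sh v f g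

/-- annihilation operators -/
def ps (v : ℝ) (f g : Fin m → Module.End ℂ V) (u : Fin m → ℂ) : Module.End ℂ V :=
  (1 / 2 : ℂ) • ∑ k : Fin m,
    ((I * ((bm v m)ᵀ.map (fun x : ℝ => (x : ℂ))).mulVec u k) • f k + u k • g k)

/-- creation operators -/
def psd (v : ℝ) (f g : Fin m → Module.End ℂ V) (u : Fin m → ℂ) : Module.End ℂ V :=
  (1 / 2 : ℂ) • ∑ k : Fin m,
    ((-I * ((bm v m)ᵀ.map (fun x : ℝ => (x : ℂ))).mulVec u k) • f k + u k • g k)

/-- the cut operator `∏_{k<a} i f_k g_k` -/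
def Oa (a : ℕ) (f g : Fin m → Module.End ℂ V) : Module.End ℂ V :=
  ((List.finRange m).map fun k : Fin m => if (k : ℕ) < a then I • (f k * g k) else 1).prod

/-- the odd operator `c1 f_a - i s1 g_a` -/
def Xi (v : ℝ) (f g : Fin m → Module.End ℂ V) (a : Fin m) : Module.End ℂ V :=
  ((c1 v : ℝ) : ℂ) • f a - (I * (s1 v : ℝ)) • g a

/-- a vacuum of the chain -/
structure Vac (v : ℝ) (f g : Fin m → Module.End ℂ V) (Ω : V) (Ω' : V →ₗ[ℂ] ℂ) (Λ : ℂ) : Prop where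
  Λ_ne : Λ ≠ 0
  eig : VV v f g Ω = Λ • Ω
  eig' : ∀ x, Ω' (VV v f g x) = Λ * Ω' x
  norm : Ω' Ω = 1
  ann : ∀ u, ps v f g u Ω = 0
  ann' : ∀ u x, Ω' (psd v f g u x) = 0

/-- even two point function of the chain -/
def Ech (v : ℝ) (f g : Fin m → Module.End ℂ V) (Ω : V) (Ω' : V →ₗ[ℂ] ℂ) (Λ : ℂ) (a b N : ℕ) : ℂ :=
  Ω' (Oa a f g ((VV v f g ^ N) (Oa b f g Ω))) / Λ ^ N

/-- odd two point function of the chain -/
def Gch (v : ℝ) (f g : Fin m → Module.End ℂ V) (Ω : V) (Ω' : V →ₗ[ℂ] ℂ) (Λ : ℂ) (a b : Fin m) (N : ℕ) : ℂ :=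
  Ω' (Oa a f g (Xi v f g a ((VV v f g ^ N) (Xi v f g b (Oa b f g Ω))))) / Λ ^ N

end chain

/-! ### spin space -/

/-- complex functions of `n` spins -/
abbrev Sp (n : ℕ) : Type := (Fin n → Bool) → ℂ

/-- multiplication by the spin at `a` -/
def Zo {n : ℕ} (a : Fin n) : Module.End ℂ (Sp n) where
  toFun φ := fun σ => (sg (σ a) : ℂ) * φ σ
  map_add' x y := by funext σ; simp [mul_add]
  map_smul' r x := by funext σ; simp [mul_left_comm]

/-- flip of the spin at `a` -/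
def Xo {n : ℕ} (a : Fin n) : Module.End ℂ (Sp n) where
  toFun φ := fun σ => φ (Function.update σ a (!(σ a)))
  map_add' x y := by funext σ; simp
  map_smul' r x := by funext σ; simp

/-- the string `∏_{b<a} X_b` -/
def Str {n : ℕ} (a : Fin n) : Module.End ℂ (Sp n) :=
  ((List.finRange n).map fun b : Fin n => if b < a then Xo b else 1).prod

/-- Majorana operators -/
def pM {n : ℕ} (a : Fin n) : Module.End ℂ (Sp n) := Str a * Zo a
def qM {n : ℕ} (a : Fin n) : Module.End ℂ (Sp n) := Str a * (I • (Xo a * Zo a))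

/-- chain of the low temperature strip: sites `0..m`, walls at `0` and `m` -/
def fL {m : ℕ} (k : Fin m) : Module.End ℂ (Sp (m + 1)) := qM k.castSucc
def gL {m : ℕ} (k : Fin m) : Module.End ℂ (Sp (m + 1)) := pM k.succ

/-! ### Part 4: the series -/

/-- `1 +` sum of the terms with an even number of particles -/
def Deven (M : ℤ) (N : ℕ) (c : ℂ) : ℂ := ∑' k : ℕ, FF (2 * k) M N c
/-- sum of the terms with an odd number of particles -/
def Dodd (M : ℤ) (N : ℕ) (c : ℂ) : ℂ := ∑' k : ℕ, FF (2 * k + 1) M N c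

end

end IsingS2
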