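import Pool.Agent.Helper98.IS.Defs

/-!
# Infinite matrices, Fourier coefficients, Fredholm series: definitions

Part 5: infinite matrices on `ℤ` as limits of finite ones.  Part 6: symbols on the unit circle.
Part 7: Fredholm series of kernels on the circle.  Part 8: semi infinite Toeplitz matrices.
-/

namespace IsingS2

open Complex Set MeasureTheory Filter Topology IsingNB
open scoped Real Matrix

noncomputable section

/-! ### Part 5: infinite matrices -/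

/-- Extension of a finite matrix by zero to `ℤ × ℤ`, with the chain position `a` at `0`. -/
def emb (a : ℕ) {m : ℕ} (A : Matrix (Fin m) (Fin m) ℝ) (k l : ℤ) : ℂ :=
  if h : (0 ≤ k + a ∧ k + a < m) ∧ (0 ≤ l + a ∧ l + a < m) then
    ((A ⟨(k + a).toNat, by omega⟩ ⟨(l + a).toNat, by omega⟩ : ℝ) : ℂ)
  else 0

/-- Extension of a finite vector by zero. -/
def embV (a : ℕ) {m : ℕ} (u : Fin m → ℝ) (k : ℤ) : ℂ :=
  if h : 0 ≤ k + a ∧ k + a < m then ((u ⟨(k + a).toNat, by omega⟩ : ℝ) : ℂ) else 0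

/-- product of infinite matrices -/
def mm (A B : ℤ → ℤ → ℂ) (k l : ℤ) : ℂ := ∑' i : ℤ, A k i * B i l

/-- infinite matrix times vector -/
def mv (A : ℤ → ℤ → ℂ) (u : ℤ → ℂ) (k : ℤ) : ℂ := ∑' i : ℤ, A k i * u i

/-- identity -/
def one' (k l : ℤ) : ℂ := if k = l then 1 else 0

/-- unit vector -/
def dl (a k : ℤ) : ℂ := if k = a then 1 else 0

/-- translation of a matrix by `M` -/
def sft (M : ℤ) (A : ℤ → ℤ → ℂ) (k l : ℤ) : ℂ := A (k - M) (l - M)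

/-- exponential decay away from the diagonal -/
def BB (A : ℤ → ℤ → ℂ) : Prop :=
  ∃ C q : ℝ, 0 ≤ C ∧ 0 < q ∧ q < 1 ∧ ∀ k l, ‖A k l‖ ≤ C * q ^ (k - l).natAbs

/-- exponential decay away from the origin -/
def LL (A : ℤ → ℤ → ℂ) : Prop :=
  ∃ C q : ℝ, 0 ≤ C ∧ 0 < q ∧ q < 1 ∧ ∀ k l, ‖A k l‖ ≤ C * q ^ (k.natAbs + l.natAbs)

/-- exponential decay of a vector -/
def LV (u : ℤ → ℂ) : Prop :=
  ∃ C q : ℝ, 0 ≤ C ∧ 0 < q ∧ q < 1 ∧ ∀ k, ‖u k‖ ≤ C * q ^ k.natAbs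

/-- A family converges entrywise, with a uniform bound of type `BB`. -/
structure Band {β : Type*} (F : Filter β) (A : β → ℤ → ℤ → ℂ) (A0 : ℤ → ℤ → ℂ) : Prop where
  bound : ∃ C q : ℝ, 0 ≤ C ∧ 0 < q ∧ q < 1 ∧
    ∀ᶠ p in F, ∀ k l, ‖A p k l‖ ≤ C * q ^ (k - l).natAbs
  lim : ∀ k l, Tendsto (fun p => A p k l) F (𝓝 (A0 k l))

/-- A family converges entrywise, with a uniform bound of type `LL`. -/
structure Loc {β : Type*} (F : Filter β) (A : β → ℤ → ℤ → ℂ) (A0 : ℤ → ℤ → ℂ) : Prop where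
  bound : ∃ C q : ℝ, 0 ≤ C ∧ 0 < q ∧ q < 1 ∧
    ∀ᶠ p in F, ∀ k l, ‖A p k l‖ ≤ C * q ^ (k.natAbs + l.natAbs)
  lim : ∀ k l, Tendsto (fun p => A p k l) F (𝓝 (A0 k l))

/-- The same for vectors. -/
structure LocV {β : Type*} (F : Filter β) (u : β → ℤ → ℂ) (u0 : ℤ → ℂ) : Prop where
  bound : ∃ C q : ℝ, 0 ≤ C ∧ 0 < q ∧ q < 1 ∧ ∀ᶠ p in F, ∀ k, ‖u p k‖ ≤ C * q ^ k.natAbs
  lim : ∀ k, Tendsto (fun p => u p k) F (𝓝 (u0 k))

/-- The pairs `(m, a)` (length of the chain, position of the cut) with `a → ∞` and `m - a → ∞`. -/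
def win : Filter (ℕ × ℕ) := Filter.comap (fun p => min p.2 (p.1 - p.2)) atTop

/-- The determinant of a bordered matrix with rows and columns `M, h; g, 0`. -/
def bdet {ι : Type*} [Fintype ι] [DecidableEq ι] (M : Matrix ι ι ℂ) (h g : ι → ℂ) : ℂ :=
  (Matrix.fromBlocks M (Matrix.of fun i (_ : Unit) => h i) (Matrix.of fun (_ : Unit) l => g l)
    (0 : Matrix Unit Unit ℂ)).det

/-- The determinant of `1 + M`, as a series. -/
def Fdet (M : ℤ → ℤ → ℂ) : ℂ :=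
  ∑' j : ℕ, (1 / (j.factorial : ℂ)) *
    ∑' k : Fin j → ℤ, (Matrix.of fun i l : Fin j => M (k i) (k l)).det

/-- The bordered determinant of `1 + M`, as a series. -/
def Fbord (M : ℤ → ℤ → ℂ) (h g : ℤ → ℂ) : ℂ :=
  ∑' j : ℕ, (1 / (j.factorial : ℂ)) *
    ∑' k : Fin j → ℤ, bdet (Matrix.of fun i l : Fin j => M (k i) (k l)) (fun i => h (k i))
      (fun i => g (k i))

/-! ### Part 6: symbols on the unit circle -/

/-- Fourier coefficient of a function on the unit circle. -/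
def fc (f : ℂ → ℂ) (n : ℤ) : ℂ :=
  (1 / (2 * π)) * ∫ φ in (-π)..π, f (Complex.exp (I * φ)) * Complex.exp (-(I * n * φ))

/-- Toeplitz matrix -/
def Tz (f : ℂ → ℂ) (k l : ℤ) : ℂ := fc f (k - l)

/-- `f` is analytic in an annulus around the unit circle. -/
def Ann (f : ℂ → ℂ) : Prop :=
  ∃ q : ℝ, 0 < q ∧ q < 1 ∧ DifferentiableOn ℂ f {x | q < ‖x‖ ∧ ‖x‖ < q⁻¹}

/-- `exp (-γ)` as a function of `x = exp (iφ)`. -/
def ww (c x : ℂ) : ℂ := W (c - (x + x⁻¹) / 2)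

/-- `1 / sinh γ` -/
def sx (c x : ℂ) : ℂ := 2 * ww c x / (1 - ww c x ^ 2)

/-- symbol of `L` -/
def Lx (v : ℝ) (x : ℂ) : ℂ := (Cs v : ℂ) - (c1 v ^ 2 / v : ℝ) * x⁻¹ - (s1 v ^ 2 / v : ℝ) * x

/-- symbol of `b` -/
def bx (v : ℝ) (x : ℂ) : ℂ := Lx v x * sx (cc v) x

/-- `tanh κs` -/
def tt (v : ℝ) : ℝ := s1 v / c1 v
def al1 (v : ℝ) : ℝ := tt v * (1 - tt v) / (1 + tt v)
def al2 (v : ℝ) : ℝ := (1 - tt v) / (tt v * (1 + tt v))

/-- the plus factor of `b` -/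
def bp (v : ℝ) (x : ℂ) : ℂ := ((1 - al1 v * x) / (1 - al2 v * x)) ^ (1 / 2 : ℂ)
/-- the minus factor of `b` -/
def bq (v : ℝ) (x : ℂ) : ℂ := (bp v x⁻¹)⁻¹

/-- projection on `k ≥ 0` -/
def PiZ (k l : ℤ) : ℂ := if k = l ∧ 0 ≤ k then 1 else 0

/-- limits of `B` and `D` -/
def B0 (v : ℝ) (k l : ℤ) : ℂ := PiZ k l - mm (mm (Tz (bx v)) PiZ) (Tz fun x => bx v x⁻¹) k l
def D0 (v : ℝ) (k l : ℤ) : ℂ :=
  mm (mm (Tz (bx v)) PiZ) (Tz fun x => bx v x⁻¹) k l + PiZ k l - one' k l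
/-- limit of `Y` -/
def Y0 (v : ℝ) (k l : ℤ) : ℂ :=
  mm (mm (Tz (bq v)) PiZ) (Tz fun x => (bq v x)⁻¹) k l -
    mm (mm (Tz (bp v)) PiZ) (Tz fun x => (bp v x)⁻¹) k l

/-- limit of `w^N Y_b w^N Y_a`, `b = a + M` -/
def P0 (v : ℝ) (M : ℤ) (N : ℕ) : ℤ → ℤ → ℂ :=
  mm (mm (mm (Tz fun x => ww (cc v) x ^ N) (sft M (Y0 v))) (Tz fun x => ww (cc v) x ^ N)) (Y0 v)

/-- limit of `g_a` -/
def g0 (v : ℝ) (k : ℤ) : ℂ := fc (fun x => s1 v * bq v x + c1 v * bp v x) k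
/-- limit of `w^N g'_b` -/
def h0 (v : ℝ) (M : ℤ) (N : ℕ) (k : ℤ) : ℂ :=
  fc (fun x => ww (cc v) x ^ N * (s1 v * bq v x - c1 v * bp v x)) (k - M)

/-- Fourier transform of a matrix and of a vector -/
def ft (A : ℤ → ℤ → ℂ) (x y : ℂ) : ℂ := ∑' p : ℤ × ℤ, A p.1 p.2 * x ^ p.1 * y ^ p.2
def fv (u : ℤ → ℂ) (x : ℂ) : ℂ := ∑' k : ℤ, u k * x ^ k

/-- `μ(x) = b₋ w / ((1-w) x)` -/
def mu (v : ℝ) (x : ℂ) : ℂ := bq v x * ww (cc v) x / ((1 - ww (cc v) x) * x)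

/-- `g(x,y) = (x-y)/(1 - w w')` -/
def gx (c x y : ℂ) : ℂ := (x - y) / (1 - ww c x * ww c y)

/-! ### Part 7: Fredholm series on the circle -/

/-- `x = exp (iφ)` -/
def ex (φ : ℝ) : ℂ := Complex.exp (I * φ)

/-- Fredholm determinant of `1 + K` (measure `dφ/2π`). -/
def Kdet (K : ℝ → ℝ → ℂ) : ℂ :=
  ∑' j : ℕ, (1 / (j.factorial : ℂ)) * (1 / (2 * π)) ^ j *
    ∫ t in box j, (Matrix.of fun i l : Fin j => K (t i) (t l)).det

/-- Bordered Fredholm determinant. -/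
def Kbd (K : ℝ → ℝ → ℂ) (u w : ℝ → ℂ) : ℂ :=
  ∑' j : ℕ, (1 / (j.factorial : ℂ)) * (1 / (2 * π)) ^ j *
    ∫ t in box j, bdet (Matrix.of fun i l : Fin j => K (t i) (t l)) (fun i => u (t i))
      (fun i => w (t i))

/-- composition of kernels -/
def kc (K L : ℝ → ℝ → ℂ) (φ ψ : ℝ) : ℂ := (1 / (2 * π)) * ∫ θ in (-π)..π, K φ θ * L θ ψ

/-- one particle weight -/
def rh (c : ℂ) (M : ℤ) (N : ℕ) (x : ℂ) : ℂ := x ^ M * ww c x ^ N * sx c x

/-- the kernel `k` -/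
def kk (c : ℂ) (M : ℤ) (N : ℕ) (φ ψ : ℝ) : ℂ :=
  I * gx c (ex φ) (ex ψ) * (ww c (ex ψ) / ex ψ) * rh c M N (ex ψ)

/-! ### Part 8: semi infinite Toeplitz matrices of power series -/

/-- upper triangular -/
def Tm (f : PowerSeries ℂ) (k l : ℤ) : ℂ :=
  if 0 ≤ k ∧ k ≤ l then PowerSeries.coeff (l - k).toNat f else 0
/-- lower triangular -/
def Tp (f : PowerSeries ℂ) (k l : ℤ) : ℂ :=
  if 0 ≤ l ∧ l ≤ k then PowerSeries.coeff (k - l).toNat f else 0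

/-- exponentially decaying coefficients, also of the inverse, constant term `1` -/
structure GoodPS (f : PowerSeries ℂ) : Prop where
  one : PowerSeries.coeff 0 f = 1
  dec : ∃ C q : ℝ, 0 ≤ C ∧ 0 < q ∧ q < 1 ∧ ∀ n, ‖PowerSeries.coeff n f‖ ≤ C * q ^ n
  dec' : ∃ C q : ℝ, 0 ≤ C ∧ 0 < q ∧ q < 1 ∧ ∀ n, ‖PowerSeries.coeff n f⁻¹‖ ≤ C * q ^ n

/-- The determinant of the multiplicative commutator of the upper triangular `Tm f` and the lower
triangular `Tp h`. -/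
def Fc (f h : PowerSeries ℂ) : ℂ :=
  Fdet fun k l => mm (mm (mm (Tm f) (Tp h)) (Tm f⁻¹)) (Tp h⁻¹) k l - PiZ k l

/-! ### Part 9: operators on spin space and abstract Fock space -/

/-- operator of a real matrix -/
def opM {n : ℕ} (M : Matrix (Fin n → Bool) (Fin n → Bool) ℝ) : Module.End ℂ (Sp n) :=
  Matrix.toLin' (M.map fun x : ℝ => (x : ℂ))

/-- `exp (κ Σ X_a)` over all sites -/
def eX (κ : ℝ) (n : ℕ) : Module.End ℂ (Sp n) :=
  ((List.finRange n).map fun a : Fin n =>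
    ((Real.cosh κ : ℝ) : ℂ) • (1 : Module.End ℂ (Sp n)) + ((Real.sinh κ : ℝ) : ℂ) • Xo a).prod

/-- multiplication by a real function of the configuration -/
def mulO {n : ℕ} (F : (Fin n → Bool) → ℝ) : Module.End ℂ (Sp n) where
  toFun φ := fun σ => (F σ : ℂ) * φ σ
  map_add' x y := by funext σ; simp [mul_add]
  map_smul' r x := by funext σ; simp [mul_left_comm]

/-- the bilinear pairing with a vector -/
def pair {n : ℕ} (Ω : Sp n) : Sp n →ₗ[ℂ] ℂ where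
  toFun x := ∑ σ, Ω σ * x σ
  map_add' x y := by simp [mul_add, Finset.sum_add_distrib]
  map_smul' r x := by simp [Finset.mul_sum, mul_left_comm]

/-- Abstract Fock space: annihilation operators `c`, creation operators `d`, vacuum `Ω`. -/
structure Fock {m : ℕ} {V : Type*} [AddCommGroup V] [Module ℂ V] (c d : Fin m → Module.End ℂ V)
    (Ω : V) (Ω' : V →ₗ[ℂ] ℂ) : Prop where
  cc : ∀ i j, c i * c j + c j * c i = 0
  dd : ∀ i j, d i * d j + d j * d i = 0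
  cd : ∀ i j, c i * d j + d j * c i = if i = j then 1 else 0
  ann : ∀ i, c i Ω = 0
  ann' : ∀ i x, Ω' (d i x) = 0
  norm : Ω' Ω = 1

/-- vectors created from the vacuum -/
inductive InF {m : ℕ} {V : Type*} [AddCommGroup V] [Module ℂ V] (d : Fin m → Module.End ℂ V)
    (Ω : V) : V → Prop
  | vac : InF d Ω Ω
  | add (x y : V) : InF d Ω x → InF d Ω y → InF d Ω (x + y)
  | smul (r : ℂ) (x : V) : InF d Ω x → InF d Ω (r • x)
  | cre (k : Fin m) (x : V) : InF d Ω x → InF d Ω (d k x)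

/-- superdiagonal shift -/
def Um (m : ℕ) : Matrix (Fin m) (Fin m) ℝ :=
  Matrix.of fun k l => if (l : ℕ) = k + 1 then 1 else 0

/-- powers of an infinite matrix -/
def pw (A : ℤ → ℤ → ℂ) : ℕ → ℤ → ℤ → ℂ
  | 0 => one'
  | n + 1 => mm (pw A n) A

/-! ### Part 10: further definitions -/

/-- character -/
def chr {ι : Type*} (A : Finset ι) (σ : ι → Bool) : ℝ := ∏ i ∈ A, sg (σ i)

/-- normalisation constants of the transfer matrices -/
def nfH (v : ℝ) (n : ℕ) : ℝ := (Real.exp (κw v) / Real.cosh (κs v)) ^ (n + 1)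
def nfL (v : ℝ) (n : ℕ) : ℝ := (Real.exp (κs v) / Real.cosh (κw v)) ^ (n + 1)

/-- complexified matrix -/
def cM {m : ℕ} (A : Matrix (Fin m) (Fin m) ℝ) : Matrix (Fin m) (Fin m) ℂ := A.map fun x : ℝ => (x : ℂ)

/-- grid points of `[-π,π]` -/
def gr (n : ℕ) (i : Fin n) : ℝ := -π + 2 * π * i / n

/-- power series of `b₊` -/
def bps (v : ℝ) : PowerSeries ℂ := PowerSeries.mk fun n => fc (bp v) n

/-- `χ` is the zero field susceptibility per site at temperature `T` (Boltzmann constant `1`) of the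
isotropic Ising model with coupling `E`: the infinite volume two point function `G` and
magnetisation `m` are the limits of the finite volume ones in the squares `[-n,n]^2` with plus
(`plus = true`) or free boundary condition, and `T χ = Σ_x (G(x) - m^2)`. -/
def IsSusc (plus : Bool) (E T χ : ℝ) : Prop :=
  ∃ (G : ℤ × ℤ → ℝ) (m : ℝ),
    (∀ x, Tendsto (fun n => corr plus (E / T) (rect n n) (0, 0) x) atTop (𝓝 (G x))) ∧
    Tendsto (fun n => mag plus (E / T) (rect n n) (0, 0)) atTop (𝓝 m) ∧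
    HasSum (fun x => G x - m ^ 2) (T * χ)

end

end IsingS2
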