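import Pool.Agent.Helper98.IS.Defs2

/-!
# IS-21a: expansion of `det (1 + A)` in principal minors, bordered determinants
-/

namespace IsingS2

open Complex Set MeasureTheory Filter Topology IsingNB
open scoped Real Matrix

noncomputable section

/-- Sums of a symmetric function over maps `Fin j → ι` vanishing on the non injective ones. -/
private theorem sum_fun_eq {ι : Type*} [Fintype ι] [DecidableEq ι] (j : ℕ) (F : (Fin j → ι) → ℂ)
    (G : Finset ι → ℂ) (h0 : ∀ k, ¬Function.Injective k → F k = 0)
    (h1 : ∀ k, Function.Injective k → F k = G (Finset.univ.image k)) :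
    ∑ k, F k = (j.factorial : ℂ) * ∑ s ∈ Finset.powersetCard j (Finset.univ : Finset ι), G s := by
  classical
  have e1 : ∑ k, F k = ∑ k ∈ Finset.univ.filter (fun k : Fin j → ι => Function.Injective k),
      G (Finset.univ.image k) := by
    rw [Finset.sum_filter]
    refine Finset.sum_congr rfl fun k _ => ?_
    by_cases hk : Function.Injective k
    · rw [if_pos hk, h1 k hk]
    · rw [if_neg hk, h0 k hk]
  have hmaps : ∀ k ∈ Finset.univ.filter (fun k : Fin j → ι => Function.Injective k),
      (Finset.univ.image k) ∈ Finset.powersetCard j (Finset.univ : Finset ι) := by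
    intro k hk
    rw [Finset.mem_filter] at hk
    rw [Finset.mem_powersetCard]
    refine ⟨Finset.subset_univ _, ?_⟩
    rw [Finset.card_image_of_injective _ hk.2, Finset.card_univ, Fintype.card_fin]
  rw [e1, ← Finset.sum_fiberwise_of_maps_to hmaps, Finset.mul_sum]
  refine Finset.sum_congr rfl fun s hs => ?_
  rw [Finset.sum_congr rfl (g := fun _ => G s) (by
    intro k hk
    rw [Finset.mem_filter] at hk
    rw [hk.2]), Finset.sum_const, nsmul_eq_mul]
  congr 1
  rw [Finset.mem_powersetCard] at hs
  have hcard : ((Finset.univ.filter (fun k : Fin j → ι => Function.Injective k)).filter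
      (fun k => Finset.univ.image k = s)).card = j.factorial := by
    have e0 : Fin j ≃ ↥s := (Finset.equivFinOfCardEq hs.2).symm
    have hc : Fintype.card (Fin j ≃ ↥s) = j.factorial := by
      rw [Fintype.card_equiv e0, Fintype.card_fin]
    rw [← hc, ← Finset.card_univ]
    symm
    refine Finset.card_bij (fun (e : Fin j ≃ ↥s) _ => fun i => ((e i : ↥s) : ι)) ?_ ?_ ?_
    · intro e _
      rw [Finset.mem_filter, Finset.mem_filter]
      refine ⟨⟨Finset.mem_univ _, fun a b hab => e.injective (Subtype.ext hab)⟩, ?_⟩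
      ext x
      rw [Finset.mem_image]
      constructor
      · rintro ⟨i, _, rfl⟩
        exact (e i).2
      · intro hx
        exact ⟨e.symm ⟨x, hx⟩, Finset.mem_univ _, by simp⟩
    · intro e _ e' _ h
      ext i
      exact congrFun h i
    · intro k hk
      rw [Finset.mem_filter, Finset.mem_filter] at hk
      have hmem : ∀ i, k i ∈ s := by
        intro i
        rw [← hk.2]
        exact Finset.mem_image_of_mem _ (Finset.mem_univ _)
      refine ⟨Equiv.ofBijective (fun i => (⟨k i, hmem i⟩ : ↥s)) ⟨?_, ?_⟩, Finset.mem_univ _, ?_⟩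
      · intro a b hab
        exact hk.1.2 (congrArg Subtype.val hab)
      · rintro ⟨x, hx⟩
        rw [← hk.2, Finset.mem_image] at hx
        obtain ⟨i, _, hi⟩ := hx
        exact ⟨i, Subtype.ext hi⟩
      · rfl
  rw [hcard]

theorem det_one_add_eq {ι : Type*} [Fintype ι] [DecidableEq ι] (A : Matrix ι ι ℂ) :
    (1 + A).det = ∑ j ∈ Finset.range (Fintype.card ι + 1), (1 / (j.factorial : ℂ)) *
      ∑ k : Fin j → ι, (Matrix.of fun i l : Fin j => A (k i) (k l)).det := by
  classical
  let G : Finset ι → ℂ := fun s => (Matrix.toSquareBlockProp A fun i => i ∈ s).det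
  have e1 : (1 + A).det = ∑ s : Finset ι, G s := by
    rw [add_comm]
    have h : (A + 1).det = ∑ s : Finset ι, Matrix.det (s.piecewise A (1 : Matrix ι ι ℂ)) :=
      (Matrix.detRowAlternating (n := ι) (R := ℂ)).map_add_univ A (1 : Matrix ι ι ℂ)
    rw [h]
    refine Finset.sum_congr rfl fun s _ => ?_
    rw [Matrix.twoBlockTriangular_det _ (fun i => i ∈ s)]
    · have h2 : (Matrix.toSquareBlockProp (s.piecewise A (1 : Matrix ι ι ℂ)) fun i => ¬i ∈ s) = 1 := by
        funext i l
        have h4 : (s.piecewise A (1 : Matrix ι ι ℂ)) (i : ι) = (1 : Matrix ι ι ℂ) i :=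
          Finset.piecewise_eq_of_notMem _ _ _ i.2
        refine (congrFun h4 l).trans ?_
        rw [Matrix.one_apply, Matrix.one_apply]
        by_cases hil : i = l
        · rw [if_pos hil, if_pos (congrArg Subtype.val hil)]
        · rw [if_neg hil, if_neg (fun h => hil (Subtype.ext h))]
      have h3 : (Matrix.toSquareBlockProp (s.piecewise A (1 : Matrix ι ι ℂ)) fun i => i ∈ s) =
          Matrix.toSquareBlockProp A fun i => i ∈ s := by
        funext i l
        have h4 : (s.piecewise A (1 : Matrix ι ι ℂ)) (i : ι) = A i :=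
          Finset.piecewise_eq_of_mem _ _ _ i.2
        exact congrFun h4 l
      have h5 : ∀ F1 F2 : Fintype {i // i ∈ s},
          @Matrix.det _ _ F1 ℂ _ (A.toSquareBlockProp fun i => i ∈ s) =
          @Matrix.det _ _ F2 ℂ _ (A.toSquareBlockProp fun i => i ∈ s) := fun F1 F2 => by
        rw [Subsingleton.elim F1 F2]
      rw [h2, Matrix.det_one, mul_one, h3]
      exact h5 _ _
    · intro i hi l hl
      have h4 : (s.piecewise A (1 : Matrix ι ι ℂ)) i = (1 : Matrix ι ι ℂ) i :=
        Finset.piecewise_eq_of_notMem _ _ _ hi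
      refine (congrFun h4 l).trans ?_
      rw [Matrix.one_apply, if_neg]
      rintro rfl
      exact hi hl
  rw [e1, ← Finset.powerset_univ, Finset.sum_powerset, Finset.card_univ]
  refine Finset.sum_congr rfl fun j _ => ?_
  rw [sum_fun_eq j _ G]
  · rw [← mul_assoc, one_div, inv_mul_cancel₀ (by exact_mod_cast j.factorial_ne_zero), one_mul]
  · intro k hk
    rw [Function.not_injective_iff] at hk
    obtain ⟨a, b, hab, hne⟩ := hk
    refine Matrix.det_zero_of_row_eq hne ?_
    funext l
    simp [hab]
  · intro k hk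
    let e : Fin j ≃ ↥(Finset.univ.image k) :=
      Equiv.ofBijective (fun i => ⟨k i, Finset.mem_image_of_mem _ (Finset.mem_univ _)⟩) ⟨by
        intro a b hab
        exact hk (congrArg Subtype.val hab), by
        rintro ⟨x, hx⟩
        rw [Finset.mem_image] at hx
        obtain ⟨i, _, hi⟩ := hx
        exact ⟨i, Subtype.ext hi⟩⟩
    exact Matrix.det_submatrix_equiv_self e
      (Matrix.toSquareBlockProp A fun i => i ∈ Finset.univ.image k)

/-- bordered determinant and rank one perturbation -/
private theorem bdet_rank {ι : Type*} [Fintype ι] [DecidableEq ι] (M : Matrix ι ι ℂ) (h g : ι → ℂ) :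
    bdet M h g = M.det - (M + Matrix.of fun i l => h i * g l).det := by
  let base : Matrix (ι ⊕ Unit) (ι ⊕ Unit) ℂ :=
    Matrix.fromBlocks M (Matrix.of fun i (_ : Unit) => h i) 0 0
  have hrow : ∀ (u : ι → ℂ) (z : ℂ),
      Matrix.fromBlocks M (Matrix.of fun i (_ : Unit) => h i) (Matrix.of fun (_ : Unit) l => u l)
        (Matrix.of fun (_ : Unit) (_ : Unit) => z) =
      base.updateRow (Sum.inr ()) (Sum.elim u fun _ => z) := by
    intro u z
    ext i l
    rcases i with i | i
    · rw [Matrix.updateRow_ne (by simp)]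
      rcases l with l | l <;> rfl
    · rw [show (Sum.inr i : ι ⊕ Unit) = Sum.inr () by rfl, Matrix.updateRow_self]
      rcases l with l | l <;> rfl
  have h0 : (0 : Matrix Unit Unit ℂ) = Matrix.of fun (_ : Unit) (_ : Unit) => (0 : ℂ) := rfl
  unfold bdet
  rw [h0, hrow]
  have hsplit : (Sum.elim g fun _ => (0 : ℂ) : ι ⊕ Unit → ℂ) =
      (-1 : ℂ) • (Sum.elim (fun l => -g l) fun _ => (1 : ℂ)) + Sum.elim (fun _ => (0 : ℂ)) fun _ => 1 := by
    funext x
    rcases x with x | x <;> simp
  have hone : (Matrix.of fun (_ : Unit) (_ : Unit) => (1 : ℂ)) = (1 : Matrix Unit Unit ℂ) := by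
    ext i l
    simp
  rw [hsplit, Matrix.det_updateRow_add, Matrix.det_updateRow_smul, ← hrow, ← hrow, hone,
    Matrix.det_fromBlocks_one₂₂, Matrix.det_fromBlocks_one₂₂]
  have e1 : M - (Matrix.of fun i (_ : Unit) => h i) * (Matrix.of fun (_ : Unit) l => -g l) =
      M + Matrix.of fun i l => h i * g l := by
    ext i l
    simp [Matrix.mul_apply]
  have e2 : M - (Matrix.of fun i (_ : Unit) => h i) * (Matrix.of fun (_ : Unit) (_ : ι) => (0 : ℂ)) =
      M := by
    ext i l
    simp [Matrix.mul_apply]
  rw [e1, e2]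
  ring

theorem bdet_one_add_eq {ι : Type*} [Fintype ι] [DecidableEq ι] (A : Matrix ι ι ℂ) (h g : ι → ℂ) :
    bdet (1 + A) h g = ∑ j ∈ Finset.range (Fintype.card ι + 1), (1 / (j.factorial : ℂ)) *
      ∑ k : Fin j → ι, bdet (Matrix.of fun i l : Fin j => A (k i) (k l)) (fun i => h (k i))
        (fun i => g (k i)) := by
  rw [bdet_rank, add_assoc, det_one_add_eq A, det_one_add_eq, ← Finset.sum_sub_distrib]
  refine Finset.sum_congr rfl fun j _ => ?_
  rw [← mul_sub, ← Finset.sum_sub_distrib]
  congr 1
  refine Finset.sum_congr rfl fun k _ => ?_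
  rw [bdet_rank]
  congr 1

theorem bdet_eq {ι : Type*} [Fintype ι] [DecidableEq ι] (A : Matrix ι ι ℂ) (h g : ι → ℂ) :
    bdet A h g = -(g ⬝ᵥ A.adjugate.mulVec h) := by
  -- the invertible case
  have inv : ∀ B : Matrix ι ι ℂ, B.det ≠ 0 → bdet B h g = -(g ⬝ᵥ B.adjugate.mulVec h) := by
    intro B hB
    have hu : IsUnit B.det := isUnit_iff_ne_zero.mpr hB
    let _ : Invertible B := Matrix.invertibleOfIsUnitDet B hu
    let _ : Invertible B.det := Matrix.detInvertibleOfInvertible B
    unfold bdet
    rw [Matrix.det_fromBlocks₁₁, Matrix.det_unique (n := Unit), Matrix.invOf_eq]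
    have e1 : ((0 : Matrix Unit Unit ℂ) - (Matrix.of fun (_ : Unit) l => g l) *
        (⅟B.det • B.adjugate) * (Matrix.of fun i (_ : Unit) => h i)) default default =
        -(⅟B.det * (g ⬝ᵥ B.adjugate.mulVec h)) := by
      rw [Matrix.sub_apply, Matrix.zero_apply, zero_sub, Matrix.mul_smul, Matrix.smul_mul,
        Matrix.smul_apply, smul_eq_mul, Matrix.mul_assoc]
      rfl
    rw [e1, mul_neg, ← mul_assoc, mul_invOf_self, one_mul]
  -- density
  let S : Set ℂ := {t | ((-A).charpoly).IsRoot t}
  have hS : S.Countable := (Polynomial.finite_setOfPred_isRoot (Matrix.charpoly_monic _).ne_zero).countable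
  have hd : Dense Sᶜ := hS.dense_compl ℂ
  have hf : Continuous fun t : ℂ => bdet (A + t • 1) h g := by
    unfold bdet
    refine Continuous.matrix_det ?_
    refine continuous_matrix fun i l => ?_
    rcases i with i | i <;> rcases l with l | l
    · simp only [Matrix.fromBlocks_apply₁₁, Matrix.add_apply, Matrix.smul_apply]
      fun_prop
    · exact continuous_const
    · exact continuous_const
    · exact continuous_const
  have hg : Continuous fun t : ℂ => -(g ⬝ᵥ (A + t • 1).adjugate.mulVec h) := by
    have h1 : Continuous fun t : ℂ => A + t • (1 : Matrix ι ι ℂ) := by fun_prop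
    have h2 := h1.matrix_adjugate
    exact (Continuous.dotProduct continuous_const (h2.matrix_mulVec continuous_const)).neg
  have heq : EqOn (fun t : ℂ => bdet (A + t • 1) h g)
      (fun t : ℂ => -(g ⬝ᵥ (A + t • 1).adjugate.mulVec h)) Sᶜ := by
    intro t ht
    apply inv
    intro hdet
    apply ht
    change ((-A).charpoly).IsRoot t
    rw [Polynomial.IsRoot, Matrix.eval_charpoly]
    rw [← hdet]
    congr 1
    rw [sub_neg_eq_add, add_comm, Matrix.scalar_apply, Matrix.smul_one_eq_diagonal]
  have hfin := congrFun (Continuous.ext_on hd hf hg heq) 0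
  simpa using hfin

end

end IsingS2
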