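import Pool.Agent.Helper98.IS.FFBound
import Pool.Agent.Helper98.NB.PairBound

/-!
# IS-41b: reality, continuity and limit of the sums of the form factors
-/

namespace IsingS2

open Complex Set MeasureTheory Filter Topology IsingNB
open scoped Real Matrix

private theorem dc_real {c : ℝ} (hc : 2 < c) (e : ℕ → ℕ) (M : ℤ) (N : ℕ) :
    (∑' k : ℕ, FF (e k) M N c) = ((∑' k : ℕ, FF (e k) M N c).re : ℂ) := by
  choose r hr using fun k => FF_real hc (e k) M N
  have h1 : (∑' k : ℕ, FF (e k) M N c) = ((∑' k, r k : ℝ) : ℂ) := by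
    rw [Complex.ofReal_tsum]
    exact tsum_congr hr
  rw [h1, Complex.ofReal_re]

theorem Deven_real {c : ℝ} (hc : 2 < c) (M : ℤ) (N : ℕ) :
    Deven M N c = ((Deven M N c).re : ℂ) :=
  dc_real hc (fun k => 2 * k) M N

theorem Dodd_real {c : ℝ} (hc : 2 < c) (M : ℤ) (N : ℕ) :
    Dodd M N c = ((Dodd M N c).re : ℂ) :=
  dc_real hc (fun k => 2 * k + 1) M N

private theorem dc_bound {c1 : ℝ} (h : 2 < c1) :
    ∃ u : ℕ → ℝ, Summable u ∧ ∀ (M : ℤ) (N k : ℕ) (c : ℝ), c1 ≤ c →
      ‖FF (2 * k) M N c‖ ≤ u k := by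
  obtain ⟨A, q, hA, hq0, hq1, hb⟩ := FF_bound h
  have hbd0 : ∀ j : ℕ, 0 ≤ bd A j := by
    intro j
    unfold bd
    positivity
  have hs : Summable (fun k : ℕ => bd A (2 * k)) :=
    (summable_bd A).comp_injective (i := fun k : ℕ => 2 * k) (fun a b h => by simpa using h)
  refine ⟨fun k => bd A (2 * k) + (if k = 0 then 1 else 0), ?_, ?_⟩
  · refine hs.add ?_
    exact summable_of_finite_support ((Set.finite_singleton 0).subset (by
      intro k hk
      by_contra h0
      exact hk (if_neg h0)))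
  · intro M N k c hc
    show ‖FF (2 * k) M N c‖ ≤ bd A (2 * k) + (if k = 0 then 1 else 0)
    rcases Nat.eq_zero_or_pos k with rfl | hk
    · rw [mul_zero, FF_zero, norm_one, if_pos rfl]
      have := hbd0 0
      linarith
    · have h1 := hb (2 * k) M N c (by omega) hc
      have h2 : q ^ (M.natAbs + N) ≤ 1 := pow_le_one₀ hq0.le hq1.le
      have h3 := mul_le_mul_of_nonneg_left h2 (hbd0 (2 * k))
      rw [if_neg hk.ne', add_zero]
      linarith

theorem Deven_cont (M : ℤ) (N : ℕ) :
    ContinuousOn (fun c : ℝ => (Deven M N c).re) (Ioi 2) := by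
  intro c0 hc0
  have hc0' : (2 : ℝ) < c0 := hc0
  obtain ⟨u, hu, hb⟩ := dc_bound (c1 := (2 + c0) / 2) (by linarith)
  have h1 : ContinuousOn (fun c : ℝ => Deven M N c) (Ioi ((2 + c0) / 2)) := by
    unfold Deven
    refine continuousOn_tsum (fun k => ?_) hu (fun k c hc => hb M N k c (le_of_lt hc))
    refine (FF_cont (2 * k) M N).mono ?_
    intro c hc
    have : (2 + c0) / 2 < c := hc
    show (2 : ℝ) < c
    linarith
  have h2 : ContinuousAt (fun c : ℝ => Deven M N c) c0 :=
    h1.continuousAt (Ioi_mem_nhds (by linarith))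
  exact (Complex.continuous_re.continuousAt.comp h2).continuousWithinAt

theorem Deven_tendsto (M : ℤ) (N : ℕ) :
    Tendsto (fun c : ℝ => (Deven M N c).re) atTop (𝓝 1) := by
  obtain ⟨u, hu, hb⟩ := dc_bound (c1 := 3) (by norm_num)
  have h1 : Tendsto (fun c : ℝ => ∑' k : ℕ, FF (2 * k) M N c) atTop
      (𝓝 (∑' k : ℕ, (if k = 0 then (1 : ℂ) else 0))) := by
    refine tendsto_tsum_of_dominated_convergence hu (fun k => ?_) ?_
    · rcases Nat.eq_zero_or_pos k with rfl | hk
      · simp only [mul_zero, FF_zero, if_true]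
        exact tendsto_const_nhds
      · rw [if_neg hk.ne']
        exact FF_tendsto (2 * k) (by omega) M N
    · filter_upwards [eventually_ge_atTop (3 : ℝ)] with c hc k
      exact hb M N k c hc
  rw [tsum_ite_eq] at h1
  have h2 := (Complex.continuous_re.tendsto (1 : ℂ)).comp h1
  rw [Complex.one_re] at h2
  exact h2

end IsingS2
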