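import Pool.Agent.Helper98.IS.Defs2

/-!
# Abstract Fock space: the two point function and the square of the overlap
-/

namespace IsingS2

open Complex Set MeasureTheory Filter Topology IsingNB
open scoped Real Matrix

noncomputable section

/-! ### The derivative of a determinant -/

private lemma fdet_deriv_det {m : ℕ} (M : Matrix (Fin m) (Fin m) (Polynomial ℂ)) :
    Polynomial.derivative M.det =
      (M.adjugate * M.map (fun p => Polynomial.derivative p)).trace := by
  have h1 : Polynomial.derivative M.det =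
      ∑ i, (M.updateCol i (fun j => Polynomial.derivative (M j i))).det := by
    simp only [Matrix.det_apply', map_sum, Polynomial.derivative_mul]
    rw [Finset.sum_comm]
    refine Finset.sum_congr rfl fun σ _ => ?_
    rw [Polynomial.derivative_prod_finset]
    have h2 : Polynomial.derivative (((Equiv.Perm.sign σ : ℤ) : Polynomial ℂ)) = 0 :=
      Polynomial.derivative_intCast
    rw [h2, zero_mul, zero_add, Finset.mul_sum]
    refine Finset.sum_congr rfl fun i _ => ?_
    congr 1
    rw [← Finset.prod_erase_mul _ _ (Finset.mem_univ i)]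
    congr 1
    · refine Finset.prod_congr rfl fun j hj => ?_
      rw [Matrix.updateCol_ne (Finset.ne_of_mem_erase hj)]
    · rw [Matrix.updateCol_self]
  rw [h1]
  simp only [Matrix.trace, Matrix.diag]
  refine Finset.sum_congr rfl fun i _ => ?_
  rw [← Matrix.cramer_apply, Matrix.cramer_eq_adjugate_mulVec]
  rfl

/-- `P' Δ = P Δ'` and `Δ(0) = 1` imply `P = P(0) Δ`. -/
private lemma fdet_wronskian (P D : Polynomial ℂ) (hD : D.coeff 0 = 1)
    (h : Polynomial.derivative P * D = P * Polynomial.derivative D) :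
    P = Polynomial.C (P.coeff 0) * D := by
  have hD0 : PowerSeries.constantCoeff (D : PowerSeries ℂ) ≠ 0 := by
    rw [Polynomial.constantCoeff_coe, hD]
    exact one_ne_zero
  have hu : (D : PowerSeries ℂ) * (D : PowerSeries ℂ)⁻¹ = 1 := PowerSeries.mul_inv_cancel _ hD0
  have h' : PowerSeries.derivative ℂ (P : PowerSeries ℂ) * D =
      P * PowerSeries.derivative ℂ (D : PowerSeries ℂ) := by
    rw [PowerSeries.derivative_coe, PowerSeries.derivative_coe]
    exact_mod_cast congrArg (fun p : Polynomial ℂ => (p : PowerSeries ℂ)) h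
  have h2 : (P : PowerSeries ℂ) * (D : PowerSeries ℂ)⁻¹ = PowerSeries.C (P.coeff 0) := by
    refine PowerSeries.derivative.ext ?_ ?_
    · rw [Derivation.leibniz, PowerSeries.derivative_inv', PowerSeries.derivative_C]
      simp only [smul_eq_mul]
      linear_combination (((D : PowerSeries ℂ)⁻¹) ^ 2) * h' -
        ((D : PowerSeries ℂ)⁻¹ * PowerSeries.derivative ℂ (P : PowerSeries ℂ)) * hu
    · rw [map_mul, Polynomial.constantCoeff_coe, PowerSeries.constantCoeff_inv,
        Polynomial.constantCoeff_coe, hD, PowerSeries.constantCoeff_C]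
      simp
  have h3 : (P : PowerSeries ℂ) = PowerSeries.C (P.coeff 0) * D := by
    rw [← h2, mul_assoc, mul_comm ((D : PowerSeries ℂ)⁻¹), hu, mul_one]
  apply Polynomial.coe_injective
  rw [h3, Polynomial.coe_mul, Polynomial.coe_C]

section fock
variable {m : ℕ} {V : Type*} [AddCommGroup V] [Module ℂ V] {c d : Fin m → Module.End ℂ V} {Ω : V}
  {Ω' : V →ₗ[ℂ] ℂ}

private lemma fdet_cd (hF : Fock c d Ω Ω') (k l : Fin m) (x : V) :
    c k (d l x) = (if k = l then x else 0) - d l (c k x) := by
  have h := congrArg (fun f : Module.End ℂ V => f x) (hF.cd k l)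
  simp only [LinearMap.add_apply, Module.End.mul_apply] at h
  rw [eq_sub_iff_add_eq, h]
  split <;> simp

private lemma fdet_cc (hF : Fock c d Ω Ω') (k l : Fin m) (x : V) :
    c k (c l x) = - c l (c k x) := by
  have h := congrArg (fun f : Module.End ℂ V => f x) (hF.cc k l)
  simp only [LinearMap.add_apply, Module.End.mul_apply, LinearMap.zero_apply] at h
  exact eq_neg_of_add_eq_zero_left h

private lemma fdet_dd (hF : Fock c d Ω Ω') (k l : Fin m) (x : V) :
    d k (d l x) = - d l (d k x) := by
  have h := congrArg (fun f : Module.End ℂ V => f x) (hF.dd k l)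
  simp only [LinearMap.add_apply, Module.End.mul_apply, LinearMap.zero_apply] at h
  exact eq_neg_of_add_eq_zero_left h

/-- the basic relation for the two point function, with a shift of the level -/
private lemma fdet_step (hF : Fock c d Ω Ω') {Φ Φ2 : V} {Ψ : V →ₗ[ℂ] ℂ}
    {C A : Matrix (Fin m) (Fin m) ℂ}
    (hΦ : ∀ k, c k Φ2 = ∑ l, C l k • d l Φ) (hΨ : ∀ k x, Ψ (d k x) = ∑ l, A l k * Ψ (c l x))
    (k l : Fin m) :
    Ψ (c k (d l Φ2)) = (if k = l then Ψ Φ2 else 0) + ∑ j, Ψ (c k (d j Φ)) * (C * A) j l := by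
  rw [fdet_cd hF, map_sub, hΨ]
  have h1 : ∀ i, A i l * Ψ (c i (c k Φ2)) = - ∑ j, Ψ (c k (d j Φ)) * (C j i * A i l) := by
    intro i
    rw [fdet_cc hF, hΦ, map_neg, map_sum, map_sum, mul_neg, Finset.mul_sum]
    congr 1
    refine Finset.sum_congr rfl fun j _ => ?_
    rw [map_smul, map_smul, smul_eq_mul]
    ring
  simp only [h1, Finset.sum_neg_distrib, sub_neg_eq_add, Matrix.mul_apply, Finset.mul_sum]
  congr 1
  · split <;> simp
  · exact Finset.sum_comm

theorem fock_two (hF : Fock c d Ω Ω') {Φ : V} {Ψ : V →ₗ[ℂ] ℂ} {C A : Matrix (Fin m) (Fin m) ℂ}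
    (hΦ : ∀ k, c k Φ = ∑ l, C l k • d l Φ) (hΨ : ∀ k x, Ψ (d k x) = ∑ l, A l k * Ψ (c l x))
    (k l : Fin m) : (1 - C * A).det * Ψ (c k (d l Φ)) = Ψ Φ * (1 - C * A).adjugate k l := by
  set R : Matrix (Fin m) (Fin m) ℂ := Matrix.of fun k l => Ψ (c k (d l Φ)) with hR
  have h1 : R * (1 - C * A) = Ψ Φ • (1 : Matrix (Fin m) (Fin m) ℂ) := by
    ext k l
    rw [mul_sub, mul_one, Matrix.sub_apply, Matrix.mul_apply, Matrix.smul_apply, Matrix.one_apply]
    simp only [hR, Matrix.of_apply]
    rw [fdet_step hF hΦ hΨ k l]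
    simp
  have h2 : R * ((1 - C * A) * (1 - C * A).adjugate) = Ψ Φ • (1 - C * A).adjugate := by
    rw [← mul_assoc, h1, smul_mul_assoc, one_mul]
  rw [Matrix.mul_adjugate, mul_smul_comm, mul_one] at h2
  have h3 := congrFun (congrFun h2 k) l
  simpa [hR] using h3

/-! ### Decomposition into eigenvectors of the number operator -/

private def fdetT (c d : Fin m → Module.End ℂ V) (x : V) : V := ∑ k, d k (c k x)

private lemma fdetT_d (hF : Fock c d Ω Ω') (j : Fin m) (x : V) :
    fdetT c d (d j x) = d j (fdetT c d x) + d j x := by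
  unfold fdetT
  have h1 : ∀ k, d k (c k (d j x)) = (if k = j then d j x else 0) + d j (d k (c k x)) := by
    intro k
    rw [fdet_cd hF, map_sub, fdet_dd hF k j, sub_neg_eq_add]
    congr 1
    split
    · next h => rw [h]
    · exact map_zero _
  simp only [h1, Finset.sum_add_distrib, Finset.sum_ite_eq', Finset.mem_univ, if_true, map_sum]
  exact add_comm _ _

private lemma fdetT_c (hF : Fock c d Ω Ω') (j : Fin m) (x : V) :
    fdetT c d (c j x) = c j (fdetT c d x) - c j x := by
  unfold fdetT
  have h1 : ∀ k, d k (c k (c j x)) = c j (d k (c k x)) - (if j = k then c k x else 0) := by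
    intro k
    rw [fdet_cd hF, fdet_cc hF k j, map_neg]
    abel
  simp only [h1, Finset.sum_sub_distrib, Finset.sum_ite_eq, Finset.mem_univ, if_true, map_sum]

private lemma fdetT_add (x y : V) : fdetT c d (x + y) = fdetT c d x + fdetT c d y := by
  unfold fdetT
  simp only [map_add, Finset.sum_add_distrib]

private lemma fdetT_smul (r : ℂ) (x : V) : fdetT c d (r • x) = r • fdetT c d x := by
  unfold fdetT
  simp only [map_smul, Finset.smul_sum]

private lemma fdetT_zero : fdetT c d (0 : V) = 0 := by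
  unfold fdetT
  simp

private lemma fdetT_sub (x y : V) : fdetT c d (x - y) = fdetT c d x - fdetT c d y := by
  unfold fdetT
  simp only [map_sub, Finset.sum_sub_distrib]

private lemma fdetT_sum {ι : Type*} (s : Finset ι) (f : ι → V) :
    fdetT c d (∑ i ∈ s, f i) = ∑ i ∈ s, fdetT c d (f i) := by
  unfold fdetT
  simp only [map_sum]
  exact Finset.sum_comm

private lemma fdet_graded (hF : Fock c d Ω Ω') {x : V} (h0 : InF d Ω x) :
    ∃ (N : ℕ) (φ : ℕ → V), (∀ n, N ≤ n → φ n = 0) ∧ (∀ n, fdetT c d (φ n) = (n : ℂ) • φ n) ∧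
      φ 0 = Ω' x • Ω ∧ x = ∑ n ∈ Finset.range N, φ n := by
  induction h0 with
  | vac =>
    refine ⟨1, fun n => if n = 0 then Ω else 0, ?_, ?_, ?_, ?_⟩
    · intro n hn
      simp only [if_neg (by omega : ¬ n = 0)]
    · intro n
      by_cases hn : n = 0
      · subst hn
        simp only [if_true, Nat.cast_zero, zero_smul]
        unfold fdetT
        simp only [hF.ann, map_zero, Finset.sum_const_zero]
      · simp only [if_neg hn, smul_zero, fdetT_zero]
    · simp only [if_true, hF.norm, one_smul]
    · simp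
  | add x y _ _ ihx ihy =>
    obtain ⟨N, φ, h1, h2, h3, h4⟩ := ihx
    obtain ⟨N', φ', h1', h2', h3', h4'⟩ := ihy
    refine ⟨max N N', fun n => φ n + φ' n, ?_, ?_, ?_, ?_⟩
    · intro n hn
      show φ n + φ' n = 0
      rw [h1 n (le_trans (le_max_left _ _) hn), h1' n (le_trans (le_max_right _ _) hn), add_zero]
    · intro n
      show fdetT c d (φ n + φ' n) = (n : ℂ) • (φ n + φ' n)
      rw [fdetT_add, h2, h2', smul_add]
    · show φ 0 + φ' 0 = _
      rw [h3, h3', map_add, add_smul]
    · have e1 : ∑ n ∈ Finset.range N, φ n = ∑ n ∈ Finset.range (max N N'), φ n := by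
        refine Finset.sum_subset (Finset.range_mono (le_max_left _ _)) ?_
        intro n _ hn
        exact h1 n (by simpa using hn)
      have e2 : ∑ n ∈ Finset.range N', φ' n = ∑ n ∈ Finset.range (max N N'), φ' n := by
        refine Finset.sum_subset (Finset.range_mono (le_max_right _ _)) ?_
        intro n _ hn
        exact h1' n (by simpa using hn)
      rw [Finset.sum_add_distrib, ← e1, ← e2, ← h4, ← h4']
  | smul r x _ ih =>
    obtain ⟨N, φ, h1, h2, h3, h4⟩ := ih
    refine ⟨N, fun n => r • φ n, ?_, ?_, ?_, ?_⟩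
    · intro n hn
      show r • φ n = 0
      rw [h1 n hn, smul_zero]
    · intro n
      show fdetT c d (r • φ n) = (n : ℂ) • (r • φ n)
      rw [fdetT_smul, h2, smul_comm]
    · show r • φ 0 = _
      rw [h3, map_smul, smul_eq_mul, mul_smul]
    · rw [← Finset.smul_sum, ← h4]
  | cre k x _ ih =>
    obtain ⟨N, φ, h1, h2, h3, h4⟩ := ih
    refine ⟨N + 1, fun n => if n = 0 then 0 else d k (φ (n - 1)), ?_, ?_, ?_, ?_⟩
    · intro n hn
      simp only [if_neg (by omega : ¬ n = 0)]
      rw [h1 (n - 1) (by omega), map_zero]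
    · intro n
      rcases n with _ | n
      · simp only [if_true, smul_zero, fdetT_zero]
      · simp only [Nat.add_eq_zero_iff, one_ne_zero, and_false, if_false, Nat.add_sub_cancel]
        rw [fdetT_d hF, h2, map_smul]
        push_cast
        rw [add_smul, one_smul]
    · simp only [if_true, hF.ann', zero_smul]
    · rw [Finset.sum_range_succ', if_pos rfl, add_zero]
      simp only [Nat.add_eq_zero_iff, one_ne_zero, and_false, if_false, Nat.add_sub_cancel]
      rw [← map_sum, ← h4]

private lemma fdet_indep (s : Finset ℕ) : ∀ (y : ℕ → V),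
    (∀ n, fdetT c d (y n) = ((n : ℂ) - 1) • y n) → ∑ n ∈ s, y n = 0 → ∀ n ∈ s, y n = 0 := by
  induction s using Finset.induction_on with
  | empty => intro y _ _ n hn; simp at hn
  | insert a s ha ih =>
    intro y hy h n hn
    rw [Finset.sum_insert ha] at h
    have h1 : ∑ n ∈ s, ((n : ℂ) - a) • y n = 0 := by
      have h2 := congrArg (fdetT c d) h
      rw [fdetT_add, fdetT_sum, hy, fdetT_zero] at h2
      have h3 : ∑ n ∈ s, ((n : ℂ) - a) • y n =
          (((a : ℂ) - 1) • y a + ∑ n ∈ s, fdetT c d (y n)) - ((a : ℂ) - 1) • (y a + ∑ n ∈ s, y n) := by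
        rw [smul_add, Finset.smul_sum, add_sub_add_left_eq_sub, ← Finset.sum_sub_distrib]
        refine Finset.sum_congr rfl fun n _ => ?_
        rw [hy, ← sub_smul]
        congr 1
        ring
      rw [h3, h2, h, smul_zero, sub_zero]
    have h4 : ∀ n ∈ s, ((n : ℂ) - a) • y n = 0 := by
      refine ih (fun n => ((n : ℂ) - a) • y n) ?_ h1
      intro n
      show fdetT c d (((n : ℂ) - a) • y n) = ((n : ℂ) - 1) • (((n : ℂ) - a) • y n)
      rw [fdetT_smul, hy, smul_comm]
    have h5 : ∀ n ∈ s, y n = 0 := by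
      intro n hn
      rcases smul_eq_zero.1 (h4 n hn) with h6 | h6
      · exfalso
        have h7 : (n : ℂ) = a := sub_eq_zero.1 h6
        have h8 : n = a := by exact_mod_cast h7
        exact ha (h8 ▸ hn)
      · exact h6
    rcases Finset.mem_insert.1 hn with rfl | hn
    · rw [Finset.sum_eq_zero h5, add_zero] at h
      exact h
    · exact h5 n hn

private lemma fdet_level (hF : Fock c d Ω Ω') {x : V} {C : Matrix (Fin m) (Fin m) ℂ}
    (hx : ∀ k, c k x = ∑ l, C l k • d l x) {N : ℕ} {φ : ℕ → V} (h1 : ∀ n, N ≤ n → φ n = 0)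
    (h2 : ∀ n, fdetT c d (φ n) = (n : ℂ) • φ n) (h4 : x = ∑ n ∈ Finset.range N, φ n) (k : Fin m) :
    c k (φ 0) = 0 ∧ c k (φ 1) = 0 ∧ ∀ n, c k (φ (n + 2)) = ∑ l, C l k • d l (φ n) := by
  set w : ℕ → V := fun n => ∑ l, C l k • d l (φ n) with hw
  set y : ℕ → V := fun n => c k (φ n) - if 2 ≤ n then w (n - 2) else 0 with hy
  have hTu : ∀ n, fdetT c d (c k (φ n)) = ((n : ℂ) - 1) • c k (φ n) := by
    intro n
    rw [fdetT_c hF, h2, map_smul, sub_smul, one_smul]
  have hTw : ∀ n, fdetT c d (w n) = ((n : ℂ) + 1) • w n := by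
    intro n
    rw [hw]
    simp only
    rw [fdetT_sum, Finset.smul_sum]
    refine Finset.sum_congr rfl fun l _ => ?_
    rw [fdetT_smul, fdetT_d hF, h2, map_smul, smul_comm ((n : ℂ) + 1), add_smul ((n : ℂ)), one_smul]
  have hTy : ∀ n, fdetT c d (y n) = ((n : ℂ) - 1) • y n := by
    intro n
    rw [hy]
    simp only
    rw [fdetT_sub, hTu, smul_sub]
    congr 1
    split
    · next h =>
      rw [hTw]
      congr 1
      obtain ⟨n', rfl⟩ := Nat.exists_eq_add_of_le h
      rw [Nat.add_sub_cancel_left]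
      push_cast
      ring
    · rw [smul_zero, fdetT_zero]
  have hsum : ∑ n ∈ Finset.range (N + 2), y n = 0 := by
    have e1 : ∑ n ∈ Finset.range (N + 2), c k (φ n) = c k x := by
      rw [h4, map_sum]
      symm
      refine Finset.sum_subset (Finset.range_mono (by omega)) ?_
      intro n _ hn
      rw [h1 n (by simpa using hn), map_zero]
    have e2 : ∑ n ∈ Finset.range (N + 2), (if 2 ≤ n then w (n - 2) else 0) = ∑ l, C l k • d l x := by
      have e3 : ∀ n, (if 2 ≤ n + 1 + 1 then w (n + 1 + 1 - 2) else 0) = w n := by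
        intro n
        rw [if_pos (by omega)]
        rfl
      have e4 : ∀ n, w n = ∑ l, C l k • d l (φ n) := fun n => rfl
      rw [Finset.sum_range_succ', Finset.sum_range_succ', Finset.sum_congr rfl fun n _ => e3 n,
        if_neg (by omega : ¬ 2 ≤ 0 + 1), if_neg (by omega : ¬ 2 ≤ 0), add_zero, add_zero]
      simp only [e4]
      rw [Finset.sum_comm]
      refine Finset.sum_congr rfl fun l _ => ?_
      rw [← Finset.smul_sum, ← map_sum, ← h4]
    rw [hy]
    simp only
    rw [Finset.sum_sub_distrib, e1, e2, hx, sub_self]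
  have h5 := fdet_indep (c := c) (d := d) _ y hTy hsum
  have h6 : ∀ n, y n = 0 := by
    intro n
    by_cases hn : n < N + 2
    · exact h5 n (Finset.mem_range.2 hn)
    · rw [hy]
      simp only
      rw [h1 n (by omega), map_zero, if_pos (by omega), hw]
      simp only
      rw [h1 (n - 2) (by omega)]
      simp
  refine ⟨?_, ?_, ?_⟩
  · have h7 := h6 0
    simpa [hy] using h7
  · have h7 := h6 1
    simpa [hy] using h7
  · intro n
    have h7 := h6 (n + 2)
    rw [hy] at h7
    simp only [if_pos (by omega : 2 ≤ n + 2), Nat.add_sub_cancel] at h7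
    exact sub_eq_zero.1 h7

theorem fock_sq (hF : Fock c d Ω Ω') {Φ : V} (h0 : InF d Ω Φ) {Ψ : V →ₗ[ℂ] ℂ}
    {C A : Matrix (Fin m) (Fin m) ℂ} (hΦ : ∀ k, c k Φ = ∑ l, C l k • d l Φ)
    (hΨ : ∀ k x, Ψ (d k x) = ∑ l, A l k * Ψ (c l x)) :
    Ψ Φ ^ 2 = (Ψ Ω) ^ 2 * (Ω' Φ) ^ 2 * (1 - C * A).det := by
  obtain ⟨N, φ, h1, h2, h3, h4⟩ := fdet_graded hF h0
  have hlev := fdet_level hF hΦ h1 h2 h4
  set B := C * A with hB
  -- generating polynomials
  let G : (V → ℂ) → Polynomial ℂ := fun L => ∑ n ∈ Finset.range N, Polynomial.monomial n (L (φ n))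
  have hG : ∀ (L : V → ℂ), L 0 = 0 → ∀ n, (G L).coeff n = L (φ n) := by
    intro L hL n
    simp only [G, Polynomial.finsetSum_coeff, Polynomial.coeff_monomial, Finset.sum_ite_eq',
      Finset.mem_range]
    split
    · rfl
    · rw [h1 n (by omega), hL]
  set F : Polynomial ℂ := G (fun x => Ψ x) with hFdef
  have hFc : ∀ n, F.coeff n = Ψ (φ n) := hG _ (map_zero _)
  set R : Matrix (Fin m) (Fin m) (Polynomial ℂ) :=
    Matrix.of fun k l => G (fun x => Ψ (c k (d l x))) with hR
  have hRc : ∀ k l n, (R k l).coeff n = Ψ (c k (d l (φ n))) := by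
    intro k l n
    exact hG (fun x => Ψ (c k (d l x))) (by simp) n
  set M : Matrix (Fin m) (Fin m) (Polynomial ℂ) :=
    1 - (Polynomial.X ^ 2 : Polynomial ℂ) • B.map Polynomial.C with hM
  have hRM : R * M = F • (1 : Matrix (Fin m) (Fin m) (Polynomial ℂ)) := by
    refine Matrix.ext fun k l => ?_
    rw [hM, mul_sub, mul_one, mul_smul_comm, Matrix.sub_apply, Matrix.smul_apply, Matrix.mul_apply,
      Matrix.smul_apply, Matrix.one_apply, smul_eq_mul, smul_eq_mul]
    ext n
    have hX : (Polynomial.X ^ 2 * ∑ j, R k j * (B.map Polynomial.C) j l).coeff n =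
        if 2 ≤ n then ∑ j, Ψ (c k (d j (φ (n - 2)))) * B j l else 0 := by
      rw [Polynomial.coeff_X_pow_mul']
      split
      · rw [Polynomial.finsetSum_coeff]
        refine Finset.sum_congr rfl fun j _ => ?_
        rw [Matrix.map_apply, Polynomial.coeff_mul_C, hRc]
      · rfl
    rw [Polynomial.coeff_sub, hX, hRc]
    have hδ : (F * if k = l then 1 else 0).coeff n = if k = l then Ψ (φ n) else 0 := by
      split
      · rw [mul_one, hFc]
      · rw [mul_zero, Polynomial.coeff_zero]
    rw [hδ, sub_eq_iff_eq_add]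
    rcases n with _ | _ | n
    · rw [if_neg (by omega : ¬ 2 ≤ 0)]
      have h5 := fdet_step hF (Φ := 0) (Φ2 := φ 0) (Ψ := Ψ) (C := C) (A := A)
        (fun k => by rw [(hlev k).1]; simp) hΨ k l
      rw [h5]; simp
    · rw [if_neg (by omega : ¬ 2 ≤ 0 + 1)]
      have h5 := fdet_step hF (Φ := 0) (Φ2 := φ 1) (Ψ := Ψ) (C := C) (A := A)
        (fun k => by rw [(hlev k).2.1]; simp) hΨ k l
      rw [zero_add, h5]; simp
    · rw [if_pos (by omega : 2 ≤ n + 1 + 1)]
      have h5 := fdet_step hF (Φ := φ n) (Φ2 := φ (n + 2)) (Ψ := Ψ) (C := C) (A := A)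
        (fun k => (hlev k).2.2 n) hΨ k l
      exact h5
  have hXF : Polynomial.X * Polynomial.derivative F = ∑ k, (F - R k k) := by
    ext n
    rw [Polynomial.finsetSum_coeff]
    have h5 : (n : ℂ) * Ψ (φ n) = ∑ k, (Ψ (φ n) - Ψ (c k (d k (φ n)))) := by
      rw [← smul_eq_mul, ← map_smul, ← h2, fdetT, map_sum]
      refine Finset.sum_congr rfl fun k _ => ?_
      rw [fdet_cd hF k k, if_pos rfl, map_sub, sub_sub_cancel]
    simp only [Polynomial.coeff_sub, hFc, hRc]
    rw [← h5]
    rcases n with _ | n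
    · simp
    · rw [Polynomial.coeff_X_mul, Polynomial.coeff_derivative, hFc]
      push_cast
      ring
  have hadj : M.det * R.trace = F * M.adjugate.trace := by
    have h5 : R * (M * M.adjugate) = F • M.adjugate := by
      rw [← mul_assoc, hRM, smul_mul_assoc, one_mul]
    rw [Matrix.mul_adjugate, mul_smul_comm, mul_one] at h5
    have h6 := congrArg Matrix.trace h5
    rwa [Matrix.trace_smul, Matrix.trace_smul, smul_eq_mul, smul_eq_mul] at h6
  have hXD : Polynomial.X * Polynomial.derivative M.det =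
      2 * ((m : Polynomial ℂ) * M.det - M.adjugate.trace) := by
    rw [fdet_deriv_det]
    have h5 : (Polynomial.X : Polynomial ℂ) • (M.map fun p => Polynomial.derivative p) =
        (2 : Polynomial ℂ) • (M - 1) := by
      refine Matrix.ext fun k l => ?_
      rw [Matrix.smul_apply, Matrix.map_apply, Matrix.smul_apply, Matrix.sub_apply, hM,
        Matrix.sub_apply, Matrix.smul_apply, Matrix.map_apply, smul_eq_mul, smul_eq_mul,
        smul_eq_mul, Polynomial.derivative_sub]
      have h6 : Polynomial.derivative ((1 : Matrix (Fin m) (Fin m) (Polynomial ℂ)) k l) = 0 := by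
        rw [Matrix.one_apply]
        split <;> simp
      rw [h6, Polynomial.derivative_mul, Polynomial.derivative_X_pow, Polynomial.derivative_C]
      simp only [Nat.cast_ofNat, Nat.add_one_sub_one, pow_one, mul_zero, add_zero, zero_sub,
        sub_sub_cancel_left, map_ofNat]
      ring
    have h7 : Polynomial.X * (M.adjugate * M.map fun p => Polynomial.derivative p).trace =
        (M.adjugate * ((Polynomial.X : Polynomial ℂ) •
          (M.map fun p => Polynomial.derivative p))).trace := by
      rw [mul_smul_comm, Matrix.trace_smul, smul_eq_mul]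
    rw [h7, h5, mul_smul_comm, Matrix.trace_smul, smul_eq_mul, mul_sub, mul_one,
      Matrix.adjugate_mul, Matrix.trace_sub, Matrix.trace_smul, Matrix.trace_one, smul_eq_mul,
      Fintype.card_fin]
    ring
  have hode : 2 * Polynomial.derivative F * M.det = F * Polynomial.derivative M.det := by
    apply mul_left_cancel₀ (Polynomial.X_ne_zero (R := ℂ))
    have h5 : ∑ k, (F - R k k) = (m : Polynomial ℂ) * F - R.trace := by
      rw [Finset.sum_sub_distrib, Finset.sum_const, Finset.card_univ, Fintype.card_fin,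
        nsmul_eq_mul]
      rfl
    have h6 : Polynomial.X * (2 * Polynomial.derivative F * M.det) =
        2 * M.det * (Polynomial.X * Polynomial.derivative F) := by ring
    have h7 : Polynomial.X * (F * Polynomial.derivative M.det) =
        F * (Polynomial.X * Polynomial.derivative M.det) := by ring
    rw [h6, h7, hXF, h5, hXD]
    linear_combination (-2 : Polynomial ℂ) * hadj
  have hD0 : M.det.coeff 0 = 1 := by
    rw [Polynomial.coeff_zero_eq_eval_zero]
    have h5 := RingHom.map_det (Polynomial.evalRingHom (0 : ℂ)) M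
    rw [Polynomial.coe_evalRingHom] at h5
    rw [h5]
    have h6 : (Polynomial.evalRingHom (0 : ℂ)).mapMatrix M = 1 := by
      ext k l
      rw [RingHom.mapMatrix_apply, Matrix.map_apply, hM, Matrix.sub_apply, Matrix.smul_apply,
        Matrix.map_apply, Polynomial.coe_evalRingHom, smul_eq_mul, Matrix.one_apply,
        Matrix.one_apply]
      split <;> simp
    rw [h6, Matrix.det_one]
  have hfin := fdet_wronskian (F ^ 2) M.det hD0 (by
    rw [Polynomial.derivative_pow]
    simp only [Nat.cast_ofNat, Nat.add_one_sub_one, pow_one, map_ofNat]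
    linear_combination F * hode)
  have hev := congrArg (Polynomial.eval 1) hfin
  rw [Polynomial.eval_mul, Polynomial.eval_pow, Polynomial.eval_C] at hev
  have hF1 : F.eval 1 = Ψ Φ := by
    rw [hFdef]
    simp only [G, Polynomial.eval_finsetSum, Polynomial.eval_monomial, one_pow, mul_one]
    rw [← map_sum, ← h4]
  have hD1 : M.det.eval 1 = (1 - B).det := by
    have h5 := RingHom.map_det (Polynomial.evalRingHom (1 : ℂ)) M
    rw [Polynomial.coe_evalRingHom] at h5
    rw [h5]
    congr 1
    ext k l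
    rw [RingHom.mapMatrix_apply, Matrix.map_apply, hM, Matrix.sub_apply, Matrix.smul_apply,
      Matrix.map_apply, Polynomial.coe_evalRingHom, smul_eq_mul, Matrix.one_apply,
      Matrix.sub_apply, Matrix.one_apply]
    split <;> simp
  have hF0 : (F ^ 2).coeff 0 = (Ω' Φ * Ψ Ω) ^ 2 := by
    rw [pow_two, Polynomial.mul_coeff_zero, hFc, h3, map_smul, smul_eq_mul, ← pow_two]
  rw [hF1, hD1, hF0] at hev
  rw [hev]
  ring

end fock

end

end IsingS2
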