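import Pool.Agent.Helper98.IS.Defs2
import Pool.Agent.Helper98.IS.ChainAct
import Pool.Agent.Helper98.IS.BW

/-!
# Creation and annihilation operators of the chain (module IS-13a)
-/

namespace IsingS2

open Complex Set MeasureTheory Filter Topology IsingNB
open scoped Real Matrix

noncomputable section

theorem psi_cM_mul {m : ℕ} (A B : Matrix (Fin m) (Fin m) ℝ) : cM (A * B) = cM A * cM B := by
  unfold cM
  exact Matrix.map_mul (f := Complex.ofRealHom)

theorem psi_cM_add {m : ℕ} (A B : Matrix (Fin m) (Fin m) ℝ) : cM (A + B) = cM A + cM B := by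
  unfold cM
  ext i j
  simp

theorem psi_cM_sub {m : ℕ} (A B : Matrix (Fin m) (Fin m) ℝ) : cM (A - B) = cM A - cM B := by
  unfold cM
  ext i j
  simp

theorem psi_cM_one {m : ℕ} : cM (1 : Matrix (Fin m) (Fin m) ℝ) = 1 := by
  unfold cM
  ext i j
  by_cases h : i = j
  · subst h
    simp
  · simp [h]

section psi
variable {m : ℕ} {V : Type*} [AddCommGroup V] [Module ℂ V] {f g : Fin m → Module.End ℂ V}

/-- general linear combination of the Majorana operators -/
def psi_lc (f g : Fin m → Module.End ℂ V) (α β : Fin m → ℂ) : Module.End ℂ V :=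
  ∑ k : Fin m, (α k • f k + β k • g k)

theorem psi_lc_add (α β α' β' : Fin m → ℂ) :
    psi_lc f g α β + psi_lc f g α' β' = psi_lc f g (α + α') (β + β') := by
  unfold psi_lc
  rw [← Finset.sum_add_distrib]
  refine Finset.sum_congr rfl fun k _ => ?_
  simp only [Pi.add_apply, add_smul]
  abel

theorem psi_lc_smul (r : ℂ) (α β : Fin m → ℂ) :
    r • psi_lc f g α β = psi_lc f g (r • α) (r • β) := by
  unfold psi_lc
  rw [Finset.smul_sum]
  refine Finset.sum_congr rfl fun k _ => ?_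
  simp only [Pi.smul_apply, smul_add, smul_smul, smul_eq_mul]

theorem psi_lc_sub (α β α' β' : Fin m → ℂ) :
    psi_lc f g α β - psi_lc f g α' β' = psi_lc f g (α - α') (β - β') := by
  unfold psi_lc
  rw [← Finset.sum_sub_distrib]
  refine Finset.sum_congr rfl fun k _ => ?_
  simp only [Pi.sub_apply, sub_smul]
  abel

theorem psi_ps_eq (v : ℝ) (u : Fin m → ℂ) :
    ps v f g u = psi_lc f g ((I / 2) • (cM (bm v m))ᵀ.mulVec u) ((1 / 2 : ℂ) • u) := by
  unfold ps psi_lc
  rw [Finset.smul_sum]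
  refine Finset.sum_congr rfl fun k _ => ?_
  have h : ((bm v m)ᵀ.map (fun x : ℝ => (x : ℂ))) = (cM (bm v m))ᵀ := rfl
  rw [h]
  simp only [Pi.smul_apply, smul_add, smul_smul, smul_eq_mul]
  congr 2
  ring

theorem psi_psd_eq (v : ℝ) (u : Fin m → ℂ) :
    psd v f g u = psi_lc f g ((-(I / 2)) • (cM (bm v m))ᵀ.mulVec u) ((1 / 2 : ℂ) • u) := by
  unfold psd psi_lc
  rw [Finset.smul_sum]
  refine Finset.sum_congr rfl fun k _ => ?_
  have h : ((bm v m)ᵀ.map (fun x : ℝ => (x : ℂ))) = (cM (bm v m))ᵀ := rfl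
  rw [h]
  simp only [Pi.smul_apply, smul_add, smul_smul, smul_eq_mul]
  congr 2
  ring

theorem psi_lc_anti (hC : CAR f g) (α β α' β' : Fin m → ℂ) :
    psi_lc f g α β * psi_lc f g α' β' + psi_lc f g α' β' * psi_lc f g α β =
      (2 * (α ⬝ᵥ α' + β ⬝ᵥ β')) • (1 : Module.End ℂ V) := by
  unfold psi_lc
  rw [Finset.sum_mul_sum, Finset.sum_mul_sum]
  rw [Finset.sum_comm (f := fun i j => (α' i • f i + β' i • g i) * (α j • f j + β j • g j))]
  rw [← Finset.sum_add_distrib]
  have h1 : ∀ k l : Fin m, (α k • f k + β k • g k) * (α' l • f l + β' l • g l) +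
      (α' l • f l + β' l • g l) * (α k • f k + β k • g k) =
      if k = l then (2 * (α k * α' l + β k * β' l)) • (1 : Module.End ℂ V) else 0 := by
    intro k l
    have e : (α k • f k + β k • g k) * (α' l • f l + β' l • g l) +
      (α' l • f l + β' l • g l) * (α k • f k + β k • g k) =
        (α k * α' l) • (f k * f l + f l * f k) + (β k * β' l) • (g k * g l + g l * g k) +
        (α k * β' l) • (f k * g l + g l * f k) + (β k * α' l) • (f l * g k + g k * f l) := by
      simp only [mul_add, add_mul, smul_mul_smul_comm, smul_add]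
      rw [mul_comm (α' l) (α k), mul_comm (α' l) (β k), mul_comm (β' l) (α k),
        mul_comm (β' l) (β k)]
      abel
    rw [e, hC.ff, hC.gg, hC.fg, hC.fg]
    by_cases h : k = l
    · subst h
      simp only [if_true, smul_zero, add_zero]
      rw [← add_smul]
      have h2 : (2 : Module.End ℂ V) = (2 : ℂ) • (1 : Module.End ℂ V) := by
        rw [two_smul]
        norm_num
      rw [h2, smul_smul]
      congr 1
      ring
    · simp [h]
  have h2 : ∀ k : Fin m, (∑ l : Fin m, (α k • f k + β k • g k) * (α' l • f l + β' l • g l)) +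
      (∑ l : Fin m, (α' l • f l + β' l • g l) * (α k • f k + β k • g k)) =
      (2 * (α k * α' k + β k * β' k)) • (1 : Module.End ℂ V) := by
    intro k
    rw [← Finset.sum_add_distrib, Finset.sum_congr rfl fun l _ => h1 k l]
    simp
  rw [Finset.sum_congr rfl fun k _ => h2 k, ← Finset.sum_smul]
  congr 1
  rw [← Finset.mul_sum, Finset.sum_add_distrib]
  rfl

theorem ps_add (v : ℝ) (u u' : Fin m → ℂ) : ps v f g (u + u') = ps v f g u + ps v f g u' := by
  rw [psi_ps_eq, psi_ps_eq, psi_ps_eq, psi_lc_add, Matrix.mulVec_add, smul_add, smul_add]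

theorem ps_smul (v : ℝ) (r : ℂ) (u : Fin m → ℂ) : ps v f g (r • u) = r • ps v f g u := by
  rw [psi_ps_eq, psi_ps_eq, psi_lc_smul, Matrix.mulVec_smul, smul_comm r, smul_comm r]

theorem psd_add (v : ℝ) (u u' : Fin m → ℂ) :
    psd v f g (u + u') = psd v f g u + psd v f g u' := by
  rw [psi_psd_eq, psi_psd_eq, psi_psd_eq, psi_lc_add, Matrix.mulVec_add, smul_add, smul_add]

theorem psd_smul (v : ℝ) (r : ℂ) (u : Fin m → ℂ) : psd v f g (r • u) = r • psd v f g u := by
  rw [psi_psd_eq, psi_psd_eq, psi_lc_smul, Matrix.mulVec_smul, smul_comm r, smul_comm r]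

theorem psi_bbT {v : ℝ} (hv : 1 < v) : cM (bm v m) * (cM (bm v m))ᵀ = 1 := by
  have h : (cM (bm v m))ᵀ = cM (bm v m)ᵀ := rfl
  rw [h, ← psi_cM_mul, bm_mul_transpose hv, psi_cM_one]

theorem psi_bTb {v : ℝ} (hv : 1 < v) : (cM (bm v m))ᵀ * cM (bm v m) = 1 := by
  have h : (cM (bm v m))ᵀ = cM (bm v m)ᵀ := rfl
  rw [h, ← psi_cM_mul, transpose_mul_bm hv, psi_cM_one]

theorem psi_dot {v : ℝ} (hv : 1 < v) (u u' : Fin m → ℂ) :
    (cM (bm v m))ᵀ.mulVec u ⬝ᵥ (cM (bm v m))ᵀ.mulVec u' = u ⬝ᵥ u' := by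
  rw [Matrix.dotProduct_mulVec, Matrix.vecMul_transpose, Matrix.mulVec_mulVec, psi_bbT hv,
    Matrix.one_mulVec]

theorem ps_ps {v : ℝ} (hv : 1 < v) (hC : CAR f g) (u u' : Fin m → ℂ) :
    ps v f g u * ps v f g u' + ps v f g u' * ps v f g u = 0 := by
  rw [psi_ps_eq, psi_ps_eq, psi_lc_anti hC]
  simp only [smul_dotProduct, dotProduct_smul, psi_dot hv, smul_eq_mul]
  have : 2 * (I / 2 * (I / 2 * (u ⬝ᵥ u')) + 1 / 2 * (1 / 2 * (u ⬝ᵥ u'))) = 0 := by
    have hI : I * I = -1 := Complex.I_mul_I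
    linear_combination (1 / 2 * (u ⬝ᵥ u')) * hI
  rw [this, zero_smul]

theorem psd_psd {v : ℝ} (hv : 1 < v) (hC : CAR f g) (u u' : Fin m → ℂ) :
    psd v f g u * psd v f g u' + psd v f g u' * psd v f g u = 0 := by
  rw [psi_psd_eq, psi_psd_eq, psi_lc_anti hC]
  simp only [smul_dotProduct, dotProduct_smul, psi_dot hv, smul_eq_mul]
  have : 2 * (-(I / 2) * (-(I / 2) * (u ⬝ᵥ u')) + 1 / 2 * (1 / 2 * (u ⬝ᵥ u'))) = 0 := by
    have hI : I * I = -1 := Complex.I_mul_I
    linear_combination (1 / 2 * (u ⬝ᵥ u')) * hI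
  rw [this, zero_smul]

theorem ps_psd {v : ℝ} (hv : 1 < v) (hC : CAR f g) (u u' : Fin m → ℂ) :
    ps v f g u * psd v f g u' + psd v f g u' * ps v f g u = (u ⬝ᵥ u') • 1 := by
  rw [psi_ps_eq, psi_psd_eq, psi_lc_anti hC]
  simp only [smul_dotProduct, dotProduct_smul, psi_dot hv, smul_eq_mul]
  have : 2 * (-(I / 2) * (I / 2 * (u ⬝ᵥ u')) + 1 / 2 * (1 / 2 * (u ⬝ᵥ u'))) = u ⬝ᵥ u' := by
    have hI : I * I = -1 := Complex.I_mul_I
    linear_combination (-(1 / 2) * (u ⬝ᵥ u')) * hI
  rw [this]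

theorem psi_lc_single_g (k : Fin m) : psi_lc f g 0 (Pi.single k 1) = g k := by
  unfold psi_lc
  rw [Finset.sum_eq_single k]
  · simp
  · intro l _ hl
    simp [hl]
  · simp

theorem psi_lc_single_f (k : Fin m) : psi_lc f g (Pi.single k 1) 0 = f k := by
  unfold psi_lc
  rw [Finset.sum_eq_single k]
  · simp
  · intro l _ hl
    simp [hl]
  · simp

theorem g_eq (v : ℝ) (k : Fin m) :
    g k = ps v f g (Pi.single k 1) + psd v f g (Pi.single k 1) := by
  rw [psi_ps_eq, psi_psd_eq, psi_lc_add, ← add_smul, ← add_smul]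
  rw [show I / 2 + -(I / 2) = 0 by ring, show (1 / 2 : ℂ) + 1 / 2 = 1 by norm_num, zero_smul,
    one_smul, psi_lc_single_g]

theorem f_eq {v : ℝ} (hv : 1 < v) (k : Fin m) :
    f k = -I • (ps v f g ((cM (bm v m)).mulVec (Pi.single k 1)) -
      psd v f g ((cM (bm v m)).mulVec (Pi.single k 1))) := by
  rw [psi_ps_eq, psi_psd_eq, psi_lc_sub, psi_lc_smul, ← sub_smul, sub_self, Matrix.mulVec_mulVec,
    psi_bTb hv, Matrix.one_mulVec, smul_smul, smul_zero]
  rw [show -I * (I / 2 - -(I / 2)) = 1 by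
    have hI : I * I = -1 := Complex.I_mul_I
    linear_combination (-1) * hI, one_smul, psi_lc_single_f]

theorem psi_VV_lc {v : ℝ} (hv : 1 < v) (hC : CAR f g) (α β : Fin m → ℂ) :
    VV v f g * psi_lc f g α β =
      psi_lc f g ((cM (Hf v m)).mulVec α + I • (cM (Lm v m))ᵀ.mulVec β)
        (-I • (cM (Lm v m)).mulVec α + (cM (Hg v m)).mulVec β) * VV v f g := by
  have hv0 : 0 < v := by linarith
  have h1 : VV v f g * psi_lc f g α β =
      (∑ k, (α k • (∑ l, (((Hf v m l k : ℝ) : ℂ) • f l - (I * (Lm v m l k : ℝ)) • g l)) +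
        β k • (∑ l, ((I * (Lm v m k l : ℝ)) • f l + ((Hg v m l k : ℝ) : ℂ) • g l)))) *
        VV v f g := by
    unfold psi_lc
    rw [Finset.mul_sum, Finset.sum_mul]
    refine Finset.sum_congr rfl fun k _ => ?_
    rw [mul_add, mul_smul_comm, mul_smul_comm, VV_mul_f hv0 hC, VV_mul_g hv0 hC, add_mul,
      smul_mul_assoc, smul_mul_assoc]
  rw [h1]
  congr 1
  unfold psi_lc
  have h2 : ∀ k, (α k • (∑ l, (((Hf v m l k : ℝ) : ℂ) • f l - (I * (Lm v m l k : ℝ)) • g l)) +
        β k • (∑ l, ((I * (Lm v m k l : ℝ)) • f l + ((Hg v m l k : ℝ) : ℂ) • g l))) =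
      ∑ l, ((((Hf v m l k : ℝ) : ℂ) * α k + I * (((Lm v m k l : ℝ) : ℂ) * β k)) • f l +
        (-I * (((Lm v m l k : ℝ) : ℂ) * α k) + ((Hg v m l k : ℝ) : ℂ) * β k) • g l) := by
    intro k
    rw [Finset.smul_sum, Finset.smul_sum, ← Finset.sum_add_distrib]
    refine Finset.sum_congr rfl fun l _ => ?_
    simp only [smul_add, smul_sub, smul_smul, add_smul]
    rw [mul_comm (α k), mul_comm (β k) ((Hg v m l k : ℝ) : ℂ)]
    rw [show α k * (I * ((Lm v m l k : ℝ) : ℂ)) = I * (((Lm v m l k : ℝ) : ℂ) * α k) by ring,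
      show β k * (I * ((Lm v m k l : ℝ) : ℂ)) = I * (((Lm v m k l : ℝ) : ℂ) * β k) by ring,
      neg_mul, neg_smul]
    abel
  rw [Finset.sum_congr rfl fun k _ => h2 k, Finset.sum_comm]
  refine Finset.sum_congr rfl fun l _ => ?_
  rw [Finset.sum_add_distrib, ← Finset.sum_smul, ← Finset.sum_smul]
  congr 2
  · rw [Finset.sum_add_distrib, ← Finset.mul_sum]
    rfl
  · rw [Finset.sum_add_distrib, ← Finset.mul_sum]
    rfl

theorem VV_mul_psd {v : ℝ} (hv : 1 < v) (hC : CAR f g) (u : Fin m → ℂ) :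
    VV v f g * psd v f g u = psd v f g ((cM (wm v m)).mulVec u) * VV v f g := by
  have hI : I * I = -1 := Complex.I_mul_I
  have hw : cM (wm v m) = cM (Hg v m) - cM (Lm v m) * (cM (bm v m))ᵀ := by
    unfold wm
    rw [psi_cM_sub, psi_cM_mul]
    rfl
  have hb : (cM (bm v m))ᵀ * cM (wm v m) =
      cM (Hf v m) * (cM (bm v m))ᵀ - (cM (Lm v m))ᵀ := by
    have h := congrArg cM (bT_wm hv m)
    rw [psi_cM_mul, psi_cM_sub, psi_cM_mul] at h
    exact h
  rw [psi_psd_eq, psi_psd_eq, psi_VV_lc hv hC, Matrix.mulVec_mulVec, hb, hw]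
  congr 2
  · simp only [Matrix.mulVec_smul, Matrix.mulVec_mulVec, Matrix.sub_mulVec, smul_sub, smul_smul]
    rw [sub_eq_add_neg, ← neg_smul]
    congr 2
    ring
  · simp only [Matrix.mulVec_smul, Matrix.mulVec_mulVec, Matrix.sub_mulVec, smul_sub, smul_smul]
    rw [sub_eq_neg_add, ← neg_smul]
    congr 2
    linear_combination (1 / 2) * hI

theorem VV_mul_ps {v : ℝ} (hv : 1 < v) (hC : CAR f g) (u : Fin m → ℂ) :
    VV v f g * ps v f g ((cM (wm v m)).mulVec u) = ps v f g u * VV v f g := by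
  have hI : I * I = -1 := Complex.I_mul_I
  have h1 : (cM (Hg v m) + cM (Lm v m) * (cM (bm v m))ᵀ) * cM (wm v m) = 1 := by
    have h := congrArg cM (wm_inv hv m)
    rw [psi_cM_mul, psi_cM_add, psi_cM_mul, psi_cM_one] at h
    exact h
  have h2 : cM (Hf v m) * (cM (bm v m))ᵀ + (cM (Lm v m))ᵀ =
      (cM (bm v m))ᵀ * (cM (Hg v m) + cM (Lm v m) * (cM (bm v m))ᵀ) := by
    have h := congrArg cM (Hf_mul_bT hv m)
    have h' := congrArg cM (bT_Lm_bT hv m)
    rw [psi_cM_mul, psi_cM_mul] at h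
    rw [psi_cM_mul, psi_cM_mul] at h'
    rw [mul_add, ← mul_assoc]
    change cM (Hf v m) * cM (bm v m)ᵀ + cM (Lm v m)ᵀ = _
    rw [h, ← h']
    rfl
  rw [psi_ps_eq, psi_ps_eq, psi_VV_lc hv hC]
  congr 2
  · simp only [Matrix.mulVec_smul, Matrix.mulVec_mulVec, smul_smul]
    rw [mul_one_div, ← smul_add, ← Matrix.add_mulVec, ← mul_assoc, ← add_mul, h2, mul_assoc, h1,
      mul_one]
  · simp only [Matrix.mulVec_smul, Matrix.mulVec_mulVec, smul_smul]
    rw [show -I * (I / 2) = 1 / 2 by linear_combination (-(1 / 2)) * hI, ← smul_add,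
      ← Matrix.add_mulVec, ← mul_assoc, ← add_mul, add_comm (cM (Lm v m) * (cM (bm v m))ᵀ), h1,
      Matrix.one_mulVec]

/-! ### the cut operator -/

/-- the factors of the cut operator -/
def psi_fac (f g : Fin m → Module.End ℂ V) (a : ℕ) (k : Fin m) : Module.End ℂ V :=
  if (k : ℕ) < a then I • (f k * g k) else 1

theorem psi_gf (hC : CAR f g) (i j : Fin m) : g j * f i = -(f i * g j) := by
  have := hC.fg i j
  exact eq_neg_of_add_eq_zero_right this

theorem psi_ff_self (hC : CAR f g) (i : Fin m) : f i * f i = 1 := by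
  have h := hC.ff i i
  rw [if_pos rfl] at h
  have h2 : (2 : ℂ) • (f i * f i) = (2 : ℂ) • (1 : Module.End ℂ V) := by
    rw [two_smul, h, two_smul]
    norm_num
  have h3 := congrArg (fun x => (1 / 2 : ℂ) • x) h2
  simpa [smul_smul] using h3

theorem psi_gg_self (hC : CAR f g) (i : Fin m) : g i * g i = 1 := by
  have h := hC.gg i i
  rw [if_pos rfl] at h
  have h2 : (2 : ℂ) • (g i * g i) = (2 : ℂ) • (1 : Module.End ℂ V) := by
    rw [two_smul, h, two_smul]
    norm_num
  have h3 := congrArg (fun x => (1 / 2 : ℂ) • x) h2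
  simpa [smul_smul] using h3

theorem psi_ff_ne (hC : CAR f g) {i j : Fin m} (h : i ≠ j) : f i * f j = -(f j * f i) := by
  have h1 := hC.ff i j
  rw [if_neg h] at h1
  exact eq_neg_of_add_eq_zero_left h1

theorem psi_gg_ne (hC : CAR f g) {i j : Fin m} (h : i ≠ j) : g i * g j = -(g j * g i) := by
  have h1 := hC.gg i j
  rw [if_neg h] at h1
  exact eq_neg_of_add_eq_zero_left h1

theorem psi_pair_f (hC : CAR f g) (j k : Fin m) :
    (f j * g j) * f k = (if j = k then (-1 : ℂ) else 1) • (f k * (f j * g j)) := by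
  by_cases h : j = k
  · subst h
    rw [if_pos rfl, mul_assoc, psi_gf hC]
    simp
  · rw [if_neg h, mul_assoc, psi_gf hC, mul_neg, ← mul_assoc, psi_ff_ne hC h]
    simp [mul_assoc]

theorem psi_pair_g (hC : CAR f g) (j k : Fin m) :
    (f j * g j) * g k = (if j = k then (-1 : ℂ) else 1) • (g k * (f j * g j)) := by
  by_cases h : j = k
  · subst h
    rw [if_pos rfl, ← mul_assoc, psi_gf hC]
    simp
  · rw [if_neg h, mul_assoc, psi_gg_ne hC h, ← mul_assoc (g k), psi_gf hC]
    simp [mul_assoc]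

theorem psi_fac_f (hC : CAR f g) (a : ℕ) (j k : Fin m) :
    psi_fac f g a j * f k =
      (if j = k then (if (k : ℕ) < a then (-1 : ℂ) else 1) else 1) • (f k * psi_fac f g a j) := by
  unfold psi_fac
  by_cases ha : (j : ℕ) < a
  · rw [if_pos ha, smul_mul_assoc, psi_pair_f hC, mul_smul_comm, smul_comm]
    congr 1
    by_cases h : j = k
    · subst h
      simp [ha]
    · simp [h]
  · rw [if_neg ha]
    by_cases h : j = k
    · subst h
      simp [ha]
    · simp [h]

theorem psi_fac_g (hC : CAR f g) (a : ℕ) (j k : Fin m) :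
    psi_fac f g a j * g k =
      (if j = k then (if (k : ℕ) < a then (-1 : ℂ) else 1) else 1) • (g k * psi_fac f g a j) := by
  unfold psi_fac
  by_cases ha : (j : ℕ) < a
  · rw [if_pos ha, smul_mul_assoc, psi_pair_g hC, mul_smul_comm, smul_comm]
    congr 1
    by_cases h : j = k
    · subst h
      simp [ha]
    · simp [h]
  · rw [if_neg ha]
    by_cases h : j = k
    · subst h
      simp [ha]
    · simp [h]

theorem psi_list (l : List (Fin m)) (F : Fin m → Module.End ℂ V) (s : Fin m → ℂ)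
    (x : Module.End ℂ V) (h : ∀ j, F j * x = s j • (x * F j)) :
    (l.map F).prod * x = (l.map s).prod • (x * (l.map F).prod) := by
  induction l with
  | nil => simp
  | cons j l ih =>
    rw [List.map_cons, List.prod_cons, mul_assoc, ih, List.map_cons, List.prod_cons,
      mul_smul_comm, ← mul_assoc, h, smul_mul_assoc, smul_smul, mul_assoc, mul_comm (s j)]

theorem psi_sign_prod (k : Fin m) (r : ℂ) :
    ((List.finRange m).map fun j : Fin m => if j = k then r else 1).prod = r := by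
  rw [← List.ofFn_eq_map]
  rw [List.prod_ofFn]
  rw [Finset.prod_eq_single k]
  · simp
  · intro j _ hj
    simp [hj]
  · simp

theorem psi_Oa_f (hC : CAR f g) (a : ℕ) (k : Fin m) :
    Oa a f g * f k = (if (k : ℕ) < a then (-1 : ℂ) else 1) • (f k * Oa a f g) := by
  have h := psi_list (List.finRange m) (psi_fac f g a)
    (fun j => if j = k then (if (k : ℕ) < a then (-1 : ℂ) else 1) else 1) (f k)
    (fun j => psi_fac_f hC a j k)
  rw [psi_sign_prod] at h
  exact h

theorem psi_Oa_g (hC : CAR f g) (a : ℕ) (k : Fin m) :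
    Oa a f g * g k = (if (k : ℕ) < a then (-1 : ℂ) else 1) • (g k * Oa a f g) := by
  have h := psi_list (List.finRange m) (psi_fac f g a)
    (fun j => if j = k then (if (k : ℕ) < a then (-1 : ℂ) else 1) else 1) (g k)
    (fun j => psi_fac_g hC a j k)
  rw [psi_sign_prod] at h
  exact h

theorem psi_Oa_lc (hC : CAR f g) (a : ℕ) (α β : Fin m → ℂ) :
    Oa a f g * psi_lc f g α β =
      psi_lc f g ((cM (Wc m a)).mulVec α) ((cM (Wc m a)).mulVec β) * Oa a f g := by
  unfold psi_lc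
  rw [Finset.mul_sum, Finset.sum_mul]
  refine Finset.sum_congr rfl fun k _ => ?_
  have hW : ∀ γ : Fin m → ℂ, (cM (Wc m a)).mulVec γ k =
      (if (k : ℕ) < a then (-1 : ℂ) else 1) * γ k := by
    intro γ
    have : cM (Wc m a) = Matrix.diagonal fun k : Fin m => if (k : ℕ) < a then (-1 : ℂ) else 1 := by
      unfold cM Wc
      ext i j
      by_cases h : i = j
      · subst h
        simp only [Matrix.map_apply, Matrix.diagonal_apply_eq]
        split_ifs <;> simp
      · simp [h]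
    rw [this, Matrix.mulVec_diagonal]
  rw [hW, hW, mul_add, mul_smul_comm, mul_smul_comm, psi_Oa_f hC, psi_Oa_g hC, add_mul,
    smul_mul_assoc, smul_mul_assoc, smul_smul, smul_smul, mul_comm (α k), mul_comm (β k)]

theorem psi_fac_comm (hC : CAR f g) (a : ℕ) (i j : Fin m) :
    Commute (psi_fac f g a i) (psi_fac f g a j) := by
  by_cases h : i = j
  · subst h
    exact Commute.refl _
  · unfold psi_fac
    split_ifs with h1 h2
    · refine Commute.smul_left (Commute.smul_right ?_ _) _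
      refine Commute.mul_right ?_ ?_
      · have := psi_pair_f hC i j
        rw [if_neg h, one_smul] at this
        exact this
      · have := psi_pair_g hC i j
        rw [if_neg h, one_smul] at this
        exact this
    · exact Commute.one_right _
    · exact Commute.one_left _
    · exact Commute.one_left _

theorem psi_fac_sq (hC : CAR f g) (a : ℕ) (i : Fin m) :
    psi_fac f g a i * psi_fac f g a i = 1 := by
  unfold psi_fac
  split_ifs with h1
  · rw [smul_mul_smul_comm, Complex.I_mul_I, mul_assoc, ← mul_assoc (g i), psi_gf hC, neg_mul,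
      mul_neg, mul_assoc (f i), psi_gg_self hC, mul_one, psi_ff_self hC]
    simp
  · simp

theorem Oa_sq (hC : CAR f g) (a : ℕ) : Oa a f g * Oa a f g = 1 := by
  have key : ∀ l : List (Fin m),
      (l.map (psi_fac f g a)).prod * (l.map (psi_fac f g a)).prod = 1 := by
    intro l
    induction l with
    | nil => simp
    | cons j l ih =>
      rw [List.map_cons, List.prod_cons]
      have hc : Commute (psi_fac f g a j) (l.map (psi_fac f g a)).prod := by
        refine Commute.list_prod_right _ _ ?_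
        intro x hx
        obtain ⟨i, _, rfl⟩ := List.mem_map.1 hx
        exact psi_fac_comm hC a j i
      rw [mul_assoc, ← mul_assoc (l.map (psi_fac f g a)).prod, ← hc.eq, mul_assoc, ih, mul_one,
        psi_fac_sq hC]
  exact key _

theorem psi_DB (v : ℝ) (a : ℕ) : Dm v m a + Bc v m a = Wc m a := by
  unfold Dm Bc
  rw [← smul_add]
  rw [show bm v m * Wc m a * (bm v m)ᵀ + Wc m a + (Wc m a - bm v m * Wc m a * (bm v m)ᵀ) =
    (2 : ℝ) • Wc m a by rw [two_smul]; abel, smul_smul]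
  norm_num

theorem psi_DB' (v : ℝ) (a : ℕ) : Dm v m a - Bc v m a = bm v m * Wc m a * (bm v m)ᵀ := by
  unfold Dm Bc
  rw [← smul_sub]
  rw [show bm v m * Wc m a * (bm v m)ᵀ + Wc m a - (Wc m a - bm v m * Wc m a * (bm v m)ᵀ) =
    (2 : ℝ) • (bm v m * Wc m a * (bm v m)ᵀ) by rw [two_smul]; abel, smul_smul]
  norm_num

theorem psi_bDB {v : ℝ} (hv : 1 < v) (a : ℕ) (u : Fin m → ℂ) :
    (cM (bm v m))ᵀ.mulVec ((cM (Dm v m a)).mulVec u) -
      (cM (bm v m))ᵀ.mulVec ((cM (Bc v m a)).mulVec u) =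
      (cM (Wc m a)).mulVec ((cM (bm v m))ᵀ.mulVec u) := by
  rw [← Matrix.mulVec_sub, ← Matrix.sub_mulVec, ← psi_cM_sub, psi_DB', psi_cM_mul, psi_cM_mul,
    Matrix.mulVec_mulVec, ← mul_assoc, ← mul_assoc, psi_bTb hv, one_mul, ← Matrix.mulVec_mulVec]
  rfl

theorem psi_DBu (v : ℝ) (a : ℕ) (u : Fin m → ℂ) :
    (cM (Dm v m a)).mulVec u + (cM (Bc v m a)).mulVec u = (cM (Wc m a)).mulVec u := by
  rw [← Matrix.add_mulVec, ← psi_cM_add, psi_DB]

theorem Oa_mul_ps {v : ℝ} (hv : 1 < v) (hC : CAR f g) (a : ℕ) (u : Fin m → ℂ) :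
    Oa a f g * ps v f g u = (ps v f g ((cM (Dm v m a)).mulVec u) +
      psd v f g ((cM (Bc v m a)).mulVec u)) * Oa a f g := by
  rw [psi_ps_eq, psi_ps_eq, psi_psd_eq, psi_Oa_lc hC, psi_lc_add]
  congr 2
  · rw [Matrix.mulVec_smul, ← psi_bDB hv, neg_smul, ← sub_eq_add_neg, smul_sub]
  · rw [Matrix.mulVec_smul, ← psi_DBu v, smul_add]

theorem Oa_mul_psd {v : ℝ} (hv : 1 < v) (hC : CAR f g) (a : ℕ) (u : Fin m → ℂ) :
    Oa a f g * psd v f g u = (ps v f g ((cM (Bc v m a)).mulVec u) +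
      psd v f g ((cM (Dm v m a)).mulVec u)) * Oa a f g := by
  rw [psi_ps_eq, psi_psd_eq, psi_psd_eq, psi_Oa_lc hC, psi_lc_add]
  congr 2
  · rw [Matrix.mulVec_smul, ← psi_bDB hv, smul_sub, neg_smul, neg_smul, sub_neg_eq_add, add_comm]
  · rw [Matrix.mulVec_smul, ← psi_DBu v, smul_add, add_comm]

end psi

end

end IsingS2
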