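import Pool.Agent.Helper98.IS.Defs2
import Pool.Agent.Helper98.IS.Coupling
import Pool.Agent.Helper98.IS.BW
import Pool.Agent.Helper98.IS.Psi
import Pool.Agent.Helper98.IS.FockDet

/-!
# IS-15: the even and the odd two point function of the chain as determinants
-/

namespace IsingS2

open Complex Set MeasureTheory Filter Topology IsingNB
open scoped Real Matrix

noncomputable section

private theorem Wc_sq (m a : ℕ) : Wc m a * Wc m a = 1 := by
  rw [Wc, Matrix.diagonal_mul_diagonal, ← Matrix.diagonal_one]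
  congr 1
  funext k
  split_ifs <;> norm_num

private theorem Wc_transpose (m a : ℕ) : (Wc m a)ᵀ = Wc m a := by
  rw [Wc, Matrix.diagonal_transpose]

theorem Bc_facts {v : ℝ} (hv : 1 < v) (m a : ℕ) :
    (Bc v m a)ᵀ = Bc v m a ∧ (Dm v m a)ᵀ = Dm v m a ∧
      Dm v m a * Dm v m a + Bc v m a * Bc v m a = 1 ∧
      Dm v m a * Bc v m a + Bc v m a * Dm v m a = 0 := by
  set W := Wc m a with hW
  set Q := bm v m * W * (bm v m)ᵀ with hQ
  have hWt : Wᵀ = W := Wc_transpose m a
  have hQt : Qᵀ = Q := by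
    rw [hQ, Matrix.transpose_mul, Matrix.transpose_mul, Matrix.transpose_transpose, hWt,
      Matrix.mul_assoc]
  have hWW : W * W = 1 := Wc_sq m a
  have hQQ : Q * Q = 1 := by
    have : Q * Q = bm v m * (W * (((bm v m)ᵀ * bm v m) * W)) * (bm v m)ᵀ := by
      rw [hQ]; simp only [Matrix.mul_assoc]
    rw [this, transpose_mul_bm hv, Matrix.one_mul, hWW, Matrix.mul_one, bm_mul_transpose hv]
  have hB : Bc v m a = (1 / 2 : ℝ) • (W - Q) := rfl
  have hD : Dm v m a = (1 / 2 : ℝ) • (Q + W) := rfl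
  refine ⟨?_, ?_, ?_, ?_⟩
  · rw [hB, Matrix.transpose_smul, Matrix.transpose_sub, hWt, hQt]
  · rw [hD, Matrix.transpose_smul, Matrix.transpose_add, hWt, hQt]
  · rw [hB, hD]
    simp only [Matrix.smul_mul, Matrix.mul_smul, smul_smul]
    rw [← smul_add]
    have : (Q + W) * (Q + W) + (W - Q) * (W - Q) = (4 : ℝ) • (1 : Matrix (Fin m) (Fin m) ℝ) := by
      rw [add_mul, mul_add, mul_add, sub_mul, mul_sub, mul_sub, hWW, hQQ]
      module
    rw [this, smul_smul]
    norm_num
  · rw [hB, hD]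
    simp only [Matrix.smul_mul, Matrix.mul_smul, smul_smul]
    rw [← smul_add]
    have : (Q + W) * (W - Q) + (W - Q) * (Q + W) = 0 := by
      rw [add_mul, mul_sub, mul_sub, sub_mul, mul_add, mul_add, hWW, hQQ]
      abel
    rw [this, smul_zero]

theorem Ym_antisymm {v : ℝ} (hv : 1 < v) (m a : ℕ) (hD : (Dm v m a).det ≠ 0) :
    (Ym v m a)ᵀ = -Ym v m a := by
  obtain ⟨hBt, hDt, -, hDB⟩ := Bc_facts hv m a
  have hu : IsUnit (Dm v m a).det := isUnit_iff_ne_zero.2 hD
  have h1 : (Dm v m a)⁻¹ * Bc v m a = -(Bc v m a * (Dm v m a)⁻¹) := by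
    have h2 : Bc v m a * Dm v m a = -(Dm v m a * Bc v m a) := by
      rw [eq_neg_iff_add_eq_zero, add_comm]; exact hDB
    calc (Dm v m a)⁻¹ * Bc v m a = (Dm v m a)⁻¹ * (Bc v m a * Dm v m a) * (Dm v m a)⁻¹ := by
          rw [Matrix.mul_assoc, Matrix.mul_assoc, Matrix.mul_nonsing_inv _ hu, Matrix.mul_one]
      _ = -((Dm v m a)⁻¹ * Dm v m a * (Bc v m a * (Dm v m a)⁻¹)) := by
          rw [h2]; simp only [Matrix.mul_neg, Matrix.neg_mul, Matrix.mul_assoc]
      _ = -(Bc v m a * (Dm v m a)⁻¹) := by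
          rw [Matrix.nonsing_inv_mul _ hu, Matrix.one_mul]
  rw [Ym, Matrix.transpose_mul, Matrix.transpose_nonsing_inv, hBt, hDt, h1, neg_neg]

/-- `D⁻¹ B = - B D⁻¹` -/
private theorem Ym_eq {v : ℝ} (hv : 1 < v) (m a : ℕ) (hD : (Dm v m a).det ≠ 0) :
    Ym v m a = -(Bc v m a * (Dm v m a)⁻¹) := by
  obtain ⟨hBt, hDt, -, hDB⟩ := Bc_facts hv m a
  have h := Ym_antisymm hv m a hD
  have h2 : (Ym v m a)ᵀ = Bc v m a * (Dm v m a)⁻¹ := by
    rw [Ym, Matrix.transpose_mul, Matrix.transpose_nonsing_inv, hBt, hDt]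
  rw [← h2, h, neg_neg]

private theorem cM_mul {m : ℕ} (A B : Matrix (Fin m) (Fin m) ℝ) : cM (A * B) = cM A * cM B := by
  unfold cM
  exact Matrix.map_mul (f := Complex.ofRealHom)

private theorem cM_one' {m : ℕ} : cM (1 : Matrix (Fin m) (Fin m) ℝ) = 1 := by
  unfold cM
  exact Matrix.map_one (fun x : ℝ => (x : ℂ)) Complex.ofReal_zero Complex.ofReal_one

private theorem cM_sub {m : ℕ} (A B : Matrix (Fin m) (Fin m) ℝ) : cM (A - B) = cM A - cM B := by
  ext i j; simp [cM]

private theorem cM_add' {m : ℕ} (A B : Matrix (Fin m) (Fin m) ℝ) : cM (A + B) = cM A + cM B := by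
  ext i j; simp [cM]

private theorem cM_neg' {m : ℕ} (A : Matrix (Fin m) (Fin m) ℝ) : cM (-A) = -cM A := by
  ext i j; simp [cM]

private theorem cM_smul' {m : ℕ} (r : ℝ) (A : Matrix (Fin m) (Fin m) ℝ) : cM (r • A) = (r : ℂ) • cM A := by
  ext i j; simp [cM]

private theorem cM_pow {m : ℕ} (A : Matrix (Fin m) (Fin m) ℝ) (N : ℕ) : cM (A ^ N) = cM A ^ N := by
  induction N with
  | zero => rw [pow_zero, pow_zero, cM_one']
  | succ n ih => rw [pow_succ, pow_succ, cM_mul, ih]

private theorem cM_det {m : ℕ} (A : Matrix (Fin m) (Fin m) ℝ) : (cM A).det = ((A.det : ℝ) : ℂ) := by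
  exact (RingHom.map_det Complex.ofRealHom A).symm

private theorem cM_adj {m : ℕ} (A : Matrix (Fin m) (Fin m) ℝ) : (cM A).adjugate = cM A.adjugate := by
  exact (RingHom.map_adjugate Complex.ofRealHom A).symm

section evenodd
variable {v : ℝ} {m : ℕ} {V : Type*} [AddCommGroup V] [Module ℂ V] {f g : Fin m → Module.End ℂ V}
  {Ω : V} {Ω' : V →ₗ[ℂ] ℂ} {Λ : ℂ}

private theorem ps_zero' (v : ℝ) (f g : Fin m → Module.End ℂ V) : ps v f g 0 = 0 := by
  have := ps_smul v (f := f) (g := g) 0 0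
  simpa using this

private theorem psd_zero' (v : ℝ) (f g : Fin m → Module.End ℂ V) : psd v f g 0 = 0 := by
  have := psd_smul v (f := f) (g := g) 0 0
  simpa using this

private theorem ps_sum (v : ℝ) (f g : Fin m → Module.End ℂ V) (u : Fin m → ℂ) :
    ps v f g u = ∑ k, u k • ps v f g (Pi.single k 1) := by
  have key : ∀ s : Finset (Fin m), ps v f g (∑ k ∈ s, u k • Pi.single k (1 : ℂ)) =
      ∑ k ∈ s, u k • ps v f g (Pi.single k 1) := by
    intro s
    induction s using Finset.induction_on with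
    | empty => simp [ps_zero']
    | insert a s ha ih => rw [Finset.sum_insert ha, Finset.sum_insert ha, ps_add, ps_smul, ih]
  rw [← key]
  congr 1
  funext i
  simp [Finset.sum_apply, Pi.single_apply]

private theorem psd_sum (v : ℝ) (f g : Fin m → Module.End ℂ V) (u : Fin m → ℂ) :
    psd v f g u = ∑ k, u k • psd v f g (Pi.single k 1) := by
  have key : ∀ s : Finset (Fin m), psd v f g (∑ k ∈ s, u k • Pi.single k (1 : ℂ)) =
      ∑ k ∈ s, u k • psd v f g (Pi.single k 1) := by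
    intro s
    induction s using Finset.induction_on with
    | empty => simp [psd_zero']
    | insert a s ha ih => rw [Finset.sum_insert ha, Finset.sum_insert ha, psd_add, psd_smul, ih]
  rw [← key]
  congr 1
  funext i
  simp [Finset.sum_apply, Pi.single_apply]

private theorem chain_fock (hv : 1 < v) (hC : CAR f g) (hV : Vac v f g Ω Ω' Λ) :
    Fock (fun k => ps v f g (Pi.single k 1)) (fun k => psd v f g (Pi.single k 1)) Ω Ω' where
  cc i j := ps_ps hv hC _ _
  dd i j := psd_psd hv hC _ _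
  cd i j := by
    rw [ps_psd hv hC]
    simp only [single_dotProduct, one_mul, Pi.single_apply]
    split_ifs <;> simp
  ann i := hV.ann _
  ann' i x := hV.ann' _ x
  norm := hV.norm

/-- the operators preserving the span of the created vectors -/
private def Pres (d : Fin m → Module.End ℂ V) (Ω : V) (T : Module.End ℂ V) : Prop :=
  ∀ x, InF d Ω x → InF d Ω (T x)

private theorem Pres.mul {d : Fin m → Module.End ℂ V} {S T : Module.End ℂ V} (hS : Pres d Ω S)
    (hT : Pres d Ω T) : Pres d Ω (S * T) := fun x hx => by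
  rw [Module.End.mul_apply]; exact hS _ (hT _ hx)

private theorem Pres.add {d : Fin m → Module.End ℂ V} {S T : Module.End ℂ V} (hS : Pres d Ω S)
    (hT : Pres d Ω T) : Pres d Ω (S + T) := fun x hx => by
  rw [LinearMap.add_apply]; exact InF.add _ _ (hS _ hx) (hT _ hx)

private theorem Pres.smul {d : Fin m → Module.End ℂ V} {S : Module.End ℂ V} (r : ℂ) (hS : Pres d Ω S) :
    Pres d Ω (r • S) := fun x hx => by
  rw [LinearMap.smul_apply]; exact InF.smul _ _ (hS _ hx)

private theorem Pres.one {d : Fin m → Module.End ℂ V} : Pres d Ω 1 := fun _ hx => hx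

private theorem InF.zero {d : Fin m → Module.End ℂ V} : InF d Ω 0 := by
  have := InF.smul (d := d) (Ω := Ω) 0 Ω InF.vac
  simpa using this

private theorem Pres.sum {d : Fin m → Module.End ℂ V} {ι : Type*} (s : Finset ι)
    (T : ι → Module.End ℂ V) (h : ∀ i ∈ s, Pres d Ω (T i)) : Pres d Ω (∑ i ∈ s, T i) := by
  classical
  induction s using Finset.induction_on with
  | empty => intro x _; simpa using InF.zero
  | insert a s ha ih =>
    rw [Finset.sum_insert ha]
    exact (h a (Finset.mem_insert_self _ _)).add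
      (ih fun i hi => h i (Finset.mem_insert_of_mem hi))

private theorem Pres.list {d : Fin m → Module.End ℂ V} {ι : Type*} (l : List ι)
    (T : ι → Module.End ℂ V) (h : ∀ i, Pres d Ω (T i)) : Pres d Ω ((l.map T).prod) := by
  induction l with
  | nil => exact Pres.one
  | cons a l ih => rw [List.map_cons, List.prod_cons]; exact (h a).mul ih

private theorem Pres.pow {d : Fin m → Module.End ℂ V} {T : Module.End ℂ V} (h : Pres d Ω T) (N : ℕ) :
    Pres d Ω (T ^ N) := by
  induction N with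
  | zero => exact Pres.one
  | succ n ih => rw [pow_succ]; exact ih.mul h

section pres
set_option linter.unusedSectionVars false
variable (hv : 1 < v) (hC : CAR f g) (hV : Vac v f g Ω Ω' Λ)

include hv hC hV

private theorem pres_c (k : Fin m) : Pres (fun k => psd v f g (Pi.single k 1)) Ω
    (ps v f g (Pi.single k 1)) := by
  have hF := chain_fock hv hC hV
  intro x hx
  induction hx with
  | vac => rw [hV.ann]; exact InF.zero
  | add x y _ _ hx hy => rw [map_add]; exact InF.add _ _ hx hy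
  | smul r x _ hx => rw [map_smul]; exact InF.smul _ _ hx
  | cre j x hx0 hx =>
    have h := congrArg (fun T : Module.End ℂ V => T x) (hF.cd k j)
    simp only [LinearMap.add_apply, Module.End.mul_apply] at h
    have h2 : ps v f g (Pi.single k 1) (psd v f g (Pi.single j 1) x) =
        (if k = j then (1 : ℂ) else 0) • x +
          (-1 : ℂ) • psd v f g (Pi.single j 1) (ps v f g (Pi.single k 1) x) := by
      have h3 : (if k = j then (1 : Module.End ℂ V) else 0) x = (if k = j then (1 : ℂ) else 0) • x := by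
        split_ifs <;> simp
      rw [← h3, ← h]
      module
    show InF _ Ω (ps v f g (Pi.single k 1) (psd v f g (Pi.single j 1) x))
    rw [h2]
    exact InF.add _ _ (InF.smul _ _ hx0) (InF.smul _ _ (InF.cre j _ hx))

private theorem pres_d (k : Fin m) : Pres (fun k => psd v f g (Pi.single k 1)) Ω
    (psd v f g (Pi.single k 1)) := fun x hx => InF.cre k x hx

private theorem pres_ps (u : Fin m → ℂ) : Pres (fun k => psd v f g (Pi.single k 1)) Ω (ps v f g u) := by
  rw [ps_sum]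
  exact Pres.sum _ _ fun k _ => (pres_c hv hC hV k).smul _

private theorem pres_psd (u : Fin m → ℂ) : Pres (fun k => psd v f g (Pi.single k 1)) Ω (psd v f g u) := by
  rw [psd_sum]
  exact Pres.sum _ _ fun k _ => (pres_d hv hC hV k).smul _

private theorem pres_g (k : Fin m) : Pres (fun k => psd v f g (Pi.single k 1)) Ω (g k) := by
  rw [g_eq (f := f) (g := g) v k]
  exact (pres_ps hv hC hV _).add (pres_psd hv hC hV _)

private theorem pres_f (k : Fin m) : Pres (fun k => psd v f g (Pi.single k 1)) Ω (f k) := by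
  rw [f_eq (f := f) (g := g) hv k, sub_eq_add_neg, ← neg_one_smul ℂ (psd v f g _)]
  exact ((pres_ps hv hC hV _).add ((pres_psd hv hC hV _).smul _)).smul _

private theorem pres_Oa (a : ℕ) : Pres (fun k => psd v f g (Pi.single k 1)) Ω (Oa a f g) := by
  refine Pres.list _ _ fun k => ?_
  split_ifs
  · exact ((pres_f hv hC hV k).mul (pres_g hv hC hV k)).smul _
  · exact Pres.one

private theorem pres_Sh : Pres (fun k => psd v f g (Pi.single k 1)) Ω (Sh v f g) :=
  Pres.list _ _ fun k => (Pres.one.smul _).add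
    (((pres_f hv hC hV k).mul (pres_g hv hC hV k)).smul _)

private theorem pres_Wk : Pres (fun k => psd v f g (Pi.single k 1)) Ω (Wk v f g) := by
  refine Pres.list _ _ fun k => ?_
  split_ifs
  · exact (Pres.one.smul _).add (((pres_g hv hC hV k).mul (pres_f hv hC hV _)).smul _)
  · exact Pres.one

private theorem pres_VV : Pres (fun k => psd v f g (Pi.single k 1)) Ω (VV v f g) :=
  ((pres_Sh hv hC hV).mul (pres_Wk hv hC hV)).mul (pres_Sh hv hC hV)

private theorem inF_state (b N : ℕ) : InF (fun k => psd v f g (Pi.single k 1)) Ω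
    ((VV v f g ^ N) (Oa b f g Ω)) :=
  (pres_VV hv hC hV).pow N _ (pres_Oa hv hC hV b _ InF.vac)

end pres

/-! ### action on the cut states -/

private theorem VV_pow_psd (hv : 1 < v) (hC : CAR f g) (N : ℕ) (u : Fin m → ℂ) :
    VV v f g ^ N * psd v f g u = psd v f g ((cM (wm v m) ^ N).mulVec u) * VV v f g ^ N := by
  induction N generalizing u with
  | zero => simp
  | succ n ih =>
    rw [pow_succ, mul_assoc, VV_mul_psd hv hC, ← mul_assoc, ih, mul_assoc, pow_succ (cM (wm v m)),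
      Matrix.mulVec_mulVec]

private theorem VV_pow_ps (hv : 1 < v) (hC : CAR f g) (N : ℕ) (u : Fin m → ℂ) :
    VV v f g ^ N * ps v f g ((cM (wm v m) ^ N).mulVec u) = ps v f g u * VV v f g ^ N := by
  induction N generalizing u with
  | zero => simp
  | succ n ih =>
    rw [pow_succ, mul_assoc, pow_succ', ← Matrix.mulVec_mulVec, VV_mul_ps hv hC, ← mul_assoc, ih,
      mul_assoc]

/-- `ps(u) O_b Ω = psd(Y_b u) O_b Ω` -/
private theorem ps_cut (hv : 1 < v) (hC : CAR f g) (hV : Vac v f g Ω Ω' Λ) {b : ℕ}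
    (hb : (Dm v m b).det ≠ 0) (u : Fin m → ℂ) :
    ps v f g u (Oa b f g Ω) = psd v f g ((cM (Ym v m b)).mulVec u) (Oa b f g Ω) := by
  have h := congrArg (fun T : Module.End ℂ V => T Ω) (Oa_mul_ps hv hC b ((cM (Dm v m b)⁻¹).mulVec u))
  simp only [Module.End.mul_apply, LinearMap.add_apply, Matrix.mulVec_mulVec, ← cM_mul] at h
  rw [hV.ann, map_zero, Matrix.mul_nonsing_inv _ (isUnit_iff_ne_zero.2 hb), cM_one',
    Matrix.one_mulVec] at h
  rw [Ym_eq hv m b hb, cM_neg', Matrix.neg_mulVec, ← neg_one_smul ℂ ((cM _).mulVec u), psd_smul,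
    LinearMap.smul_apply, neg_one_smul]
  exact eq_neg_of_add_eq_zero_left h.symm

private theorem ps_state (hv : 1 < v) (hC : CAR f g) (hV : Vac v f g Ω Ω' Λ) {b : ℕ}
    (hb : (Dm v m b).det ≠ 0) (N : ℕ) (u : Fin m → ℂ) :
    ps v f g u ((VV v f g ^ N) (Oa b f g Ω)) =
      psd v f g ((cM (wm v m ^ N * Ym v m b * wm v m ^ N)).mulVec u)
        ((VV v f g ^ N) (Oa b f g Ω)) := by
  rw [← Module.End.mul_apply, ← VV_pow_ps hv hC, Module.End.mul_apply, ps_cut hv hC hV hb,
    ← Module.End.mul_apply, VV_pow_psd hv hC, Module.End.mul_apply, Matrix.mulVec_mulVec,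
    Matrix.mulVec_mulVec, cM_mul, cM_mul, cM_pow, Matrix.mul_assoc]

/-- `Ω' O_a psd(u) = Ω' O_a ps(Y_a u)` -/
private theorem cut_psd (hv : 1 < v) (hC : CAR f g) (hV : Vac v f g Ω Ω' Λ) {a : ℕ}
    (ha : (Dm v m a).det ≠ 0) (u : Fin m → ℂ) (x : V) :
    Ω' (Oa a f g (psd v f g u x)) = Ω' (Oa a f g (ps v f g ((cM (Ym v m a)).mulVec u) x)) := by
  rw [← Module.End.mul_apply, Oa_mul_psd hv hC, ← Module.End.mul_apply, Oa_mul_ps hv hC]
  simp only [Module.End.mul_apply, LinearMap.add_apply, map_add, hV.ann', add_zero,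
    Matrix.mulVec_mulVec, ← cM_mul]
  rw [Ym, ← Matrix.mul_assoc, Matrix.mul_nonsing_inv _ (isUnit_iff_ne_zero.2 ha), Matrix.one_mul]

private theorem col_sum (v : ℝ) (f g : Fin m → Module.End ℂ V) (A : Matrix (Fin m) (Fin m) ℂ) (k : Fin m) :
    psd v f g (A.mulVec (Pi.single k 1)) = ∑ l, A l k • psd v f g (Pi.single l 1) := by
  rw [psd_sum]
  refine Finset.sum_congr rfl fun l _ => ?_
  rw [Matrix.mulVec_single_one, Matrix.col_apply]

private theorem col_sum' (v : ℝ) (f g : Fin m → Module.End ℂ V) (A : Matrix (Fin m) (Fin m) ℂ) (k : Fin m) :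
    ps v f g (A.mulVec (Pi.single k 1)) = ∑ l, A l k • ps v f g (Pi.single l 1) := by
  rw [ps_sum]
  refine Finset.sum_congr rfl fun l _ => ?_
  rw [Matrix.mulVec_single_one, Matrix.col_apply]

section formulas
set_option linter.unusedSectionVars false
variable (hv : 1 < v) (hC : CAR f g) (hV : Vac v f g Ω Ω' Λ) {a b : ℕ}
    (ha : (Dm v m a).det ≠ 0) (hb : (Dm v m b).det ≠ 0) (N : ℕ)

include hv hC hV ha hb

private theorem hyp_Φ (k : Fin m) : ps v f g (Pi.single k 1) ((VV v f g ^ N) (Oa b f g Ω)) =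
    ∑ l, (cM (wm v m ^ N * Ym v m b * wm v m ^ N)) l k • psd v f g (Pi.single l 1)
      ((VV v f g ^ N) (Oa b f g Ω)) := by
  rw [ps_state hv hC hV hb, col_sum]
  simp [LinearMap.sum_apply]

private theorem hyp_Ψ (k : Fin m) (x : V) :
    (Ω' ∘ₗ Oa a f g) (psd v f g (Pi.single k 1) x) =
    ∑ l, (cM (Ym v m a)) l k * (Ω' ∘ₗ Oa a f g) (ps v f g (Pi.single l 1) x) := by
  rw [LinearMap.comp_apply, cut_psd hv hC hV ha, col_sum']
  simp [LinearMap.sum_apply]

omit hv hC hV ha hb in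
private theorem one_sub_CA : (1 : Matrix (Fin m) (Fin m) ℂ) - cM (wm v m ^ N * Ym v m b * wm v m ^ N) *
    cM (Ym v m a) = cM (Pm v m a b N) := by
  rw [Pm, cM_sub, cM_one', ← cM_mul]

omit hv hC ha hb in
private theorem vac_pow (x : V) : Ω' ((VV v f g ^ N) x) = Λ ^ N * Ω' x := by
  induction N generalizing x with
  | zero => simp
  | succ n ih => rw [pow_succ, Module.End.mul_apply, ih, hV.eig', pow_succ]; ring

end formulas

theorem even_formula (hv : 1 < v) (hC : CAR f g) (hV : Vac v f g Ω Ω' Λ) {a b : ℕ}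
    (ha : (Dm v m a).det ≠ 0) (hb : (Dm v m b).det ≠ 0) (N : ℕ) :
    Ech v f g Ω Ω' Λ a b N ^ 2 =
      Ω' (Oa a f g Ω) ^ 2 * Ω' (Oa b f g Ω) ^ 2 * (((Pm v m a b N).det : ℝ) : ℂ) := by
  have h := fock_sq (chain_fock hv hC hV) (inF_state hv hC hV b N)
    (hyp_Φ hv hC hV ha hb N) (hyp_Ψ hv hC hV ha hb)
  rw [one_sub_CA, cM_det, vac_pow hV] at h
  simp only [LinearMap.comp_apply] at h
  have hΛ : Λ ^ N ≠ 0 := pow_ne_zero _ hV.Λ_ne
  rw [Ech, div_pow, h]
  field_simp

theorem norm_formula (hv : 1 < v) (hC : CAR f g) (hV : Vac v f g Ω Ω' Λ) {a : ℕ}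
    (ha : (Dm v m a).det ≠ 0) :
    Ω' (Oa a f g Ω) ^ 4 * (((Pm v m a a 0).det : ℝ) : ℂ) = 1 := by
  have h := even_formula hv hC hV ha ha 0
  have h1 : Ech v f g Ω Ω' Λ a a 0 = 1 := by
    rw [Ech, pow_zero, pow_zero, div_one, Module.End.one_apply, ← Module.End.mul_apply, Oa_sq hC,
      Module.End.one_apply, hV.norm]
  rw [h1, one_pow] at h
  rw [h]
  ring

/-! ### the odd operators -/

/-- complexified vector -/
private def cV {m : ℕ} (u : Fin m → ℝ) : Fin m → ℂ := fun k => (u k : ℂ)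

private theorem cM_mulVec {m : ℕ} (A : Matrix (Fin m) (Fin m) ℝ) (u : Fin m → ℝ) :
    (cM A).mulVec (cV u) = cV (A.mulVec u) := by
  funext k
  simp [cM, cV, Matrix.mulVec, dotProduct]

private theorem cV_dot {m : ℕ} (u w : Fin m → ℝ) : cV u ⬝ᵥ cV w = ((u ⬝ᵥ w : ℝ) : ℂ) := by
  simp [cV, dotProduct]

private theorem cV_add {m : ℕ} (u w : Fin m → ℝ) : cV (u + w) = cV u + cV w := by
  funext k; simp [cV]

private theorem cV_single {m : ℕ} (a : Fin m) : cV (ev1 m a) = Pi.single a (1 : ℂ) := by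
  funext k
  simp only [cV, ev1, Pi.single_apply, Fin.ext_iff]
  split_ifs <;> simp

private theorem Xi_eq (hv : 1 < v) (a : Fin m) : Xi v f g a =
    (-I) • (ps v f g (cV ((c1 v • bm v m + s1 v • 1).mulVec (ev1 m a))) +
      psd v f g (cV ((s1 v • 1 - c1 v • bm v m).mulVec (ev1 m a)))) := by
  have e1 : cV ((c1 v • bm v m + s1 v • 1).mulVec (ev1 m a)) =
      (c1 v : ℂ) • (cM (bm v m)).mulVec (Pi.single a 1) + (s1 v : ℂ) • Pi.single a 1 := by
    rw [← cM_mulVec, cV_single, cM_add', cM_smul', cM_smul', cM_one', Matrix.add_mulVec,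
      Matrix.smul_mulVec, Matrix.smul_mulVec, Matrix.one_mulVec]
  have e2 : cV ((s1 v • 1 - c1 v • bm v m).mulVec (ev1 m a)) =
      (s1 v : ℂ) • Pi.single a 1 + (-(c1 v : ℂ)) • (cM (bm v m)).mulVec (Pi.single a 1) := by
    rw [← cM_mulVec, cV_single, cM_sub, cM_smul', cM_smul', cM_one', Matrix.sub_mulVec,
      Matrix.smul_mulVec, Matrix.smul_mulVec, Matrix.one_mulVec, neg_smul, sub_eq_add_neg]
  rw [e1, e2, ps_add, psd_add, ps_smul, ps_smul, psd_smul, psd_smul, Xi,
    f_eq (f := f) (g := g) hv a, g_eq (f := f) (g := g) v a]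
  set A := ps v f g ((cM (bm v m)).mulVec (Pi.single a 1))
  set B := psd v f g ((cM (bm v m)).mulVec (Pi.single a 1))
  set P := ps v f g (Pi.single a 1)
  set Q := psd v f g (Pi.single a 1)
  module

private theorem Xi_left (hv : 1 < v) (hC : CAR f g) (hV : Vac v f g Ω Ω' Λ) {a : Fin m}
    (ha : (Dm v m a).det ≠ 0) (x : V) :
    Ω' (Oa a f g (Xi v f g a x)) =
      (-I) * Ω' (Oa a f g (ps v f g (cV (ga v m a (ev1 m a))) x)) := by
  rw [Xi_eq hv a, LinearMap.smul_apply, map_smul, map_smul, smul_eq_mul, LinearMap.add_apply,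
    map_add, map_add, cut_psd hv hC hV ha, cM_mulVec, ga, cV_add, ps_add, LinearMap.add_apply,
    map_add, map_add]

private theorem Xi_right (hv : 1 < v) (hC : CAR f g) (hV : Vac v f g Ω Ω' Λ) {b : Fin m}
    (hb : (Dm v m b).det ≠ 0) :
    Xi v f g b (Oa b f g Ω) = (-I) • psd v f g (cV (gb v m b (ev1 m b))) (Oa b f g Ω) := by
  rw [Xi_eq hv b, LinearMap.smul_apply, LinearMap.add_apply, ps_cut hv hC hV hb, cM_mulVec, gb,
    cV_add, psd_add, LinearMap.add_apply, add_comm]

theorem odd_formula (hv : 1 < v) (hC : CAR f g) (hV : Vac v f g Ω Ω' Λ) {a b : Fin m}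
    (ha : (Dm v m a).det ≠ 0) (hb : (Dm v m b).det ≠ 0) (N : ℕ)
    (hE : Ech v f g Ω Ω' Λ a b N ≠ 0) :
    Gch v f g Ω Ω' Λ a b N * Ech v f g Ω Ω' Λ a b N =
      Ω' (Oa a f g Ω) ^ 2 * Ω' (Oa b f g Ω) ^ 2 * ((Qm v m a b N : ℝ) : ℂ) := by
  have hev := even_formula hv hC hV ha hb N
  have hdet : (((Pm v m a b N).det : ℝ) : ℂ) ≠ 0 := by
    intro h0
    rw [h0, mul_zero] at hev
    exact hE (pow_eq_zero_iff (two_ne_zero) |>.1 hev)
  -- the state
  set Φ := (VV v f g ^ N) (Oa b f g Ω) with hΦ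
  have hG : Gch v f g Ω Ω' Λ a b N = -(Ω' (Oa a f g (ps v f g (cV (ga v m a (ev1 m a)))
      (psd v f g ((cM (wm v m) ^ N).mulVec (cV (gb v m b (ev1 m b)))) Φ))) / Λ ^ N) := by
    rw [Gch, Xi_left hv hC hV ha, Xi_right hv hC hV hb, map_smul, ← Module.End.mul_apply (VV v f g ^ N),
      VV_pow_psd hv hC, Module.End.mul_apply, map_smul, map_smul, map_smul, smul_eq_mul,
      ← mul_assoc, ← hΦ]
    have : (-I) * (-I) = -1 := by rw [neg_mul_neg, I_mul_I]
    rw [this]
    ring
  have h2 : ∀ x y : Fin m → ℂ, (((Pm v m a b N).det : ℝ) : ℂ) *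
      Ω' (Oa a f g (ps v f g x (psd v f g y Φ))) =
      Ω' (Oa a f g Φ) * (x ⬝ᵥ (cM (Pm v m a b N)).adjugate.mulVec y) := by
    intro x y
    have h := fock_two (chain_fock hv hC hV) (hyp_Φ hv hC hV ha hb N) (hyp_Ψ hv hC hV ha hb)
    rw [one_sub_CA, cM_det] at h
    simp only [LinearMap.comp_apply] at h
    rw [ps_sum v f g x, psd_sum v f g y]
    simp only [LinearMap.sum_apply, LinearMap.smul_apply, map_sum, map_smul, smul_eq_mul,
      Finset.mul_sum, dotProduct, Matrix.mulVec]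
    rw [Finset.sum_comm]
    refine Finset.sum_congr rfl fun k _ => Finset.sum_congr rfl fun l _ => ?_
    have := h k l
    rw [← hΦ] at this
    linear_combination (x k * y l) * this
  have h3 : (((Pm v m a b N).det : ℝ) : ℂ) * Gch v f g Ω Ω' Λ a b N =
      Ech v f g Ω Ω' Λ a b N * ((Qm v m a b N : ℝ) : ℂ) := by
    have hQ : ((Qm v m a b N : ℝ) : ℂ) = -(cV (ga v m a (ev1 m a)) ⬝ᵥ
        (cM (Pm v m a b N)).adjugate.mulVec ((cM (wm v m) ^ N).mulVec (cV (gb v m b (ev1 m b))))) := by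
      rw [Qm, cM_adj, ← cM_pow, cM_mulVec, cM_mulVec, cV_dot, Complex.ofReal_neg]
    rw [hG, hQ, Ech, ← hΦ, mul_neg, ← mul_div_assoc, h2]
    ring
  have h4 : (((Pm v m a b N).det : ℝ) : ℂ) * (Gch v f g Ω Ω' Λ a b N * Ech v f g Ω Ω' Λ a b N) =
      (((Pm v m a b N).det : ℝ) : ℂ) *
        (Ω' (Oa a f g Ω) ^ 2 * Ω' (Oa b f g Ω) ^ 2 * ((Qm v m a b N : ℝ) : ℂ)) := by
    linear_combination (Ech v f g Ω Ω' Λ a b N) * h3 + ((Qm v m a b N : ℝ) : ℂ) * hev
  exact mul_left_cancel₀ hdet h4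
end evenodd

end

end IsingS2
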