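import Pool.Agent.Helper98.IS.Defs2
import Pool.Agent.Helper98.NB.ChiBasic
import Pool.Agent.Helper98.NB.Deform

/-!
# IS-41a: bounds, limits, reality and continuity of the terms of the form factor series
-/

namespace IsingS2

open Complex Set MeasureTheory Filter Topology IsingNB
open scoped Real Matrix

noncomputable section

/-- the integrand -/
def ffI (j : ℕ) (M : ℤ) (N : ℕ) (c : ℂ) (z : Fin j → ℂ) : ℂ :=
  IsingNB.ker W c z * Complex.exp (I * M * ∑ i, z i) * prodw W c z ^ N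

/-- its domain -/
def ffU (j : ℕ) (c : ℂ) : Set (Fin j → ℂ) := {z | ∀ m, c - Complex.cos (z m) ∉ Seg}

theorem FF_eq_ffI (j : ℕ) (M : ℤ) (N : ℕ) (c : ℂ) :
    FF j M N c = (1 / (j.factorial : ℂ)) * (1 / (2 * π)) ^ j * ∫ t in box j, ffI j M N c (cv t) := rfl

theorem FF_zero (M : ℤ) (N : ℕ) (c : ℂ) : FF 0 M N c = 1 := by
  have hb : box 0 = Set.univ := by
    ext t
    simp only [box, Set.mem_Icc, Set.mem_univ, iff_true]
    exact ⟨fun i => i.elim0, fun i => i.elim0⟩
  unfold FF
  rw [hb, Measure.restrict_univ, MeasureTheory.volume_pi, Measure.pi_of_empty, integral_dirac]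
  simp [IsingNB.ker, pairs, prodw]

theorem ff_norm_W_re {u : ℂ} (hu : 1 < u.re) : ‖W u‖ ≤ 1 / (2 * u.re - 1) := by
  have h1 := W_add_inv u
  have h2 := W_ne_zero u
  have hr : 0 < ‖W u‖ := norm_pos_iff.2 h2
  have hl : ‖W u‖ ≤ 1 := norm_W_le_one u
  have h3 : 2 * u.re ≤ ‖W u‖ + ‖W u‖⁻¹ := by
    have h4 : (2 * u).re = 2 * u.re := by simp
    rw [← h4, ← h1, Complex.add_re]
    have h5 := Complex.re_le_norm (W u)
    have h6 := Complex.re_le_norm (W u)⁻¹
    rw [norm_inv] at h6
    linarith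
  have h4 : 2 * u.re - 1 ≤ ‖W u‖⁻¹ := by linarith
  rw [le_div_iff₀ (by linarith)]
  calc ‖W u‖ * (2 * u.re - 1) ≤ ‖W u‖ * ‖W u‖⁻¹ := by gcongr
    _ = 1 := mul_inv_cancel₀ hr.ne'

theorem ff_notMem_Seg {u : ℂ} (hu : 1 < u.re) : u ∉ Seg := fun h => absurd h.2.2 (not_le.2 hu)

/-- bound for the kernel -/
theorem ff_ker_le (E q : ℝ) (hE : 1 ≤ E) (hq0 : 0 < q) (hq1 : q < 1) :
    ∃ A : ℝ, 1 ≤ A ∧ ∀ (j : ℕ) (c : ℂ) (z : Fin j → ℂ) (r : ℝ), r ≤ q →
      (∀ i, ‖W (c - Complex.cos (z i))‖ ≤ r) → (∀ i, ‖Complex.exp (I * z i)‖ ≤ E) →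
      (∀ i, ‖Complex.exp (I * z i)‖⁻¹ ≤ E) →
      ‖IsingNB.ker W c z‖ ≤ (A * r) ^ j * Real.sqrt ((j : ℝ) ^ j) := by
  set D : ℝ := 2 * E / (1 - q) with hD
  have h1q : 0 < 1 - q := by linarith
  have hD1 : 1 ≤ D := by
    rw [hD, le_div_iff₀ h1q]
    linarith
  have hED : E ≤ D := by
    rw [hD, le_div_iff₀ h1q]
    nlinarith
  have h2D : 2 / (1 - q) ≤ D := by
    rw [hD]
    exact div_le_div_of_nonneg_right (by linarith) h1q.le
  obtain ⟨A, hA, hp⟩ := cb_pairs_bound D hD1
  have hsA : 1 ≤ Real.sqrt A := by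
    rw [Real.one_le_sqrt]
    exact hA
  refine ⟨D * Real.sqrt A, by nlinarith, fun j c z r hrq hw hx hx' => ?_⟩
  rcases Nat.eq_zero_or_pos j with hj | hj
  · subst hj
    simp [IsingNB.ker, pairs]
  have hr0 : 0 ≤ r := (norm_nonneg _).trans (hw ⟨0, hj⟩)
  have hwq : ∀ i, ‖W (c - Complex.cos (z i))‖ ≤ q := fun i => (hw i).trans hrq
  have hden : ∀ w w' : ℂ, ‖w‖ ≤ q → ‖w'‖ ≤ 1 → 1 - q ≤ ‖1 - w * w'‖ := by
    intro w w' h h'
    have h3 : ‖w * w'‖ ≤ q := by
      rw [norm_mul]
      nlinarith [norm_nonneg w, norm_nonneg w']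
    have h4 := norm_sub_norm_le (1 : ℂ) (w * w')
    rw [norm_one] at h4
    linarith
  have hpairs : ‖pairs (fun i => Complex.exp (I * (z i))) (fun i => W (c - Complex.cos (z i)))‖ ≤
      Real.sqrt (A ^ j * (j : ℝ) ^ j) := by
    apply Real.le_sqrt_of_sq_le
    apply hp j c
    · intro i; exact Complex.exp_ne_zero _
    · intro i; exact W_ne_zero _
    · intro i
      have h1 := W_add_inv (c - Complex.cos (z i))
      have h2 : Complex.exp (I * z i) + (Complex.exp (I * z i))⁻¹ = 2 * Complex.cos (z i) := by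
        rw [← Complex.exp_neg, Complex.two_cos, mul_comm I, neg_mul]
      linear_combination h1 + h2
    · intro i l
      exact cb_den ((hwq i).trans_lt hq1) ((hwq l).trans_lt hq1)
    · intro i l
      rw [norm_div, hD]
      have h1 : ‖Complex.exp (I * z i) - Complex.exp (I * z l)‖ ≤ 2 * E := by
        refine (norm_sub_le _ _).trans ?_
        have := hx i
        have := hx l
        linarith
      have h2 := hden _ _ (hwq i) ((hwq l).trans hq1.le)
      exact div_le_div₀ (by linarith) h1 h1q h2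
    · intro i
      rw [norm_div, div_eq_mul_inv]
      calc ‖W (c - Complex.cos (z i))‖ * ‖Complex.exp (I * z i)‖⁻¹ ≤ 1 * E :=
            mul_le_mul ((hwq i).trans hq1.le) (hx' i) (inv_nonneg.2 (norm_nonneg _)) zero_le_one
        _ ≤ D := by rw [one_mul]; exact hED
  have hprod : ‖∏ i, 2 * W (c - Complex.cos (z i)) / (1 - W (c - Complex.cos (z i)) ^ 2)‖ ≤
      (D * r) ^ j := by
    rw [norm_prod]
    calc _ ≤ ∏ _i : Fin j, (D * r) := by
          apply Finset.prod_le_prod (fun i _ => norm_nonneg _)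
          intro i _
          rw [norm_div, norm_mul, pow_two]
          have h2 := hden _ _ (hwq i) ((hwq i).trans hq1.le)
          have h3 : ‖(2 : ℂ)‖ * ‖W (c - Complex.cos (z i))‖ ≤ 2 * r := by
            have : ‖(2 : ℂ)‖ = 2 := by norm_num
            rw [this]
            have := hw i
            linarith
          calc _ ≤ 2 * r / (1 - q) := div_le_div₀ (by positivity) h3 h1q h2
            _ = 2 / (1 - q) * r := by ring
            _ ≤ D * r := by gcongr
      _ = (D * r) ^ j := by simp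
  have hsq : Real.sqrt (A ^ j * (j : ℝ) ^ j) = Real.sqrt A ^ j * Real.sqrt ((j : ℝ) ^ j) := by
    rw [Real.sqrt_mul (by positivity)]
    congr 1
    rw [Real.sqrt_eq_iff_mul_self_eq (by positivity) (by positivity), ← mul_pow,
      Real.mul_self_sqrt (by linarith)]
  rw [hsq] at hpairs
  unfold IsingNB.ker
  rw [norm_mul]
  calc _ ≤ (D * r) ^ j * (Real.sqrt A ^ j * Real.sqrt ((j : ℝ) ^ j)) :=
        mul_le_mul hprod hpairs (norm_nonneg _) (by positivity)
    _ = _ := by rw [mul_pow, mul_pow, mul_pow]; ring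

/-- from a bound of the integrand to a bound of the term -/
theorem ff_int_le {j : ℕ} {G : (Fin j → ℝ) → ℂ} {B : ℝ} (hG : ∀ t, ‖G t‖ ≤ B) :
    ‖(1 / (j.factorial : ℂ)) * (1 / (2 * π)) ^ j * ∫ t in box j, G t‖ ≤ B / (j.factorial : ℝ) := by
  rw [norm_mul, norm_mul]
  have hvol : (volume.restrict (box j)).real univ = (2 * π) ^ j := by
    have h1 : volume (box j) = ENNReal.ofReal (∏ _i : Fin j, (π - (-π))) := by
      unfold box
      rw [Real.volume_Icc_pi, ENNReal.ofReal_prod_of_nonneg]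
      intro i _
      linarith [Real.pi_pos]
    rw [Measure.real, Measure.restrict_apply_univ, h1, ENNReal.toReal_ofReal]
    · rw [Finset.prod_const, Finset.card_univ, Fintype.card_fin]
      congr 1
      ring
    · apply Finset.prod_nonneg
      intro i _
      linarith [Real.pi_pos]
  have hint : ‖∫ t in box j, G t‖ ≤ B * (2 * π) ^ j := by
    have hfin : IsFiniteMeasure (volume.restrict (box j)) :=
      ⟨by rw [Measure.restrict_apply_univ]; exact (cb_box_compact j).measure_lt_top⟩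
    have := norm_integral_le_of_norm_le_const (μ := volume.restrict (box j))
      (f := G) (Eventually.of_forall hG)
    rw [hvol] at this
    exact this
  have hn1 : ‖(1 / (j.factorial : ℂ))‖ = 1 / (j.factorial : ℝ) := by
    rw [norm_div, norm_one, Complex.norm_natCast]
  have hn2 : ‖((1 : ℂ) / (2 * π)) ^ j‖ = 1 / (2 * π) ^ j := by
    rw [norm_pow, norm_div, norm_one, norm_mul, Complex.norm_real, Real.norm_of_nonneg Real.pi_pos.le]
    have : ‖(2 : ℂ)‖ = 2 := by norm_num
    rw [this, div_pow, one_pow]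
  rw [hn1, hn2]
  have hpi : (0 : ℝ) < (2 * π) ^ j := by positivity
  calc _ ≤ 1 / (j.factorial : ℝ) * (1 / (2 * π) ^ j) * (B * (2 * π) ^ j) :=
        mul_le_mul_of_nonneg_left hint (by positivity)
    _ = _ := by field_simp

/-! ### analyticity of the integrand, shift of the contour -/

theorem ff_isOpen (j : ℕ) (c : ℂ) : IsOpen (ffU j c) := by
  have : ffU j c = ⋂ m : Fin j, (fun z : Fin j → ℂ => c - Complex.cos (z m)) ⁻¹' Segᶜ := by
    ext p; simp [ffU]
  rw [this]
  refine isOpen_iInter_of_finite fun m => isClosed_Seg.isOpen_compl.preimage ?_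
  fun_prop

theorem ff_an_coord {j : ℕ} (i : Fin j) (z : Fin j → ℂ) :
    AnalyticAt ℂ (fun z : Fin j → ℂ => z i) z :=
  (ContinuousLinearMap.proj (R := ℂ) (φ := fun _ : Fin j => ℂ) i).analyticAt z

theorem ff_an_W {j : ℕ} (i : Fin j) {c : ℂ} {z : Fin j → ℂ} (hz : z ∈ ffU j c) :
    AnalyticAt ℂ (fun z : Fin j → ℂ => W (c - Complex.cos (z i))) z := by
  have h1 : AnalyticAt ℂ (fun z : Fin j → ℂ => c - Complex.cos (z i)) z := by
    refine AnalyticAt.sub analyticAt_const ?_
    have h2 : AnalyticAt ℂ Complex.cos (z i) := Complex.analyticAt_cos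
    exact AnalyticAt.fun_comp h2 (ff_an_coord i z)
  exact AnalyticAt.fun_comp (W_analytic _ (hz i)) h1

theorem ff_an_exp {j : ℕ} (i : Fin j) (z : Fin j → ℂ) :
    AnalyticAt ℂ (fun z : Fin j → ℂ => Complex.exp (I * z i)) z := by
  refine AnalyticAt.fun_comp (g := Complex.exp) (f := fun z : Fin j → ℂ => I * z i)
    analyticAt_cexp ?_
  exact analyticAt_const.mul (ff_an_coord i z)

theorem ff_analytic (j : ℕ) (M : ℤ) (N : ℕ) (c : ℂ) :
    AnalyticOnNhd ℂ (ffI j M N c) (ffU j c) := by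
  intro z hz
  have hlt : ∀ i, ‖W (c - Complex.cos (z i))‖ < 1 := fun i => norm_W_lt_one (hz i)
  unfold ffI IsingNB.ker prodw pairs HH
  refine AnalyticAt.mul (AnalyticAt.mul (AnalyticAt.mul ?_ ?_) ?_) (AnalyticAt.pow ?_ N)
  · refine Finset.analyticAt_fun_prod _ fun i _ => ?_
    refine AnalyticAt.div (analyticAt_const.mul (ff_an_W i hz))
      (analyticAt_const.sub ((ff_an_W i hz).pow 2)) ?_
    rw [pow_two]
    exact cb_den (hlt i) (hlt i)
  · refine Finset.analyticAt_fun_prod _ fun i _ => Finset.analyticAt_fun_prod _ fun k _ => ?_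
    refine AnalyticAt.div ?_ ?_ ?_
    · refine AnalyticAt.neg (AnalyticAt.mul (AnalyticAt.pow ?_ 2) ?_)
      · exact (ff_an_exp i z).sub (ff_an_exp k z)
      · exact (ff_an_W i hz).mul (ff_an_W k hz)
    · refine AnalyticAt.mul ?_ (AnalyticAt.pow ?_ 2)
      · exact (ff_an_exp i z).mul (ff_an_exp k z)
      · exact analyticAt_const.sub ((ff_an_W i hz).mul (ff_an_W k hz))
    · refine mul_ne_zero (mul_ne_zero (Complex.exp_ne_zero _) (Complex.exp_ne_zero _)) ?_
      exact pow_ne_zero 2 (cb_den (hlt i) (hlt k))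
  · refine AnalyticAt.fun_comp (g := Complex.exp)
      (f := fun z : Fin j → ℂ => I * M * ∑ i, z i) analyticAt_cexp ?_
    refine analyticAt_const.mul ?_
    exact Finset.analyticAt_fun_sum _ fun i _ => ff_an_coord i z
  · exact Finset.analyticAt_fun_prod _ fun i _ => ff_an_W i hz

theorem ff_per (j : ℕ) (M : ℤ) (N : ℕ) (c : ℂ) (z : Fin j → ℂ) (i : Fin j) :
    ffI j M N c (z + Pi.single i (2 * π : ℂ)) = ffI j M N c z := by
  have h1 : ∀ m, Complex.cos ((z + Pi.single i (2 * π : ℂ) : Fin j → ℂ) m) = Complex.cos (z m) := by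
    intro m
    by_cases hm : m = i
    · subst hm; simp [Complex.cos_add_two_pi]
    · simp [Pi.single_eq_of_ne hm]
  have h2 : ∀ m, Complex.exp (I * (z + Pi.single i (2 * π : ℂ) : Fin j → ℂ) m) =
      Complex.exp (I * z m) := by
    intro m
    by_cases hm : m = i
    · subst hm
      have : I * ((z + Pi.single m (2 * π : ℂ) : Fin j → ℂ) m) = I * z m + 2 * π * I := by
        simp; ring
      rw [this, Complex.exp_add, Complex.exp_two_pi_mul_I, mul_one]
    · simp [Pi.single_eq_of_ne hm]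
  have h3 : Complex.exp (I * M * ∑ m, (z + Pi.single i (2 * π : ℂ) : Fin j → ℂ) m) =
      Complex.exp (I * M * ∑ m, z m) := by
    have : I * M * ∑ m, (z + Pi.single i (2 * π : ℂ) : Fin j → ℂ) m =
        I * M * ∑ m, z m + M * (2 * π * I) := by
      simp only [Pi.add_apply, Finset.sum_add_distrib, Finset.sum_pi_single', Finset.mem_univ,
        if_true]
      ring
    rw [this, Complex.exp_add, Complex.exp_int_mul_two_pi_mul_I, mul_one]
  unfold ffI IsingNB.ker prodw
  simp only [h1, h2, h3]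

/-- the real part of `c - cos (t + i y)` -/
theorem ff_re (c t y : ℝ) :
    ((c : ℂ) - Complex.cos ((t : ℂ) + I * (y : ℂ))).re = c - Real.cos t * Real.cosh y := by
  have h : (t : ℂ) + I * (y : ℂ) = (t : ℂ) + (y : ℂ) * I := by ring
  rw [h, Complex.cos_add_mul_I, ← Complex.ofReal_cos, ← Complex.ofReal_cosh, ← Complex.ofReal_sin,
    ← Complex.ofReal_sinh]
  simp only [Complex.sub_re, Complex.ofReal_re, Complex.mul_re, Complex.ofReal_im, Complex.I_re,
    Complex.I_im, mul_zero, sub_zero, mul_one, Complex.mul_im, zero_mul, add_zero]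

theorem ff_re_ge {c c1 t y η : ℝ} (hc : c1 ≤ c) (hη : Real.cosh η ≤ c1 / 2) (hy : |y| ≤ |η|) :
    c1 / 2 ≤ ((c : ℂ) - Complex.cos ((t : ℂ) + I * (y : ℂ))).re := by
  rw [ff_re]
  have h1 : Real.cosh y ≤ Real.cosh η := Real.cosh_le_cosh.2 hy
  have h2 : Real.cos t * Real.cosh y ≤ Real.cosh y := by
    have := Real.cos_le_one t
    have := Real.cosh_pos y
    nlinarith
  linarith

/-- shift of the contour -/
theorem ff_shift {c1 η : ℝ} (h : 2 < c1) (hη : Real.cosh η ≤ c1 / 2) (j : ℕ) (M : ℤ) (N : ℕ)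
    {c : ℝ} (hc : c1 ≤ c) :
    ∫ t in box j, ffI j M N c (cv t) =
      ∫ t in box j, ffI j M N c (fun i => (t i : ℂ) + I * (η : ℂ)) := by
  have key := deform (ffU j c) (ff_isOpen j c) (ffI j M N c) (ff_analytic j M N c)
    (fun z _ i _ => ff_per j M N c z i) (fun _ => fun _ => I * (η : ℂ)) (fun _ => 0)
    (fun t => hasFDerivAt_const _ _) continuous_const (fun _ _ => rfl) ?_
  · rw [← key]
    congr 1
    funext t
    have h1 : (Matrix.of fun i k : Fin j =>
        ((0 : (Fin j → ℝ) →L[ℝ] (Fin j → ℂ)) (Pi.single k 1) i)) = 0 := by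
      ext i k; simp
    rw [h1, add_zero, Matrix.det_one, mul_one]
    rfl
  · intro s hs t m
    have h1 : ((cv t + (s : ℂ) • (fun _ : Fin j => I * (η : ℂ)) : Fin j → ℂ) m) =
        (t m : ℂ) + I * ((s * η : ℝ) : ℂ) := by
      simp only [cv, Pi.add_apply, Pi.smul_apply, smul_eq_mul]
      push_cast
      ring
    rw [h1]
    refine ff_notMem_Seg (lt_of_lt_of_le (by linarith) (ff_re_ge (c1 := c1) hc hη ?_))
    rw [abs_mul, abs_of_nonneg hs.1]
    exact mul_le_of_le_one_left (abs_nonneg _) hs.2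

theorem FF_bound {c1 : ℝ} (h : 2 < c1) :
    ∃ A q : ℝ, 1 ≤ A ∧ 0 < q ∧ q < 1 ∧ ∀ (j : ℕ) (M : ℤ) (N : ℕ) (c : ℝ), 1 ≤ j → c1 ≤ c →
      ‖FF j M N c‖ ≤ bd A j * q ^ (M.natAbs + N) := by
  -- choice of the shift
  obtain ⟨η, hη0, hη⟩ : ∃ η : ℝ, 0 < η ∧ Real.cosh η ≤ c1 / 2 := by
    have h1 : Tendsto Real.cosh (𝓝 0) (𝓝 1) := by
      have := Real.continuous_cosh.tendsto 0
      rwa [Real.cosh_zero] at this
    have h2 : ∀ᶠ x in 𝓝 (0 : ℝ), Real.cosh x < c1 / 2 := h1.eventually_lt_const (by linarith)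
    obtain ⟨ε, hε, hball⟩ := Metric.eventually_nhds_iff.1 h2
    refine ⟨ε / 2, by positivity, (hball ?_).le⟩
    rw [Real.dist_eq, sub_zero, abs_of_pos (by positivity)]
    linarith
  set q0 : ℝ := 1 / (c1 - 1) with hq0
  have hq0p : 0 < q0 := by rw [hq0]; exact div_pos one_pos (by linarith)
  have hq01 : q0 < 1 := by
    rw [hq0, div_lt_one (by linarith)]
    linarith
  set e1 : ℝ := Real.exp (-η) with he1
  have he1p : 0 < e1 := Real.exp_pos _
  have he11 : e1 < 1 := by rw [he1, Real.exp_lt_one_iff]; linarith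
  obtain ⟨A, hA, hker⟩ := ff_ker_le (Real.exp η) q0 (Real.one_le_exp hη0.le) hq0p hq01
  refine ⟨A, max e1 q0, hA, lt_max_of_lt_left he1p, max_lt he11 hq01, ?_⟩
  intro j M N c hj hc
  set σ : ℝ := if 0 ≤ M then 1 else -1 with hσ
  have hσabs : |σ| = 1 := by rw [hσ]; split_ifs <;> simp
  have hσM : (M : ℝ) * σ = (M.natAbs : ℝ) := by
    rw [hσ]
    have h1 : ((M.natAbs : ℤ) : ℝ) = (M.natAbs : ℝ) := Int.cast_natCast _
    rw [← h1, Int.natCast_natAbs]
    split_ifs with h2
    · rw [abs_of_nonneg h2, mul_one]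
    · rw [abs_of_neg (not_le.1 h2)]; push_cast; ring
  have hcosh : Real.cosh (σ * η) ≤ c1 / 2 := by
    rw [← Real.cosh_abs, abs_mul, hσabs, one_mul, Real.cosh_abs]
    exact hη
  rw [FF_eq_ffI, ff_shift h hcosh j M N hc]
  have hb : ∀ t : Fin j → ℝ, ‖ffI j M N c (fun i => (t i : ℂ) + I * ((σ * η : ℝ) : ℂ))‖ ≤
      A ^ j * Real.sqrt ((j : ℝ) ^ j) * (max e1 q0) ^ (M.natAbs + N) := by
    intro t
    have hre : ∀ i, c1 / 2 ≤ ((c : ℂ) - Complex.cos ((t i : ℂ) + I * ((σ * η : ℝ) : ℂ))).re :=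
      fun i => ff_re_ge hc hcosh le_rfl
    have hw : ∀ i, ‖W ((c : ℂ) - Complex.cos ((t i : ℂ) + I * ((σ * η : ℝ) : ℂ)))‖ ≤ q0 := by
      intro i
      refine (ff_norm_W_re (lt_of_lt_of_le (by linarith) (hre i))).trans ?_
      rw [hq0]
      exact one_div_le_one_div_of_le (by linarith) (by linarith [hre i])
    have hx : ∀ i, ‖Complex.exp (I * ((t i : ℂ) + I * ((σ * η : ℝ) : ℂ)))‖ = Real.exp (-(σ * η)) := by
      intro i
      have h0 : I * ((t i : ℂ) + I * ((σ * η : ℝ) : ℂ)) =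
          ((-(σ * η) : ℝ) : ℂ) + (t i : ℂ) * I := by
        push_cast
        linear_combination ((σ : ℂ) * η) * I_mul_I
      rw [h0, Complex.exp_add, norm_mul, Complex.norm_exp_ofReal_mul_I, mul_one,
        ← Complex.ofReal_exp, Complex.norm_real, Real.norm_of_nonneg (Real.exp_pos _).le]
    have hsη : |σ * η| = η := by rw [abs_mul, hσabs, one_mul, abs_of_pos hη0]
    have hle1 : -(σ * η) ≤ η := by
      have := neg_abs_le (σ * η)
      rw [hsη] at this
      linarith
    have hle2 : σ * η ≤ η := by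
      have := le_abs_self (σ * η)
      rw [hsη] at this
      exact this
    have hk := hker j c (fun i => (t i : ℂ) + I * ((σ * η : ℝ) : ℂ)) q0 le_rfl hw
      (fun i => by rw [hx i]; exact Real.exp_le_exp.2 hle1)
      (fun i => by rw [hx i, ← Real.exp_neg, neg_neg]; exact Real.exp_le_exp.2 hle2)
    have hk2 : ‖IsingNB.ker W c (fun i => (t i : ℂ) + I * ((σ * η : ℝ) : ℂ))‖ ≤
        A ^ j * Real.sqrt ((j : ℝ) ^ j) := by
      refine hk.trans (mul_le_mul_of_nonneg_right ?_ (Real.sqrt_nonneg _))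
      exact pow_le_pow_left₀ (by positivity) (by nlinarith) j
    have he : ‖Complex.exp (I * M * ∑ i : Fin j, ((t i : ℂ) + I * ((σ * η : ℝ) : ℂ)))‖ ≤
        (max e1 q0) ^ M.natAbs := by
      have h1 : (I * M * ∑ i : Fin j, ((t i : ℂ) + I * ((σ * η : ℝ) : ℂ))) =
          I * ((M * ∑ i, t i : ℝ) : ℂ) + ((-(M.natAbs * (j * η)) : ℝ) : ℂ) := by
        rw [← hσM]
        rw [Finset.sum_add_distrib, Finset.sum_const, Finset.card_univ, Fintype.card_fin]
        push_cast
        rw [nsmul_eq_mul]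
        linear_combination ((M : ℂ) * j * σ * η) * I_mul_I
      rw [h1, Complex.exp_add, norm_mul, mul_comm I, Complex.norm_exp_ofReal_mul_I, one_mul,
        ← Complex.ofReal_exp, Complex.norm_real, Real.norm_of_nonneg (Real.exp_pos _).le]
      have h2 : Real.exp (-(M.natAbs * (j * η))) ≤ Real.exp (M.natAbs * (-η)) := by
        apply Real.exp_le_exp.2
        have h3 : (1 : ℝ) ≤ j := by exact_mod_cast hj
        have h4 : (0 : ℝ) ≤ M.natAbs := Nat.cast_nonneg _
        nlinarith [mul_nonneg h4 (mul_nonneg (sub_nonneg.2 h3) hη0.le)]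
      refine h2.trans ?_
      rw [Real.exp_nat_mul]
      exact pow_le_pow_left₀ (Real.exp_pos _).le (le_max_left _ _) _
    have hp : ‖prodw W c (fun i => (t i : ℂ) + I * ((σ * η : ℝ) : ℂ)) ^ N‖ ≤ (max e1 q0) ^ N := by
      rw [norm_pow]
      refine pow_le_pow_left₀ (norm_nonneg _) ?_ N
      refine le_trans ?_ (le_max_right _ _)
      unfold prodw
      rw [norm_prod]
      calc _ ≤ ∏ _i : Fin j, q0 :=
            Finset.prod_le_prod (fun i _ => norm_nonneg _) fun i _ => hw i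
        _ = q0 ^ j := by simp
        _ ≤ q0 ^ 1 := pow_le_pow_of_le_one hq0p.le hq01.le hj
        _ = q0 := pow_one _
    unfold ffI
    rw [norm_mul, norm_mul, pow_add, ← mul_assoc]
    exact mul_le_mul (mul_le_mul hk2 he (norm_nonneg _) (by positivity)) hp (norm_nonneg _)
      (by positivity)
  refine (ff_int_le hb).trans (le_of_eq ?_)
  unfold bd
  ring

theorem ff_mem {c : ℝ} (hc : 2 < c) : (c : ℂ) ∈ cbU := Or.inr (Or.inl (by simpa using hc))

theorem FF_tendsto (j : ℕ) (hj : 1 ≤ j) (M : ℤ) (N : ℕ) :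
    Tendsto (fun c : ℝ => FF j M N c) atTop (𝓝 0) := by
  obtain ⟨A, hA, hker⟩ := ff_ker_le 1 (1 / 3) le_rfl (by norm_num) (by norm_num)
  have hlim : Tendsto (fun c : ℝ => (A * (1 / (2 * c - 3))) ^ j * Real.sqrt ((j : ℝ) ^ j) /
      (j.factorial : ℝ)) atTop (𝓝 0) := by
    have h1 : Tendsto (fun c : ℝ => 2 * c - 3) atTop atTop :=
      tendsto_atTop_add_const_right _ _ (tendsto_id.const_mul_atTop two_pos)
    have h2 : Tendsto (fun c : ℝ => A * (1 / (2 * c - 3))) atTop (𝓝 (A * 0)) := by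
      refine Tendsto.const_mul _ ?_
      simp_rw [one_div]
      exact tendsto_inv_atTop_zero.comp h1
    have h3 := ((h2.pow j).mul_const (Real.sqrt ((j : ℝ) ^ j))).div_const (j.factorial : ℝ)
    simpa [zero_pow (by omega : j ≠ 0)] using h3
  refine squeeze_zero_norm' ?_ hlim
  filter_upwards [eventually_ge_atTop (3 : ℝ)] with c hc
  rw [FF_eq_ffI]
  refine ff_int_le ?_
  intro t
  have hre : ∀ i, c - 1 ≤ ((c : ℂ) - Complex.cos (cv t i)).re := by
    intro i
    unfold cv
    rw [← Complex.ofReal_cos, Complex.sub_re, Complex.ofReal_re, Complex.ofReal_re]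
    linarith [Real.cos_le_one (t i)]
  have hw : ∀ i, ‖W ((c : ℂ) - Complex.cos (cv t i))‖ ≤ 1 / (2 * c - 3) := by
    intro i
    refine (ff_norm_W_re (lt_of_lt_of_le (by linarith) (hre i))).trans ?_
    exact one_div_le_one_div_of_le (by linarith) (by linarith [hre i])
  have hx : ∀ i, ‖Complex.exp (I * cv t i)‖ = 1 := by
    intro i
    unfold cv
    rw [mul_comm, Complex.norm_exp_ofReal_mul_I]
  have hk := hker j c (cv t) (1 / (2 * c - 3))
    (one_div_le_one_div_of_le (by norm_num) (by linarith)) hw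
    (fun i => (hx i).le) (fun i => by rw [hx i, inv_one])
  have he : ‖Complex.exp (I * M * ∑ i : Fin j, cv t i)‖ = 1 := by
    have h1 : (I * M * ∑ i : Fin j, cv t i) = ((M * ∑ i, t i : ℝ) : ℂ) * I := by
      unfold cv
      push_cast
      ring
    rw [h1, Complex.norm_exp_ofReal_mul_I]
  have hp : ‖prodw W c (cv t) ^ N‖ ≤ 1 := by
    rw [norm_pow]
    refine pow_le_one₀ (norm_nonneg _) ?_
    unfold prodw
    rw [norm_prod]
    exact Finset.prod_le_one (fun i _ => norm_nonneg _) fun i _ => norm_W_le_one _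
  unfold ffI
  rw [norm_mul, norm_mul, he, mul_one]
  calc _ ≤ (A * (1 / (2 * c - 3))) ^ j * Real.sqrt ((j : ℝ) ^ j) * 1 :=
        mul_le_mul hk hp (norm_nonneg _) (by
          have : 0 ≤ A * (1 / (2 * c - 3)) :=
            mul_nonneg (by linarith) (div_nonneg zero_le_one (by linarith))
          positivity)
    _ = _ := mul_one _

/-! ### reality -/

theorem ff_neg_box {d : ℕ} (F : (Fin d → ℝ) → ℂ) :
    ∫ t in box d, F (-t) = ∫ t in box d, F t := by
  have hb : MeasurableSet (box d) := measurableSet_Icc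
  rw [← integral_indicator hb, ← integral_indicator hb]
  rw [← integral_neg_eq_self (fun t => (box d).indicator F t)]
  congr 1
  ext t
  have hmem : -t ∈ box d ↔ t ∈ box d := by
    simp only [box, Set.mem_Icc, Pi.le_def, Pi.neg_apply]
    constructor
    · rintro ⟨h1, h2⟩
      exact ⟨fun i => by linarith [h2 i], fun i => by linarith [h1 i]⟩
    · rintro ⟨h1, h2⟩
      exact ⟨fun i => by linarith [h2 i], fun i => by linarith [h1 i]⟩
  by_cases ht : t ∈ box d
  · rw [Set.indicator_of_mem ht, Set.indicator_of_mem (hmem.2 ht)]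
  · rw [Set.indicator_of_notMem ht, Set.indicator_of_notMem (fun h => ht (hmem.1 h))]

theorem ff_conj {j : ℕ} (M : ℤ) (N : ℕ) {c : ℝ} (hc : 2 < c) (t : Fin j → ℝ) :
    ffI j M N c (cv (-t)) = starRingEnd ℂ (ffI j M N c (cv t)) := by
  have hx : ∀ i, Complex.exp (I * cv (-t) i) = starRingEnd ℂ (Complex.exp (I * cv t i)) := by
    intro i
    rw [← Complex.exp_conj]
    simp [cv]
  have hW : ∀ i, W ((c : ℂ) - Complex.cos (cv (-t) i)) =
      starRingEnd ℂ (W ((c : ℂ) - Complex.cos (cv t i))) := by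
    intro i
    have h1 := W_conj (sub_cos_notMem_Seg (ff_mem hc) (t i))
    rw [map_sub, Complex.conj_ofReal, ← Complex.cos_conj, Complex.conj_ofReal] at h1
    rw [show cv t i = (t i : ℂ) from rfl, ← h1]
    simp [cv]
  have he : Complex.exp (I * M * ∑ i : Fin j, cv (-t) i) =
      starRingEnd ℂ (Complex.exp (I * M * ∑ i : Fin j, cv t i)) := by
    rw [← Complex.exp_conj]
    simp [cv]
  unfold ffI IsingNB.ker prodw pairs HH
  simp only [hW, hx, he, map_mul, map_prod, map_div₀, map_sub, map_one, map_pow, map_neg,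
    map_ofNat]

theorem FF_real {c : ℝ} (hc : 2 < c) (j : ℕ) (M : ℤ) (N : ℕ) :
    ∃ r : ℝ, FF j M N c = (r : ℂ) := by
  have h1 : starRingEnd ℂ (FF j M N c) = FF j M N c := by
    rw [FF_eq_ffI, map_mul, ← integral_conj]
    simp_rw [← ff_conj M N hc]
    rw [ff_neg_box (fun t => ffI j M N c (cv t))]
    congr 1
    rw [map_mul, map_div₀, map_one, map_pow, map_div₀, map_one, map_mul, map_ofNat, conj_ofReal,
      map_natCast]
  exact ⟨(FF j M N c).re, (Complex.conj_eq_iff_re.1 h1).symm⟩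

/-! ### continuity -/

theorem ff_jcont (j : ℕ) (M : ℤ) (N : ℕ) :
    ContinuousOn (fun p : ℂ × (Fin j → ℝ) => ffI j M N p.1 (cv p.2)) (cbU ×ˢ box j) := by
  have hT : ∀ i : Fin j, Continuous fun p : ℂ × (Fin j → ℝ) => ((p.2 i : ℝ) : ℂ) := by
    intro i; fun_prop
  have hW : ∀ i : Fin j, ContinuousOn (fun p : ℂ × (Fin j → ℝ) => W (p.1 - Complex.cos (p.2 i : ℂ)))
      (cbU ×ˢ box j) := by
    intro i
    refine cb_continuousOn_W.comp (t := Segᶜ) (continuousOn_fst.sub ?_)
      (fun x hx => sub_cos_notMem_Seg hx.1 _)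
    exact (Complex.continuous_cos.comp (hT i)).continuousOn
  have hE : ∀ i : Fin j, ContinuousOn (fun p : ℂ × (Fin j → ℝ) => Complex.exp (I * (p.2 i : ℂ)))
      (cbU ×ˢ box j) := by
    intro i
    exact (Complex.continuous_exp.comp (continuous_const.mul (hT i))).continuousOn
  have hlt : ∀ x ∈ cbU ×ˢ box j, ∀ i, ‖W (x.1 - Complex.cos (x.2 i : ℂ))‖ < 1 := fun x hx i =>
    norm_W_lt_one (sub_cos_notMem_Seg hx.1 _)
  have hP : ContinuousOn (fun x : ℂ × (Fin j → ℝ) => prodw W x.1 (cv x.2)) (cbU ×ˢ box j) := by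
    unfold prodw cv
    exact continuousOn_finsetProd _ fun i _ => hW i
  have hM : ContinuousOn (fun x : ℂ × (Fin j → ℝ) => Complex.exp (I * M * ∑ i, cv x.2 i))
      (cbU ×ˢ box j) := by
    unfold cv
    refine (Complex.continuous_exp.comp (continuous_const.mul ?_)).continuousOn
    exact continuous_finsetSum _ fun i _ => hT i
  unfold ffI
  refine ContinuousOn.mul (ContinuousOn.mul ?_ hM) (hP.pow N)
  unfold IsingNB.ker pairs HH cv
  refine ContinuousOn.mul (continuousOn_finsetProd _ fun i _ => ?_)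
    (continuousOn_finsetProd _ fun i _ => continuousOn_finsetProd _ fun k _ => ?_)
  · refine (continuousOn_const.mul (hW i)).div (continuousOn_const.sub ((hW i).pow 2)) fun x hx => ?_
    rw [pow_two]
    exact cb_den (hlt x hx i) (hlt x hx i)
  · refine ContinuousOn.div (((((hE i).sub (hE k)).pow 2).mul ((hW i).mul (hW k))).neg)
      (((hE i).mul (hE k)).mul ((continuousOn_const.sub ((hW i).mul (hW k))).pow 2)) fun x hx => ?_
    exact mul_ne_zero (mul_ne_zero (Complex.exp_ne_zero _) (Complex.exp_ne_zero _))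
      (pow_ne_zero _ (cb_den (hlt x hx i) (hlt x hx k)))

theorem ff_cdiff (j : ℕ) (M : ℤ) (N : ℕ) (T : Fin j → ℝ) :
    DifferentiableOn ℂ (fun c => ffI j M N c (cv T)) cbU := by
  have hW : ∀ i, DifferentiableOn ℂ (fun c => W (c - Complex.cos (T i : ℂ))) cbU := by
    intro i
    refine (W_analytic.differentiableOn).comp (t := Segᶜ) ?_
      (fun x hx => sub_cos_notMem_Seg hx _)
    exact differentiableOn_id.sub_const _
  have hlt : ∀ x ∈ cbU, ∀ i, ‖W (x - Complex.cos (T i : ℂ))‖ < 1 := fun x hx i =>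
    norm_W_lt_one (sub_cos_notMem_Seg hx _)
  have hP : DifferentiableOn ℂ (fun x => prodw W x (cv T)) cbU := by
    unfold prodw cv
    exact DifferentiableOn.fun_finsetProd fun i _ => hW i
  unfold ffI
  refine DifferentiableOn.mul (DifferentiableOn.mul ?_ (differentiableOn_const _)) (hP.pow N)
  unfold IsingNB.ker pairs HH cv
  refine DifferentiableOn.mul (DifferentiableOn.fun_finsetProd fun i _ => ?_)
    (DifferentiableOn.fun_finsetProd fun i _ => DifferentiableOn.fun_finsetProd fun k _ => ?_)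
  · refine ((differentiableOn_const _).mul (hW i)).div
      ((differentiableOn_const _).sub ((hW i).pow 2)) fun x hx => ?_
    rw [pow_two]
    exact cb_den (hlt x hx i) (hlt x hx i)
  · refine DifferentiableOn.div (((differentiableOn_const _).mul ((hW i).mul (hW k))).neg)
      ((differentiableOn_const _).mul (((differentiableOn_const _).sub
        ((hW i).mul (hW k))).pow 2)) fun x hx => ?_
    exact mul_ne_zero (mul_ne_zero (Complex.exp_ne_zero _) (Complex.exp_ne_zero _))
      (pow_ne_zero _ (cb_den (hlt x hx i) (hlt x hx k)))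

theorem FF_diff (j : ℕ) (M : ℤ) (N : ℕ) : DifferentiableOn ℂ (FF j M N) cbU := by
  have h : FF j M N = fun c => (1 / (j.factorial : ℂ)) * (1 / (2 * π)) ^ j *
      ∫ t in box j, ffI j M N c (cv t) := by
    funext c; exact FF_eq_ffI j M N c
  rw [h]
  exact DifferentiableOn.const_mul
    (cb_diff_integral cbU_open (cb_box_compact j) (ff_jcont j M N) fun t _ => ff_cdiff j M N t) _

theorem FF_cont (j : ℕ) (M : ℤ) (N : ℕ) :
    ContinuousOn (fun c : ℝ => FF j M N c) (Ioi 2) :=
  (FF_diff j M N).continuousOn.comp Complex.continuous_ofReal.continuousOn fun c hc => ff_mem hc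

end

end IsingS2
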