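import Pool.Agent.Helper98.IS.FFBound
import Pool.Agent.Helper98.NB.Fourier
import Pool.Agent.Helper98.NB.PairBound

/-!
# IS-42: sums over the lattice of the terms of the two point function

The Fourier argument of `NB/Fourier.lean`, for real `c > 2`, and the interchange of the sums over the
number of particles and over the lattice.
-/

namespace IsingS2

open Complex Set MeasureTheory Filter Topology IsingNB
open scoped Real Matrix

noncomputable section

private theorem fs_cont_W {c : ℂ} (hc : c.im ≠ 0 ∨ 2 < c.re ∨ c.re < -2) : Continuous fun t : ℝ => W (c - Complex.cos t) := by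
  refine W_analytic.continuousOn.comp_continuous ?_ fun t => sub_cos_notMem_Seg hc t
  exact continuous_const.sub (Complex.continuous_cos.comp Complex.continuous_ofReal)

private theorem fs_norm_W {c : ℂ} (hc : c.im ≠ 0 ∨ 2 < c.re ∨ c.re < -2) (t : ℝ) : ‖W (c - Complex.cos t)‖ < 1 :=
  norm_W_lt_one (sub_cos_notMem_Seg hc t)

private theorem fs_cont_prodw {c : ℂ} (hc : c.im ≠ 0 ∨ 2 < c.re ∨ c.re < -2) (j : ℕ) :
    Continuous fun v : Fin j → ℝ => prodw W c (cv v) := by
  unfold prodw cv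
  exact continuous_finsetProd _ fun i _ => (fs_cont_W hc).comp (continuous_apply i)

private theorem fs_norm_prodw {c : ℂ} (hc : c.im ≠ 0 ∨ 2 < c.re ∨ c.re < -2) {d : ℕ} (v : Fin (d + 1) → ℝ) :
    ‖prodw W c (cv v)‖ < 1 := by
  unfold prodw cv
  rw [Fin.prod_univ_succ, norm_mul, norm_prod]
  have h1 : ∏ i : Fin d, ‖W (c - Complex.cos ((v i.succ : ℝ) : ℂ))‖ ≤ 1 :=
    Finset.prod_le_one (fun _ _ => norm_nonneg _) fun i _ => (fs_norm_W hc _).le
  have h2 := fs_norm_W hc (v 0)
  calc _ ≤ ‖W (c - Complex.cos ((v 0 : ℝ) : ℂ))‖ * 1 :=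
        mul_le_mul_of_nonneg_left h1 (norm_nonneg _)
    _ < 1 := by rw [mul_one]; exact h2

private theorem fs_cont_ker {c : ℂ} (hc : c.im ≠ 0 ∨ 2 < c.re ∨ c.re < -2) (j : ℕ) :
    Continuous fun v : Fin j → ℝ => ker W c (cv v) := by
  have hW : ∀ i : Fin j, Continuous fun v : Fin j → ℝ => W (c - Complex.cos (cv v i)) :=
    fun i => (fs_cont_W hc).comp (continuous_apply i)
  have hX : ∀ i : Fin j, Continuous fun v : Fin j → ℝ => Complex.exp (I * cv v i) := fun i =>
    Complex.continuous_exp.comp (continuous_const.mul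
      (Complex.continuous_ofReal.comp (continuous_apply i)))
  have hn : ∀ (v : Fin j → ℝ) (i k : Fin j),
      1 - W (c - Complex.cos (cv v i)) * W (c - Complex.cos (cv v k)) ≠ 0 := by
    intro v i k
    refine four_one_sub_ne ?_
    rw [norm_mul]
    have h1 : ‖W (c - Complex.cos (cv v i))‖ < 1 := fs_norm_W hc (v i)
    have h2 : ‖W (c - Complex.cos (cv v k))‖ < 1 := fs_norm_W hc (v k)
    nlinarith [norm_nonneg (W (c - Complex.cos (cv v i))),
      norm_nonneg (W (c - Complex.cos (cv v k)))]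
  unfold IsingNB.ker pairs HH
  refine Continuous.mul ?_ ?_
  · refine continuous_finsetProd _ fun i _ => ?_
    refine ((continuous_const.mul (hW i))).div (continuous_const.sub ((hW i).pow 2)) fun v => ?_
    have := hn v i i
    rwa [← sq] at this
  · refine continuous_finsetProd _ fun i _ => continuous_finsetProd _ fun k _ => ?_
    refine Continuous.div ?_ ?_ fun v => ?_
    · exact ((((hX i).sub (hX k)).pow 2).mul ((hW i).mul (hW k))).neg
    · exact ((hX i).mul (hX k)).mul ((continuous_const.sub ((hW i).mul (hW k))).pow 2)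
    · exact mul_ne_zero (mul_ne_zero (Complex.exp_ne_zero _) (Complex.exp_ne_zero _))
        (pow_ne_zero 2 (hn v i k))

private theorem fs_cont_Phi {c : ℂ} (hc : c.im ≠ 0 ∨ 2 < c.re ∨ c.re < -2) (d : ℕ) (ϑ : ℝ) : Continuous (four_Phi d ϑ c) := by
  unfold four_Phi
  have hP := fs_cont_prodw hc (d + 1)
  refine (fs_cont_ker hc (d + 1)).mul (Continuous.div (continuous_const.add
    (continuous_const.mul hP)) (continuous_const.sub (continuous_const.mul hP)) fun v => ?_)
  refine four_one_sub_ne ?_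
  rw [norm_mul, four_norm_tau, one_mul]
  exact fs_norm_prodw hc v

private theorem fs_coeff_Phi {c : ℂ} (hc : c.im ≠ 0 ∨ 2 < c.re ∨ c.re < -2) (d : ℕ) {ϑ : ℝ} (hϑ : ϑ = 0 ∨ ϑ = π) (M : ℤ) :
    HasSum (fun N : ℤ => ((d + 1).factorial : ℂ) * (2 * π) ^ (d + 1) *
      (tau ϑ ^ N * FF (d + 1) M N.natAbs c))
      (∫ v in box (d + 1), four_Phi d ϑ c v * Complex.exp (I * M * ∑ i, (v i : ℂ))) := by
  have hP := fs_cont_prodw hc (d + 1)
  have hK := fs_cont_ker hc (d + 1)
  have hE : Continuous fun v : Fin (d + 1) → ℝ => Complex.exp (I * M * ∑ i, (v i : ℂ)) :=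
    Complex.continuous_exp.comp (continuous_const.mul
      (continuous_finsetSum _ fun i _ => Complex.continuous_ofReal.comp (continuous_apply i)))
  have hEn : ∀ v : Fin (d + 1) → ℝ, ‖Complex.exp (I * M * ∑ i, (v i : ℂ))‖ = 1 := by
    intro v
    have : I * (M : ℂ) * ∑ i, (v i : ℂ) = ((M * ∑ i, v i : ℝ) : ℂ) * I := by
      push_cast
      ring
    rw [this]
    exact Complex.norm_exp_ofReal_mul_I _
  have hzn : ∀ v : Fin (d + 1) → ℝ, ‖tau ϑ * prodw W c (cv v)‖ < 1 := by
    intro v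
    rw [norm_mul, four_norm_tau, one_mul]
    exact fs_norm_prodw hc v
  have hint : ∀ N : ℤ, ∫ v in box (d + 1), ker W c (cv v) * Complex.exp (I * M * ∑ i, (v i : ℂ)) *
      (tau ϑ * prodw W c (cv v)) ^ N.natAbs =
      ((d + 1).factorial : ℂ) * (2 * π) ^ (d + 1) * (tau ϑ ^ N * FF (d + 1) M N.natAbs c) := by
    intro N
    have h1 : ∀ v : Fin (d + 1) → ℝ, ker W c (cv v) * Complex.exp (I * M * ∑ i, (v i : ℂ)) *
        (tau ϑ * prodw W c (cv v)) ^ N.natAbs = tau ϑ ^ N * (ker W c (cv v) *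
          Complex.exp (I * M * ∑ i, (v i : ℂ)) * prodw W c (cv v) ^ N.natAbs) := by
      intro v
      rw [mul_pow, four_tau_natAbs hϑ]
      ring
    simp only [h1]
    rw [integral_const_mul]
    unfold FF
    have hpi : (π : ℂ) ≠ 0 := by exact_mod_cast Real.pi_ne_zero
    have hf : ((d + 1).factorial : ℂ) ≠ 0 := by exact_mod_cast Nat.factorial_ne_zero _
    have h2 : ((2 : ℂ) * π) ^ (d + 1) * (1 / (2 * π)) ^ (d + 1) = 1 := by
      rw [← mul_pow, mul_one_div_cancel (mul_ne_zero two_ne_zero hpi), one_pow]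
    set J := ∫ t in box (d + 1), ker W c (cv t) * Complex.exp (I * M * ∑ i, (t i : ℂ)) *
      prodw W c (cv t) ^ N.natAbs with hJ
    calc tau ϑ ^ N * J = tau ϑ ^ N * J * (((2 : ℂ) * π) ^ (d + 1) * (1 / (2 * π)) ^ (d + 1)) *
          (((d + 1).factorial : ℂ) * (1 / ((d + 1).factorial : ℂ))) := by
          rw [h2, mul_one_div_cancel hf]
          ring
      _ = _ := by ring
  simp only [← hint]
  refine hasSum_integral_of_dominated_convergence
    (fun N v => ‖ker W c (cv v)‖ * ‖prodw W c (cv v)‖ ^ N.natAbs) ?_ ?_ ?_ ?_ ?_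
  · intro N
    exact ((hK.mul hE).mul ((continuous_const.mul hP).pow _)).aestronglyMeasurable
  · intro N
    refine Eventually.of_forall fun v => le_of_eq ?_
    rw [norm_mul, norm_mul, hEn, mul_one, norm_pow, norm_mul, four_norm_tau, one_mul]
  · refine Eventually.of_forall fun v => ?_
    exact ((four_geom_real (norm_nonneg _) (fs_norm_prodw hc v)).summable).mul_left _
  · have h1 : (fun v : Fin (d + 1) → ℝ =>
        ∑' N : ℤ, ‖ker W c (cv v)‖ * ‖prodw W c (cv v)‖ ^ N.natAbs) =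
        fun v => ‖ker W c (cv v)‖ * ((1 + ‖prodw W c (cv v)‖) / (1 - ‖prodw W c (cv v)‖)) := by
      funext v
      exact ((four_geom_real (norm_nonneg _) (fs_norm_prodw hc v)).mul_left _).tsum_eq
    rw [h1]
    refine ContinuousOn.integrableOn_compact (four_isCompact_box (d + 1)) ?_
    refine Continuous.continuousOn (hK.norm.mul (Continuous.div (continuous_const.add hP.norm)
      (continuous_const.sub hP.norm) fun v => ?_))
    have := fs_norm_prodw hc v
    linarith
  · refine Eventually.of_forall fun v => ?_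
    have h1 := (four_geom (hzn v)).mul_left
      (ker W c (cv v) * Complex.exp (I * M * ∑ i, (v i : ℂ)))
    have h2 : four_Phi d ϑ c v * Complex.exp (I * M * ∑ i, (v i : ℂ)) =
        ker W c (cv v) * Complex.exp (I * M * ∑ i, (v i : ℂ)) *
          ((1 + tau ϑ * prodw W c (cv v)) / (1 - tau ϑ * prodw W c (cv v))) := by
      unfold four_Phi
      ring
    rw [h2]
    exact h1

private theorem fs_chi_hasSum (d : ℕ) {ϑ : ℝ} (hϑ : ϑ = 0 ∨ ϑ = π) {c : ℂ} (hc : c.im ≠ 0 ∨ 2 < c.re ∨ c.re < -2)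
    (hs : Summable fun p : ℤ × ℤ => ‖FF (d + 1) p.1 p.2.natAbs c‖) :
    HasSum (fun p : ℤ × ℤ => tau ϑ ^ (p.1 + p.2) * FF (d + 1) p.1 p.2.natAbs c) (chi d ϑ c) := by
  have hτ0 := four_tau_ne ϑ
  have hτn : ∀ n : ℤ, ‖tau ϑ ^ n‖ = 1 := by
    intro n
    rw [norm_zpow, four_norm_tau, one_zpow]
  set G : ℤ × ℤ → ℂ := fun p => tau ϑ ^ (p.1 + p.2) * FF (d + 1) p.1 p.2.natAbs c with hG
  have hGs : Summable G := by
    refine Summable.of_norm (hs.congr fun p => ?_)
    rw [hG, norm_mul, hτn, one_mul]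
  set b : ℤ → ℂ := fun M => ∑' N : ℤ, G (M, N) with hb
  have hfib : ∀ M : ℤ, HasSum (fun N : ℤ => G (M, N)) (b M) := fun M =>
    (hGs.prod_factor M).hasSum
  have hbS : HasSum b (∑' p, G p) := hGs.hasSum.prod_fiberwise hfib
  have hpi : (π : ℂ) ≠ 0 := by exact_mod_cast Real.pi_ne_zero
  have hf : ((d + 1).factorial : ℂ) ≠ 0 := by exact_mod_cast Nat.factorial_ne_zero _
  set C : ℂ := ((d + 1).factorial : ℂ) * (2 * π) ^ d with hC
  set a : ℤ → ℂ := fun M => C * (tau ϑ ^ (-M) * b M) with ha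
  have has : Summable a := by
    refine Summable.mul_left C ?_
    refine Summable.of_norm (hbS.summable.norm.congr fun M => ?_)
    rw [norm_mul, hτn, one_mul]
  have hcoef : ∀ M : ℤ, ∫ v in box (d + 1), four_Phi d ϑ c v *
      Complex.exp (I * M * ∑ i, (v i : ℂ)) = 2 * π * a M := by
    intro M
    have h1 := fs_coeff_Phi hc d hϑ M
    have h2 : HasSum (fun N : ℤ => ((d + 1).factorial : ℂ) * (2 * π) ^ (d + 1) *
        (tau ϑ ^ N * FF (d + 1) M N.natAbs c)) (2 * π * a M) := by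
      have h3 := (hfib M).mul_left (2 * π * C * tau ϑ ^ (-M))
      have h4 : 2 * π * a M = 2 * π * C * tau ϑ ^ (-M) * b M := by
        rw [ha]
        ring
      rw [h4]
      have h5 : (fun N : ℤ => ((d + 1).factorial : ℂ) * (2 * π) ^ (d + 1) *
          (tau ϑ ^ N * FF (d + 1) M N.natAbs c)) =
          fun N : ℤ => 2 * π * C * tau ϑ ^ (-M) * G (M, N) := by
        funext N
        have h6 : tau ϑ ^ (M + N) = tau ϑ ^ M * tau ϑ ^ N := zpow_add₀ hτ0 M N
        have h7 : tau ϑ ^ (-M) * tau ϑ ^ M = 1 := by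
          rw [← zpow_add₀ hτ0, neg_add_cancel, zpow_zero]
        have h8 : G (M, N) = tau ϑ ^ (M + N) * FF (d + 1) M N.natAbs c := rfl
        rw [h8, h6, hC]
        calc ((d + 1).factorial : ℂ) * (2 * π) ^ (d + 1) *
              (tau ϑ ^ N * FF (d + 1) M N.natAbs c) =
              ((d + 1).factorial : ℂ) * (2 * π) ^ (d + 1) *
              (tau ϑ ^ N * FF (d + 1) M N.natAbs c) * (tau ϑ ^ (-M) * tau ϑ ^ M) := by
              rw [h7, mul_one]
          _ = _ := by ring
      rw [h5]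
      exact h3
    exact h1.unique h2
  have hinv := four_inversion (fs_cont_Phi hc d ϑ) (four_per_Phi c d ϑ) a has hcoef ϑ
  have h5 : HasSum (fun M : ℤ => C * b M) (four_g (four_Phi d ϑ c) ϑ) := by
    have h6 : (fun M : ℤ => a M * Complex.exp (-(I * M * ϑ))) = fun M => C * b M := by
      funext M
      have h7 : Complex.exp (-(I * M * ϑ)) = tau ϑ ^ (-M) := by
        unfold tau
        rw [← Complex.exp_int_mul]
        congr 1
        push_cast
        ring
      have h8 : tau ϑ ^ (-M) * tau ϑ ^ (-M) = 1 := by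
        rw [← mul_zpow, four_tau_sq hϑ, one_zpow]
      rw [h7, ha]
      calc C * (tau ϑ ^ (-M) * b M) * tau ϑ ^ (-M) =
            C * b M * (tau ϑ ^ (-M) * tau ϑ ^ (-M)) := by ring
        _ = C * b M := by rw [h8, mul_one]
    rw [← h6]
    exact hinv
  have h9 : four_g (four_Phi d ϑ c) ϑ = C * ∑' p, G p := h5.unique (hbS.mul_left C)
  have h10 : chi d ϑ c = ∑' p, G p := by
    have h11 : chi d ϑ c = (1 / ((d + 1).factorial : ℂ)) * (1 / (2 * π)) ^ d *
        four_g (four_Phi d ϑ c) ϑ := rfl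
    have h12 : ((1 : ℂ) / (2 * π)) ^ d * (2 * π) ^ d = 1 := by
      rw [← mul_pow, one_div_mul_cancel (mul_ne_zero two_ne_zero hpi), one_pow]
    rw [h11, h9, hC]
    calc (1 / ((d + 1).factorial : ℂ)) * (1 / (2 * π)) ^ d *
          (((d + 1).factorial : ℂ) * (2 * π) ^ d * ∑' p, G p) =
          ((1 / ((d + 1).factorial : ℂ)) * ((d + 1).factorial : ℂ)) *
            ((1 / (2 * π)) ^ d * (2 * π) ^ d) * ∑' p, G p := by ring
      _ = ∑' p, G p := by rw [h12, one_div_mul_cancel hf]; ring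
  rw [h10]
  exact hGs.hasSum


private theorem fs_summable_pow {q : ℝ} (h0 : 0 < q) (h1 : q < 1) :
    Summable fun p : ℤ × ℤ => q ^ (p.1.natAbs + p.2.natAbs) := by
  have h : Summable fun n : ℤ => q ^ n.natAbs := (four_geom_real h0.le h1).summable
  have h2 := h.mul_of_nonneg h (fun n => pow_nonneg h0.le _) (fun n => pow_nonneg h0.le _)
  refine h2.congr fun p => ?_
  rw [pow_add]

private theorem fs_bd_nonneg {A : ℝ} (hA : 1 ≤ A) (j : ℕ) : 0 ≤ bd A j := by
  unfold bd
  exact div_nonneg (mul_nonneg (pow_nonneg (by linarith) _) (Real.sqrt_nonneg _))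
    (Nat.cast_nonneg _)

theorem chi_hasSum_real (d : ℕ) {c : ℝ} (hc : 2 < c) :
    HasSum (fun p : ℤ × ℤ => FF (d + 1) p.1 p.2.natAbs c) (chi d 0 c) := by
  obtain ⟨A, q, hA, hq0, hq1, hb⟩ := FF_bound hc
  have hs : Summable fun p : ℤ × ℤ => ‖FF (d + 1) p.1 p.2.natAbs c‖ := by
    refine Summable.of_nonneg_of_le (fun _ => norm_nonneg _)
      (fun p => hb (d + 1) p.1 p.2.natAbs c (by omega) le_rfl) ?_
    exact (fs_summable_pow hq0 hq1).mul_left _
  have h := fs_chi_hasSum d (Or.inl rfl) (c := (c : ℂ)) (Or.inr (Or.inl (by simpa using hc))) hs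
  have ht : tau 0 = 1 := by
    unfold tau
    simp
  simpa only [ht, one_zpow, one_mul] using h

/-- The general interchange, for the orders `e k + 1`. -/
private theorem fs_swap {c : ℝ} (hc : 2 < c) (e : ℕ → ℕ) (he : Function.Injective e) :
    HasSum (fun p : ℤ × ℤ => ∑' k : ℕ, FF (e k + 1) p.1 p.2.natAbs c)
      (∑' k : ℕ, chi (e k) 0 c) ∧
    ∀ (M : ℤ) (N : ℕ), Summable fun k : ℕ => FF (e k + 1) M N c := by
  obtain ⟨A, q, hA, hq0, hq1, hb⟩ := FF_bound hc
  have hbd : Summable fun k : ℕ => bd A (e k + 1) :=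
    (summable_bd A).comp_injective (i := fun k => e k + 1) fun a b hab => he (by
      simpa using hab)
  have hp := fs_summable_pow hq0 hq1
  have hprod : Summable fun x : (ℤ × ℤ) × ℕ => FF (e x.2 + 1) x.1.1 x.1.2.natAbs c := by
    refine Summable.of_norm_bounded
      (g := fun x : (ℤ × ℤ) × ℕ => q ^ (x.1.1.natAbs + x.1.2.natAbs) * bd A (e x.2 + 1)) ?_ ?_
    · exact hp.mul_of_nonneg hbd (fun _ => pow_nonneg hq0.le _) (fun _ => fs_bd_nonneg hA _)
    · intro x
      rw [mul_comm]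
      exact hb (e x.2 + 1) x.1.1 x.1.2.natAbs c (by omega) le_rfl
  refine ⟨?_, ?_⟩
  · have h1 : HasSum (fun p : ℤ × ℤ => ∑' k : ℕ, FF (e k + 1) p.1 p.2.natAbs c)
        (∑' x : (ℤ × ℤ) × ℕ, FF (e x.2 + 1) x.1.1 x.1.2.natAbs c) :=
      hprod.hasSum.prod_fiberwise fun p => (hprod.prod_factor p).hasSum
    have h2 : (∑' x : (ℤ × ℤ) × ℕ, FF (e x.2 + 1) x.1.1 x.1.2.natAbs c) =
        ∑' k : ℕ, chi (e k) 0 c := by
      have hswap : Summable fun x : ℕ × (ℤ × ℤ) => FF (e x.1 + 1) x.2.1 x.2.2.natAbs c :=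
        (Equiv.prodComm ℕ (ℤ × ℤ)).summable_iff.2 hprod
      have h3 : (∑' x : (ℤ × ℤ) × ℕ, FF (e x.2 + 1) x.1.1 x.1.2.natAbs c) =
          ∑' x : ℕ × (ℤ × ℤ), FF (e x.1 + 1) x.2.1 x.2.2.natAbs c :=
        ((Equiv.prodComm ℕ (ℤ × ℤ)).tsum_eq
          (fun x : (ℤ × ℤ) × ℕ => FF (e x.2 + 1) x.1.1 x.1.2.natAbs (c : ℂ))).symm
      rw [h3, hswap.tsum_prod]
      refine tsum_congr fun k => ?_
      exact (chi_hasSum_real (e k) hc).tsum_eq
    rw [← h2]
    exact h1
  · intro M N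
    refine Summable.of_norm_bounded (g := fun k : ℕ => bd A (e k + 1) * q ^ (M.natAbs + N)) ?_ ?_
    · exact hbd.mul_right _
    · intro k
      exact hb (e k + 1) M N c (by omega) le_rfl

theorem even_hasSum {c : ℝ} (hc : 2 < c) :
    HasSum (fun p : ℤ × ℤ => Deven p.1 p.2.natAbs c - 1) (Seven 0 c) := by
  obtain ⟨h1, h2⟩ := fs_swap hc (fun k => 2 * k + 1) (fun a b hab => by
    simp only at hab
    omega)
  unfold Seven
  have h3 : (fun p : ℤ × ℤ => Deven p.1 p.2.natAbs c - 1) =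
      fun p : ℤ × ℤ => ∑' k : ℕ, FF (2 * k + 1 + 1) p.1 p.2.natAbs c := by
    funext p
    have h4 : Summable fun k : ℕ => FF (2 * k) p.1 p.2.natAbs c := by
      refine (summable_nat_add_iff 1).1 ?_
      exact h2 p.1 p.2.natAbs
    unfold Deven
    rw [h4.tsum_eq_zero_add, mul_zero, FF_zero, add_sub_cancel_left]
    exact tsum_congr fun k => rfl
  rw [h3]
  exact h1

theorem odd_hasSum {c : ℝ} (hc : 2 < c) :
    HasSum (fun p : ℤ × ℤ => Dodd p.1 p.2.natAbs c) (Sodd 0 c) := by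
  obtain ⟨h1, -⟩ := fs_swap hc (fun k => 2 * k) (fun a b hab => by
    simp only at hab
    omega)
  exact h1

end

end IsingS2
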