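import Pool.Agent.Helper98.IS.FC

/-!
# IS-29: Fourier transforms of decaying matrices and vectors
-/

set_option autoImplicit false

namespace IsingS2

open Complex Set MeasureTheory Filter Topology IsingNB
open scoped Real Matrix

noncomputable section

/-! ### auxiliary facts -/

theorem FT_geo {q : ℝ} (h0 : 0 < q) (h1 : q < 1) : Summable fun k : ℤ => q ^ k.natAbs := by
  apply Summable.of_nat_of_neg
  · simpa using summable_geometric_of_lt_one h0.le h1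
  · simpa using summable_geometric_of_lt_one h0.le h1

theorem FT_norm_zpow {x : ℂ} (hx : ‖x‖ = 1) (k : ℤ) : ‖x ^ k‖ = 1 := by
  rw [norm_zpow, hx, one_zpow]

theorem FT_norm_ex (φ : ℝ) : ‖ex φ‖ = 1 := by
  unfold ex
  rw [mul_comm]
  exact Complex.norm_exp_ofReal_mul_I φ

theorem FT_ne {x : ℂ} (hx : ‖x‖ = 1) : x ≠ 0 := by
  intro h
  rw [h, norm_zero] at hx
  exact zero_ne_one hx

theorem FT_norm_inv {x : ℂ} (hx : ‖x‖ = 1) : ‖x⁻¹‖ = 1 := by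
  rw [norm_inv, hx, inv_one]

theorem FT_bd {A : ℤ → ℤ → ℂ} (hA : LL A) :
    ∃ u : ℤ × ℤ → ℝ, Summable u ∧ ∀ p : ℤ × ℤ, ‖A p.1 p.2‖ ≤ u p := by
  obtain ⟨C, q, hC, h0, h1, h⟩ := hA
  have h2 : Summable fun p : ℤ × ℤ => q ^ p.1.natAbs * q ^ p.2.natAbs :=
    Summable.mul_of_nonneg (FT_geo h0 h1) (FT_geo h0 h1) (fun k => by positivity)
      (fun k => by positivity)
  refine ⟨fun p => C * (q ^ p.1.natAbs * q ^ p.2.natAbs), h2.mul_left C, fun p => ?_⟩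
  have := h p.1 p.2
  rwa [pow_add] at this

theorem FT_bdV {u : ℤ → ℂ} (hu : LV u) : ∃ w : ℤ → ℝ, Summable w ∧ ∀ k, ‖u k‖ ≤ w k := by
  obtain ⟨C, q, hC, h0, h1, h⟩ := hu
  exact ⟨fun k => C * q ^ k.natAbs, (FT_geo h0 h1).mul_left C, h⟩

theorem FT_term {A : ℤ → ℤ → ℂ} {x y : ℂ} (hx : ‖x‖ = 1) (hy : ‖y‖ = 1) (p : ℤ × ℤ) :
    ‖A p.1 p.2 * x ^ p.1 * y ^ p.2‖ = ‖A p.1 p.2‖ := by
  rw [norm_mul, norm_mul, FT_norm_zpow hx, FT_norm_zpow hy, mul_one, mul_one]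

theorem FT_ex_cont : Continuous ex := by
  unfold ex
  fun_prop

theorem FT_ex_ne (φ : ℝ) : ex φ ≠ 0 := Complex.exp_ne_zero _

theorem FT_ex_zpow (φ : ℝ) (n : ℤ) : ex φ ^ n = Complex.exp (I * n * φ) := by
  unfold ex
  rw [← Complex.exp_int_mul]
  congr 1
  ring

theorem FT_ex_zpow_cont (n : ℤ) : Continuous fun φ : ℝ => ex φ ^ n := by
  simp_rw [FT_ex_zpow]
  fun_prop

/-- orthogonality -/
theorem FT_orth (n : ℤ) :
    (1 / (2 * π) : ℂ) * ∫ θ in (-π)..π, ex θ ^ n = if n = 0 then 1 else 0 := by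
  have hpi : (π : ℂ) ≠ 0 := by exact_mod_cast Real.pi_ne_zero
  simp_rw [FT_ex_zpow]
  split_ifs with h
  · subst h
    simp
    field_simp
    ring
  · have hc : (I * n : ℂ) ≠ 0 := mul_ne_zero I_ne_zero (by exact_mod_cast h)
    rw [integral_exp_mul_complex hc]
    have h1 : Complex.exp (I * n * (π : ℝ)) = Complex.exp (I * n * ((-π : ℝ))) := by
      rw [Complex.exp_eq_exp_iff_exists_int]
      refine ⟨n, ?_⟩
      push_cast
      ring
    rw [h1, sub_self, zero_div, mul_zero]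

/-! ### the statements -/

theorem ft_summable {A : ℤ → ℤ → ℂ} (hA : LL A) {x y : ℂ} (hx : ‖x‖ = 1) (hy : ‖y‖ = 1) :
    Summable fun p : ℤ × ℤ => A p.1 p.2 * x ^ p.1 * y ^ p.2 := by
  obtain ⟨u, hu, h⟩ := FT_bd hA
  refine Summable.of_norm_bounded hu fun p => ?_
  rw [FT_term hx hy]
  exact h p

theorem ft_cont {A : ℤ → ℤ → ℂ} (hA : LL A) :
    Continuous fun p : ℝ × ℝ => ft A (ex p.1) (ex p.2)⁻¹ := by
  obtain ⟨u, hu, h⟩ := FT_bd hA
  unfold ft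
  refine continuous_tsum (fun q => ?_) hu (fun q p => ?_)
  · have h1 : Continuous fun p : ℝ × ℝ => ex p.1 ^ q.1 := (FT_ex_zpow_cont q.1).comp continuous_fst
    have h2 : Continuous fun p : ℝ × ℝ => (ex p.2)⁻¹ ^ q.2 := by
      simp_rw [inv_zpow']
      exact (FT_ex_zpow_cont (-q.2)).comp continuous_snd
    exact (continuous_const.mul h1).mul h2
  · rw [FT_term (FT_norm_ex _) (FT_norm_inv (FT_norm_ex _))]
    exact h q

theorem fv_cont {u : ℤ → ℂ} (hu : LV u) : Continuous fun φ : ℝ => fv u (ex φ) := by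
  obtain ⟨w, hw, h⟩ := FT_bdV hu
  unfold fv
  refine continuous_tsum (fun q => continuous_const.mul (FT_ex_zpow_cont q)) hw (fun q p => ?_)
  rw [norm_mul, FT_norm_zpow (FT_norm_ex _), mul_one]
  exact h q

theorem ft_neg (A : ℤ → ℤ → ℂ) (x y : ℂ) : ft (fun k l => -A k l) x y = -ft A x y := by
  unfold ft
  rw [← tsum_neg]
  exact tsum_congr fun p => by ring

/-- the general rearrangement: a summable triple series with the fibres of `mm A B` -/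
theorem FT_fib {A B : ℤ → ℤ → ℂ} {x y S : ℂ} (hx : x ≠ 0) (hy : y ≠ 0)
    (h : HasSum (fun p : (ℤ × ℤ) × ℤ => A p.1.1 p.2 * B p.2 p.1.2 * (x ^ p.1.1 * y ^ p.1.2)) S) :
    ft (mm A B) x y = S := by
  have hf : ∀ b : ℤ × ℤ, HasSum (fun i : ℤ => A b.1 i * B i b.2 * (x ^ b.1 * y ^ b.2))
      (mm A B b.1 b.2 * x ^ b.1 * y ^ b.2) := by
    intro b
    have h1 : Summable fun i : ℤ => A b.1 i * B i b.2 * (x ^ b.1 * y ^ b.2) :=
      h.summable.prod_factor b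
    have hne : x ^ b.1 * y ^ b.2 ≠ 0 := mul_ne_zero (zpow_ne_zero _ hx) (zpow_ne_zero _ hy)
    have h2 : Summable fun i : ℤ => A b.1 i * B i b.2 := by
      have := h1.mul_right (x ^ b.1 * y ^ b.2)⁻¹
      refine this.congr fun i => ?_
      field_simp
    have h3 := h2.hasSum.mul_right (x ^ b.1 * y ^ b.2)
    rw [mul_assoc]
    exact h3
  exact (h.prod_fiberwise hf).tsum_eq

theorem ft_mm {A B : ℤ → ℤ → ℂ} (hA : LL A) (hB : LL B) {x y : ℂ} (hx : ‖x‖ = 1) (hy : ‖y‖ = 1) :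
    ft (mm A B) x y = (1 / (2 * π)) * ∫ θ in (-π)..π, ft A x (ex θ) * ft B (ex θ)⁻¹ y := by
  obtain ⟨u, hu, hAu⟩ := FT_bd hA
  obtain ⟨w, hw, hBw⟩ := FT_bd hB
  have hu0 : ∀ p, 0 ≤ u p := fun p => (norm_nonneg _).trans (hAu p)
  have hw0 : ∀ p, 0 ≤ w p := fun p => (norm_nonneg _).trans (hBw p)
  have huw : Summable fun z : (ℤ × ℤ) × (ℤ × ℤ) => u z.1 * w z.2 := hu.mul_of_nonneg hw hu0 hw0
  -- the term
  set G : (ℤ × ℤ) × (ℤ × ℤ) → ℝ → ℂ := fun z θ =>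
    (A z.1.1 z.1.2 * x ^ z.1.1 * ex θ ^ z.1.2) * (B z.2.1 z.2.2 * (ex θ)⁻¹ ^ z.2.1 * y ^ z.2.2)
    with hG
  have hGb : ∀ z θ, ‖G z θ‖ ≤ u z.1 * w z.2 := by
    intro z θ
    rw [hG]
    simp only
    rw [norm_mul, FT_term hx (FT_norm_ex θ) z.1, FT_term (FT_norm_inv (FT_norm_ex θ)) hy z.2]
    exact mul_le_mul (hAu _) (hBw _) (norm_nonneg _) (hu0 _)
  have hGs : ∀ θ, HasSum (fun z => G z θ) (ft A x (ex θ) * ft B (ex θ)⁻¹ y) := by
    intro θ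
    refine HasSum.mul (f := fun p : ℤ × ℤ => A p.1 p.2 * x ^ p.1 * ex θ ^ p.2)
      (g := fun p : ℤ × ℤ => B p.1 p.2 * (ex θ)⁻¹ ^ p.1 * y ^ p.2)
      (ft_summable hA hx (FT_norm_ex θ)).hasSum
      (ft_summable hB (FT_norm_inv (FT_norm_ex θ)) hy).hasSum ?_
    exact Summable.of_norm_bounded huw fun z => hGb z θ
  have hGc : ∀ z, Continuous (G z) := by
    intro z
    have h2 : Continuous fun θ : ℝ => (ex θ)⁻¹ ^ z.2.1 := by
      simp_rw [inv_zpow']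
      exact FT_ex_zpow_cont (-z.2.1)
    exact (continuous_const.mul (FT_ex_zpow_cont z.1.2)).mul
      ((continuous_const.mul h2).mul continuous_const)
  have hint : HasSum (fun z => ∫ θ in (-π)..π, G z θ)
      (∫ θ in (-π)..π, ft A x (ex θ) * ft B (ex θ)⁻¹ y) := by
    refine intervalIntegral.hasSum_integral_of_dominated_convergence (fun z _ => u z.1 * w z.2)
      (fun z => (hGc z).aestronglyMeasurable) (fun z => ae_of_all _ fun θ _ => hGb z θ)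
      (ae_of_all _ fun θ _ => huw) ?_ (ae_of_all _ fun θ _ => hGs θ)
    exact intervalIntegrable_const
  have hint2 := hint.mul_left (1 / (2 * π) : ℂ)
  -- the integral of a term
  have hterm : ∀ z : (ℤ × ℤ) × (ℤ × ℤ), (1 / (2 * π) : ℂ) * ∫ θ in (-π)..π, G z θ =
      if z.1.2 = z.2.1 then A z.1.1 z.1.2 * B z.2.1 z.2.2 * (x ^ z.1.1 * y ^ z.2.2) else 0 := by
    intro z
    have h1 : ∀ θ : ℝ, G z θ = A z.1.1 z.1.2 * B z.2.1 z.2.2 * (x ^ z.1.1 * y ^ z.2.2) *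
        ex θ ^ (z.1.2 - z.2.1) := by
      intro θ
      rw [hG]
      simp only
      rw [zpow_sub₀ (FT_ex_ne θ), inv_zpow]
      ring
    simp_rw [h1]
    rw [intervalIntegral.integral_const_mul, mul_left_comm, FT_orth]
    simp only [sub_eq_zero]
    split_ifs <;> simp
  simp_rw [hterm] at hint2
  -- restrict to the diagonal
  set D : (ℤ × ℤ) × ℤ → (ℤ × ℤ) × (ℤ × ℤ) := fun p => ((p.1.1, p.2), (p.2, p.1.2)) with hD
  have hDi : Function.Injective D := by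
    rintro ⟨⟨a, b⟩, c⟩ ⟨⟨a', b'⟩, c'⟩ h
    simp only [hD, Prod.mk.injEq] at h
    obtain ⟨⟨h1, h2⟩, h3, h4⟩ := h
    subst h1 h2 h4
    rfl
  have hint3 := (hDi.hasSum_iff (f := fun z : (ℤ × ℤ) × (ℤ × ℤ) =>
      if z.1.2 = z.2.1 then A z.1.1 z.1.2 * B z.2.1 z.2.2 * (x ^ z.1.1 * y ^ z.2.2) else 0)
      (fun z hz => by
        split_ifs with h
        · exfalso
          apply hz
          refine ⟨((z.1.1, z.2.2), z.1.2), ?_⟩
          rw [hD]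
          simp only
          ext <;> simp [h]
        · rfl)).2 hint2
  refine FT_fib (FT_ne hx) (FT_ne hy) (hint3.congr_fun ?_)
  intro p
  simp [hD]

theorem FT_Tz {f : ℂ → ℂ} (hf : Ann f) {x : ℂ} (hx : ‖x‖ = 1) :
    Summable fun n : ℤ => ‖fc f n * x ^ n‖ := by
  obtain ⟨C, q, hC, h0, h1, h⟩ := fc_bound hf
  refine Summable.of_nonneg_of_le (fun n => norm_nonneg _) (fun n => ?_)
    ((FT_geo h0 h1).mul_left C)
  rw [norm_mul, FT_norm_zpow hx, mul_one]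
  exact h n

theorem FT_norm {A : ℤ → ℤ → ℂ} (hA : LL A) {x y : ℂ} (hx : ‖x‖ = 1) (hy : ‖y‖ = 1) :
    Summable fun p : ℤ × ℤ => ‖A p.1 p.2 * x ^ p.1 * y ^ p.2‖ := by
  obtain ⟨u, hu, h⟩ := FT_bd hA
  refine Summable.of_nonneg_of_le (fun n => norm_nonneg _) (fun p => ?_) hu
  rw [FT_term hx hy]
  exact h p

theorem ft_Tz_mm {f : ℂ → ℂ} {A : ℤ → ℤ → ℂ} (hf : Ann f) (hA : LL A) {x y : ℂ} (hx : ‖x‖ = 1)
    (hy : ‖y‖ = 1) : ft (mm (Tz f) A) x y = f x * ft A x y := by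
  have h1 : HasSum (fun z : ℤ × (ℤ × ℤ) => (fc f z.1 * x ^ z.1) *
      (A z.2.1 z.2.2 * x ^ z.2.1 * y ^ z.2.2)) (f x * ft A x y) := by
    refine HasSum.mul (f := fun n : ℤ => fc f n * x ^ n)
      (g := fun p : ℤ × ℤ => A p.1 p.2 * x ^ p.1 * y ^ p.2) (fc_hasSum hf hx)
      (ft_summable hA hx hy).hasSum ?_
    exact summable_mul_of_summable_norm (f := fun n : ℤ => fc f n * x ^ n)
      (g := fun p : ℤ × ℤ => A p.1 p.2 * x ^ p.1 * y ^ p.2) (FT_Tz hf hx) (FT_norm hA hx hy)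
  let e : (ℤ × ℤ) × ℤ ≃ ℤ × (ℤ × ℤ) :=
    { toFun := fun p => (p.1.1 - p.2, (p.2, p.1.2))
      invFun := fun z => ((z.1 + z.2.1, z.2.2), z.2.1)
      left_inv := fun p => by ext <;> simp
      right_inv := fun z => by ext <;> simp }
  have h2 := (e.hasSum_iff).2 h1
  refine FT_fib (FT_ne hx) (FT_ne hy) (h2.congr_fun ?_)
  intro p
  simp only [e, Function.comp_apply, Equiv.coe_fn_mk, Tz]
  rw [zpow_sub₀ (FT_ne hx)]
  have := zpow_ne_zero p.2 (FT_ne hx)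
  field_simp

theorem ft_mm_Tz {f : ℂ → ℂ} {A : ℤ → ℤ → ℂ} (hf : Ann f) (hA : LL A) {x y : ℂ} (hx : ‖x‖ = 1)
    (hy : ‖y‖ = 1) : ft (mm A (Tz f)) x y = ft A x y * f y⁻¹ := by
  have hy' : ‖y⁻¹‖ = 1 := FT_norm_inv hy
  have h1 : HasSum (fun z : (ℤ × ℤ) × ℤ => (A z.1.1 z.1.2 * x ^ z.1.1 * y ^ z.1.2) *
      (fc f z.2 * y⁻¹ ^ z.2)) (ft A x y * f y⁻¹) := by
    refine HasSum.mul (f := fun p : ℤ × ℤ => A p.1 p.2 * x ^ p.1 * y ^ p.2)
      (g := fun n : ℤ => fc f n * y⁻¹ ^ n)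
      (ft_summable hA hx hy).hasSum (fc_hasSum hf hy') ?_
    exact summable_mul_of_summable_norm (f := fun p : ℤ × ℤ => A p.1 p.2 * x ^ p.1 * y ^ p.2)
      (g := fun n : ℤ => fc f n * y⁻¹ ^ n) (FT_norm hA hx hy) (FT_Tz hf hy')
  let e : (ℤ × ℤ) × ℤ ≃ (ℤ × ℤ) × ℤ :=
    { toFun := fun p => ((p.1.1, p.2), p.2 - p.1.2)
      invFun := fun z => ((z.1.1, z.1.2 - z.2), z.1.2)
      left_inv := fun p => by ext <;> simp
      right_inv := fun z => by ext <;> simp }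
  have h2 := (e.hasSum_iff).2 h1
  refine FT_fib (FT_ne hx) (FT_ne hy) (h2.congr_fun ?_)
  intro p
  simp only [e, Function.comp_apply, Equiv.coe_fn_mk, Tz]
  rw [inv_zpow, zpow_sub₀ (FT_ne hy)]
  have := zpow_ne_zero p.2 (FT_ne hy)
  have := zpow_ne_zero p.1.2 (FT_ne hy)
  field_simp

theorem ft_sft {A : ℤ → ℤ → ℂ} (M : ℤ) {x y : ℂ} (hx : ‖x‖ = 1)
    (hy : ‖y‖ = 1) : ft (sft M A) x y = (x * y) ^ M * ft A x y := by
  unfold ft
  rw [← tsum_mul_left]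
  let e : ℤ × ℤ ≃ ℤ × ℤ :=
    { toFun := fun p => (p.1 + M, p.2 + M)
      invFun := fun p => (p.1 - M, p.2 - M)
      left_inv := fun p => by ext <;> simp
      right_inv := fun p => by ext <;> simp }
  rw [← e.tsum_eq]
  refine tsum_congr fun p => ?_
  simp only [e, Equiv.coe_fn_mk, sft, add_sub_cancel_right]
  rw [zpow_add₀ (FT_ne hx), zpow_add₀ (FT_ne hy), mul_zpow]
  ring

theorem fv_fc {f : ℂ → ℂ} (hf : Ann f) (M : ℤ) {x : ℂ} (hx : ‖x‖ = 1) :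
    fv (fun k => fc f (k - M)) x = x ^ M * f x := by
  unfold fv
  rw [← (fc_hasSum hf hx).tsum_eq, ← tsum_mul_left, ← (Equiv.addRight M).tsum_eq]
  refine tsum_congr fun k => ?_
  simp only [Equiv.coe_addRight, add_sub_cancel_right]
  rw [zpow_add₀ (FT_ne hx)]
  ring

end

end IsingS2
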