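import Pool.Agent.Helper98.IS.FT
import Pool.Agent.Helper98.IS.Band
import Pool.Agent.Helper98.IS.SymbolsB

/-!
# IS-30: transforms of `Y`, `P` and of the border vectors
-/

set_option autoImplicit false

namespace IsingS2

open Complex Set MeasureTheory Filter Topology IsingNB
open scoped Real Matrix

noncomputable section


/-! ### auxiliary facts -/

theorem FTY_cc {v : ℝ} (hv : 1 < v) : 2 < cc v := by
  unfold cc
  have h0 : 0 < v := by linarith
  have h1 : 0 < v - 1 := by linarith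
  have h2 : v + 1 / v - 2 = (v - 1) ^ 2 / v := by
    field_simp
    ring
  have h3 : 0 < (v - 1) ^ 2 / v := by positivity
  linarith

theorem FTY_c1 (v : ℝ) : 0 < c1 v := by
  unfold c1 Cs
  apply Real.sqrt_pos.2
  have : 0 ≤ Real.sqrt (1 + v ^ 2) := Real.sqrt_nonneg _
  linarith

theorem FTY_s1 {v : ℝ} (hv : 1 < v) : 0 < s1 v := by
  unfold s1 Cs
  apply Real.sqrt_pos.2
  have h : 1 < Real.sqrt (1 + v ^ 2) := by
    rw [Real.lt_sqrt (by norm_num)]
    nlinarith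
  linarith

theorem FTY_tt {v : ℝ} (hv : 1 < v) : 0 < tt v := div_pos (FTY_s1 hv) (FTY_c1 v)

theorem FTY_c1_tt (v : ℝ) : (c1 v : ℂ) * (tt v : ℂ) = (s1 v : ℂ) := by
  have h : c1 v * tt v = s1 v := by
    unfold tt
    have := (FTY_c1 v).ne'
    field_simp
  rw [← h]
  push_cast
  ring

theorem FTY_w1 {v : ℝ} (hv : 1 < v) {x : ℂ} (hx : ‖x‖ = 1) : 1 - ww (cc v) x ≠ 0 := by
  intro h
  have h1 : ww (cc v) x = 1 := by linear_combination -h
  have h2 := ww_lt (FTY_cc hv) hx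
  rw [h1, norm_one] at h2
  exact lt_irrefl _ h2

theorem FTY_w2 {v : ℝ} (hv : 1 < v) {x : ℂ} (hx : ‖x‖ = 1) : 1 - ww (cc v) x ^ 2 ≠ 0 := by
  intro h
  have h1 : ww (cc v) x ^ 2 = 1 := by linear_combination -h
  have h2 := ww_lt (FTY_cc hv) hx
  have h3 : ‖ww (cc v) x‖ ^ 2 = 1 := by rw [← norm_pow, h1, norm_one]
  nlinarith [norm_nonneg (ww (cc v) x)]

theorem FTY_bq_inv (v : ℝ) (x : ℂ) : bq v x⁻¹ = (bp v x)⁻¹ := by
  unfold bq
  rw [inv_inv]

theorem FTY_bq_ne {v : ℝ} (hv : 1 < v) {x : ℂ} (hx : ‖x‖ = 1) : bq v x ≠ 0 := by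
  unfold bq
  exact inv_ne_zero (bp_ne hv (FT_norm_inv hx))

theorem FTY_ann_cont {f : ℂ → ℂ} (hf : Ann f) : Continuous fun φ : ℝ => f (ex φ) := by
  obtain ⟨q, h0, h1, h⟩ := hf
  have h2 : ContinuousOn f {x | q < ‖x‖ ∧ ‖x‖ < q⁻¹} := h.continuousOn
  refine h2.comp_continuous FT_ex_cont fun φ => ?_
  simp only [Set.mem_ofPred_eq, FT_norm_ex]
  exact ⟨h1, (one_lt_inv₀ h0).2 h1⟩

theorem FTY_ann_pow {f : ℂ → ℂ} (hf : Ann f) (N : ℕ) : Ann fun x => f x ^ N := by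
  obtain ⟨q, h0, h1, h⟩ := hf
  exact ⟨q, h0, h1, h.pow N⟩

theorem FTY_ann_lin {f g : ℂ → ℂ} (hf : Ann f) (hg : Ann g) (a b : ℂ) :
    Ann fun x => a * f x + b * g x := by
  obtain ⟨q, h0, h1, h⟩ := hf
  obtain ⟨q', h0', h1', h'⟩ := hg
  refine ⟨max q q', lt_max_of_lt_left h0, max_lt h1 h1', ?_⟩
  refine ((h.mono ?_).const_mul a).add ((h'.mono ?_).const_mul b)
  · rintro x ⟨hx1, hx2⟩
    refine ⟨(le_max_left _ _).trans_lt hx1, hx2.trans_le ?_⟩
    exact inv_anti₀ h0 (le_max_left _ _)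
  · rintro x ⟨hx1, hx2⟩
    refine ⟨(le_max_right _ _).trans_lt hx1, hx2.trans_le ?_⟩
    exact inv_anti₀ h0' (le_max_right _ _)

/-- the commutator of a Toeplitz matrix and the projection -/
def FTY_K (f : ℂ → ℂ) (k l : ℤ) : ℂ :=
  fc f (k - l) * ((if 0 ≤ l then 1 else 0) - (if 0 ≤ k then 1 else 0))

theorem FTY_K_LL {f : ℂ → ℂ} (hf : Ann f) : LL (FTY_K f) := by
  obtain ⟨C, q, hC, h0, h1, h⟩ := fc_bound hf
  refine ⟨C, q, hC, h0, h1, fun k l => ?_⟩
  unfold FTY_K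
  have hpos : 0 ≤ C * q ^ (k.natAbs + l.natAbs) := by positivity
  split_ifs with h2 h3 h3
  · simpa using hpos
  · have he : (k - l).natAbs = k.natAbs + l.natAbs := by omega
    rw [← he]
    simpa using h (k - l)
  · have he : (k - l).natAbs = k.natAbs + l.natAbs := by omega
    rw [← he]
    simpa using h (k - l)
  · simpa using hpos

/-- the finite geometric sums over `ℤ` -/
theorem FTY_geom {z : ℂ} (hz : z ≠ 0) (hz1 : z ≠ 1) (n : ℤ) :
    HasSum (fun l : ℤ => ((if 0 ≤ l then (1 : ℂ) else 0) - (if 0 ≤ n + l then 1 else 0)) * z ^ l)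
      ((1 - z ^ (-n)) / (1 - z)) := by
  have hz2 : 1 - z ≠ 0 := sub_ne_zero.2 (Ne.symm hz1)
  have hsum : ∀ m : ℕ, ∑ l ∈ Finset.range m, z ^ l = (1 - z ^ m) / (1 - z) := by
    intro m
    rw [geom_sum_eq hz1, ← neg_sub, ← neg_sub (1 : ℂ) z, neg_div_neg_eq]
  rcases le_total 0 n with h | h
  · -- the terms `-n ≤ l < 0`
    obtain ⟨m, rfl⟩ := Int.eq_ofNat_of_zero_le h
    have h1 : HasSum (fun l : ℤ => ((if 0 ≤ l then (1 : ℂ) else 0) -
        (if 0 ≤ (m : ℤ) + l then 1 else 0)) * z ^ l) (∑ l ∈ Finset.Ico (-(m : ℤ)) 0,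
        ((if 0 ≤ l then (1 : ℂ) else 0) - (if 0 ≤ (m : ℤ) + l then 1 else 0)) * z ^ l) := by
      refine hasSum_sum_of_ne_finset_zero fun l hl => ?_
      rw [Finset.mem_Ico] at hl
      have : (0 ≤ l) ↔ (0 ≤ (m : ℤ) + l) := by omega
      simp [this]
    have h2 : ∑ l ∈ Finset.Ico (-(m : ℤ)) 0, ((if 0 ≤ l then (1 : ℂ) else 0) -
        (if 0 ≤ (m : ℤ) + l then 1 else 0)) * z ^ l = (1 - z ^ (-(m : ℤ))) / (1 - z) := by
      have h3 : ∀ l ∈ Finset.Ico (-(m : ℤ)) 0, ((if 0 ≤ l then (1 : ℂ) else 0) -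
          (if 0 ≤ (m : ℤ) + l then 1 else 0)) * z ^ l = - z ^ l := by
        intro l hl
        rw [Finset.mem_Ico] at hl
        rw [if_neg (by omega), if_pos (by omega)]
        ring
      rw [Finset.sum_congr rfl h3]
      have h4 : ∑ l ∈ Finset.Ico (-(m : ℤ)) 0, - z ^ l =
          ∑ i ∈ Finset.range m, - (z ^ (-(m : ℤ)) * z ^ i) := by
        refine (Finset.sum_nbij (fun i : ℕ => (i : ℤ) - m) ?_ ?_ ?_ ?_).symm
        · intro i hi
          rw [Finset.mem_range] at hi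
          simp only [Finset.mem_Ico]
          omega
        · intro i _ j _ hij
          simp only at hij
          omega
        · intro l hl
          simp only [Finset.coe_Ico, Set.mem_Ico] at hl
          refine ⟨(l + m).toNat, ?_, ?_⟩
          · simp only [Finset.coe_range, Set.mem_Iio]
            omega
          · simp only
            omega
        · intro i _
          rw [zpow_sub₀ hz, zpow_neg, zpow_natCast, zpow_natCast]
          field_simp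
      rw [h4, Finset.sum_neg_distrib, ← Finset.mul_sum, hsum, zpow_neg, zpow_natCast]
      have := pow_ne_zero m hz
      field_simp
      ring
    rw [h2] at h1
    exact h1
  · obtain ⟨m, hm⟩ := Int.eq_ofNat_of_zero_le (show 0 ≤ -n by omega)
    have hn : n = -(m : ℤ) := by omega
    subst hn
    have h1 : HasSum (fun l : ℤ => ((if 0 ≤ l then (1 : ℂ) else 0) -
        (if 0 ≤ -(m : ℤ) + l then 1 else 0)) * z ^ l) (∑ l ∈ Finset.Ico (0 : ℤ) m,
        ((if 0 ≤ l then (1 : ℂ) else 0) - (if 0 ≤ -(m : ℤ) + l then 1 else 0)) * z ^ l) := by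
      refine hasSum_sum_of_ne_finset_zero fun l hl => ?_
      rw [Finset.mem_Ico] at hl
      have : (0 ≤ l) ↔ (0 ≤ -(m : ℤ) + l) := by omega
      simp [this]
    have h2 : ∑ l ∈ Finset.Ico (0 : ℤ) m, ((if 0 ≤ l then (1 : ℂ) else 0) -
        (if 0 ≤ -(m : ℤ) + l then 1 else 0)) * z ^ l = (1 - z ^ (-(-(m : ℤ)))) / (1 - z) := by
      have h3 : ∀ l ∈ Finset.Ico (0 : ℤ) m, ((if 0 ≤ l then (1 : ℂ) else 0) -
          (if 0 ≤ -(m : ℤ) + l then 1 else 0)) * z ^ l = z ^ l := by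
        intro l hl
        rw [Finset.mem_Ico] at hl
        rw [if_pos (by omega), if_neg (by omega)]
        ring
      rw [Finset.sum_congr rfl h3]
      have h4 : ∑ l ∈ Finset.Ico (0 : ℤ) m, z ^ l = ∑ i ∈ Finset.range m, z ^ i := by
        refine (Finset.sum_nbij (fun i : ℕ => (i : ℤ)) ?_ ?_ ?_ ?_).symm
        · intro i hi
          rw [Finset.mem_range] at hi
          simp only [Finset.mem_Ico]
          omega
        · intro i _ j _ hij
          simp only at hij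
          omega
        · intro l hl
          simp only [Finset.coe_Ico, Set.mem_Ico] at hl
          refine ⟨l.toNat, ?_, ?_⟩
          · simp only [Finset.coe_range, Set.mem_Iio]
            omega
          · simp only
            omega
        · intro i _
          rw [zpow_natCast]
      rw [h4, hsum, neg_neg, zpow_natCast]
    rw [h2] at h1
    exact h1

/-- transform of the commutator -/
theorem FTY_ft_K {f : ℂ → ℂ} (hf : Ann f) {x y : ℂ} (hx : ‖x‖ = 1) (hy : ‖y‖ = 1)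
    (hxy : x * y ≠ 1) : ft (FTY_K f) x y = (f x - f y⁻¹) / (1 - x * y) := by
  have hz0 : x * y ≠ 0 := mul_ne_zero (FT_ne hx) (FT_ne hy)
  have h1 : HasSum (fun p : ℤ × ℤ => FTY_K f p.1 p.2 * x ^ p.1 * y ^ p.2) (ft (FTY_K f) x y) :=
    (ft_summable (FTY_K_LL hf) hx hy).hasSum
  let e : ℤ × ℤ ≃ ℤ × ℤ :=
    { toFun := fun p => (p.1 + p.2, p.2)
      invFun := fun p => (p.1 - p.2, p.2)
      left_inv := fun p => by ext <;> simp
      right_inv := fun p => by ext <;> simp }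
  have h2 := (e.hasSum_iff).2 h1
  have h3 : ∀ n : ℤ, HasSum (fun l : ℤ => ((fun p : ℤ × ℤ => FTY_K f p.1 p.2 * x ^ p.1 * y ^ p.2) ∘ e)
      (n, l)) (fc f n * x ^ n * ((1 - (x * y) ^ (-n)) / (1 - x * y))) := by
    intro n
    have h4 := (FTY_geom hz0 hxy n).mul_left (fc f n * x ^ n)
    refine h4.congr_fun fun l => ?_
    simp only [e, Function.comp_apply, Equiv.coe_fn_mk, FTY_K, add_sub_cancel_right]
    rw [zpow_add₀ (FT_ne hx), mul_zpow]
    ring
  have h5 := h2.prod_fiberwise h3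
  have h6 : HasSum (fun n : ℤ => fc f n * x ^ n * ((1 - (x * y) ^ (-n)) / (1 - x * y)))
      ((f x - f y⁻¹) / (1 - x * y)) := by
    have h7 := ((fc_hasSum hf hx).sub (fc_hasSum hf (FT_norm_inv hy))).div_const (1 - x * y)
    refine h7.congr_fun fun n => ?_
    have hxn := zpow_ne_zero n (FT_ne hx)
    have hyn := zpow_ne_zero n (FT_ne hy)
    rw [zpow_neg, mul_zpow, inv_zpow]
    field_simp
  exact h5.unique h6

theorem FTY_TzPi (f : ℂ → ℂ) (k l : ℤ) :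
    mm (Tz f) PiZ k l = fc f (k - l) * (if 0 ≤ l then 1 else 0) := by
  unfold mm
  rw [tsum_eq_single l]
  · unfold PiZ Tz
    simp
  · intro i hi
    unfold PiZ
    simp [hi]

theorem FTY_PiTz (f : ℂ → ℂ) (k l : ℤ) :
    mm PiZ (Tz f) k l = fc f (k - l) * (if 0 ≤ k then 1 else 0) := by
  unfold mm
  rw [tsum_eq_single k]
  · unfold PiZ Tz
    simp only [true_and]
    split_ifs <;> simp
  · intro i hi
    unfold PiZ
    simp [Ne.symm hi]

/-- `Tz f Π Tz g = [Tz f, Π] Tz g + Π Tz (f g)` -/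
theorem FTY_split {f g : ℂ → ℂ} (hf : Ann f) (hg : Ann g) (hfg : ∀ x : ℂ, ‖x‖ = 1 → f x * g x = 1)
    (k l : ℤ) : mm (mm (Tz f) PiZ) (Tz g) k l = mm (FTY_K f) (Tz g) k l + PiZ k l := by
  have h1 : mm (Tz f) PiZ = fun k l => FTY_K f k l + mm PiZ (Tz f) k l := by
    funext k l
    rw [FTY_TzPi, FTY_PiTz]
    unfold FTY_K
    ring
  have h2 : mm (Tz f) (Tz g) = one' := by
    rw [Tz_mul hf hg, ← Tz_one]
    funext k l
    exact fc_congr hfg _
  rw [h1, mm_add_left (FTY_K_LL hf).bb (BB_mm BB_Pi (Tz_BB hf)) (Tz_BB hg)]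
  simp only
  rw [mm_assoc BB_Pi (Tz_BB hf) (Tz_BB hg), h2, mm_one]

theorem FTY_Y0 {v : ℝ} (hv : 1 < v) (k l : ℤ) :
    Y0 v k l = mm (FTY_K (bq v)) (Tz fun x => (bq v x)⁻¹) k l +
      -mm (FTY_K (bp v)) (Tz fun x => (bp v x)⁻¹) k l := by
  unfold Y0
  rw [FTY_split (bq_ann hv) (bq_inv_ann hv) (fun x hx => mul_inv_cancel₀ (FTY_bq_ne hv hx)),
    FTY_split (bp_ann hv) (bp_inv_ann hv) (fun x hx => mul_inv_cancel₀ (bp_ne hv hx))]
  ring

theorem FTY_Y0_LL {v : ℝ} (hv : 1 < v) : LL (Y0 v) := by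
  have hA : LL (mm (FTY_K (bq v)) (Tz fun x => (bq v x)⁻¹)) :=
    LL_mm_right (FTY_K_LL (bq_ann hv)) (Tz_BB (bq_inv_ann hv))
  have hB : LL (mm (FTY_K (bp v)) (Tz fun x => (bp v x)⁻¹)) :=
    LL_mm_right (FTY_K_LL (bp_ann hv)) (Tz_BB (bp_inv_ann hv))
  have h : Y0 v = fun k l => mm (FTY_K (bq v)) (Tz fun x => (bq v x)⁻¹) k l +
      -mm (FTY_K (bp v)) (Tz fun x => (bp v x)⁻¹) k l := by
    funext k l
    exact FTY_Y0 hv k l
  rw [h]
  exact LL_add hA (LL_neg hB)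

theorem FTY_Y0_off {v : ℝ} (hv : 1 < v) {x y : ℂ} (hx : ‖x‖ = 1) (hy : ‖y‖ = 1)
    (hxy : x * y ≠ 1) : ft (Y0 v) x y = 2 * tt v * mu v x * mu v y * gx (cc v) x y := by
  have hA : LL (mm (FTY_K (bq v)) (Tz fun x => (bq v x)⁻¹)) :=
    LL_mm_right (FTY_K_LL (bq_ann hv)) (Tz_BB (bq_inv_ann hv))
  have hB : LL (mm (FTY_K (bp v)) (Tz fun x => (bp v x)⁻¹)) :=
    LL_mm_right (FTY_K_LL (bp_ann hv)) (Tz_BB (bp_inv_ann hv))
  have h1 : ft (Y0 v) x y = ft (mm (FTY_K (bq v)) (Tz fun x => (bq v x)⁻¹)) x y -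
      ft (mm (FTY_K (bp v)) (Tz fun x => (bp v x)⁻¹)) x y := by
    unfold ft
    rw [← (ft_summable hA hx hy).tsum_sub (ft_summable hB hx hy)]
    refine tsum_congr fun p => ?_
    rw [FTY_Y0 hv]
    ring
  rw [h1, ft_mm_Tz (bq_inv_ann hv) (FTY_K_LL (bq_ann hv)) hx hy,
    ft_mm_Tz (bp_inv_ann hv) (FTY_K_LL (bp_ann hv)) hx hy, FTY_ft_K (bq_ann hv) hx hy hxy,
    FTY_ft_K (bp_ann hv) hx hy hxy, FTY_bq_inv]
  have hbpy : bp v y⁻¹ = (bq v y)⁻¹ := by
    unfold bq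
    rw [inv_inv]
  rw [hbpy, inv_inv, inv_inv]
  have hz : 1 - x * y ≠ 0 := sub_ne_zero.2 (Ne.symm hxy)
  have hx0 := FT_ne hx
  have hy0 := FT_ne hy
  have hbq := FTY_bq_ne hv hy
  have hbp := bp_ne hv hy
  have hwx := FTY_w1 hv hx
  have hwy := FTY_w1 hv hy
  have hsub := ww_sub (FTY_cc hv) hx hy
  have e1 : (bq v x - (bp v y)⁻¹) / (1 - x * y) * bp v y - (bp v x - (bq v y)⁻¹) / (1 - x * y) *
      bq v y = (bq v x * bp v y - bp v x * bq v y) / (1 - x * y) := by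
    field_simp
    ring
  rw [e1, rho_eq hv hx, rho_eq hv hy]
  unfold mu
  set wx := ww (cc v) x
  set wy := ww (cc v) y
  have e2 : gx (cc v) x y * (wx * wy) = (wy - wx) * (x * y) / (1 - x * y) := by
    rw [hsub]
    field_simp
  have e3 : 2 * (tt v : ℂ) * (bq v x * wx / ((1 - wx) * x)) * (bq v y * wy / ((1 - wy) * y)) *
      gx (cc v) x y = 2 * (tt v : ℂ) * (bq v x / ((1 - wx) * x)) * (bq v y / ((1 - wy) * y)) *
      (gx (cc v) x y * (wx * wy)) := by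
    ring
  rw [e3, e2]
  field_simp
  ring

theorem FTY_gx_cont {v : ℝ} (hv : 1 < v) :
    Continuous fun p : ℝ × ℝ => gx (cc v) (ex p.1) (ex p.2)⁻¹ := by
  unfold gx
  have hw := FTY_ann_cont (ww_ann (FTY_cc hv))
  have h1 : Continuous fun p : ℝ × ℝ => ex p.1 := FT_ex_cont.comp continuous_fst
  have h2 : Continuous fun p : ℝ × ℝ => ex p.2 := FT_ex_cont.comp continuous_snd
  have h3 : Continuous fun p : ℝ × ℝ => (ex p.2)⁻¹ := h2.inv₀ fun p => FT_ne (FT_norm_ex _)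
  have h4 : Continuous fun p : ℝ × ℝ => ww (cc v) (ex p.1) := hw.comp continuous_fst
  have h5 : Continuous fun p : ℝ × ℝ => ww (cc v) (ex p.2)⁻¹ := by
    simp_rw [ww_inv]
    exact hw.comp continuous_snd
  refine (h1.sub h3).div (continuous_const.sub (h4.mul h5)) fun p => ?_
  exact gx_den (FTY_cc hv) (FT_norm_ex _) (FT_norm_inv (FT_norm_ex _))

theorem FTY_mu_cont {v : ℝ} (hv : 1 < v) : Continuous fun φ : ℝ => mu v (ex φ) := by
  unfold mu
  have hw := FTY_ann_cont (ww_ann (FTY_cc hv))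
  refine ((FTY_ann_cont (bq_ann hv)).mul hw).div ((continuous_const.sub hw).mul FT_ex_cont)
    fun φ => ?_
  exact mul_ne_zero (FTY_w1 hv (FT_norm_ex _)) (FT_ne (FT_norm_ex _))

theorem FTY_mu_cont' {v : ℝ} (hv : 1 < v) : Continuous fun φ : ℝ => mu v (ex φ)⁻¹ := by
  have h : (fun φ : ℝ => mu v (ex φ)⁻¹) = fun φ : ℝ => mu v (ex (-φ)) := by
    funext φ
    congr 1
    unfold ex
    rw [← Complex.exp_neg]
    congr 1
    push_cast
    ring
  rw [h]
  exact (FTY_mu_cont hv).comp continuous_neg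

theorem FTY_ex_arg {x : ℂ} (hx : ‖x‖ = 1) : ex (Complex.arg x) = x := by
  unfold ex
  rw [mul_comm]
  have := Complex.norm_mul_exp_arg_mul_I x
  rwa [hx, Complex.ofReal_one, one_mul] at this

/-! ### the statements -/

theorem ft_Y0 {v : ℝ} (hv : 1 < v) {x y : ℂ} (hx : ‖x‖ = 1) (hy : ‖y‖ = 1) :
    ft (Y0 v) x y = 2 * tt v * mu v x * mu v y * gx (cc v) x y := by
  by_cases hxy : x * y = 1
  · -- both sides are continuous
    have hyi : y = (ex (Complex.arg x))⁻¹ := by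
      rw [FTY_ex_arg hx]
      exact eq_inv_of_mul_eq_one_right hxy
    set φ := Complex.arg x with hφ
    have hxe : x = ex φ := (FTY_ex_arg hx).symm
    have hL : Continuous fun ψ : ℝ => ft (Y0 v) (ex φ) (ex ψ)⁻¹ :=
      (ft_cont (FTY_Y0_LL hv)).comp (continuous_const.prodMk continuous_id)
    have hR : Continuous fun ψ : ℝ => 2 * tt v * mu v (ex φ) * mu v (ex ψ)⁻¹ *
        gx (cc v) (ex φ) (ex ψ)⁻¹ :=
      (continuous_const.mul (FTY_mu_cont' hv)).mul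
        ((FTY_gx_cont hv).comp (continuous_const.prodMk continuous_id))
    have hL' := (hL.tendsto φ).mono_left (nhdsWithin_le_nhds (s := {φ}ᶜ))
    have hR' := (hR.tendsto φ).mono_left (nhdsWithin_le_nhds (s := {φ}ᶜ))
    have hev : ∀ᶠ ψ in 𝓝[≠] φ, ft (Y0 v) (ex φ) (ex ψ)⁻¹ =
        2 * tt v * mu v (ex φ) * mu v (ex ψ)⁻¹ * gx (cc v) (ex φ) (ex ψ)⁻¹ := by
      have h1 : Set.Ioo (φ - 1) (φ + 1) ∈ 𝓝 φ := Ioo_mem_nhds (by linarith) (by linarith)
      filter_upwards [nhdsWithin_le_nhds h1, self_mem_nhdsWithin] with ψ hψ hne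
      refine FTY_Y0_off hv (FT_norm_ex _) (FT_norm_inv (FT_norm_ex _)) ?_
      intro h
      have h2 : ex φ = ex ψ := by
        have h3 := FT_ne (FT_norm_ex ψ)
        field_simp at h
        exact h
      unfold ex at h2
      rw [Complex.exp_eq_exp_iff_exists_int] at h2
      obtain ⟨n, hn⟩ := h2
      have h4 : (φ : ℂ) = ψ + n * (2 * π) := by
        have h5 : I * (φ : ℂ) = I * (ψ + n * (2 * π)) := by
          rw [hn]
          ring
        exact mul_left_cancel₀ I_ne_zero h5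
      have h6 : φ = ψ + n * (2 * π) := by exact_mod_cast h4
      have hπ := Real.pi_gt_three
      rcases lt_trichotomy n 0 with hn0 | hn0 | hn0
      · have : (n : ℝ) ≤ -1 := by exact_mod_cast (by omega : n ≤ -1)
        nlinarith [hψ.1, hψ.2]
      · subst hn0
        apply hne
        simp only [Set.mem_singleton_iff]
        rw [h6]
        simp
      · have : (1 : ℝ) ≤ n := by exact_mod_cast (by omega : 1 ≤ n)
        nlinarith [hψ.1, hψ.2]
    have := tendsto_nhds_unique (hL'.congr' hev) hR'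
    rw [hyi, hxe]
    exact this
  · exact FTY_Y0_off hv hx hy hxy

theorem fv_g0 {v : ℝ} (hv : 1 < v) {x : ℂ} (hx : ‖x‖ = 1) :
    fv (g0 v) x⁻¹ = 2 * s1 v * mu v x⁻¹ / (x * ww (cc v) x) := by
  have hx' := FT_norm_inv hx
  have h1 : Ann fun x => (s1 v : ℂ) * bq v x + c1 v * bp v x :=
    FTY_ann_lin (bq_ann hv) (bp_ann hv) _ _
  have h2 := fv_fc h1 0 hx'
  simp only [sub_zero, zpow_zero, one_mul] at h2
  have h3 : fv (g0 v) x⁻¹ = (s1 v : ℂ) * bq v x⁻¹ + c1 v * bp v x⁻¹ := h2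
  rw [h3, rho_eq hv hx']
  unfold mu
  have hw := FTY_w1 hv hx
  have hw0 := ww_ne (FTY_cc hv) hx
  have hx0 := FT_ne hx
  have hct := FTY_c1_tt v
  simp only [ww_inv]
  have h4 : (s1 v : ℂ) * bq v x⁻¹ + c1 v * (bq v x⁻¹ * (tt v * ((1 + ww (cc v) x) /
      (1 - ww (cc v) x)))) = bq v x⁻¹ * (s1 v + (c1 v * tt v) * ((1 + ww (cc v) x) /
      (1 - ww (cc v) x))) := by ring
  rw [h4, hct]
  field_simp
  ring

theorem fv_h0 {v : ℝ} (hv : 1 < v) (M : ℤ) (N : ℕ) {x : ℂ} (hx : ‖x‖ = 1) :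
    fv (h0 v M N) x = -(2 * s1 v) * x * (ww (cc v) x ^ N * x ^ M * mu v x) := by
  have h1 : Ann fun x => ww (cc v) x ^ N * ((s1 v : ℂ) * bq v x - c1 v * bp v x) := by
    have h2 := (FTY_ann_pow (ww_ann (FTY_cc hv)) N).mul
      (FTY_ann_lin (bq_ann hv) (bp_ann hv) (s1 v) (-(c1 v : ℂ)))
    have h3 : (fun x => ww (cc v) x ^ N * ((s1 v : ℂ) * bq v x - c1 v * bp v x)) =
        fun x => ww (cc v) x ^ N * ((s1 v : ℂ) * bq v x + -(c1 v : ℂ) * bp v x) := by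
      funext x
      ring
    rw [h3]
    exact h2
  have h2 : fv (h0 v M N) x = x ^ M * (ww (cc v) x ^ N * ((s1 v : ℂ) * bq v x - c1 v * bp v x)) :=
    fv_fc h1 M hx
  rw [h2, rho_eq hv hx]
  unfold mu
  have hw := FTY_w1 hv hx
  have hx0 := FT_ne hx
  have hct := FTY_c1_tt v
  have h4 : (s1 v : ℂ) * bq v x - c1 v * (bq v x * (tt v * ((1 + ww (cc v) x) /
      (1 - ww (cc v) x)))) = bq v x * (s1 v - (c1 v * tt v) * ((1 + ww (cc v) x) /
      (1 - ww (cc v) x))) := by ring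
  rw [h4, hct]
  field_simp
  ring

/-- `P` is conjugate to `k ∘ k`, by the factor `F = w^N x^M μ` -/
theorem ft_P0 {v : ℝ} (hv : 1 < v) (M : ℤ) (N : ℕ) (φ ψ : ℝ) :
    ft (P0 v M N) (ex φ) (ex ψ)⁻¹ =
      (ww (cc v) (ex φ) ^ N * ex φ ^ M * mu v (ex φ)) * kc (kk (cc v) M N) (kk (cc v) M N) φ ψ /
        (ww (cc v) (ex ψ) ^ N * ex ψ ^ M * mu v (ex ψ)) := by
  have hcc := FTY_cc hv
  have hwN : Ann fun x => ww (cc v) x ^ N := FTY_ann_pow (ww_ann hcc) N
  have hY := FTY_Y0_LL hv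
  have hφ := FT_norm_ex φ
  have hψ := FT_norm_ex ψ
  have hψ' := FT_norm_inv hψ
  have hA1 : LL (mm (Tz fun x => ww (cc v) x ^ N) (sft M (Y0 v))) :=
    LL_mm_left (Tz_BB hwN) (LL_sft hY M)
  have hA : LL (mm (mm (Tz fun x => ww (cc v) x ^ N) (sft M (Y0 v)))
      (Tz fun x => ww (cc v) x ^ N)) := LL_mm_right hA1 (Tz_BB hwN)
  unfold P0
  rw [ft_mm hA hY hφ hψ']
  unfold kc
  have h1 : ∀ θ : ℝ, ft (mm (mm (Tz fun x => ww (cc v) x ^ N) (sft M (Y0 v)))
      (Tz fun x => ww (cc v) x ^ N)) (ex φ) (ex θ) * ft (Y0 v) (ex θ)⁻¹ (ex ψ)⁻¹ =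
      ((ww (cc v) (ex φ) ^ N * ex φ ^ M * mu v (ex φ)) /
        (ww (cc v) (ex ψ) ^ N * ex ψ ^ M * mu v (ex ψ))) *
        (kk (cc v) M N φ θ * kk (cc v) M N θ ψ) := by
    intro θ
    have hθ := FT_norm_ex θ
    have hθ' := FT_norm_inv hθ
    rw [ft_mm_Tz hwN hA1 hφ hθ, ft_Tz_mm hwN (LL_sft hY M) hφ hθ, ft_sft M hφ hθ,
      ft_Y0 hv hφ hθ, ft_Y0 hv hθ' hψ', gx_inv_inv hcc hθ hψ, ww_inv]
    unfold kk rh sx
    have m1 := mu_mul_mu hv hθ
    have m2 := mu_mul_mu hv hψ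
    have hmu := mu_ne hv hψ
    have hx0 := FT_ne hφ
    have hy0 := FT_ne hψ
    have hz0 := FT_ne hθ
    have hwz := FTY_w2 hv hθ
    have hwy := FTY_w2 hv hψ
    have hwy0 := ww_ne hcc hψ
    have ht : (tt v : ℂ) ≠ 0 := by exact_mod_cast (FTY_tt hv).ne'
    set x := ex φ
    set y := ex ψ
    set z := ex θ
    set wx := ww (cc v) x
    set wy := ww (cc v) y
    set wz := ww (cc v) z
    have hyM := zpow_ne_zero M hy0
    have hwyN := pow_ne_zero N hwy0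
    rw [mul_zpow]
    have e1 : wx ^ N * (x ^ M * z ^ M * (2 * (tt v : ℂ) * mu v x * mu v z * gx (cc v) x z)) *
        wz ^ N * (2 * (tt v : ℂ) * mu v z⁻¹ * mu v y⁻¹ * (-gx (cc v) z y / (z * y))) =
        -(4 * (wx ^ N * x ^ M * mu v x) * (z ^ M * wz ^ N) * gx (cc v) x z * gx (cc v) z y /
          (z * y)) * ((tt v : ℂ) * (mu v z * mu v z⁻¹)) * ((tt v : ℂ) * (mu v y * mu v y⁻¹)) /
          mu v y := by
      field_simp
      ring
    rw [e1, m1, m2]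
    have hI : I * I = -1 := I_mul_I
    have e2 : (I * gx (cc v) x z * (wz / z) * (z ^ M * wz ^ N * (2 * wz / (1 - wz ^ 2)))) *
        (I * gx (cc v) z y * (wy / y) * (y ^ M * wy ^ N * (2 * wy / (1 - wy ^ 2)))) =
        (I * I) * (gx (cc v) x z * (wz / z) * (z ^ M * wz ^ N * (2 * wz / (1 - wz ^ 2))) *
        (gx (cc v) z y * (wy / y) * (y ^ M * wy ^ N * (2 * wy / (1 - wy ^ 2))))) := by
      ring
    rw [e2, hI]
    field_simp
    ring
  simp_rw [h1]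
  rw [intervalIntegral.integral_const_mul]
  ring

end

end IsingS2
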