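import Pool.Agent.Helper98.IS.Psi
import Pool.Agent.Helper98.IS.BW

/-!
# IS-13b: from a norm bound to the vacuum property
-/

namespace IsingS2

open Complex Set MeasureTheory Filter Topology IsingNB
open scoped Real Matrix

noncomputable section

private theorem vb_cM_pow {m : ℕ} (A : Matrix (Fin m) (Fin m) ℝ) (k : ℕ) : cM A ^ k = cM (A ^ k) := by
  have h := map_pow (Complex.ofRealHom.mapMatrix (m := Fin m)) A k
  exact h.symm

private theorem vb_re {m : ℕ} (A : Matrix (Fin m) (Fin m) ℝ) (u : Fin m → ℂ) (i : Fin m) :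
    ((cM A).mulVec u i).re = A.mulVec (fun j => (u j).re) i := by
  simp only [cM, Matrix.mulVec, dotProduct, Matrix.map_apply, Complex.re_sum]
  exact Finset.sum_congr rfl fun j _ => by simp

private theorem vb_im {m : ℕ} (A : Matrix (Fin m) (Fin m) ℝ) (u : Fin m → ℂ) (i : Fin m) :
    ((cM A).mulVec u i).im = A.mulVec (fun j => (u j).im) i := by
  simp only [cM, Matrix.mulVec, dotProduct, Matrix.map_apply, Complex.im_sum]
  exact Finset.sum_congr rfl fun j _ => by simp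

private theorem vb_real {v : ℝ} (hv : 1 < v) {m : ℕ} (x : Fin m → ℝ) (i : Fin m) :
    Tendsto (fun k : ℕ => (wm v m ^ k).mulVec x i) atTop (𝓝 0) := by
  obtain ⟨ρ, h0, h1, hρ⟩ := wm_contract hv
  set S : ℝ := ∑ j, x j ^ 2 with hS
  have hb : ∀ k : ℕ, ∑ j, ((wm v m ^ k).mulVec x j) ^ 2 ≤ (ρ ^ 2) ^ k * S := by
    intro k
    induction k with
    | zero => simp [hS]
    | succ k ih =>
      rw [pow_succ' (wm v m), ← Matrix.mulVec_mulVec]
      refine (hρ m _).trans ?_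
      calc ρ ^ 2 * ∑ j, ((wm v m ^ k).mulVec x j) ^ 2 ≤ ρ ^ 2 * ((ρ ^ 2) ^ k * S) :=
            mul_le_mul_of_nonneg_left ih (by positivity)
        _ = (ρ ^ 2) ^ (k + 1) * S := by ring
  have hlim : Tendsto (fun k : ℕ => (ρ ^ 2) ^ k * S) atTop (𝓝 0) := by
    have h2 : ρ ^ 2 < 1 := by nlinarith
    have := (tendsto_pow_atTop_nhds_zero_of_lt_one (by positivity) h2).mul_const S
    rwa [zero_mul] at this
  have hsq : Tendsto (fun k : ℕ => ((wm v m ^ k).mulVec x i) ^ 2) atTop (𝓝 0) := by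
    refine squeeze_zero (fun k => sq_nonneg _) (fun k => ?_) hlim
    exact (Finset.single_le_sum (f := fun j => ((wm v m ^ k).mulVec x j) ^ 2)
      (fun j _ => sq_nonneg _) (Finset.mem_univ i)).trans (hb k)
  have h3 := hsq.sqrt
  simp only [Real.sqrt_sq_eq_abs, Real.sqrt_zero] at h3
  exact (tendsto_zero_iff_abs_tendsto_zero _).2 h3

private theorem vb_w {v : ℝ} (hv : 1 < v) {m : ℕ} (u : Fin m → ℂ) :
    Tendsto (fun k : ℕ => (cM (wm v m) ^ k).mulVec u) atTop (𝓝 0) := by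
  rw [tendsto_pi_nhds]
  intro i
  have h1 := vb_real hv (fun j => (u j).re) i
  have h2 := vb_real hv (fun j => (u j).im) i
  have h3 : Tendsto (fun k : ℕ => (((wm v m ^ k).mulVec (fun j => (u j).re) i : ℝ) : ℂ) +
      (((wm v m ^ k).mulVec (fun j => (u j).im) i : ℝ) : ℂ) * I) atTop (𝓝 ((0 : ℝ) + (0 : ℝ) * I)) :=
    ((continuous_ofReal.tendsto 0).comp h1).add (((continuous_ofReal.tendsto 0).comp h2).mul_const I)
  simp only [ofReal_zero, zero_mul, add_zero] at h3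
  refine h3.congr fun k => ?_
  rw [vb_cM_pow, ← vb_re, ← vb_im]
  exact Complex.re_add_im _

section
variable {v : ℝ} {m n : ℕ} {f g : Fin m → Module.End ℂ (Sp n)}

private theorem vb_pow_ps (hv : 1 < v) (hC : CAR f g) (u : Fin m → ℂ) (k : ℕ) :
    VV v f g ^ k * ps v f g ((cM (wm v m) ^ k).mulVec u) = ps v f g u * VV v f g ^ k := by
  induction k with
  | zero => simp
  | succ k ih =>
    rw [pow_succ (VV v f g), pow_succ' (cM (wm v m)), ← Matrix.mulVec_mulVec, mul_assoc,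
      VV_mul_ps hv hC, ← mul_assoc, ih, mul_assoc]

private theorem vb_pow_psd (hv : 1 < v) (hC : CAR f g) (u : Fin m → ℂ) (k : ℕ) :
    VV v f g ^ k * psd v f g u = psd v f g ((cM (wm v m) ^ k).mulVec u) * VV v f g ^ k := by
  induction k with
  | zero => simp
  | succ k ih =>
    rw [pow_succ' (VV v f g), mul_assoc, ih, ← mul_assoc, VV_mul_psd hv hC, Matrix.mulVec_mulVec,
      ← pow_succ', mul_assoc]

private theorem vb_norm {Λ : ℝ}
    (hb : ∀ x : Sp n, ∑ σ, ‖VV v f g x σ‖ ^ 2 ≤ Λ ^ 2 * ∑ σ, ‖x σ‖ ^ 2) (x : Sp n) (k : ℕ) :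
    ∑ σ, ‖(VV v f g ^ k) x σ‖ ^ 2 ≤ (Λ ^ 2) ^ k * ∑ σ, ‖x σ‖ ^ 2 := by
  induction k with
  | zero => simp
  | succ k ih =>
    rw [pow_succ' (VV v f g)]
    refine (hb _).trans ?_
    calc Λ ^ 2 * ∑ σ, ‖(VV v f g ^ k) x σ‖ ^ 2 ≤ Λ ^ 2 * ((Λ ^ 2) ^ k * ∑ σ, ‖x σ‖ ^ 2) :=
          mul_le_mul_of_nonneg_left ih (by positivity)
      _ = (Λ ^ 2) ^ (k + 1) * ∑ σ, ‖x σ‖ ^ 2 := by ring

/-- the linear map `u ↦ ps u x` -/
private def vbPs (v : ℝ) (f g : Fin m → Module.End ℂ (Sp n)) (x : Sp n) : (Fin m → ℂ) →ₗ[ℂ] Sp n where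
  toFun u := ps v f g u x
  map_add' u u' := by rw [ps_add]; rfl
  map_smul' r u := by rw [ps_smul]; rfl

/-- the linear map `u ↦ psd u x` -/
private def vbPsd (v : ℝ) (f g : Fin m → Module.End ℂ (Sp n)) (x : Sp n) : (Fin m → ℂ) →ₗ[ℂ] Sp n where
  toFun u := psd v f g u x
  map_add' u u' := by rw [psd_add]; rfl
  map_smul' r u := by rw [psd_smul]; rfl

end

/-- from a norm bound to the vacuum property -/
theorem vac_of_bound {v : ℝ} (hv : 1 < v) {m n : ℕ} {f g : Fin m → Module.End ℂ (Sp n)}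
    (hC : CAR f g) {Ω : Sp n} {Λ : ℝ} (hΛ : 0 < Λ) (hΩ : VV v f g Ω = (Λ : ℂ) • Ω)
    (hn : ∑ σ, Ω σ * Ω σ = 1)
    (hsym : ∀ x y : Sp n, ∑ σ, VV v f g x σ * y σ = ∑ σ, x σ * VV v f g y σ)
    (hb : ∀ x : Sp n, ∑ σ, ‖VV v f g x σ‖ ^ 2 ≤ Λ ^ 2 * ∑ σ, ‖x σ‖ ^ 2) :
    Vac v f g Ω (pair Ω) Λ := by
  have hΛ0 : (Λ : ℂ) ≠ 0 := by exact_mod_cast hΛ.ne'
  have heig' : ∀ x, pair Ω (VV v f g x) = (Λ : ℂ) * pair Ω x := by
    intro x
    change ∑ σ, Ω σ * VV v f g x σ = (Λ : ℂ) * ∑ σ, Ω σ * x σ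
    rw [← hsym Ω x, hΩ, Finset.mul_sum]
    exact Finset.sum_congr rfl fun σ _ => by simp [mul_assoc]
  have hpow : ∀ k : ℕ, (VV v f g ^ k) Ω = (Λ : ℂ) ^ k • Ω := by
    intro k
    induction k with
    | zero => simp
    | succ k ih =>
      rw [pow_succ' (VV v f g)]
      change VV v f g ((VV v f g ^ k) Ω) = _
      rw [ih, map_smul, hΩ, smul_smul, pow_succ]
  have hpow' : ∀ (k : ℕ) (x : Sp n), pair Ω ((VV v f g ^ k) x) = (Λ : ℂ) ^ k * pair Ω x := by
    intro k x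
    induction k with
    | zero => simp
    | succ k ih =>
      rw [pow_succ' (VV v f g)]
      change pair Ω (VV v f g ((VV v f g ^ k) x)) = _
      rw [heig', ih, pow_succ]
      ring
  refine ⟨hΛ0, hΩ, heig', hn, ?_, ?_⟩
  · intro u
    -- the norm of `ps u Ω` is at most the norm of `ps (w^k u) Ω`
    have h1 : ∀ k : ℕ, ∑ σ, ‖ps v f g u Ω σ‖ ^ 2 ≤
        ∑ σ, ‖ps v f g ((cM (wm v m) ^ k).mulVec u) Ω σ‖ ^ 2 := by
      intro k
      have e1 : (VV v f g ^ k) (ps v f g ((cM (wm v m) ^ k).mulVec u) Ω) =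
          (Λ : ℂ) ^ k • ps v f g u Ω := by
        have e2 := LinearMap.congr_fun (vb_pow_ps hv hC u k) Ω
        change (VV v f g ^ k) (ps v f g ((cM (wm v m) ^ k).mulVec u) Ω) =
          ps v f g u ((VV v f g ^ k) Ω) at e2
        rw [e2, hpow, map_smul]
      have e3 := vb_norm hb (ps v f g ((cM (wm v m) ^ k).mulVec u) Ω) k
      rw [e1] at e3
      have e4 : ∑ σ, ‖((Λ : ℂ) ^ k • ps v f g u Ω) σ‖ ^ 2 =
          (Λ ^ 2) ^ k * ∑ σ, ‖ps v f g u Ω σ‖ ^ 2 := by
        rw [Finset.mul_sum]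
        refine Finset.sum_congr rfl fun σ _ => ?_
        rw [Pi.smul_apply, norm_smul, norm_pow, Complex.norm_real, Real.norm_eq_abs,
          abs_of_pos hΛ, mul_pow, ← pow_mul, ← pow_mul, mul_comm k 2]
      rw [e4] at e3
      exact le_of_mul_le_mul_left e3 (by positivity)
    have h2 : Tendsto (fun k : ℕ => ∑ σ, ‖ps v f g ((cM (wm v m) ^ k).mulVec u) Ω σ‖ ^ 2) atTop
        (𝓝 0) := by
      have h3 : Continuous (fun u : Fin m → ℂ => vbPs v f g Ω u) :=
        LinearMap.continuous_of_finiteDimensional _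
      have h4 : Continuous (fun u : Fin m → ℂ => ∑ σ, ‖ps v f g u Ω σ‖ ^ 2) :=
        continuous_finset_sum _ fun σ _ => (((continuous_apply σ).comp h3).norm).pow 2
      have h5 := (h4.tendsto 0).comp (vb_w hv u)
      have e0 : ps v f g (0 : Fin m → ℂ) Ω = 0 := (vbPs v f g Ω).map_zero
      have e1 : ∑ σ, ‖ps v f g (0 : Fin m → ℂ) Ω σ‖ ^ 2 = 0 := by rw [e0]; simp
      rw [e1] at h5
      exact h5
    have h6 : ∑ σ, ‖ps v f g u Ω σ‖ ^ 2 ≤ 0 := ge_of_tendsto' h2 h1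
    funext σ
    have h7 : ‖ps v f g u Ω σ‖ ^ 2 ≤ 0 :=
      (Finset.single_le_sum (f := fun σ => ‖ps v f g u Ω σ‖ ^ 2) (fun σ _ => sq_nonneg _)
        (Finset.mem_univ σ)).trans h6
    have h8 : ‖ps v f g u Ω σ‖ = 0 := by nlinarith [norm_nonneg (ps v f g u Ω σ)]
    simpa using h8
  · intro u x
    -- bounded vectors
    set y : ℕ → Sp n := fun k => ((Λ : ℂ) ^ k)⁻¹ • (VV v f g ^ k) x with hy
    have hyb : ∀ k σ, ‖y k σ‖ ≤ Real.sqrt (∑ σ, ‖x σ‖ ^ 2) := by
      intro k σ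
      refine Real.le_sqrt_of_sq_le ?_
      have e1 := vb_norm hb x k
      have e2 : ‖(VV v f g ^ k) x σ‖ ^ 2 ≤ (Λ ^ 2) ^ k * ∑ σ, ‖x σ‖ ^ 2 :=
        (Finset.single_le_sum (f := fun σ => ‖(VV v f g ^ k) x σ‖ ^ 2) (fun σ _ => sq_nonneg _)
          (Finset.mem_univ σ)).trans e1
      have e3 : ‖y k σ‖ ^ 2 = ((Λ ^ 2) ^ k)⁻¹ * ‖(VV v f g ^ k) x σ‖ ^ 2 := by
        rw [hy]
        simp only [Pi.smul_apply, norm_smul, norm_inv, norm_pow, Complex.norm_real,
          Real.norm_eq_abs, abs_of_pos hΛ]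
        rw [mul_pow, inv_pow, ← pow_mul, ← pow_mul, mul_comm k 2]
      rw [e3, inv_mul_le_iff₀ (by positivity)]
      exact e2
    have hk : ∀ k : ℕ, pair Ω (psd v f g u x) =
        pair Ω (psd v f g ((cM (wm v m) ^ k).mulVec u) (y k)) := by
      intro k
      have e1 := LinearMap.congr_fun (vb_pow_psd hv hC u k) x
      change (VV v f g ^ k) (psd v f g u x) =
        psd v f g ((cM (wm v m) ^ k).mulVec u) ((VV v f g ^ k) x) at e1
      have e2 := hpow' k (psd v f g u x)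
      rw [e1] at e2
      rw [hy]
      simp only [map_smul, smul_eq_mul]
      rw [e2, inv_mul_cancel_left₀ (pow_ne_zero k hΛ0)]
    -- expansion in coordinates
    have hexp : ∀ (u' : Fin m → ℂ) (z : Sp n), pair Ω (psd v f g u' z) =
        ∑ j, ∑ σ, u' j * (z σ * pair Ω (psd v f g (Pi.single j 1) (Pi.single σ 1))) := by
      intro u' z
      have e1 : psd v f g u' z = ∑ j, u' j • psd v f g (Pi.single j 1) z := by
        have e2 : u' = ∑ j, u' j • (Pi.single j 1 : Fin m → ℂ) := by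
          funext i
          simp [Finset.sum_apply, Pi.single_apply]
        have e3 := congrArg (vbPsd v f g z) e2
        rw [map_sum] at e3
        simp only [map_smul] at e3
        exact e3
      rw [e1, map_sum]
      refine Finset.sum_congr rfl fun j _ => ?_
      rw [map_smul, smul_eq_mul, ← Finset.mul_sum]
      congr 1
      have e4 : z = ∑ σ, z σ • (Pi.single σ 1 : Sp n) := by
        funext τ
        simp [Finset.sum_apply, Pi.single_apply]
      conv_lhs => rw [e4]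
      rw [map_sum, map_sum]
      exact Finset.sum_congr rfl fun σ _ => by rw [map_smul, map_smul, smul_eq_mul]
    have hlim : Tendsto (fun k : ℕ => pair Ω (psd v f g ((cM (wm v m) ^ k).mulVec u) (y k))) atTop
        (𝓝 0) := by
      have h1 : ∀ (j : Fin m) (σ : Fin n → Bool), Tendsto (fun k : ℕ =>
          (cM (wm v m) ^ k).mulVec u j *
            (y k σ * pair Ω (psd v f g (Pi.single j 1) (Pi.single σ 1)))) atTop (𝓝 0) := by
        intro j σ
        have h2 : Tendsto (fun k : ℕ => (cM (wm v m) ^ k).mulVec u j) atTop (𝓝 0) :=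
          (tendsto_pi_nhds.1 (vb_w hv u)) j
        refine h2.zero_mul_isBoundedUnder_le ?_
        refine isBoundedUnder_of ⟨Real.sqrt (∑ σ, ‖x σ‖ ^ 2) *
          ‖pair Ω (psd v f g (Pi.single j 1) (Pi.single σ 1))‖, fun k => ?_⟩
        simp only [Function.comp_apply, norm_mul]
        exact mul_le_mul_of_nonneg_right (hyb k σ) (norm_nonneg _)
      have h3 := tendsto_finset_sum Finset.univ fun j (_ : j ∈ Finset.univ) =>
        tendsto_finset_sum Finset.univ fun σ (_ : σ ∈ Finset.univ) => h1 j σ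
      simp only [Finset.sum_const_zero] at h3
      exact h3.congr fun k => (hexp _ _).symm
    have h9 : Tendsto (fun _ : ℕ => pair Ω (psd v f g u x)) atTop (𝓝 0) :=
      hlim.congr fun k => (hk k).symm
    exact tendsto_nhds_unique tendsto_const_nhds h9

end

end IsingS2
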