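import Pool.Agent.Helper98.IS.Spin
import Pool.Agent.Helper98.IS.Coupling
import Pool.Agent.Helper98.IS.ChainSpin
import Pool.Agent.Helper98.IS.ChainSpinB
import Pool.Agent.Helper98.IS.Psi
import Pool.Agent.Helper98.IS.VacBound

/-!
# IS-16: the high temperature strip

The transfer matrix `V = D B D` of the strip with free boundary is conjugate to the transfer operator
of the chain.  With `E` the real symmetric positive matrix of `exp (κs/2 Σ X_a)`, `D` the diagonal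
matrix of the square roots of the weights and `B = E D` one has `V = ν Bᵀ B` and `VV = B Bᵀ`.
-/

namespace IsingS2

open Complex Set MeasureTheory Filter Topology IsingNB
open scoped Real Matrix

noncomputable section

/-! ### operators of real matrices -/

theorem hT_opM_apply {n : ℕ} (M : Matrix (Fin n → Bool) (Fin n → Bool) ℝ) (x : Sp n)
    (σ : Fin n → Bool) : opM M x σ = ∑ τ, (M σ τ : ℂ) * x τ := by
  simp [opM, Matrix.mulVec, dotProduct]

theorem hT_opM_ofReal {n : ℕ} (M : Matrix (Fin n → Bool) (Fin n → Bool) ℝ)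
    (y : (Fin n → Bool) → ℝ) :
    opM M (fun σ => (y σ : ℂ)) = fun σ => ((M.mulVec y σ : ℝ) : ℂ) := by
  funext σ
  rw [hT_opM_apply]
  simp [Matrix.mulVec, dotProduct]

theorem hT_opM_smul {n : ℕ} (r : ℝ) (M : Matrix (Fin n → Bool) (Fin n → Bool) ℝ) :
    opM (r • M) = (r : ℂ) • opM M := by
  apply LinearMap.ext
  intro x
  funext σ
  rw [LinearMap.smul_apply, Pi.smul_apply, hT_opM_apply, hT_opM_apply, smul_eq_mul,
    Finset.mul_sum]
  apply Finset.sum_congr rfl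
  intro τ _
  rw [Matrix.smul_apply, smul_eq_mul]
  push_cast
  ring

theorem hT_opM_one {n : ℕ} : opM (1 : Matrix (Fin n → Bool) (Fin n → Bool) ℝ) = 1 := by
  apply LinearMap.ext
  intro x
  funext σ
  rw [hT_opM_apply, Finset.sum_eq_single σ]
  · simp
  · intro τ _ h
    simp [Matrix.one_apply_ne (Ne.symm h)]
  · intro h
    exact absurd (Finset.mem_univ σ) h

theorem hT_opM_pow {n : ℕ} (M : Matrix (Fin n → Bool) (Fin n → Bool) ℝ) (N : ℕ) :
    opM (M ^ N) = opM M ^ N := by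
  induction N with
  | zero => rw [pow_zero, pow_zero, hT_opM_one]
  | succ N ih => rw [pow_succ, pow_succ, opM_mul, ih]

theorem hT_opM_inj {n : ℕ} {A B : Matrix (Fin n → Bool) (Fin n → Bool) ℝ}
    (h : opM A = opM B) : A = B := by
  ext σ τ
  have h1 : opM A (Pi.single τ 1) σ = opM B (Pi.single τ 1) σ := by rw [h]
  rw [hT_opM_apply, hT_opM_apply] at h1
  simp [Pi.single_apply] at h1
  exact h1

theorem hT_mulO {n : ℕ} (F : (Fin n → Bool) → ℝ) : mulO F = opM (Matrix.diagonal F) := by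
  apply LinearMap.ext
  intro x
  funext σ
  rw [hT_opM_apply, Finset.sum_eq_single σ]
  · simp [mulO]
  · intro τ _ h
    simp [Matrix.diagonal_apply_ne _ (Ne.symm h)]
  · intro h
    exact absurd (Finset.mem_univ σ) h

theorem hT_Zo {n : ℕ} (a : Fin (n + 1)) : Zo a = opM (Zd n a) := by
  unfold Zd
  rw [← hT_mulO]
  rfl

/-! ### the norm bound -/

theorem hT_dot_mulVec {ι : Type*} [Fintype ι] (B : Matrix ι ι ℝ) (x y : ι → ℝ) :
    (B.mulVec x) ⬝ᵥ y = x ⬝ᵥ (Bᵀ.mulVec y) := by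
  rw [Matrix.mulVec_transpose, dotProduct_comm, Matrix.dotProduct_mulVec, dotProduct_comm]

theorem hT_cs {ι : Type*} [Fintype ι] (x y : ι → ℝ) : (x ⬝ᵥ y) ^ 2 ≤ (x ⬝ᵥ x) * (y ⬝ᵥ y) := by
  have := Finset.sum_mul_sq_le_sq_mul_sq Finset.univ x y
  simpa [dotProduct, sq] using this

theorem hT_self_nonneg {ι : Type*} [Fintype ι] (x : ι → ℝ) : 0 ≤ x ⬝ᵥ x :=
  Finset.sum_nonneg fun _ _ => mul_self_nonneg _

theorem hT_bound {ι : Type*} [Fintype ι] [DecidableEq ι] (B : Matrix ι ι ℝ) {L : ℝ} (hL : 0 ≤ L)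
    (h : ∀ x : ι → ℝ, ((Bᵀ * B).mulVec x) ⬝ᵥ ((Bᵀ * B).mulVec x) ≤ L ^ 2 * (x ⬝ᵥ x))
    (y : ι → ℝ) : ((B * Bᵀ).mulVec y) ⬝ᵥ ((B * Bᵀ).mulVec y) ≤ L ^ 2 * (y ⬝ᵥ y) := by
  have h2 : ∀ x : ι → ℝ, (B.mulVec x) ⬝ᵥ (B.mulVec x) ≤ L * (x ⬝ᵥ x) := by
    intro x
    have e1 : (B.mulVec x) ⬝ᵥ (B.mulVec x) = x ⬝ᵥ ((Bᵀ * B).mulVec x) := by
      rw [hT_dot_mulVec, Matrix.mulVec_mulVec]
    have h3 := hT_cs x ((Bᵀ * B).mulVec x)
    rw [← e1] at h3
    have h4 : ((B.mulVec x) ⬝ᵥ (B.mulVec x)) ^ 2 ≤ (L * (x ⬝ᵥ x)) ^ 2 := by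
      refine h3.trans ?_
      have := mul_le_mul_of_nonneg_left (h x) (hT_self_nonneg x)
      nlinarith [this]
    exact (le_abs_self _).trans (abs_le_of_sq_le_sq h4 (mul_nonneg hL (hT_self_nonneg x)))
  have h3 : (Bᵀ.mulVec y) ⬝ᵥ (Bᵀ.mulVec y) ≤ L * (y ⬝ᵥ y) := by
    have e1 : (Bᵀ.mulVec y) ⬝ᵥ (Bᵀ.mulVec y) = y ⬝ᵥ (B.mulVec (Bᵀ.mulVec y)) := by
      rw [hT_dot_mulVec, Matrix.transpose_transpose]
    have h4 := hT_cs y (B.mulVec (Bᵀ.mulVec y))
    rw [← e1] at h4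
    have h5 := mul_le_mul_of_nonneg_left (h2 (Bᵀ.mulVec y)) (hT_self_nonneg y)
    rcases (hT_self_nonneg (Bᵀ.mulVec y)).eq_or_lt with h6 | h6
    · rw [← h6]
      exact mul_nonneg hL (hT_self_nonneg y)
    · have h7 : ((Bᵀ.mulVec y) ⬝ᵥ (Bᵀ.mulVec y)) * ((Bᵀ.mulVec y) ⬝ᵥ (Bᵀ.mulVec y)) ≤
          (L * (y ⬝ᵥ y)) * ((Bᵀ.mulVec y) ⬝ᵥ (Bᵀ.mulVec y)) := by
        nlinarith [h4, h5]
      exact le_of_mul_le_mul_right h7 h6
  have h4 := h2 (Bᵀ.mulVec y)
  rw [Matrix.mulVec_mulVec] at h4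
  refine h4.trans ?_
  have h5 := mul_le_mul_of_nonneg_left h3 hL
  nlinarith [h5]

theorem hT_opM_norm {n : ℕ} (M : Matrix (Fin n → Bool) (Fin n → Bool) ℝ) {L : ℝ}
    (h : ∀ x : (Fin n → Bool) → ℝ, (M.mulVec x) ⬝ᵥ (M.mulVec x) ≤ L ^ 2 * (x ⬝ᵥ x)) (x : Sp n) :
    ∑ σ, ‖opM M x σ‖ ^ 2 ≤ L ^ 2 * ∑ σ, ‖x σ‖ ^ 2 := by
  have e1 : ∀ σ, ‖opM M x σ‖ ^ 2 = (M.mulVec (fun τ => (x τ).re) σ) ^ 2 +
      (M.mulVec (fun τ => (x τ).im) σ) ^ 2 := by
    intro σ
    rw [← Complex.normSq_eq_norm_sq, Complex.normSq_apply, hT_opM_apply]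
    simp only [Complex.re_sum, Complex.im_sum, Complex.re_ofReal_mul, Complex.im_ofReal_mul,
      Matrix.mulVec, dotProduct]
    ring
  have e2 : ∀ σ, ‖x σ‖ ^ 2 = (x σ).re ^ 2 + (x σ).im ^ 2 := by
    intro σ
    rw [← Complex.normSq_eq_norm_sq, Complex.normSq_apply]
    ring
  simp only [e1, e2]
  rw [Finset.sum_add_distrib, Finset.sum_add_distrib]
  have h1 := h (fun τ => (x τ).re)
  have h2 := h (fun τ => (x τ).im)
  simp only [dotProduct, ← sq] at h1 h2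
  linarith

/-! ### spin operators -/

theorem hT_Xo_apply {n : ℕ} (a : Fin n) (φ : Sp n) (σ : Fin n → Bool) :
    Xo a φ σ = φ (Function.update σ a (!(σ a))) := rfl

theorem hT_Zo_apply {n : ℕ} (a : Fin n) (φ : Sp n) (σ : Fin n → Bool) :
    Zo a φ σ = (sg (σ a) : ℂ) * φ σ := rfl

theorem hT_XX {n : ℕ} (a b : Fin n) : Commute (Xo a) (Xo b) := by
  show Xo a * Xo b = Xo b * Xo a
  apply LinearMap.ext
  intro φ
  funext σ
  show φ _ = φ _
  congr 1
  by_cases h : a = b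
  · subst h
    rfl
  · rw [Function.update_of_ne (Ne.symm h), Function.update_of_ne h]
    exact Function.update_comm h _ _ _

theorem hT_XZ {n : ℕ} {a b : Fin n} (h : a ≠ b) : Commute (Xo a) (Zo b) := by
  show Xo a * Zo b = Zo b * Xo a
  apply LinearMap.ext
  intro φ
  funext σ
  show (sg (Function.update σ a (!(σ a)) b) : ℂ) * φ _ = (sg (σ b) : ℂ) * φ _
  rw [Function.update_of_ne (Ne.symm h)]

theorem hT_ZX {n : ℕ} (a : Fin n) : Zo a * Xo a = (-1 : ℂ) • (Xo a * Zo a) := by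
  apply LinearMap.ext
  intro φ
  funext σ
  show (sg (σ a) : ℂ) * φ (Function.update σ a (!(σ a))) =
    (-1 : ℂ) * ((sg (Function.update σ a (!(σ a)) a) : ℂ) * φ (Function.update σ a (!(σ a))))
  rw [Function.update_self]
  cases σ a <;> simp [sg]

theorem hT_X_sq {n : ℕ} (a : Fin n) : Xo a * Xo a = 1 := by
  apply LinearMap.ext
  intro φ
  funext σ
  show φ (Function.update (Function.update σ a (!(σ a))) a
    (!(Function.update σ a (!(σ a)) a))) = φ σ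
  congr 1
  rw [Function.update_self, Bool.not_not, Function.update_idem, Function.update_eq_self]

/-- `e Z_a = (c + s X_a) Z_a e` over a list -/
theorem hT_eZ {n : ℕ} (κ : ℝ) (a : Fin n) (l : List (Fin n)) (hl : l.Nodup) :
    (a ∉ l → Commute ((l.map fun b : Fin n => ((Real.cosh κ : ℝ) : ℂ) • (1 : Module.End ℂ (Sp n)) +
      ((Real.sinh κ : ℝ) : ℂ) • Xo b).prod) (Zo a)) ∧
    (a ∈ l → (l.map fun b : Fin n => ((Real.cosh κ : ℝ) : ℂ) • (1 : Module.End ℂ (Sp n)) +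
      ((Real.sinh κ : ℝ) : ℂ) • Xo b).prod * Zo a =
      (((Real.cosh (2 * κ) : ℝ) : ℂ) • Zo a + ((Real.sinh (2 * κ) : ℝ) : ℂ) • (Xo a * Zo a)) *
      (l.map fun b : Fin n => ((Real.cosh κ : ℝ) : ℂ) • (1 : Module.End ℂ (Sp n)) +
      ((Real.sinh κ : ℝ) : ℂ) • Xo b).prod) := by
  induction l with
  | nil => exact ⟨fun _ => by simp, fun h => by simp at h⟩
  | cons b l ih =>
    rw [List.nodup_cons] at hl
    obtain ⟨ih1, ih2⟩ := ih hl.2
    have hcomm : a ≠ b → Commute (((Real.cosh κ : ℝ) : ℂ) • (1 : Module.End ℂ (Sp n)) +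
        ((Real.sinh κ : ℝ) : ℂ) • Xo b) (Zo a) := fun hab =>
      ((Commute.one_left (Zo a)).smul_left _).add_left ((hT_XZ (Ne.symm hab)).smul_left _)
    have hcomm2 : Commute (((Real.cosh κ : ℝ) : ℂ) • (1 : Module.End ℂ (Sp n)) +
        ((Real.sinh κ : ℝ) : ℂ) • Xo b) (Xo a) :=
      ((Commute.one_left (Xo a)).smul_left _).add_left ((hT_XX b a).smul_left _)
    constructor
    · intro h
      rw [List.mem_cons, not_or] at h
      rw [List.map_cons, List.prod_cons]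
      exact (hcomm h.1).mul_left (ih1 h.2)
    · intro h
      rw [List.map_cons, List.prod_cons]
      by_cases hab : a = b
      · subst hab
        have h1 := ih1 hl.1
        rw [mul_assoc, h1.eq, ← mul_assoc, ← mul_assoc]
        congr 1
        -- (ch + sh X) Z = (C + S X) Z (ch + sh X)
        have e1 : (((Real.cosh (2 * κ) : ℝ) : ℂ) • Zo a +
            ((Real.sinh (2 * κ) : ℝ) : ℂ) • (Xo a * Zo a)) *
            (((Real.cosh κ : ℝ) : ℂ) • (1 : Module.End ℂ (Sp n)) + ((Real.sinh κ : ℝ) : ℂ) • Xo a) =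
            (((Real.cosh (2 * κ) * Real.cosh κ - Real.sinh (2 * κ) * Real.sinh κ : ℝ) : ℂ)) • Zo a +
            ((Real.sinh (2 * κ) * Real.cosh κ - Real.cosh (2 * κ) * Real.sinh κ : ℝ) : ℂ) •
              (Xo a * Zo a) := by
          have e2 : Xo a * Zo a * Xo a = (-1 : ℂ) • Zo a := by
            rw [mul_assoc, hT_ZX, mul_smul_comm, ← mul_assoc, hT_X_sq, one_mul]
          simp only [add_mul, mul_add, smul_mul_assoc, mul_smul_comm, mul_one, e2, hT_ZX]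
          push_cast
          module
        rw [e1, add_mul, smul_mul_assoc, smul_mul_assoc, one_mul]
        have h2 : Real.cosh (2 * κ) * Real.cosh κ - Real.sinh (2 * κ) * Real.sinh κ =
            Real.cosh κ := by
          rw [← Real.cosh_sub]
          congr 1
          ring
        have h3 : Real.sinh (2 * κ) * Real.cosh κ - Real.cosh (2 * κ) * Real.sinh κ =
            Real.sinh κ := by
          rw [← Real.sinh_sub]
          congr 1
          ring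
        rw [h2, h3]
      · have hal : a ∈ l := by
          rcases List.mem_cons.1 h with h | h
          · exact absurd h hab
          · exact h
        rw [mul_assoc, ih2 hal, ← mul_assoc, ← mul_assoc]
        congr 1
        have h1 := hcomm hab
        have h2 : Commute (((Real.cosh κ : ℝ) : ℂ) • (1 : Module.End ℂ (Sp n)) +
          ((Real.sinh κ : ℝ) : ℂ) • Xo b) (((Real.cosh (2 * κ) : ℝ) : ℂ) • Zo a +
            ((Real.sinh (2 * κ) : ℝ) : ℂ) • (Xo a * Zo a)) :=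
          (h1.smul_right _).add_right ((hcomm2.mul_right h1).smul_right _)
        exact h2.eq

theorem hT_eX_Z {n : ℕ} (κ : ℝ) (a : Fin n) :
    eX κ n * Zo a = (((Real.cosh (2 * κ) : ℝ) : ℂ) • Zo a +
      ((Real.sinh (2 * κ) : ℝ) : ℂ) • (Xo a * Zo a)) * eX κ n :=
  (hT_eZ κ a (List.finRange n) (List.nodup_finRange n)).2 (List.mem_finRange a)

theorem hT_Oa_eq {n : ℕ} (a : ℕ) : Oa a (pM (n := n)) qM =
    ((List.finRange n).map fun k : Fin n => if (k : ℕ) < a then Xo k else 1).prod := by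
  unfold Oa
  congr 1
  apply List.map_congr_left
  intro k _
  split_ifs
  · exact pM_mul_qM k
  · rfl

theorem hT_Oa_Str {n : ℕ} (a : Fin n) : Oa (a : ℕ) (pM (n := n)) qM = Str a := by
  rw [hT_Oa_eq]
  rfl

theorem hT_Str_Z {n : ℕ} (a : Fin n) : Commute (Str a) (Zo a) := by
  unfold Str
  apply Commute.symm
  apply Commute.list_prod_right
  intro y hy
  rw [List.mem_map] at hy
  obtain ⟨b, _, rfl⟩ := hy
  split_ifs with h
  · exact (hT_XZ h.ne).symm
  · exact Commute.one_right _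

theorem hT_Str_X {n : ℕ} (a : Fin n) : Commute (Str a) (Xo a) := by
  unfold Str
  apply Commute.symm
  apply Commute.list_prod_right
  intro y hy
  rw [List.mem_map] at hy
  obtain ⟨b, _, rfl⟩ := hy
  split_ifs with h
  · exact hT_XX _ _
  · exact Commute.one_right _

theorem hT_Str_sq {n : ℕ} (a : Fin n) : Str a * Str a = 1 := by
  have := Oa_sq (car_spin n) (a : ℕ)
  rwa [hT_Oa_Str] at this

/-- the dressed spin operator -/
def hT_T (v : ℝ) {n : ℕ} (a : Fin n) : Module.End ℂ (Sp n) :=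
  ((c1 v : ℝ) : ℂ) • Zo a + ((s1 v : ℝ) : ℂ) • (Xo a * Zo a)

theorem hT_Xi (v : ℝ) {n : ℕ} (a : Fin n) :
    Xi v (pM (n := n)) qM a = Str a * hT_T v a := by
  unfold Xi hT_T pM qM
  rw [mul_smul_comm, smul_smul, mul_add, mul_smul_comm, mul_smul_comm]
  have h : I * (s1 v : ℂ) * I = -(s1 v : ℂ) := by
    rw [mul_comm I, mul_assoc, I_mul_I]
    ring
  rw [h, neg_smul, sub_neg_eq_add]

theorem hT_Oa_Xi (v : ℝ) {n : ℕ} (a : Fin n) :
    Oa (a : ℕ) (pM (n := n)) qM * Xi v pM qM a = hT_T v a := by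
  rw [hT_Xi, hT_Oa_Str, ← mul_assoc, hT_Str_sq, one_mul]

theorem hT_Xi_Oa (v : ℝ) {n : ℕ} (a : Fin n) :
    Xi v pM qM a * Oa (a : ℕ) (pM (n := n)) qM = hT_T v a := by
  rw [hT_Xi, hT_Oa_Str]
  have h1 : Commute (Str a) (hT_T v a) := by
    unfold hT_T
    exact ((hT_Str_Z a).smul_right _).add_right
      (((hT_Str_X a).mul_right (hT_Str_Z a)).smul_right _)
  rw [h1.eq, mul_assoc, hT_Str_sq, mul_one]

/-! ### positive vectors -/

/-- a complex vector with positive real entries -/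
def hT_Pos {n : ℕ} (x : Sp n) : Prop :=
  ∃ y : (Fin n → Bool) → ℝ, (∀ σ, 0 < y σ) ∧ x = fun σ => (y σ : ℂ)

theorem hT_Pos_Xo {n : ℕ} (a : Fin n) {x : Sp n} (hx : hT_Pos x) : hT_Pos (Xo a x) := by
  obtain ⟨y, hy, rfl⟩ := hx
  exact ⟨fun σ => y (Function.update σ a (!(σ a))), fun σ => hy _, rfl⟩

theorem hT_Pos_list {n : ℕ} (P : Fin n → Prop) [DecidablePred P] (l : List (Fin n)) {x : Sp n}
    (hx : hT_Pos x) :
    hT_Pos ((l.map fun k : Fin n => if P k then Xo k else (1 : Module.End ℂ (Sp n))).prod x) := by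
  induction l with
  | nil => simpa using hx
  | cons b l ih =>
    rw [List.map_cons, List.prod_cons]
    show hT_Pos ((if P b then Xo b else (1 : Module.End ℂ (Sp n)))
      ((l.map fun k : Fin n => if P k then Xo k else (1 : Module.End ℂ (Sp n))).prod x))
    split_ifs
    · exact hT_Pos_Xo b ih
    · exact ih

theorem hT_Pos_Oa {n : ℕ} (a : ℕ) {x : Sp n} (hx : hT_Pos x) :
    hT_Pos (Oa a (pM (n := n)) qM x) := by
  rw [hT_Oa_eq]
  exact hT_Pos_list (fun k => (k : ℕ) < a) _ hx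

theorem hT_Pos_opM {n : ℕ} {M : Matrix (Fin n → Bool) (Fin n → Bool) ℝ}
    (hM : ∀ σ τ, 0 < M σ τ) {x : Sp n} (hx : hT_Pos x) : hT_Pos (opM M x) := by
  obtain ⟨y, hy, rfl⟩ := hx
  refine ⟨M.mulVec y, fun σ => ?_, hT_opM_ofReal M y⟩
  exact Finset.sum_pos (fun τ _ => mul_pos (hM σ τ) (hy τ)) Finset.univ_nonempty

theorem hT_pair {n : ℕ} {x y : Sp n} (hx : hT_Pos x) (hy : hT_Pos y) :
    ∃ r : ℝ, 0 < r ∧ pair x y = (r : ℂ) := by
  obtain ⟨x, hx, rfl⟩ := hx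
  obtain ⟨y, hy, rfl⟩ := hy
  refine ⟨∑ σ, x σ * y σ, Finset.sum_pos (fun τ _ => mul_pos (hx τ) (hy τ))
    Finset.univ_nonempty, ?_⟩
  show ∑ σ, (x σ : ℂ) * (y σ : ℂ) = _
  push_cast
  rfl

/-! ### main theorem -/

theorem hT_nfH_pos {v : ℝ} (n : ℕ) : 0 < nfH v n := by
  unfold nfH
  have := Real.cosh_pos (κs v)
  positivity

theorem hT_Av_pos (plus : Bool) (K : ℝ) (n : ℕ) (σ : Fin (n + 1) → Bool) : 0 < Av plus K n σ :=
  Real.exp_pos _

/-- The structure of the two transfer matrices. -/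
theorem hT_struct {v : ℝ} (hv : 1 < v) (n : ℕ) :
    ∃ (E B : Matrix (Fin (n + 1) → Bool) (Fin (n + 1) → Bool) ℝ),
      opM E = eX (κs v / 2) (n + 1) ∧
      B = E * Matrix.diagonal (fun σ => Real.sqrt (Av false (κw v) n σ)) ∧
      (∀ σ τ, 0 < B σ τ) ∧ Vm false (κw v) n = nfH v n • (Bᵀ * B) ∧
      VV v (pM (n := n + 1)) qM = opM (B * Bᵀ) := by
  have hv0 : 0 < v := by linarith
  have hκ : 0 < κs v := by
    unfold κs
    have := Real.arsinh_pos_iff.2 hv0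
    linarith
  set v' := Real.sinh (κs v) with hv'
  have hv'0 : 0 < v' := Real.sinh_pos_iff.2 hκ
  have hκ' : κs v' = κs v / 2 := by
    rw [hv', κs, Real.arsinh_sinh]
  set E : Matrix (Fin (n + 1) → Bool) (Fin (n + 1) → Bool) ℝ :=
    (nfH v' n)⁻¹ • Bm (κw v') n with hE
  have hEop : opM E = eX (κs v / 2) (n + 1) := by
    rw [hE, hT_opM_smul, opM_Bm_H hv'0, smul_smul, ← hκ']
    have : (((nfH v' n)⁻¹ : ℝ) : ℂ) * ((nfH v' n : ℝ) : ℂ) = 1 := by
      rw [← Complex.ofReal_mul, inv_mul_cancel₀ (hT_nfH_pos n).ne', Complex.ofReal_one]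
    rw [this, one_smul]
  have hEsymm : Eᵀ = E := by
    rw [hE, Matrix.transpose_smul]
    congr 1
    ext σ τ
    simp only [Bm, Matrix.transpose_apply, Matrix.of_apply]
    congr 2
    apply Finset.sum_congr rfl
    intro a _
    ring
  have hEpos : ∀ σ τ, 0 < E σ τ := by
    intro σ τ
    rw [hE, Matrix.smul_apply, smul_eq_mul]
    exact mul_pos (inv_pos.2 (hT_nfH_pos n)) (Real.exp_pos _)
  set D := Matrix.diagonal (fun σ => Real.sqrt (Av false (κw v) n σ)) with hD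
  have hDD : D * D = Matrix.diagonal (Av false (κw v) n) := by
    rw [hD, Matrix.diagonal_mul_diagonal]
    congr 1
    funext σ
    exact Real.mul_self_sqrt (hT_Av_pos _ _ _ σ).le
  have hDT : Dᵀ = D := Matrix.diagonal_transpose _
  refine ⟨E, E * D, hEop, rfl, ?_, ?_, ?_⟩
  · intro σ τ
    rw [hD, Matrix.mul_diagonal]
    exact mul_pos (hEpos σ τ) (Real.sqrt_pos.2 (hT_Av_pos _ _ _ τ))
  · apply hT_opM_inj
    rw [opM_Vm, opM_Bm_H hv0, hT_opM_smul, Matrix.transpose_mul, hEsymm, hDT]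
    have h1 : D * E * (E * D) = D * (E * E) * D := by
      simp only [Matrix.mul_assoc]
    rw [h1, opM_mul, opM_mul, opM_mul, hEop, eX_mul, hT_mulO, add_halves, mul_smul_comm,
      smul_mul_assoc]
  · have h1 : E * D * (E * D)ᵀ = E * (D * D) * E := by
      rw [Matrix.transpose_mul, hEsymm, hDT]
      simp only [Matrix.mul_assoc]
    rw [h1, opM_mul, opM_mul, hDD, hEop, ← hT_mulO, VV, Sh_H, Wk_H]

theorem HT_vac {v : ℝ} (hv : 1 < v) (n : ℕ) {Ω : (Fin (n + 1) → Bool) → ℝ} {Λ : ℝ}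
    (hP : PFvec (Vm false (κw v) n) Ω Λ) :
    ∃ (Ω2 : Sp (n + 1)) (Λ2 : ℂ), Vac v (pM (n := n + 1)) qM Ω2 (pair Ω2) Λ2 ∧
      (∀ (a b : Fin (n + 1)) (N : ℕ), Gch v (pM (n := n + 1)) qM Ω2 (pair Ω2) Λ2 a b N =
        ((Ω ⬝ᵥ (Zd n a * Vm false (κw v) n ^ N * Zd n b).mulVec Ω / Λ ^ N : ℝ) : ℂ)) ∧
      (∀ a b N : ℕ, ∃ r : ℝ, 0 < r ∧
        Ech v (pM (n := n + 1)) qM Ω2 (pair Ω2) Λ2 a b N = (r : ℂ)) ∧
      ∀ a : ℕ, ∃ r : ℝ, 0 < r ∧ pair Ω2 (Oa a (pM (n := n + 1)) qM Ω2) = (r : ℂ) := by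
  have hv0 : 0 < v := by linarith
  obtain ⟨E, B, hE, hB, hBpos, hV, hVV⟩ := hT_struct hv n
  set ν := nfH v n with hν
  have hν0 : 0 < ν := hT_nfH_pos n
  set L := Λ / ν with hL
  have hL0 : 0 < L := div_pos hP.Λ_pos hν0
  -- Bᵀ B Ω = L Ω
  have hBBΩ : (Bᵀ * B).mulVec Ω = L • Ω := by
    have h1 := hP.eig
    rw [hV, Matrix.smul_mulVec] at h1
    have h2 : (Bᵀ * B).mulVec Ω = ν⁻¹ • (ν • (Bᵀ * B).mulVec Ω) := by
      rw [smul_smul, inv_mul_cancel₀ hν0.ne', one_smul]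
    rw [h2, h1, smul_smul, hL]
    congr 1
    field_simp
  have hbd : ∀ x : (Fin (n + 1) → Bool) → ℝ,
      ((Bᵀ * B).mulVec x) ⬝ᵥ ((Bᵀ * B).mulVec x) ≤ L ^ 2 * (x ⬝ᵥ x) := by
    intro x
    have h1 := hP.bound x
    rw [hV, Matrix.smul_mulVec] at h1
    have h2 : ∑ i, ((ν • (Bᵀ * B).mulVec x) i) ^ 2 =
        ν ^ 2 * (((Bᵀ * B).mulVec x) ⬝ᵥ ((Bᵀ * B).mulVec x)) := by
      simp only [dotProduct, Finset.mul_sum, Pi.smul_apply, smul_eq_mul]
      apply Finset.sum_congr rfl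
      intro i _
      ring
    have h3 : ∑ i, x i ^ 2 = x ⬝ᵥ x := by
      simp only [dotProduct, sq]
    rw [h2, h3] at h1
    rw [hL, div_pow, div_mul_eq_mul_div, le_div_iff₀ (by positivity)]
    linarith
  have hΩn : Ω ⬝ᵥ Ω = 1 := by
    rw [← hP.norm]
    simp only [dotProduct, sq]
  -- the vector
  set r := Real.sqrt L⁻¹ with hr
  have hr0 : 0 < r := Real.sqrt_pos.2 (inv_pos.2 hL0)
  have hrr : r * r = L⁻¹ := Real.mul_self_sqrt (inv_pos.2 hL0).le
  set y := r • B.mulVec Ω with hy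
  have hypos : ∀ σ, 0 < y σ := by
    intro σ
    rw [hy, Pi.smul_apply, smul_eq_mul]
    exact mul_pos hr0 (Finset.sum_pos (fun τ _ => mul_pos (hBpos σ τ) (hP.pos τ))
      Finset.univ_nonempty)
  set Ω2 : Sp (n + 1) := fun σ => (y σ : ℂ) with hΩ2
  have hΩpos : hT_Pos Ω2 := ⟨y, hypos, rfl⟩
  -- pairing with vectors B z
  have hpairB : ∀ z : (Fin (n + 1) → Bool) → ℝ,
      pair Ω2 (fun σ => ((r * B.mulVec z σ : ℝ) : ℂ)) = ((Ω ⬝ᵥ z : ℝ) : ℂ) := by
    intro z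
    have h1 : y ⬝ᵥ (r • B.mulVec z) = Ω ⬝ᵥ z := by
      rw [hy, smul_dotProduct, dotProduct_smul, smul_smul, hrr, hT_dot_mulVec,
        Matrix.mulVec_mulVec]
      have h2 : Ω ⬝ᵥ (Bᵀ * B).mulVec z = L * (Ω ⬝ᵥ z) := by
        have h3 : ((Bᵀ * B).mulVec Ω) ⬝ᵥ z = Ω ⬝ᵥ (Bᵀ * B).mulVec z := by
          rw [hT_dot_mulVec, Matrix.transpose_mul, Matrix.transpose_transpose]
        rw [← h3, hBBΩ, smul_dotProduct, smul_eq_mul]
      rw [h2, smul_eq_mul, ← mul_assoc, inv_mul_cancel₀ hL0.ne', one_mul]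
    rw [← h1]
    show ∑ σ, (y σ : ℂ) * ((r * B.mulVec z σ : ℝ) : ℂ) = _
    simp only [dotProduct, Pi.smul_apply, smul_eq_mul]
    push_cast
    rfl
  have heig : VV v (pM (n := n + 1)) qM Ω2 = ((L : ℝ) : ℂ) • Ω2 := by
    rw [hVV, hΩ2, hT_opM_ofReal]
    have h1 : (B * Bᵀ).mulVec y = L • y := by
      rw [hy, Matrix.mulVec_smul, Matrix.mulVec_mulVec, Matrix.mul_assoc,
        ← Matrix.mulVec_mulVec, hBBΩ, Matrix.mulVec_smul, smul_comm]
    funext σ
    rw [h1]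
    simp
  have hvac : Vac v (pM (n := n + 1)) qM Ω2 (pair Ω2) ((L : ℝ) : ℂ) := by
    apply vac_of_bound hv (car_spin (n + 1)) hL0 heig
    · have h1 := hpairB Ω
      rw [hΩn] at h1
      have h2 : (fun σ => ((r * B.mulVec Ω σ : ℝ) : ℂ)) = Ω2 := rfl
      rw [h2, Complex.ofReal_one] at h1
      exact h1
    · intro x z
      rw [hVV]
      have h1 : ∀ σ τ, (B * Bᵀ) σ τ = (B * Bᵀ) τ σ := by
        intro σ τ
        have : (B * Bᵀ)ᵀ = B * Bᵀ := by
          rw [Matrix.transpose_mul, Matrix.transpose_transpose]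
        exact (congrFun (congrFun this τ) σ).symm ▸ rfl
      simp only [hT_opM_apply, Finset.sum_mul, Finset.mul_sum]
      rw [Finset.sum_comm]
      apply Finset.sum_congr rfl
      intro σ _
      apply Finset.sum_congr rfl
      intro τ _
      rw [h1 σ τ]
      ring
    · intro x
      rw [hVV]
      exact hT_opM_norm _ (hT_bound B hL0.le hbd) x
  refine ⟨Ω2, ((L : ℝ) : ℂ), hvac, ?_, ?_, ?_⟩
  · intro a b N
    -- T_a B = B Z_a
    have hTB : ∀ a : Fin (n + 1), hT_T v a * opM B = opM B * Zo a := by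
      intro a
      have h1 := hT_eX_Z (n := n + 1) (κs v / 2) a
      have h2 : 2 * (κs v / 2) = κs v := by ring
      rw [h2, ← c1_eq_cosh hv0, ← s1_eq_sinh hv0, ← hE] at h1
      have h3 : opM E * Zo a = hT_T v a * opM E := h1
      rw [hB, opM_mul, ← mul_assoc, ← h3, mul_assoc, mul_assoc, hT_Zo, ← opM_mul, ← opM_mul,
        ← opM_mul, ← opM_mul]
      congr 2
      unfold Zd
      rw [Matrix.diagonal_mul_diagonal, Matrix.diagonal_mul_diagonal]
      congr 1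
      funext σ
      ring
    have hVN : VV v (pM (n := n + 1)) qM ^ N * opM B = opM B * opM ((Bᵀ * B) ^ N) := by
      rw [hVV, ← hT_opM_pow, ← opM_mul, ← opM_mul]
      congr 1
      induction N with
      | zero => simp
      | succ N ih =>
        rw [pow_succ', Matrix.mul_assoc, ih, ← Matrix.mul_assoc, Matrix.mul_assoc B Bᵀ B,
          Matrix.mul_assoc B, pow_succ']
    have hΩ2' : Ω2 = ((r : ℝ) : ℂ) • opM B (fun σ => (Ω σ : ℂ)) := by
      rw [hT_opM_ofReal]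
      funext σ
      rw [Pi.smul_apply, smul_eq_mul, ← Complex.ofReal_mul]
      rfl
    have hmain : Oa (a : ℕ) (pM (n := n + 1)) qM (Xi v pM qM a
        ((VV v (pM (n := n + 1)) qM ^ N) (Xi v pM qM b (Oa (b : ℕ) pM qM Ω2)))) =
        fun σ => ((r * B.mulVec ((Zd n a * (Bᵀ * B) ^ N * Zd n b).mulVec Ω) σ : ℝ) : ℂ) := by
      have h1 : Oa (a : ℕ) (pM (n := n + 1)) qM (Xi v pM qM a
        ((VV v (pM (n := n + 1)) qM ^ N) (Xi v pM qM b (Oa (b : ℕ) pM qM Ω2)))) =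
          (hT_T v a * (VV v (pM (n := n + 1)) qM ^ N) * hT_T v b) Ω2 := by
        rw [← hT_Oa_Xi v a, ← hT_Xi_Oa v b]
        rfl
      rw [h1, hΩ2', map_smul]
      have h2 : (hT_T v a * (VV v (pM (n := n + 1)) qM ^ N) * hT_T v b) (opM B fun σ => (Ω σ : ℂ)) =
          (hT_T v a * (VV v (pM (n := n + 1)) qM ^ N) * (hT_T v b * opM B)) (fun σ => (Ω σ : ℂ)) :=
        rfl
      have h3 : hT_T v a * (VV v (pM (n := n + 1)) qM ^ N) * (hT_T v b * opM B) =
          opM (B * (Zd n a * (Bᵀ * B) ^ N * Zd n b)) := by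
        rw [hTB b, ← mul_assoc, mul_assoc (hT_T v a), hVN, ← mul_assoc, hTB a, hT_Zo, hT_Zo,
          ← opM_mul, ← opM_mul, ← opM_mul]
        simp only [Matrix.mul_assoc]
      rw [h2, h3, hT_opM_ofReal, ← Matrix.mulVec_mulVec]
      funext σ
      rw [Pi.smul_apply, smul_eq_mul, ← Complex.ofReal_mul]
    unfold Gch
    rw [hmain, hpairB]
    have h4 : Vm false (κw v) n ^ N = ν ^ N • (Bᵀ * B) ^ N := by
      rw [hV, smul_pow]
    rw [h4, Matrix.mul_smul, Matrix.smul_mul, Matrix.smul_mulVec, dotProduct_smul, smul_eq_mul]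
    rw [← Complex.ofReal_pow, ← Complex.ofReal_div]
    congr 1
    rw [hL, div_pow]
    have h5 : ν ^ N ≠ 0 := pow_ne_zero _ hν0.ne'
    have h6 : Λ ^ N ≠ 0 := pow_ne_zero _ hP.Λ_pos.ne'
    field_simp
  · intro a b N
    have hBT : ∀ σ τ, 0 < Bᵀ σ τ := fun σ τ => hBpos τ σ
    have h1 : ∀ N : ℕ, ∀ x : Sp (n + 1), hT_Pos x →
        hT_Pos ((VV v (pM (n := n + 1)) qM ^ N) x) := by
      intro N
      induction N with
      | zero => intro x hx; simpa using hx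
      | succ N ih =>
        intro x hx
        rw [pow_succ]
        show hT_Pos ((VV v (pM (n := n + 1)) qM ^ N) (VV v (pM (n := n + 1)) qM x))
        apply ih
        rw [hVV, opM_mul]
        exact hT_Pos_opM hBpos (hT_Pos_opM hBT hx)
    obtain ⟨s, hs, hs'⟩ := hT_pair hΩpos
      (hT_Pos_Oa a (h1 N _ (hT_Pos_Oa b hΩpos)))
    refine ⟨s / L ^ N, by positivity, ?_⟩
    unfold Ech
    rw [hs']
    push_cast
    rfl
  · intro a
    exact hT_pair hΩpos (hT_Pos_Oa a hΩpos)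

end

end IsingS2
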