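import Pool.Agent.Helper98.IS.Spin
import Pool.Agent.Helper98.IS.ChainSpin
import Pool.Agent.Helper98.IS.ChainSpinB

/-!
# IS-17: the wall bound
-/

namespace IsingS2

open Complex Set MeasureTheory Filter Topology IsingNB
open scoped Real Matrix

noncomputable section

namespace WB

/-- Walsh character -/
def wc {N : ℕ} (S σ : Fin N → Bool) : ℝ := ∏ i, if S i then sg (σ i) else 1

/-- Walsh transform -/
def hat {N : ℕ} (x : Sp N) (S : Fin N → Bool) : ℂ := ∑ σ, (wc S σ : ℂ) * x σ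

theorem sg_sq (b : Bool) : sg b * sg b = 1 := by cases b <;> simp [sg]

theorem wc_sum {N : ℕ} (σ τ : Fin N → Bool) :
    ∑ S : Fin N → Bool, wc S σ * wc S τ = if σ = τ then (2 : ℝ) ^ N else 0 := by
  have h1 : ∀ S : Fin N → Bool, wc S σ * wc S τ =
      ∏ i, (if S i then sg (σ i) * sg (τ i) else 1) := by
    intro S
    unfold wc
    rw [← Finset.prod_mul_distrib]
    refine Finset.prod_congr rfl fun i _ => ?_
    split_ifs <;> simp
  have h2 : ∑ S : Fin N → Bool, ∏ i, (if S i then sg (σ i) * sg (τ i) else 1) =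
      ∏ i : Fin N, ∑ b : Bool, (if b then sg (σ i) * sg (τ i) else 1) := by
    rw [Finset.prod_univ_sum, Fintype.piFinset_univ]
  rw [Finset.sum_congr rfl fun S _ => h1 S, h2]
  split_ifs with h
  · subst h
    rw [Finset.prod_congr rfl (g := fun _ => (2 : ℝ))]
    · simp
    · intro i _
      rw [Fintype.sum_bool]
      simp [sg_sq]
      norm_num
  · obtain ⟨i, hi⟩ := Function.ne_iff.mp h
    refine Finset.prod_eq_zero (Finset.mem_univ i) ?_
    rw [Fintype.sum_bool]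
    have : sg (σ i) * sg (τ i) = -1 := by
      revert hi
      generalize σ i = p
      generalize τ i = q
      cases p <;> cases q <;> simp [sg]
    simp [this]

theorem wc_sum' {N : ℕ} (S T : Fin N → Bool) :
    ∑ σ : Fin N → Bool, wc S σ * wc T σ = if S = T then (2 : ℝ) ^ N else 0 := by
  have h : (Matrix.of fun (σ S : Fin N → Bool) => wc S σ) *
      (((2 : ℝ) ^ N)⁻¹ • Matrix.of fun (S σ : Fin N → Bool) => wc S σ) = 1 := by
    ext σ τ
    rw [Matrix.mul_apply]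
    simp only [Matrix.of_apply, Matrix.smul_apply, smul_eq_mul]
    have : ∀ S : Fin N → Bool, wc S σ * (((2 : ℝ) ^ N)⁻¹ * wc S τ) =
        ((2 : ℝ) ^ N)⁻¹ * (wc S σ * wc S τ) := fun S => by ring
    rw [Finset.sum_congr rfl fun S _ => this S, ← Finset.mul_sum, wc_sum, Matrix.one_apply]
    split_ifs <;> simp
  have h2 := mul_eq_one_comm.mp h
  have h3 := congrFun (congrFun h2 S) T
  rw [Matrix.mul_apply] at h3
  simp only [Matrix.of_apply, Matrix.smul_apply, smul_eq_mul] at h3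
  have : ∀ σ : Fin N → Bool, ((2 : ℝ) ^ N)⁻¹ * wc S σ * wc T σ =
      ((2 : ℝ) ^ N)⁻¹ * (wc S σ * wc T σ) := fun S => by ring
  rw [Finset.sum_congr rfl fun S _ => this S, ← Finset.mul_sum, Matrix.one_apply] at h3
  have h4 : (2 : ℝ) ^ N ≠ 0 := by positivity
  field_simp at h3
  rw [h3]
  split_ifs <;> simp

/-- inverse transform -/
def inv' {N : ℕ} (r : (Fin N → Bool) → ℂ) : Sp N :=
  fun σ => ((2 : ℂ) ^ N)⁻¹ * ∑ S, (wc S σ : ℂ) * r S

theorem hat_inv {N : ℕ} (r : (Fin N → Bool) → ℂ) (S : Fin N → Bool) : hat (inv' r) S = r S := by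
  unfold hat inv'
  have h1 : ∀ σ : Fin N → Bool, (wc S σ : ℂ) * (((2 : ℂ) ^ N)⁻¹ * ∑ T, (wc T σ : ℂ) * r T) =
      ∑ T, ((2 : ℂ) ^ N)⁻¹ * r T * ((wc S σ * wc T σ : ℝ) : ℂ) := by
    intro σ
    rw [Finset.mul_sum, Finset.mul_sum]
    refine Finset.sum_congr rfl fun T _ => ?_
    push_cast
    ring
  rw [Finset.sum_congr rfl fun σ _ => h1 σ, Finset.sum_comm]
  have h2 : ∀ T : Fin N → Bool, ∑ σ : Fin N → Bool, ((2 : ℂ) ^ N)⁻¹ * r T * ((wc S σ * wc T σ : ℝ) : ℂ) =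
      if S = T then r T else 0 := by
    intro T
    rw [← Finset.mul_sum, ← Complex.ofReal_sum, wc_sum']
    have h4 : (2 : ℂ) ^ N ≠ 0 := pow_ne_zero _ two_ne_zero
    split_ifs
    · push_cast
      field_simp
    · simp
  rw [Finset.sum_congr rfl fun T _ => h2 T]
  simp

theorem inv_hat {N : ℕ} (x : Sp N) : inv' (hat x) = x := by
  funext σ
  unfold hat inv'
  have h1 : ∀ S : Fin N → Bool, (wc S σ : ℂ) * ∑ τ, (wc S τ : ℂ) * x τ =
      ∑ τ, x τ * ((wc S σ * wc S τ : ℝ) : ℂ) := by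
    intro S
    rw [Finset.mul_sum]
    refine Finset.sum_congr rfl fun T _ => ?_
    push_cast
    ring
  rw [Finset.sum_congr rfl fun σ _ => h1 σ, Finset.sum_comm]
  have h2 : ∀ τ : Fin N → Bool, ∑ S : Fin N → Bool, x τ * ((wc S σ * wc S τ : ℝ) : ℂ) =
      if σ = τ then (2 : ℂ) ^ N * x τ else 0 := by
    intro T
    rw [← Finset.mul_sum, ← Complex.ofReal_sum, wc_sum]
    split_ifs
    · push_cast
      ring
    · simp
  rw [Finset.sum_congr rfl fun T _ => h2 T]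
  have h4 : (2 : ℂ) ^ N ≠ 0 := pow_ne_zero _ two_ne_zero
  simp

theorem parseval {N : ℕ} (x : Sp N) : ∑ S, ‖hat x S‖ ^ 2 = 2 ^ N * ∑ σ, ‖x σ‖ ^ 2 := by
  have h : (∑ S, ((‖hat x S‖ ^ 2 : ℝ) : ℂ)) = ((2 ^ N * ∑ σ, ‖x σ‖ ^ 2 : ℝ) : ℂ) := by
    have h1 : ∀ S : Fin N → Bool, ((‖hat x S‖ ^ 2 : ℝ) : ℂ) =
        ∑ σ, ∑ τ, x σ * (starRingEnd ℂ) (x τ) * ((wc S σ * wc S τ : ℝ) : ℂ) := by
      intro S
      have : ((‖hat x S‖ ^ 2 : ℝ) : ℂ) = hat x S * (starRingEnd ℂ) (hat x S) := by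
        rw [Complex.mul_conj, Complex.normSq_eq_norm_sq]
      rw [this]
      unfold hat
      rw [map_sum, Finset.sum_mul_sum]
      refine Finset.sum_congr rfl fun σ _ => Finset.sum_congr rfl fun τ _ => ?_
      rw [map_mul, Complex.conj_ofReal]
      push_cast
      ring
    rw [Finset.sum_congr rfl fun S _ => h1 S, Finset.sum_comm]
    have h2 : ∀ σ : Fin N → Bool, ∑ S : Fin N → Bool, ∑ τ, x σ * (starRingEnd ℂ) (x τ) *
        ((wc S σ * wc S τ : ℝ) : ℂ) = ((2 ^ N * ‖x σ‖ ^ 2 : ℝ) : ℂ) := by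
      intro σ
      rw [Finset.sum_comm]
      have h3 : ∀ τ : Fin N → Bool, ∑ S : Fin N → Bool, x σ * (starRingEnd ℂ) (x τ) *
          ((wc S σ * wc S τ : ℝ) : ℂ) = if σ = τ then x σ * (starRingEnd ℂ) (x τ) * 2 ^ N else 0 := by
        intro τ
        rw [← Finset.mul_sum, ← Complex.ofReal_sum, wc_sum]
        split_ifs
        · push_cast
          ring
        · simp
      rw [Finset.sum_congr rfl fun τ _ => h3 τ]
      simp only [Finset.sum_ite_eq, Finset.mem_univ, if_true]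
      rw [Complex.mul_conj, Complex.normSq_eq_norm_sq]
      push_cast
      ring
    rw [Finset.sum_congr rfl fun σ _ => h2 σ, ← Complex.ofReal_sum, ← Finset.mul_sum]
  rw [← Complex.ofReal_sum] at h
  exact_mod_cast h

theorem norm_le_of_hat {N : ℕ} {x z : Sp N} (h : ∀ S, ‖hat x S‖ ≤ ‖hat z S‖) :
    ∑ σ, ‖x σ‖ ^ 2 ≤ ∑ σ, ‖z σ‖ ^ 2 := by
  have h1 : ∑ S, ‖hat x S‖ ^ 2 ≤ ∑ S, ‖hat z S‖ ^ 2 :=
    Finset.sum_le_sum fun S _ => pow_le_pow_left₀ (norm_nonneg _) (h S) 2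
  rw [parseval, parseval] at h1
  exact le_of_mul_le_mul_left h1 (by positivity)

/-! ### action of the operators -/

theorem wc_flip_left {N : ℕ} (k : Fin N) (S σ : Fin N → Bool) :
    sg (σ k) * wc S σ = wc (Function.update S k (!(S k))) σ := by
  unfold wc
  rw [← Finset.mul_prod_erase _ _ (Finset.mem_univ k), ← Finset.mul_prod_erase Finset.univ
    (fun i => if Function.update S k (!(S k)) i then sg (σ i) else 1) (Finset.mem_univ k),
    ← mul_assoc]
  congr 1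
  · rw [Function.update_self]
    cases S k <;> simp [sg_sq]
  · refine Finset.prod_congr rfl fun i hi => ?_
    rw [Function.update_of_ne (Finset.ne_of_mem_erase hi)]

theorem wc_flip_right {N : ℕ} (k : Fin N) (S σ : Fin N → Bool) :
    wc S (Function.update σ k (!(σ k))) = (if S k then -1 else 1) * wc S σ := by
  unfold wc
  rw [← Finset.mul_prod_erase _ _ (Finset.mem_univ k), ← Finset.mul_prod_erase Finset.univ
    (fun i => if S i then sg (σ i) else 1) (Finset.mem_univ k), ← mul_assoc]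
  congr 1
  · rw [Function.update_self]
    cases S k <;> cases σ k <;> simp [sg]
  · refine Finset.prod_congr rfl fun i hi => ?_
    rw [Function.update_of_ne (Finset.ne_of_mem_erase hi)]

theorem hat_Zo {N : ℕ} (k : Fin N) (x : Sp N) (S : Fin N → Bool) :
    hat (Zo k x) S = hat x (Function.update S k (!(S k))) := by
  unfold hat
  refine Finset.sum_congr rfl fun σ _ => ?_
  rw [← wc_flip_left]
  change (wc S σ : ℂ) * ((sg (σ k) : ℂ) * x σ) = _
  push_cast
  ring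

theorem hat_Xo {N : ℕ} (k : Fin N) (x : Sp N) (S : Fin N → Bool) :
    hat (Xo k x) S = (if S k then -1 else 1) * hat x S := by
  unfold hat
  have h : ∀ σ : Fin N → Bool, Function.update (Function.update σ k (!(σ k))) k
      (!(Function.update σ k (!(σ k)) k)) = σ := by
    intro σ
    funext i
    by_cases hi : i = k
    · subst hi; simp
    · simp [Function.update_of_ne hi]
  let e : (Fin N → Bool) ≃ (Fin N → Bool) :=
    { toFun := fun σ => Function.update σ k (!(σ k))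
      invFun := fun σ => Function.update σ k (!(σ k))
      left_inv := h
      right_inv := h }
  rw [← Equiv.sum_comp e, Finset.mul_sum]
  refine Finset.sum_congr rfl fun σ _ => ?_
  change (wc S (Function.update σ k (!(σ k))) : ℂ) * x (Function.update (Function.update σ k (!(σ k))) k
      (!(Function.update σ k (!(σ k)) k))) = _
  rw [h, wc_flip_right]
  split_ifs <;> push_cast <;> ring

theorem hat_add {N : ℕ} (x y : Sp N) (S : Fin N → Bool) : hat (x + y) S = hat x S + hat y S := by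
  unfold hat
  rw [← Finset.sum_add_distrib]
  refine Finset.sum_congr rfl fun σ _ => ?_
  simp [mul_add]

theorem hat_smul {N : ℕ} (r : ℂ) (x : Sp N) (S : Fin N → Bool) :
    hat (r • x) S = r * hat x S := by
  unfold hat
  rw [Finset.mul_sum]
  refine Finset.sum_congr rfl fun σ _ => ?_
  simp only [Pi.smul_apply, smul_eq_mul]
  ring

/-- domination -/
def Dom {N : ℕ} (x z : Sp N) : Prop := ∀ S, ∃ r : ℝ, hat z S = r ∧ ‖hat x S‖ ≤ r

theorem Dom.norm_le {N : ℕ} {x z : Sp N} (h : Dom x z) : ∑ σ, ‖x σ‖ ^ 2 ≤ ∑ σ, ‖z σ‖ ^ 2 := by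
  refine norm_le_of_hat fun S => ?_
  obtain ⟨r, h1, h2⟩ := h S
  rw [h1, Complex.norm_real, Real.norm_eq_abs]
  exact h2.trans (le_abs_self r)

theorem Dom.zz {N : ℕ} {x z : Sp N} (h : Dom x z) {κ : ℝ} (hκ : 0 ≤ κ) (k l : Fin N) :
    Dom ((((Real.cosh κ : ℝ) : ℂ) • (1 : Module.End ℂ (Sp N)) +
        ((Real.sinh κ : ℝ) : ℂ) • (Zo k * Zo l)) x)
      ((((Real.cosh κ : ℝ) : ℂ) • (1 : Module.End ℂ (Sp N)) +
        ((Real.sinh κ : ℝ) : ℂ) • (Zo k * Zo l)) z) := by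
  intro S
  have e : ∀ y : Sp N, hat ((((Real.cosh κ : ℝ) : ℂ) • (1 : Module.End ℂ (Sp N)) +
        ((Real.sinh κ : ℝ) : ℂ) • (Zo k * Zo l)) y) S = (Real.cosh κ : ℂ) * hat y S +
        (Real.sinh κ : ℂ) * hat y (Function.update (Function.update S k (!(S k))) l
          (!(Function.update S k (!(S k)) l))) := by
    intro y
    change hat (((Real.cosh κ : ℝ) : ℂ) • y + ((Real.sinh κ : ℝ) : ℂ) • (Zo k (Zo l y))) S = _
    rw [hat_add, hat_smul, hat_smul, hat_Zo, hat_Zo]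
  rw [e, e]
  obtain ⟨r, h1, h2⟩ := h S
  obtain ⟨r', h1', h2'⟩ := h (Function.update (Function.update S k (!(S k))) l
          (!(Function.update S k (!(S k)) l)))
  refine ⟨Real.cosh κ * r + Real.sinh κ * r', ?_, ?_⟩
  · rw [h1, h1']
    push_cast
    ring
  · have hc : 0 ≤ Real.cosh κ := (Real.cosh_pos κ).le
    have hs : 0 ≤ Real.sinh κ := Real.sinh_nonneg_iff.mpr hκ
    refine (norm_add_le _ _).trans (add_le_add ?_ ?_)
    · rw [norm_mul, Complex.norm_real, Real.norm_eq_abs, abs_of_nonneg hc]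
      exact mul_le_mul_of_nonneg_left h2 hc
    · rw [norm_mul, Complex.norm_real, Real.norm_eq_abs, abs_of_nonneg hs]
      exact mul_le_mul_of_nonneg_left h2' hs

theorem Dom.x {N : ℕ} {x z : Sp N} (h : Dom x z) {κ : ℝ} (k : Fin N) :
    Dom ((((Real.cosh κ : ℝ) : ℂ) • (1 : Module.End ℂ (Sp N)) +
        ((Real.sinh κ : ℝ) : ℂ) • Xo k) x)
      ((((Real.cosh κ : ℝ) : ℂ) • (1 : Module.End ℂ (Sp N)) +
        ((Real.sinh κ : ℝ) : ℂ) • Xo k) z) := by
  intro S
  have e : ∀ y : Sp N, hat ((((Real.cosh κ : ℝ) : ℂ) • (1 : Module.End ℂ (Sp N)) +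
        ((Real.sinh κ : ℝ) : ℂ) • Xo k) y) S =
        ((Real.cosh κ + (if S k then -1 else 1) * Real.sinh κ : ℝ) : ℂ) * hat y S := by
    intro y
    change hat (((Real.cosh κ : ℝ) : ℂ) • y + ((Real.sinh κ : ℝ) : ℂ) • (Xo k y)) S = _
    rw [hat_add, hat_smul, hat_smul, hat_Xo]
    split_ifs <;> push_cast <;> ring
  rw [e, e]
  obtain ⟨r, h1, h2⟩ := h S
  have hpos : 0 ≤ Real.cosh κ + (if S k then -1 else 1) * Real.sinh κ := by
    split_ifs
    · have := Real.exp_pos (-κ)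
      have h3 := Real.cosh_sub_sinh κ
      linarith
    · have := Real.exp_pos κ
      have h3 := Real.cosh_add_sinh κ
      linarith
  refine ⟨(Real.cosh κ + (if S k then -1 else 1) * Real.sinh κ) * r, ?_, ?_⟩
  · rw [h1]
    push_cast
    ring
  · rw [norm_mul, Complex.norm_real, Real.norm_eq_abs, abs_of_nonneg hpos]
    exact mul_le_mul_of_nonneg_left h2 hpos

theorem Dom.list {N : ℕ} {α : Type*} (l : List α) (F : α → Module.End ℂ (Sp N))
    (hF : ∀ a ∈ l, ∀ x z : Sp N, Dom x z → Dom (F a x) (F a z)) {x z : Sp N} (h : Dom x z) :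
    Dom ((l.map F).prod x) ((l.map F).prod z) := by
  induction l with
  | nil => simpa using h
  | cons a l ih =>
    rw [List.map_cons, List.prod_cons]
    exact hF a (by simp) _ _ (ih fun b hb => hF b (by simp [hb]))

/-! ### the chain operators -/

theorem Sh_dom {v : ℝ} (hv : 1 < v) (m : ℕ) {x z : Sp (m + 1)} (h : Dom x z) :
    Dom (Sh v (fL (m := m)) gL x) (Sh v (fL (m := m)) gL z) := by
  have hκ : 0 ≤ κs v / 2 := by
    unfold κs
    have := Real.arsinh_nonneg_iff.mpr (by linarith : (0 : ℝ) ≤ v)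
    linarith
  unfold Sh
  refine Dom.list _ _ (fun k _ x z h => ?_) h
  have e : (((Real.sinh (κs v / 2) : ℝ) : ℂ) * I) • (fL k * gL k) =
      ((Real.sinh (κs v / 2) : ℝ) : ℂ) • (Zo (n := m + 1) k.castSucc * Zo k.succ) := by
    have h1 := qM_mul_pM (n := m + 1) k.castSucc (by simp)
    have h2 : (⟨((k.castSucc : Fin (m + 1)) : ℕ) + 1, by simp⟩ : Fin (m + 1)) = k.succ := by
      ext; simp
    rw [h2] at h1
    rw [mul_smul, ← h1]
    rfl
  rw [e]
  exact h.zz hκ _ _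

theorem Wk_dom (v : ℝ) (n : ℕ) {x z : Sp (n + 3)} (h : Dom x z) :
    Dom (Wk v (fL (m := n + 2)) gL x) (Wk v (fL (m := n + 2)) gL z) := by
  rw [Wk_L]
  exact Dom.list _ _ (fun k _ x z h => h.x _) h

theorem VV_dom {v : ℝ} (hv : 1 < v) (n : ℕ) {x z : Sp (n + 3)} (h : Dom x z) :
    Dom (VV v (fL (m := n + 2)) gL x) (VV v (fL (m := n + 2)) gL z) := by
  unfold VV
  exact Sh_dom hv _ (Wk_dom v n (Sh_dom hv _ h))

/-- projection on a sector of the walls -/
def PP (n : ℕ) (s : Bool × Bool) : Module.End ℂ (Sp (n + 3)) :=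
  mulO fun σ => if σ 0 = s.1 ∧ σ (Fin.last _) = s.2 then 1 else 0

theorem mulO_comm {N : ℕ} (F G : (Fin N → Bool) → ℝ) (x : Sp N) :
    mulO F (mulO G x) = mulO G (mulO F x) := by
  funext σ
  change (F σ : ℂ) * ((G σ : ℂ) * x σ) = (G σ : ℂ) * ((F σ : ℂ) * x σ)
  ring

theorem list_comm {N : ℕ} {α : Type*} (l : List α) (F : α → Module.End ℂ (Sp N))
    (Q : Module.End ℂ (Sp N)) (hF : ∀ a ∈ l, ∀ x, F a (Q x) = Q (F a x)) (x : Sp N) :
    (l.map F).prod (Q x) = Q ((l.map F).prod x) := by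
  induction l with
  | nil => simp
  | cons a l ih =>
    rw [List.map_cons, List.prod_cons]
    change F a ((l.map F).prod (Q x)) = Q (F a ((l.map F).prod x))
    rw [ih fun b hb => hF b (by simp [hb]), hF a (by simp)]

theorem VV_PP (v : ℝ) (n : ℕ) (s : Bool × Bool) (x : Sp (n + 3)) :
    VV v (fL (m := n + 2)) gL (PP n s x) = PP n s (VV v (fL (m := n + 2)) gL x) := by
  have hS : ∀ y, Sh v (fL (m := n + 2)) gL (PP n s y) = PP n s (Sh v (fL (m := n + 2)) gL y) := by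
    intro y
    rw [Sh_L]
    exact mulO_comm _ _ _
  have hW : ∀ y, Wk v (fL (m := n + 2)) gL (PP n s y) = PP n s (Wk v (fL (m := n + 2)) gL y) := by
    intro y
    rw [Wk_L]
    refine list_comm _ _ _ (fun a _ y => ?_) y
    funext σ
    have h0 : (0 : Fin (n + 3)) ≠ a.succ.castSucc := by
      intro h
      have := congrArg Fin.val h
      simp at this
    have h1 : (Fin.last (n + 2) : Fin (n + 3)) ≠ a.succ.castSucc := by
      intro h
      have := congrArg Fin.val h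
      simp at this
      omega
    change ((Real.cosh (κw v) : ℝ) : ℂ) * (_ * y σ) + ((Real.sinh (κw v) : ℝ) : ℂ) *
      ((((if Function.update σ a.succ.castSucc (!(σ a.succ.castSucc)) 0 = s.1 ∧
        Function.update σ a.succ.castSucc (!(σ a.succ.castSucc)) (Fin.last _) = s.2
        then 1 else 0 : ℝ)) : ℂ) * y (Function.update σ a.succ.castSucc (!(σ a.succ.castSucc)))) =
      (((if σ 0 = s.1 ∧ σ (Fin.last _) = s.2 then 1 else 0 : ℝ)) : ℂ) *
      (((Real.cosh (κw v) : ℝ) : ℂ) * y σ + ((Real.sinh (κw v) : ℝ) : ℂ) *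
        y (Function.update σ a.succ.castSucc (!(σ a.succ.castSucc))))
    rw [Function.update_of_ne h0, Function.update_of_ne h1]
    ring
  unfold VV
  change Sh v (fL (m := n + 2)) gL (Wk v (fL (m := n + 2)) gL (Sh v (fL (m := n + 2)) gL (PP n s x))) =
    PP n s (Sh v (fL (m := n + 2)) gL (Wk v (fL (m := n + 2)) gL (Sh v (fL (m := n + 2)) gL x)))
  rw [hS, hW, hS]

/-! ### the plus sector -/

/-- extension by plus walls -/
def ext0 {n : ℕ} (τ : Fin (n + 1) → Bool) : Fin (n + 3) → Bool :=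
  Fin.cons (α := fun _ => Bool) true (Fin.snoc (α := fun _ => Bool) τ true)

theorem ext0_zero {n : ℕ} (τ : Fin (n + 1) → Bool) : ext0 τ 0 = true := rfl

theorem ext0_mid {n : ℕ} (τ : Fin (n + 1) → Bool) (a : Fin (n + 1)) :
    ext0 τ a.succ.castSucc = τ a := by
  unfold ext0
  rw [← Fin.succ_castSucc, Fin.cons_succ, Fin.snoc_castSucc]

theorem ext0_last {n : ℕ} (τ : Fin (n + 1) → Bool) : ext0 τ (Fin.last (n + 2)) = true := by
  unfold ext0
  rw [← Fin.succ_last, Fin.cons_succ, Fin.snoc_last]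

theorem ext0_update {n : ℕ} (τ : Fin (n + 1) → Bool) (a : Fin (n + 1)) (b : Bool) :
    Function.update (ext0 τ) a.succ.castSucc b = ext0 (Function.update τ a b) := by
  unfold ext0
  rw [Fin.snoc_update, Fin.cons_update, Fin.succ_castSucc]

theorem ext0_inj {n : ℕ} : Function.Injective (ext0 (n := n)) := by
  intro τ τ' h
  funext a
  rw [← ext0_mid τ a, h, ext0_mid]

theorem ext0_surj {n : ℕ} (σ : Fin (n + 3) → Bool) (h0 : σ 0 = true)
    (h1 : σ (Fin.last (n + 2)) = true) : ∃ τ, ext0 τ = σ := by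
  refine ⟨fun a => σ a.succ.castSucc, ?_⟩
  funext i
  refine Fin.cases ?_ (fun j => ?_) i
  · rw [ext0_zero, h0]
  · refine Fin.lastCases ?_ (fun k => ?_) j
    · rw [Fin.succ_last, ext0_last, h1]
    · rw [Fin.succ_castSucc, ext0_mid]

/-- restriction -/
def RR {n : ℕ} (z : Sp (n + 3)) : Sp (n + 1) := fun τ => z (ext0 τ)

theorem RR_mulO {n : ℕ} (F : (Fin (n + 3) → Bool) → ℝ) (z : Sp (n + 3)) :
    RR (mulO F z) = mulO (fun τ => F (ext0 τ)) (RR z) := rfl

theorem RR_Xo {n : ℕ} (a : Fin (n + 1)) (z : Sp (n + 3)) :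
    RR (Xo a.succ.castSucc z) = Xo a (RR z) := by
  funext τ
  change z (Function.update (ext0 τ) a.succ.castSucc (!(ext0 τ a.succ.castSucc))) =
    z (ext0 (Function.update τ a (!(τ a))))
  rw [ext0_update, ext0_mid]

theorem RR_factor {n : ℕ} (c s : ℂ) (a : Fin (n + 1)) (y : Sp (n + 3)) :
    RR ((c • (1 : Module.End ℂ (Sp (n + 3))) + s • Xo (n := n + 3) a.succ.castSucc) y) =
      (c • (1 : Module.End ℂ (Sp (n + 1))) + s • Xo a) (RR y) := by
  funext τ
  have h2 := congrFun (RR_Xo a y) τ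
  change c * y (ext0 τ) + s * (RR (Xo a.succ.castSucc y) τ) = c * y (ext0 τ) +
      s * (Xo a (RR y) τ)
  rw [h2]

theorem RR_Wk (v : ℝ) (n : ℕ) (z : Sp (n + 3)) :
    RR (Wk v (fL (m := n + 2)) gL z) = eX (κw v) (n + 1) (RR z) := by
  rw [Wk_L]
  unfold eX
  generalize List.finRange (n + 1) = l
  induction l with
  | nil => simp
  | cons a l ih =>
    rw [List.map_cons, List.prod_cons, List.map_cons, List.prod_cons]
    rw [Module.End.mul_apply, Module.End.mul_apply, ← ih, RR_factor]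

theorem Sh_ext0 (v : ℝ) (n : ℕ) (τ : Fin (n + 1) → Bool) :
    Real.exp (κs v / 2 * ∑ k : Fin (n + 2), sg (ext0 τ k.castSucc) * sg (ext0 τ k.succ)) =
      Real.sqrt (Av true (κs v) n τ) := by
  unfold Av
  rw [← Real.exp_half]
  congr 1
  rw [Fin.sum_univ_succ, Fin.sum_univ_castSucc]
  have e0 : ext0 τ (Fin.castSucc (0 : Fin (n + 2))) = true := ext0_zero τ
  have e1 : ext0 τ (Fin.succ (0 : Fin (n + 2))) = τ 0 := ext0_mid τ 0
  have e2 : ∀ k : Fin (n + 1), ext0 τ (Fin.castSucc (Fin.succ k)) = τ k := fun k => ext0_mid τ k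
  have e3 : ∀ a : Fin n, ext0 τ (Fin.succ (Fin.succ (Fin.castSucc a))) = τ a.succ := by
    intro a
    have := ext0_mid τ a.succ
    rw [← this]
    rfl
  have e4 : ext0 τ (Fin.succ (Fin.succ (Fin.last n))) = true := by
    rw [Fin.succ_last, Fin.succ_last]
    exact ext0_last τ
  rw [e0, e1, e4]
  simp only [e2, e3]
  simp [sg]
  ring

theorem RR_Sh (v : ℝ) (n : ℕ) (z : Sp (n + 3)) :
    RR (Sh v (fL (m := n + 2)) gL z) =
      mulO (fun τ => Real.sqrt (Av true (κs v) n τ)) (RR z) := by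
  rw [Sh_L, RR_mulO]
  congr 2
  funext τ
  exact Sh_ext0 v n τ

theorem nfL_pos (v : ℝ) (n : ℕ) : 0 < nfL v n :=
  pow_pos (div_pos (Real.exp_pos _) (Real.cosh_pos _)) _

theorem RR_VV {v : ℝ} (hv : 1 < v) (n : ℕ) (z : Sp (n + 3)) :
    ((nfL v n : ℝ) : ℂ) • RR (VV v (fL (m := n + 2)) gL z) = opM (Vm true (κs v) n) (RR z) := by
  rw [opM_Vm, opM_Bm_L (by linarith)]
  unfold VV
  rw [Module.End.mul_apply, Module.End.mul_apply, RR_Sh, RR_Wk, RR_Sh]
  rw [Module.End.mul_apply, Module.End.mul_apply, LinearMap.smul_apply, map_smul]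

theorem bound_complex {N : ℕ} {V : Matrix (Fin N → Bool) (Fin N → Bool) ℝ}
    {Ω : (Fin N → Bool) → ℝ} {Λ : ℝ} (hP : PFvec V Ω Λ) (y : Sp N) :
    ∑ σ, ‖opM V y σ‖ ^ 2 ≤ Λ ^ 2 * ∑ σ, ‖y σ‖ ^ 2 := by
  have h1 := hP.bound fun σ => (y σ).re
  have h2 := hP.bound fun σ => (y σ).im
  have e1 : ∀ σ, (opM V y σ).re = V.mulVec (fun σ => (y σ).re) σ := by
    intro σ
    unfold opM
    rw [Matrix.toLin'_apply]
    simp only [Matrix.mulVec, dotProduct, Matrix.map_apply, Complex.re_sum, Complex.mul_re,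
      Complex.ofReal_re, Complex.ofReal_im, zero_mul, sub_zero]
  have e2 : ∀ σ, (opM V y σ).im = V.mulVec (fun σ => (y σ).im) σ := by
    intro σ
    unfold opM
    rw [Matrix.toLin'_apply]
    simp only [Matrix.mulVec, dotProduct, Matrix.map_apply, Complex.im_sum, Complex.mul_im,
      Complex.ofReal_re, Complex.ofReal_im, zero_mul, add_zero]
  have e3 : ∀ w : ℂ, ‖w‖ ^ 2 = w.re ^ 2 + w.im ^ 2 := by
    intro w
    rw [← Complex.normSq_eq_norm_sq, Complex.normSq_apply]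
    ring
  simp only [e3, e1, e2, Finset.sum_add_distrib]
  nlinarith

theorem plus_bound {v : ℝ} (hv : 1 < v) (n : ℕ) {Ω : (Fin (n + 1) → Bool) → ℝ} {Λ : ℝ}
    (hP : PFvec (Vm true (κs v) n) Ω Λ) (z : Sp (n + 3)) (hz : PP n (true, true) z = z) :
    ∑ σ, ‖VV v (fL (m := n + 2)) gL z σ‖ ^ 2 ≤ (Λ / nfL v n) ^ 2 * ∑ σ, ‖z σ‖ ^ 2 := by
  have hsum : ∀ y : Sp (n + 3), PP n (true, true) y = y → ∑ σ, ‖y σ‖ ^ 2 = ∑ τ, ‖RR y τ‖ ^ 2 := by
    intro y hy
    symm
    refine Finset.sum_of_injOn ext0 (fun _ _ _ _ h => ext0_inj h) (by simp) ?_ (fun _ _ => rfl)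
    intro σ _ hσ
    rw [← hy]
    change ‖(((if σ 0 = true ∧ σ (Fin.last _) = true then 1 else 0 : ℝ)) : ℂ) * y σ‖ ^ 2 = 0
    rw [if_neg]
    · simp
    · rintro ⟨h0, h1⟩
      obtain ⟨τ, hτ⟩ := ext0_surj σ h0 h1
      exact hσ ⟨τ, by simp, hτ⟩
  rw [hsum z hz, hsum _ (by rw [← VV_PP, hz])]
  have h1 := bound_complex hP (RR z)
  rw [← RR_VV hv] at h1
  have h2 : ∀ τ, ‖(((nfL v n : ℝ) : ℂ) • RR (VV v (fL (m := n + 2)) gL z)) τ‖ ^ 2 =
      nfL v n ^ 2 * ‖RR (VV v (fL (m := n + 2)) gL z) τ‖ ^ 2 := by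
    intro τ
    rw [Pi.smul_apply, norm_smul, Complex.norm_real, Real.norm_eq_abs, mul_pow, sq_abs]
  rw [Finset.sum_congr rfl fun τ _ => h2 τ, ← Finset.mul_sum] at h1
  have h3 := nfL_pos v n
  rw [div_pow, div_mul_eq_mul_div, le_div_iff₀ (by positivity)]
  linarith

theorem Zo_fix {N : ℕ} {z : Sp N} {k : Fin N} (h : Zo k z = z) (σ : Fin N → Bool)
    (hσ : σ k = false) : z σ = 0 := by
  have h1 := congrFun h σ
  change (sg (σ k) : ℂ) * z σ = z σ at h1
  rw [hσ] at h1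
  simp only [sg] at h1
  norm_num at h1
  have h2 : (2 : ℂ) * z σ = 0 := by linear_combination -h1
  simpa using h2

theorem sector_bound {v : ℝ} (hv : 1 < v) (n : ℕ) {Ω : (Fin (n + 1) → Bool) → ℝ} {Λ : ℝ}
    (hP : PFvec (Vm true (κs v) n) Ω Λ) (s : Bool × Bool) (x : Sp (n + 3)) (hx : PP n s x = x) :
    ∑ σ, ‖VV v (fL (m := n + 2)) gL x σ‖ ^ 2 ≤ (Λ / nfL v n) ^ 2 * ∑ σ, ‖x σ‖ ^ 2 := by
  set z : Sp (n + 3) := inv' fun S => ((‖hat x S‖ : ℝ) : ℂ) with hzdef
  have hz : ∀ S, hat z S = ((‖hat x S‖ : ℝ) : ℂ) := fun S => hat_inv _ S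
  have hdom : Dom x z := fun S => ⟨‖hat x S‖, hz S, le_rfl⟩
  have hZ0 : Zo 0 x = (sg s.1 : ℂ) • x := by
    funext σ
    change (sg (σ 0) : ℂ) * x σ = (sg s.1 : ℂ) * x σ
    by_cases h : σ 0 = s.1
    · rw [h]
    · have h1 := congrFun hx σ
      change (((if σ 0 = s.1 ∧ σ (Fin.last _) = s.2 then 1 else 0 : ℝ)) : ℂ) * x σ = x σ at h1
      rw [if_neg (by tauto)] at h1
      rw [← h1]
      simp
  have hZ1 : Zo (Fin.last (n + 2)) x = (sg s.2 : ℂ) • x := by
    funext σ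
    change (sg (σ (Fin.last (n + 2))) : ℂ) * x σ = (sg s.2 : ℂ) * x σ
    by_cases h : σ (Fin.last (n + 2)) = s.2
    · rw [h]
    · have h1 := congrFun hx σ
      change (((if σ 0 = s.1 ∧ σ (Fin.last _) = s.2 then 1 else 0 : ℝ)) : ℂ) * x σ = x σ at h1
      rw [if_neg (by tauto)] at h1
      rw [← h1]
      simp
  have hns : ∀ b : Bool, ‖(sg b : ℂ)‖ = 1 := by
    intro b
    cases b <;> simp [sg]
  have key : ∀ (k : Fin (n + 3)) (b : Bool), Zo k x = (sg b : ℂ) • x → Zo k z = z := by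
    intro k b hk
    have h1 : ∀ S, hat (Zo k z) S = hat z S := by
      intro S
      rw [hat_Zo, hz, hz, ← hat_Zo, hk, hat_smul, norm_mul, hns, one_mul]
    rw [← inv_hat (Zo k z), ← inv_hat z]
    congr 1
    funext S
    rw [inv_hat z]
    exact h1 S
  have hzP : PP n (true, true) z = z := by
    funext σ
    change (((if σ 0 = true ∧ σ (Fin.last _) = true then 1 else 0 : ℝ)) : ℂ) * z σ = z σ
    split_ifs with h
    · simp
    · rw [not_and_or] at h
      rcases h with h | h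
      · rw [Zo_fix (key 0 s.1 hZ0) σ (by simpa using h)]
        simp
      · rw [Zo_fix (key _ s.2 hZ1) σ (by simpa using h)]
        simp
  have hn : ∑ σ, ‖z σ‖ ^ 2 = ∑ σ, ‖x σ‖ ^ 2 := by
    refine le_antisymm (norm_le_of_hat fun S => ?_) hdom.norm_le
    rw [hz]
    simp
  rw [← hn]
  exact (VV_dom hv n hdom).norm_le.trans (plus_bound hv n hP z hzP)

theorem sum_PP (n : ℕ) (y : Sp (n + 3)) :
    ∑ s : Bool × Bool, ∑ σ, ‖PP n s y σ‖ ^ 2 = ∑ σ, ‖y σ‖ ^ 2 := by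
  rw [Finset.sum_comm]
  refine Finset.sum_congr rfl fun σ _ => ?_
  rw [Finset.sum_eq_single (σ 0, σ (Fin.last _))]
  · change ‖(((if σ 0 = σ 0 ∧ σ (Fin.last _) = σ (Fin.last _) then 1 else 0 : ℝ)) : ℂ) * y σ‖ ^ 2 = _
    simp
  · intro s _ hs
    change ‖(((if σ 0 = s.1 ∧ σ (Fin.last _) = s.2 then 1 else 0 : ℝ)) : ℂ) * y σ‖ ^ 2 = _
    rw [if_neg]
    · simp
    · rintro ⟨h1, h2⟩
      exact hs (Prod.ext h1.symm h2.symm)
  · simp

end WB

open WB in
theorem wall_bound {v : ℝ} (hv : 1 < v) (n : ℕ) {Ω : (Fin (n + 1) → Bool) → ℝ} {Λ : ℝ}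
    (hP : PFvec (Vm true (κs v) n) Ω Λ) (x : Sp (n + 3)) :
    ∑ σ, ‖VV v (fL (m := n + 2)) gL x σ‖ ^ 2 ≤ (Λ / nfL v n) ^ 2 * ∑ σ, ‖x σ‖ ^ 2 := by
  rw [← sum_PP n (VV v (fL (m := n + 2)) gL x), ← sum_PP n x, Finset.mul_sum]
  refine Finset.sum_le_sum fun s _ => ?_
  rw [← VV_PP]
  refine sector_bound hv n hP s _ ?_
  funext σ
  change (((if σ 0 = s.1 ∧ σ (Fin.last _) = s.2 then 1 else 0 : ℝ)) : ℂ) *
    ((((if σ 0 = s.1 ∧ σ (Fin.last _) = s.2 then 1 else 0 : ℝ)) : ℂ) * x σ) =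
    (((if σ 0 = s.1 ∧ σ (Fin.last _) = s.2 then 1 else 0 : ℝ)) : ℂ) * x σ
  split_ifs <;> simp

end

end IsingS2
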