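import Pool.Agent.Helper98.IS.ChainSpin
import Pool.Agent.Helper98.IS.ChainSpinB
import Pool.Agent.Helper98.IS.Spin
import Pool.Agent.Helper98.IS.WallBound
import Pool.Agent.Helper98.IS.VacBound

/-!
# IS-18: the vacuum of the low temperature strip
-/

namespace IsingS2

open Complex Set MeasureTheory Filter Topology IsingNB
open scoped Real Matrix

noncomputable section

/-- restriction to the inner spins -/
private def ltR {n : ℕ} (σ : Fin (n + 3) → Bool) : Fin (n + 1) → Bool :=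
  fun i => σ i.succ.castSucc

/-- extension by walls `+` -/
private def ltW {n : ℕ} (τ : Fin (n + 1) → Bool) : Fin (n + 3) → Bool :=
  fun i => if h : 0 < (i : ℕ) ∧ (i : ℕ) < n + 2 then τ ⟨(i : ℕ) - 1, by omega⟩ else true

/-- functions of the inner spins, supported on walls `+` -/
private def ltE (n : ℕ) : Sp (n + 1) →ₗ[ℂ] Sp (n + 3) where
  toFun ψ := fun σ => if σ 0 = true ∧ σ (Fin.last _) = true then ψ (ltR σ) else 0
  map_add' x y := by
    funext σ
    by_cases h : σ 0 = true ∧ σ (Fin.last _) = true <;> simp [h]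
  map_smul' r x := by
    funext σ
    by_cases h : σ 0 = true ∧ σ (Fin.last _) = true <;> simp [h]

private theorem ltE_apply {n : ℕ} (ψ : Sp (n + 1)) (σ : Fin (n + 3) → Bool) :
    ltE n ψ σ = if σ 0 = true ∧ σ (Fin.last _) = true then ψ (ltR σ) else 0 := rfl

private theorem ltR_ltW {n : ℕ} (τ : Fin (n + 1) → Bool) : ltR (ltW τ) = τ := by
  funext i
  have h : 0 < ((i.succ.castSucc : Fin (n + 3)) : ℕ) ∧ ((i.succ.castSucc : Fin (n + 3)) : ℕ) < n + 2 := by
    have := i.2
    simp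
    omega
  unfold ltR ltW
  rw [dif_pos h]
  congr 1

private theorem ltW_zero {n : ℕ} (τ : Fin (n + 1) → Bool) : ltW τ 0 = true := by
  unfold ltW
  rw [dif_neg]
  simp

private theorem ltW_last {n : ℕ} (τ : Fin (n + 1) → Bool) : ltW τ (Fin.last _) = true := by
  unfold ltW
  rw [dif_neg]
  simp

private theorem ltW_ltR {n : ℕ} {σ : Fin (n + 3) → Bool} (h : σ 0 = true ∧ σ (Fin.last _) = true) :
    ltW (ltR σ) = σ := by
  funext i
  unfold ltW ltR
  by_cases h1 : 0 < (i : ℕ) ∧ (i : ℕ) < n + 2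
  · rw [dif_pos h1]
    congr 1
    ext
    simp
    omega
  · rw [dif_neg h1]
    by_cases h2 : (i : ℕ) = 0
    · have h3 : i = 0 := Fin.ext h2
      rw [h3, h.1]
    · have h3 : i = Fin.last _ := by
        ext
        have := i.2
        simp
        omega
      rw [h3, h.2]

private theorem ltE_ltW {n : ℕ} (ψ : Sp (n + 1)) (τ : Fin (n + 1) → Bool) :
    ltE n ψ (ltW τ) = ψ τ := by
  rw [ltE_apply, if_pos ⟨ltW_zero τ, ltW_last τ⟩, ltR_ltW]

/-- sums over configurations with walls `+` -/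
private theorem lt_sum {n : ℕ} {F : (Fin (n + 3) → Bool) → ℂ}
    (hF : ∀ σ, ¬(σ 0 = true ∧ σ (Fin.last _) = true) → F σ = 0) :
    ∑ σ, F σ = ∑ τ : Fin (n + 1) → Bool, F (ltW τ) := by
  symm
  refine Fintype.sum_of_injective ltW (fun τ τ' h => ?_) _ _ (fun σ hσ => ?_) fun τ => rfl
  · rw [← ltR_ltW τ, ← ltR_ltW τ', h]
  · refine hF σ fun h => hσ ⟨ltR σ, ltW_ltR h⟩

private theorem lt_pair {n : ℕ} (ψ φ : Sp (n + 1)) :
    pair (ltE n ψ) (ltE n φ) = ∑ τ, ψ τ * φ τ := by
  change ∑ σ, ltE n ψ σ * ltE n φ σ = _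
  rw [lt_sum]
  · exact Finset.sum_congr rfl fun τ _ => by rw [ltE_ltW, ltE_ltW]
  · intro σ hσ
    rw [ltE_apply, if_neg hσ, zero_mul]

private theorem lt_action {n : ℕ} {σ : Fin (n + 3) → Bool}
    (h : σ 0 = true ∧ σ (Fin.last _) = true) :
    ∑ k : Fin (n + 2), sg (σ k.castSucc) * sg (σ k.succ) =
      (∑ a : Fin n, sg (ltR σ a.castSucc) * sg (ltR σ a.succ)) +
        (sg (ltR σ 0) + sg (ltR σ (Fin.last n))) := by
  rw [Fin.sum_univ_succ, Fin.sum_univ_castSucc]
  have e1 : sg (σ (0 : Fin (n + 2)).castSucc) * sg (σ (0 : Fin (n + 2)).succ) = sg (ltR σ 0) := by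
    have a1 : σ (0 : Fin (n + 2)).castSucc = true := h.1
    have a2 : σ (0 : Fin (n + 2)).succ = ltR σ 0 := rfl
    rw [a1, a2]
    simp [sg]
  have e2 : sg (σ (Fin.last n).succ.castSucc) * sg (σ (Fin.last n).succ.succ) =
      sg (ltR σ (Fin.last n)) := by
    have a1 : σ (Fin.last n).succ.succ = true := h.2
    have a2 : σ (Fin.last n).succ.castSucc = ltR σ (Fin.last n) := rfl
    rw [a1, a2]
    simp [sg]
  have e3 : ∀ a : Fin n, sg (σ a.castSucc.succ.castSucc) * sg (σ a.castSucc.succ.succ) =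
      sg (ltR σ a.castSucc) * sg (ltR σ a.succ) := fun a => rfl
  rw [e1, e2, Finset.sum_congr rfl fun a _ => e3 a]
  ring

private theorem lt_Sh (v : ℝ) {n : ℕ} (ψ : Sp (n + 1)) :
    Sh v (fL (m := n + 2)) gL (ltE n ψ) =
      ltE n (mulO (fun τ => Real.sqrt (Av true (κs v) n τ)) ψ) := by
  rw [Sh_L]
  funext σ
  change ((Real.exp (κs v / 2 * ∑ k : Fin (n + 2), sg (σ k.castSucc) * sg (σ k.succ)) : ℝ) : ℂ) *
    ltE n ψ σ = _
  rw [ltE_apply, ltE_apply]
  by_cases h : σ 0 = true ∧ σ (Fin.last _) = true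
  · rw [if_pos h, if_pos h, lt_action h]
    change _ = ((Real.sqrt (Av true (κs v) n (ltR σ)) : ℝ) : ℂ) * ψ (ltR σ)
    unfold Av
    rw [if_pos rfl, ← Real.exp_half]
    congr 3
    ring
  · rw [if_neg h, if_neg h, mul_zero]

private theorem lt_X {n : ℕ} (a : Fin (n + 1)) (ψ : Sp (n + 1)) :
    Xo (n := n + 3) a.succ.castSucc (ltE n ψ) = ltE n (Xo a ψ) := by
  funext σ
  change ltE n ψ (Function.update σ a.succ.castSucc (!(σ a.succ.castSucc))) = _
  rw [ltE_apply, ltE_apply]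
  have h0 : Function.update σ a.succ.castSucc (!(σ a.succ.castSucc)) 0 = σ 0 := by
    refine Function.update_of_ne ?_ _ _
    intro h
    have := congrArg Fin.val h
    simp at this
  have h1 : Function.update σ a.succ.castSucc (!(σ a.succ.castSucc)) (Fin.last _) =
      σ (Fin.last _) := by
    refine Function.update_of_ne ?_ _ _
    intro h
    have h2 := congrArg Fin.val h
    have := a.2
    simp at h2
    omega
  have h2 : ltR (Function.update σ a.succ.castSucc (!(σ a.succ.castSucc))) =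
      Function.update (ltR σ) a (!(ltR σ a)) := by
    funext i
    unfold ltR
    by_cases hi : i = a
    · rw [hi, Function.update_self, Function.update_self]
    · rw [Function.update_of_ne hi, Function.update_of_ne]
      intro h
      apply hi
      have h3 := congrArg Fin.val h
      simp at h3
      exact Fin.ext h3
  rw [h0, h1, h2]
  rfl

private theorem lt_Wk (v : ℝ) {n : ℕ} (ψ : Sp (n + 1)) :
    Wk v (fL (m := n + 2)) gL (ltE n ψ) = ltE n (eX (κw v) (n + 1) ψ) := by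
  rw [Wk_L]
  unfold eX
  have key : ∀ (l : List (Fin (n + 1))) (ψ : Sp (n + 1)),
      (l.map fun a : Fin (n + 1) =>
        ((Real.cosh (κw v) : ℝ) : ℂ) • (1 : Module.End ℂ (Sp (n + 3))) +
          ((Real.sinh (κw v) : ℝ) : ℂ) • Xo (n := n + 3) a.succ.castSucc).prod (ltE n ψ) =
      ltE n ((l.map fun a : Fin (n + 1) =>
        ((Real.cosh (κw v) : ℝ) : ℂ) • (1 : Module.End ℂ (Sp (n + 1))) +
          ((Real.sinh (κw v) : ℝ) : ℂ) • Xo a).prod ψ) := by
    intro l
    induction l with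
    | nil => intro ψ; rfl
    | cons a l ih =>
      intro ψ
      rw [List.map_cons, List.prod_cons, List.map_cons, List.prod_cons]
      rw [Module.End.mul_apply, Module.End.mul_apply, ih]
      rw [LinearMap.add_apply, LinearMap.smul_apply, LinearMap.smul_apply, Module.End.one_apply,
        LinearMap.add_apply, LinearMap.smul_apply, LinearMap.smul_apply, Module.End.one_apply,
        map_add, map_smul, map_smul, lt_X]
  exact key _ ψ

private theorem lt_nfL_pos (v : ℝ) (n : ℕ) : 0 < nfL v n := by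
  unfold nfL
  have := Real.cosh_pos (κw v)
  positivity

private theorem lt_VV {v : ℝ} (hv : 1 < v) {n : ℕ} (ψ : Sp (n + 1)) :
    VV v (fL (m := n + 2)) gL (ltE n ψ) =
      ((nfL v n : ℝ) : ℂ)⁻¹ • ltE n (opM (Vm true (κs v) n) ψ) := by
  have hn : ((nfL v n : ℝ) : ℂ) ≠ 0 := by exact_mod_cast (lt_nfL_pos v n).ne'
  unfold VV
  rw [Module.End.mul_apply, Module.End.mul_apply, lt_Sh, lt_Wk, lt_Sh, opM_Vm,
    opM_Bm_L (by linarith)]
  rw [Module.End.mul_apply, Module.End.mul_apply, LinearMap.smul_apply, map_smul, map_smul,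
    smul_smul, inv_mul_cancel₀ hn, one_smul]

private theorem lt_opM_one (n : ℕ) :
    opM (1 : Matrix (Fin n → Bool) (Fin n → Bool) ℝ) = 1 := by
  unfold opM
  rw [Matrix.map_one _ ofReal_zero ofReal_one, Matrix.toLin'_one]
  rfl

private theorem lt_opM_pow {n : ℕ} (A : Matrix (Fin n → Bool) (Fin n → Bool) ℝ) (N : ℕ) :
    opM (A ^ N) = opM A ^ N := by
  induction N with
  | zero => rw [pow_zero, pow_zero, lt_opM_one]
  | succ N ih => rw [pow_succ, pow_succ, opM_mul, ih]

private theorem lt_VV_pow {v : ℝ} (hv : 1 < v) {n : ℕ} (N : ℕ) (ψ : Sp (n + 1)) :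
    (VV v (fL (m := n + 2)) gL ^ N) (ltE n ψ) =
      (((nfL v n : ℝ) : ℂ)⁻¹) ^ N • ltE n (opM (Vm true (κs v) n ^ N) ψ) := by
  induction N with
  | zero => rw [pow_zero, pow_zero, pow_zero, lt_opM_one, one_smul]; rfl
  | succ N ih =>
    rw [pow_succ' (VV v fL gL), Module.End.mul_apply, ih, map_smul, lt_VV hv, smul_smul,
      ← pow_succ, pow_succ' (Vm true (κs v) n), opM_mul, Module.End.mul_apply]

private theorem lt_opM_real {n : ℕ} (A : Matrix (Fin n → Bool) (Fin n → Bool) ℝ)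
    (x : (Fin n → Bool) → ℝ) (τ : Fin n → Bool) :
    opM A (fun σ => ((x σ : ℝ) : ℂ)) τ = ((A.mulVec x τ : ℝ) : ℂ) := by
  change (A.map fun x : ℝ => (x : ℂ)).mulVec (fun σ => ((x σ : ℝ) : ℂ)) τ = _
  simp only [Matrix.mulVec, dotProduct, Matrix.map_apply]
  push_cast
  rfl

private theorem lt_opM_Zd {n : ℕ} (a : Fin (n + 1)) : opM (Zd n a) = Zo a := by
  refine LinearMap.ext fun φ => ?_
  funext σ
  change ((Matrix.diagonal fun σ : Fin (n + 1) → Bool => sg (σ a)).map
    fun x : ℝ => (x : ℂ)).mulVec φ σ = (sg (σ a) : ℂ) * φ σ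
  rw [Matrix.diagonal_map ofReal_zero, Matrix.mulVec_diagonal]

/-- symmetric for the bilinear pairing -/
private def ltSym {n : ℕ} (T : Module.End ℂ (Sp n)) : Prop :=
  ∀ x y : Sp n, ∑ σ, T x σ * y σ = ∑ σ, x σ * T y σ

private theorem ltSym_one (n : ℕ) : ltSym (1 : Module.End ℂ (Sp n)) := fun x y => rfl

private theorem ltSym_mulO {n : ℕ} (F : (Fin n → Bool) → ℝ) : ltSym (mulO F) := by
  intro x y
  refine Finset.sum_congr rfl fun σ _ => ?_
  change (F σ : ℂ) * x σ * y σ = x σ * ((F σ : ℂ) * y σ)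
  ring

private theorem lt_flip {n : ℕ} (a : Fin n) (σ : Fin n → Bool) :
    Function.update (Function.update σ a (!(σ a))) a
      (!((Function.update σ a (!(σ a))) a)) = σ := by
  rw [Function.update_self, Bool.not_not, Function.update_idem, Function.update_eq_self]

private theorem ltSym_X {n : ℕ} (a : Fin n) : ltSym (Xo a) := by
  intro x y
  change ∑ σ, x (Function.update σ a (!(σ a))) * y σ = ∑ σ, x σ * y (Function.update σ a (!(σ a)))
  have hinv : Function.Involutive (fun σ : Fin n → Bool => Function.update σ a (!(σ a))) :=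
    fun σ => lt_flip a σ
  rw [← Equiv.sum_comp hinv.toPerm]
  refine Finset.sum_congr rfl fun σ _ => ?_
  change x (Function.update (Function.update σ a (!(σ a))) a
      (!((Function.update σ a (!(σ a))) a))) * y (Function.update σ a (!(σ a))) = _
  rw [lt_flip]

private theorem ltSym_add {n : ℕ} {S T : Module.End ℂ (Sp n)} (hS : ltSym S) (hT : ltSym T) :
    ltSym (S + T) := by
  intro x y
  simp only [LinearMap.add_apply, Pi.add_apply, add_mul, mul_add, Finset.sum_add_distrib]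
  rw [hS x y, hT x y]

private theorem ltSym_smul {n : ℕ} (r : ℂ) {T : Module.End ℂ (Sp n)} (hT : ltSym T) :
    ltSym (r • T) := by
  intro x y
  have h := congrArg (fun z => r * z) (hT x y)
  simp only [Finset.mul_sum] at h
  simp only [LinearMap.smul_apply, Pi.smul_apply, smul_eq_mul]
  rw [Finset.sum_congr rfl fun σ _ => mul_assoc r (T x σ) (y σ), h]
  exact Finset.sum_congr rfl fun σ _ => by ring

private theorem ltSym_mul {n : ℕ} {S T : Module.End ℂ (Sp n)} (hS : ltSym S) (hT : ltSym T)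
    (h : Commute S T) : ltSym (S * T) := by
  intro x y
  have h1 : (S * T) y = T (S y) := by rw [h.eq]; rfl
  rw [h1]
  change ∑ σ, S (T x) σ * y σ = _
  rw [hS (T x) y, hT x (S y)]

private theorem lt_comm_X {n : ℕ} (a b : Fin n) : Commute (Xo a) (Xo b) := by
  refine LinearMap.ext fun φ => ?_
  funext σ
  change φ (Function.update (Function.update σ a (!(σ a))) b
      (!((Function.update σ a (!(σ a))) b))) =
    φ (Function.update (Function.update σ b (!(σ b))) a
      (!((Function.update σ b (!(σ b))) a)))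
  by_cases hab : a = b
  · subst hab
    rfl
  · rw [Function.update_of_ne (Ne.symm hab), Function.update_of_ne hab,
      Function.update_comm hab]

private theorem ltSym_list {n : ℕ} (r s : ℂ) (l : List (Fin n)) :
    ltSym (l.map fun a : Fin n => r • (1 : Module.End ℂ (Sp n)) + s • Xo a).prod := by
  induction l with
  | nil => exact ltSym_one n
  | cons a l ih =>
    rw [List.map_cons, List.prod_cons]
    refine ltSym_mul (ltSym_add (ltSym_smul r (ltSym_one n)) (ltSym_smul s (ltSym_X a))) ih ?_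
    refine Commute.list_prod_right _ _ fun T hT => ?_
    obtain ⟨b, _, rfl⟩ := List.mem_map.1 hT
    refine Commute.add_left ?_ ?_
    · exact (Commute.one_left _).smul_left r
    · refine Commute.smul_left ?_ s
      exact ((Commute.one_right _).smul_right r).add_right ((lt_comm_X a b).smul_right s)

private theorem ltSym_VV (v : ℝ) (n : ℕ) : ltSym (VV v (fL (m := n + 2)) gL) := by
  have h1 : ltSym (Sh v (fL (m := n + 2)) gL) := by
    rw [Sh_L]
    exact ltSym_mulO _
  have h2 : ltSym (Wk v (fL (m := n + 2)) gL) := by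
    rw [Wk_L]
    have e : ((List.finRange (n + 1)).map fun a : Fin (n + 1) =>
      ((Real.cosh (κw v) : ℝ) : ℂ) • (1 : Module.End ℂ (Sp (n + 3))) +
        ((Real.sinh (κw v) : ℝ) : ℂ) • Xo (n := n + 3) a.succ.castSucc) =
      (((List.finRange (n + 1)).map fun a : Fin (n + 1) => (a.succ.castSucc : Fin (n + 3))).map
        fun a : Fin (n + 3) =>
        ((Real.cosh (κw v) : ℝ) : ℂ) • (1 : Module.End ℂ (Sp (n + 3))) +
          ((Real.sinh (κw v) : ℝ) : ℂ) • Xo a) := by
      rw [List.map_map]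
      rfl
    rw [e]
    exact ltSym_list _ _ _
  intro x y
  unfold VV
  change ∑ σ, Sh v fL gL (Wk v fL gL (Sh v fL gL x)) σ * y σ =
    ∑ σ, x σ * Sh v fL gL (Wk v fL gL (Sh v fL gL y)) σ
  rw [h1, h2, h1]

private theorem lt_Oa {n : ℕ} (a : Fin (n + 1)) (ψ : Sp (n + 1)) :
    Oa ((a : ℕ) + 1) (fL (m := n + 2)) gL (ltE n ψ) = ltE n (Zo a ψ) := by
  have h := Oa_wall (m := n + 2) a.succ.castSucc
  have e : ((a.succ.castSucc : Fin (n + 3)) : ℕ) = (a : ℕ) + 1 := by simp
  rw [e] at h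
  rw [h]
  funext σ
  change (sg (σ 0) : ℂ) * ((sg (σ a.succ.castSucc) : ℂ) * ltE n ψ σ) = _
  rw [ltE_apply, ltE_apply]
  by_cases hσ : σ 0 = true ∧ σ (Fin.last _) = true
  · rw [if_pos hσ, if_pos hσ, hσ.1]
    change _ = (sg (ltR σ a) : ℂ) * ψ (ltR σ)
    simp [sg, ltR]
  · rw [if_neg hσ, if_neg hσ, mul_zero, mul_zero]

/-! ## IS-18 Low temperature strip -/
theorem LT_vac {v : ℝ} (hv : 1 < v) (n : ℕ) {Ω : (Fin (n + 1) → Bool) → ℝ} {Λ : ℝ}
    (hP : PFvec (Vm true (κs v) n) Ω Λ) :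
    ∃ (Ω2 : Sp (n + 3)) (Λ2 : ℂ), Vac v (fL (m := n + 2)) gL Ω2 (pair Ω2) Λ2 ∧
      (∀ (a b : Fin (n + 1)) (N : ℕ),
        Ech v (fL (m := n + 2)) gL Ω2 (pair Ω2) Λ2 (a + 1) (b + 1) N =
        ((Ω ⬝ᵥ (Zd n a * Vm true (κs v) n ^ N * Zd n b).mulVec Ω / Λ ^ N : ℝ) : ℂ)) ∧
      ∀ a : Fin (n + 1), pair Ω2 (Oa (a + 1) (fL (m := n + 2)) gL Ω2) =
        ((Ω ⬝ᵥ (Zd n a).mulVec Ω : ℝ) : ℂ) := by
  have hnf := lt_nfL_pos v n
  have hnfC : ((nfL v n : ℝ) : ℂ) ≠ 0 := by exact_mod_cast hnf.ne'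
  have hΛC : (Λ : ℂ) ≠ 0 := by exact_mod_cast hP.Λ_pos.ne'
  set ΩC : Sp (n + 1) := fun σ => ((Ω σ : ℝ) : ℂ) with hΩC
  have hsq : ∑ σ, ltE n ΩC σ * ltE n ΩC σ = 1 := by
    have h1 := lt_pair ΩC ΩC
    change ∑ σ, ltE n ΩC σ * ltE n ΩC σ = _ at h1
    rw [h1]
    have h2 := congrArg (fun x : ℝ => (x : ℂ)) hP.norm
    simp only [ofReal_sum, ofReal_pow, ofReal_one] at h2
    rw [← h2]
    exact Finset.sum_congr rfl fun τ _ => (sq _).symm
  have heig : VV v (fL (m := n + 2)) gL (ltE n ΩC) = ((Λ / nfL v n : ℝ) : ℂ) • ltE n ΩC := by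
    rw [lt_VV hv]
    have h1 : opM (Vm true (κs v) n) ΩC = (Λ : ℂ) • ΩC := by
      funext τ
      rw [hΩC, lt_opM_real, hP.eig]
      simp
    rw [h1, map_smul, smul_smul]
    congr 1
    push_cast
    field_simp
  refine ⟨ltE n ΩC, ((Λ / nfL v n : ℝ) : ℂ), ?_, ?_, ?_⟩
  · exact vac_of_bound hv (car_wall (n + 2)) (div_pos hP.Λ_pos hnf) heig hsq (ltSym_VV v n)
      (wall_bound hv n hP)
  · intro a b N
    unfold Ech
    rw [lt_Oa, lt_VV_pow hv, map_smul, lt_Oa, map_smul, lt_pair, smul_eq_mul]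
    have h1 : ∀ τ, Zo a (opM (Vm true (κs v) n ^ N) (Zo b ΩC)) τ =
        (((Zd n a * Vm true (κs v) n ^ N * Zd n b).mulVec Ω τ : ℝ) : ℂ) := by
      intro τ
      rw [← lt_opM_real, opM_mul, opM_mul, lt_opM_Zd, lt_opM_Zd]
      rfl
    rw [Finset.sum_congr rfl fun τ _ => by rw [h1 τ]]
    push_cast
    simp only [dotProduct, hΩC]
    push_cast
    rw [div_pow, inv_pow]
    field_simp
  · intro a
    rw [lt_Oa, lt_pair]
    have h1 : ∀ τ, Zo a ΩC τ = (((Zd n a).mulVec Ω τ : ℝ) : ℂ) := by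
      intro τ
      rw [← lt_opM_real, lt_opM_Zd]
    rw [Finset.sum_congr rfl fun τ _ => by rw [h1 τ]]
    simp only [dotProduct, hΩC]
    push_cast
    rfl

end

end IsingS2
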