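import Pool.Agent.Helper98.IS.Band
import Pool.Agent.Helper98.IS.FC
import Pool.Agent.Helper98.IS.Symbols
import Pool.Agent.Helper98.IS.Coupling
import Pool.Agent.Helper98.IS.SymbolsB

/-!
# IS-26: Wiener-Hopf factorisation

`Y0 = b₋ Π b₋⁻¹ - b₊ Π b₊⁻¹` solves `D0 Y0 = B0`.
-/

namespace IsingS2

open Complex Set MeasureTheory Filter Topology IsingNB
open scoped Real Matrix

noncomputable section

namespace WH

/-! ### multiplication with the projection -/

theorem mm_Pi (A : ℤ → ℤ → ℂ) (k l : ℤ) : mm A PiZ k l = if 0 ≤ l then A k l else 0 := by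
  unfold mm PiZ
  rw [tsum_eq_single l]
  · by_cases h : 0 ≤ l <;> simp [h]
  · intro i hi
    simp [hi]

theorem Pi_mm (A : ℤ → ℤ → ℂ) (k l : ℤ) : mm PiZ A k l = if 0 ≤ k then A k l else 0 := by
  unfold mm PiZ
  rw [tsum_eq_single k]
  · by_cases h : 0 ≤ k <;> simp [h]
  · intro i hi
    have : ¬ (k = i ∧ 0 ≤ k) := fun h => hi h.1.symm
    simp [this]

theorem Pi_mv (u : ℤ → ℂ) (k : ℤ) : mv PiZ u k = if 0 ≤ k then u k else 0 := by
  unfold mv PiZ
  rw [tsum_eq_single k]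
  · by_cases h : 0 ≤ k <;> simp [h]
  · intro i hi
    have : ¬ (k = i ∧ 0 ≤ k) := fun h => hi h.1.symm
    simp [this]

theorem mv_dl (A : ℤ → ℤ → ℂ) (a k : ℤ) : mv A (dl a) k = A k a := by
  unfold mv dl
  rw [tsum_eq_single a]
  · simp
  · intro i hi
    simp [hi]

theorem one_mv (u : ℤ → ℂ) : mv one' u = u := by
  funext k
  unfold mv one'
  rw [tsum_eq_single k]
  · simp
  · intro i hi
    have : ¬ (k = i) := fun h => hi h.symm
    simp [this]

/-- `Π A Π = A Π` for matrices with `A k l = 0` for `k < 0 ≤ l` -/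
theorem Pi_mm_Pi_left {A : ℤ → ℤ → ℂ} (h : ∀ k l, k < l → A k l = 0) :
    mm (mm PiZ A) PiZ = mm A PiZ := by
  funext k l
  rw [mm_Pi, Pi_mm, mm_Pi]
  by_cases hl : 0 ≤ l
  · by_cases hk : 0 ≤ k
    · simp [hl, hk]
    · simp only [hl, hk, if_true, if_false]
      rw [h k l (by omega)]
  · simp [hl]

/-- `Π A Π = Π A` -/
theorem Pi_mm_Pi_right {A : ℤ → ℤ → ℂ} (h : ∀ k l, l < k → A k l = 0) :
    mm (mm PiZ A) PiZ = mm PiZ A := by
  funext k l
  rw [mm_Pi, Pi_mm]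
  by_cases hl : 0 ≤ l
  · simp [hl]
  · by_cases hk : 0 ≤ k
    · simp only [hl, hk, if_true, if_false]
      rw [h k l (by omega)]
    · simp [hl, hk]

theorem mm_transpose (A B : ℤ → ℤ → ℂ) (k l : ℤ) :
    mm A B l k = mm (fun i j => B j i) (fun i j => A j i) k l := by
  unfold mm
  exact tsum_congr fun i => mul_comm _ _

/-- the commutator of a banded matrix with `Π` is localised -/
theorem comm_LL {A : ℤ → ℤ → ℂ} (hA : BB A) :
    LL (fun k l => mm A PiZ k l + -mm PiZ A k l) := by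
  obtain ⟨C, q, hC, hq, hq1, h⟩ := hA
  refine ⟨C, q, hC, hq, hq1, ?_⟩
  intro k l
  show ‖mm A PiZ k l + -mm PiZ A k l‖ ≤ _
  rw [mm_Pi, Pi_mm]
  have h0 : 0 ≤ C * q ^ (k.natAbs + l.natAbs) := by positivity
  by_cases hl : 0 ≤ l
  · by_cases hk : 0 ≤ k
    · simpa [hl, hk] using h0
    · simp only [hl, hk, if_true, if_false, neg_zero, add_zero]
      have : (k - l).natAbs = k.natAbs + l.natAbs := by omega
      rw [← this]; exact h k l
  · by_cases hk : 0 ≤ k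
    · simp only [hl, hk, if_true, if_false, zero_add, norm_neg]
      have : (k - l).natAbs = k.natAbs + l.natAbs := by omega
      rw [← this]; exact h k l
    · simpa [hl, hk] using h0

/-! ### the ring of banded matrices -/

/-- banded matrices -/
def RB : Type := {A : ℤ → ℤ → ℂ // BB A}

theorem BB_zero : BB (fun _ _ => 0) :=
  ⟨0, 1 / 2, le_refl _, by norm_num, by norm_num, fun k l => by simp⟩

instance : Zero RB := ⟨⟨fun _ _ => 0, BB_zero⟩⟩
instance : One RB := ⟨⟨one', BB_one⟩⟩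
instance : Add RB := ⟨fun A B => ⟨fun k l => A.1 k l + B.1 k l, BB_add A.2 B.2⟩⟩
instance : Neg RB := ⟨fun A => ⟨fun k l => -A.1 k l, BB_neg A.2⟩⟩
instance : Mul RB := ⟨fun A B => ⟨mm A.1 B.1, BB_mm A.2 B.2⟩⟩

theorem RB.ext' {A B : RB} (h : A.1 = B.1) : A = B := Subtype.ext h

theorem RB.add_val (A B : RB) (k l : ℤ) : (A + B).1 k l = A.1 k l + B.1 k l := rfl
theorem RB.neg_val (A : RB) (k l : ℤ) : (-A).1 k l = -A.1 k l := rfl
theorem RB.zero_val (k l : ℤ) : (0 : RB).1 k l = 0 := rfl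
theorem RB.one_val : (1 : RB).1 = one' := rfl
theorem RB.mul_val (A B : RB) : (A * B).1 = mm A.1 B.1 := rfl

instance : Ring RB where
  add_assoc A B C := RB.ext' (by funext k l; simp only [RB.add_val, add_assoc])
  zero_add A := RB.ext' (by funext k l; simp only [RB.add_val, RB.zero_val, zero_add])
  add_zero A := RB.ext' (by funext k l; simp only [RB.add_val, RB.zero_val, add_zero])
  add_comm A B := RB.ext' (by funext k l; simp only [RB.add_val, add_comm])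
  neg_add_cancel A := RB.ext' (by
    funext k l; simp only [RB.add_val, RB.neg_val, RB.zero_val, neg_add_cancel])
  mul_assoc A B C := RB.ext' (mm_assoc A.2 B.2 C.2)
  one_mul A := RB.ext' (one_mm A.1)
  mul_one A := RB.ext' (mm_one A.1)
  left_distrib A B C := RB.ext' (mm_add_right A.2 B.2 C.2)
  right_distrib A B C := RB.ext' (mm_add_left A.2 B.2 C.2)
  zero_mul A := RB.ext' (by
    funext k l
    show mm (fun _ _ => 0) A.1 k l = 0
    simp [mm])
  mul_zero A := RB.ext' (by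
    funext k l
    show mm A.1 (fun _ _ => 0) k l = 0
    simp [mm])
  nsmul := nsmulRec
  zsmul := zsmulRec

/-- the algebra behind the Wiener-Hopf solution -/
theorem wh_ring {R : Type*} [Ring R] (a a' m m' b b' p : R) (h1 : b' * m = a')
    (h2 : b' * a = m') (h3 : b * a' = m) (h4 : m' * a' = b') (h5 : m * m' = 1)
    (p1 : p * a' * p = a' * p) (p2 : p * m' * p = p * m')
    (p3 : p * m * p = p * m) (p4 : p * a * p = a * p) :
    (b * p * b' + p + -1) * (m * p * m' + -(a * p * a')) = p + -(b * p * b') := by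
  have e1 : b * p * b' * (m * p * m') = m * p * m' := by
    calc b * p * b' * (m * p * m') = b * p * (b' * m) * p * m' := by noncomm_ring
      _ = b * (p * a' * p) * m' := by rw [h1]; noncomm_ring
      _ = (b * a') * p * m' := by rw [p1]; noncomm_ring
      _ = m * p * m' := by rw [h3]
  have e2 : b * p * b' * (a * p * a') = b * p * b' := by
    calc b * p * b' * (a * p * a') = b * p * (b' * a) * p * a' := by noncomm_ring
      _ = b * (p * m' * p) * a' := by rw [h2]; noncomm_ring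
      _ = b * p * (m' * a') := by rw [p2]; noncomm_ring
      _ = b * p * b' := by rw [h4]
  have e3 : p * (m * p * m') = p := by
    calc p * (m * p * m') = (p * m * p) * m' := by noncomm_ring
      _ = p * (m * m') := by rw [p3]; noncomm_ring
      _ = p := by rw [h5]; noncomm_ring
  have e4 : p * (a * p * a') = a * p * a' := by
    calc p * (a * p * a') = (p * a * p) * a' := by noncomm_ring
      _ = a * p * a' := by rw [p4]
  calc (b * p * b' + p + -1) * (m * p * m' + -(a * p * a')) =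
      b * p * b' * (m * p * m') - b * p * b' * (a * p * a') + p * (m * p * m') -
        p * (a * p * a') - m * p * m' + a * p * a' := by noncomm_ring
    _ = m * p * m' - b * p * b' + p - a * p * a' - m * p * m' + a * p * a' := by
      rw [e1, e2, e3, e4]
    _ = p + -(b * p * b') := by noncomm_ring

/-! ### the symbols -/

theorem Tz_congr {f g : ℂ → ℂ} (h : ∀ x : ℂ, ‖x‖ = 1 → f x = g x) : Tz f = Tz g := by
  funext k l
  exact fc_congr h _

theorem norm_inv_one {x : ℂ} (hx : ‖x‖ = 1) : ‖x⁻¹‖ = 1 := by rw [norm_inv, hx, inv_one]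

variable {v : ℝ}

theorem bq_ne (hv : 1 < v) {x : ℂ} (hx : ‖x‖ = 1) : bq v x ≠ 0 :=
  inv_ne_zero (bp_ne hv (norm_inv_one hx))

theorem bx_inv' (hv : 1 < v) {x : ℂ} (hx : ‖x‖ = 1) : bx v x⁻¹ = (bp v x)⁻¹ * (bq v x)⁻¹ := by
  have h1 := bx_inv hv hx
  rw [bx_eq hv hx] at h1
  rw [← mul_inv]
  exact eq_inv_of_mul_eq_one_right h1

def ra (hv : 1 < v) : RB := ⟨Tz (bp v), Tz_BB (bp_ann hv)⟩
def ra' (hv : 1 < v) : RB := ⟨Tz fun x => (bp v x)⁻¹, Tz_BB (bp_inv_ann hv)⟩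
def rm (hv : 1 < v) : RB := ⟨Tz (bq v), Tz_BB (bq_ann hv)⟩
def rm' (hv : 1 < v) : RB := ⟨Tz fun x => (bq v x)⁻¹, Tz_BB (bq_inv_ann hv)⟩
def rb (hv : 1 < v) : RB := ⟨Tz (bx v), Tz_BB (bx_ann hv)⟩
def rb' (hv : 1 < v) : RB := ⟨Tz fun x => bx v x⁻¹, Tz_BB (bx_ann hv).inv'⟩
def rp : RB := ⟨PiZ, BB_Pi⟩

theorem rel1 (hv : 1 < v) : rb' hv * rm hv = ra' hv := by
  apply RB.ext'
  show mm (Tz fun x => bx v x⁻¹) (Tz (bq v)) = Tz fun x => (bp v x)⁻¹
  rw [Tz_mul (bx_ann hv).inv' (bq_ann hv)]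
  apply Tz_congr
  intro x hx
  have hq := bq_ne hv hx
  rw [bx_inv' hv hx]
  field_simp

theorem rel2 (hv : 1 < v) : rb' hv * ra hv = rm' hv := by
  apply RB.ext'
  show mm (Tz fun x => bx v x⁻¹) (Tz (bp v)) = Tz fun x => (bq v x)⁻¹
  rw [Tz_mul (bx_ann hv).inv' (bp_ann hv)]
  apply Tz_congr
  intro x hx
  have hq := bp_ne hv hx
  rw [bx_inv' hv hx]
  field_simp

theorem rel3 (hv : 1 < v) : rb hv * ra' hv = rm hv := by
  apply RB.ext'
  show mm (Tz (bx v)) (Tz fun x => (bp v x)⁻¹) = Tz (bq v)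
  rw [Tz_mul (bx_ann hv) (bp_inv_ann hv)]
  apply Tz_congr
  intro x hx
  have hq := bp_ne hv hx
  rw [bx_eq hv hx]
  field_simp

theorem rel4 (hv : 1 < v) : rm' hv * ra' hv = rb' hv := by
  apply RB.ext'
  show mm (Tz fun x => (bq v x)⁻¹) (Tz fun x => (bp v x)⁻¹) = Tz fun x => bx v x⁻¹
  rw [Tz_mul (bq_inv_ann hv) (bp_inv_ann hv)]
  apply Tz_congr
  intro x hx
  rw [bx_inv' hv hx, mul_comm]

theorem rel5 (hv : 1 < v) : rm hv * rm' hv = 1 := by
  apply RB.ext'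
  show mm (Tz (bq v)) (Tz fun x => (bq v x)⁻¹) = one'
  rw [Tz_mul (bq_ann hv) (bq_inv_ann hv), ← Tz_one]
  apply Tz_congr
  intro x hx
  exact mul_inv_cancel₀ (bq_ne hv hx)

theorem rel6 (hv : 1 < v) : ra hv * ra' hv = 1 := by
  apply RB.ext'
  show mm (Tz (bp v)) (Tz fun x => (bp v x)⁻¹) = one'
  rw [Tz_mul (bp_ann hv) (bp_inv_ann hv), ← Tz_one]
  apply Tz_congr
  intro x hx
  exact mul_inv_cancel₀ (bp_ne hv hx)

theorem rel7 (hv : 1 < v) : rm' hv * rb hv = ra hv := by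
  apply RB.ext'
  show mm (Tz fun x => (bq v x)⁻¹) (Tz (bx v)) = Tz (bp v)
  rw [Tz_mul (bq_inv_ann hv) (bx_ann hv)]
  apply Tz_congr
  intro x hx
  have hq := bq_ne hv hx
  rw [bx_eq hv hx]
  field_simp

theorem rel8 (hv : 1 < v) : ra' hv * rb hv = rm hv := by
  apply RB.ext'
  show mm (Tz fun x => (bp v x)⁻¹) (Tz (bx v)) = Tz (bq v)
  rw [Tz_mul (bp_inv_ann hv) (bx_ann hv)]
  apply Tz_congr
  intro x hx
  have hq := bp_ne hv hx
  rw [bx_eq hv hx]
  field_simp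

theorem rel9 (hv : 1 < v) : rm hv * ra hv = rb hv := by
  apply RB.ext'
  show mm (Tz (bq v)) (Tz (bp v)) = Tz (bx v)
  rw [Tz_mul (bq_ann hv) (bp_ann hv)]
  apply Tz_congr
  intro x hx
  rw [bx_eq hv hx, mul_comm]

/-! ### triangularity -/

theorem fc_inv (f : ℂ → ℂ) (n : ℤ) : fc (fun x => f x⁻¹) n = fc f (-n) := by
  have h := Tz_inv f n 0
  unfold Tz at h
  simpa using h

theorem fc_bp_neg (hv : 1 < v) {n : ℤ} (hn : n < 0) : fc (bp v) n = 0 := by
  obtain ⟨r, hr, h1, _⟩ := bp_disc hv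
  exact fc_inside hr h1 hn

theorem fc_bp_inv_neg (hv : 1 < v) {n : ℤ} (hn : n < 0) : fc (fun x => (bp v x)⁻¹) n = 0 := by
  obtain ⟨r, hr, _, h1⟩ := bp_disc hv
  exact fc_inside hr h1 hn

theorem fc_bq_eq (n : ℤ) : fc (bq v) n = fc (fun x => (bp v x)⁻¹) (-n) :=
  fc_inv (fun x => (bp v x)⁻¹) n

theorem fc_bq_inv_eq (n : ℤ) : fc (fun x => (bq v x)⁻¹) n = fc (bp v) (-n) := by
  rw [← fc_inv]
  congr 1
  funext x
  unfold bq
  rw [inv_inv]

theorem fc_bq_pos (hv : 1 < v) {n : ℤ} (hn : 0 < n) : fc (bq v) n = 0 := by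
  rw [fc_bq_eq]
  exact fc_bp_inv_neg hv (by omega)

theorem fc_bq_inv_pos (hv : 1 < v) {n : ℤ} (hn : 0 < n) : fc (fun x => (bq v x)⁻¹) n = 0 := by
  rw [fc_bq_inv_eq]
  exact fc_bp_neg hv (by omega)

theorem fc_zero {f : ℂ → ℂ} {r : ℝ} (hr : 1 < r)
    (hf : DifferentiableOn ℂ f (Metric.ball 0 r)) : fc f 0 = f 0 := by
  have hsub : Metric.closedBall (0 : ℂ) |(1 : ℝ)| ⊆ Metric.ball 0 r := by
    rw [abs_one]
    exact Metric.closedBall_subset_ball hr
  have h := circleAverage_of_differentiable_on_off_countable (f := f) (c := 0) (R := 1)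
    (s := ∅) Set.countable_empty (hf.continuousOn.mono hsub) (by
      intro z hz
      have hz' : z ∈ Metric.ball (0 : ℂ) r := hsub (Metric.ball_subset_closedBall hz.1)
      exact hf.differentiableAt (Metric.isOpen_ball.mem_nhds hz'))
  rw [← h, Real.circleAverage_def]
  unfold fc
  have hper : Function.Periodic (fun φ : ℝ => f (Complex.exp (I * φ))) (2 * π) := by
    intro φ
    show f (Complex.exp (I * ((φ + 2 * π : ℝ) : ℂ))) = f (Complex.exp (I * φ))
    congr 1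
    rw [Complex.ofReal_add, mul_add, Complex.exp_add]
    have : Complex.exp (I * ((2 * π : ℝ) : ℂ)) = 1 := by
      rw [mul_comm]; push_cast; exact Complex.exp_two_pi_mul_I
    rw [this, mul_one]
  have h2 := hper.intervalIntegral_add_eq (-π) 0
  have e1 : -π + 2 * π = π := by ring
  rw [e1, zero_add] at h2
  have h3 : (∫ φ in (-π)..π, f (Complex.exp (I * φ)) * Complex.exp (-(I * ((0 : ℤ) : ℂ) * φ))) =
      ∫ φ in (0)..(2 * π), f (circleMap 0 1 φ) := by
    simp only [Int.cast_zero, mul_zero, zero_mul, neg_zero, Complex.exp_zero, mul_one]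
    rw [h2]
    apply intervalIntegral.integral_congr
    intro φ _
    show f (Complex.exp (I * φ)) = f (circleMap 0 1 φ)
    simp [circleMap, mul_comm]
  rw [h3]
  rw [Complex.real_smul]
  push_cast
  ring

theorem bp_zero (v : ℝ) : bp v 0 = 1 := by
  unfold bp
  simp

theorem fc_bp_zero (hv : 1 < v) : fc (bp v) 0 = 1 := by
  obtain ⟨r, hr, h1, _⟩ := bp_disc hv
  rw [fc_zero hr h1, bp_zero]

theorem fc_bp_inv_zero (hv : 1 < v) : fc (fun x => (bp v x)⁻¹) 0 = 1 := by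
  obtain ⟨r, hr, _, h1⟩ := bp_disc hv
  rw [fc_zero hr h1, bp_zero, inv_one]

theorem fc_bq_zero (hv : 1 < v) : fc (bq v) 0 = 1 := by
  rw [fc_bq_eq, neg_zero, fc_bp_inv_zero hv]

theorem fc_bq_inv_zero (hv : 1 < v) : fc (fun x => (bq v x)⁻¹) 0 = 1 := by
  rw [fc_bq_inv_eq, neg_zero, fc_bp_zero hv]

theorem p1 (hv : 1 < v) : rp * ra' hv * rp = ra' hv * rp :=
  RB.ext' (Pi_mm_Pi_left fun k l h => fc_bp_inv_neg hv (by omega))

theorem p2 (hv : 1 < v) : rp * rm' hv * rp = rp * rm' hv :=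
  RB.ext' (Pi_mm_Pi_right fun k l h => fc_bq_inv_pos hv (by omega))

theorem p3 (hv : 1 < v) : rp * rm hv * rp = rp * rm hv :=
  RB.ext' (Pi_mm_Pi_right fun k l h => fc_bq_pos hv (by omega))

theorem p4 (hv : 1 < v) : rp * ra hv * rp = ra hv * rp :=
  RB.ext' (Pi_mm_Pi_left fun k l h => fc_bp_neg hv (by omega))

/-! ### the matrices in the ring -/

theorem Y0_val (hv : 1 < v) :
    Y0 v = (rm hv * rp * rm' hv + -(ra hv * rp * ra' hv)).1 := by
  funext k l
  show _ = mm (mm (Tz (bq v)) PiZ) (Tz fun x => (bq v x)⁻¹) k l +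
    -mm (mm (Tz (bp v)) PiZ) (Tz fun x => (bp v x)⁻¹) k l
  unfold Y0
  ring

theorem D0_val (hv : 1 < v) : D0 v = (rb hv * rp * rb' hv + rp + -1).1 := by
  funext k l
  show _ = mm (mm (Tz (bx v)) PiZ) (Tz fun x => bx v x⁻¹) k l + PiZ k l + -one' k l
  unfold D0
  ring

theorem B0_val (hv : 1 < v) : B0 v = (rp + -(rb hv * rp * rb' hv)).1 := by
  funext k l
  show _ = PiZ k l + -mm (mm (Tz (bx v)) PiZ) (Tz fun x => bx v x⁻¹) k l
  unfold B0
  ring

/-- `(A Π B) k 0` when `B i 0 = 0` for `i > 0` -/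
theorem mPm_col {A B : ℤ → ℤ → ℂ} (h : ∀ i, 0 < i → B i 0 = 0) (k : ℤ) :
    mm (mm A PiZ) B k 0 = A k 0 * B 0 0 := by
  unfold mm
  rw [tsum_eq_single 0]
  · have := mm_Pi A k 0
    unfold mm at this
    rw [this]
    simp
  · intro i hi
    have := mm_Pi A k i
    unfold mm at this
    rw [this]
    by_cases h0 : 0 ≤ i
    · rw [h i (lt_of_le_of_ne h0 (Ne.symm hi)), mul_zero]
    · simp [h0]

/-- `(A Π B) k 0 = (A B) k 0` when `B i 0 = 0` for `i < 0` -/
theorem mPm_col' {A B : ℤ → ℤ → ℂ} (h : ∀ i, i < 0 → B i 0 = 0) (k : ℤ) :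
    mm (mm A PiZ) B k 0 = mm A B k 0 := by
  show ∑' i, mm A PiZ k i * B i 0 = ∑' i, A k i * B i 0
  apply tsum_congr
  intro i
  rw [mm_Pi]
  by_cases h0 : 0 ≤ i
  · simp [h0]
  · rw [h i (by omega)]; simp

/-! ### reality -/

theorem fc_real {f : ℂ → ℂ}
    (h : ∀ x : ℂ, ‖x‖ = 1 → f ((starRingEnd ℂ) x) = (starRingEnd ℂ) (f x)) (n : ℤ) :
    ∃ r : ℝ, fc f n = (r : ℂ) := by
  rw [← Complex.conj_eq_iff_real]
  unfold fc
  rw [map_mul]
  have h1 : (starRingEnd ℂ) (1 / (2 * π) : ℂ) = (1 / (2 * π) : ℂ) := by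
    have : (1 / (2 * π) : ℂ) = ((1 / (2 * π) : ℝ) : ℂ) := by push_cast; rfl
    rw [this, Complex.conj_ofReal]
  rw [h1]
  congr 1
  rw [← intervalIntegral.intervalIntegral_conj]
  have h2 := intervalIntegral.integral_comp_neg (a := -π) (b := π)
    (fun φ : ℝ => f (Complex.exp (I * φ)) * Complex.exp (-(I * n * φ)))
  rw [neg_neg] at h2
  rw [← h2]
  apply intervalIntegral.integral_congr
  intro φ _
  show (starRingEnd ℂ) (f (Complex.exp (I * φ)) * Complex.exp (-(I * n * φ))) =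
    f (Complex.exp (I * ((-φ : ℝ) : ℂ))) * Complex.exp (-(I * n * ((-φ : ℝ) : ℂ)))
  have hx : ‖Complex.exp (I * φ)‖ = 1 := by
    rw [mul_comm]; exact Complex.norm_exp_ofReal_mul_I φ
  rw [map_mul, ← h _ hx, ← Complex.exp_conj, ← Complex.exp_conj]
  congr 2
  · congr 1
    simp
  · simp

theorem bp_conj (hv : 1 < v) {x : ℂ} (hx : ‖x‖ = 1) :
    bp v ((starRingEnd ℂ) x) = (starRingEnd ℂ) (bp v x) := by
  have h0 : 0 < v := by linarith
  have ha1 := al1_pos h0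
  have ha2 := al2_lt_one hv
  have ha12 := al1_lt hv
  have hre : ∀ α : ℝ, 0 < α → α < 1 → 0 < (1 - (α : ℂ) * x).re := by
    intro α h1 h2
    have : (1 - (α : ℂ) * x).re = 1 - α * x.re := by simp
    rw [this]
    have hxr : x.re ≤ 1 := by
      have := Complex.re_le_norm x
      rw [hx] at this; exact this
    nlinarith
  have r1 := hre (al1 v) ha1 (by linarith)
  have r2 := hre (al2 v) (by linarith) ha2
  unfold bp
  have e : (1 - (al1 v : ℂ) * (starRingEnd ℂ) x) / (1 - (al2 v : ℂ) * (starRingEnd ℂ) x) =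
      (starRingEnd ℂ) ((1 - (al1 v : ℂ) * x) / (1 - (al2 v : ℂ) * x)) := by
    simp [map_div₀]
  rw [e]
  have harg : ((1 - (al1 v : ℂ) * x) / (1 - (al2 v : ℂ) * x)).arg ≠ π := by
    intro hpi
    rw [Complex.arg_eq_pi_iff] at hpi
    obtain ⟨hre', him'⟩ := hpi
    set z := (1 - (al1 v : ℂ) * x) / (1 - (al2 v : ℂ) * x) with hz
    have hne : (1 - (al2 v : ℂ) * x) ≠ 0 := by
      intro h
      rw [h] at r2
      simp at r2
    have hz' : (1 - (al1 v : ℂ) * x) = z * (1 - (al2 v : ℂ) * x) := by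
      rw [hz, div_mul_cancel₀ _ hne]
    have := congrArg Complex.re hz'
    rw [Complex.mul_re, him', zero_mul, sub_zero] at this
    nlinarith
  have h2 : (starRingEnd ℂ) (1 / 2 : ℂ) = (1 / 2 : ℂ) := by
    have : (1 / 2 : ℂ) = ((1 / 2 : ℝ) : ℂ) := by push_cast; rfl
    rw [this, Complex.conj_ofReal]
  rw [Complex.conj_cpow _ _ harg, h2]

theorem bp_inv_conj (hv : 1 < v) {x : ℂ} (hx : ‖x‖ = 1) :
    (bp v ((starRingEnd ℂ) x))⁻¹ = (starRingEnd ℂ) (bp v x)⁻¹ := by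
  rw [bp_conj hv hx, map_inv₀]

theorem fc_bp_real (hv : 1 < v) (n : ℤ) : ∃ r : ℝ, fc (bp v) n = (r : ℂ) :=
  fc_real (fun _ hx => bp_conj hv hx) n

theorem fc_bp_inv_real (hv : 1 < v) (n : ℤ) : ∃ r : ℝ, fc (fun x => (bp v x)⁻¹) n = (r : ℂ) :=
  fc_real (fun _ hx => bp_inv_conj hv hx) n

theorem mm_real {A B : ℤ → ℤ → ℂ} (hA : ∀ k l, ∃ r : ℝ, A k l = (r : ℂ))
    (hB : ∀ k l, ∃ r : ℝ, B k l = (r : ℂ)) (k l : ℤ) : ∃ r : ℝ, mm A B k l = (r : ℂ) := by
  choose a ha using hA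
  choose b hb using hB
  refine ⟨∑' i, a k i * b i l, ?_⟩
  unfold mm
  rw [Complex.ofReal_tsum]
  apply tsum_congr
  intro i
  rw [ha, hb]
  push_cast
  rfl

theorem Pi_real (k l : ℤ) : ∃ r : ℝ, PiZ k l = (r : ℂ) := by
  unfold PiZ
  by_cases h : k = l ∧ 0 ≤ k
  · exact ⟨1, by rw [if_pos h]; simp⟩
  · exact ⟨0, by rw [if_neg h]; simp⟩

theorem Pi_transpose : (fun i j => PiZ j i) = PiZ := by
  funext i j
  unfold PiZ
  by_cases h : i = j
  · subst h; simp
  · have h' : ¬ j = i := fun e => h e.symm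
    simp [h, h']

end WH

open WH

theorem Y0_LL {v : ℝ} (hv : 1 < v) : LL (Y0 v) := by
  have key : ∀ (A A' : RB), A * A' = 1 → LL (A * rp * A' + -rp : RB).1 := by
    intro A A' h
    have e : A * rp * A' + -rp = (A * rp + -(rp * A)) * A' := by
      have : rp * A * A' = rp := by rw [mul_assoc, h, mul_one]
      calc A * rp * A' + -rp = A * rp * A' + -(rp * A * A') := by rw [this]
        _ = _ := by noncomm_ring
    rw [e]
    exact LL_mm_right (comm_LL A.2) A'.2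
  rw [Y0_val hv]
  have e : rm hv * rp * rm' hv + -(ra hv * rp * ra' hv) =
      (rm hv * rp * rm' hv + -rp) + -(ra hv * rp * ra' hv + -rp) := by noncomm_ring
  rw [e]
  exact LL_add (key _ _ (rel5 hv)) (LL_neg (key _ _ (rel6 hv)))

theorem D0_Y0 {v : ℝ} (hv : 1 < v) : mm (D0 v) (Y0 v) = B0 v := by
  rw [D0_val hv, Y0_val hv, B0_val hv]
  have h := wh_ring (ra hv) (ra' hv) (rm hv) (rm' hv) (rb hv) (rb' hv) rp (rel1 hv) (rel2 hv)
    (rel3 hv) (rel4 hv) (rel5 hv) (p1 hv) (p2 hv) (p3 hv) (p4 hv)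
  exact congrArg Subtype.val h

theorem Y0_antisymm {v : ℝ} (hv : 1 < v) (k l : ℤ) : Y0 v l k = -Y0 v k l := by
  have hT1 : (fun i j => Tz (bq v) j i) = Tz fun x => (bp v x)⁻¹ := by
    funext i j
    show fc (bq v) (j - i) = fc (fun x => (bp v x)⁻¹) (i - j)
    rw [fc_bq_eq]; congr 1; ring
  have hT2 : (fun i j => Tz (fun x => (bq v x)⁻¹) j i) = Tz (bp v) := by
    funext i j
    show fc (fun x => (bq v x)⁻¹) (j - i) = fc (bp v) (i - j)
    rw [fc_bq_inv_eq]; congr 1; ring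
  have key : ∀ k l, mm (mm (Tz (bq v)) PiZ) (Tz fun x => (bq v x)⁻¹) l k =
      mm (mm (Tz (bp v)) PiZ) (Tz fun x => (bp v x)⁻¹) k l := by
    intro k l
    rw [mm_transpose, hT2]
    have : (fun i j => mm (Tz (bq v)) PiZ j i) = mm PiZ (Tz fun x => (bp v x)⁻¹) := by
      funext i j
      rw [mm_transpose, hT1, Pi_transpose]
    rw [this, ← mm_assoc (Tz_BB (bp_ann hv)) BB_Pi (Tz_BB (bp_inv_ann hv))]
  unfold Y0
  rw [key k l, ← key l k]
  ring

theorem Y0_real {v : ℝ} (hv : 1 < v) (k l : ℤ) : ∃ r : ℝ, Y0 v k l = (r : ℂ) := by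
  obtain ⟨r, hr⟩ := mm_real (mm_real (A := Tz (bq v)) (B := PiZ) (fun k l => by
    show ∃ r : ℝ, fc (bq v) (k - l) = (r : ℂ)
    rw [fc_bq_eq]; exact fc_bp_inv_real hv _) Pi_real) (B := Tz fun x => (bq v x)⁻¹) (fun k l => by
    show ∃ r : ℝ, fc (fun x => (bq v x)⁻¹) (k - l) = (r : ℂ)
    rw [fc_bq_inv_eq]; exact fc_bp_real hv _) k l
  obtain ⟨s, hs⟩ := mm_real (mm_real (A := Tz (bp v)) (B := PiZ) (fun k l =>
    fc_bp_real hv _) Pi_real) (B := Tz fun x => (bp v x)⁻¹) (fun k l =>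
    fc_bp_inv_real hv _) k l
  refine ⟨r - s, ?_⟩
  unfold Y0
  rw [hr, hs]
  push_cast
  rfl

theorem Y0_dl {v : ℝ} (hv : 1 < v) (k : ℤ) :
    mv (Y0 v) (dl 0) k = fc (bq v) k - dl 0 k := by
  rw [mv_dl]
  unfold Y0
  rw [mPm_col (fun i hi => by
      show fc (fun x => (bq v x)⁻¹) (i - 0) = 0
      exact fc_bq_inv_pos hv (by omega)),
    mPm_col' (fun i hi => by
      show fc (fun x => (bp v x)⁻¹) (i - 0) = 0
      exact fc_bp_inv_neg hv (by omega))]
  have h1 : mm (Tz (bp v)) (Tz fun x => (bp v x)⁻¹) = one' := congrArg Subtype.val (rel6 hv)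
  rw [h1]
  show fc (bq v) (k - 0) * fc (fun x => (bq v x)⁻¹) (0 - 0) - one' k 0 = _
  rw [sub_zero, sub_zero, fc_bq_inv_zero hv, mul_one]
  rfl

theorem Y0_b_dl {v : ℝ} (hv : 1 < v) (k : ℤ) :
    mv (Y0 v) (mv (Tz (bx v)) (dl 0)) k = fc (bx v) k - fc (bp v) k := by
  have h0 : mv (Y0 v) (mv (Tz (bx v)) (dl 0)) k = mm (Y0 v) (Tz (bx v)) k 0 := by
    show ∑' i, Y0 v k i * mv (Tz (bx v)) (dl 0) i = ∑' i, Y0 v k i * Tz (bx v) i 0
    apply tsum_congr
    intro i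
    rw [mv_dl]
  have h1 : mm (Y0 v) (Tz (bx v)) =
      (rm hv * rp * ra hv + -(ra hv * rp * rm hv)).1 := by
    rw [Y0_val hv]
    have : (rm hv * rp * rm' hv + -(ra hv * rp * ra' hv)) * rb hv =
        rm hv * rp * ra hv + -(ra hv * rp * rm hv) := by
      calc (rm hv * rp * rm' hv + -(ra hv * rp * ra' hv)) * rb hv =
          rm hv * rp * (rm' hv * rb hv) + -(ra hv * rp * (ra' hv * rb hv)) := by noncomm_ring
        _ = _ := by rw [rel7, rel8]
    exact congrArg Subtype.val this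
  rw [h0, h1]
  show mm (mm (Tz (bq v)) PiZ) (Tz (bp v)) k 0 + -mm (mm (Tz (bp v)) PiZ) (Tz (bq v)) k 0 = _
  rw [mPm_col' (fun i hi => by
      show fc (bp v) (i - 0) = 0
      exact fc_bp_neg hv (by omega)),
    mPm_col (fun i hi => by
      show fc (bq v) (i - 0) = 0
      exact fc_bq_pos hv (by omega))]
  have h2 : mm (Tz (bq v)) (Tz (bp v)) = Tz (bx v) := congrArg Subtype.val (rel9 hv)
  rw [h2]
  show fc (bx v) (k - 0) + -(fc (bp v) (k - 0) * fc (bq v) (0 - 0)) = _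
  rw [sub_zero, sub_zero, fc_bq_zero hv]
  ring

end

end IsingS2
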