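import Pool.Agent.Helper98.IS.EvenOdd
import Pool.Agent.Helper98.IS.Fam
import Pool.Agent.Helper98.IS.Emb
import Pool.Agent.Helper98.IS.CutLim
import Pool.Agent.Helper98.IS.WH

/-!
# IS-27: the limit of the matrices `Y`
-/

namespace IsingS2

open Complex Set MeasureTheory Filter Topology IsingNB
open scoped Real Matrix

noncomputable section

namespace YL

/-- the part of an infinite matrix seen by the chain -/
def tr (A : ℤ → ℤ → ℂ) (m a : ℕ) : Matrix (Fin m) (Fin m) ℝ :=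
  Matrix.of fun k l => (A ((k : ℤ) - a) ((l : ℤ) - a)).re

theorem emb_tr {A : ℤ → ℤ → ℂ} (hr : ∀ k l, ∃ r : ℝ, A k l = (r : ℂ)) (m a : ℕ) (k l : ℤ) :
    emb a (tr A m a) k l =
      if (0 ≤ k + a ∧ k + a < m) ∧ (0 ≤ l + a ∧ l + a < m) then A k l else 0 := by
  unfold emb
  split_ifs with h
  · obtain ⟨⟨h1, h2⟩, h3, h4⟩ := h
    simp only [tr, Matrix.of_apply]
    rw [Int.toNat_of_nonneg h1, Int.toNat_of_nonneg h3, add_sub_cancel_right, add_sub_cancel_right]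
    obtain ⟨r, hr⟩ := hr k l
    rw [hr, Complex.ofReal_re]
  · rfl

theorem tr_loc {A : ℤ → ℤ → ℂ} (hA : LL A) (hr : ∀ k l, ∃ r : ℝ, A k l = (r : ℂ)) :
    Loc win (fun p => emb p.2 (tr A p.1 p.2)) A := by
  obtain ⟨C, q, hC, hq0, hq1, hb⟩ := hA
  refine ⟨⟨C, q, hC, hq0, hq1, Filter.Eventually.of_forall fun p k l => ?_⟩, fun k l => ?_⟩
  · rw [emb_tr hr]
    split_ifs
    · exact hb k l
    · rw [norm_zero]
      positivity
  · apply Filter.Tendsto.congr' (f₁ := fun _ => A k l)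
    · filter_upwards [win_eventually (k.natAbs + l.natAbs + 1)] with p hp
      rw [emb_tr hr, if_pos]
      omega
    · exact tendsto_const_nhds

theorem summ1 {q : ℝ} (h0 : 0 < q) (h1 : q < 1) : Summable fun n : ℤ => q ^ n.natAbs := by
  apply Summable.of_nat_of_neg
  · simpa using summable_geometric_of_lt_one h0.le h1
  · simpa using summable_geometric_of_lt_one h0.le h1

theorem summ2 {q : ℝ} (h0 : 0 < q) (h1 : q < 1) :
    Summable fun p : ℤ × ℤ => q ^ (p.1.natAbs + p.2.natAbs) := by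
  have h := (summ1 h0 h1).mul_of_nonneg (summ1 h0 h1) (fun _ => by positivity)
    (fun _ => by positivity)
  refine h.congr fun p => ?_
  rw [pow_add]

theorem abs_emb {a m : ℕ} (A : Matrix (Fin m) (Fin m) ℝ) (k l : Fin m) :
    |A k l| = ‖emb a A ((k : ℤ) - a) ((l : ℤ) - a)‖ := by
  rw [emb_apply, Complex.norm_real, Real.norm_eq_abs]

theorem row_band {a m : ℕ} {A : Matrix (Fin m) (Fin m) ℝ} {C q : ℝ} (hC : 0 ≤ C) (h0 : 0 < q)
    (h1 : q < 1) (hb : ∀ k l, ‖emb a A k l‖ ≤ C * q ^ (k - l).natAbs) (k : Fin m) :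
    ∑ l, |A k l| ≤ C * ∑' n : ℤ, q ^ n.natAbs := by
  classical
  let ι : Fin m → ℤ := fun l => ((k : ℤ) - a) - ((l : ℤ) - a)
  have hι : Function.Injective ι := by
    intro x y hxy
    have h : ((x : ℕ) : ℤ) = ((y : ℕ) : ℤ) := by
      simp only [ι] at hxy
      linarith
    exact Fin.ext (by exact_mod_cast h)
  have h2 : ∑ l, |A k l| ≤ ∑ l, C * q ^ (ι l).natAbs := by
    apply Finset.sum_le_sum
    intro l _
    rw [abs_emb (a := a)]
    exact hb _ _
  rw [← Finset.mul_sum] at h2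
  refine h2.trans (mul_le_mul_of_nonneg_left ?_ hC)
  have h3 : ∑ l, q ^ (ι l).natAbs = ∑ n ∈ Finset.univ.image ι, q ^ n.natAbs := by
    rw [Finset.sum_image (fun x _ y _ h => hι h)]
  rw [h3]
  exact (summ1 h0 h1).sum_le_tsum _ (fun _ _ => by positivity)

theorem row_sum {a m : ℕ} {A : Matrix (Fin m) (Fin m) ℝ}
    (hs : Summable fun q : ℤ × ℤ => ‖emb a A q.1 q.2‖) (k : Fin m) :
    ∑ l, |A k l| ≤ ∑' q : ℤ × ℤ, ‖emb a A q.1 q.2‖ := by
  classical
  let ι : Fin m → ℤ × ℤ := fun l => ((k : ℤ) - a, (l : ℤ) - a)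
  have hι : Function.Injective ι := by
    intro x y hxy
    have h : ((x : ℕ) : ℤ) = ((y : ℕ) : ℤ) := by
      simp only [ι, Prod.mk.injEq] at hxy
      linarith [hxy.2]
    exact Fin.ext (by exact_mod_cast h)
  have h3 : ∑ l, |A k l| = ∑ n ∈ Finset.univ.image ι, ‖emb a A n.1 n.2‖ := by
    rw [Finset.sum_image (fun x _ y _ h => hι h)]
    exact Finset.sum_congr rfl (fun l _ => abs_emb A k l)
  rw [h3]
  exact hs.sum_le_tsum _ (fun _ _ => norm_nonneg _)

theorem core {m : ℕ} {D B Y : Matrix (Fin m) (Fin m) ℝ} (h : D * D + B * B = 1) {c d δ : ℝ}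
    (hE : ∀ k, ∑ l, |(D * Y - B) k l| ≤ δ) (hB : ∀ k, ∑ l, |B k l| ≤ d) (hd : δ * d ≤ 1 / 2)
    (hd0 : 0 ≤ d) (hc : ∀ k, ∑ l, |(D + Y * B) k l| ≤ c) (hc0 : 0 ≤ c) :
    D.det ≠ 0 ∧ ∀ (η : ℝ) (l : Fin m), (∀ i, |(D * Y - B) i l| ≤ η) →
      ∀ k, |(D⁻¹ * B - Y) k l| ≤ 2 * c * η := by
  classical
  set E := D * Y - B with hEdef
  set e := E * B with hedef
  have hprod : D * (D + Y * B) = 1 + e := by
    rw [hedef, hEdef, ← h]
    noncomm_ring
  have hrow : ∀ k, ∑ l, |e k l| ≤ 1 / 2 := by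
    intro k
    calc ∑ l, |e k l| ≤ ∑ l, ∑ i, |E k i| * |B i l| := by
          apply Finset.sum_le_sum
          intro l _
          rw [hedef, Matrix.mul_apply]
          refine (Finset.abs_sum_le_sum_abs _ _).trans (Finset.sum_le_sum fun i _ => ?_)
          rw [abs_mul]
      _ = ∑ i, |E k i| * ∑ l, |B i l| := by
          rw [Finset.sum_comm]
          exact Finset.sum_congr rfl fun i _ => by rw [Finset.mul_sum]
      _ ≤ ∑ i, |E k i| * d :=
          Finset.sum_le_sum fun i _ => mul_le_mul_of_nonneg_left (hB i) (abs_nonneg _)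
      _ = (∑ i, |E k i|) * d := by rw [Finset.sum_mul]
      _ ≤ δ * d := mul_le_mul_of_nonneg_right (hE k) hd0
      _ ≤ 1 / 2 := hd
  have hdet : (1 + e).det ≠ 0 := by
    apply det_ne_zero_of_sum_row_lt_diag
    intro k
    have h1 : ∑ j ∈ Finset.univ.erase k, ‖(1 + e) k j‖ = ∑ j ∈ Finset.univ.erase k, |e k j| := by
      apply Finset.sum_congr rfl
      intro j hj
      rw [Matrix.add_apply, Matrix.one_apply_ne (Finset.ne_of_mem_erase hj).symm, zero_add,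
        Real.norm_eq_abs]
    have h2 : |e k k| + ∑ j ∈ Finset.univ.erase k, |e k j| = ∑ j, |e k j| :=
      Finset.add_sum_erase Finset.univ (fun j => |e k j|) (Finset.mem_univ k)
    have h3 := hrow k
    rw [h1, Matrix.add_apply, Matrix.one_apply_eq, Real.norm_eq_abs]
    have h4 : 1 - |e k k| ≤ |1 + e k k| := by
      have := abs_sub_abs_le_abs_sub (1 : ℝ) (-(e k k))
      rw [abs_one, abs_neg, sub_neg_eq_add] at this
      exact this
    linarith
  have hDdet : D.det ≠ 0 := by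
    intro h0
    apply hdet
    rw [← hprod, Matrix.det_mul, h0, zero_mul]
  refine ⟨hDdet, ?_⟩
  intro η l hη k
  set X := (1 + e)⁻¹ * E with hX
  have hX1 : (1 + e) * X = E := by
    rw [hX, ← Matrix.mul_assoc, Matrix.mul_nonsing_inv _ (isUnit_iff_ne_zero.2 hdet),
      Matrix.one_mul]
  have hDinv : D⁻¹ = (D + Y * B) * (1 + e)⁻¹ := by
    apply Matrix.inv_eq_right_inv
    rw [← Matrix.mul_assoc, hprod, Matrix.mul_nonsing_inv _ (isUnit_iff_ne_zero.2 hdet)]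
  have hmain : D⁻¹ * B - Y = -((D + Y * B) * X) := by
    have h1 : D⁻¹ * (D * Y) = Y := by
      rw [← Matrix.mul_assoc, Matrix.nonsing_inv_mul _ (isUnit_iff_ne_zero.2 hDdet),
        Matrix.one_mul]
    have h2 : (D + Y * B) * X = D⁻¹ * E := by
      rw [hX, hDinv, Matrix.mul_assoc]
    rw [h2, hEdef, Matrix.mul_sub, h1]
    abel
  have hXb : ∀ j, |X j l| ≤ 2 * η := by
    obtain ⟨j₀, -, hj₀⟩ := Finset.exists_max_image Finset.univ (fun j => |X j l|) ⟨k, Finset.mem_univ k⟩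
    have h1 : X j₀ l = E j₀ l - ∑ j, e j₀ j * X j l := by
      have := congrFun (congrFun hX1 j₀) l
      rw [Matrix.add_mul, Matrix.one_mul, Matrix.add_apply, Matrix.mul_apply] at this
      linarith
    have h2 : |∑ j, e j₀ j * X j l| ≤ (∑ j, |e j₀ j|) * |X j₀ l| := by
      refine (Finset.abs_sum_le_sum_abs _ _).trans ?_
      rw [Finset.sum_mul]
      refine Finset.sum_le_sum fun j _ => ?_
      rw [abs_mul]
      exact mul_le_mul_of_nonneg_left (hj₀ j (Finset.mem_univ _)) (abs_nonneg _)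
    have h3 : |X j₀ l| ≤ |E j₀ l| + |∑ j, e j₀ j * X j l| := by
      conv_lhs => rw [h1]
      exact abs_sub _ _
    have h4 : (∑ j, |e j₀ j|) * |X j₀ l| ≤ 1 / 2 * |X j₀ l| :=
      mul_le_mul_of_nonneg_right (hrow j₀) (abs_nonneg _)
    have h5 := hη j₀
    intro j
    have h6 : |X j l| ≤ |X j₀ l| := hj₀ j (Finset.mem_univ _)
    linarith
  rw [hmain, Matrix.neg_apply, abs_neg, Matrix.mul_apply]
  have hη0 : 0 ≤ η := (abs_nonneg _).trans (hη k)
  calc |∑ j, (D + Y * B) k j * X j l| ≤ ∑ j, |(D + Y * B) k j| * (2 * η) := by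
        refine (Finset.abs_sum_le_sum_abs _ _).trans (Finset.sum_le_sum fun j _ => ?_)
        rw [abs_mul]
        exact mul_le_mul_of_nonneg_left (hXb j) (abs_nonneg _)
    _ = (∑ j, |(D + Y * B) k j|) * (2 * η) := by rw [Finset.sum_mul]
    _ ≤ c * (2 * η) := mul_le_mul_of_nonneg_right (hc k) (by linarith)
    _ = 2 * c * η := by ring

/-- the error matrices -/
def er (v : ℝ) (m a : ℕ) : Matrix (Fin m) (Fin m) ℝ :=
  Dm v m a * tr (Y0 v) m a - Bc v m a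

theorem er_loc {v : ℝ} (hv : 1 < v) : Loc win (fun p => emb p.2 (er v p.1 p.2)) fun _ _ => 0 := by
  have h1 := (Dm_band hv).mm_loc (tr_loc (Y0_LL hv) (Y0_real hv))
  have h2 := h1.add ((Bc_loc hv).smul (-1))
  have h3 : (fun k l => mm (D0 v) (Y0 v) k l + -1 * B0 v k l) = fun _ _ => 0 := by
    funext k l
    rw [D0_Y0 hv]
    ring
  rw [h3] at h2
  convert h2 using 2 with p
  funext k l
  rw [er, sub_eq_add_neg, ← neg_one_smul ℝ (Bc v p.1 p.2), emb_add, emb_smul, emb_mul]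
  push_cast
  rfl

theorem yb_band {v : ℝ} (hv : 1 < v) : Band win
    (fun p => emb p.2 (Dm v p.1 p.2 + tr (Y0 v) p.1 p.2 * Bc v p.1 p.2))
    (fun k l => D0 v k l + mm (Y0 v) (B0 v) k l) := by
  have h1 := (Dm_band hv).add ((tr_loc (Y0_LL hv) (Y0_real hv)).band.mm (Bc_loc hv).band)
  convert h1 using 2 with p
  funext k l
  rw [emb_add, emb_mul]

/-- everything in one statement -/
theorem main {v : ℝ} (hv : 1 < v) : ∃ (c C q : ℝ), 0 ≤ c ∧ 0 ≤ C ∧ 0 < q ∧ q < 1 ∧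
    ∀ᶠ p in win, (Dm v p.1 p.2).det ≠ 0 ∧
      (∀ k l, ‖emb p.2 (Ym v p.1 p.2 - tr (Y0 v) p.1 p.2) k l‖ ≤
        c * ∑' q : ℤ × ℤ, ‖emb p.2 (er v p.1 p.2) q.1 q.2‖) ∧
      (∀ k l, ‖emb p.2 (Ym v p.1 p.2 - tr (Y0 v) p.1 p.2) k l‖ ≤ C * q ^ l.natAbs) := by
  obtain ⟨Ce, qe, hCe, hqe0, hqe1, hbe⟩ := (er_loc hv).bound
  obtain ⟨Cb, qb, hCb, hqb0, hqb1, hbb⟩ := (Bc_loc hv).band.bound
  obtain ⟨Cy, qy, hCy, hqy0, hqy1, hby⟩ := (yb_band hv).bound
  set d := Cb * ∑' n : ℤ, qb ^ n.natAbs with hd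
  set c := Cy * ∑' n : ℤ, qy ^ n.natAbs with hc
  have hd0 : 0 ≤ d := mul_nonneg hCb (tsum_nonneg fun _ => by positivity)
  have hc0 : 0 ≤ c := mul_nonneg hCy (tsum_nonneg fun _ => by positivity)
  have ht := (er_loc hv).tendsto_sum
  have hsmall : ∀ᶠ p in win, (∑' q : ℤ × ℤ, ‖emb p.2 (er v p.1 p.2) q.1 q.2‖) * d ≤ 1 / 2 := by
    have h1 : Tendsto (fun p : ℕ × ℕ => (∑' q : ℤ × ℤ, ‖emb p.2 (er v p.1 p.2) q.1 q.2‖) * d) win
        (𝓝 (0 * d)) := ht.mul_const d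
    rw [zero_mul] at h1
    exact (h1.eventually (gt_mem_nhds (show (0 : ℝ) < 1 / 2 by norm_num))).mono fun p hp => hp.le
  refine ⟨2 * c, 2 * c * Ce, qe, by positivity, by positivity, hqe0, hqe1, ?_⟩
  filter_upwards [hbe, hbb, hby, hsmall] with p hp1 hp2 hp3 hp4
  have hsum : Summable fun q : ℤ × ℤ => ‖emb p.2 (er v p.1 p.2) q.1 q.2‖ := by
    refine Summable.of_nonneg_of_le (fun _ => norm_nonneg _) (fun q => hp1 q.1 q.2)
      ((summ2 hqe0 hqe1).mul_left Ce)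
  have hfacts := Bc_facts hv p.1 p.2
  obtain ⟨hdet, hmain⟩ := core (D := Dm v p.1 p.2) (B := Bc v p.1 p.2)
    (Y := tr (Y0 v) p.1 p.2) hfacts.2.2.1 (δ := ∑' q : ℤ × ℤ, ‖emb p.2 (er v p.1 p.2) q.1 q.2‖)
    (d := d) (c := c) (fun k => row_sum hsum k) (row_band hCb hqb0 hqb1 hp2) hp4 hd0
    (row_band hCy hqy0 hqy1 hp3) hc0
  have hgen : ∀ (η : ℤ → ℝ), (∀ l, 0 ≤ η l) → (∀ k l, ‖emb p.2 (er v p.1 p.2) k l‖ ≤ η l) →
      ∀ k l, ‖emb p.2 (Ym v p.1 p.2 - tr (Y0 v) p.1 p.2) k l‖ ≤ 2 * c * η l := by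
    intro η hη0 hη k l
    by_cases hkl : (0 ≤ k + p.2 ∧ k + p.2 < p.1) ∧ (0 ≤ l + p.2 ∧ l + p.2 < p.1)
    · obtain ⟨⟨h1, h2⟩, h3, h4⟩ := hkl
      obtain ⟨k', hk'⟩ : ∃ k' : Fin p.1, ((k' : ℕ) : ℤ) = k + p.2 :=
        ⟨⟨(k + p.2).toNat, by omega⟩, by simp [Int.toNat_of_nonneg h1]⟩
      obtain ⟨l', hl'⟩ : ∃ l' : Fin p.1, ((l' : ℕ) : ℤ) = l + p.2 :=
        ⟨⟨(l + p.2).toNat, by omega⟩, by simp [Int.toNat_of_nonneg h3]⟩
      have hk : k = (k' : ℤ) - p.2 := by rw [hk']; ring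
      have hl : l = (l' : ℤ) - p.2 := by rw [hl']; ring
      rw [hk, hl, ← abs_emb]
      refine hmain _ l' ?_ k'
      intro i
      rw [abs_emb (a := p.2)]
      exact hη _ _
    · unfold emb
      rw [dif_neg hkl, norm_zero]
      have := hη0 l
      positivity
  refine ⟨hdet, ?_, ?_⟩
  · exact hgen (fun _ => ∑' q : ℤ × ℤ, ‖emb p.2 (er v p.1 p.2) q.1 q.2‖)
      (fun _ => tsum_nonneg fun _ => norm_nonneg _)
      (fun k l => hsum.le_tsum (k, l) (fun _ _ => norm_nonneg _))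
  · intro k l
    have h1 := hgen (fun l => Ce * qe ^ l.natAbs) (fun _ => by positivity) (fun k l => by
      refine (hp1 k l).trans (mul_le_mul_of_nonneg_left ?_ hCe)
      rw [pow_add]
      exact mul_le_of_le_one_left (by positivity) (pow_le_one₀ hqe0.le hqe1.le)) k l
    calc _ ≤ _ := h1
      _ = _ := by ring

end YL

open YL

theorem Dm_unit {v : ℝ} (hv : 1 < v) : ∀ᶠ p in win, (Dm v p.1 p.2).det ≠ 0 := by
  obtain ⟨c, C, q, -, -, -, -, h⟩ := YL.main hv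
  exact h.mono fun p hp => hp.1

theorem Ym_loc {v : ℝ} (hv : 1 < v) : Loc win (fun p => emb p.2 (Ym v p.1 p.2)) (Y0 v) := by
  obtain ⟨c, C, q, hc, hC, hq0, hq1, h⟩ := YL.main hv
  have htr := tr_loc (Y0_LL hv) (Y0_real hv)
  have hsplit : ∀ (p : ℕ × ℕ) (k l : ℤ), emb p.2 (Ym v p.1 p.2) k l =
      emb p.2 (tr (Y0 v) p.1 p.2) k l + emb p.2 (Ym v p.1 p.2 - tr (Y0 v) p.1 p.2) k l := by
    intro p k l
    rw [← emb_add, add_sub_cancel]
  constructor
  · obtain ⟨Ct, qt, hCt, hqt0, hqt1, hbt⟩ := htr.bound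
    set Q := max q qt with hQ
    have hQ0 : 0 < Q := lt_max_of_lt_left hq0
    have hQ1 : Q < 1 := max_lt hq1 hqt1
    refine ⟨Ct + C, Real.sqrt Q, by positivity, Real.sqrt_pos.2 hQ0, ?_, ?_⟩
    · rw [← Real.sqrt_one]
      exact Real.sqrt_lt_sqrt hQ0.le hQ1
    · filter_upwards [h, hbt] with p hp1 hp2
      have h1 : ∀ k l : ℤ, ‖emb p.2 (Ym v p.1 p.2) k l‖ ≤ (Ct + C) * Q ^ l.natAbs := by
        intro k l
        rw [hsplit]
        refine (norm_add_le _ _).trans ?_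
        rw [add_mul]
        apply add_le_add
        · refine (hp2 k l).trans (mul_le_mul_of_nonneg_left ?_ hCt)
          rw [pow_add]
          calc qt ^ k.natAbs * qt ^ l.natAbs ≤ 1 * qt ^ l.natAbs :=
                mul_le_mul_of_nonneg_right (pow_le_one₀ hqt0.le hqt1.le) (by positivity)
            _ ≤ Q ^ l.natAbs := by
                rw [one_mul]
                exact pow_le_pow_left₀ hqt0.le (le_max_right _ _) _
        · exact (hp1.2.2 k l).trans (mul_le_mul_of_nonneg_left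
            (pow_le_pow_left₀ hq0.le (le_max_left _ _) _) hC)
      have hanti := Ym_antisymm hv p.1 p.2 hp1.1
      have h2 : ∀ k l : ℤ, ‖emb p.2 (Ym v p.1 p.2) k l‖ ≤ (Ct + C) * Q ^ k.natAbs := by
        intro k l
        have h3 : emb p.2 (Ym v p.1 p.2) k l = -emb p.2 (Ym v p.1 p.2) l k := by
          rw [← emb_transpose, hanti, ← neg_one_smul ℝ (Ym v p.1 p.2), emb_smul]
          push_cast
          ring
        rw [h3, norm_neg]
        exact h1 l k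
      intro k l
      have h4 : Real.sqrt Q ^ (k.natAbs + l.natAbs) =
          Real.sqrt (Q ^ k.natAbs * Q ^ l.natAbs) := by
        rw [← pow_add, Real.sqrt_eq_rpow, Real.sqrt_eq_rpow, ← Real.rpow_natCast,
          ← Real.rpow_natCast, ← Real.rpow_mul hQ0.le, ← Real.rpow_mul hQ0.le, mul_comm]
      rw [h4]
      have h5 : ‖emb p.2 (Ym v p.1 p.2) k l‖ ^ 2 ≤
          (Ct + C) ^ 2 * (Q ^ k.natAbs * Q ^ l.natAbs) := by
        calc ‖emb p.2 (Ym v p.1 p.2) k l‖ ^ 2 =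
            ‖emb p.2 (Ym v p.1 p.2) k l‖ * ‖emb p.2 (Ym v p.1 p.2) k l‖ := sq _
          _ ≤ ((Ct + C) * Q ^ k.natAbs) * ((Ct + C) * Q ^ l.natAbs) :=
              mul_le_mul (h2 k l) (h1 k l) (norm_nonneg _) (by positivity)
          _ = _ := by ring
      have h6 := Real.sqrt_le_sqrt h5
      rw [Real.sqrt_sq (norm_nonneg _), Real.sqrt_mul (by positivity),
        Real.sqrt_sq (by positivity)] at h6
      exact h6
  · intro k l
    have h1 : Tendsto (fun p : ℕ × ℕ => emb p.2 (Ym v p.1 p.2 - tr (Y0 v) p.1 p.2) k l) win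
        (𝓝 0) := by
      have h2 : Tendsto (fun p : ℕ × ℕ => c * ∑' q : ℤ × ℤ, ‖emb p.2 (er v p.1 p.2) q.1 q.2‖) win
          (𝓝 (c * 0)) := (er_loc hv).tendsto_sum.const_mul c
      rw [mul_zero] at h2
      refine squeeze_zero_norm' (h.mono fun p hp => hp.2.1 k l) h2
    have h3 := (htr.lim k l).add h1
    rw [add_zero] at h3
    exact h3.congr fun p => (hsplit p k l).symm

end

end IsingS2
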