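import Pool.Agent.Helper98.IS.Coupling
import Pool.Agent.Helper98.IS.Band
import Pool.Agent.Helper98.IS.Fam
import Pool.Agent.Helper98.IS.Emb
import Pool.Agent.Helper98.IS.DetLim
import Pool.Agent.Helper98.IS.FC
import Pool.Agent.Helper98.IS.Symbols
import Pool.Agent.Helper98.IS.SymbolsB
import Pool.Agent.Helper98.IS.BWLim
import Pool.Agent.Helper98.IS.WH
import Pool.Agent.Helper98.IS.YLim

/-!
# IS-28: first limit theorem
-/

set_option autoImplicit false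

namespace IsingS2

open Complex Set MeasureTheory Filter Topology IsingNB
open scoped Real Matrix

noncomputable section

theorem L28_ann_const (r : ℂ) : Ann fun _ => r :=
  ⟨1 / 2, by norm_num, by norm_num, differentiableOn_const r⟩

theorem L28_ann_add {f g : ℂ → ℂ} (hf : Ann f) (hg : Ann g) : Ann fun x => f x + g x := by
  obtain ⟨p, hp0, hp1, hp⟩ := hf
  obtain ⟨q, hq0, hq1, hq⟩ := hg
  refine ⟨max p q, lt_max_of_lt_left hp0, max_lt hp1 hq1, ?_⟩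
  have h1 : {x : ℂ | max p q < ‖x‖ ∧ ‖x‖ < (max p q)⁻¹} ⊆ {x : ℂ | p < ‖x‖ ∧ ‖x‖ < p⁻¹} := by
    rintro x ⟨h1, h2⟩
    exact ⟨lt_of_le_of_lt (le_max_left _ _) h1,
      lt_of_lt_of_le h2 (inv_anti₀ hp0 (le_max_left _ _))⟩
  have h2 : {x : ℂ | max p q < ‖x‖ ∧ ‖x‖ < (max p q)⁻¹} ⊆ {x : ℂ | q < ‖x‖ ∧ ‖x‖ < q⁻¹} := by
    rintro x ⟨h1, h2⟩
    exact ⟨lt_of_le_of_lt (le_max_right _ _) h1,
      lt_of_lt_of_le h2 (inv_anti₀ hq0 (le_max_right _ _))⟩
  exact (hp.mono h1).add (hq.mono h2)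

theorem L28_ann_pow {f : ℂ → ℂ} (hf : Ann f) (N : ℕ) : Ann fun x => f x ^ N := by
  obtain ⟨p, hp0, hp1, hp⟩ := hf
  exact ⟨p, hp0, hp1, hp.pow N⟩

theorem L28_cont {f : ℂ → ℂ} (hf : Ann f) (n : ℤ) :
    Continuous fun φ : ℝ => f (Complex.exp (I * φ)) * Complex.exp (-(I * n * φ)) := by
  obtain ⟨q, hq0, hq1, hq⟩ := hf
  refine Continuous.mul ?_ (by fun_prop)
  refine hq.continuousOn.comp_continuous (by fun_prop) fun φ => ?_
  have h : ‖Complex.exp (I * φ)‖ = 1 := by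
    rw [mul_comm]
    exact Complex.norm_exp_ofReal_mul_I φ
  rw [mem_ofPred_eq, h]
  exact ⟨hq1, (one_lt_inv₀ hq0).mpr hq1⟩

theorem L28_fc_lin {f g : ℂ → ℂ} (hf : Ann f) (hg : Ann g) (a b : ℂ) (n : ℤ) :
    fc (fun x => a * f x + b * g x) n = a * fc f n + b * fc g n := by
  unfold fc
  have h : (fun φ : ℝ => (a * f (Complex.exp (I * φ)) + b * g (Complex.exp (I * φ))) *
      Complex.exp (-(I * n * φ))) = fun φ : ℝ =>
      a * (f (Complex.exp (I * φ)) * Complex.exp (-(I * n * φ))) +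
      b * (g (Complex.exp (I * φ)) * Complex.exp (-(I * n * φ))) := by
    funext φ
    ring
  rw [h, intervalIntegral.integral_add (((L28_cont hf n).const_mul a |>.intervalIntegrable _ _))
    (((L28_cont hg n).const_mul b |>.intervalIntegrable _ _)),
    intervalIntegral.integral_const_mul, intervalIntegral.integral_const_mul]
  ring

theorem L28_mv_dl (A : ℤ → ℤ → ℂ) (k : ℤ) : mv A (dl 0) k = A k 0 := by
  unfold mv dl
  rw [tsum_eq_single 0]
  · simp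
  · intro i hi
    simp [hi]

section conv
variable {v : ℝ}

theorem L28_band {v : ℝ} (hv : 1 < v) (M : ℤ) (N : ℕ) :
    Loc win (fun p : ℕ × ℕ => emb p.2 (-(wm v p.1 ^ N * Ym v p.1 (p.2 + M).toNat *
      wm v p.1 ^ N * Ym v p.1 p.2))) (fun k l => -P0 v M N k l) := by
  have hW := wm_band hv N
  have hY := Ym_loc hv
  have hYb : Loc win (fun p : ℕ × ℕ => emb p.2 (Ym v p.1 (p.2 + M).toNat)) (sft M (Y0 v)) :=
    Loc.sft (A := fun p : ℕ × ℕ => Ym v p.1 p.2) hY M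
  have h := ((((hW.mm_loc hYb).mm_band hW).band).mm_loc hY).smul (-1)
  have e1 : (fun k l => -P0 v M N k l) = fun k l => (-1 : ℂ) * mm (mm (mm
      (Tz fun x => ww (cc v) x ^ N) (sft M (Y0 v))) (Tz fun x => ww (cc v) x ^ N)) (Y0 v) k l := by
    funext k l
    rw [neg_one_mul]
    rfl
  rw [e1]
  have e2 : (fun p : ℕ × ℕ => emb p.2 (-(wm v p.1 ^ N * Ym v p.1 (p.2 + M).toNat *
      wm v p.1 ^ N * Ym v p.1 p.2))) = fun p : ℕ × ℕ => fun k l => (-1 : ℂ) *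
      mm (mm (mm (emb p.2 (wm v p.1 ^ N)) (emb p.2 (Ym v p.1 (p.2 + M).toNat)))
        (emb p.2 (wm v p.1 ^ N))) (emb p.2 (Ym v p.1 p.2)) k l := by
    funext p k l
    rw [← emb_mul, ← emb_mul, ← emb_mul, ← neg_one_smul ℝ, emb_smul]
    push_cast
    rfl
  rw [e2]
  exact h

/-- the four terms of `g_a` and `g'_b` -/
theorem L28_four {v : ℝ} (hv : 1 < v) (r1 r2 r3 r4 : ℝ) :
    LocV win (fun p : ℕ × ℕ => embV p.2 (r1 • (bm v p.1).mulVec (ev1 p.1 p.2) +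
      r2 • ev1 p.1 p.2 + (r3 • (Ym v p.1 p.2).mulVec (ev1 p.1 p.2) +
      r4 • (Ym v p.1 p.2).mulVec ((bm v p.1).mulVec (ev1 p.1 p.2)))))
      (fun k => r1 * fc (bx v) k + r2 * dl 0 k + (r3 * (fc (bq v) k - dl 0 k) +
        r4 * (fc (bx v) k - fc (bp v) k))) := by
  have hE := ev1_locV
  have hb := (bm_band hv).mv_loc hE
  have hY := (Ym_loc hv).band.mv_loc hE
  have hYb := (Ym_loc hv).band.mv_loc hb
  have h := ((hb.smul (r1 : ℂ)).add (hE.smul (r2 : ℂ))).add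
    ((hY.smul (r3 : ℂ)).add (hYb.smul (r4 : ℂ)))
  have e1 : (fun k => (r1 : ℂ) * fc (bx v) k + r2 * dl 0 k + (r3 * (fc (bq v) k - dl 0 k) +
        r4 * (fc (bx v) k - fc (bp v) k))) = fun k => ((r1 : ℂ) * mv (Tz (bx v)) (dl 0) k +
        r2 * dl 0 k) + (r3 * mv (Y0 v) (dl 0) k +
        r4 * mv (Y0 v) (mv (Tz (bx v)) (dl 0)) k) := by
    funext k
    rw [Y0_dl hv, Y0_b_dl hv, L28_mv_dl]
    unfold Tz
    rw [sub_zero]
  rw [e1]
  convert h using 1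
  funext p k
  simp only [embV_add, embV_smul, embV_mulVec]

theorem L28_ga {v : ℝ} (hv : 1 < v) :
    LocV win (fun p : ℕ × ℕ => embV p.2 (ga v p.1 p.2 (ev1 p.1 p.2))) (g0 v) := by
  have h := L28_four hv (c1 v) (s1 v) (s1 v) (-c1 v)
  have e1 : g0 v = fun k => ((c1 v : ℝ) : ℂ) * fc (bx v) k + (s1 v : ℝ) * dl 0 k +
      ((s1 v : ℝ) * (fc (bq v) k - dl 0 k) +
        ((-c1 v : ℝ) : ℂ) * (fc (bx v) k - fc (bp v) k)) := by
    funext k
    unfold g0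
    rw [L28_fc_lin (bq_ann hv) (bp_ann hv)]
    push_cast
    ring
  rw [e1]
  convert h using 3 with p
  unfold ga
  simp only [Matrix.add_mulVec, Matrix.sub_mulVec, Matrix.smul_mulVec, Matrix.one_mulVec,
    Matrix.mulVec_sub, Matrix.mulVec_smul]
  module

theorem L28_gb {v : ℝ} (hv : 1 < v) :
    LocV win (fun p : ℕ × ℕ => embV p.2 (gb v p.1 p.2 (ev1 p.1 p.2)))
      (fun k => fc (fun x => s1 v * bq v x - c1 v * bp v x) k) := by
  have h := L28_four hv (-c1 v) (s1 v) (s1 v) (c1 v)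
  have e1 : (fun k => fc (fun x => s1 v * bq v x - c1 v * bp v x) k) =
      fun k => ((-c1 v : ℝ) : ℂ) * fc (bx v) k + (s1 v : ℝ) * dl 0 k +
      ((s1 v : ℝ) * (fc (bq v) k - dl 0 k) +
        ((c1 v : ℝ) : ℂ) * (fc (bx v) k - fc (bp v) k)) := by
    funext k
    have : (fun x => (s1 v : ℂ) * bq v x - c1 v * bp v x) =
        fun x => (s1 v : ℂ) * bq v x + (-c1 v : ℂ) * bp v x := by
      funext x
      ring
    rw [this, L28_fc_lin (bq_ann hv) (bp_ann hv)]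
    push_cast
    ring
  rw [e1]
  convert h using 3 with p
  unfold gb
  simp only [Matrix.add_mulVec, Matrix.sub_mulVec, Matrix.smul_mulVec, Matrix.one_mulVec,
    Matrix.mulVec_add, Matrix.mulVec_smul]
  module

theorem L28_f_ann {v : ℝ} (hv : 1 < v) : Ann fun x => s1 v * bq v x - c1 v * bp v x := by
  have h := L28_ann_add ((L28_ann_const (s1 v : ℂ)).mul (bq_ann hv))
    ((L28_ann_const (-c1 v : ℂ)).mul (bp_ann hv))
  convert h using 2
  ring

theorem L28_hb {v : ℝ} (hv : 1 < v) (M : ℤ) (N : ℕ) :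
    LocV win (fun p : ℕ × ℕ => embV p.2 ((wm v p.1 ^ N).mulVec
      (gb v p.1 (p.2 + M).toNat (ev1 p.1 (p.2 + M).toNat)))) (h0 v M N) := by
  have h1 : LocV win (fun p : ℕ × ℕ => embV p.2
      (gb v p.1 (p.2 + M).toNat (ev1 p.1 (p.2 + M).toNat)))
      (fun k => fc (fun x => s1 v * bq v x - c1 v * bp v x) (k - M)) :=
    LocV.sft (u := fun p : ℕ × ℕ => gb v p.1 p.2 (ev1 p.1 p.2)) (L28_gb hv) M
  have h := (wm_band hv N).mv_loc h1
  have e1 : h0 v M N = mv (Tz fun x => ww (cc v) x ^ N)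
      (fun k => fc (fun x => s1 v * bq v x - c1 v * bp v x) (k - M)) := by
    funext k
    have h2 := Tz_mul (L28_ann_pow (ww_ann (cc_gt_two hv)) N) (L28_f_ann hv)
    have h3 := congrFun (congrFun h2 k) M
    unfold h0 mv
    unfold mm at h3
    exact h3.symm
  rw [e1]
  convert h using 2 with p
  rw [embV_mulVec]

end conv

theorem Pm_lim {v : ℝ} (hv : 1 < v) (M : ℤ) (N : ℕ) :
    Tendsto (fun p : ℕ × ℕ => (((Pm v p.1 p.2 (p.2 + M).toNat N).det : ℝ) : ℂ)) win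
      (𝓝 (Fdet fun k l => -P0 v M N k l)) := by
  refine (Fdet_lim (L28_band hv M N)).congr fun p => ?_
  rw [Fdet_emb]
  unfold Pm
  rw [← sub_eq_add_neg]

theorem Qm_lim {v : ℝ} (hv : 1 < v) (M : ℤ) (N : ℕ) :
    Tendsto (fun p : ℕ × ℕ => ((Qm v p.1 p.2 (p.2 + M).toNat N : ℝ) : ℂ)) win
      (𝓝 (Fbord (fun k l => -P0 v M N k l) (h0 v M N) (g0 v))) := by
  refine (Fbord_lim (L28_band hv M N) (L28_hb hv M N) (L28_ga hv)).congr fun p => ?_
  rw [Fbord_emb]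
  unfold Qm Pm
  rw [← sub_eq_add_neg]

theorem P0_LL {v : ℝ} (hv : 1 < v) (M : ℤ) (N : ℕ) : LL (P0 v M N) := by
  have hW := Tz_BB (L28_ann_pow (ww_ann (cc_gt_two hv)) N)
  exact LL_mm_left (LL_mm_right (LL_mm_left hW (LL_sft (Y0_LL hv) M)) hW).bb (Y0_LL hv)

theorem g0_LV {v : ℝ} (hv : 1 < v) : LV (g0 v) := by
  have h := L28_ann_add ((L28_ann_const (s1 v : ℂ)).mul (bq_ann hv))
    ((L28_ann_const (c1 v : ℂ)).mul (bp_ann hv))
  exact fc_bound h

theorem h0_LV {v : ℝ} (hv : 1 < v) (M : ℤ) (N : ℕ) : LV (h0 v M N) := by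
  have h := (L28_ann_pow (ww_ann (cc_gt_two hv)) N).mul (L28_f_ann hv)
  obtain ⟨C, q, hC, hq0, hq1, hb⟩ := fc_bound h
  refine ⟨C * (q ^ M.natAbs)⁻¹, q, by positivity, hq0, hq1, fun k => ?_⟩
  refine (hb (k - M)).trans ?_
  rw [mul_assoc]
  refine mul_le_mul_of_nonneg_left ?_ hC
  rw [inv_mul_eq_div, le_div_iff₀ (by positivity), ← pow_add]
  exact pow_le_pow_of_le_one hq0.le hq1.le (by omega)

end

end IsingS2
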