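import Pool.Agent.Helper98.IS.Defs2

/-!
# IS-34 PairsOdd: the product of the pair factors for an odd number of particles
-/

namespace IsingS2

open Complex Set MeasureTheory Filter Topology IsingNB
open scoped Real Matrix

noncomputable section

/-- the four point identity -/
private theorem po_four {c x1 x2 x3 x4 w1 w2 w3 w4 : ℂ} (hx1 : x1 ≠ 0) (hx2 : x2 ≠ 0)
    (hx3 : x3 ≠ 0) (hx4 : x4 ≠ 0)
    (h1 : x1 * (1 + w1 ^ 2) = w1 * (2 * c * x1 - x1 ^ 2 - 1))
    (h2 : x2 * (1 + w2 ^ 2) = w2 * (2 * c * x2 - x2 ^ 2 - 1))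
    (h3 : x3 * (1 + w3 ^ 2) = w3 * (2 * c * x3 - x3 ^ 2 - 1))
    (h4 : x4 * (1 + w4 ^ 2) = w4 * (2 * c * x4 - x4 ^ 2 - 1))
    (d12 : 1 - w1 * w2 ≠ 0) (d13 : 1 - w1 * w3 ≠ 0) (d14 : 1 - w1 * w4 ≠ 0)
    (d23 : 1 - w2 * w3 ≠ 0) (d24 : 1 - w2 * w4 ≠ 0) (d34 : 1 - w3 * w4 ≠ 0) :
    (x1 - x2) / (1 - w1 * w2) * ((x3 - x4) / (1 - w3 * w4)) -
      (x1 - x3) / (1 - w1 * w3) * ((x2 - x4) / (1 - w2 * w4)) +
      (x1 - x4) / (1 - w1 * w4) * ((x2 - x3) / (1 - w2 * w3)) =
    (w1 / x1) * (w2 / x2) * (w3 / x3) * (w4 / x4) *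
      ((x1 - x2) / (1 - w1 * w2) * ((x1 - x3) / (1 - w1 * w3)) * ((x1 - x4) / (1 - w1 * w4)) *
        ((x2 - x3) / (1 - w2 * w3)) * ((x2 - x4) / (1 - w2 * w4)) *
        ((x3 - x4) / (1 - w3 * w4))) := by
  set N : ℂ := (x1 - x2) * (x3 - x4) * ((1 - w1 * w3) * (1 - w2 * w4) * ((1 - w1 * w4) *
      (1 - w2 * w3))) - (x1 - x3) * (x2 - x4) * ((1 - w1 * w2) * (1 - w3 * w4) * ((1 - w1 * w4) *
      (1 - w2 * w3))) + (x1 - x4) * (x2 - x3) * ((1 - w1 * w2) * (1 - w3 * w4) * ((1 - w1 * w3) *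
      (1 - w2 * w4))) with hN
  have key : N * (x1 * x2 * x3 * x4) = (w1 * w2 * w3 * w4) *
      ((x1 - x2) * (x1 - x3) * (x1 - x4) * (x2 - x3) * (x2 - x4) * (x3 - x4)) := by
    have e1 : N * (x1 * x2 * x3 * x4) =
        (x1 - x2) * (x3 - x4) * (w3 * w4 * x3 * x4 * ((x1 * (1 + w1 ^ 2)) * (x2 * (1 + w2 ^ 2))) +
          w1 * w2 * x1 * x2 * ((x3 * (1 + w3 ^ 2)) * (x4 * (1 + w4 ^ 2)))) -
        (x1 - x3) * (x2 - x4) * (w2 * w4 * x2 * x4 * ((x1 * (1 + w1 ^ 2)) * (x3 * (1 + w3 ^ 2))) +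
          w1 * w3 * x1 * x3 * ((x2 * (1 + w2 ^ 2)) * (x4 * (1 + w4 ^ 2)))) +
        (x1 - x4) * (x2 - x3) * (w2 * w3 * x2 * x3 * ((x1 * (1 + w1 ^ 2)) * (x4 * (1 + w4 ^ 2))) +
          w1 * w4 * x1 * x4 * ((x2 * (1 + w2 ^ 2)) * (x3 * (1 + w3 ^ 2)))) := by
      rw [hN]
      ring
    rw [e1, h1, h2, h3, h4]
    ring
  have eL : (x1 - x2) / (1 - w1 * w2) * ((x3 - x4) / (1 - w3 * w4)) -
      (x1 - x3) / (1 - w1 * w3) * ((x2 - x4) / (1 - w2 * w4)) +
      (x1 - x4) / (1 - w1 * w4) * ((x2 - x3) / (1 - w2 * w3)) =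
      N / ((1 - w1 * w2) * (1 - w1 * w3) * (1 - w1 * w4) * (1 - w2 * w3) * (1 - w2 * w4) *
        (1 - w3 * w4)) := by
    rw [hN]
    generalize 1 - w1 * w2 = D12 at *
    generalize 1 - w1 * w3 = D13 at *
    generalize 1 - w1 * w4 = D14 at *
    generalize 1 - w2 * w3 = D23 at *
    generalize 1 - w2 * w4 = D24 at *
    generalize 1 - w3 * w4 = D34 at *
    field_simp
  have eR : (w1 / x1) * (w2 / x2) * (w3 / x3) * (w4 / x4) *
      ((x1 - x2) / (1 - w1 * w2) * ((x1 - x3) / (1 - w1 * w3)) * ((x1 - x4) / (1 - w1 * w4)) *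
        ((x2 - x3) / (1 - w2 * w3)) * ((x2 - x4) / (1 - w2 * w4)) *
        ((x3 - x4) / (1 - w3 * w4))) =
      ((w1 * w2 * w3 * w4) *
        ((x1 - x2) * (x1 - x3) * (x1 - x4) * (x2 - x3) * (x2 - x4) * (x3 - x4)) /
        (x1 * x2 * x3 * x4)) /
      ((1 - w1 * w2) * (1 - w1 * w3) * (1 - w1 * w4) * (1 - w2 * w3) * (1 - w2 * w4) *
        (1 - w3 * w4)) := by
    generalize 1 - w1 * w2 = D12 at *
    generalize 1 - w1 * w3 = D13 at *
    generalize 1 - w1 * w4 = D14 at *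
    generalize 1 - w2 * w3 = D23 at *
    generalize 1 - w2 * w4 = D24 at *
    generalize 1 - w3 * w4 = D34 at *
    field_simp
  rw [eL, eR]
  congr 1
  rw [eq_div_iff (mul_ne_zero (mul_ne_zero (mul_ne_zero hx1 hx2) hx3) hx4)]
  exact key

/-- three point identity, fourth point at infinity -/
private theorem po_three_x {c x1 x2 x3 w1 w2 w3 : ℂ}
    (h1 : x1 * (1 + w1 ^ 2) = w1 * (2 * c * x1 - x1 ^ 2 - 1))
    (h2 : x2 * (1 + w2 ^ 2) = w2 * (2 * c * x2 - x2 ^ 2 - 1))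
    (h3 : x3 * (1 + w3 ^ 2) = w3 * (2 * c * x3 - x3 ^ 2 - 1))
    (d12 : 1 - w1 * w2 ≠ 0) (d13 : 1 - w1 * w3 ≠ 0) (d23 : 1 - w2 * w3 ≠ 0) :
    (x1 - x2) / (1 - w1 * w2) * x3 + (x2 - x3) / (1 - w2 * w3) * x1 -
      (x1 - x3) / (1 - w1 * w3) * x2 =
    -(w1 * w2 * w3) *
      ((x1 - x2) / (1 - w1 * w2) * ((x1 - x3) / (1 - w1 * w3)) * ((x2 - x3) / (1 - w2 * w3))) := by
  have key : (x1 - x2) * x3 * ((1 - w1 * w3) * (1 - w2 * w3)) +
      (x2 - x3) * x1 * ((1 - w1 * w2) * (1 - w1 * w3)) -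
      (x1 - x3) * x2 * ((1 - w1 * w2) * (1 - w2 * w3)) =
      -(w1 * w2 * w3) * ((x1 - x2) * (x1 - x3) * (x2 - x3)) := by
    have e1 : (x1 - x2) * x3 * ((1 - w1 * w3) * (1 - w2 * w3)) +
        (x2 - x3) * x1 * ((1 - w1 * w2) * (1 - w1 * w3)) -
        (x1 - x3) * x2 * ((1 - w1 * w2) * (1 - w2 * w3)) =
        w1 * w2 * (x1 - x2) * (x3 * (1 + w3 ^ 2)) + w2 * w3 * (x2 - x3) * (x1 * (1 + w1 ^ 2)) -
          w1 * w3 * (x1 - x3) * (x2 * (1 + w2 ^ 2)) := by
      ring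
    rw [e1, h1, h2, h3]
    ring
  generalize 1 - w1 * w2 = D12 at *
  generalize 1 - w1 * w3 = D13 at *
  generalize 1 - w2 * w3 = D23 at *
  field_simp
  linear_combination key

/-- three point identity, fourth point at zero -/
private theorem po_three_w {c x1 x2 x3 w1 w2 w3 : ℂ} (hx1 : x1 ≠ 0) (hx2 : x2 ≠ 0) (hx3 : x3 ≠ 0)
    (hw1 : w1 ≠ 0) (hw2 : w2 ≠ 0) (hw3 : w3 ≠ 0)
    (h1 : x1 * (1 + w1 ^ 2) = w1 * (2 * c * x1 - x1 ^ 2 - 1))
    (h2 : x2 * (1 + w2 ^ 2) = w2 * (2 * c * x2 - x2 ^ 2 - 1))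
    (h3 : x3 * (1 + w3 ^ 2) = w3 * (2 * c * x3 - x3 ^ 2 - 1))
    (d12 : 1 - w1 * w2 ≠ 0) (d13 : 1 - w1 * w3 ≠ 0) (d23 : 1 - w2 * w3 ≠ 0) :
    (x1 - x2) / (1 - w1 * w2) * w3⁻¹ + (x2 - x3) / (1 - w2 * w3) * w1⁻¹ -
      (x1 - x3) / (1 - w1 * w3) * w2⁻¹ =
    -(x1 * x2 * x3)⁻¹ *
      ((x1 - x2) / (1 - w1 * w2) * ((x1 - x3) / (1 - w1 * w3)) * ((x2 - x3) / (1 - w2 * w3))) := by
  have key : ((x1 - x2) * (w1 * w2) * ((1 - w1 * w3) * (1 - w2 * w3)) +
      (x2 - x3) * (w2 * w3) * ((1 - w1 * w2) * (1 - w1 * w3)) -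
      (x1 - x3) * (w1 * w3) * ((1 - w1 * w2) * (1 - w2 * w3))) * (x1 * x2 * x3) =
      -(w1 * w2 * w3) * ((x1 - x2) * (x1 - x3) * (x2 - x3)) := by
    have e1 : ((x1 - x2) * (w1 * w2) * ((1 - w1 * w3) * (1 - w2 * w3)) +
        (x2 - x3) * (w2 * w3) * ((1 - w1 * w2) * (1 - w1 * w3)) -
        (x1 - x3) * (w1 * w3) * ((1 - w1 * w2) * (1 - w2 * w3))) * (x1 * x2 * x3) =
        w1 * w2 * (x1 * x2) * (x1 - x2) * (x3 * (1 + w3 ^ 2)) +
          w2 * w3 * (x2 * x3) * (x2 - x3) * (x1 * (1 + w1 ^ 2)) -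
          w1 * w3 * (x1 * x3) * (x1 - x3) * (x2 * (1 + w2 ^ 2)) := by
      ring
    rw [e1, h1, h2, h3]
    ring
  generalize 1 - w1 * w2 = D12 at *
  generalize 1 - w1 * w3 = D13 at *
  generalize 1 - w2 * w3 = D23 at *
  field_simp
  linear_combination key

/-- Schur complement of a 2x2 block, general index types -/
private theorem po_schur {ι κ : Type*} [Fintype ι] [DecidableEq ι] [Fintype κ] [DecidableEq κ]
    (e : Fin 2 ⊕ κ ≃ ι) (G : Matrix ι ι ℂ) (h00 : G (e (Sum.inl 0)) (e (Sum.inl 0)) = 0)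
    (h11 : G (e (Sum.inl 1)) (e (Sum.inl 1)) = 0)
    (h10 : G (e (Sum.inl 1)) (e (Sum.inl 0)) = -G (e (Sum.inl 0)) (e (Sum.inl 1)))
    (h01 : G (e (Sum.inl 0)) (e (Sum.inl 1)) ≠ 0) :
    G.det = (G (e (Sum.inl 0)) (e (Sum.inl 1))) ^ 2 *
      (Matrix.of fun i j : κ => G (e (Sum.inr i)) (e (Sum.inr j)) -
        (G (e (Sum.inr i)) (e (Sum.inl 1)) * G (e (Sum.inl 0)) (e (Sum.inr j)) -
          G (e (Sum.inr i)) (e (Sum.inl 0)) * G (e (Sum.inl 1)) (e (Sum.inr j))) /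
            G (e (Sum.inl 0)) (e (Sum.inl 1))).det := by
  set g : ℂ := G (e (Sum.inl 0)) (e (Sum.inl 1)) with hg
  set A : Matrix (Fin 2) (Fin 2) ℂ := !![0, g; -g, 0] with hA
  set Ai : Matrix (Fin 2) (Fin 2) ℂ := !![0, -g⁻¹; g⁻¹, 0] with hAi
  set B : Matrix (Fin 2) κ ℂ := Matrix.of fun a j => G (e (Sum.inl a)) (e (Sum.inr j)) with hB
  set C : Matrix κ (Fin 2) ℂ := Matrix.of fun i a => G (e (Sum.inr i)) (e (Sum.inl a)) with hC
  set D : Matrix κ κ ℂ := Matrix.of fun i j => G (e (Sum.inr i)) (e (Sum.inr j)) with hD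
  have hsub : G.submatrix e e = Matrix.fromBlocks A B C D := by
    ext i j
    rcases i with i | i <;> rcases j with j | j
    · simp only [Matrix.submatrix_apply, Matrix.fromBlocks_apply₁₁]
      fin_cases i <;> fin_cases j
      · simpa [hA] using h00
      · simp [hA, hg]
      · simpa [hA] using h10
      · simpa [hA] using h11
    · simp [hB]
    · simp [hC]
    · simp [hD]
  have hAA : A * Ai = 1 := by
    rw [hA, hAi]
    ext i j
    fin_cases i <;> fin_cases j <;> simp [Matrix.mul_apply, Fin.sum_univ_two, h01]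
  have hAA' : Ai * A = 1 := by
    rw [hA, hAi]
    ext i j
    fin_cases i <;> fin_cases j <;> simp [Matrix.mul_apply, Fin.sum_univ_two, h01]
  let _ : Invertible A := ⟨Ai, hAA', hAA⟩
  have hinv : ⅟A = Ai := rfl
  rw [← Matrix.det_submatrix_equiv_self e G, hsub, Matrix.det_fromBlocks₁₁, hinv]
  have hdetA : A.det = g ^ 2 := by
    rw [hA, Matrix.det_fin_two_of]
    ring
  rw [hdetA]
  congr 2
  ext i j
  rw [Matrix.sub_apply, Matrix.mul_apply, Fin.sum_univ_two, Matrix.mul_apply, Matrix.mul_apply,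
    Fin.sum_univ_two, Fin.sum_univ_two]
  simp only [hB, hC, hD, hAi, Matrix.of_apply, Matrix.cons_val', Matrix.cons_val_zero,
    Matrix.cons_val_one, Matrix.cons_val_fin_one]
  field_simp
  ring

/-- the corner of a bordered matrix -/
private theorem po_corner {ι : Type*} [Fintype ι] [DecidableEq ι] (M : Matrix ι ι ℂ)
    (h g : ι → ℂ) (κ : ℂ) :
    (Matrix.fromBlocks M (Matrix.of fun i (_ : Unit) => h i) (Matrix.of fun (_ : Unit) l => g l)
      (Matrix.of fun (_ _ : Unit) => κ)).det = bdet M h g + κ * M.det := by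
  unfold bdet
  set F0 : Matrix (ι ⊕ Unit) (ι ⊕ Unit) ℂ := Matrix.fromBlocks M
    (Matrix.of fun i (_ : Unit) => h i) (Matrix.of fun (_ : Unit) l => g l)
    (0 : Matrix Unit Unit ℂ) with hF0
  have e1 : Matrix.fromBlocks M (Matrix.of fun i (_ : Unit) => h i)
      (Matrix.of fun (_ : Unit) l => g l) (Matrix.of fun (_ _ : Unit) => κ) =
      F0.updateRow (Sum.inr ()) (F0 (Sum.inr ()) + Sum.elim (fun _ => 0) (fun _ => κ)) := by
    ext i j
    rcases i with i | i <;> rcases j with j | j <;> simp [Matrix.updateRow_apply, hF0]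
  have e2 : F0.updateRow (Sum.inr ()) (Sum.elim (fun _ => 0) (fun _ => κ)) =
      Matrix.fromBlocks M (Matrix.of fun i (_ : Unit) => h i) 0
        (Matrix.of fun (_ _ : Unit) => κ) := by
    ext i j
    rcases i with i | i <;> rcases j with j | j <;> simp [Matrix.updateRow_apply, hF0]
  have e3 : (Matrix.of fun (_ _ : Unit) => κ).det = κ := by
    rw [Matrix.det_unique]
    rfl
  rw [e1, Matrix.det_updateRow_add, Matrix.updateRow_eq_self, e2, Matrix.det_fromBlocks_zero₂₁,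
    e3, mul_comm]

/-- size one -/
private theorem po_base (M : Matrix (Fin 1) (Fin 1) ℂ) (h g : Fin 1 → ℂ) (hM : M 0 0 = 0) :
    bdet M h g = -(h 0 * g 0) := by
  have h1 := po_corner M h g 1
  have h2 : (Matrix.of fun (_ _ : Unit) => (1 : ℂ)) = 1 := by
    ext i j
    simp
  have h3 : M.det = 0 := by
    rw [Matrix.det_fin_one, hM]
  rw [h2, Matrix.det_fromBlocks_one₂₂, h3, mul_zero, add_zero, Matrix.det_fin_one] at h1
  rw [← h1, Matrix.sub_apply, Matrix.mul_apply, hM]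
  simp

/-- scaling of rows and columns of a bordered matrix -/
private theorem po_scale {ι : Type*} [Fintype ι] [DecidableEq ι] (M : Matrix ι ι ℂ)
    (h g : ι → ℂ) (κ q β γ : ℂ) (a : ι → ℂ) (hq : β * γ = q) (hq0 : q ≠ 0) :
    (Matrix.fromBlocks (Matrix.of fun i l => q * a i * a l * M i l)
      (Matrix.of fun i (_ : Unit) => β * a i * h i) (Matrix.of fun (_ : Unit) l => γ * a l * g l)
      (Matrix.of fun (_ _ : Unit) => κ)).det =
    q ^ Fintype.card ι * (∏ i, a i) ^ 2 * (bdet M h g + κ * M.det) := by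
  have hβ : β ≠ 0 := by
    intro h0
    rw [h0, zero_mul] at hq
    exact hq0 hq.symm
  have hγ : γ ≠ 0 := by
    intro h0
    rw [h0, mul_zero] at hq
    exact hq0 hq.symm
  set F : Matrix (ι ⊕ Unit) (ι ⊕ Unit) ℂ := Matrix.fromBlocks M
    (Matrix.of fun i (_ : Unit) => h i) (Matrix.of fun (_ : Unit) l => g l)
    (Matrix.of fun (_ _ : Unit) => κ) with hF
  have e1 : (Matrix.fromBlocks (Matrix.of fun i l => q * a i * a l * M i l)
      (Matrix.of fun i (_ : Unit) => β * a i * h i) (Matrix.of fun (_ : Unit) l => γ * a l * g l)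
      (Matrix.of fun (_ _ : Unit) => κ)) =
      Matrix.of fun i j => (Sum.elim (fun i => q * a i) (fun _ => γ) : ι ⊕ Unit → ℂ) i *
        (Matrix.of fun i j => (Sum.elim (fun i => a i) (fun _ => β / q) : ι ⊕ Unit → ℂ) j *
          F i j) i j := by
    ext i j
    rcases i with i | i <;> rcases j with j | j
    · simp [hF]
      ring
    · simp [hF]
      field_simp
    · simp [hF]
      ring
    · simp [hF]
      rw [← hq]
      field_simp
  rw [e1, Matrix.det_mul_column, Matrix.det_mul_row, hF, po_corner, Fintype.prod_sum_type,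
    Fintype.prod_sum_type]
  simp only [Sum.elim_inl, Sum.elim_inr, Finset.prod_mul_distrib, Finset.prod_const,
    Finset.card_univ, Fintype.card_unit, pow_one]
  have : γ * (β / q) = 1 := by
    rw [mul_div_assoc', mul_comm γ, hq, div_self hq0]
  linear_combination (q ^ Fintype.card ι * (∏ i, a i) ^ 2 * (bdet M h g + κ * M.det)) * this

/-- removing two points from the bordered determinant -/
private theorem po_det_step {n : ℕ} (hn : Odd n) (c : ℂ) (x w : Fin (n + 2) → ℂ)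
    (hx : ∀ i, x i ≠ 0) (hw : ∀ i, w i ≠ 0)
    (hr : ∀ i, x i + (x i)⁻¹ + w i + (w i)⁻¹ = 2 * c) (hd : ∀ i l, 1 - w i * w l ≠ 0) :
    bdet (Matrix.of fun i l => (x i - x l) / (1 - w i * w l)) x (fun i => (w i)⁻¹) =
      ((x 0 - x 1) / (1 - w 0 * w 1)) ^ 2 * (w 0 / x 0 * (w 1 / x 1)) ^ n *
      (∏ i : Fin n, (w i.succ.succ / x i.succ.succ *
        ((x 0 - x i.succ.succ) / (1 - w 0 * w i.succ.succ)) *
        ((x 1 - x i.succ.succ) / (1 - w 1 * w i.succ.succ)))) ^ 2 *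
      bdet (Matrix.of fun i l : Fin n => (x i.succ.succ - x l.succ.succ) /
        (1 - w i.succ.succ * w l.succ.succ)) (fun i => x i.succ.succ)
        (fun i => (w i.succ.succ)⁻¹) := by
  have hpol : ∀ i, x i * (1 + w i ^ 2) = w i * (2 * c * x i - x i ^ 2 - 1) := by
    intro i
    have h1 := hr i
    have h2 := hx i
    have h3 := hw i
    rw [← h1]
    field_simp
    ring
  set G : Matrix (Fin (n + 2)) (Fin (n + 2)) ℂ :=
    Matrix.of fun i l => (x i - x l) / (1 - w i * w l) with hG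
  have hGa : ∀ i l, G i l = (x i - x l) / (1 - w i * w l) := fun i l => rfl
  have hanti : ∀ i l, G l i = -G i l := by
    intro i l
    rw [hGa, hGa, mul_comm (w l), ← neg_div, neg_sub]
  have hdiag : ∀ i, G i i = 0 := fun i => by rw [hGa, sub_self, zero_div]
  by_cases h01 : G 0 1 = 0
  · have hx01 : x 0 = x 1 := by
      rw [hGa, div_eq_zero_iff] at h01
      exact sub_eq_zero.1 (h01.resolve_right (hd 0 1))
    have hw01 : w 0 = w 1 := by
      have h2 := hr 0
      rw [← hr 1, hx01] at h2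
      have h3 : w 0 + (w 0)⁻¹ = w 1 + (w 1)⁻¹ := by linear_combination h2
      have hw0 := hw 0
      have hw1 := hw 1
      have h4 : (w 0 - w 1) * (1 - w 0 * w 1) = 0 := by
        field_simp at h3
        linear_combination -h3
      exact sub_eq_zero.1 ((mul_eq_zero.1 h4).resolve_right (hd 0 1))
    have hdet : bdet G x (fun i => (w i)⁻¹) = 0 := by
      unfold bdet
      refine Matrix.det_zero_of_row_eq (i := Sum.inl 0) (j := Sum.inl 1) (by simp) ?_
      funext l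
      rcases l with l | l
      · show G 0 l = G 1 l
        rw [hGa, hGa, hx01, hw01]
      · show x 0 = x 1
        exact hx01
    rw [hdet, hx01, sub_self, zero_div]
    simp
  · set e : Fin 2 ⊕ (Fin n ⊕ Unit) ≃ Fin (n + 2) ⊕ Unit :=
      (Equiv.sumAssoc (Fin 2) (Fin n) Unit).symm.trans
        (Equiv.sumCongr (finSumFinEquiv.trans (finCongr (Nat.add_comm 2 n))) (Equiv.refl Unit))
      with he
    have e0 : e (Sum.inl 0) = Sum.inl 0 := by
      simp only [he, Equiv.trans_apply, Equiv.sumAssoc_symm_apply_inl, Equiv.sumCongr_apply,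
        Sum.map_inl]
      congr 1
    have e1 : e (Sum.inl 1) = Sum.inl 1 := by
      simp only [he, Equiv.trans_apply, Equiv.sumAssoc_symm_apply_inl, Equiv.sumCongr_apply,
        Sum.map_inl]
      congr 1
    have er : ∀ i : Fin n, e (Sum.inr (Sum.inl i)) = Sum.inl i.succ.succ := by
      intro i
      simp only [he, Equiv.trans_apply, Equiv.sumAssoc_symm_apply_inr_inl, Equiv.sumCongr_apply,
        Sum.map_inl]
      congr 1
      apply Fin.ext
      simp
    have eu : ∀ u : Unit, e (Sum.inr (Sum.inr u)) = Sum.inr u := by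
      intro u
      simp [he]
    set BB : Matrix (Fin (n + 2) ⊕ Unit) (Fin (n + 2) ⊕ Unit) ℂ :=
      Matrix.fromBlocks G (Matrix.of fun i (_ : Unit) => x i)
        (Matrix.of fun (_ : Unit) l => (w l)⁻¹) (0 : Matrix Unit Unit ℂ) with hBB
    have hb : bdet G x (fun i => (w i)⁻¹) = BB.det := rfl
    have hS := po_schur e BB (by rw [e0]; exact hdiag 0) (by rw [e1]; exact hdiag 1)
      (by rw [e0, e1]; exact hanti 0 1) (by rw [e0, e1]; exact h01)
    rw [hb, hS, e0, e1]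
    have eBB : BB (Sum.inl 0) (Sum.inl 1) = G 0 1 := rfl
    rw [eBB, hGa 0 1]
    set g : ℂ := (x 0 - x 1) / (1 - w 0 * w 1) with hg
    set a : Fin n → ℂ := fun i => w i.succ.succ / x i.succ.succ *
        ((x 0 - x i.succ.succ) / (1 - w 0 * w i.succ.succ)) *
        ((x 1 - x i.succ.succ) / (1 - w 1 * w i.succ.succ)) with ha
    set q : ℂ := w 0 / x 0 * (w 1 / x 1) with hq
    set G' : Matrix (Fin n) (Fin n) ℂ := Matrix.of fun i l : Fin n =>
      (x i.succ.succ - x l.succ.succ) / (1 - w i.succ.succ * w l.succ.succ) with hG'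
    have hg0 : g ≠ 0 := h01
    have hq0 : q ≠ 0 := mul_ne_zero (div_ne_zero (hw 0) (hx 0)) (div_ne_zero (hw 1) (hx 1))
    have hdet0 : G'.det = 0 := by
      have h1 : G'ᵀ = -G' := by
        ext i j
        rw [Matrix.transpose_apply, Matrix.neg_apply]
        exact hanti _ _
      have h2 := Matrix.det_transpose G'
      rw [h1, Matrix.det_neg, Fintype.card_fin, hn.neg_one_pow] at h2
      have h3 : (2 : ℂ) * G'.det = 0 := by linear_combination -h2
      simpa using h3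
    have h3x : ∀ i : Fin n, g * x i.succ.succ + G 1 i.succ.succ * x 0 - G 0 i.succ.succ * x 1 =
        -(w 0 * w 1 * w i.succ.succ) * (g * G 0 i.succ.succ * G 1 i.succ.succ) := fun i =>
      po_three_x (c := c) (hpol 0) (hpol 1) (hpol i.succ.succ) (hd 0 1) (hd 0 i.succ.succ)
        (hd 1 i.succ.succ)
    have h3w : ∀ i : Fin n, g * (w i.succ.succ)⁻¹ + G 1 i.succ.succ * (w 0)⁻¹ -
        G 0 i.succ.succ * (w 1)⁻¹ =
        -(x 0 * x 1 * x i.succ.succ)⁻¹ * (g * G 0 i.succ.succ * G 1 i.succ.succ) := fun i =>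
      po_three_w (c := c) (hx 0) (hx 1) (hx _) (hw 0) (hw 1) (hw _) (hpol 0) (hpol 1)
        (hpol i.succ.succ) (hd 0 1) (hd 0 i.succ.succ) (hd 1 i.succ.succ)
    have e7 : ∀ i, a i = w i.succ.succ / x i.succ.succ * G 0 i.succ.succ * G 1 i.succ.succ :=
      fun i => rfl
    have hmat : (Matrix.of fun i j : Fin n ⊕ Unit => BB (e (Sum.inr i)) (e (Sum.inr j)) -
        (BB (e (Sum.inr i)) (Sum.inl 1) * BB (Sum.inl 0) (e (Sum.inr j)) -
          BB (e (Sum.inr i)) (Sum.inl 0) * BB (Sum.inl 1) (e (Sum.inr j))) / g) =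
        Matrix.fromBlocks (Matrix.of fun i l => q * a i * a l * G' i l)
          (Matrix.of fun i (_ : Unit) => -(w 0 * w 1) * a i * x i.succ.succ)
          (Matrix.of fun (_ : Unit) l => -(x 0 * x 1)⁻¹ * a l * (w l.succ.succ)⁻¹)
          (Matrix.of fun (_ _ : Unit) => 0 - ((w 1)⁻¹ * x 0 - (w 0)⁻¹ * x 1) / g) := by
      ext i j
      rcases i with i | i <;> rcases j with j | j
      · rw [Matrix.of_apply, er, er, Matrix.fromBlocks_apply₁₁, Matrix.of_apply]
        show G i.succ.succ j.succ.succ - (G i.succ.succ 1 * G 0 j.succ.succ -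
          G i.succ.succ 0 * G 1 j.succ.succ) / g = _
        have h4 := po_four (c := c) (hx 0) (hx 1) (hx i.succ.succ) (hx j.succ.succ) (hpol 0)
          (hpol 1) (hpol i.succ.succ) (hpol j.succ.succ) (hd 0 1) (hd 0 i.succ.succ)
          (hd 0 j.succ.succ) (hd 1 i.succ.succ) (hd 1 j.succ.succ) (hd i.succ.succ j.succ.succ)
        rw [hanti 1 i.succ.succ, hanti 0 i.succ.succ]
        simp only [← hGa] at h4
        have e5 : G 0 1 = g := rfl
        rw [e5] at h4
        have e6 : G' i j = G i.succ.succ j.succ.succ := rfl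
        rw [e6, e7, e7, hq]
        have h5 : G i.succ.succ j.succ.succ -
            (-G 1 i.succ.succ * G 0 j.succ.succ - -G 0 i.succ.succ * G 1 j.succ.succ) / g =
            (g * G i.succ.succ j.succ.succ - G 0 i.succ.succ * G 1 j.succ.succ +
              G 0 j.succ.succ * G 1 i.succ.succ) / g := by
          rw [eq_div_iff hg0, sub_mul, div_mul_cancel₀ _ hg0]
          ring
        rw [h5, h4, div_eq_iff hg0]
        generalize G 0 i.succ.succ = G0i
        generalize G 0 j.succ.succ = G0j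
        generalize G 1 i.succ.succ = G1i
        generalize G 1 j.succ.succ = G1j
        generalize G i.succ.succ j.succ.succ = Gij
        ring
      · rw [Matrix.of_apply, er, eu, Matrix.fromBlocks_apply₁₂, Matrix.of_apply]
        show x i.succ.succ - (G i.succ.succ 1 * x 0 - G i.succ.succ 0 * x 1) / g = _
        rw [hanti 1 i.succ.succ, hanti 0 i.succ.succ, e7]
        have h5 : x i.succ.succ - (-G 1 i.succ.succ * x 0 - -G 0 i.succ.succ * x 1) / g =
            (g * x i.succ.succ + G 1 i.succ.succ * x 0 - G 0 i.succ.succ * x 1) / g := by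
          rw [eq_div_iff hg0, sub_mul, div_mul_cancel₀ _ hg0]
          ring
        rw [h5, h3x, div_eq_iff hg0]
        have hxi := hx i.succ.succ
        field_simp
      · rw [Matrix.of_apply, er, eu, Matrix.fromBlocks_apply₂₁, Matrix.of_apply]
        show (w j.succ.succ)⁻¹ - ((w 1)⁻¹ * G 0 j.succ.succ - (w 0)⁻¹ * G 1 j.succ.succ) / g = _
        rw [e7]
        have h5 : (w j.succ.succ)⁻¹ - ((w 1)⁻¹ * G 0 j.succ.succ - (w 0)⁻¹ * G 1 j.succ.succ) / g =
            (g * (w j.succ.succ)⁻¹ + G 1 j.succ.succ * (w 0)⁻¹ - G 0 j.succ.succ * (w 1)⁻¹) / g := by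
          rw [eq_div_iff hg0, sub_mul, div_mul_cancel₀ _ hg0]
          ring
        rw [h5, h3w, div_eq_iff hg0]
        have hxi := hx j.succ.succ
        have hwi := hw j.succ.succ
        have hx0 := hx 0
        have hx1 := hx 1
        field_simp
      · rw [Matrix.of_apply, eu, Matrix.fromBlocks_apply₂₂, Matrix.of_apply]
        rfl
    have hβγ : -(w 0 * w 1) * -(x 0 * x 1)⁻¹ = q := by
      have hx0 := hx 0
      have hx1 := hx 1
      rw [hq]
      field_simp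
    rw [hmat, po_scale G' (fun i => x i.succ.succ) (fun i => (w i.succ.succ)⁻¹) _ q _ _ a hβγ hq0,
      hdet0, mul_zero, add_zero, Fintype.card_fin]
    ring

private theorem po_pairs_succ {n : ℕ} (x w : Fin (n + 1) → ℂ) :
    pairs x w = (∏ j : Fin n, HH (x 0) (w 0) (x j.succ) (w j.succ)) *
      pairs (fun i => x i.succ) (fun i => w i.succ) := by
  unfold pairs
  rw [Fin.prod_univ_succ, Fin.prod_Ioi_zero]
  congr 1
  refine Finset.prod_congr rfl fun i _ => ?_
  rw [Fin.prod_Ioi_succ]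

private theorem po_HH (x w x' w' : ℂ) :
    HH x w x' w' = -(w / x * (w' / x')) * ((x - x') / (1 - w * w')) ^ 2 := by
  unfold HH
  rw [div_pow, div_mul_div_comm, ← neg_div, div_mul_div_comm]
  congr 1
  ring

theorem pairs_eq_bdet {k : ℕ} (c : ℂ) (x w : Fin (2 * k + 1) → ℂ) (hx : ∀ i, x i ≠ 0)
    (hw : ∀ i, w i ≠ 0) (hr : ∀ i, x i + (x i)⁻¹ + w i + (w i)⁻¹ = 2 * c)
    (hd : ∀ i l, 1 - w i * w l ≠ 0) :
    pairs x w = (-1) ^ (k + 1) * (∏ i, w i / x i) *
      bdet (Matrix.of fun i l => (x i - x l) / (1 - w i * w l)) x (fun i => (w i)⁻¹) := by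
  induction k with
  | zero =>
    have h1 : pairs x w = 1 := by
      unfold pairs
      refine Finset.prod_eq_one fun i _ => Finset.prod_eq_one fun l hl => ?_
      exfalso
      rw [Finset.mem_Ioi] at hl
      have h1 : (i : ℕ) < l := hl
      have h2 := l.isLt
      omega
    have h2 : (∏ i : Fin (2 * 0 + 1), w i / x i) = w 0 / x 0 := by
      exact Fin.prod_univ_one (f := fun i => w i / x i)
    have h3 : bdet (Matrix.of fun i l => (x i - x l) / (1 - w i * w l)) x (fun i => (w i)⁻¹) =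
        -(x 0 * (w 0)⁻¹) := by
      exact po_base _ _ _ (by simp)
    rw [h1, h2, h3]
    have hx0 := hx 0
    have hw0 := hw 0
    field_simp
    norm_num
  | succ k ih =>
    have ih' := ih (fun i => x i.succ.succ) (fun i => w i.succ.succ) (fun i => hx _)
      (fun i => hw _) (fun i => hr _) (fun i l => hd _ _)
    have hdet := po_det_step (n := 2 * k + 1) ⟨k, rfl⟩ c x w hx hw hr hd
    have hp1 := po_pairs_succ (n := 2 * k + 2) x w
    have hp2 := po_pairs_succ (n := 2 * k + 1) (fun i => x i.succ) (fun i => w i.succ)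
    rw [ih'] at hp2
    have hq : (∏ i : Fin (2 * (k + 1) + 1), w i / x i) = w 0 / x 0 * (w 1 / x 1 *
        ∏ i : Fin (2 * k + 1), w i.succ.succ / x i.succ.succ) := by
      have h1 := Fin.prod_univ_succ (n := 2 * k + 2) (fun i => w i / x i)
      have h2 := Fin.prod_univ_succ (n := 2 * k + 1) (fun i => w i.succ / x i.succ)
      rw [h2] at h1
      exact h1
    have hHH : (∏ j : Fin (2 * k + 2), HH (x 0) (w 0) (x j.succ) (w j.succ)) =
        HH (x 0) (w 0) (x 1) (w 1) *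
          ∏ j : Fin (2 * k + 1), HH (x 0) (w 0) (x j.succ.succ) (w j.succ.succ) := by
      rw [Fin.prod_univ_succ]
      rfl
    rw [hp1, hp2, hHH, hq]
    refine Eq.trans ?_ (congrArg (fun z => (-1) ^ (k + 1 + 1) * (w 0 / x 0 * (w 1 / x 1 *
        ∏ i : Fin (2 * k + 1), w i.succ.succ / x i.succ.succ)) * z) hdet.symm)
    have e3 : (∏ j : Fin (2 * k + 1), HH (x (0 : Fin (2 * k + 2)).succ)
        (w (0 : Fin (2 * k + 2)).succ) (x j.succ.succ) (w j.succ.succ)) =
        ∏ j : Fin (2 * k + 1), HH (x 1) (w 1) (x j.succ.succ) (w j.succ.succ) := rfl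
    have e1 : (∏ j : Fin (2 * k + 1), HH (x 0) (w 0) (x j.succ.succ) (w j.succ.succ)) *
        (∏ j : Fin (2 * k + 1), HH (x 1) (w 1) (x j.succ.succ) (w j.succ.succ)) =
        (w 0 / x 0 * (w 1 / x 1)) ^ (2 * k + 1) *
        (∏ i : Fin (2 * k + 1), (w i.succ.succ / x i.succ.succ *
        ((x 0 - x i.succ.succ) / (1 - w 0 * w i.succ.succ)) *
        ((x 1 - x i.succ.succ) / (1 - w 1 * w i.succ.succ)))) ^ 2 := by
      rw [← Finset.prod_mul_distrib, ← Finset.prod_pow]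
      have h1 : (w 0 / x 0 * (w 1 / x 1)) ^ (2 * k + 1) =
          ∏ _i : Fin (2 * k + 1), (w 0 / x 0 * (w 1 / x 1)) := by
        rw [Finset.prod_const, Finset.card_univ, Fintype.card_fin]
      rw [h1, ← Finset.prod_mul_distrib]
      refine Finset.prod_congr rfl fun i _ => ?_
      rw [po_HH, po_HH]
      ring
    rw [e3, mul_assoc, ← mul_assoc (∏ j : Fin (2 * k + 1), _) (∏ j : Fin (2 * k + 1), _), e1,
      po_HH]
    ring

end

end IsingS2
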