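import Pool.Agent.Helper98.IS.Defs2
import Pool.Agent.Helper98.IS.PairsOdd
import Pool.Agent.Helper98.NB.Pfaff
import Pool.Agent.Helper98.NB.Hadamard
import Pool.Agent.Helper98.NB.PairBound
import Pool.Agent.Helper98.NB.ChiBasic

/-!
# IS-35: evaluation of the Fredholm series of the kernel `kk`
-/

set_option autoImplicit false

namespace IsingS2

open Complex Set MeasureTheory Filter Topology IsingNB
open scoped Real Matrix

noncomputable section

private theorem ke_ww (c : ℂ) (φ : ℝ) : ww c (ex φ) = W (c - Complex.cos φ) := by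
  unfold ww ex
  congr 2
  rw [Complex.cos, ← Complex.exp_neg]
  congr 3
  · ring
  · ring

private theorem ke_seg {c : ℝ} (hc : 2 < c) (φ : ℝ) : (c : ℂ) - Complex.cos φ ∉ Seg :=
  sub_cos_notMem_Seg (Or.inr (Or.inl (by simpa using hc))) φ

private theorem ke_lt {c : ℝ} (hc : 2 < c) (φ : ℝ) : ‖ww c (ex φ)‖ < 1 := by
  rw [ke_ww]
  exact norm_W_lt_one (ke_seg hc φ)

private theorem ke_ne (c : ℂ) (x : ℂ) : ww c x ≠ 0 := W_ne_zero _

private theorem ke_ex (φ : ℝ) : ex φ ≠ 0 := Complex.exp_ne_zero _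

private theorem ke_rel (c x : ℂ) : x + x⁻¹ + ww c x + (ww c x)⁻¹ = 2 * c := by
  unfold ww
  have := W_add_inv (c - (x + x⁻¹) / 2)
  linear_combination this

private theorem ke_den {c : ℝ} (hc : 2 < c) (φ ψ : ℝ) : 1 - ww c (ex φ) * ww c (ex ψ) ≠ 0 :=
  cb_den (ke_lt hc φ) (ke_lt hc ψ)

private theorem ke_ex_cont : Continuous ex := by
  unfold ex
  fun_prop

private theorem ke_ww_cont {c : ℝ} (hc : 2 < c) : Continuous fun φ : ℝ => ww c (ex φ) := by
  have h1 : (fun φ : ℝ => ww c (ex φ)) = fun φ : ℝ => W ((c : ℂ) - Complex.cos φ) := by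
    funext φ
    exact ke_ww c φ
  rw [h1]
  exact cb_continuousOn_W.comp_continuous (by fun_prop) fun φ => ke_seg hc φ

private theorem ke_rh_cont {c : ℝ} (hc : 2 < c) (M : ℤ) (N : ℕ) :
    Continuous fun φ : ℝ => rh c M N (ex φ) := by
  unfold rh sx
  have h1 := ke_ww_cont hc
  have h2 := ke_ex_cont
  refine ((h2.zpow₀ M fun φ => Or.inl (ke_ex φ)).mul (h1.pow N)).mul ?_
  refine Continuous.div (continuous_const.mul h1) (continuous_const.sub (h1.pow 2)) fun φ => ?_
  have := ke_den hc φ φ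
  rwa [← pow_two] at this

theorem kk_cont {c : ℝ} (hc : 2 < c) (M : ℤ) (N : ℕ) :
    Continuous fun p : ℝ × ℝ => kk c M N p.1 p.2 := by
  unfold kk gx
  have h1 := ke_ww_cont hc
  have h2 := ke_ex_cont
  have h3 := ke_rh_cont hc M N
  refine Continuous.mul (Continuous.mul (continuous_const.mul ?_) ?_) (h3.comp continuous_snd)
  · refine Continuous.div ((h2.comp continuous_fst).sub (h2.comp continuous_snd))
      (continuous_const.sub ((h1.comp continuous_fst).mul (h1.comp continuous_snd))) fun p => ?_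
    exact ke_den hc p.1 p.2
  · exact Continuous.div (h1.comp continuous_snd) (h2.comp continuous_snd) fun p => ke_ex _

/-- the integrand of `FF` -/
private theorem ke_ker (c : ℂ) (M : ℤ) (N : ℕ) {j : ℕ} (t : Fin j → ℝ) :
    ker W c (cv t) * Complex.exp (I * M * ∑ i, (t i : ℂ)) * prodw W c (cv t) ^ N =
      (∏ i, rh c M N (ex (t i))) * pairs (fun i => ex (t i)) fun i => ww c (ex (t i)) := by
  have h1 : ker W c (cv t) = (∏ i, sx c (ex (t i))) *
      pairs (fun i => ex (t i)) fun i => ww c (ex (t i)) := by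
    unfold IsingNB.ker sx cv
    simp only [ke_ww]
    rfl
  have h2 : Complex.exp (I * M * ∑ i, (t i : ℂ)) = ∏ i, ex (t i) ^ M := by
    rw [Finset.mul_sum, Complex.exp_sum]
    refine Finset.prod_congr rfl fun i _ => ?_
    unfold ex
    rw [← Complex.exp_int_mul]
    congr 1
    ring
  have h3 : prodw W c (cv t) ^ N = ∏ i, ww c (ex (t i)) ^ N := by
    unfold prodw cv
    rw [← Finset.prod_pow]
    refine Finset.prod_congr rfl fun i _ => ?_
    rw [ke_ww]
  rw [h1, h2, h3]
  unfold rh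
  rw [Finset.prod_mul_distrib, Finset.prod_mul_distrib]
  ring

/-- the matrix of `g` -/
private def ke_G (c : ℂ) {j : ℕ} (t : Fin j → ℝ) : Matrix (Fin j) (Fin j) ℂ :=
  Matrix.of fun i l => (ex (t i) - ex (t l)) / (1 - ww c (ex (t i)) * ww c (ex (t l)))

private theorem ke_det (c : ℂ) (M : ℤ) (N : ℕ) {j : ℕ} (t : Fin j → ℝ) :
    (Matrix.of fun i l : Fin j => kk c M N (t i) (t l)).det =
      (I ^ j * (∏ i, ww c (ex (t i)) / ex (t i)) * ∏ i, rh c M N (ex (t i))) * (ke_G c t).det := by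
  have h1 : (Matrix.of fun i l : Fin j => kk c M N (t i) (t l)) =
      Matrix.of fun i l : Fin j => (I * (ww c (ex (t l)) / ex (t l)) * rh c M N (ex (t l))) *
        ke_G c t i l := by
    ext i l
    simp only [Matrix.of_apply, kk, gx, ke_G]
    ring
  rw [h1, Matrix.det_mul_row (fun l => I * (ww c (ex (t l)) / ex (t l)) * rh c M N (ex (t l)))
    (ke_G c t)]
  congr 1
  rw [Finset.prod_mul_distrib, Finset.prod_mul_distrib, Finset.prod_const, Finset.card_univ,
    Fintype.card_fin]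

private theorem ke_det_odd (c : ℂ) {k : ℕ} (t : Fin (2 * k + 1) → ℝ) : (ke_G c t).det = 0 := by
  have h1 : (ke_G c t)ᵀ = -ke_G c t := by
    ext i l
    simp only [Matrix.transpose_apply, Matrix.neg_apply, ke_G, Matrix.of_apply]
    rw [mul_comm (ww c (ex (t l))), ← neg_div]
    congr 1
    ring
  have h2 := congrArg Matrix.det h1
  rw [Matrix.det_transpose, Matrix.det_neg, Fintype.card_fin, pow_succ, pow_mul, neg_one_sq,
    one_pow, one_mul, neg_one_mul] at h2
  exact self_eq_neg.1 h2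

private theorem ke_even {c : ℝ} (hc : 2 < c) (M : ℤ) (N : ℕ) {k : ℕ} (t : Fin (2 * k) → ℝ) :
    (Matrix.of fun i l : Fin (2 * k) => kk c M N (t i) (t l)).det =
      ker W c (cv t) * Complex.exp (I * M * ∑ i, (t i : ℂ)) * prodw W c (cv t) ^ N := by
  rw [ke_det, ke_ker, pairs_eq_det (c : ℂ) (fun i => ex (t i)) (fun i => ww c (ex (t i)))
    (fun i => ke_ex _) (fun i => ke_ne _ _) (fun i => ke_rel _ _) (fun i l => ke_den hc _ _)]
  rw [pow_mul, Complex.I_sq]
  unfold ke_G
  ring

private theorem ke_zero (c : ℂ) (M : ℤ) (N : ℕ) {k : ℕ} (t : Fin (2 * k + 1) → ℝ) :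
    (Matrix.of fun i l : Fin (2 * k + 1) => kk c M N (t i) (t l)).det = 0 := by
  rw [ke_det, ke_det_odd, mul_zero]

private theorem ke_tsum_even (a : ℕ → ℂ) (h : ∀ k, a (2 * k + 1) = 0) :
    ∑' j, a j = ∑' k, a (2 * k) := by
  have hinj : Function.Injective fun k : ℕ => 2 * k := fun x y h => by
    simpa using h
  refine (hinj.tsum_eq ?_).symm
  intro j hj
  rcases Nat.even_or_odd' j with ⟨k, rfl | rfl⟩
  · exact ⟨k, rfl⟩
  · exact absurd (h k) hj

private theorem ke_tsum_odd (a : ℕ → ℂ) (h : ∀ k, a (2 * k) = 0) :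
    ∑' j, a j = ∑' k, a (2 * k + 1) := by
  have hinj : Function.Injective fun k : ℕ => 2 * k + 1 := fun x y h => by
    simpa using h
  refine (hinj.tsum_eq ?_).symm
  intro j hj
  rcases Nat.even_or_odd' j with ⟨k, rfl | rfl⟩
  · exact absurd (h k) hj
  · exact ⟨k, rfl⟩

theorem Kdet_kk {c : ℝ} (hc : 2 < c) (M : ℤ) (N : ℕ) :
    Kdet (kk c M N) = Deven M N c := by
  unfold Kdet Deven
  rw [ke_tsum_even]
  · refine tsum_congr fun k => ?_
    unfold FF
    congr 1
    refine setIntegral_congr_fun measurableSet_Icc fun t _ => ?_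
    exact ke_even hc M N t
  · intro k
    simp only [ke_zero, integral_zero, mul_zero]

theorem Kdet_neg_kk {c : ℝ} (hc : 2 < c) (M : ℤ) (N : ℕ) :
    (Kdet fun φ ψ => -kk c M N φ ψ) = Deven M N c := by
  have h1 : ∀ (j : ℕ) (t : Fin j → ℝ), (Matrix.of fun i l : Fin j => -kk c M N (t i) (t l)).det =
      (-1) ^ j * (Matrix.of fun i l : Fin j => kk c M N (t i) (t l)).det := by
    intro j t
    have : (Matrix.of fun i l : Fin j => -kk c M N (t i) (t l)) =
        -Matrix.of fun i l : Fin j => kk c M N (t i) (t l) := by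
      ext i l
      rfl
    rw [this, Matrix.det_neg, Fintype.card_fin]
  unfold Kdet Deven
  rw [ke_tsum_even]
  · refine tsum_congr fun k => ?_
    unfold FF
    congr 1
    refine setIntegral_congr_fun measurableSet_Icc fun t _ => ?_
    simp only [h1]
    rw [pow_mul, neg_one_sq, one_pow, one_mul]
    exact ke_even hc M N t
  · intro k
    simp only [h1, ke_zero, integral_zero, mul_zero]

/-! ### bordered determinants -/

private theorem ke_bdet_neg {j : ℕ} (A : Matrix (Fin j) (Fin j) ℂ) (h g : Fin j → ℂ) :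
    bdet (-A) h g = (-1) ^ (j + 1) * bdet A h g := by
  unfold bdet
  set F := Matrix.fromBlocks A (Matrix.of fun i (_ : Unit) => h i)
    (Matrix.of fun (_ : Unit) l => g l) (0 : Matrix Unit Unit ℂ) with hF
  have h1 : Matrix.fromBlocks (-A) (Matrix.of fun i (_ : Unit) => h i)
      (Matrix.of fun (_ : Unit) l => g l) (0 : Matrix Unit Unit ℂ) =
      -(Matrix.of fun p q : Fin j ⊕ Unit => Sum.elim (fun _ => (1 : ℂ)) (fun _ => -1) p *
        (Matrix.of fun p q : Fin j ⊕ Unit => Sum.elim (fun _ => (1 : ℂ)) (fun _ => -1) q * F p q)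
          p q) := by
    ext p q
    rcases p with i | i <;> rcases q with l | l <;> simp [hF]
  rw [h1, Matrix.det_neg, Matrix.det_mul_column (Sum.elim (fun _ => (1 : ℂ)) (fun _ => -1)),
    Matrix.det_mul_row (Sum.elim (fun _ => (1 : ℂ)) (fun _ => -1)) F]
  simp

private theorem ke_bdet (c : ℂ) (M : ℤ) (N : ℕ) {j : ℕ} (t : Fin j → ℝ) :
    bdet (Matrix.of fun i l : Fin j => kk c M N (t i) (t l)) (fun i => ex (t i))
      (fun i => rh c M N (ex (t i)) / ex (t i)) =
      (I ^ j * (∏ i, ww c (ex (t i)) / ex (t i)) * ∏ i, rh c M N (ex (t i))) * (-I) *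
        bdet (ke_G c t) (fun i => ex (t i)) fun i => (ww c (ex (t i)))⁻¹ := by
  unfold bdet
  set F := Matrix.fromBlocks (ke_G c t) (Matrix.of fun i (_ : Unit) => ex (t i))
    (Matrix.of fun (_ : Unit) l => (ww c (ex (t l)))⁻¹) (0 : Matrix Unit Unit ℂ) with hF
  have h1 : Matrix.fromBlocks (Matrix.of fun i l : Fin j => kk c M N (t i) (t l))
      (Matrix.of fun i (_ : Unit) => ex (t i))
      (Matrix.of fun (_ : Unit) l => rh c M N (ex (t l)) / ex (t l)) (0 : Matrix Unit Unit ℂ) =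
      (Matrix.of fun p q : Fin j ⊕ Unit => Sum.elim (fun _ => (1 : ℂ)) (fun _ => -I) p *
        (Matrix.of fun p q : Fin j ⊕ Unit =>
          Sum.elim (fun l => I * (ww c (ex (t l)) / ex (t l)) * rh c M N (ex (t l)))
            (fun _ => 1) q * F p q) p q) := by
    ext p q
    rcases p with i | i <;> rcases q with l | l
    · simp only [hF, Matrix.fromBlocks_apply₁₁, Matrix.of_apply, Sum.elim_inl, kk, gx, ke_G]
      ring
    · simp [hF]
    · simp only [hF, Matrix.fromBlocks_apply₂₁, Matrix.of_apply, Sum.elim_inl, Sum.elim_inr]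
      have h2 := ke_ne c (ex (t l))
      field_simp
      rw [Complex.I_sq]
      ring
    · simp [hF]
  rw [h1, Matrix.det_mul_column (Sum.elim (fun _ => (1 : ℂ)) (fun _ => -I)),
    Matrix.det_mul_row (Sum.elim (fun l => I * (ww c (ex (t l)) / ex (t l)) *
      rh c M N (ex (t l))) (fun _ => 1)) F]
  simp only [Fintype.prod_sum_type, Sum.elim_inl, Sum.elim_inr, Finset.prod_const_one,
    Finset.prod_const, Finset.card_univ, Fintype.card_unit, pow_one, mul_one, one_mul]
  rw [Finset.prod_mul_distrib, Finset.prod_mul_distrib, Finset.prod_const, Finset.card_univ,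
    Fintype.card_fin]
  ring

private theorem ke_odd {c : ℝ} (hc : 2 < c) (M : ℤ) (N : ℕ) {k : ℕ} (t : Fin (2 * k + 1) → ℝ) :
    bdet (Matrix.of fun i l : Fin (2 * k + 1) => kk c M N (t i) (t l)) (fun i => ex (t i))
      (fun i => rh c M N (ex (t i)) / ex (t i)) =
      -(ker W c (cv t) * Complex.exp (I * M * ∑ i, (t i : ℂ)) * prodw W c (cv t) ^ N) := by
  rw [ke_bdet, ke_ker, pairs_eq_bdet (c : ℂ) (fun i => ex (t i)) (fun i => ww c (ex (t i)))
    (fun i => ke_ex _) (fun i => ke_ne _ _) (fun i => ke_rel _ _) (fun i l => ke_den hc _ _)]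
  unfold ke_G
  have h1 : I ^ (2 * k + 1) * -I = (-1) ^ k := by
    rw [pow_succ, pow_mul, Complex.I_sq, mul_assoc, mul_neg, Complex.I_mul_I, neg_neg, mul_one]
  rw [pow_succ (-1 : ℂ) k]
  linear_combination (∏ i, ww c (ex (t i)) / ex (t i)) * (∏ i, rh c M N (ex (t i))) *
    bdet (Matrix.of fun i l : Fin (2 * k + 1) => (ex (t i) - ex (t l)) /
      (1 - ww c (ex (t i)) * ww c (ex (t l)))) (fun i => ex (t i))
      (fun i => (ww c (ex (t i)))⁻¹) * h1

/-! ### summability -/

private theorem ke_bdet_norm {j : ℕ} (A : Matrix (Fin j) (Fin j) ℂ) (h g : Fin j → ℂ) {B : ℝ}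
    (hB : 0 ≤ B) (hA : ∀ i l, ‖A i l‖ ≤ B) (hh : ∀ i, ‖h i‖ ≤ B) (hg : ∀ i, ‖g i‖ ≤ B) :
    ‖bdet A h g‖ ≤ B ^ (j + 1) * Real.sqrt (((j + 1 : ℕ) : ℝ) ^ (j + 1)) := by
  unfold bdet
  let e : Fin j ⊕ Unit ≃ Fin (j + 1) := Fintype.equivFinOfCardEq (by simp)
  set F := Matrix.fromBlocks A (Matrix.of fun i (_ : Unit) => h i)
    (Matrix.of fun (_ : Unit) l => g l) (0 : Matrix Unit Unit ℂ) with hF
  have h1 : F.det = (Matrix.reindex e e F).det := (Matrix.det_reindex_self e F).symm
  have h2 : ∀ p q, ‖F p q‖ ≤ B := by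
    intro p q
    rcases p with i | i <;> rcases q with l | l
    · simpa [hF] using hA i l
    · simpa [hF] using hh i
    · simpa [hF] using hg l
    · simpa [hF] using hB
  have h3 := norm_det_sq_le (Matrix.reindex e e F) B fun i k => by
    simpa using h2 (e.symm i) (e.symm k)
  rw [← h1] at h3
  have h4 : ‖F.det‖ ^ 2 ≤ (B ^ (j + 1) * Real.sqrt (((j + 1 : ℕ) : ℝ) ^ (j + 1))) ^ 2 := by
    rw [mul_pow, Real.sq_sqrt (by positivity), ← pow_mul, mul_comm (j + 1) 2]
    exact h3
  exact le_of_sq_le_sq h4 (by positivity)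

private theorem ke_summable (K : ℝ → ℝ → ℂ) (u w : ℝ → ℂ)
    (hK : Continuous fun p : ℝ × ℝ => K p.1 p.2) (hu : Continuous u) (hw : Continuous w) :
    Summable fun j : ℕ => (1 / (j.factorial : ℂ)) * (1 / (2 * π)) ^ j *
      ∫ t in box j, bdet (Matrix.of fun i l : Fin j => K (t i) (t l)) (fun i => u (t i))
        (fun i => w (t i)) := by
  obtain ⟨B1, hB1⟩ := (isCompact_Icc.prod isCompact_Icc : IsCompact (Icc (-π) π ×ˢ Icc (-π) π)
    ).exists_bound_of_continuousOn hK.continuousOn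
  obtain ⟨B2, hB2⟩ := (isCompact_Icc : IsCompact (Icc (-π) π)).exists_bound_of_continuousOn
    hu.continuousOn
  obtain ⟨B3, hB3⟩ := (isCompact_Icc : IsCompact (Icc (-π) π)).exists_bound_of_continuousOn
    hw.continuousOn
  set B := max 0 (max B1 (max B2 B3)) with hB
  have hB0 : 0 ≤ B := le_max_left _ _
  have hb1 : B1 ≤ B := (le_max_left _ _).trans (le_max_right _ _)
  have hb2 : B2 ≤ B := ((le_max_left _ _).trans (le_max_right _ _)).trans (le_max_right _ _)
  have hb3 : B3 ≤ B := ((le_max_right _ _).trans (le_max_right _ _)).trans (le_max_right _ _)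
  have hsum : Summable fun j : ℕ => bd (2 * B) (j + 1) :=
    (summable_nat_add_iff 1).2 (summable_bd (2 * B))
  refine Summable.of_norm_bounded hsum fun j => ?_
  have hbox : ∀ t ∈ box j, ∀ i, t i ∈ Icc (-π) π := fun t ht i => ⟨ht.1 i, ht.2 i⟩
  have hvol : volume.real (box j) = (2 * π) ^ j := by
    unfold box Measure.real
    rw [Real.volume_Icc_pi, ENNReal.toReal_prod]
    simp only [sub_neg_eq_add]
    rw [ENNReal.toReal_ofReal (by positivity), Finset.prod_const, Finset.card_univ,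
      Fintype.card_fin]
    congr 1
    ring
  have hfin : volume (box j) < ⊤ := (cb_box_compact j).measure_lt_top
  have hint := norm_setIntegral_le_of_norm_le_const hfin (f := fun t : Fin j → ℝ =>
    bdet (Matrix.of fun i l : Fin j => K (t i) (t l)) (fun i => u (t i)) (fun i => w (t i)))
    (C := B ^ (j + 1) * Real.sqrt (((j + 1 : ℕ) : ℝ) ^ (j + 1))) fun t ht => by
      refine ke_bdet_norm _ _ _ hB0 (fun i l => ?_) (fun i => ?_) (fun i => ?_)
      · exact (hB1 (t i, t l) ⟨hbox t ht i, hbox t ht l⟩).trans hb1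
      · exact (hB2 (t i) (hbox t ht i)).trans hb2
      · exact (hB3 (t i) (hbox t ht i)).trans hb3
  rw [hvol] at hint
  rw [norm_mul, norm_mul]
  have hn1 : ‖(1 / (j.factorial : ℂ))‖ = 1 / (j.factorial : ℝ) := by
    rw [norm_div, norm_one, Complex.norm_natCast]
  have hn2 : ‖((1 : ℂ) / (2 * π)) ^ j‖ = 1 / (2 * π) ^ j := by
    rw [norm_pow, norm_div, norm_one, norm_mul, Complex.norm_real, Real.norm_of_nonneg Real.pi_pos.le]
    have : ‖(2 : ℂ)‖ = 2 := by norm_num
    rw [this, one_div_pow]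
  rw [hn1, hn2]
  have hpi : (0 : ℝ) < (2 * π) ^ j := by positivity
  have hfac : (0 : ℝ) < (j.factorial : ℝ) := by positivity
  have h5 : ((j : ℝ) + 1) ≤ 2 ^ (j + 1) := by
    have : j + 1 ≤ 2 ^ (j + 1) := Nat.lt_two_pow_self.le
    exact_mod_cast this
  set S := Real.sqrt (((j + 1 : ℕ) : ℝ) ^ (j + 1)) with hS
  have hS0 : 0 ≤ S := Real.sqrt_nonneg _
  calc 1 / (j.factorial : ℝ) * (1 / (2 * π) ^ j) * ‖_‖
      ≤ 1 / (j.factorial : ℝ) * (1 / (2 * π) ^ j) * (B ^ (j + 1) * S * (2 * π) ^ j) :=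
        mul_le_mul_of_nonneg_left hint (by positivity)
    _ = B ^ (j + 1) * S / j.factorial := by
        field_simp
    _ = ((j : ℝ) + 1) * (B ^ (j + 1) * S) / ((j + 1).factorial : ℝ) := by
        rw [Nat.factorial_succ]
        push_cast
        field_simp
    _ ≤ 2 ^ (j + 1) * (B ^ (j + 1) * S) / ((j + 1).factorial : ℝ) := by
        gcongr
    _ = bd (2 * B) (j + 1) := by
        unfold bd
        rw [hS, mul_pow]
        ring

theorem Kbd_kk {c : ℝ} (hc : 2 < c) (M : ℤ) (N : ℕ) :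
    Kbd (kk c M N) ex (fun φ => rh c M N (ex φ) / ex φ) +
      Kbd (fun φ ψ => -kk c M N φ ψ) ex (fun φ => rh c M N (ex φ) / ex φ) = -2 * Dodd M N c := by
  have hw : Continuous fun φ : ℝ => rh c M N (ex φ) / ex φ :=
    (ke_rh_cont hc M N).div ke_ex_cont ke_ex
  have s1 := ke_summable (kk c M N) ex _ (kk_cont hc M N) ke_ex_cont hw
  have s2 := ke_summable (fun φ ψ => -kk c M N φ ψ) ex _ (kk_cont hc M N).neg ke_ex_cont hw
  have hneg : ∀ (j : ℕ) (t : Fin j → ℝ),
      bdet (Matrix.of fun i l : Fin j => -kk c M N (t i) (t l)) (fun i => ex (t i))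
        (fun i => rh c M N (ex (t i)) / ex (t i)) =
      (-1) ^ (j + 1) * bdet (Matrix.of fun i l : Fin j => kk c M N (t i) (t l))
        (fun i => ex (t i)) (fun i => rh c M N (ex (t i)) / ex (t i)) := by
    intro j t
    have : (Matrix.of fun i l : Fin j => -kk c M N (t i) (t l)) =
        -Matrix.of fun i l : Fin j => kk c M N (t i) (t l) := by
      ext i l
      rfl
    rw [this, ke_bdet_neg]
  unfold Kbd
  rw [← s1.tsum_add s2, ke_tsum_odd]
  · unfold Dodd
    rw [← tsum_mul_left]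
    refine tsum_congr fun k => ?_
    simp only [hneg, ke_odd hc]
    have h1 : ((-1 : ℂ)) ^ (2 * k + 1 + 1) = 1 := by
      rw [show 2 * k + 1 + 1 = 2 * (k + 1) by ring, pow_mul, neg_one_sq, one_pow]
    simp only [h1, one_mul]
    unfold FF
    rw [integral_neg]
    ring
  · intro k
    simp only [hneg]
    have h1 : ((-1 : ℂ)) ^ (2 * k + 1) = -1 := by
      rw [pow_succ, pow_mul, neg_one_sq, one_pow, one_mul]
    simp only [h1, neg_one_mul, integral_neg, mul_neg, add_neg_cancel]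

end

end IsingS2
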