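import Pool.Agent.Helper98.IS.Defs2
import Pool.Agent.Helper98.IS.DetFin
import Pool.Agent.Helper98.NB.PairBound

/-! IS-32: Riemann sums -/

namespace IsingS2

open Complex Set MeasureTheory Filter Topology IsingNB
open scoped Real Matrix

noncomputable section

/-- one rmCell of the grid -/
def rmCell (n : ℕ) (i : Fin n) : Set ℝ := Ico (gr n i) (gr n i + 2 * π / n)

theorem rm_cell_disj {n : ℕ} {i l : Fin n} (h : i ≠ l) : Disjoint (rmCell n i) (rmCell n l) := by
  have hn : (0 : ℝ) < n := by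
    have := i.pos
    exact_mod_cast this
  have key : ∀ a b : Fin n, a < b → Disjoint (rmCell n a) (rmCell n b) := by
    intro a b hab
    rw [Set.disjoint_left]
    intro x hx hy
    have h1 : ((a : ℕ) : ℝ) + 1 ≤ (b : ℕ) := by
      have : (a : ℕ) + 1 ≤ b := hab
      exact_mod_cast this
    have h2 : gr n a + 2 * π / n ≤ gr n b := by
      rw [gr, gr]
      have h3 : 2 * π * ((a : ℕ) : ℝ) / n + 2 * π / n = 2 * π * (((a : ℕ) : ℝ) + 1) / n := by ring
      have h4 : 2 * π * (((a : ℕ) : ℝ) + 1) / n ≤ 2 * π * ((b : ℕ) : ℝ) / n := by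
        have := Real.pi_pos
        gcongr
      linarith
    have := hx.2
    have := hy.1
    linarith
  rcases lt_or_gt_of_ne h with h | h
  · exact key i l h
  · exact (key l i h).symm

theorem rm_cell_union {n : ℕ} (hn : 0 < n) : (⋃ i : Fin n, rmCell n i) = Ico (-π) π := by
  have hn' : (0 : ℝ) < n := by exact_mod_cast hn
  have hp := Real.pi_pos
  ext x
  rw [mem_iUnion]
  constructor
  · rintro ⟨i, h1, h2⟩
    rw [gr] at h1 h2
    have h3 : ((i : ℕ) : ℝ) + 1 ≤ n := by
      have : (i : ℕ) + 1 ≤ n := i.2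
      exact_mod_cast this
    have h4 : 2 * π * ((i : ℕ) : ℝ) / n + 2 * π / n = 2 * π * (((i : ℕ) : ℝ) + 1) / n := by ring
    have h5 : 2 * π * (((i : ℕ) : ℝ) + 1) / n ≤ 2 * π := by
      rw [div_le_iff₀ hn']
      nlinarith
    have h6 : 0 ≤ 2 * π * ((i : ℕ) : ℝ) / n := by positivity
    constructor
    · linarith
    · linarith
  · rintro ⟨h1, h2⟩
    set y := (x + π) * n / (2 * π) with hy
    have hy0 : 0 ≤ y := by
      rw [hy]
      have : 0 ≤ x + π := by linarith
      positivity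
    have hyn : y < n := by
      rw [hy, div_lt_iff₀ (by positivity)]
      nlinarith
    have hfl : ⌊y⌋₊ < n := by
      rw [Nat.floor_lt hy0]
      exact hyn
    refine ⟨⟨⌊y⌋₊, hfl⟩, ?_, ?_⟩
    · rw [gr]
      have h3 := Nat.floor_le hy0
      have h4 : 2 * π * ((⌊y⌋₊ : ℕ) : ℝ) / n ≤ x + π := by
        rw [div_le_iff₀ hn']
        calc 2 * π * ((⌊y⌋₊ : ℕ) : ℝ) ≤ 2 * π * y := by gcongr
          _ = (x + π) * n := by rw [hy]; field_simp
      simp only
      linarith
    · rw [gr]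
      have h3 := Nat.lt_floor_add_one y
      have h4 : x + π < 2 * π * (((⌊y⌋₊ : ℕ) : ℝ) + 1) / n := by
        rw [lt_div_iff₀ hn']
        calc (x + π) * n = 2 * π * y := by rw [hy]; field_simp
          _ < 2 * π * (((⌊y⌋₊ : ℕ) : ℝ) + 1) := by gcongr
      have h5 : 2 * π * ((⌊y⌋₊ : ℕ) : ℝ) / n + 2 * π / n =
        2 * π * (((⌊y⌋₊ : ℕ) : ℝ) + 1) / n := by ring
      simp only
      linarith

/-- Riemann sums on the cube. -/
theorem riemann_box {j : ℕ} {G : (Fin j → ℝ) → ℂ} (hG : ContinuousOn G (box j)) :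
    Tendsto (fun n : ℕ => (1 / (n : ℂ)) ^ j * ∑ k : Fin j → Fin n, G (fun i => gr n (k i))) atTop
      (𝓝 ((1 / (2 * π)) ^ j * ∫ t in box j, G t)) := by
  have hp := Real.pi_pos
  rw [Metric.tendsto_atTop]
  intro ε hε
  have hbc : IsCompact (box j) := isCompact_Icc
  have huc := hbc.uniformContinuousOn_of_continuous hG
  rw [Metric.uniformContinuousOn_iff] at huc
  obtain ⟨δ, hδ, hδG⟩ := huc (ε / 2) (by positivity)
  obtain ⟨N, hN⟩ := exists_nat_gt (2 * π / δ)
  refine ⟨N + 1, fun n hn => ?_⟩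
  have hn0 : 0 < n := by omega
  have hn' : (0 : ℝ) < n := by exact_mod_cast hn0
  have hnδ : 2 * π / n < δ := by
    rw [div_lt_iff₀ hn']
    rw [div_lt_iff₀ hδ] at hN
    have : (N : ℝ) ≤ n := by exact_mod_cast (by omega : N ≤ n)
    nlinarith
  set cel : (Fin j → Fin n) → Set (Fin j → ℝ) := fun k => Set.pi univ (fun i => rmCell n (k i))
    with hcel
  have hmeas : ∀ k, MeasurableSet (cel k) := fun k =>
    MeasurableSet.univ_pi fun i => measurableSet_Ico
  have hdisj : Pairwise (Function.onFun Disjoint cel) := by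
    intro k k' hk
    obtain ⟨i, hi⟩ := Function.ne_iff.1 hk
    exact Disjoint.set_pi (mem_univ i) (rm_cell_disj hi)
  have hun : (⋃ k, cel k) = Set.pi univ (fun _ : Fin j => Ico (-π) π) := by
    rw [hcel, Set.iUnion_univ_pi (fun (_ : Fin j) (i : Fin n) => rmCell n i)]
    simp only [rm_cell_union hn0]
  have hsub : ∀ k, cel k ⊆ box j := by
    intro k t ht
    have h1 : t ∈ ⋃ k, cel k := mem_iUnion.2 ⟨k, ht⟩
    rw [hun, mem_univ_pi] at h1
    exact ⟨fun i => (h1 i).1, fun i => (h1 i).2.le⟩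
  have hint : IntegrableOn G (box j) := hG.integrableOn_compact hbc
  have h1 : ∫ t in box j, G t = ∑ k, ∫ t in cel k, G t := by
    rw [← integral_iUnion_fintype hmeas hdisj (fun k => hint.mono_set (hsub k)), hun]
    apply setIntegral_congr_set
    exact (Measure.univ_pi_Ico_ae_eq_Icc (μ := fun _ : Fin j => (volume : Measure ℝ))).symm
  have hvol : ∀ k, volume.real (cel k) = (2 * π / n) ^ j := by
    intro k
    rw [hcel, Measure.real, volume_pi_pi, ENNReal.toReal_prod]
    have : ∀ i, (volume (rmCell n (k i))).toReal = 2 * π / n := by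
      intro i
      rw [rmCell, Real.volume_Ico, add_sub_cancel_left, ENNReal.toReal_ofReal (by positivity)]
    simp only [this, Finset.prod_const, Finset.card_univ, Fintype.card_fin]
  have hfin : ∀ k, volume (cel k) ≠ ⊤ := fun k =>
    ((measure_mono (hsub k)).trans_lt hbc.measure_lt_top).ne
  have h2 : ∀ k, ‖(∫ t in cel k, G t) - ((2 * π / n) ^ j : ℝ) * G (fun i => gr n (k i))‖ ≤
      ε / 2 * (2 * π / n) ^ j := by
    intro k
    have h3 : ((2 * π / n) ^ j : ℝ) * G (fun i => gr n (k i)) =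
        ∫ _ in cel k, G (fun i => gr n (k i)) := by
      rw [setIntegral_const, hvol k]
      rfl
    rw [h3, ← integral_sub (hint.mono_set (hsub k)) (integrableOn_const (hfin k)), ← hvol k]
    apply norm_setIntegral_le_of_norm_le_const (hfin k).lt_top
    intro t ht
    rw [← dist_eq_norm]
    apply le_of_lt
    have hgk : (fun i => gr n (k i)) ∈ cel k := by
      rw [hcel, mem_univ_pi]
      intro i
      rw [rmCell, left_mem_Ico]
      have : (0 : ℝ) < 2 * π / n := by positivity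
      linarith
    apply hδG t (hsub k ht) _ (hsub k hgk)
    rw [dist_pi_lt_iff hδ]
    intro i
    have h4 : t i ∈ rmCell n (k i) := (mem_univ_pi.1 ht) i
    rw [Real.dist_eq, abs_lt]
    rw [rmCell] at h4
    constructor
    · linarith [h4.1]
    · linarith [h4.2]
  have h5 : (1 / (n : ℂ)) ^ j * ∑ k : Fin j → Fin n, G (fun i => gr n (k i)) -
      (1 / (2 * π)) ^ j * ∫ t in box j, G t = -(1 / (2 * π)) ^ j *
      ∑ k, ((∫ t in cel k, G t) - ((2 * π / n) ^ j : ℝ) * G (fun i => gr n (k i))) := by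
    rw [h1, Finset.sum_sub_distrib, ← Finset.mul_sum]
    have h6 : (1 / (n : ℂ)) ^ j = (1 / (2 * π)) ^ j * ((2 * π / n) ^ j : ℝ) := by
      push_cast
      rw [← mul_pow]
      congr 1
      have : (π : ℂ) ≠ 0 := by exact_mod_cast hp.ne'
      field_simp
    rw [h6]
    ring
  rw [dist_eq_norm, h5, norm_mul]
  have h7 : ‖-(1 / (2 * (π : ℂ))) ^ j‖ = (1 / (2 * π)) ^ j := by
    rw [norm_neg, norm_pow, norm_div, norm_one, norm_mul, Complex.norm_ofNat, Complex.norm_real,
      Real.norm_eq_abs, abs_of_pos hp]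
  rw [h7]
  have h8 : ‖∑ k, ((∫ t in cel k, G t) - ((2 * π / n) ^ j : ℝ) * G (fun i => gr n (k i)))‖ ≤
      (n : ℝ) ^ j * (ε / 2 * (2 * π / n) ^ j) := by
    refine (norm_sum_le _ _).trans ?_
    refine (Finset.sum_le_sum fun k _ => h2 k).trans ?_
    rw [Finset.sum_const, Finset.card_univ, Fintype.card_fun, Fintype.card_fin, Fintype.card_fin,
      nsmul_eq_mul]
    push_cast
    exact le_rfl
  calc (1 / (2 * π)) ^ j * ‖∑ k, ((∫ t in cel k, G t) -
        ((2 * π / n) ^ j : ℝ) * G (fun i => gr n (k i)))‖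
      ≤ (1 / (2 * π)) ^ j * ((n : ℝ) ^ j * (ε / 2 * (2 * π / n) ^ j)) := by
        gcongr
    _ = ε / 2 * ((1 / (2 * π)) * n * (2 * π / n)) ^ j := by
        rw [mul_pow, mul_pow]
        ring
    _ = ε / 2 := by
        have : (1 / (2 * π)) * n * (2 * π / n) = 1 := by field_simp
        rw [this, one_pow, mul_one]
    _ < ε := by linarith

theorem rm_det_le {j : ℕ} (M : Fin j → Fin j → ℂ) {B : ℝ} (hB : 0 ≤ B)
    (h : ∀ i l, ‖M i l‖ ≤ B) : ‖(Matrix.of M).det‖ ≤ B ^ j * Real.sqrt ((j : ℝ) ^ j) := by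
  have h1 := norm_det_sq_le (Matrix.of M) B h
  have h2 : ‖(Matrix.of M).det‖ ≤ Real.sqrt (B ^ (2 * j) * (j : ℝ) ^ j) :=
    Real.le_sqrt_of_sq_le h1
  rw [Real.sqrt_mul (by positivity), mul_comm 2 j, pow_mul, Real.sqrt_sq (by positivity)] at h2
  exact h2

theorem rm_bound {K : ℝ → ℝ → ℂ} (hK : Continuous fun p : ℝ × ℝ => K p.1 p.2) :
    ∃ B : ℝ, 0 ≤ B ∧ ∀ s ∈ Icc (-π) π, ∀ t ∈ Icc (-π) π, ‖K s t‖ ≤ B := by
  have hc : IsCompact (Icc (-π) π ×ˢ Icc (-π) π : Set (ℝ × ℝ)) := isCompact_Icc.prod isCompact_Icc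
  obtain ⟨B, hB⟩ := hc.exists_bound_of_continuousOn hK.continuousOn
  refine ⟨max B 0, le_max_right _ _, fun s hs t ht => ?_⟩
  exact (hB (s, t) ⟨hs, ht⟩).trans (le_max_left _ _)

theorem rm_gr_mem {n : ℕ} (i : Fin n) : gr n i ∈ Icc (-π) π := by
  have hp := Real.pi_pos
  have hn : (0 : ℝ) < n := by
    have := i.pos
    exact_mod_cast this
  have h3 : ((i : ℕ) : ℝ) ≤ n := by exact_mod_cast i.2.le
  rw [gr]
  constructor
  · have : 0 ≤ 2 * π * ((i : ℕ) : ℝ) / n := by positivity
    linarith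
  · have : 2 * π * ((i : ℕ) : ℝ) / n ≤ 2 * π := by
      rw [div_le_iff₀ hn]
      nlinarith
    linarith

theorem rm_box_mem {j : ℕ} {t : Fin j → ℝ} (ht : t ∈ box j) (i : Fin j) : t i ∈ Icc (-π) π :=
  ⟨ht.1 i, ht.2 i⟩

theorem rm_det_cont {j : ℕ} : Continuous fun M : Fin j → Fin j → ℂ => (Matrix.of M).det :=
  Continuous.matrix_det (continuous_id (X := Fin j → Fin j → ℂ))

theorem rm_G_cont {K : ℝ → ℝ → ℂ} (hK : Continuous fun p : ℝ × ℝ => K p.1 p.2) (j : ℕ) :
    Continuous fun t : Fin j → ℝ => (Matrix.of fun i l : Fin j => K (t i) (t l)).det := by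
  have h1 : Continuous fun t : Fin j → ℝ => (fun i l : Fin j => K (t i) (t l)) := by
    refine continuous_pi fun i => continuous_pi fun l => ?_
    exact hK.comp (by fun_prop : Continuous fun t : Fin j → ℝ => (t i, t l))
  exact rm_det_cont.comp h1

theorem rm_close {K : ℝ → ℝ → ℂ} (hK : Continuous fun p : ℝ × ℝ => K p.1 p.2)
    (A : ∀ n : ℕ, Matrix (Fin n) (Fin n) ℂ)
    (hA : ∀ ε > 0, ∀ᶠ n in atTop, ∀ i l : Fin n, ‖A n i l - K (gr n i) (gr n l)‖ < ε)
    (j : ℕ) {ε : ℝ} (hε : 0 < ε) : ∀ᶠ n : ℕ in atTop, ∀ k : Fin j → Fin n,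
      ‖(Matrix.of fun i l : Fin j => A n (k i) (k l)).det -
        (Matrix.of fun i l : Fin j => K (gr n (k i)) (gr n (k l))).det‖ ≤ ε := by
  obtain ⟨B, hB0, hB⟩ := rm_bound hK
  have hc : IsCompact (Metric.closedBall (0 : Fin j → Fin j → ℂ) (B + 1)) :=
    isCompact_closedBall _ _
  have huc := hc.uniformContinuousOn_of_continuous
    (rm_det_cont (j := j)).continuousOn
  rw [Metric.uniformContinuousOn_iff] at huc
  obtain ⟨δ, hδ, hδG⟩ := huc ε hε
  have h1 := hA (min (δ / 2) 1) (by positivity)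
  filter_upwards [h1] with n hn k
  have hN : (fun i l : Fin j => K (gr n (k i)) (gr n (k l))) ∈
      Metric.closedBall (0 : Fin j → Fin j → ℂ) (B + 1) := by
    rw [mem_closedBall_zero_iff, pi_norm_le_iff_of_nonneg (by linarith)]
    intro i
    rw [pi_norm_le_iff_of_nonneg (by linarith)]
    intro l
    linarith [hB _ (rm_gr_mem (k i)) _ (rm_gr_mem (k l))]
  have hM : (fun i l : Fin j => A n (k i) (k l)) ∈
      Metric.closedBall (0 : Fin j → Fin j → ℂ) (B + 1) := by
    rw [mem_closedBall_zero_iff, pi_norm_le_iff_of_nonneg (by linarith)]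
    intro i
    rw [pi_norm_le_iff_of_nonneg (by linarith)]
    intro l
    have h2 := hB _ (rm_gr_mem (k i)) _ (rm_gr_mem (k l))
    have h3 := hn (k i) (k l)
    have h4 : ‖A n (k i) (k l)‖ ≤ ‖A n (k i) (k l) - K (gr n (k i)) (gr n (k l))‖ +
        ‖K (gr n (k i)) (gr n (k l))‖ := by
      have := norm_add_le (A n (k i) (k l) - K (gr n (k i)) (gr n (k l)))
        (K (gr n (k i)) (gr n (k l)))
      rwa [sub_add_cancel] at this
    have h5 := min_le_right (δ / 2) 1
    linarith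
  have hd : dist (fun i l : Fin j => A n (k i) (k l))
      (fun i l : Fin j => K (gr n (k i)) (gr n (k l))) < δ := by
    refine lt_of_le_of_lt ?_ (half_lt_self hδ)
    rw [dist_pi_le_iff (by positivity)]
    intro i
    rw [dist_pi_le_iff (by positivity)]
    intro l
    rw [dist_eq_norm]
    exact (hn (k i) (k l)).le.trans (min_le_left _ _)
  have := hδG _ hM _ hN hd
  rw [dist_eq_norm] at this
  exact this.le

/-- The terms of the Fredholm series. -/
theorem rm_term {K : ℝ → ℝ → ℂ} (hK : Continuous fun p : ℝ × ℝ => K p.1 p.2)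
    (A : ∀ n : ℕ, Matrix (Fin n) (Fin n) ℂ)
    (hA : ∀ ε > 0, ∀ᶠ n in atTop, ∀ i l : Fin n, ‖A n i l - K (gr n i) (gr n l)‖ < ε)
    (j : ℕ) : Tendsto (fun n : ℕ => (1 / (n : ℂ)) ^ j * ∑ k : Fin j → Fin n,
      (Matrix.of fun i l : Fin j => A n (k i) (k l)).det) atTop
      (𝓝 ((1 / (2 * π)) ^ j * ∫ t in box j,
        (Matrix.of fun i l : Fin j => K (t i) (t l)).det)) := by
  have h1 := riemann_box (j := j) (rm_G_cont hK j).continuousOn
  have h2 : Tendsto (fun n : ℕ => (1 / (n : ℂ)) ^ j * ∑ k : Fin j → Fin n,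
      ((Matrix.of fun i l : Fin j => A n (k i) (k l)).det -
        (Matrix.of fun i l : Fin j => K (gr n (k i)) (gr n (k l))).det)) atTop (𝓝 0) := by
    rw [Metric.tendsto_atTop]
    intro ε hε
    have h3 := rm_close hK A hA j (half_pos hε)
    rw [eventually_atTop] at h3
    obtain ⟨N, hN⟩ := h3
    refine ⟨N + 1, fun n hn => ?_⟩
    have hn' : (0 : ℝ) < n := by exact_mod_cast (by omega : 0 < n)
    rw [dist_zero_right, norm_mul]
    have h4 : ‖(1 / (n : ℂ)) ^ j‖ = (1 / (n : ℝ)) ^ j := by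
      rw [norm_pow, norm_div, norm_one, Complex.norm_natCast]
    rw [h4]
    have h5 : ‖∑ k : Fin j → Fin n,
      ((Matrix.of fun i l : Fin j => A n (k i) (k l)).det -
        (Matrix.of fun i l : Fin j => K (gr n (k i)) (gr n (k l))).det)‖ ≤
        (n : ℝ) ^ j * (ε / 2) := by
      refine (norm_sum_le _ _).trans ?_
      refine (Finset.sum_le_sum fun k _ => hN n (by omega) k).trans ?_
      rw [Finset.sum_const, Finset.card_univ, Fintype.card_fun, Fintype.card_fin,
        Fintype.card_fin, nsmul_eq_mul]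
      push_cast
      exact le_rfl
    calc (1 / (n : ℝ)) ^ j * ‖∑ k : Fin j → Fin n,
      ((Matrix.of fun i l : Fin j => A n (k i) (k l)).det -
        (Matrix.of fun i l : Fin j => K (gr n (k i)) (gr n (k l))).det)‖
        ≤ (1 / (n : ℝ)) ^ j * ((n : ℝ) ^ j * (ε / 2)) := by gcongr
      _ = ε / 2 := by
        rw [← mul_assoc, ← mul_pow, one_div_mul_cancel hn'.ne', one_pow, one_mul]
      _ < ε := by linarith
  have h3 := h2.add h1
  rw [zero_add] at h3
  refine h3.congr fun n => ?_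
  rw [← mul_add, ← Finset.sum_add_distrib]
  simp only [sub_add_cancel]

theorem rm_term_le {n j : ℕ} {B : ℝ} (hB : 0 ≤ B) (A : Matrix (Fin n) (Fin n) ℂ)
    (hA : ∀ i l, ‖A i l‖ ≤ B) : ‖(1 / (n : ℂ)) ^ j * ∑ k : Fin j → Fin n,
      (Matrix.of fun i l : Fin j => A (k i) (k l)).det‖ ≤ B ^ j * Real.sqrt ((j : ℝ) ^ j) := by
  rw [norm_mul, norm_pow, norm_div, norm_one, Complex.norm_natCast]
  have h5 : ‖∑ k : Fin j → Fin n, (Matrix.of fun i l : Fin j => A (k i) (k l)).det‖ ≤
      (n : ℝ) ^ j * (B ^ j * Real.sqrt ((j : ℝ) ^ j)) := by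
    refine (norm_sum_le _ _).trans ?_
    refine (Finset.sum_le_sum fun k _ => rm_det_le (fun i l => A (k i) (k l)) hB
      (fun i l => hA (k i) (k l))).trans ?_
    rw [Finset.sum_const, Finset.card_univ, Fintype.card_fun, Fintype.card_fin,
      Fintype.card_fin, nsmul_eq_mul]
    push_cast
    exact le_rfl
  have h6 : (1 / (n : ℝ)) ^ j * (n : ℝ) ^ j ≤ 1 := by
    rw [← mul_pow]
    apply pow_le_one₀ (by positivity)
    rcases Nat.eq_zero_or_pos n with rfl | h
    · simp
    · rw [one_div_mul_cancel (by positivity)]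
  calc (1 / (n : ℝ)) ^ j * ‖∑ k : Fin j → Fin n,
        (Matrix.of fun i l : Fin j => A (k i) (k l)).det‖
      ≤ (1 / (n : ℝ)) ^ j * ((n : ℝ) ^ j * (B ^ j * Real.sqrt ((j : ℝ) ^ j))) := by gcongr
    _ = ((1 / (n : ℝ)) ^ j * (n : ℝ) ^ j) * (B ^ j * Real.sqrt ((j : ℝ) ^ j)) := by ring
    _ ≤ 1 * (B ^ j * Real.sqrt ((j : ℝ) ^ j)) := by gcongr
    _ = _ := one_mul _

theorem riemann_det {K : ℝ → ℝ → ℂ} (hK : Continuous fun p : ℝ × ℝ => K p.1 p.2)
    (A : ∀ n : ℕ, Matrix (Fin n) (Fin n) ℂ)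
    (hA : ∀ ε > 0, ∀ᶠ n in atTop, ∀ i l : Fin n, ‖A n i l - K (gr n i) (gr n l)‖ < ε) :
    Tendsto (fun n : ℕ => (1 + (1 / (n : ℂ)) • A n).det) atTop (𝓝 (Kdet K)) := by
  obtain ⟨B, hB0, hB⟩ := rm_bound hK
  set f : ℕ → ℕ → ℂ := fun n j => if j ∈ Finset.range (n + 1) then (1 / (j.factorial : ℂ)) *
    ((1 / (n : ℂ)) ^ j * ∑ k : Fin j → Fin n,
      (Matrix.of fun i l : Fin j => A n (k i) (k l)).det) else 0 with hf
  have h1 : ∀ n : ℕ, (1 + (1 / (n : ℂ)) • A n).det = ∑' j, f n j := by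
    intro n
    rw [det_one_add_eq, Fintype.card_fin, tsum_eq_sum (s := Finset.range (n + 1))]
    · apply Finset.sum_congr rfl
      intro j hj
      rw [hf]
      simp only [if_pos hj]
      congr 1
      rw [Finset.mul_sum]
      apply Finset.sum_congr rfl
      intro k _
      have h2 : (Matrix.of fun i l : Fin j => ((1 / (n : ℂ)) • A n) (k i) (k l)) =
          (1 / (n : ℂ)) • (Matrix.of fun i l : Fin j => A n (k i) (k l)) := by
        ext i l
        rfl
      rw [h2, Matrix.det_smul, Fintype.card_fin]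
    · intro j hj
      rw [hf]
      simp only [if_neg hj]
  have h2 : Tendsto (fun n => ∑' j, f n j) atTop (𝓝 (∑' j : ℕ, (1 / (j.factorial : ℂ)) *
      ((1 / (2 * π)) ^ j * ∫ t in box j,
        (Matrix.of fun i l : Fin j => K (t i) (t l)).det))) := by
    apply tendsto_tsum_of_dominated_convergence (bound := bd (B + 1)) (summable_bd _)
    · intro j
      have h3 := (rm_term hK A hA j).const_mul (1 / (j.factorial : ℂ))
      refine h3.congr' ?_
      filter_upwards [eventually_ge_atTop j] with n hn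
      rw [hf]
      simp only [if_pos (Finset.mem_range.2 (Nat.lt_succ_of_le hn))]
    · filter_upwards [hA 1 one_pos] with n hn j
      rw [hf]
      simp only
      split_ifs
      · have hAB : ∀ i l, ‖A n i l‖ ≤ B + 1 := by
          intro i l
          have h3 := hn i l
          have h4 := hB _ (rm_gr_mem i) _ (rm_gr_mem l)
          have h5 := norm_add_le (A n i l - K (gr n i) (gr n l)) (K (gr n i) (gr n l))
          rw [sub_add_cancel] at h5
          linarith
        rw [norm_mul, norm_div, norm_one, Complex.norm_natCast]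
        have h6 := rm_term_le (j := j) (by linarith) (A n) hAB
        rw [bd]
        calc 1 / (j.factorial : ℝ) * _ ≤ 1 / (j.factorial : ℝ) *
              ((B + 1) ^ j * Real.sqrt ((j : ℝ) ^ j)) := by gcongr
          _ = _ := by ring
      · rw [norm_zero, bd]
        have : 0 ≤ B + 1 := by linarith
        positivity
  have h3 : Kdet K = ∑' j : ℕ, (1 / (j.factorial : ℂ)) *
      ((1 / (2 * π)) ^ j * ∫ t in box j,
        (Matrix.of fun i l : Fin j => K (t i) (t l)).det) := by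
    rw [Kdet]
    congr 1
    funext j
    ring
  rw [h3]
  exact h2.congr fun n => (h1 n).symm

theorem bdet_sub {ι : Type*} [Fintype ι] [DecidableEq ι] (M : Matrix ι ι ℂ) (h g : ι → ℂ) :
    bdet M h g = M.det - (M + Matrix.of fun i l => h i * g l).det := by
  have h1 : (Matrix.fromBlocks M (Matrix.of fun i (_ : Unit) => h i)
      (Matrix.of fun (_ : Unit) l => g l) (-1 : Matrix Unit Unit ℂ)).det =
      -(M + Matrix.of fun i l => h i * g l).det := by
    have hinv : (-1 : Matrix Unit Unit ℂ) * (-1) = 1 := by rw [neg_mul_neg, one_mul]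
    let _ : Invertible (-1 : Matrix Unit Unit ℂ) := ⟨-1, hinv, hinv⟩
    rw [Matrix.det_fromBlocks₂₂]
    have h2 : (-1 : Matrix Unit Unit ℂ).det = -1 := by
      rw [Matrix.det_unique]
      simp
    rw [h2, neg_one_mul]
    congr 2
    ext i l
    have h3 : (⅟(-1 : Matrix Unit Unit ℂ)) = -1 := rfl
    rw [h3]
    simp [Matrix.mul_apply]
  have h2 : (Matrix.fromBlocks M (Matrix.of fun i (_ : Unit) => h i)
      (Matrix.of fun (_ : Unit) l => g l) (-1 : Matrix Unit Unit ℂ)).det =
      bdet M h g + -M.det := by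
    have e1 : (Matrix.fromBlocks M (Matrix.of fun i (_ : Unit) => h i)
      (Matrix.of fun (_ : Unit) l => g l) (-1 : Matrix Unit Unit ℂ)) =
      (Matrix.fromBlocks M (Matrix.of fun i (_ : Unit) => h i)
      (Matrix.of fun (_ : Unit) l => g l) (0 : Matrix Unit Unit ℂ)).updateCol (Sum.inr ())
        ((Sum.elim h (fun _ => 0)) + (Sum.elim (fun _ => 0) (fun _ => -1))) := by
      ext i l
      rcases i with i | i <;> rcases l with l | l <;>
        simp [Matrix.fromBlocks]
    have e2 : (Matrix.fromBlocks M (Matrix.of fun i (_ : Unit) => h i)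
      (Matrix.of fun (_ : Unit) l => g l) (0 : Matrix Unit Unit ℂ)).updateCol (Sum.inr ())
        (Sum.elim h (fun _ => 0)) = (Matrix.fromBlocks M (Matrix.of fun i (_ : Unit) => h i)
      (Matrix.of fun (_ : Unit) l => g l) (0 : Matrix Unit Unit ℂ)) := by
      ext i l
      rcases i with i | i <;> rcases l with l | l <;>
        simp [Matrix.fromBlocks]
    have e3 : (Matrix.fromBlocks M (Matrix.of fun i (_ : Unit) => h i)
      (Matrix.of fun (_ : Unit) l => g l) (0 : Matrix Unit Unit ℂ)).updateCol (Sum.inr ())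
        (Sum.elim (fun _ => 0) (fun _ => -1)) = Matrix.fromBlocks M 0
      (Matrix.of fun (_ : Unit) l => g l) (-1 : Matrix Unit Unit ℂ) := by
      ext i l
      rcases i with i | i <;> rcases l with l | l <;>
        simp [Matrix.fromBlocks]
    have h4 : (-1 : Matrix Unit Unit ℂ).det = -1 := by
      rw [Matrix.det_unique]
      simp
    rw [e1, Matrix.det_updateCol_add, e2, e3, Matrix.det_fromBlocks_zero₁₂, bdet, h4, mul_neg_one]
  rw [h1] at h2
  rw [eq_sub_iff_add_eq, ← sub_eq_zero]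
  linear_combination -h2

theorem Kdet_summable {K : ℝ → ℝ → ℂ} (hK : Continuous fun p : ℝ × ℝ => K p.1 p.2) :
    Summable fun j : ℕ => (1 / (j.factorial : ℂ)) * (1 / (2 * π)) ^ j *
      ∫ t in box j, (Matrix.of fun i l : Fin j => K (t i) (t l)).det := by
  have hp := Real.pi_pos
  obtain ⟨B, hB0, hB⟩ := rm_bound hK
  apply Summable.of_norm_bounded (summable_bd B)
  intro j
  have hvol : volume.real (box j) = (2 * π) ^ j := by
    rw [box, Measure.real, Real.volume_Icc_pi_toReal (by intro i; simp only; linarith)]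
    simp only [sub_neg_eq_add, Finset.prod_const, Finset.card_univ, Fintype.card_fin]
    ring
  have h1 : ‖∫ t in box j, (Matrix.of fun i l : Fin j => K (t i) (t l)).det‖ ≤
      (B ^ j * Real.sqrt ((j : ℝ) ^ j)) * (2 * π) ^ j := by
    rw [← hvol]
    apply norm_setIntegral_le_of_norm_le_const (isCompact_Icc.measure_lt_top)
    intro t ht
    exact rm_det_le (fun i l => K (t i) (t l)) hB0
      (fun i l => hB _ (rm_box_mem ht i) _ (rm_box_mem ht l))
  rw [norm_mul, norm_mul, norm_div, norm_one, Complex.norm_natCast, norm_pow, norm_div, norm_one,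
    norm_mul, Complex.norm_ofNat, Complex.norm_real, Real.norm_eq_abs, abs_of_pos hp, bd]
  calc 1 / (j.factorial : ℝ) * (1 / (2 * π)) ^ j * ‖∫ t in box j, _‖
      ≤ 1 / (j.factorial : ℝ) * (1 / (2 * π)) ^ j *
        ((B ^ j * Real.sqrt ((j : ℝ) ^ j)) * (2 * π) ^ j) := by gcongr
    _ = B ^ j * Real.sqrt ((j : ℝ) ^ j) / (j.factorial : ℝ) *
        ((1 / (2 * π)) ^ j * (2 * π) ^ j) := by
        ring
    _ = _ := by
        rw [← mul_pow, one_div_mul_cancel (by positivity), one_pow, mul_one]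

theorem Kbd_eq {K : ℝ → ℝ → ℂ} (hK : Continuous fun p : ℝ × ℝ => K p.1 p.2)
    {u w : ℝ → ℂ} (hu : Continuous u) (hw : Continuous w) :
    Kbd K u w = Kdet K - Kdet (fun φ ψ => K φ ψ + u φ * w ψ) := by
  have hK' : Continuous fun p : ℝ × ℝ => K p.1 p.2 + u p.1 * w p.2 := by
    exact hK.add ((hu.comp continuous_fst).mul (hw.comp continuous_snd))
  rw [Kdet, Kdet, ← (Kdet_summable hK).tsum_sub
    (Kdet_summable (K := fun φ ψ => K φ ψ + u φ * w ψ) hK'), Kbd]
  congr 1
  funext j
  rw [← mul_sub]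
  congr 1
  have h1 : IntegrableOn (fun t : Fin j → ℝ => (Matrix.of fun i l : Fin j => K (t i) (t l)).det)
      (box j) := (rm_G_cont hK j).continuousOn.integrableOn_compact isCompact_Icc
  have h2 : IntegrableOn (fun t : Fin j → ℝ =>
      (Matrix.of fun i l : Fin j => K (t i) (t l) + u (t i) * w (t l)).det)
      (box j) := (rm_G_cont (K := fun φ ψ => K φ ψ + u φ * w ψ) hK' j).continuousOn.integrableOn_compact
        isCompact_Icc
  rw [← integral_sub h1 h2]
  apply integral_congr_ae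
  filter_upwards with t
  rw [bdet_sub]
  rfl

theorem riemann_bdet {K : ℝ → ℝ → ℂ} (hK : Continuous fun p : ℝ × ℝ => K p.1 p.2)
    {u w : ℝ → ℂ} (hu : Continuous u) (hw : Continuous w)
    (A : ∀ n : ℕ, Matrix (Fin n) (Fin n) ℂ)
    (hA : ∀ ε > 0, ∀ᶠ n in atTop, ∀ i l : Fin n, ‖A n i l - K (gr n i) (gr n l)‖ < ε) :
    Tendsto (fun n : ℕ => bdet (1 + (1 / (n : ℂ)) • A n) (fun i => u (gr n i))
      (fun i => w (gr n i) / n)) atTop (𝓝 (Kbd K u w)) := by
  have hK' : Continuous fun p : ℝ × ℝ => K p.1 p.2 + u p.1 * w p.2 := by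
    exact hK.add ((hu.comp continuous_fst).mul (hw.comp continuous_snd))
  have h1 := riemann_det hK A hA
  have h2 := riemann_det (K := fun φ ψ => K φ ψ + u φ * w ψ) hK'
    (fun n => A n + Matrix.of fun i l => u (gr n i) * w (gr n l)) (by
      intro ε hε
      filter_upwards [hA ε hε] with n hn i l
      have h3 := hn i l
      rw [Matrix.add_apply, Matrix.of_apply, add_sub_add_right_eq_sub]
      exact h3)
  rw [Kbd_eq hK hu hw]
  refine (h1.sub h2).congr fun n => ?_
  rw [bdet_sub]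
  congr 2
  rw [smul_add, add_assoc]
  congr 2
  ext i l
  rw [Matrix.smul_apply, Matrix.of_apply, Matrix.of_apply, smul_eq_mul]
  ring

end

end IsingS2
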