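import Pool.Agent.Helper98.IS.Band
import Pool.Agent.Helper98.IS.Riemann

/-! IS-31: sums of minors and integrals -/

namespace IsingS2

open Complex Set MeasureTheory Filter Topology IsingNB
open scoped Real Matrix

noncomputable section

theorem sd_pow_summable {q : ℝ} (h0 : 0 < q) (h1 : q < 1) :
    Summable fun n : ℤ => q ^ n.natAbs := by
  apply Summable.of_nat_of_neg
  · simpa using summable_geometric_of_lt_one h0.le h1
  · simpa using summable_geometric_of_lt_one h0.le h1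

theorem sd_LL_summable {A : ℤ → ℤ → ℂ} (hA : LL A) : Summable fun p : ℤ × ℤ => ‖A p.1 p.2‖ := by
  obtain ⟨C, q, hC, h0, h1, h⟩ := hA
  have h2 := ((sd_pow_summable h0 h1).mul_of_nonneg (sd_pow_summable h0 h1)
    (fun n => by positivity) (fun n => by positivity)).mul_left C
  apply Summable.of_nonneg_of_le (fun p => norm_nonneg _) (fun p => ?_) h2
  rw [← pow_add]
  exact h p.1 p.2

theorem sd_mulS {ι κ : Type} {u : ι → ℝ} {v : κ → ℝ} (hu : Summable u) (hv : Summable v)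
    (h0 : ∀ a, 0 ≤ u a) (h1 : ∀ a, 0 ≤ v a) : Summable fun z : ι × κ => u z.1 * v z.2 :=
  hu.mul_of_nonneg hv h0 h1

theorem sd_mulT {ι κ : Type} {u : ι → ℂ} {v : κ → ℂ} (hu : Summable fun a => ‖u a‖)
    (hv : Summable fun a => ‖v a‖) :
    (∑' a, u a) * ∑' a, v a = ∑' z : ι × κ, u z.1 * v z.2 :=
  tsum_mul_tsum_of_summable_norm hu hv

theorem sd_prod {ι : Type} (j : ℕ) : ∀ f : Fin j → ι → ℂ, (∀ i, Summable fun a => ‖f i a‖) →
    (Summable fun p : Fin j → ι => ∏ i, ‖f i (p i)‖) ∧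
      ∏ i, ∑' a, f i a = ∑' p : Fin j → ι, ∏ i, f i (p i) := by
  induction j with
  | zero =>
    intro f _
    constructor
    · simp only [Finset.univ_eq_empty, Finset.prod_empty]
      exact (hasSum_fintype _).summable
    · simp
  | succ j ih =>
    intro f hf
    have h12 := ih (fun i => f i.succ) (fun i => hf i.succ)
    have h1 : Summable fun p : Fin j → ι => ∏ i : Fin j, ‖f i.succ (p i)‖ := h12.1
    have h2 : ∏ i : Fin j, ∑' a, f i.succ a = ∑' p : Fin j → ι, ∏ i, f i.succ (p i) := h12.2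
    have h0 : Summable fun a => ‖f 0 a‖ := hf 0
    have h3 := sd_mulS h0 h1 (fun a => norm_nonneg (f 0 a))
      (fun p => Finset.prod_nonneg (fun i _ => norm_nonneg (f i.succ (p i))))
    let e : ι × (Fin j → ι) ≃ (Fin (j + 1) → ι) := Fin.consEquiv (fun _ => ι)
    have he : ∀ z, e z = Fin.cons z.1 z.2 := fun _ => rfl
    constructor
    · have h4 : Summable ((fun p : Fin (j + 1) → ι => ∏ i, ‖f i (p i)‖) ∘ e) := by
        have h5 : (fun p : Fin (j + 1) → ι => ∏ i, ‖f i (p i)‖) ∘ e =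
          fun z : ι × (Fin j → ι) => ‖f 0 z.1‖ * ∏ i : Fin j, ‖f i.succ (z.2 i)‖ := by
          funext z
          simp only [Function.comp, he, Fin.prod_univ_succ, Fin.cons_zero, Fin.cons_succ]
        rw [h5]
        exact h3
      exact e.summable_iff.1 h4
    · have h1n : Summable fun p : Fin j → ι => ‖∏ i : Fin j, f i.succ (p i)‖ := by
        simp only [norm_prod]
        exact h1
      rw [Fin.prod_univ_succ, h2, sd_mulT h0 h1n]
      rw [← e.tsum_eq (fun p : Fin (j + 1) → ι => ∏ i, f i (p i))]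
      apply tsum_congr
      intro z
      simp only [he, Fin.prod_univ_succ, Fin.cons_zero, Fin.cons_succ]

theorem sd_ex_ne (φ : ℝ) : ex φ ≠ 0 := Complex.exp_ne_zero _

theorem sd_ex_norm (φ : ℝ) : ‖ex φ‖ = 1 := by
  rw [ex, mul_comm]
  exact Complex.norm_exp_ofReal_mul_I φ

theorem sd_ex_cont : Continuous ex := by
  unfold ex
  fun_prop

/-- Orthogonality in one variable. -/
theorem sd_int (n : ℤ) : ∫ t in Icc (-π) π, ex t ^ n = if n = 0 then (2 * π : ℂ) else 0 := by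
  have hp := Real.pi_pos
  rw [integral_Icc_eq_integral_Ioc, ← intervalIntegral.integral_of_le (by linarith)]
  split_ifs with h
  · subst h
    simp only [zpow_zero]
    rw [intervalIntegral.integral_const, Complex.real_smul]
    push_cast
    ring
  · have h1 : ∀ t : ℝ, ex t ^ n = Complex.exp ((I * n) * t) := by
      intro t
      rw [ex, ← Complex.exp_int_mul]
      congr 1
      ring
    simp only [h1]
    have hn : (I * (n : ℂ)) ≠ 0 := mul_ne_zero I_ne_zero (by exact_mod_cast h)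
    rw [integral_exp_mul_complex hn]
    have h2 : Complex.exp (I * n * ((π : ℝ) : ℂ)) = Complex.exp (I * n * ((-π : ℝ) : ℂ)) := by
      have e : I * n * ((π : ℝ) : ℂ) = I * n * ((-π : ℝ) : ℂ) + n * (2 * π * I) := by
        push_cast
        ring
      rw [e, Complex.exp_add, Complex.exp_int_mul_two_pi_mul_I, mul_one]
    rw [h2, sub_self, zero_div]

/-- Orthogonality. -/
theorem sd_int_box {j : ℕ} (n : Fin j → ℤ) :
    ∫ t in box j, ∏ i, ex (t i) ^ n i = if ∀ i, n i = 0 then (2 * π : ℂ) ^ j else 0 := by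
  have h1 : (volume.restrict (box j) : Measure (Fin j → ℝ)) =
      Measure.pi (fun _ : Fin j => (volume : Measure ℝ).restrict (Icc (-π) π)) := by
    rw [box, ← pi_univ_Icc, volume_pi, Measure.restrict_pi_pi]
  rw [h1, integral_fintype_prod_eq_prod (fun i : Fin j => fun t : ℝ => ex t ^ n i)]
  simp only [sd_int]
  split_ifs with h
  · simp only [h, if_true]
    simp
  · push Not at h
    obtain ⟨i, hi⟩ := h
    apply Finset.prod_eq_zero (Finset.mem_univ i)
    rw [if_neg hi]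

theorem sd_ft_term {A : ℤ → ℤ → ℂ} (p : ℤ × ℤ) (φ ψ : ℝ) :
    ‖A p.1 p.2 * ex φ ^ p.1 * (ex ψ)⁻¹ ^ p.2‖ = ‖A p.1 p.2‖ := by
  rw [norm_mul, norm_mul, norm_zpow, norm_zpow, norm_inv, sd_ex_norm, sd_ex_norm]
  simp

theorem sd_ft_cont {A : ℤ → ℤ → ℂ} (hA : LL A) :
    Continuous fun p : ℝ × ℝ => ft A (ex p.1) (ex p.2)⁻¹ := by
  unfold ft
  apply continuous_tsum (u := fun p : ℤ × ℤ => ‖A p.1 p.2‖)
  · intro p
    have h1 : Continuous fun q : ℝ × ℝ => ex q.1 ^ p.1 :=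
      (sd_ex_cont.comp continuous_fst).zpow₀ _ (fun q => Or.inl (sd_ex_ne _))
    have h2 : Continuous fun q : ℝ × ℝ => (ex q.2)⁻¹ ^ p.2 :=
      ((sd_ex_cont.comp continuous_snd).inv₀ (fun q => sd_ex_ne _)).zpow₀ _
        (fun q => Or.inl (inv_ne_zero (sd_ex_ne _)))
    exact (continuous_const.mul h1).mul h2
  · exact sd_LL_summable hA
  · intro p q
    exact (sd_ft_term p q.1 q.2).le

/-- The contribution of one permutation. -/
theorem sd_perm {A : ℤ → ℤ → ℂ} (hA : LL A) {j : ℕ} (σ : Equiv.Perm (Fin j)) :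
    (Summable fun k : Fin j → ℤ => ∏ i, A (k (σ i)) (k i)) ∧
    ∫ t in box j, ∏ i, ft A (ex (t (σ i))) (ex (t i))⁻¹ =
      (2 * π) ^ j * ∑' k : Fin j → ℤ, ∏ i, A (k (σ i)) (k i) := by
  have hp := Real.pi_pos
  have hS := sd_LL_summable hA
  obtain ⟨hsum, -⟩ := sd_prod j (fun (_ : Fin j) (p : ℤ × ℤ) => A p.1 p.2) (fun _ => hS)
  -- the injection
  set g : (Fin j → ℤ) → (Fin j → ℤ × ℤ) := fun k i => (k (σ i), k i) with hg
  have hginj : Function.Injective g := by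
    intro k k' h
    funext i
    exact congrArg Prod.snd (congrFun h i)
  have hsum' : Summable fun p : Fin j → ℤ × ℤ => ∏ i, A (p i).1 (p i).2 := by
    apply Summable.of_norm
    simp only [norm_prod]
    exact hsum
  have hs1 : Summable fun k : Fin j → ℤ => ∏ i, A (k (σ i)) (k i) := by
    have hs0 : Summable ((fun p : Fin j → ℤ × ℤ => ∏ i, A (p i).1 (p i).2) ∘ g) :=
      hsum'.comp_injective hginj
    have e0 : ((fun p : Fin j → ℤ × ℤ => ∏ i, A (p i).1 (p i).2) ∘ g) =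
        fun k : Fin j → ℤ => ∏ i, A (k (σ i)) (k i) := rfl
    rw [e0] at hs0
    exact hs0
  refine ⟨hs1, ?_⟩
  -- expansion
  have h1 : ∀ t : Fin j → ℝ, ∏ i, ft A (ex (t (σ i))) (ex (t i))⁻¹ =
      ∑' p : Fin j → ℤ × ℤ, ∏ i, (A (p i).1 (p i).2 * ex (t (σ i)) ^ (p i).1 *
        (ex (t i))⁻¹ ^ (p i).2) := by
    intro t
    unfold ft
    apply (sd_prod j (fun (i : Fin j) (p : ℤ × ℤ) => A p.1 p.2 * ex (t (σ i)) ^ p.1 *
        (ex (t i))⁻¹ ^ p.2) (fun i => ?_)).2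
    simp only [sd_ft_term]
    exact hS
  simp only [h1]
  have hterm : ∀ (p : Fin j → ℤ × ℤ) (t : Fin j → ℝ),
      ∏ i, (A (p i).1 (p i).2 * ex (t (σ i)) ^ (p i).1 * (ex (t i))⁻¹ ^ (p i).2) =
      (∏ i, A (p i).1 (p i).2) * ∏ i, ex (t i) ^ ((p (σ.symm i)).1 - (p i).2) := by
    intro p t
    rw [Finset.prod_mul_distrib, Finset.prod_mul_distrib, mul_assoc]
    congr 1
    have h2 := Equiv.prod_comp σ (fun i => ex (t i) ^ (p (σ.symm i)).1)
    simp only [Equiv.symm_apply_apply] at h2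
    rw [h2, ← Finset.prod_mul_distrib]
    apply Finset.prod_congr rfl
    intro i _
    rw [zpow_sub₀ (sd_ex_ne _), inv_zpow, div_eq_mul_inv]
  simp only [hterm]
  have hcont : ∀ p : Fin j → ℤ × ℤ, Continuous fun t : Fin j → ℝ =>
      (∏ i, A (p i).1 (p i).2) * ∏ i, ex (t i) ^ ((p (σ.symm i)).1 - (p i).2) := by
    intro p
    apply continuous_const.mul
    apply continuous_finsetProd
    intro i _
    exact (sd_ex_cont.comp (continuous_apply i)).zpow₀ _ (fun q => Or.inl (sd_ex_ne _))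
  have hnorm : ∀ (p : Fin j → ℤ × ℤ) (t : Fin j → ℝ),
      ‖(∏ i, A (p i).1 (p i).2) * ∏ i, ex (t i) ^ ((p (σ.symm i)).1 - (p i).2)‖ =
        ∏ i, ‖A (p i).1 (p i).2‖ := by
    intro p t
    rw [norm_mul, norm_prod, norm_prod]
    simp only [norm_zpow, sd_ex_norm, one_zpow, Finset.prod_const_one, mul_one]
  rw [← integral_tsum_of_summable_integral_norm (μ := volume.restrict (box j))
    (F := fun (p : Fin j → ℤ × ℤ) (t : Fin j → ℝ) =>
      (∏ i, A (p i).1 (p i).2) * ∏ i, ex (t i) ^ ((p (σ.symm i)).1 - (p i).2))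
    (fun p => (hcont p).continuousOn.integrableOn_compact isCompact_Icc) (by
      simp only [hnorm, integral_const]
      exact hsum.const_smul _)]
  simp only [integral_const_mul, sd_int_box]
  have h3 : ∑' p : Fin j → ℤ × ℤ, (∏ i, A (p i).1 (p i).2) *
      (if ∀ i, (p (σ.symm i)).1 - (p i).2 = 0 then (2 * π : ℂ) ^ j else 0) =
      ∑' k : Fin j → ℤ, (∏ i, A (k (σ i)) (k i)) * (2 * π) ^ j := by
    rw [← hginj.tsum_eq]
    · apply tsum_congr
      intro k
      rw [hg, if_pos]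
      intro i
      simp
    · intro p hp
      rw [Function.mem_support] at hp
      have hcond : ∀ i, (p (σ.symm i)).1 - (p i).2 = 0 := by
        by_contra h
        rw [if_neg h, mul_zero] at hp
        exact hp rfl
      refine ⟨fun i => (p i).2, ?_⟩
      funext i
      have h4 := hcond (σ i)
      rw [Equiv.symm_apply_apply] at h4
      apply Prod.ext
      · simp only [hg]
        omega
      · rfl
  rw [h3, tsum_mul_right, mul_comm]

theorem sd_det_expand {A : ℤ → ℤ → ℂ} {j : ℕ} (k : Fin j → ℤ) :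
    (Matrix.of fun i l : Fin j => A (k i) (k l)).det =
      ∑ σ : Equiv.Perm (Fin j), ((Equiv.Perm.sign σ : ℤ) : ℂ) * ∏ i, A (k (σ i)) (k i) := by
  rw [Matrix.det_apply']
  rfl

theorem sd_det_expand' (F : ℝ → ℝ → ℂ) {j : ℕ} (t : Fin j → ℝ) :
    (Matrix.of fun i l : Fin j => F (t i) (t l)).det =
      ∑ σ : Equiv.Perm (Fin j), ((Equiv.Perm.sign σ : ℤ) : ℂ) * ∏ i, F (t (σ i)) (t i) := by
  rw [Matrix.det_apply']
  rfl

theorem sd_perm_summable {A : ℤ → ℤ → ℂ} (hA : LL A) {j : ℕ} (σ : Equiv.Perm (Fin j)) :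
    Summable fun k : Fin j → ℤ =>
      ((Equiv.Perm.sign σ : ℤ) : ℂ) * ∏ i, A (k (σ i)) (k i) := by
  have h := (sd_perm hA σ).1
  exact Summable.mul_left ((Equiv.Perm.sign σ : ℤ) : ℂ) h

theorem sd_det_summable {A : ℤ → ℤ → ℂ} (hA : LL A) (j : ℕ) :
    Summable fun k : Fin j → ℤ => (Matrix.of fun i l : Fin j => A (k i) (k l)).det := by
  simp only [sd_det_expand]
  exact summable_sum (fun σ _ => sd_perm_summable hA σ)

theorem sd_perm_cont' {F : ℝ → ℝ → ℂ} (hF : Continuous fun p : ℝ × ℝ => F p.1 p.2) {j : ℕ}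
    (σ : Equiv.Perm (Fin j)) : Continuous fun t : Fin j → ℝ =>
      (((Equiv.Perm.sign σ : ℤ) : ℂ) * ∏ i, F (t (σ i)) (t i)) := by
  have h2 : ∀ i : Fin j, Continuous fun t : Fin j → ℝ => F (t (σ i)) (t i) := by
    intro i
    have h1 : Continuous fun t : Fin j → ℝ => (t (σ i), t i) := by fun_prop
    exact hF.comp h1
  exact continuous_const.mul (continuous_finsetProd _ fun i _ => h2 i)

theorem sd_perm_cont {A : ℤ → ℤ → ℂ} (hA : LL A) {j : ℕ} (σ : Equiv.Perm (Fin j)) :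
    Continuous fun t : Fin j → ℝ => (((Equiv.Perm.sign σ : ℤ) : ℂ) *
        ∏ i, ft A (ex (t (σ i))) (ex (t i))⁻¹) :=
  sd_perm_cont' (F := fun φ ψ => ft A (ex φ) (ex ψ)⁻¹) (sd_ft_cont hA) σ

theorem sum_det_eq {A : ℤ → ℤ → ℂ} (hA : LL A) (j : ℕ) :
    ∑' k : Fin j → ℤ, (Matrix.of fun i l : Fin j => A (k i) (k l)).det =
      (1 / (2 * π)) ^ j * ∫ t in box j,
        (Matrix.of fun i l : Fin j => ft A (ex (t i)) (ex (t l))⁻¹).det := by
  have hp : (2 * (π : ℂ)) ≠ 0 := by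
    have := Real.pi_pos
    exact mul_ne_zero two_ne_zero (by exact_mod_cast this.ne')
  have e1 : ∑' k : Fin j → ℤ, (Matrix.of fun i l : Fin j => A (k i) (k l)).det =
      ∑ σ : Equiv.Perm (Fin j), ((Equiv.Perm.sign σ : ℤ) : ℂ) *
        ∑' k : Fin j → ℤ, ∏ i, A (k (σ i)) (k i) := by
    simp only [sd_det_expand]
    rw [Summable.tsum_finsetSum (fun σ _ => sd_perm_summable hA σ)]
    simp only [tsum_mul_left]
  have e2 : ∫ t in box j, (Matrix.of fun i l : Fin j => ft A (ex (t i)) (ex (t l))⁻¹).det =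
      ∑ σ : Equiv.Perm (Fin j), ((Equiv.Perm.sign σ : ℤ) : ℂ) *
        ((2 * π) ^ j * ∑' k : Fin j → ℤ, ∏ i, A (k (σ i)) (k i)) := by
    have h0 : ∀ t : Fin j → ℝ,
        (Matrix.of fun i l : Fin j => ft A (ex (t i)) (ex (t l))⁻¹).det =
        ∑ σ : Equiv.Perm (Fin j), ((Equiv.Perm.sign σ : ℤ) : ℂ) *
          ∏ i, ft A (ex (t (σ i))) (ex (t i))⁻¹ := fun t =>
      sd_det_expand' (fun φ ψ => ft A (ex φ) (ex ψ)⁻¹) t
    simp only [h0]
    rw [integral_finsetSum]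
    · apply Finset.sum_congr rfl
      intro σ _
      rw [integral_const_mul, (sd_perm hA σ).2]
    · intro σ _
      exact (sd_perm_cont hA σ).continuousOn.integrableOn_compact isCompact_Icc
  rw [e1, e2, Finset.mul_sum]
  apply Finset.sum_congr rfl
  intro σ _
  have h1 : (1 / (2 * (π : ℂ))) ^ j * (2 * π) ^ j = 1 := by
    rw [← mul_pow, one_div_mul_cancel hp, one_pow]
  linear_combination -(((Equiv.Perm.sign σ : ℤ) : ℂ) *
      ∑' k : Fin j → ℤ, ∏ i, A (k (σ i)) (k i)) * h1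

/-- rank one matrices -/
theorem sd_LV_summable {u : ℤ → ℂ} (hu : LV u) : Summable fun k : ℤ => ‖u k‖ := by
  obtain ⟨C, q, hC, h0, h1, h⟩ := hu
  exact Summable.of_nonneg_of_le (fun k => norm_nonneg _) h ((sd_pow_summable h0 h1).mul_left C)

theorem sd_rank_one {h g : ℤ → ℂ} (hh : LV h) (hg : LV g) : LL fun k l => h k * g l := by
  obtain ⟨C, q, hC, h0, h1, hb⟩ := hh
  obtain ⟨C', q', hC', h0', h1', hb'⟩ := hg
  refine ⟨C * C', max q q', by positivity, lt_max_of_lt_left h0, max_lt h1 h1', fun k l => ?_⟩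
  rw [norm_mul, pow_add]
  have hm : 0 ≤ max q q' := le_max_of_le_left h0.le
  calc ‖h k‖ * ‖g l‖ ≤ (C * q ^ k.natAbs) * (C' * q' ^ l.natAbs) :=
        mul_le_mul (hb k) (hb' l) (norm_nonneg _) (by positivity)
    _ ≤ (C * (max q q') ^ k.natAbs) * (C' * (max q q') ^ l.natAbs) := by
        gcongr
        · exact le_max_left _ _
        · exact le_max_right _ _
    _ = _ := by ring

theorem sd_ft_summable {A : ℤ → ℤ → ℂ} (hA : LL A) (φ ψ : ℝ) :
    Summable fun p : ℤ × ℤ => A p.1 p.2 * ex φ ^ p.1 * (ex ψ)⁻¹ ^ p.2 := by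
  apply Summable.of_norm
  simp only [sd_ft_term]
  exact sd_LL_summable hA

theorem sd_fv_term (u : ℤ → ℂ) {x : ℂ} (hx : ‖x‖ = 1) (k : ℤ) : ‖u k * x ^ k‖ = ‖u k‖ := by
  rw [norm_mul, norm_zpow, hx, one_zpow, mul_one]

theorem sd_ft_add {A : ℤ → ℤ → ℂ} (hA : LL A) {h g : ℤ → ℂ} (hh : LV h) (hg : LV g) (φ ψ : ℝ) :
    ft (fun k l => A k l + h k * g l) (ex φ) (ex ψ)⁻¹ =
      ft A (ex φ) (ex ψ)⁻¹ + fv h (ex φ) * fv g (ex ψ)⁻¹ := by
  have hx : ‖ex φ‖ = 1 := sd_ex_norm φ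
  have hy : ‖(ex ψ)⁻¹‖ = 1 := by rw [norm_inv, sd_ex_norm, inv_one]
  have e1 : fv h (ex φ) * fv g (ex ψ)⁻¹ =
      ∑' p : ℤ × ℤ, (h p.1 * ex φ ^ p.1) * (g p.2 * (ex ψ)⁻¹ ^ p.2) := by
    unfold fv
    apply sd_mulT
    · simp only [sd_fv_term h hx]
      exact sd_LV_summable hh
    · simp only [sd_fv_term g hy]
      exact sd_LV_summable hg
  have e2 : ∀ p : ℤ × ℤ, (h p.1 * ex φ ^ p.1) * (g p.2 * (ex ψ)⁻¹ ^ p.2) =
      (h p.1 * g p.2) * ex φ ^ p.1 * (ex ψ)⁻¹ ^ p.2 := fun p => by ring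
  simp only [e2] at e1
  rw [e1]
  unfold ft
  rw [← (sd_ft_summable hA φ ψ).tsum_add (sd_ft_summable (sd_rank_one hh hg) φ ψ)]
  apply tsum_congr
  intro p
  ring

theorem sum_bdet_eq {A : ℤ → ℤ → ℂ} (hA : LL A) {h g : ℤ → ℂ} (hh : LV h) (hg : LV g) (j : ℕ) :
    ∑' k : Fin j → ℤ, bdet (Matrix.of fun i l : Fin j => A (k i) (k l)) (fun i => h (k i))
        (fun i => g (k i)) =
      (1 / (2 * π)) ^ j * ∫ t in box j,
        bdet (Matrix.of fun i l : Fin j => ft A (ex (t i)) (ex (t l))⁻¹)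
          (fun i => fv h (ex (t i))) (fun i => fv g (ex (t i))⁻¹) := by
  have hA' : LL fun k l => A k l + h k * g l := LL_add hA (sd_rank_one hh hg)
  have e1 : ∀ k : Fin j → ℤ, bdet (Matrix.of fun i l : Fin j => A (k i) (k l))
      (fun i => h (k i)) (fun i => g (k i)) =
      (Matrix.of fun i l : Fin j => A (k i) (k l)).det -
        (Matrix.of fun i l : Fin j => A (k i) (k l) + h (k i) * g (k l)).det := by
    intro k
    rw [bdet_sub]
    rfl
  have e2 : ∀ t : Fin j → ℝ, bdet (Matrix.of fun i l : Fin j => ft A (ex (t i)) (ex (t l))⁻¹)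
      (fun i => fv h (ex (t i))) (fun i => fv g (ex (t i))⁻¹) =
      (Matrix.of fun i l : Fin j => ft A (ex (t i)) (ex (t l))⁻¹).det -
        (Matrix.of fun i l : Fin j =>
          ft (fun k l => A k l + h k * g l) (ex (t i)) (ex (t l))⁻¹).det := by
    intro t
    rw [bdet_sub]
    congr 2
    ext i l
    rw [Matrix.add_apply, Matrix.of_apply, Matrix.of_apply, Matrix.of_apply,
      sd_ft_add hA hh hg]
  simp only [e1, e2]
  have i1 : IntegrableOn (fun t : Fin j → ℝ =>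
      (Matrix.of fun i l : Fin j => ft A (ex (t i)) (ex (t l))⁻¹).det) (box j) :=
    (rm_G_cont (K := fun φ ψ => ft A (ex φ) (ex ψ)⁻¹) (sd_ft_cont hA) j).continuousOn.integrableOn_compact
      isCompact_Icc
  have i2 : IntegrableOn (fun t : Fin j → ℝ => (Matrix.of fun i l : Fin j =>
          ft (fun k l => A k l + h k * g l) (ex (t i)) (ex (t l))⁻¹).det) (box j) :=
    (rm_G_cont (K := fun φ ψ => ft (fun k l => A k l + h k * g l) (ex φ) (ex ψ)⁻¹)
      (sd_ft_cont hA') j).continuousOn.integrableOn_compact isCompact_Icc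
  rw [integral_sub i1 i2, mul_sub, ← sum_det_eq hA, ← sum_det_eq hA',
    ← (sd_det_summable hA j).tsum_sub (sd_det_summable hA' j)]

theorem Fdet_eq_Kdet {A : ℤ → ℤ → ℂ} (hA : LL A) :
    Fdet A = Kdet fun φ ψ => ft A (ex φ) (ex ψ)⁻¹ := by
  rw [Fdet, Kdet]
  apply tsum_congr
  intro j
  rw [sum_det_eq hA, mul_assoc]

theorem Fbord_eq_Kbd {A : ℤ → ℤ → ℂ} (hA : LL A) {h g : ℤ → ℂ} (hh : LV h) (hg : LV g) :
    Fbord A h g = Kbd (fun φ ψ => ft A (ex φ) (ex ψ)⁻¹) (fun φ => fv h (ex φ))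
      (fun ψ => fv g (ex ψ)⁻¹) := by
  rw [Fbord, Kbd]
  apply tsum_congr
  intro j
  rw [sum_bdet_eq hA hh hg, mul_assoc]

end

end IsingS2
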