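import Pool.Agent.Helper98.IS.Symbols
import Pool.Agent.Helper98.IS.SymbolsB
import Pool.Agent.Helper98.IS.Lim1
import Pool.Agent.Helper98.IS.FT
import Pool.Agent.Helper98.IS.FTY
import Pool.Agent.Helper98.IS.SumDet
import Pool.Agent.Helper98.IS.Comp
import Pool.Agent.Helper98.IS.KEval

/-!
# IS-36: the second limit theorem

The Fredholm series of `-P` and its bordered version are expressed by the form factor series.
-/

namespace IsingS2

open Complex Set MeasureTheory Filter Topology IsingNB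
open scoped Real Matrix

private theorem two_lt_cc_aux {v : ℝ} (hv : 1 < v) : 2 < cc v := by
  unfold cc
  have h0 : 0 < v := by linarith
  have h1 : v + 1 / v - 2 = (v - 1) ^ 2 / v := by
    field_simp
    ring
  have h2 : 0 < (v - 1) ^ 2 / v := by
    apply div_pos _ h0
    have : 0 < v - 1 := by linarith
    positivity
  linarith

private theorem norm_ex_aux (φ : ℝ) : ‖ex φ‖ = 1 := by
  unfold ex
  rw [mul_comm]
  exact Complex.norm_exp_ofReal_mul_I φ

private theorem ex_ne_aux (φ : ℝ) : ex φ ≠ 0 := Complex.exp_ne_zero _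

private theorem ex_cont_aux : Continuous ex := by
  unfold ex
  fun_prop

private theorem LL_neg_aux {A : ℤ → ℤ → ℂ} (hA : LL A) : LL fun k l => -A k l := by
  obtain ⟨C, q, h1, h2, h3, h4⟩ := hA
  exact ⟨C, q, h1, h2, h3, fun k l => by rw [norm_neg]; exact h4 k l⟩

/-- A diagonal similarity does not change a determinant. -/
private theorem det_conj_aux {j : ℕ} (F : Fin j → ℂ) (hF : ∀ i, F i ≠ 0)
    (K : Matrix (Fin j) (Fin j) ℂ) :
    (Matrix.of fun i l => F i * K i l / F l).det = K.det := by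
  have h1 : (Matrix.of fun i l => F i * K i l / F l) =
      Matrix.diagonal F * K * Matrix.diagonal (fun l => (F l)⁻¹) := by
    ext i l
    rw [Matrix.mul_diagonal, Matrix.diagonal_mul]
    simp [div_eq_mul_inv]
  rw [h1, Matrix.det_mul, Matrix.det_mul, Matrix.det_diagonal, Matrix.det_diagonal]
  have h2 : (∏ i, F i) * ∏ i, (F i)⁻¹ = 1 := by
    rw [← Finset.prod_mul_distrib]
    apply Finset.prod_eq_one
    intro i _
    exact mul_inv_cancel₀ (hF i)
  calc (∏ i, F i) * K.det * ∏ i, (F i)⁻¹ = K.det * ((∏ i, F i) * ∏ i, (F i)⁻¹) := by ring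
    _ = K.det := by rw [h2, mul_one]

/-- The same for bordered determinants. -/
private theorem bdet_conj_aux {j : ℕ} (F : Fin j → ℂ) (hF : ∀ i, F i ≠ 0)
    (K : Matrix (Fin j) (Fin j) ℂ) (u w : Fin j → ℂ) (a b : ℂ) :
    bdet (Matrix.of fun i l => F i * K i l / F l) (fun i => a * (F i * u i))
      (fun l => b * (w l / F l)) = a * b * bdet K u w := by
  unfold bdet
  have h1 : Matrix.fromBlocks (Matrix.of fun i l => F i * K i l / F l)
      (Matrix.of fun i (_ : Unit) => a * (F i * u i))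
      (Matrix.of fun (_ : Unit) l => b * (w l / F l)) (0 : Matrix Unit Unit ℂ) =
      Matrix.diagonal (Sum.elim F (fun _ => b)) *
      Matrix.fromBlocks K (Matrix.of fun i (_ : Unit) => u i) (Matrix.of fun (_ : Unit) l => w l)
        (0 : Matrix Unit Unit ℂ) * Matrix.diagonal (Sum.elim (fun l => (F l)⁻¹) (fun _ => a)) := by
    ext i l
    rw [Matrix.mul_diagonal, Matrix.diagonal_mul]
    rcases i with i | i <;> rcases l with l | l
    · simp [div_eq_mul_inv]
    · simp [mul_comm, mul_left_comm]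
    · simp [div_eq_mul_inv, mul_assoc]
    · simp
  rw [h1, Matrix.det_mul, Matrix.det_mul, Matrix.det_diagonal, Matrix.det_diagonal]
  rw [Fintype.prod_sum_type, Fintype.prod_sum_type]
  simp only [Sum.elim_inl, Sum.elim_inr, Finset.univ_unique, Finset.prod_const,
    Finset.card_singleton, pow_one]
  have h2 : (∏ i, F i) * ∏ i, (F i)⁻¹ = 1 := by
    rw [← Finset.prod_mul_distrib]
    apply Finset.prod_eq_one
    intro i _
    exact mul_inv_cancel₀ (hF i)
  linear_combination (a * b * (Matrix.fromBlocks K (Matrix.of fun i (_ : Unit) => u i)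
    (Matrix.of fun (_ : Unit) l => w l) (0 : Matrix Unit Unit ℂ)).det) * h2

/-- the conjugating factor `w^N x^M μ` -/
private noncomputable def Fa (v : ℝ) (M : ℤ) (N : ℕ) (φ : ℝ) : ℂ :=
  ww (cc v) (ex φ) ^ N * ex φ ^ M * mu v (ex φ)

private theorem Fa_ne {v : ℝ} (hv : 1 < v) (M : ℤ) (N : ℕ) (φ : ℝ) : Fa v M N φ ≠ 0 := by
  unfold Fa
  exact mul_ne_zero (mul_ne_zero (pow_ne_zero _ (ww_ne (two_lt_cc_aux hv) (norm_ex_aux φ)))
    (zpow_ne_zero _ (ex_ne_aux φ))) (mu_ne hv (norm_ex_aux φ))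

private theorem ft_negP0_aux {v : ℝ} (hv : 1 < v) (M : ℤ) (N : ℕ) (φ ψ : ℝ) :
    ft (fun k l => -P0 v M N k l) (ex φ) (ex ψ)⁻¹ =
      Fa v M N φ * (-kc (kk (cc v) M N) (kk (cc v) M N) φ ψ) / Fa v M N ψ := by
  rw [ft_neg, ft_P0 hv]
  unfold Fa
  ring

theorem Fdet_P0 {v : ℝ} (hv : 1 < v) (M : ℤ) (N : ℕ) :
    (Fdet fun k l => -P0 v M N k l) = Deven M N (cc v) ^ 2 := by
  have hc := two_lt_cc_aux hv
  rw [Fdet_eq_Kdet (LL_neg_aux (P0_LL hv M N))]
  have h1 : (Kdet fun φ ψ => ft (fun k l => -P0 v M N k l) (ex φ) (ex ψ)⁻¹) =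
      Kdet fun φ ψ => -kc (kk (cc v) M N) (kk (cc v) M N) φ ψ := by
    unfold Kdet
    apply tsum_congr
    intro j
    congr 1
    congr 1
    funext t
    rw [← det_conj_aux (fun i => Fa v M N (t i)) (fun i => Fa_ne hv M N (t i))
      (Matrix.of fun i l : Fin j => -kc (kk (cc v) M N) (kk (cc v) M N) (t i) (t l))]
    congr 1
    ext i l
    simp only [Matrix.of_apply]
    exact ft_negP0_aux hv M N (t i) (t l)
  rw [h1, Kdet_comp (kk_cont hc M N), Kdet_kk hc, Kdet_neg_kk hc, sq]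

private theorem Ann_cont_aux {f : ℂ → ℂ} (hf : Ann f) : Continuous fun φ : ℝ => f (ex φ) := by
  obtain ⟨q, h1, h2, h3⟩ := hf
  have h4 : ContinuousOn f {x | q < ‖x‖ ∧ ‖x‖ < q⁻¹} := h3.continuousOn
  apply h4.comp_continuous ex_cont_aux
  intro φ
  simp only [Set.mem_setOf_eq, norm_ex_aux]
  exact ⟨h2, (one_lt_inv₀ h1).2 h2⟩

private theorem rh_cont_aux {c : ℝ} (hc : 2 < c) (M : ℤ) (N : ℕ) :
    Continuous fun φ : ℝ => rh c M N (ex φ) / ex φ := by
  unfold rh
  have h1 := Ann_cont_aux (ww_ann hc)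
  have h2 := Ann_cont_aux (sx_ann hc)
  have h3 : Continuous fun φ : ℝ => ex φ ^ M :=
    ex_cont_aux.zpow₀ M fun φ => Or.inl (ex_ne_aux φ)
  exact ((h3.mul (h1.pow N)).mul h2).div ex_cont_aux ex_ne_aux

private theorem s1_c1_aux {v : ℝ} (hv : 1 < v) : 2 * (s1 v * c1 v) = v := by
  unfold s1 c1 Cs
  have h0 : 1 ≤ Real.sqrt (1 + v ^ 2) := by
    rw [Real.one_le_sqrt]
    nlinarith [sq_nonneg v]
  rw [← Real.sqrt_mul (by linarith)]
  have h1 : (Real.sqrt (1 + v ^ 2) - 1) / 2 * ((Real.sqrt (1 + v ^ 2) + 1) / 2) = (v / 2) ^ 2 := by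
    have h2 : Real.sqrt (1 + v ^ 2) ^ 2 = 1 + v ^ 2 := Real.sq_sqrt (by positivity)
    nlinarith
  rw [h1, Real.sqrt_sq (by linarith)]
  ring

private theorem s1_pos_aux {v : ℝ} (hv : 1 < v) : 0 < s1 v := by
  unfold s1 Cs
  apply Real.sqrt_pos.2
  have h0 : 1 < Real.sqrt (1 + v ^ 2) := by
    rw [Real.lt_sqrt (by norm_num)]
    nlinarith
  linarith

private theorem c1_pos_aux {v : ℝ} (hv : 1 < v) : 0 < c1 v := by
  unfold c1 Cs
  apply Real.sqrt_pos.2
  have := Real.sqrt_nonneg (1 + v ^ 2)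
  linarith

private theorem fv_g0_aux {v : ℝ} (hv : 1 < v) (M : ℤ) (N : ℕ) (φ : ℝ) :
    fv (g0 v) (ex φ)⁻¹ = (c1 v : ℂ) * (rh (cc v) M N (ex φ) / ex φ / Fa v M N φ) := by
  have hx := norm_ex_aux φ
  have hc := two_lt_cc_aux hv
  rw [fv_g0 hv hx]
  have h1 := mu_mul_mu hv hx
  have h2 := mu_ne hv hx
  have h3 := ww_ne hc hx
  have h4 : 1 - ww (cc v) (ex φ) ^ 2 ≠ 0 := by
    have := gx_den hc hx hx
    rwa [← sq] at this
  have h5 : ex φ ≠ 0 := ex_ne_aux φ
  have hs : (s1 v : ℂ) ≠ 0 := by exact_mod_cast (s1_pos_aux hv).ne'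
  have hcc : (c1 v : ℂ) ≠ 0 := by exact_mod_cast (c1_pos_aux hv).ne'
  have ht : (tt v : ℂ) = s1 v / c1 v := by
    unfold tt
    push_cast
    rfl
  have h6 : mu v (ex φ)⁻¹ = ww (cc v) (ex φ) ^ 2 / (tt v * (1 - ww (cc v) (ex φ) ^ 2)) /
      mu v (ex φ) := by
    rw [← h1]
    field_simp
  rw [h6, ht]
  unfold Fa rh sx
  have h7 : ex φ ^ M ≠ 0 := zpow_ne_zero _ h5
  have h8 : ww (cc v) (ex φ) ^ N ≠ 0 := pow_ne_zero _ h3
  field_simp

theorem Fbord_P0 {v : ℝ} (hv : 1 < v) (M : ℤ) (N : ℕ) :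
    Fbord (fun k l => -P0 v M N k l) (h0 v M N) (g0 v) =
      v * Deven M N (cc v) * Dodd M N (cc v) := by
  have hc := two_lt_cc_aux hv
  rw [Fbord_eq_Kbd (LL_neg_aux (P0_LL hv M N)) (h0_LV hv M N) (g0_LV hv)]
  have h1 : Kbd (fun φ ψ => ft (fun k l => -P0 v M N k l) (ex φ) (ex ψ)⁻¹)
      (fun φ => fv (h0 v M N) (ex φ)) (fun ψ => fv (g0 v) (ex ψ)⁻¹) =
      (-(2 * s1 v) * c1 v : ℂ) * Kbd (fun φ ψ => -kc (kk (cc v) M N) (kk (cc v) M N) φ ψ) ex
        (fun φ => rh (cc v) M N (ex φ) / ex φ) := by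
    unfold Kbd
    rw [← tsum_mul_left]
    apply tsum_congr
    intro j
    have h2 : ∀ t : Fin j → ℝ,
        bdet (Matrix.of fun i l : Fin j =>
            ft (fun k l => -P0 v M N k l) (ex (t i)) (ex (t l))⁻¹)
          (fun i => fv (h0 v M N) (ex (t i))) (fun i => fv (g0 v) (ex (t i))⁻¹) =
        (-(2 * s1 v) * c1 v : ℂ) *
          bdet (Matrix.of fun i l : Fin j =>
            -kc (kk (cc v) M N) (kk (cc v) M N) (t i) (t l)) (fun i => ex (t i))
            (fun i => rh (cc v) M N (ex (t i)) / ex (t i)) := by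
      intro t
      rw [← bdet_conj_aux (fun i => Fa v M N (t i)) (fun i => Fa_ne hv M N (t i))]
      congr 1
      · ext i l
        simp only [Matrix.of_apply]
        exact ft_negP0_aux hv M N (t i) (t l)
      · funext i
        rw [fv_h0 hv M N (norm_ex_aux (t i))]
        unfold Fa
        ring
      · funext i
        exact fv_g0_aux hv M N (t i)
    simp_rw [h2]
    rw [integral_const_mul]
    ring
  rw [h1]
  have h3 := Kbd_comp (kk_cont hc M N) ex_cont_aux (rh_cont_aux hc M N)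
  rw [Kdet_kk hc, Kdet_neg_kk hc] at h3
  have h4 := Kbd_kk hc M N
  have h5 : (2 * (s1 v * c1 v) : ℂ) = v := by exact_mod_cast s1_c1_aux hv
  linear_combination (-(s1 v : ℂ) * c1 v) * h3 + (-(s1 v : ℂ) * c1 v * Deven M N (cc v)) * h4 +
    (Deven M N (cc v) * Dodd M N (cc v)) * h5

end IsingS2
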