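import Pool.Agent.Helper98.IS.Defs2

/-!
# IS-05: Perron-Frobenius for symmetric matrices with positive entries (helper87)
-/

set_option autoImplicit false

namespace IsingS2

open Complex Set MeasureTheory Filter Topology IsingNB
open scoped Real Matrix

noncomputable section

/-- real spectral theorem in the form used below -/
private theorem pf_spectral {ι : Type*} [Fintype ι] [DecidableEq ι] (V : Matrix ι ι ℝ)
    (hs : V.IsSymm) : ∃ (U : Matrix ι ι ℝ) (l : ι → ℝ), U * Uᵀ = 1 ∧ Uᵀ * U = 1 ∧
      V = U * Matrix.diagonal l * Uᵀ := by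
  have hA : V.IsHermitian := by
    rw [Matrix.IsHermitian, Matrix.conjTranspose_eq_transpose_of_trivial]
    exact hs
  refine ⟨(hA.eigenvectorUnitary : Matrix ι ι ℝ), hA.eigenvalues, ?_, ?_, ?_⟩
  · have := Unitary.coe_mul_star_self hA.eigenvectorUnitary
    rw [Unitary.coe_star, Matrix.star_eq_conjTranspose, Matrix.conjTranspose_eq_transpose_of_trivial] at this
    exact this
  · have := Unitary.coe_star_mul_self hA.eigenvectorUnitary
    rw [Matrix.star_eq_conjTranspose, Matrix.conjTranspose_eq_transpose_of_trivial] at this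
    exact this
  · have := hA.spectral_theorem
    rw [Unitary.conjStarAlgAut_apply] at this
    rw [Matrix.star_eq_conjTranspose, Matrix.conjTranspose_eq_transpose_of_trivial] at this
    exact this

private theorem pf_entry {ι : Type*} [Fintype ι] [DecidableEq ι] (U : Matrix ι ι ℝ) (l : ι → ℝ)
    (i j : ι) : (U * Matrix.diagonal l * Uᵀ) i j = ∑ a, U i a * l a * U j a := by
  rw [Matrix.mul_apply]
  refine Finset.sum_congr rfl fun a _ => ?_
  rw [Matrix.mul_diagonal, Matrix.transpose_apply]

private theorem pf_pow {ι : Type*} [Fintype ι] [DecidableEq ι] {U : Matrix ι ι ℝ} {l : ι → ℝ}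
    (h2 : Uᵀ * U = 1) (k : ℕ) : U * Uᵀ = 1 →
    (U * Matrix.diagonal l * Uᵀ) ^ k = U * Matrix.diagonal (fun a => l a ^ k) * Uᵀ := by
  intro h1
  induction k with
  | zero =>
    simp only [pow_zero]
    rw [show (Matrix.diagonal fun _ : ι => (1 : ℝ)) = 1 from Matrix.diagonal_one, mul_one, h1]
  | succ k ih =>
    rw [pow_succ, ih]
    have e : U * Matrix.diagonal (fun a => l a ^ k) * Uᵀ * (U * Matrix.diagonal l * Uᵀ) =
        U * Matrix.diagonal (fun a => l a ^ k) * (Uᵀ * U) * Matrix.diagonal l * Uᵀ := by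
      simp only [mul_assoc]
    rw [e, h2, mul_one, mul_assoc U, Matrix.diagonal_mul_diagonal]
    simp only [pow_succ]

/-- norm bound -/
private theorem pf_bound {ι : Type*} [Fintype ι] [DecidableEq ι] {U : Matrix ι ι ℝ} {l : ι → ℝ}
    (h1 : U * Uᵀ = 1) (h2 : Uᵀ * U = 1) {Λ : ℝ} (hl : ∀ a, |l a| ≤ Λ) (x : ι → ℝ) :
    ∑ i, ((U * Matrix.diagonal l * Uᵀ).mulVec x i) ^ 2 ≤ Λ ^ 2 * ∑ i, x i ^ 2 := by
  have iso : ∀ y : ι → ℝ, ∑ i, (U.mulVec y i) ^ 2 = ∑ i, y i ^ 2 := by
    intro y
    have e1 : ∀ z : ι → ℝ, ∑ i, z i ^ 2 = z ⬝ᵥ z := by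
      intro z
      simp only [dotProduct, sq]
    rw [e1, e1, Matrix.dotProduct_mulVec, Matrix.vecMul_mulVec, h2, Matrix.vecMul_one]
  have iso' : ∀ y : ι → ℝ, ∑ i, (Uᵀ.mulVec y i) ^ 2 = ∑ i, y i ^ 2 := by
    intro y
    rw [← iso, Matrix.mulVec_mulVec, h1, Matrix.one_mulVec]
  rw [← Matrix.mulVec_mulVec, ← Matrix.mulVec_mulVec, iso, ← iso' x, Finset.mul_sum]
  refine Finset.sum_le_sum fun i _ => ?_
  rw [Matrix.mulVec_diagonal, mul_pow]
  apply mul_le_mul_of_nonneg_right _ (sq_nonneg _)
  rw [← sq_abs]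
  exact pow_le_pow_left₀ (abs_nonneg _) (hl i) 2

theorem exists_PF {ι : Type*} [Fintype ι] [Nonempty ι] [DecidableEq ι] (V : Matrix ι ι ℝ)
    (hs : V.IsSymm) (hp : ∀ i j, 0 < V i j) :
    ∃ Ω Λ, PFvec V Ω Λ ∧
      ∀ i j, Tendsto (fun k : ℕ => (V ^ k) i j / Λ ^ k) atTop (𝓝 (Ω i * Ω j)) := by
  obtain ⟨U, l, h1, h2, hV⟩ := pf_spectral V hs
  obtain ⟨a0, -, ha0⟩ := Finset.exists_max_image Finset.univ (fun a => |l a|)
    Finset.univ_nonempty
  set Λ : ℝ := |l a0| with hΛ
  have hl : ∀ a, |l a| ≤ Λ := fun a => ha0 a (Finset.mem_univ a)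
  have hb : ∀ x : ι → ℝ, ∑ i, (V.mulVec x i) ^ 2 ≤ Λ ^ 2 * ∑ i, x i ^ 2 := by
    intro x
    rw [hV]
    exact pf_bound h1 h2 hl x
  -- the columns of U are orthonormal eigenvectors
  have horth : ∀ a b, ∑ i, U i a * U i b = if a = b then 1 else 0 := by
    intro a b
    have := congrFun (congrFun h2 a) b
    rw [Matrix.mul_apply, Matrix.one_apply] at this
    simpa only [Matrix.transpose_apply] using this
  have heig : ∀ a i, ∑ j, V i j * U j a = l a * U i a := by
    intro a i
    have e : V * U = U * Matrix.diagonal l := by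
      rw [hV, mul_assoc, h2, mul_one]
    have := congrFun (congrFun e i) a
    rw [Matrix.mul_apply, Matrix.mul_diagonal] at this
    rw [this, mul_comm]
  have key : ∀ a, |l a| = Λ → 0 < Λ ∧ (∀ i, 0 < |U i a|) ∧ (∀ i, ∑ j, V i j * |U j a| = Λ * |U i a|) ∧
      l a = Λ ∧ ((∀ i, U i a = |U i a|) ∨ (∀ i, U i a = -|U i a|)) := by
    intro a ha
    have hn : ∑ i, |U i a| ^ 2 = 1 := by
      have := horth a a
      rw [if_pos rfl] at this
      rw [← this]
      exact Finset.sum_congr rfl fun i _ => by rw [sq_abs, sq]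
    have hge : ∀ i, Λ * |U i a| ≤ ∑ j, V i j * |U j a| := by
      intro i
      rw [← ha, ← abs_mul, ← heig a i]
      refine (Finset.abs_sum_le_sum_abs _ _).trans (le_of_eq ?_)
      exact Finset.sum_congr rfl fun j _ => by rw [abs_mul, abs_of_pos (hp i j)]
    have hΛ0 : 0 ≤ Λ := by rw [← ha]; exact abs_nonneg _
    have hsum := hb (fun j => |U j a|)
    rw [hn, mul_one] at hsum
    have heq : ∀ i, ∑ j, V i j * |U j a| = Λ * |U i a| := by
      by_contra hcon
      push Not at hcon
      obtain ⟨i, hi⟩ := hcon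
      have hlt : Λ * |U i a| < ∑ j, V i j * |U j a| := lt_of_le_of_ne (hge i) (Ne.symm hi)
      have : Λ ^ 2 < ∑ i, (V.mulVec (fun j => |U j a|) i) ^ 2 := by
        calc Λ ^ 2 = ∑ i, (Λ * |U i a|) ^ 2 := by
              simp only [mul_pow]
              rw [← Finset.mul_sum, hn, mul_one]
          _ < _ := by
              apply Finset.sum_lt_sum
              · intro j _
                exact pow_le_pow_left₀ (mul_nonneg hΛ0 (abs_nonneg _)) (hge j) 2
              · exact ⟨i, Finset.mem_univ i,
                  pow_lt_pow_left₀ hlt (mul_nonneg hΛ0 (abs_nonneg _)) two_ne_zero⟩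
      linarith
    obtain ⟨i0, hi0⟩ : ∃ i, U i a ≠ 0 := by
      by_contra hcon
      push Not at hcon
      simp only [hcon, abs_zero] at hn
      simp at hn
    have hpos : ∀ i, 0 < ∑ j, V i j * |U j a| := by
      intro i
      apply Finset.sum_pos'
      · intro j _
        exact mul_nonneg (hp i j).le (abs_nonneg _)
      · exact ⟨i0, Finset.mem_univ _, mul_pos (hp i i0) (abs_pos.2 hi0)⟩
    have hΛpos : 0 < Λ := by
      have := hpos i0
      rw [heq i0] at this
      exact (pos_iff_pos_of_mul_pos this).2 (abs_pos.2 hi0)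
    have hUpos : ∀ i, 0 < |U i a| := by
      intro i
      have := hpos i
      rw [heq i] at this
      exact (pos_iff_pos_of_mul_pos this).1 hΛpos
    -- all entries have the same sign
    have hsign : (∀ i, U i a = |U i a|) ∨ (∀ i, U i a = -|U i a|) := by
      have h3 : |∑ j, V i0 j * U j a| = ∑ j, V i0 j * |U j a| := by
        rw [heig a i0, heq i0, abs_mul, ha]
      rcases le_total 0 (∑ j, V i0 j * U j a) with h4 | h4
      · left
        rw [abs_of_nonneg h4] at h3
        have h5 : ∑ j, V i0 j * (|U j a| - U j a) = 0 := by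
          simp only [mul_sub, Finset.sum_sub_distrib]
          rw [h3, sub_self]
        rw [Finset.sum_eq_zero_iff_of_nonneg (fun j _ =>
          mul_nonneg (hp i0 j).le (sub_nonneg.2 (le_abs_self _)))] at h5
        intro i
        have h6 := h5 i (Finset.mem_univ i)
        rcases mul_eq_zero.1 h6 with h7 | h7
        · exact absurd h7 (hp i0 i).ne'
        · linarith
      · right
        rw [abs_of_nonpos h4] at h3
        have h5 : ∑ j, V i0 j * (|U j a| + U j a) = 0 := by
          simp only [mul_add, Finset.sum_add_distrib]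
          linarith
        rw [Finset.sum_eq_zero_iff_of_nonneg (fun j _ =>
          mul_nonneg (hp i0 j).le (by have := neg_abs_le (U j a); linarith))] at h5
        intro i
        have h6 := h5 i (Finset.mem_univ i)
        rcases mul_eq_zero.1 h6 with h7 | h7
        · exact absurd h7 (hp i0 i).ne'
        · linarith
    refine ⟨hΛpos, hUpos, heq, ?_, hsign⟩
    have h7 := heig a i0
    have h8 := heq i0
    have h10 : l a * U i0 a = Λ * U i0 a := by
      rw [← h7]
      rcases hsign with h9 | h9
      · rw [h9 i0, ← h8]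
        exact Finset.sum_congr rfl fun j _ => by rw [← h9 j]
      · rw [h9 i0, mul_neg, ← h8, ← Finset.sum_neg_distrib]
        refine Finset.sum_congr rfl fun j _ => ?_
        rw [← mul_neg, ← h9 j]
    exact mul_right_cancel₀ hi0 h10
  obtain ⟨hΛ0, hUpos, hev, hla, hsign⟩ := key a0 rfl
  have hsq : ∀ i j, U i a0 * U j a0 = |U i a0| * |U j a0| := by
    intro i j
    rcases hsign with h | h
    · rw [← h i, ← h j]
    · have e1 := h i
      have e2 := h j
      rw [e1, e2]
      simp only [abs_neg, abs_abs]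
      ring
  have hlt : ∀ a, a ≠ a0 → |l a| < Λ := by
    intro a ha
    refine lt_of_le_of_ne (hl a) fun heq => ?_
    obtain ⟨-, hUpos', -, -, hsign'⟩ := key a heq
    have h3 := horth a a0
    rw [if_neg ha] at h3
    have h4 : 0 < ∑ i, |U i a| * |U i a0| :=
      Finset.sum_pos (fun i _ => mul_pos (hUpos' i) (hUpos i)) Finset.univ_nonempty
    have h5 : (∑ i, U i a * U i a0) = ∑ i, |U i a| * |U i a0| ∨
        (∑ i, U i a * U i a0) = -∑ i, |U i a| * |U i a0| := by
      rcases hsign' with h | h <;> rcases hsign with h' | h'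
      · left
        exact Finset.sum_congr rfl fun i _ => by rw [← h i, ← h' i]
      · right
        rw [← Finset.sum_neg_distrib]
        refine Finset.sum_congr rfl fun i _ => ?_
        rw [← mul_neg, ← h i, ← h' i]
      · right
        rw [← Finset.sum_neg_distrib]
        refine Finset.sum_congr rfl fun i _ => ?_
        rw [← neg_mul, ← h i, ← h' i]
      · left
        refine Finset.sum_congr rfl fun i _ => ?_
        have e1 := h i
        have e2 := h' i
        rw [e1, e2]
        simp only [abs_neg, abs_abs]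
        ring
    rcases h5 with h5 | h5 <;> rw [h3] at h5 <;> linarith
  refine ⟨fun i => |U i a0|, Λ, ⟨hUpos, ?_, hΛ0, ?_, hb⟩, ?_⟩
  · have := horth a0 a0
    rw [if_pos rfl] at this
    rw [← this]
    exact Finset.sum_congr rfl fun i _ => by rw [sq_abs, sq]
  · funext i
    exact hev i
  · intro i j
    have hpow : ∀ k : ℕ, (V ^ k) i j / Λ ^ k = ∑ a, U i a * (l a / Λ) ^ k * U j a := by
      intro k
      rw [hV, pf_pow h2 k h1, pf_entry, Finset.sum_div]
      refine Finset.sum_congr rfl fun a _ => ?_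
      rw [div_pow]
      ring
    simp only [hpow]
    rw [← hsq i j]
    have hlim : U i a0 * U j a0 = ∑ a, U i a * (if a = a0 then 1 else 0) * U j a := by
      rw [Finset.sum_eq_single a0]
      · rw [if_pos rfl, mul_one]
      · intro b _ hb
        rw [if_neg hb, mul_zero, zero_mul]
      · intro h
        exact absurd (Finset.mem_univ a0) h
    rw [hlim]
    apply tendsto_finsetSum
    intro a _
    have hk : Tendsto (fun k : ℕ => (l a / Λ) ^ k) atTop (𝓝 (if a = a0 then 1 else 0)) := by
      by_cases ha : a = a0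
      · have e1 : l a / Λ = 1 := by
          rw [ha, hla, div_self hΛ0.ne']
        rw [if_pos ha, e1]
        simp only [one_pow]
        exact tendsto_const_nhds
      · rw [if_neg ha]
        apply tendsto_pow_atTop_nhds_zero_of_abs_lt_one
        rw [abs_div, abs_of_pos hΛ0, div_lt_one hΛ0]
        exact hlt a ha
    exact (hk.const_mul _).mul_const _

end

end IsingS2
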