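import Pool.Agent.Helper98.IS.Transfer
import Pool.Agent.Helper98.IS.PF

/-!
# IS-06: the limit of infinitely long strips (helper55)
-/

namespace IsingS2

open Complex Set MeasureTheory Filter Topology IsingNB
open scoped Real Matrix

noncomputable section

/-- Limit of ratios of matrix elements of high powers of a positive matrix. -/
private theorem strip_aux {ι : Type*} [Fintype ι] [Nonempty ι] [DecidableEq ι] {V : Matrix ι ι ℝ}
    {Ω : ι → ℝ} {Λ : ℝ} (hPF : PFvec V Ω Λ)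
    (hlim : ∀ i j, Tendsto (fun k : ℕ => (V ^ k) i j / Λ ^ k) atTop (𝓝 (Ω i * Ω j)))
    {l : ι → ℝ} (hl : ∀ i, 0 < l i) (A : Matrix ι ι ℝ) (p q r : ℕ → ℕ) (C : ℕ)
    (hp : Tendsto p atTop atTop) (hq : Tendsto q atTop atTop) (hr : Tendsto r atTop atTop)
    (h : ∀ᶠ k in atTop, p k + q k + C = r k) :
    Tendsto (fun k => (l ⬝ᵥ (V ^ p k * A * V ^ q k).mulVec l) / (l ⬝ᵥ (V ^ r k).mulVec l)) atTop
      (𝓝 (Ω ⬝ᵥ A.mulVec Ω / Λ ^ C)) := by
  have hΛ := hPF.Λ_pos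
  set P : Matrix ι ι ℝ := Matrix.vecMulVec Ω Ω with hP
  have hT : Tendsto (fun k : ℕ => (Λ ^ k)⁻¹ • V ^ k) atTop (𝓝 P) := by
    refine tendsto_pi_nhds.mpr fun i => tendsto_pi_nhds.mpr fun j => ?_
    have h1 := hlim i j
    refine h1.congr ?_
    intro k
    rw [Matrix.smul_apply, smul_eq_mul, div_eq_inv_mul]
  have hlΩ : 0 < l ⬝ᵥ Ω := by
    unfold dotProduct
    apply Finset.sum_pos
    · intro i _
      exact mul_pos (hl i) (hPF.pos i)
    · exact Finset.univ_nonempty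
  have hPmul : P.mulVec l = (l ⬝ᵥ Ω) • Ω := by
    funext i
    rw [hP, Matrix.vecMulVec_mulVec]
    rw [dotProduct_comm]
    simp [mul_comm]
  have hPl : l ⬝ᵥ P.mulVec l = (l ⬝ᵥ Ω) ^ 2 := by
    rw [hPmul, dotProduct_smul, smul_eq_mul, sq]
  have hPAP : l ⬝ᵥ (P * A * P).mulVec l = (l ⬝ᵥ Ω) ^ 2 * (Ω ⬝ᵥ A.mulVec Ω) := by
    rw [← Matrix.mulVec_mulVec, ← Matrix.mulVec_mulVec, hPmul, Matrix.mulVec_smul,
      Matrix.mulVec_smul, dotProduct_smul, smul_eq_mul]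
    have : P.mulVec (A.mulVec Ω) = (Ω ⬝ᵥ A.mulVec Ω) • Ω := by
      funext i
      rw [hP, Matrix.vecMulVec_mulVec]
      simp [mul_comm]
    rw [this, dotProduct_smul, smul_eq_mul]
    ring
  have hden : Tendsto (fun k => l ⬝ᵥ ((Λ ^ r k)⁻¹ • V ^ r k).mulVec l) atTop
      (𝓝 ((l ⬝ᵥ Ω) ^ 2)) := by
    rw [← hPl]
    have h1 : Continuous fun M : Matrix ι ι ℝ => l ⬝ᵥ M.mulVec l :=
      continuous_const.dotProduct (continuous_id.matrix_mulVec continuous_const)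
    exact (h1.tendsto P).comp (hT.comp hr)
  have hnum : Tendsto (fun k => (l ⬝ᵥ (((Λ ^ p k)⁻¹ • V ^ p k) * A *
      ((Λ ^ q k)⁻¹ • V ^ q k)).mulVec l) * (Λ ^ C)⁻¹) atTop
      (𝓝 ((l ⬝ᵥ Ω) ^ 2 * (Ω ⬝ᵥ A.mulVec Ω) * (Λ ^ C)⁻¹)) := by
    rw [← hPAP]
    have h1 : Continuous fun M : Matrix ι ι ℝ => l ⬝ᵥ M.mulVec l :=
      continuous_const.dotProduct (continuous_id.matrix_mulVec continuous_const)
    have h2 : Tendsto (fun k => ((Λ ^ p k)⁻¹ • V ^ p k) * A * ((Λ ^ q k)⁻¹ • V ^ q k)) atTop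
        (𝓝 (P * A * P)) := ((hT.comp hp).mul_const A).mul (hT.comp hq)
    exact ((h1.tendsto _).comp h2).mul_const _
  have hdiv := hnum.div hden (by positivity)
  have hval : (l ⬝ᵥ Ω) ^ 2 * (Ω ⬝ᵥ A.mulVec Ω) * (Λ ^ C)⁻¹ / (l ⬝ᵥ Ω) ^ 2 =
      Ω ⬝ᵥ A.mulVec Ω / Λ ^ C := by
    have h0 : (l ⬝ᵥ Ω) ≠ 0 := hlΩ.ne'
    have h1 : Λ ^ C ≠ 0 := (pow_pos hΛ C).ne'
    field_simp
  rw [hval] at hdiv
  refine hdiv.congr' ?_
  filter_upwards [h] with k hk
  have e1 : ((Λ ^ p k)⁻¹ • V ^ p k) * A * ((Λ ^ q k)⁻¹ • V ^ q k) =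
      ((Λ ^ p k)⁻¹ * (Λ ^ q k)⁻¹) • (V ^ p k * A * V ^ q k) := by
    rw [Matrix.smul_mul, Matrix.smul_mul, Matrix.mul_smul, smul_smul]
  have hp0 : Λ ^ p k ≠ 0 := (pow_pos hΛ _).ne'
  have hq0 : Λ ^ q k ≠ 0 := (pow_pos hΛ _).ne'
  have hC0 : Λ ^ C ≠ 0 := (pow_pos hΛ _).ne'
  have hrk : Λ ^ r k = Λ ^ p k * Λ ^ q k * Λ ^ C := by rw [← hk, pow_add, pow_add]
  rw [Pi.div_apply, e1, Matrix.smul_mulVec, Matrix.smul_mulVec, dotProduct_smul, dotProduct_smul,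
    smul_eq_mul, smul_eq_mul, hrk]
  generalize l ⬝ᵥ (V ^ r k).mulVec l = z
  by_cases hz : z = 0
  · rw [hz]
    simp
  · field_simp

private theorem lv_pos (plus : Bool) (K : ℝ) (n : ℕ) (σ : Fin (n + 1) → Bool) : 0 < lv plus K n σ := by
  unfold lv Av
  apply mul_pos
  · exact Real.sqrt_pos.mpr (Real.exp_pos _)
  · split_ifs
    · exact Real.exp_pos _
    · exact one_pos

private theorem Vm_isSymm (plus : Bool) (K : ℝ) (n : ℕ) : (Vm plus K n).IsSymm := by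
  ext σ τ
  simp only [Vm, Bm, Matrix.transpose_apply, Matrix.of_apply]
  have : ∀ a, sg (τ a) * sg (σ a) = sg (σ a) * sg (τ a) := fun a => mul_comm _ _
  simp only [this]
  ring

private theorem Vm_pos (plus : Bool) (K : ℝ) (n : ℕ) (σ τ : Fin (n + 1) → Bool) :
    0 < Vm plus K n σ τ := by
  simp only [Vm, Bm, Matrix.of_apply, Av]
  have h1 : 0 < Real.sqrt (Real.exp (K * ((∑ a : Fin n, sg (σ a.castSucc) * sg (σ a.succ)) +
    if plus then sg (σ 0) + sg (σ (Fin.last n)) else 0))) := Real.sqrt_pos.mpr (Real.exp_pos _)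
  have h2 : 0 < Real.sqrt (Real.exp (K * ((∑ a : Fin n, sg (τ a.castSucc) * sg (τ a.succ)) +
    if plus then sg (τ 0) + sg (τ (Fin.last n)) else 0))) := Real.sqrt_pos.mpr (Real.exp_pos _)
  have h3 := Real.exp_pos (K * ∑ a, sg (σ a) * sg (τ a))
  positivity

theorem strip_limit (plus : Bool) (K : ℝ) (L : ℕ) :
    ∃ Ω Λ, PFvec (Vm plus K (2 * L)) Ω Λ ∧
      (∀ (N : ℕ) (a b : Fin (2 * L + 1)),
        Tendsto (fun k => corr plus K (rect k L) (0, (a : ℤ) - L) (N, (b : ℤ) - L)) atTop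
          (𝓝 (Ω ⬝ᵥ (Zd (2 * L) a * Vm plus K (2 * L) ^ N * Zd (2 * L) b).mulVec Ω / Λ ^ N))) ∧
      (plus = true → ∀ (N : ℕ) (a : Fin (2 * L + 1)),
        Tendsto (fun k => mag true K (rect k L) (N, (a : ℤ) - L)) atTop
          (𝓝 (Ω ⬝ᵥ (Zd (2 * L) a).mulVec Ω))) := by
  obtain ⟨Ω, Λ, hPF, hlim⟩ := exists_PF (Vm plus K (2 * L)) (Vm_isSymm plus K (2 * L))
    (Vm_pos plus K (2 * L))
  refine ⟨Ω, Λ, hPF, ?_, ?_⟩
  · intro N a b
    have h1 := strip_aux hPF hlim (lv_pos plus K (2 * L))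
      (Zd (2 * L) a * Vm plus K (2 * L) ^ N * Zd (2 * L) b) (fun k => k) (fun k => k - N)
      (fun k => 2 * k) N tendsto_id (tendsto_sub_atTop_nat N)
      (tendsto_id.const_mul_atTop' (by norm_num)) (by
        filter_upwards [eventually_ge_atTop N] with k hk
        omega)
    refine h1.congr' ?_
    filter_upwards [eventually_ge_atTop N] with k hk
    rw [corr_rect plus K k L N hk a b]
    simp only [Matrix.mul_assoc]
  · intro hplus N a
    subst hplus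
    have h1 := strip_aux hPF hlim (lv_pos true K (2 * L))
      (Zd (2 * L) a) (fun k => k + N) (fun k => k - N)
      (fun k => 2 * k) 0 (tendsto_atTop_mono (fun k => Nat.le_add_right k N) tendsto_id)
      (tendsto_sub_atTop_nat N)
      (tendsto_id.const_mul_atTop' (by norm_num)) (by
        filter_upwards [eventually_ge_atTop N] with k hk
        omega)
    rw [pow_zero, div_one] at h1
    refine h1.congr' ?_
    filter_upwards [eventually_ge_atTop N] with k hk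
    rw [mag_rect K k L N hk a]

end

end IsingS2
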