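import Pool.Agent.Helper98.IS.Ineq
import Pool.Agent.Helper98.IS.Strip
import Pool.Agent.Helper98.IS.Spin
import Pool.Agent.Helper98.IS.Coupling
import Pool.Agent.Helper98.IS.EvenOdd
import Pool.Agent.Helper98.IS.LTvac
import Pool.Agent.Helper98.IS.YLim
import Pool.Agent.Helper98.IS.Lim1
import Pool.Agent.Helper98.IS.Lim2

/-!
# IS-43: low temperature strips
-/

namespace IsingS2

open Complex Set MeasureTheory Filter Topology IsingNB
open scoped Real Matrix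

noncomputable section

namespace LTS

lemma win_of (f : ℕ → ℕ) (M : ℤ) (hf : ∀ᶠ L : ℕ in atTop, (f L : ℤ) = L + M) :
    Tendsto (fun L : ℕ => ((2 * L + 2, f L) : ℕ × ℕ)) atTop win := by
  rw [win, tendsto_comap_iff]
  rw [tendsto_atTop]
  intro R
  filter_upwards [hf, eventually_ge_atTop (R + M.natAbs)] with L h1 h2
  show R ≤ min (f L) (2 * L + 2 - f L)
  omega

lemma κs_nonneg {v : ℝ} (hv : 1 < v) : 0 ≤ κs v := by
  have : 0 ≤ Real.arsinh v := Real.arsinh_nonneg_iff.2 (by linarith)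
  unfold κs
  linarith

lemma strip {v : ℝ} (hv : 1 < v) (M : ℤ) (N L : ℕ) (hL : M.natAbs ≤ L) :
    ∃ E mA mB : ℝ,
      Tendsto (fun k => corr true (κs v) (rect k L) (0, 0) (N, M)) atTop (𝓝 E) ∧
      Tendsto (fun k => mag true (κs v) (rect k L) (0, 0)) atTop (𝓝 mA) ∧
      Tendsto (fun k => mag true (κs v) (rect k L) (N, M)) atTop (𝓝 mB) ∧
      ((Dm v (2 * L + 2) (L + 1)).det ≠ 0 →
        (Dm v (2 * L + 2) (((L + 1 : ℕ) : ℤ) + M).toNat).det ≠ 0 →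
        E ^ 2 = mA ^ 2 * mB ^ 2 *
          (Pm v (2 * L + 2) (L + 1) (((L + 1 : ℕ) : ℤ) + M).toNat N).det ∧
        mA ^ 4 * (Pm v (2 * L + 2) (L + 1) (L + 1) 0).det = 1 ∧
        mB ^ 4 * (Pm v (2 * L + 2) (((L + 1 : ℕ) : ℤ) + M).toNat
          (((L + 1 : ℕ) : ℤ) + M).toNat 0).det = 1) := by
  obtain ⟨Ω, Λ, hP, hlim, hmag⟩ := strip_limit true (κs v) L
  have hbL : ((((L : ℤ) + M).toNat : ℕ) : ℤ) = L + M := by omega
  set bL : ℕ := ((L : ℤ) + M).toNat with hbdef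
  have hb1 : (((L + 1 : ℕ) : ℤ) + M).toNat = bL + 1 := by omega
  let a : Fin (2 * L + 1) := ⟨L, by omega⟩
  let b : Fin (2 * L + 1) := ⟨bL, by omega⟩
  have ha0 : (a : ℕ) = L := rfl
  have hb0 : (b : ℕ) = bL := rfl
  obtain ⟨Ω2, Λ2, hV, hE, hm⟩ := LT_vac hv (2 * L) hP
  refine ⟨Ω ⬝ᵥ (Zd (2 * L) a * Vm true (κs v) (2 * L) ^ N * Zd (2 * L) b).mulVec Ω / Λ ^ N,
    Ω ⬝ᵥ (Zd (2 * L) a).mulVec Ω, Ω ⬝ᵥ (Zd (2 * L) b).mulVec Ω, ?_, ?_, ?_, ?_⟩
  · have h := hlim N a b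
    rw [ha0, hb0, hbL] at h
    simpa using h
  · have h := hmag rfl 0 a
    rw [ha0] at h
    simpa using h
  · have h := hmag rfl N b
    rw [hb0, hbL] at h
    simpa using h
  · intro hda hdb
    rw [hb1] at hdb ⊢
    have hC := car_wall (2 * L + 2)
    have e1 := even_formula hv hC hV hda hdb N
    have e2 := norm_formula hv hC hV hda
    have e3 := norm_formula hv hC hV hdb
    have hE' := hE a b N
    have hA' := hm a
    have hB' := hm b
    rw [ha0, hb0] at hE'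
    rw [ha0] at hA'
    rw [hb0] at hB'
    rw [hE', hA', hB'] at e1
    rw [hA'] at e2
    rw [hB'] at e3
    refine ⟨?_, ?_, ?_⟩
    · exact_mod_cast e1
    · exact_mod_cast e2
    · exact_mod_cast e3

end LTS

open LTS

theorem LT_strip {v : ℝ} (hv : 1 < v) (M : ℤ) (N : ℕ) :
    ∃ E mA mB : ℕ → ℝ,
      (∀ᶠ L : ℕ in atTop,
        Tendsto (fun k => corr true (κs v) (rect k L) (0, 0) (N, M)) atTop (𝓝 (E L)) ∧
        Tendsto (fun k => mag true (κs v) (rect k L) (0, 0)) atTop (𝓝 (mA L)) ∧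
        Tendsto (fun k => mag true (κs v) (rect k L) (N, M)) atTop (𝓝 (mB L))) ∧
      Tendsto (fun L => (((mA L) ^ 4 : ℝ) : ℂ) * Deven 0 0 (cc v) ^ 2) atTop (𝓝 1) ∧
      Tendsto (fun L => (((mB L) ^ 4 : ℝ) : ℂ) * Deven 0 0 (cc v) ^ 2) atTop (𝓝 1) ∧
      ∃ P : ℕ → ℝ, Tendsto (fun L => ((P L : ℝ) : ℂ)) atTop (𝓝 (Deven M N (cc v) ^ 2)) ∧
        ∀ᶠ L : ℕ in atTop, E L ^ 2 = mA L ^ 2 * mB L ^ 2 * P L := by
  have hex : ∀ L : ℕ, ∃ E mA mB : ℝ, M.natAbs ≤ L →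
      Tendsto (fun k => corr true (κs v) (rect k L) (0, 0) (N, M)) atTop (𝓝 E) ∧
      Tendsto (fun k => mag true (κs v) (rect k L) (0, 0)) atTop (𝓝 mA) ∧
      Tendsto (fun k => mag true (κs v) (rect k L) (N, M)) atTop (𝓝 mB) ∧
      ((Dm v (2 * L + 2) (L + 1)).det ≠ 0 →
        (Dm v (2 * L + 2) (((L + 1 : ℕ) : ℤ) + M).toNat).det ≠ 0 →
        E ^ 2 = mA ^ 2 * mB ^ 2 *
          (Pm v (2 * L + 2) (L + 1) (((L + 1 : ℕ) : ℤ) + M).toNat N).det ∧
        mA ^ 4 * (Pm v (2 * L + 2) (L + 1) (L + 1) 0).det = 1 ∧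
        mB ^ 4 * (Pm v (2 * L + 2) (((L + 1 : ℕ) : ℤ) + M).toNat
          (((L + 1 : ℕ) : ℤ) + M).toNat 0).det = 1) := by
    intro L
    by_cases h : M.natAbs ≤ L
    · obtain ⟨E, mA, mB, h'⟩ := strip hv M N L h
      exact ⟨E, mA, mB, fun _ => h'⟩
    · exact ⟨0, 0, 0, fun h' => absurd h' h⟩
  choose E mA mB hg using hex
  have wa : Tendsto (fun L : ℕ => ((2 * L + 2, L + 1) : ℕ × ℕ)) atTop win :=
    win_of (fun L => L + 1) 1 (Eventually.of_forall fun L => by push_cast; ring)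
  have wb : Tendsto (fun L : ℕ => ((2 * L + 2, (((L + 1 : ℕ) : ℤ) + M).toNat) : ℕ × ℕ)) atTop win := by
    apply win_of _ (M + 1)
    filter_upwards [eventually_ge_atTop M.natAbs] with L hL
    omega
  have hev : ∀ᶠ L : ℕ in atTop, M.natAbs ≤ L ∧ (Dm v (2 * L + 2) (L + 1)).det ≠ 0 ∧
      (Dm v (2 * L + 2) (((L + 1 : ℕ) : ℤ) + M).toNat).det ≠ 0 := by
    filter_upwards [eventually_ge_atTop M.natAbs, wa.eventually (Dm_unit hv),
      wb.eventually (Dm_unit hv)] with L hL hda hdb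
    exact ⟨hL, hda, hdb⟩
  have lP : Tendsto (fun L : ℕ => (((Pm v (2 * L + 2) (L + 1)
      (((L + 1 : ℕ) : ℤ) + M).toNat N).det : ℝ) : ℂ)) atTop (𝓝 (Deven M N (cc v) ^ 2)) := by
    have h := (Pm_lim hv M N).comp wa
    rw [Fdet_P0 hv] at h
    exact h
  have lPA : Tendsto (fun L : ℕ => (((Pm v (2 * L + 2) (L + 1) (L + 1) 0).det : ℝ) : ℂ)) atTop
      (𝓝 (Deven 0 0 (cc v) ^ 2)) := by
    have h := (Pm_lim hv 0 0).comp wa
    rw [Fdet_P0 hv] at h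
    refine h.congr fun L => ?_
    have : (((L + 1 : ℕ) : ℤ) + 0).toNat = L + 1 := by omega
    simp only [Function.comp_apply, this]
  have lPB : Tendsto (fun L : ℕ => (((Pm v (2 * L + 2) (((L + 1 : ℕ) : ℤ) + M).toNat
      (((L + 1 : ℕ) : ℤ) + M).toNat 0).det : ℝ) : ℂ)) atTop (𝓝 (Deven 0 0 (cc v) ^ 2)) := by
    have h := (Pm_lim hv 0 0).comp wb
    rw [Fdet_P0 hv] at h
    refine h.congr fun L => ?_
    have : (((((((L + 1 : ℕ) : ℤ) + M).toNat : ℕ) : ℤ)) + 0).toNat =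
        (((L + 1 : ℕ) : ℤ) + M).toNat := by omega
    simp only [Function.comp_apply, this]
  have bound : ∀ {x : ℤ × ℤ} {L : ℕ} {m : ℝ},
      Tendsto (fun k => mag true (κs v) (rect k L) x) atTop (𝓝 m) → 0 ≤ m ∧ m ≤ 1 := by
    intro x L m h
    exact ⟨ge_of_tendsto' h fun k => mag_nonneg (κs_nonneg hv) _ _,
      le_of_tendsto' h fun k => mag_le_one _ _ _⟩
  have core : ∀ (m : ℕ → ℝ) (D : ℕ → ℝ) (d : ℂ), Tendsto (fun L => ((D L : ℝ) : ℂ)) atTop (𝓝 d) →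
      (∀ᶠ L in atTop, 0 ≤ m L ∧ m L ≤ 1) → (∀ᶠ L in atTop, m L ^ 4 * D L = 1) →
      Tendsto (fun L => (((m L) ^ 4 : ℝ) : ℂ) * d) atTop (𝓝 1) := by
    intro m D d hD hm h1
    have h2 : Tendsto (fun L => (((m L) ^ 4 : ℝ) : ℂ) * (d - (D L : ℂ))) atTop (𝓝 0) := by
      have h3 : Tendsto (fun L => d - ((D L : ℝ) : ℂ)) atTop (𝓝 0) := by
        simpa using (tendsto_const_nhds (x := d)).sub hD
      rw [tendsto_zero_iff_norm_tendsto_zero] at h3 ⊢
      refine squeeze_zero' (Eventually.of_forall fun L => norm_nonneg _) ?_ h3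
      filter_upwards [hm] with L hL
      rw [norm_mul, Complex.norm_real, Real.norm_eq_abs, abs_of_nonneg (by positivity)]
      have : m L ^ 4 ≤ 1 := pow_le_one₀ hL.1 hL.2
      exact mul_le_of_le_one_left (norm_nonneg _) this
    have h4 : Tendsto (fun L => (((m L) ^ 4 : ℝ) : ℂ) * (d - (D L : ℂ)) + 1) atTop (𝓝 1) := by
      simpa using h2.add_const 1
    refine h4.congr' ?_
    filter_upwards [h1] with L hL
    have : (((m L) ^ 4 : ℝ) : ℂ) * (D L : ℂ) = 1 := by rw [← Complex.ofReal_mul, hL]; simp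
    rw [mul_sub, this]
    ring
  refine ⟨E, mA, mB, ?_, ?_, ?_, _, lP, ?_⟩
  · filter_upwards [eventually_ge_atTop M.natAbs] with L hL
    obtain ⟨h1, h2, h3, -⟩ := hg L hL
    exact ⟨h1, h2, h3⟩
  · refine core mA _ _ lPA ?_ ?_
    · filter_upwards [eventually_ge_atTop M.natAbs] with L hL
      exact bound (hg L hL).2.1
    · filter_upwards [hev] with L hL
      exact ((hg L hL.1).2.2.2 hL.2.1 hL.2.2).2.1
  · refine core mB _ _ lPB ?_ ?_
    · filter_upwards [eventually_ge_atTop M.natAbs] with L hL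
      exact bound (hg L hL).2.2.1
    · filter_upwards [hev] with L hL
      exact ((hg L hL.1).2.2.2 hL.2.1 hL.2.2).2.2
  · filter_upwards [hev] with L hL
    exact ((hg L hL.1).2.2.2 hL.2.1 hL.2.2).1

end

end IsingS2
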