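import Pool.Agent.Helper98.IS.Defs2

/-!
# IS-03: diagonal limits and reflection of the two point function
-/

set_option autoImplicit false

namespace IsingS2

open Complex Set MeasureTheory Filter Topology IsingNB
open scoped Real Matrix

noncomputable section

theorem tendsto_diag_of_anti (f : ℕ → ℕ → ℝ) (n0 : ℕ) (_hb : ∀ k L, 0 ≤ f k L)
    (hf : ∀ k k' L L', n0 ≤ k → n0 ≤ L → k ≤ k' → L ≤ L' → f k' L' ≤ f k L) (g : ℕ → ℝ)
    (hg : ∀ L, n0 ≤ L → Tendsto (fun k => f k L) atTop (𝓝 (g L))) {G : ℝ}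
    (hG : Tendsto g atTop (𝓝 G)) : Tendsto (fun n => f n n) atTop (𝓝 G) := by
  have hlow : ∀ n, n0 ≤ n → g n ≤ f n n := fun n hn =>
    le_of_tendsto (hg n hn) (eventually_atTop.2 ⟨n, fun k hk => hf n k n n hn hn hk le_rfl⟩)
  refine tendsto_order.2 ⟨fun a ha => ?_, fun a ha => ?_⟩
  · filter_upwards [hG.eventually (eventually_gt_nhds ha), eventually_ge_atTop n0] with n hn h0
    exact lt_of_lt_of_le hn (hlow n h0)
  · obtain ⟨L, hL, hL0⟩ :=
      ((hG.eventually (eventually_lt_nhds ha)).and (eventually_ge_atTop n0)).exists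
    obtain ⟨k, hk, hk0⟩ :=
      (((hg L hL0).eventually (eventually_lt_nhds hL)).and (eventually_ge_atTop n0)).exists
    filter_upwards [eventually_ge_atTop (max k L)] with n hn
    exact lt_of_le_of_lt (hf k n L n hk0 hL0 (le_trans (le_max_left _ _) hn)
      (le_trans (le_max_right _ _) hn)) hk

theorem tendsto_diag_of_mono (f : ℕ → ℕ → ℝ) (n0 : ℕ) (hb : ∀ k L, f k L ≤ 1)
    (hf : ∀ k k' L L', n0 ≤ k → n0 ≤ L → k ≤ k' → L ≤ L' → f k L ≤ f k' L') (g : ℕ → ℝ)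
    (hg : ∀ L, n0 ≤ L → Tendsto (fun k => f k L) atTop (𝓝 (g L))) {G : ℝ}
    (hG : Tendsto g atTop (𝓝 G)) : Tendsto (fun n => f n n) atTop (𝓝 G) := by
  have h := tendsto_diag_of_anti (fun k L => 1 - f k L) n0 (fun k L => by linarith [hb k L])
    (fun k k' L L' h1 h2 h3 h4 => by linarith [hf k k' L L' h1 h2 h3 h4]) (fun L => 1 - g L)
    (fun L hL => (hg L hL).const_sub 1) (hG.const_sub 1)
  simpa using h.const_sub 1

/-- the reflection `(a, b) ↦ (-a, b)` -/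
private def rfl1 (x : ℤ × ℤ) : ℤ × ℤ := (-x.1, x.2)

private theorem rfl1_rfl1 (x : ℤ × ℤ) : rfl1 (rfl1 x) = x := by simp [rfl1]

private theorem rfl1_mem {k L : ℕ} {x : ℤ × ℤ} : rfl1 x ∈ rect k L ↔ x ∈ rect k L := by
  simp only [rfl1, rect, Finset.mem_product, Finset.mem_Icc]
  constructor <;> rintro ⟨⟨h1, h2⟩, h3⟩ <;> exact ⟨⟨by omega, by omega⟩, h3⟩

private theorem rfl1_nbr (x : ℤ × ℤ) : nbr (rfl1 x) = (nbr x).image rfl1 := by
  ext ⟨a, b⟩
  obtain ⟨c, d⟩ := x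
  simp only [nbr, rfl1, Finset.mem_insert, Finset.mem_singleton, Finset.mem_image, Prod.mk.injEq,
    Prod.exists]
  constructor
  · rintro (h | h | h | h)
    · exact ⟨c - 1, d, Or.inr (Or.inl ⟨rfl, rfl⟩), by omega, by omega⟩
    · exact ⟨c + 1, d, Or.inl ⟨rfl, rfl⟩, by omega, by omega⟩
    · exact ⟨c, d + 1, Or.inr (Or.inr (Or.inl ⟨rfl, rfl⟩)), by omega, by omega⟩
    · exact ⟨c, d - 1, Or.inr (Or.inr (Or.inr ⟨rfl, rfl⟩)), by omega, by omega⟩
  · rintro ⟨e, g, h, h1, h2⟩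
    omega

private def rflEquiv (k L : ℕ) : rect k L ≃ rect k L where
  toFun x := ⟨rfl1 x.1, rfl1_mem.2 x.2⟩
  invFun x := ⟨rfl1 x.1, rfl1_mem.2 x.2⟩
  left_inv _ := Subtype.ext (rfl1_rfl1 _)
  right_inv _ := Subtype.ext (rfl1_rfl1 _)

private theorem ext_rfl {k L : ℕ} (σ : rect k L → Bool) (y : ℤ × ℤ) :
    ext (rect k L) (σ ∘ rflEquiv k L) y = ext (rect k L) σ (rfl1 y) := by
  unfold ext
  by_cases h : y ∈ rect k L
  · rw [dif_pos h, dif_pos (rfl1_mem.2 h)]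
    rfl
  · rw [dif_neg h, dif_neg (fun h' => h (rfl1_mem.1 h'))]

private theorem rfl1_inj : Function.Injective rfl1 := fun x y h => by
  rw [← rfl1_rfl1 x, h, rfl1_rfl1]

private theorem action_rfl (plus : Bool) {k L : ℕ} (σ : rect k L → Bool) :
    action plus (rect k L) (σ ∘ rflEquiv k L) = action plus (rect k L) σ := by
  unfold action
  refine Finset.sum_nbij' rfl1 rfl1 (fun x hx => rfl1_mem.2 hx) (fun x hx => rfl1_mem.2 hx)
    (fun x _ => rfl1_rfl1 x) (fun x _ => rfl1_rfl1 x) fun x _ => ?_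
  rw [rfl1_nbr, Finset.sum_image (fun a _ b _ h => rfl1_inj h)]
  refine Finset.sum_congr rfl fun y _ => ?_
  rw [ext_rfl, ext_rfl]
  simp only [rfl1_mem]

theorem corr_reflect (plus : Bool) (K : ℝ) (k L : ℕ) (x : ℤ × ℤ) :
    corr plus K (rect k L) (0, 0) (-x.1, x.2) = corr plus K (rect k L) (0, 0) x := by
  unfold corr ev
  congr 1
  refine Fintype.sum_equiv ((rflEquiv k L).arrowCongr (Equiv.refl Bool)) _ _ fun σ => ?_
  have h1 : (((rflEquiv k L).arrowCongr (Equiv.refl Bool)) σ) = σ ∘ rflEquiv k L := rfl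
  rw [h1, action_rfl]
  beta_reduce
  rw [ext_rfl, ext_rfl]
  have h2 : rfl1 (0, 0) = (0, 0) := by simp [rfl1]
  rw [h2]
  rfl

end

end IsingS2
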