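import Pool.Agent.Helper98.IS.Ineq
import Pool.Agent.Helper98.IS.Limits
import Pool.Agent.Helper98.IS.FFBound
import Pool.Agent.Helper98.IS.DevenCont
import Pool.Agent.Helper98.IS.Coupling
import Pool.Agent.Helper98.IS.LTstrip

/-!
# IS-44: positivity and the low temperature phase
-/

namespace IsingS2

open Complex Set MeasureTheory Filter Topology IsingNB
open scoped Real Matrix

noncomputable section

namespace LTAux

lemma κs_nonneg {v : ℝ} (hv : 1 < v) : 0 ≤ κs v := by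
  have : 0 ≤ Real.arsinh v := Real.arsinh_nonneg_iff.2 (by linarith)
  unfold κs
  linarith

lemma sq_ge {v : ℝ} (hv : 1 < v) (M : ℤ) (N : ℕ) : 1 ≤ (Deven M N (cc v)).re ^ 2 := by
  obtain ⟨E, mA, mB, hlim, hA, hB, P, hP, hE⟩ := LT_strip hv M N
  have nz : ∀ (m : ℕ → ℝ) (d : ℂ), Tendsto (fun L => (((m L) ^ 4 : ℝ) : ℂ) * d) atTop (𝓝 1) →
      ∀ᶠ L in atTop, m L ≠ 0 := by
    intro m d h
    have h1 := h.eventually_ne (one_ne_zero)
    filter_upwards [h1] with L hL h0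
    apply hL
    rw [h0]
    simp
  have hP' : Tendsto P atTop (𝓝 ((Deven M N (cc v)).re ^ 2)) := by
    have h := (Complex.continuous_re.tendsto _).comp hP
    rw [Deven_real (cc_gt_two hv)] at h
    have e : (((((Deven M N (cc v)).re : ℝ) : ℂ) ^ 2)).re = (Deven M N (cc v)).re ^ 2 := by
      rw [← Complex.ofReal_pow, Complex.ofReal_re]
    rw [e] at h
    exact h
  refine ge_of_tendsto hP' ?_
  filter_upwards [hlim, nz mA _ hA, nz mB _ hB, hE] with L h1 h2 h3 h4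
  obtain ⟨c1, c2, c3⟩ := h1
  have hA0 : 0 ≤ mA L := ge_of_tendsto' c2 fun k => mag_nonneg (κs_nonneg hv) _ _
  have hB0 : 0 ≤ mB L := ge_of_tendsto' c3 fun k => mag_nonneg (κs_nonneg hv) _ _
  have hA1 : 0 < mA L := lt_of_le_of_ne hA0 (Ne.symm h2)
  have hB1 : 0 < mB L := lt_of_le_of_ne hB0 (Ne.symm h3)
  have hle : mA L * mB L ≤ E L :=
    le_of_tendsto_of_tendsto' (c2.mul c3) c1 fun k => mag_mul_le_corr (κs_nonneg hv) _ _ _
  have h5 : (mA L * mB L) ^ 2 ≤ (mA L * mB L) ^ 2 * P L := by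
    calc (mA L * mB L) ^ 2 ≤ E L ^ 2 := pow_le_pow_left₀ (by positivity) hle 2
      _ = (mA L * mB L) ^ 2 * P L := by rw [h4]; ring
  have h6 : 0 < (mA L * mB L) ^ 2 := by positivity
  by_contra hc
  push Not at hc
  nlinarith

lemma exists_v {c : ℝ} (hc : 2 < c) : ∃ v : ℝ, 1 < v ∧ cc v = c := by
  have h0 : 0 < c ^ 2 - 4 := by nlinarith
  have hs : 0 < Real.sqrt (c ^ 2 - 4) := Real.sqrt_pos.2 h0
  have hsq : Real.sqrt (c ^ 2 - 4) ^ 2 = c ^ 2 - 4 := Real.sq_sqrt h0.le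
  refine ⟨(c + Real.sqrt (c ^ 2 - 4)) / 2, by linarith, ?_⟩
  unfold cc
  have : c + Real.sqrt (c ^ 2 - 4) ≠ 0 := by positivity
  field_simp
  nlinarith

end LTAux

open LTAux

theorem Deven_ge_one {c : ℝ} (hc : 2 < c) (M : ℤ) (N : ℕ) : 1 ≤ (Deven M N c).re := by
  have hsq : ∀ c : ℝ, 2 < c → 1 ≤ (Deven M N c).re ^ 2 := by
    intro c hc
    obtain ⟨v, hv, hvc⟩ := exists_v hc
    rw [← hvc]
    exact sq_ge hv M N
  by_contra hlt
  push Not at hlt
  have hneg : (Deven M N c).re ≤ -1 := by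
    by_contra h
    push Not at h
    have := hsq c hc
    nlinarith
  obtain ⟨c', hc'1, hc'2⟩ : ∃ c' : ℝ, c ≤ c' ∧ 0 < (Deven M N c').re := by
    have h1 := (Deven_tendsto M N).eventually (lt_mem_nhds (zero_lt_one))
    obtain ⟨c', h2, h3⟩ := (h1.and (eventually_ge_atTop c)).exists
    exact ⟨c', h3, h2⟩
  have hcont : ContinuousOn (fun c : ℝ => (Deven M N c).re) (Icc c c') :=
    (Deven_cont M N).mono fun x hx => lt_of_lt_of_le hc hx.1
  have hmem : (0 : ℝ) ∈ Icc ((fun c : ℝ => (Deven M N c).re) c) ((fun c : ℝ => (Deven M N c).re) c') :=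
    ⟨by simp only; linarith, hc'2.le⟩
  obtain ⟨x, hx, hx0⟩ := intermediate_value_Icc hc'1 hcont hmem
  have h := hsq x (lt_of_lt_of_le hc hx.1)
  simp only at hx0
  rw [hx0] at h
  norm_num at h

namespace LTAux

lemma m_lim {v : ℝ} (hv : 1 < v) {m : ℕ → ℝ} (h0 : ∀ᶠ L in atTop, 0 ≤ m L)
    (h : Tendsto (fun L => (((m L) ^ 4 : ℝ) : ℂ) * Deven 0 0 (cc v) ^ 2) atTop (𝓝 1)) :
    Tendsto m atTop (𝓝 (Real.sqrt (1 / (Deven 0 0 (cc v)).re))) := by
  have hD := Deven_ge_one (cc_gt_two hv) 0 0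
  have h1 : Tendsto (fun L => m L ^ 4 * (Deven 0 0 (cc v)).re ^ 2) atTop (𝓝 1) := by
    have h' := (Complex.continuous_re.tendsto _).comp h
    rw [Deven_real (cc_gt_two hv), Complex.one_re] at h'
    refine h'.congr fun L => ?_
    simp only [Function.comp_apply]
    rw [← Complex.ofReal_pow, ← Complex.ofReal_mul, Complex.ofReal_re]
  have h2 : Tendsto (fun L => m L ^ 4) atTop (𝓝 (1 / (Deven 0 0 (cc v)).re ^ 2)) := by
    have := h1.div_const ((Deven 0 0 (cc v)).re ^ 2)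
    refine this.congr fun L => ?_
    have : (Deven 0 0 (cc v)).re ^ 2 ≠ 0 := by positivity
    field_simp
  have h3 := (h2.sqrt).sqrt
  have e : Real.sqrt (1 / (Deven 0 0 (cc v)).re ^ 2) = 1 / (Deven 0 0 (cc v)).re := by
    rw [show (1 / (Deven 0 0 (cc v)).re ^ 2) = (1 / (Deven 0 0 (cc v)).re) ^ 2 by
      rw [div_pow, one_pow], Real.sqrt_sq (by positivity)]
  rw [e] at h3
  refine h3.congr' ?_
  filter_upwards [h0] with L hL
  rw [show m L ^ 4 = (m L ^ 2) ^ 2 by ring, Real.sqrt_sq (by positivity), Real.sqrt_sq hL]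

lemma mem_rect {k L : ℕ} {y : ℤ × ℤ} :
    y ∈ rect k L ↔ (-(k : ℤ) ≤ y.1 ∧ y.1 ≤ k) ∧ (-(L : ℤ) ≤ y.2 ∧ y.2 ≤ L) := by
  simp [rect, Finset.mem_product]

lemma rect_sub {k k' L L' : ℕ} (hk : k ≤ k') (hL : L ≤ L') : rect k L ⊆ rect k' L' := by
  intro y hy
  rw [mem_rect] at hy ⊢
  omega

lemma main {v : ℝ} (hv : 1 < v) (M : ℤ) (N : ℕ) :
    Tendsto (fun n => corr true (κs v) (rect n n) (0, 0) ((N : ℤ), M)) atTop
      (𝓝 ((Deven M N (cc v)).re / (Deven 0 0 (cc v)).re)) := by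
  obtain ⟨E, mA, mB, hlim, hA, hB, P, hP, hE⟩ := LT_strip hv M N
  have hD := Deven_ge_one (cc_gt_two hv) M N
  have hD0 := Deven_ge_one (cc_gt_two hv) 0 0
  have hA0 : ∀ᶠ L in atTop, 0 ≤ mA L := by
    filter_upwards [hlim] with L h1
    exact ge_of_tendsto' h1.2.1 fun k => mag_nonneg (κs_nonneg hv) _ _
  have hB0 : ∀ᶠ L in atTop, 0 ≤ mB L := by
    filter_upwards [hlim] with L h1
    exact ge_of_tendsto' h1.2.2 fun k => mag_nonneg (κs_nonneg hv) _ _
  have lA := m_lim hv hA0 hA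
  have lB := m_lim hv hB0 hB
  have hP' : Tendsto P atTop (𝓝 ((Deven M N (cc v)).re ^ 2)) := by
    have h := (Complex.continuous_re.tendsto _).comp hP
    rw [Deven_real (cc_gt_two hv)] at h
    have e : (((((Deven M N (cc v)).re : ℝ) : ℂ) ^ 2)).re = (Deven M N (cc v)).re ^ 2 := by
      rw [← Complex.ofReal_pow, Complex.ofReal_re]
    rw [e] at h
    exact h
  have hE' : Tendsto E atTop (𝓝 ((Deven M N (cc v)).re / (Deven 0 0 (cc v)).re)) := by
    have h1 := (((lA.pow 2).mul (lB.pow 2)).mul hP').sqrt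
    have e : Real.sqrt (Real.sqrt (1 / (Deven 0 0 (cc v)).re) ^ 2 *
        Real.sqrt (1 / (Deven 0 0 (cc v)).re) ^ 2 * (Deven M N (cc v)).re ^ 2) =
        (Deven M N (cc v)).re / (Deven 0 0 (cc v)).re := by
      rw [Real.sq_sqrt (by positivity)]
      rw [show 1 / (Deven 0 0 (cc v)).re * (1 / (Deven 0 0 (cc v)).re) * (Deven M N (cc v)).re ^ 2 =
        ((Deven M N (cc v)).re / (Deven 0 0 (cc v)).re) ^ 2 by ring, Real.sqrt_sq (by positivity)]
    rw [e] at h1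
    refine h1.congr' ?_
    filter_upwards [hE, hlim] with L hL h1
    rw [← hL, Real.sqrt_sq]
    exact ge_of_tendsto' h1.1 fun k => corr_nonneg true (κs_nonneg hv) _ _ _
  obtain ⟨n0, hn0⟩ := eventually_atTop.1 hlim
  refine tendsto_diag_of_anti (fun k L => corr true (κs v) (rect k L) (0, 0) ((N : ℤ), M)) n0
    (fun k L => corr_nonneg true (κs_nonneg hv) _ _ _) ?_ E (fun L hL => (hn0 L hL).1) hE'
  intro k k' L L' _ _ hk hL
  exact corr_plus_anti (κs_nonneg hv) (rect_sub hk hL) _ _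

end LTAux

theorem LT_corr {v : ℝ} (hv : 1 < v) (x : ℤ × ℤ) :
    Tendsto (fun n => corr true (κs v) (rect n n) (0, 0) x) atTop
      (𝓝 ((Deven x.2 x.1.natAbs (cc v)).re / (Deven 0 0 (cc v)).re)) := by
  obtain ⟨y, M⟩ := x
  have h := LTAux.main hv M y.natAbs
  rcases Int.natAbs_eq y with hy | hy
  · rw [← hy] at h
    exact h
  · refine h.congr fun n => ?_
    have h2 := corr_reflect true (κs v) n n ((y.natAbs : ℤ), M)
    rw [← h2]
    simp only
    rw [← hy]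

theorem LT_mag {v : ℝ} (hv : 1 < v) :
    ∃ m : ℝ, m ^ 2 = 1 / (Deven 0 0 (cc v)).re ∧
      Tendsto (fun n => mag true (κs v) (rect n n) (0, 0)) atTop (𝓝 m) := by
  obtain ⟨E, mA, mB, hlim, hA, hB, P, hP, hE⟩ := LT_strip hv 0 0
  have hD0 := Deven_ge_one (cc_gt_two hv) 0 0
  have hA0 : ∀ᶠ L in atTop, 0 ≤ mA L := by
    filter_upwards [hlim] with L h1
    exact ge_of_tendsto' h1.2.1 fun k => mag_nonneg (κs_nonneg hv) _ _
  have lA := m_lim hv hA0 hA
  refine ⟨Real.sqrt (1 / (Deven 0 0 (cc v)).re), ?_, ?_⟩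
  rotate_left
  · obtain ⟨n0, hn0⟩ := eventually_atTop.1 hlim
    refine tendsto_diag_of_anti (fun k L => mag true (κs v) (rect k L) (0, 0)) n0
      (fun k L => mag_nonneg (κs_nonneg hv) _ _) ?_ mA (fun L hL => (hn0 L hL).2.1) lA
    intro k k' L L' _ _ hk hL
    exact mag_plus_anti (κs_nonneg hv) (rect_sub hk hL) _
  · rw [Real.sq_sqrt (by positivity)]

end

end IsingS2
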