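import Pool.Agent.Helper98.IS.Ineq
import Pool.Agent.Helper98.IS.Limits
import Pool.Agent.Helper98.IS.Strip
import Pool.Agent.Helper98.IS.Spin
import Pool.Agent.Helper98.IS.Coupling
import Pool.Agent.Helper98.IS.EvenOdd
import Pool.Agent.Helper98.IS.HTvac
import Pool.Agent.Helper98.IS.YLim
import Pool.Agent.Helper98.IS.Lim1
import Pool.Agent.Helper98.IS.Lim2
import Pool.Agent.Helper98.IS.DevenCont
import Pool.Agent.Helper98.IS.LT

/-!
# IS-45: two point function in the high temperature phase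
-/

namespace IsingS2

open Complex Set MeasureTheory Filter Topology IsingNB
open scoped Real Matrix

noncomputable section

namespace HTAux

lemma alg {E G mA mB P PA PB Q : ℝ} (hE : 0 < E) (hA : 0 < mA) (hB : 0 < mB)
    (h1 : E ^ 2 = mA ^ 2 * mB ^ 2 * P) (h2 : mA ^ 4 * PA = 1) (h3 : mB ^ 4 * PB = 1)
    (h4 : G * E = mA ^ 2 * mB ^ 2 * Q) :
    G = Q / (Real.sqrt P * (Real.sqrt (Real.sqrt PA) * Real.sqrt (Real.sqrt PB))) := by
  have hP : 0 < P := by
    by_contra hcon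
    have : mA ^ 2 * mB ^ 2 * P ≤ 0 :=
      mul_nonpos_of_nonneg_of_nonpos (by positivity) (not_lt.1 hcon)
    nlinarith [sq_pos_of_pos hE]
  have root : ∀ {m p : ℝ}, 0 < m → m ^ 4 * p = 1 → m * Real.sqrt (Real.sqrt p) = 1 := by
    intro m p hm hp
    have hp0 : p = (m⁻¹ ^ 2) ^ 2 := by
      field_simp
      linarith
    rw [hp0, Real.sqrt_sq (by positivity), Real.sqrt_sq (by positivity)]
    field_simp
  have hA' := root hA h2
  have hB' := root hB h3
  have hE' : E = mA * mB * Real.sqrt P := by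
    have : E = Real.sqrt (E ^ 2) := (Real.sqrt_sq hE.le).symm
    rw [this, h1, show mA ^ 2 * mB ^ 2 * P = (mA * mB) ^ 2 * P by ring,
      Real.sqrt_mul (by positivity), Real.sqrt_sq (by positivity)]
  have hsP : 0 < Real.sqrt P := Real.sqrt_pos.2 hP
  have hsA : Real.sqrt (Real.sqrt PA) = mA⁻¹ := by
    field_simp
    linarith
  have hsB : Real.sqrt (Real.sqrt PB) = mB⁻¹ := by
    field_simp
    linarith
  rw [hsA, hsB, eq_div_iff (by positivity)]
  rw [hE'] at h4
  have h5 : (mA * mB) * (G * Real.sqrt P) = (mA * mB) * (mA * mB * Q) := by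
    calc (mA * mB) * (G * Real.sqrt P) = G * (mA * mB * Real.sqrt P) := by ring
      _ = mA ^ 2 * mB ^ 2 * Q := h4
      _ = _ := by ring
  have h6 := mul_left_cancel₀ (by positivity : mA * mB ≠ 0) h5
  calc G * (Real.sqrt P * (mA⁻¹ * mB⁻¹)) = (G * Real.sqrt P) * (mA⁻¹ * mB⁻¹) := by ring
    _ = (mA * mB * Q) * (mA⁻¹ * mB⁻¹) := by rw [h6]
    _ = Q := by field_simp

lemma win_of (f : ℕ → ℕ) (M : ℤ) (hf : ∀ᶠ L : ℕ in atTop, (f L : ℤ) = L + M) :
    Tendsto (fun L : ℕ => ((2 * L + 1, f L) : ℕ × ℕ)) atTop win := by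
  rw [win, tendsto_comap_iff]
  rw [tendsto_atTop]
  intro R
  filter_upwards [hf, eventually_ge_atTop (R + M.natAbs)] with L h1 h2
  show R ≤ min (f L) (2 * L + 1 - f L)
  omega

/-- the strip -/
lemma strip {v : ℝ} (hv : 1 < v) (M : ℤ) (N L : ℕ) (hL : M.natAbs ≤ L) :
    ∃ G : ℝ, Tendsto (fun k => corr false (κw v) (rect k L) (0, 0) ((N : ℤ), M)) atTop (𝓝 G) ∧
      ((Dm v (2 * L + 1) L).det ≠ 0 → (Dm v (2 * L + 1) ((L : ℤ) + M).toNat).det ≠ 0 →
        G = Qm v (2 * L + 1) L ((L : ℤ) + M).toNat N /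
          (Real.sqrt (Pm v (2 * L + 1) L ((L : ℤ) + M).toNat N).det *
            (Real.sqrt (Real.sqrt (Pm v (2 * L + 1) L L 0).det) *
              Real.sqrt (Real.sqrt (Pm v (2 * L + 1) ((L : ℤ) + M).toNat
                ((L : ℤ) + M).toNat 0).det)))) := by
  obtain ⟨Ω, Λ, hP, hlim, -⟩ := strip_limit false (κw v) L
  have hbL : ((((L : ℤ) + M).toNat : ℕ) : ℤ) = L + M := by omega
  set bL : ℕ := ((L : ℤ) + M).toNat with hbdef
  let a : Fin (2 * L + 1) := ⟨L, by omega⟩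
  let b : Fin (2 * L + 1) := ⟨bL, by omega⟩
  have ha0 : (a : ℕ) = L := rfl
  have hb0 : (b : ℕ) = bL := rfl
  obtain ⟨Ω2, Λ2, hV, hG, hE, hm⟩ := HT_vac hv (2 * L) hP
  refine ⟨Ω ⬝ᵥ (Zd (2 * L) a * Vm false (κw v) (2 * L) ^ N * Zd (2 * L) b).mulVec Ω / Λ ^ N,
    ?_, ?_⟩
  · have h := hlim N a b
    rw [ha0, hb0, hbL] at h
    simpa using h
  · intro hda hdb
    have hC := car_spin (2 * L + 1)
    obtain ⟨rE, hrE, hE'⟩ := hE L bL N
    obtain ⟨rA, hrA, hA'⟩ := hm L
    obtain ⟨rB, hrB, hB'⟩ := hm bL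
    have e1 := even_formula hv hC hV hda hdb N
    have e2 := norm_formula hv hC hV hda
    have e3 := norm_formula hv hC hV hdb
    have e4 := odd_formula hv hC hV (a := a) (b := b) hda hdb N (by
      rw [ha0, hb0, hE']
      exact_mod_cast hrE.ne')
    rw [ha0, hb0] at e4
    rw [hG a b N] at e4
    rw [hE', hA', hB'] at e1 e4
    rw [hA'] at e2
    rw [hB'] at e3
    refine alg hrE hrA hrB ?_ ?_ ?_ ?_
    · exact_mod_cast e1
    · exact_mod_cast e2
    · exact_mod_cast e3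
    · exact_mod_cast e4

lemma mem_rect {k L : ℕ} {y : ℤ × ℤ} :
    y ∈ rect k L ↔ (-(k : ℤ) ≤ y.1 ∧ y.1 ≤ k) ∧ (-(L : ℤ) ≤ y.2 ∧ y.2 ≤ L) := by
  simp [rect, Finset.mem_product]

lemma κw_nonneg {v : ℝ} (hv : 1 < v) : 0 ≤ κw v := by
  have : 0 ≤ Real.arsinh (1 / v) := Real.arsinh_nonneg_iff.2 (by positivity)
  unfold κw
  linarith

lemma main {v : ℝ} (hv : 1 < v) (M : ℤ) (N : ℕ) :
    Tendsto (fun n => corr false (κw v) (rect n n) (0, 0) ((N : ℤ), M)) atTop
      (𝓝 (v * (Dodd M N (cc v)).re / (Deven 0 0 (cc v)).re)) := by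
  have hex : ∀ L : ℕ, ∃ G : ℝ, M.natAbs ≤ L →
      Tendsto (fun k => corr false (κw v) (rect k L) (0, 0) ((N : ℤ), M)) atTop (𝓝 G) ∧
      ((Dm v (2 * L + 1) L).det ≠ 0 → (Dm v (2 * L + 1) ((L : ℤ) + M).toNat).det ≠ 0 →
        G = Qm v (2 * L + 1) L ((L : ℤ) + M).toNat N /
          (Real.sqrt (Pm v (2 * L + 1) L ((L : ℤ) + M).toNat N).det *
            (Real.sqrt (Real.sqrt (Pm v (2 * L + 1) L L 0).det) *
              Real.sqrt (Real.sqrt (Pm v (2 * L + 1) ((L : ℤ) + M).toNat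
                ((L : ℤ) + M).toNat 0).det)))) := by
    intro L
    by_cases h : M.natAbs ≤ L
    · obtain ⟨G, h1, h2⟩ := strip hv M N L h
      exact ⟨G, fun _ => ⟨h1, h2⟩⟩
    · exact ⟨0, fun h' => absurd h' h⟩
  choose g hg using hex
  -- windows
  have wa : Tendsto (fun L : ℕ => ((2 * L + 1, L) : ℕ × ℕ)) atTop win :=
    win_of (fun L => L) 0 (Eventually.of_forall fun L => by simp)
  have wb : Tendsto (fun L : ℕ => ((2 * L + 1, ((L : ℤ) + M).toNat) : ℕ × ℕ)) atTop win := by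
    apply win_of _ M
    filter_upwards [eventually_ge_atTop M.natAbs] with L hL
    omega
  have hc2 := cc_gt_two hv
  have lP : Tendsto (fun L : ℕ => (Pm v (2 * L + 1) L ((L : ℤ) + M).toNat N).det) atTop
      (𝓝 ((Deven M N (cc v)).re ^ 2)) := by
    have h := (Pm_lim hv M N).comp wa
    rw [Fdet_P0 hv, Deven_real hc2] at h
    have h' := (Complex.continuous_re.tendsto _).comp h
    have e : (((((Deven M N (cc v)).re : ℝ) : ℂ) ^ 2)).re = (Deven M N (cc v)).re ^ 2 := by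
      rw [← Complex.ofReal_pow, Complex.ofReal_re]
    rw [e] at h'
    exact h'
  have lPA : Tendsto (fun L : ℕ => (Pm v (2 * L + 1) L L 0).det) atTop
      (𝓝 ((Deven 0 0 (cc v)).re ^ 2)) := by
    have h := (Pm_lim hv 0 0).comp wa
    rw [Fdet_P0 hv, Deven_real hc2] at h
    have h' := (Complex.continuous_re.tendsto _).comp h
    have e : (((((Deven 0 0 (cc v)).re : ℝ) : ℂ) ^ 2)).re = (Deven 0 0 (cc v)).re ^ 2 := by
      rw [← Complex.ofReal_pow, Complex.ofReal_re]
    rw [e] at h'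
    refine h'.congr fun L => ?_
    simp
  have lPB : Tendsto (fun L : ℕ => (Pm v (2 * L + 1) ((L : ℤ) + M).toNat
      ((L : ℤ) + M).toNat 0).det) atTop (𝓝 ((Deven 0 0 (cc v)).re ^ 2)) := by
    have h := (Pm_lim hv 0 0).comp wb
    rw [Fdet_P0 hv, Deven_real hc2] at h
    have h' := (Complex.continuous_re.tendsto _).comp h
    have e : (((((Deven 0 0 (cc v)).re : ℝ) : ℂ) ^ 2)).re = (Deven 0 0 (cc v)).re ^ 2 := by
      rw [← Complex.ofReal_pow, Complex.ofReal_re]
    rw [e] at h'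
    refine h'.congr fun L => ?_
    simp
  have lQ : Tendsto (fun L : ℕ => Qm v (2 * L + 1) L ((L : ℤ) + M).toNat N) atTop
      (𝓝 (v * (Deven M N (cc v)).re * (Dodd M N (cc v)).re)) := by
    have h := (Qm_lim hv M N).comp wa
    rw [Fbord_P0 hv, Deven_real hc2, Dodd_real hc2] at h
    have h' := (Complex.continuous_re.tendsto _).comp h
    have e : ((v : ℂ) * (((Deven M N (cc v)).re : ℝ) : ℂ) * (((Dodd M N (cc v)).re : ℝ) : ℂ)).re =
        v * (Deven M N (cc v)).re * (Dodd M N (cc v)).re := by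
      rw [← Complex.ofReal_mul, ← Complex.ofReal_mul, Complex.ofReal_re]
    rw [e] at h'
    exact h'
  have hDe := Deven_ge_one hc2 M N
  have hD0 := Deven_ge_one hc2 0 0
  have hlim : Tendsto g atTop (𝓝 (v * (Dodd M N (cc v)).re / (Deven 0 0 (cc v)).re)) := by
    have h1 := lQ.div ((lP.sqrt).mul ((lPA.sqrt.sqrt).mul (lPB.sqrt.sqrt))) (by
      rw [Real.sqrt_sq (by linarith), Real.sqrt_sq (by linarith)]
      have : 0 < Real.sqrt (Deven 0 0 (cc v)).re := Real.sqrt_pos.2 (by linarith)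
      positivity)
    have e : v * (Deven M N (cc v)).re * (Dodd M N (cc v)).re /
        (Real.sqrt ((Deven M N (cc v)).re ^ 2) *
          (Real.sqrt (Real.sqrt ((Deven 0 0 (cc v)).re ^ 2)) *
            Real.sqrt (Real.sqrt ((Deven 0 0 (cc v)).re ^ 2)))) =
        v * (Dodd M N (cc v)).re / (Deven 0 0 (cc v)).re := by
      rw [Real.sqrt_sq (by linarith), Real.sqrt_sq (by linarith),
        Real.mul_self_sqrt (by linarith)]
      have h0 : (Deven M N (cc v)).re ≠ 0 := by linarith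
      have h0' : (Deven 0 0 (cc v)).re ≠ 0 := by linarith
      field_simp
    rw [e] at h1
    refine h1.congr' ?_
    filter_upwards [eventually_ge_atTop M.natAbs, wa.eventually (Dm_unit hv),
      wb.eventually (Dm_unit hv)] with L hL hda hdb
    exact ((hg L hL).2 hda hdb).symm
  refine tendsto_diag_of_mono (fun k L => corr false (κw v) (rect k L) (0, 0) ((N : ℤ), M))
    (N + M.natAbs) (fun k L => corr_le_one false (κw v) (rect k L) (0, 0) _) ?_ g ?_ hlim
  · intro k k' L L' hk hL hkk hLL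
    apply corr_free_mono (κw_nonneg hv)
    · intro y hy
      rw [mem_rect] at hy ⊢
      omega
    · rw [mem_rect]
      simp
    · rw [mem_rect]
      simp only
      omega
  · intro L hL
    exact (hg L (by omega)).1

end HTAux

open HTAux

theorem HT_corr {v : ℝ} (hv : 1 < v) (x : ℤ × ℤ) :
    Tendsto (fun n => corr false (κw v) (rect n n) (0, 0) x) atTop
      (𝓝 (v * (Dodd x.2 x.1.natAbs (cc v)).re / (Deven 0 0 (cc v)).re)) := by
  obtain ⟨y, M⟩ := x
  have h := main hv M y.natAbs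
  rcases Int.natAbs_eq y with hy | hy
  · rw [← hy] at h
    exact h
  · refine h.congr fun n => ?_
    have h2 := corr_reflect false (κw v) n n ((y.natAbs : ℤ), M)
    rw [← h2]
    simp only
    rw [← hy]

end

end IsingS2
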