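import Pool.Agent.Helper98.IS.Zval
import Pool.Agent.Helper98.IS.FFSum
import Pool.Agent.Helper98.IS.DevenCont
import Pool.Agent.Helper98.IS.LT
import Pool.Agent.Helper98.IS.HT
import Pool.Agent.Helper98.NB.Final

/-!
# IS-46: the susceptibility of the lattice model is the form factor series
-/

namespace IsingS2

open Complex Set MeasureTheory Filter Topology IsingNB
open scoped Real Matrix

noncomputable section

/-! ### Spin flip -/

private lemma fin_sg_not (b : Bool) : sg (!b) = -sg b := by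
  cases b <;> simp [sg]

private lemma fin_ext_not (Λ : Finset (ℤ × ℤ)) (σ : Λ → Bool) {x : ℤ × ℤ} (hx : x ∈ Λ) :
    ext Λ (fun i => !(σ i)) x = -ext Λ σ x := by
  unfold ext
  rw [dif_pos hx, dif_pos hx, fin_sg_not]

private lemma fin_action_not (Λ : Finset (ℤ × ℤ)) (σ : Λ → Bool) :
    action false Λ (fun i => !(σ i)) = action false Λ σ := by
  unfold action
  refine Finset.sum_congr rfl fun x hx => Finset.sum_congr rfl fun y _ => ?_
  split
  · next hy => rw [fin_ext_not Λ σ hx, fin_ext_not Λ σ hy, neg_mul_neg]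
  · rfl

private lemma fin_mag_false (K : ℝ) (Λ : Finset (ℤ × ℤ)) {x : ℤ × ℤ} (hx : x ∈ Λ) :
    mag false K Λ x = 0 := by
  have h : (∑ σ : Λ → Bool, ext Λ σ x * Real.exp (K * action false Λ σ)) =
      -∑ σ : Λ → Bool, ext Λ σ x * Real.exp (K * action false Λ σ) := by
    rw [← Finset.sum_neg_distrib]
    refine Fintype.sum_equiv (Equiv.piCongrRight fun _ => Equiv.boolNot) _ _ fun σ => ?_
    show ext Λ σ x * Real.exp (K * action false Λ σ) =
      -(ext Λ (fun i => !(σ i)) x * Real.exp (K * action false Λ (fun i => !(σ i))))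
    rw [fin_ext_not Λ σ hx, fin_action_not, neg_mul, neg_neg]
  unfold mag ev
  rw [show (∑ σ : Λ → Bool, ext Λ σ x * Real.exp (K * action false Λ σ)) = 0 by linarith, zero_div]

private lemma fin_mem_rect (n : ℕ) : ((0, 0) : ℤ × ℤ) ∈ rect n n := by
  unfold rect
  simp

/-! ### The prefactor -/

private lemma fin_cc_gt {v : ℝ} (hv : 1 < v) : 2 < cc v := by
  unfold cc
  have h0 : 0 < v := by linarith
  have h1 : v * (1 / v) = 1 := by field_simp
  have h2 : 0 < (v - 1) ^ 2 := by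
    have : v - 1 ≠ 0 := by linarith
    positivity
  have h3 : v + 1 / v - 2 = (v - 1) ^ 2 / v := by
    field_simp
    ring
  have h4 : 0 < (v - 1) ^ 2 / v := div_pos h2 h0
  linarith

private lemma fin_pref {v : ℝ} (hv : 1 < v) :
    (1 - (v⁻¹) ^ 4 : ℝ) ^ (1 / 4 : ℝ) = 1 / (Deven 0 0 (cc v)).re := by
  have hc := fin_cc_gt hv
  have hD := Deven_real hc 0 0
  have h1 := Deven_ge_one hc 0 0
  set D : ℝ := (Deven 0 0 (cc v)).re with hDdef
  have h2 := Deven_zero hv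
  rw [hD] at h2
  have h3 : D ^ 8 * (1 - 1 / v ^ 4) ^ 2 = 1 := by exact_mod_cast h2
  have h0 : 0 < v := by linarith
  have hq : 0 < 1 - 1 / v ^ 4 := by
    have h4 : 1 < v ^ 4 := one_lt_pow₀ hv (by norm_num)
    rw [sub_pos, div_lt_one (by positivity)]
    exact h4
  have h5 : (D ^ 4 * (1 - 1 / v ^ 4)) ^ 2 = 1 := by
    have h6 : (D ^ 4 * (1 - 1 / v ^ 4)) ^ 2 = D ^ 8 * (1 - 1 / v ^ 4) ^ 2 := by ring
    rw [h6, h3]
  have h6 : D ^ 4 * (1 - 1 / v ^ 4) = 1 := by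
    have h7 : 0 ≤ D ^ 4 * (1 - 1 / v ^ 4) := by positivity
    have h8 := (pow_eq_one_iff_of_nonneg h7 (by norm_num : (2 : ℕ) ≠ 0)).1 h5
    exact h8
  have hDpos : 0 < D := by linarith
  have h7 : (1 - (v⁻¹) ^ 4 : ℝ) = (1 / D) ^ 4 := by
    have h8 : (v⁻¹) ^ 4 = 1 / v ^ 4 := by rw [inv_pow, one_div]
    rw [h8, one_div_pow, eq_div_iff (by positivity)]
    linarith
  rw [h7, ← Real.rpow_natCast, ← Real.rpow_mul (by positivity)]
  norm_num

private lemma fin_cpow {v : ℝ} (hv : 1 < v) :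
    ((1 - ((v : ℂ)⁻¹) ^ 4 : ℂ)) ^ (1 / 4 : ℂ) = ((1 / (Deven 0 0 (cc v)).re : ℝ) : ℂ) := by
  rw [← fin_pref hv]
  have h0 : 0 ≤ (1 - (v⁻¹) ^ 4 : ℝ) := by
    have h1 : (v⁻¹) ^ 4 ≤ 1 := pow_le_one₀ (by positivity) (inv_le_one_of_one_le₀ hv.le)
    linarith
  rw [Complex.ofReal_cpow h0]
  push_cast
  rfl

private lemma fin_cc (v : ℝ) : ((cc v : ℝ) : ℂ) = (v : ℂ) + (v : ℂ)⁻¹ := by
  unfold cc
  push_cast
  rw [one_div]

/-! ### The sums -/

private lemma fin_odd {c : ℝ} (hc : 2 < c) :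
    HasSum (fun x : ℤ × ℤ => (Dodd x.2 x.1.natAbs c).re) (Sodd 0 c).re ∧ (Sodd 0 c).im = 0 := by
  have h := odd_hasSum hc
  have h1 : HasSum (fun x : ℤ × ℤ => Dodd x.2 x.1.natAbs c) (Sodd 0 c) :=
    (Equiv.prodComm ℤ ℤ).hasSum_iff.2 h
  refine ⟨Complex.hasSum_re h1, ?_⟩
  have h2 := Complex.hasSum_im h1
  have h3 : ∀ x : ℤ × ℤ, (Dodd x.2 x.1.natAbs c).im = 0 := by
    intro x
    rw [Dodd_real hc, Complex.ofReal_im]
  simp only [h3] at h2
  exact h2.unique hasSum_zero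

private lemma fin_even {c : ℝ} (hc : 2 < c) :
    HasSum (fun x : ℤ × ℤ => (Deven x.2 x.1.natAbs c).re - 1) (Seven 0 c).re ∧
      (Seven 0 c).im = 0 := by
  have h := even_hasSum hc
  have h1 : HasSum (fun x : ℤ × ℤ => Deven x.2 x.1.natAbs c - 1) (Seven 0 c) :=
    (Equiv.prodComm ℤ ℤ).hasSum_iff.2 h
  constructor
  · have h2 := Complex.hasSum_re h1
    simpa using h2
  · have h2 := Complex.hasSum_im h1
    have h3 : ∀ x : ℤ × ℤ, (Deven x.2 x.1.natAbs c - 1).im = 0 := by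
      intro x
      rw [Deven_real hc, Complex.sub_im, Complex.ofReal_im, Complex.one_im, sub_zero]
    simp only [h3] at h2
    exact h2.unique hasSum_zero

private lemma fin_scale {E a : ℝ} (hE : 0 < E) (ha : 0 < a) (z : ℂ) :
    2 * E / a * (((a / (2 * E) : ℂ) * z).re) = z.re := by
  have h1 : ((a / (2 * E) : ℂ)) = ((a / (2 * E) : ℝ) : ℂ) := by push_cast; rfl
  rw [h1, Complex.re_ofReal_mul]
  field_simp

private lemma fin_coupling {E a : ℝ} (hE : 0 < E) (ha : 0 < a) : E / (2 * E / a) = a / 2 := by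
  field_simp

theorem susc_HT {E v : ℝ} (hE : 0 < E) (h0 : 0 < v) (h1 : v < 1) :
    IsSusc false E (2 * E / Real.arsinh v) ((Real.arsinh v / (2 * E) : ℂ) * fHT v).re ∧
      (fHT v).im = 0 := by
  have hv' : 1 < v⁻¹ := (one_lt_inv₀ h0).2 h1
  have hc := fin_cc_gt hv'
  have ha : 0 < Real.arsinh v := Real.arsinh_pos_iff.2 h0
  have hD := Deven_ge_one hc 0 0
  obtain ⟨hs, him⟩ := fin_odd hc
  have hf : fHT v = ((v⁻¹ * (1 / (Deven 0 0 (cc v⁻¹)).re) * (Sodd 0 (cc v⁻¹)).re : ℝ) : ℂ) := by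
    have h2 : Sodd 0 ((v : ℂ) + (v : ℂ)⁻¹) = (((Sodd 0 (cc v⁻¹)).re : ℝ) : ℂ) := by
      have h3 : (v : ℂ) + (v : ℂ)⁻¹ = ((cc v⁻¹ : ℝ) : ℂ) := by
        rw [fin_cc]
        push_cast
        rw [inv_inv, add_comm]
      rw [h3]
      exact Complex.ext (by simp) (by simpa using him)
    have h4 := fin_cpow hv'
    push_cast at h4
    rw [inv_inv] at h4
    unfold fHT
    rw [h2, h4]
    push_cast
    ring
  have hfim : (fHT v).im = 0 := by rw [hf, Complex.ofReal_im]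
  refine ⟨⟨fun x => v⁻¹ * (Dodd x.2 x.1.natAbs (cc v⁻¹)).re / (Deven 0 0 (cc v⁻¹)).re, 0,
    ?_, ?_, ?_⟩, hfim⟩
  · intro x
    rw [fin_coupling hE ha]
    have h2 := HT_corr hv' x
    have h3 : κw v⁻¹ = Real.arsinh v / 2 := by
      unfold κw
      rw [one_div, inv_inv]
    rwa [h3] at h2
  · simp only [fin_mag_false _ _ (fin_mem_rect _)]
    exact tendsto_const_nhds
  · rw [fin_scale hE ha, hf, Complex.ofReal_re]
    have h2 := hs.mul_left (v⁻¹ * (1 / (Deven 0 0 (cc v⁻¹)).re))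
    refine h2.congr_fun ?_
    intro x
    ring

theorem susc_LT {E v : ℝ} (hE : 0 < E) (h1 : 1 < v) :
    IsSusc true E (2 * E / Real.arsinh v) ((Real.arsinh v / (2 * E) : ℂ) * fLT v).re ∧
      (fLT v).im = 0 := by
  have h0 : 0 < v := by linarith
  have hc := fin_cc_gt h1
  have ha : 0 < Real.arsinh v := Real.arsinh_pos_iff.2 h0
  have hD := Deven_ge_one hc 0 0
  obtain ⟨hs, him⟩ := fin_even hc
  obtain ⟨m, hm, hmt⟩ := LT_mag h1
  have hf : fLT v = (((1 / (Deven 0 0 (cc v)).re) * (Seven 0 (cc v)).re : ℝ) : ℂ) := by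
    have h2 : Seven 0 ((v : ℂ) + (v : ℂ)⁻¹) = (((Seven 0 (cc v)).re : ℝ) : ℂ) := by
      rw [← fin_cc]
      exact Complex.ext (by simp) (by simpa using him)
    unfold fLT
    rw [h2, fin_cpow h1]
    push_cast
    ring
  have hfim : (fLT v).im = 0 := by rw [hf, Complex.ofReal_im]
  refine ⟨⟨fun x => (Deven x.2 x.1.natAbs (cc v)).re / (Deven 0 0 (cc v)).re, m, ?_, ?_, ?_⟩, hfim⟩
  · intro x
    rw [fin_coupling hE ha]
    exact LT_corr h1 x
  · rw [fin_coupling hE ha]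
    exact hmt
  · rw [fin_scale hE ha, hf, Complex.ofReal_re, hm]
    have h2 := hs.mul_left (1 / (Deven 0 0 (cc v)).re)
    refine h2.congr_fun ?_
    intro x
    ring

end

end IsingS2
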