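import Pool.Agent.Helper98.IS.Defs2

/-!
# IS-01: the Griffiths inequalities (Ginibre's proof)
-/

namespace IsingS2

open Complex Set MeasureTheory Filter Topology IsingNB
open scoped Real Matrix

noncomputable section

private theorem sg_sq (b : Bool) : sg b * sg b = 1 := by
  cases b <;> simp [sg]

private theorem sg_le (b : Bool) : sg b ≤ 1 ∧ -1 ≤ sg b := by
  cases b <;> simp [sg]

private theorem chr_sq {ι : Type*} (A : Finset ι) (σ : ι → Bool) : chr A σ * chr A σ = 1 := by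
  unfold chr
  rw [← Finset.prod_mul_distrib]
  exact Finset.prod_eq_one fun i _ => sg_sq _

private theorem chr_le {ι : Type*} (A : Finset ι) (σ : ι → Bool) : chr A σ ≤ 1 ∧ -1 ≤ chr A σ := by
  have h := chr_sq A σ
  constructor <;> nlinarith

private theorem chr_mul {ι : Type*} [DecidableEq ι] (A B : Finset ι) (σ : ι → Bool) :
    chr A σ * chr B σ = chr (symmDiff A B) σ := by
  have h1 : chr A σ = chr (A \ B) σ * chr (A ∩ B) σ := by
    unfold chr
    rw [← Finset.prod_union (Finset.disjoint_sdiff_inter A B), Finset.sdiff_union_inter]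
  have h2 : chr B σ = chr (B \ A) σ * chr (A ∩ B) σ := by
    unfold chr
    rw [Finset.inter_comm, ← Finset.prod_union (Finset.disjoint_sdiff_inter B A),
      Finset.sdiff_union_inter]
  have h3 : chr (symmDiff A B) σ = chr (A \ B) σ * chr (B \ A) σ := by
    unfold chr
    rw [← Finset.prod_union (by
      rw [Finset.disjoint_left]
      intro x hx hx'
      rw [Finset.mem_sdiff] at hx hx'
      exact hx.2 hx'.1)]
    rfl
  have h4 := chr_sq (A ∩ B) σ
  rw [h1, h2, h3]
  linear_combination chr (A \ B) σ * chr (B \ A) σ * h4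

private theorem sum_chr_nonneg {ι : Type*} [Fintype ι] [DecidableEq ι] (B : Finset ι) :
    0 ≤ ∑ σ : ι → Bool, chr B σ := by
  have h1 : ∀ σ : ι → Bool, chr B σ = ∏ i, (if i ∈ B then sg (σ i) else 1) := by
    intro σ
    unfold chr
    rw [Finset.prod_ite_mem, Finset.univ_inter]
  have h2 : ∑ σ : ι → Bool, chr B σ = ∏ i : ι, ∑ b : Bool, (if i ∈ B then sg b else 1) := by
    rw [Finset.prod_univ_sum]
    rw [Fintype.piFinset_univ]
    exact Finset.sum_congr rfl fun σ _ => h1 σ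
  rw [h2]
  refine Finset.prod_nonneg fun i _ => ?_
  by_cases hi : i ∈ B <;> simp [hi, sg]

theorem gks1 {ι J : Type*} [Fintype ι] [DecidableEq ι] (s : Finset J) (A : J → Finset ι)
    (a b : J → ℝ) (ha : ∀ j, 0 ≤ a j) (hb : ∀ j, 0 ≤ b j) (B : Finset ι) :
    0 ≤ ∑ σ : ι → Bool, chr B σ * ∏ j ∈ s, (a j + b j * chr (A j) σ) := by
  classical
  induction s using Finset.induction_on generalizing B with
  | empty => simpa using sum_chr_nonneg B
  | insert j s hj ih =>
    have h : ∑ σ : ι → Bool, chr B σ * ∏ j ∈ insert j s, (a j + b j * chr (A j) σ) =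
        a j * ∑ σ : ι → Bool, chr B σ * ∏ j ∈ s, (a j + b j * chr (A j) σ) +
        b j * ∑ σ : ι → Bool, chr (symmDiff B (A j)) σ * ∏ j ∈ s, (a j + b j * chr (A j) σ) := by
      rw [Finset.mul_sum, Finset.mul_sum, ← Finset.sum_add_distrib]
      refine Finset.sum_congr rfl fun σ _ => ?_
      rw [Finset.prod_insert hj, ← chr_mul]
      ring
    rw [h]
    exact add_nonneg (mul_nonneg (ha j) (ih B)) (mul_nonneg (hb j) (ih _))

/-- pointwise product of configurations -/
private def gx2 {ι : Type*} (σ ρ : ι → Bool) : ι → Bool := fun i => σ i == ρ i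

private theorem chr_gx2 {ι : Type*} (A : Finset ι) (σ ρ : ι → Bool) :
    chr A (gx2 σ ρ) = chr A σ * chr A ρ := by
  unfold chr
  rw [← Finset.prod_mul_distrib]
  refine Finset.prod_congr rfl fun i _ => ?_
  unfold gx2
  cases σ i <;> cases ρ i <;> simp [sg]

private theorem gx2_gx2 {ι : Type*} (σ ρ : ι → Bool) : gx2 σ (gx2 σ ρ) = ρ := by
  funext i
  unfold gx2
  cases σ i <;> cases ρ i <;> rfl

theorem gks2 {ι J : Type*} [Fintype ι] [DecidableEq ι] (s : Finset J) (A : J → Finset ι)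
    (a b : J → ℝ) (hb : ∀ j, 0 ≤ b j) (hab : ∀ j, b j ≤ a j) (B C : Finset ι) :
    (∑ σ : ι → Bool, chr B σ * ∏ j ∈ s, (a j + b j * chr (A j) σ)) *
      (∑ σ : ι → Bool, chr C σ * ∏ j ∈ s, (a j + b j * chr (A j) σ)) ≤
    (∑ σ : ι → Bool, chr B σ * chr C σ * ∏ j ∈ s, (a j + b j * chr (A j) σ)) *
      (∑ σ : ι → Bool, ∏ j ∈ s, (a j + b j * chr (A j) σ)) := by
  set P : (ι → Bool) → ℝ := fun σ => ∏ j ∈ s, (a j + b j * chr (A j) σ) with hP
  have key : (∑ σ : ι → Bool, chr B σ * chr C σ * P σ) * (∑ σ : ι → Bool, P σ) -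
      (∑ σ : ι → Bool, chr B σ * P σ) * (∑ σ : ι → Bool, chr C σ * P σ) =
      ∑ ρ : ι → Bool, (1 - chr C ρ) * ∑ σ : ι → Bool, chr (symmDiff B C) σ *
        ∏ j ∈ s, ((a j ^ 2 + b j ^ 2 * chr (A j) ρ) + (a j * b j * (1 + chr (A j) ρ)) *
          chr (A j) σ) := by
    have h1 : (∑ σ : ι → Bool, chr B σ * chr C σ * P σ) * (∑ σ : ι → Bool, P σ) -
      (∑ σ : ι → Bool, chr B σ * P σ) * (∑ σ : ι → Bool, chr C σ * P σ) =
      ∑ σ : ι → Bool, ∑ τ : ι → Bool, chr B σ * (chr C σ - chr C τ) * (P σ * P τ) := by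
      rw [Finset.sum_mul_sum, Finset.sum_mul_sum, ← Finset.sum_sub_distrib]
      refine Finset.sum_congr rfl fun σ _ => ?_
      rw [← Finset.sum_sub_distrib]
      refine Finset.sum_congr rfl fun τ _ => ?_
      ring
    have h2 : ∀ σ : ι → Bool, ∑ τ : ι → Bool, chr B σ * (chr C σ - chr C τ) * (P σ * P τ) =
        ∑ ρ : ι → Bool, chr B σ * (chr C σ - chr C (gx2 σ ρ)) * (P σ * P (gx2 σ ρ)) := by
      intro σ
      let e : (ι → Bool) ≃ (ι → Bool) := ⟨gx2 σ, gx2 σ, gx2_gx2 σ, gx2_gx2 σ⟩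
      exact (Equiv.sum_comp e (fun τ => chr B σ * (chr C σ - chr C τ) * (P σ * P τ))).symm
    rw [h1, Finset.sum_congr rfl fun σ _ => h2 σ, Finset.sum_comm]
    refine Finset.sum_congr rfl fun ρ _ => ?_
    rw [Finset.mul_sum]
    refine Finset.sum_congr rfl fun σ _ => ?_
    have h3 : P σ * P (gx2 σ ρ) = ∏ j ∈ s, ((a j ^ 2 + b j ^ 2 * chr (A j) ρ) +
        (a j * b j * (1 + chr (A j) ρ)) * chr (A j) σ) := by
      rw [hP]
      simp only
      rw [← Finset.prod_mul_distrib]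
      refine Finset.prod_congr rfl fun j _ => ?_
      rw [chr_gx2]
      have h4 := chr_sq (A j) σ
      linear_combination b j ^ 2 * chr (A j) ρ * h4
    rw [h3, chr_gx2, ← chr_mul]
    ring
  have h5 : 0 ≤ ∑ ρ : ι → Bool, (1 - chr C ρ) * ∑ σ : ι → Bool, chr (symmDiff B C) σ *
        ∏ j ∈ s, ((a j ^ 2 + b j ^ 2 * chr (A j) ρ) + (a j * b j * (1 + chr (A j) ρ)) *
          chr (A j) σ) := by
    refine Finset.sum_nonneg fun ρ _ => mul_nonneg (by linarith [(chr_le C ρ).1]) ?_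
    refine gks1 s A (fun j => a j ^ 2 + b j ^ 2 * chr (A j) ρ)
      (fun j => a j * b j * (1 + chr (A j) ρ)) ?_ ?_ _
    · intro j
      have h6 := (chr_le (A j) ρ).2
      have h7 := hb j
      have h8 := hab j
      have h9 : 0 ≤ b j ^ 2 * (1 + chr (A j) ρ) := mul_nonneg (sq_nonneg _) (by linarith)
      nlinarith
    · intro j
      have h6 := (chr_le (A j) ρ).2
      exact mul_nonneg (mul_nonneg ((hb j).trans (hab j)) (hb j)) (by linarith)
  rw [← key] at h5
  linarith

end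

end IsingS2
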