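import Pool.Agent.Helper98.IS.Defs2
import Pool.Agent.Helper98.IS.Gks

/-!
# IS-02: lattice inequalities from the Griffiths inequalities
-/

namespace IsingS2

open Complex Set MeasureTheory Filter Topology IsingNB
open scoped Real Matrix

noncomputable section

namespace Ineq

/-- product of the spins in `B` -/
def pr (B : Finset (ℤ × ℤ)) (s : ℤ × ℤ → ℝ) : ℝ := ∏ x ∈ B, s x

/-- sum over the configurations on `Λ` -/
def Es (Λ : Finset (ℤ × ℤ)) (G : (ℤ × ℤ → ℝ) → ℝ) : ℝ := ∑ σ : Λ → Bool, G (ext Λ σ)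

/-- the action as a function of the extended configuration -/
def act (plus : Bool) (Λ : Finset (ℤ × ℤ)) (s : ℤ × ℤ → ℝ) : ℝ :=
  ∑ x ∈ Λ, ∑ y ∈ nbr x, if y ∈ Λ then s x * s y / 2 else if plus then s x else 0

/-- values `±1`, equal to one off `Λ` -/
def Cfg (Λ : Finset (ℤ × ℤ)) (s : ℤ × ℤ → ℝ) : Prop :=
  (∀ x, s x = 1 ∨ s x = -1) ∧ ∀ x, x ∉ Λ → s x = 1

theorem cfg_ext (Λ : Finset (ℤ × ℤ)) (σ : Λ → Bool) : Cfg Λ (ext Λ σ) := by
  constructor
  · intro x
    unfold ext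
    split_ifs with h
    · cases σ ⟨x, h⟩ <;> simp [sg]
    · exact Or.inl rfl
  · intro x hx
    simp [ext, hx]

theorem Es_congr {Λ : Finset (ℤ × ℤ)} {G G' : (ℤ × ℤ → ℝ) → ℝ}
    (h : ∀ s, Cfg Λ s → G s = G' s) : Es Λ G = Es Λ G' :=
  Finset.sum_congr rfl fun σ _ => h _ (cfg_ext Λ σ)

/-- the spin configuration with minus spins on `S` -/
def spin (S : Finset (ℤ × ℤ)) (x : ℤ × ℤ) : ℝ := if x ∈ S then -1 else 1

theorem Es_powerset (Λ : Finset (ℤ × ℤ)) (G : (ℤ × ℤ → ℝ) → ℝ) :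
    Es Λ G = ∑ S ∈ Λ.powerset, G (spin S) := by
  classical
  unfold Es
  refine Finset.sum_bij' (fun σ _ => Λ.filter (fun x => ∃ h : x ∈ Λ, σ ⟨x, h⟩ = false))
    (fun S _ => fun x => decide (x.1 ∉ S)) ?_ ?_ ?_ ?_ ?_
  · intro σ _
    exact Finset.mem_powerset.2 (Finset.filter_subset _ _)
  · intro S _
    exact Finset.mem_univ _
  · intro σ _
    funext x
    obtain ⟨x, hx⟩ := x
    cases hσ : σ ⟨x, hx⟩ <;> simp [hx, hσ]
  · intro S hS
    have hS' := Finset.mem_powerset.1 hS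
    ext x
    simp only [Finset.mem_filter]
    constructor
    · rintro ⟨_, _, h⟩
      simpa using h
    · intro h
      exact ⟨hS' h, hS' h, by simpa using h⟩
  · intro σ _
    congr 1
    funext x
    unfold ext spin
    by_cases hx : x ∈ Λ
    · cases hσ : σ ⟨x, hx⟩ <;> simp [hx, hσ, sg]
    · simp [hx]

theorem Es_insert {Λ : Finset (ℤ × ℤ)} {z : ℤ × ℤ} (hz : z ∉ Λ) (G : (ℤ × ℤ → ℝ) → ℝ) :
    Es (insert z Λ) G = Es Λ G + Es Λ (fun s => G (Function.update s z (-1))) := by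
  classical
  rw [Es_powerset, Es_powerset, Es_powerset, Finset.sum_powerset_insert hz]
  congr 1
  refine Finset.sum_congr rfl fun S _ => ?_
  congr 1
  funext x
  unfold spin Function.update
  by_cases hx : x = z
  · subst hx; simp
  · simp [hx]

theorem pr_ext {Λ : Finset (ℤ × ℤ)} (B : Finset (ℤ × ℤ)) (σ : Λ → Bool) :
    pr B (ext Λ σ) = chr (B.subtype (· ∈ Λ)) σ := by
  classical
  unfold pr chr
  have h1 : ∏ i ∈ B.subtype (· ∈ Λ), sg (σ i) = ∏ i ∈ B.subtype (· ∈ Λ), ext Λ σ (i : ℤ × ℤ) := by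
    refine Finset.prod_congr rfl fun i _ => ?_
    simp [ext]
  rw [h1, Finset.prod_subtype_eq_prod_filter (s := B) (p := (· ∈ Λ)) (f := fun x => ext Λ σ x)]
  rw [Finset.prod_filter]
  refine Finset.prod_congr rfl fun x _ => ?_
  split_ifs with h
  · rfl
  · simp [ext, h]

/-- ferromagnetic weights -/
def Fer (w : (ℤ × ℤ → ℝ) → ℝ) : Prop :=
  ∃ (n : ℕ) (T : ℕ → Finset (ℤ × ℤ)) (a b : ℕ → ℝ), (∀ j, 0 < a j) ∧ (∀ j, 0 ≤ b j) ∧
    (∀ j, b j ≤ a j) ∧ ∀ s, w s = ∏ j ∈ Finset.range n, (a j + b j * pr (T j) s)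

theorem Fer.one : Fer (fun _ => 1) :=
  ⟨0, fun _ => ∅, fun _ => 1, fun _ => 0, fun _ => one_pos, fun _ => le_rfl, fun _ => zero_le_one,
    fun s => by simp⟩

theorem Fer.mul_factor {w : (ℤ × ℤ → ℝ) → ℝ} (hw : Fer w) {a0 b0 : ℝ} (T0 : Finset (ℤ × ℤ))
    (ha : 0 < a0) (hb : 0 ≤ b0) (hab : b0 ≤ a0) : Fer (fun s => w s * (a0 + b0 * pr T0 s)) := by
  obtain ⟨n, T, a, b, h1, h2, h3, h4⟩ := hw
  refine ⟨n + 1, Function.update T n T0, Function.update a n a0, Function.update b n b0,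
    ?_, ?_, ?_, ?_⟩
  · intro j
    by_cases hj : j = n
    · subst hj; simpa using ha
    · simpa [Function.update_of_ne hj] using h1 j
  · intro j
    by_cases hj : j = n
    · subst hj; simpa using hb
    · simpa [Function.update_of_ne hj] using h2 j
  · intro j
    by_cases hj : j = n
    · subst hj; simpa using hab
    · simpa [Function.update_of_ne hj] using h3 j
  · intro s
    dsimp only
    rw [Finset.prod_range_succ, h4 s]
    congr 1
    · refine Finset.prod_congr rfl fun j hj => ?_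
      have hj' : j ≠ n := (Finset.mem_range.1 hj).ne
      simp [Function.update_of_ne hj']
    · simp

theorem Fer.mul_prod {J : Type*} [DecidableEq J] {w : (ℤ × ℤ → ℝ) → ℝ} (hw : Fer w) (t : Finset J)
    (T : J → Finset (ℤ × ℤ)) (a b : J → ℝ) (ha : ∀ j ∈ t, 0 < a j) (hb : ∀ j ∈ t, 0 ≤ b j)
    (hab : ∀ j ∈ t, b j ≤ a j) : Fer (fun s => w s * ∏ j ∈ t, (a j + b j * pr (T j) s)) := by
  induction t using Finset.induction_on with
  | empty => simpa using hw
  | insert j t hj ih =>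
    have h1 := ih (fun i hi => ha i (Finset.mem_insert_of_mem hi))
      (fun i hi => hb i (Finset.mem_insert_of_mem hi)) (fun i hi => hab i (Finset.mem_insert_of_mem hi))
    have h2 := h1.mul_factor (T j) (ha j (Finset.mem_insert_self _ _))
      (hb j (Finset.mem_insert_self _ _)) (hab j (Finset.mem_insert_self _ _))
    have h3 : (fun s => w s * ∏ i ∈ insert j t, (a i + b i * pr (T i) s)) =
        fun s => w s * (∏ i ∈ t, (a i + b i * pr (T i) s)) * (a j + b j * pr (T j) s) := by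
      funext s
      rw [Finset.prod_insert hj]
      ring
    rw [h3]
    exact h2

theorem Fer.gks1 {w : (ℤ × ℤ → ℝ) → ℝ} (hw : Fer w) (Λ B : Finset (ℤ × ℤ)) :
    0 ≤ Es Λ (fun s => pr B s * w s) := by
  classical
  obtain ⟨n, T, a, b, h1, h2, h3, h4⟩ := hw
  have h := IsingS2.gks1 (Finset.range n) (fun j => (T j).subtype (· ∈ Λ)) a b
    (fun j => (h1 j).le) h2 (B.subtype (· ∈ Λ))
  unfold Es
  simp only [h4, pr_ext]
  exact h

theorem Fer.gks2 {w : (ℤ × ℤ → ℝ) → ℝ} (hw : Fer w) (Λ B C : Finset (ℤ × ℤ)) :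
    Es Λ (fun s => pr B s * w s) * Es Λ (fun s => pr C s * w s) ≤
      Es Λ (fun s => pr B s * pr C s * w s) * Es Λ w := by
  classical
  obtain ⟨n, T, a, b, h1, h2, h3, h4⟩ := hw
  have h := IsingS2.gks2 (Finset.range n) (fun j => (T j).subtype (· ∈ Λ)) a b
    h2 h3 (B.subtype (· ∈ Λ)) (C.subtype (· ∈ Λ))
  unfold Es
  simp only [h4, pr_ext]
  exact h

theorem pr_one_or {s : ℤ × ℤ → ℝ} (hs : ∀ x, s x = 1 ∨ s x = -1) (B : Finset (ℤ × ℤ)) :
    pr B s = 1 ∨ pr B s = -1 := by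
  classical
  unfold pr
  induction B using Finset.induction_on with
  | empty => simp
  | insert j t hj ih =>
    rw [Finset.prod_insert hj]
    rcases hs j with h | h <;> rcases ih with h' | h' <;> simp [h, h']

theorem Fer.nonneg {w : (ℤ × ℤ → ℝ) → ℝ} (hw : Fer w) {s : ℤ × ℤ → ℝ}
    (hs : ∀ x, s x = 1 ∨ s x = -1) : 0 ≤ w s := by
  obtain ⟨n, T, a, b, h1, h2, h3, h4⟩ := hw
  rw [h4]
  refine Finset.prod_nonneg fun j _ => ?_
  rcases pr_one_or hs (T j) with h | h <;> rw [h] <;> nlinarith [h1 j, h2 j, h3 j]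

theorem Fer.pos {w : (ℤ × ℤ → ℝ) → ℝ} (hw : Fer w) (Λ : Finset (ℤ × ℤ)) : 0 < Es Λ w := by
  classical
  have hw' := hw
  obtain ⟨n, T, a, b, h1, h2, h3, h4⟩ := hw
  rw [Es_powerset]
  refine Finset.sum_pos' ?_ ⟨∅, Finset.empty_mem_powerset _, ?_⟩
  · intro S _
    apply hw'.nonneg
    intro x
    unfold spin
    split_ifs <;> simp
  · rw [h4]
    refine Finset.prod_pos fun j _ => ?_
    have : pr (T j) (spin ∅) = 1 := by
      unfold pr
      exact Finset.prod_eq_one fun x _ => by simp [spin]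
    rw [this]
    have := h1 j
    have := h2 j
    linarith

theorem Es_add (Λ : Finset (ℤ × ℤ)) (F G : (ℤ × ℤ → ℝ) → ℝ) :
    Es Λ (fun s => F s + G s) = Es Λ F + Es Λ G := Finset.sum_add_distrib

theorem Es_mul_left (Λ : Finset (ℤ × ℤ)) (c : ℝ) (F : (ℤ × ℤ → ℝ) → ℝ) :
    Es Λ (fun s => c * F s) = c * Es Λ F := by
  unfold Es
  rw [Finset.mul_sum]

/-- adding a factor increases the expectation -/
theorem Fer.add_factor {w : (ℤ × ℤ → ℝ) → ℝ} (hw : Fer w) (Λ B : Finset (ℤ × ℤ)) {a0 b0 : ℝ}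
    (T0 : Finset (ℤ × ℤ)) (ha : 0 < a0) (hb : 0 ≤ b0) (hab : b0 ≤ a0) :
    Es Λ (fun s => pr B s * w s) / Es Λ w ≤
      Es Λ (fun s => pr B s * (w s * (a0 + b0 * pr T0 s))) / Es Λ (fun s => w s * (a0 + b0 * pr T0 s)) := by
  have hp := hw.pos Λ
  have hp' := (hw.mul_factor T0 ha hb hab).pos Λ
  rw [div_le_div_iff₀ hp hp']
  have h1 : Es Λ (fun s => w s * (a0 + b0 * pr T0 s)) = a0 * Es Λ w + b0 * Es Λ (fun s => pr T0 s * w s) := by
    rw [← Es_mul_left, ← Es_mul_left, ← Es_add]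
    exact Es_congr fun s _ => by ring
  have h2 : Es Λ (fun s => pr B s * (w s * (a0 + b0 * pr T0 s))) =
      a0 * Es Λ (fun s => pr B s * w s) + b0 * Es Λ (fun s => pr B s * pr T0 s * w s) := by
    rw [← Es_mul_left, ← Es_mul_left, ← Es_add]
    exact Es_congr fun s _ => by ring
  rw [h1, h2]
  have h3 := hw.gks2 Λ B T0
  nlinarith [mul_le_mul_of_nonneg_left h3 hb]

theorem Fer.add_prod {J : Type*} [DecidableEq J] {w : (ℤ × ℤ → ℝ) → ℝ} (hw : Fer w)
    (Λ B : Finset (ℤ × ℤ)) (t : Finset J)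
    (T : J → Finset (ℤ × ℤ)) (a b : J → ℝ) (ha : ∀ j ∈ t, 0 < a j) (hb : ∀ j ∈ t, 0 ≤ b j)
    (hab : ∀ j ∈ t, b j ≤ a j) :
    Es Λ (fun s => pr B s * w s) / Es Λ w ≤
      Es Λ (fun s => pr B s * (w s * ∏ j ∈ t, (a j + b j * pr (T j) s))) /
        Es Λ (fun s => w s * ∏ j ∈ t, (a j + b j * pr (T j) s)) := by
  induction t using Finset.induction_on with
  | empty => simp
  | insert j t hj ih =>
    have h1 := ih (fun i hi => ha i (Finset.mem_insert_of_mem hi))
      (fun i hi => hb i (Finset.mem_insert_of_mem hi)) (fun i hi => hab i (Finset.mem_insert_of_mem hi))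
    have hw' := hw.mul_prod t T a b (fun i hi => ha i (Finset.mem_insert_of_mem hi))
      (fun i hi => hb i (Finset.mem_insert_of_mem hi)) (fun i hi => hab i (Finset.mem_insert_of_mem hi))
    have h2 := hw'.add_factor Λ B (T j) (ha j (Finset.mem_insert_self _ _))
      (hb j (Finset.mem_insert_self _ _)) (hab j (Finset.mem_insert_self _ _))
    have h3 : (fun s => w s * ∏ i ∈ insert j t, (a i + b i * pr (T i) s)) =
        fun s => w s * (∏ i ∈ t, (a i + b i * pr (T i) s)) * (a j + b j * pr (T j) s) := by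
      funext s
      rw [Finset.prod_insert hj]
      ring
    have h4 : (fun s => pr B s * (w s * ∏ i ∈ insert j t, (a i + b i * pr (T i) s))) =
        fun s => pr B s * (w s * (∏ i ∈ t, (a i + b i * pr (T i) s)) * (a j + b j * pr (T j) s)) := by
      funext s
      rw [Finset.prod_insert hj]
      ring
    rw [h3, h4]
    exact h1.trans h2

/-! ### the Boltzmann weight -/

theorem ne_of_mem_nbr {x y : ℤ × ℤ} (h : y ∈ nbr x) : x ≠ y := by
  rintro rfl
  simp only [nbr, Prod.ext_iff, Finset.mem_insert, Finset.mem_singleton] at h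
  omega

theorem mem_nbr_comm {x y : ℤ × ℤ} : y ∈ nbr x ↔ x ∈ nbr y := by
  simp only [nbr, Finset.mem_insert, Finset.mem_singleton, Prod.ext_iff]
  omega

theorem exp_factor {K t : ℝ} (ht : t = 1 ∨ t = -1) :
    Real.exp (K * t) = Real.cosh K + Real.sinh K * t := by
  rcases ht with h | h
  · rw [h, mul_one, mul_one, Real.cosh_add_sinh]
  · rw [h, mul_neg_one, mul_neg_one, ← sub_eq_add_neg, Real.cosh_sub_sinh]

theorem sinh_le_cosh (K : ℝ) : Real.sinh K ≤ Real.cosh K := by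
  have := Real.cosh_sub_sinh K
  have := Real.exp_pos (-K)
  linarith

/-- the weight is ferromagnetic -/
theorem exists_fer (plus : Bool) {K : ℝ} (hK : 0 ≤ K) (Λ : Finset (ℤ × ℤ)) :
    ∃ w, Fer w ∧ ∀ s : ℤ × ℤ → ℝ, (∀ x, s x = 1 ∨ s x = -1) →
      Real.exp (K * act plus Λ s) = w s := by
  classical
  set A : ℤ × ℤ → ℤ × ℤ → ℝ := fun _ y =>
    if y ∈ Λ then Real.cosh (K / 2) else if plus then Real.cosh K else 1 with hA
  set Bc : ℤ × ℤ → ℤ × ℤ → ℝ := fun _ y =>
    if y ∈ Λ then Real.sinh (K / 2) else if plus then Real.sinh K else 0 with hB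
  set T : ℤ × ℤ → ℤ × ℤ → Finset (ℤ × ℤ) := fun x y =>
    if y ∈ Λ then {x, y} else {x} with hT
  refine ⟨fun s => 1 * ∏ j ∈ Λ.sigma nbr, (A j.1 j.2 + Bc j.1 j.2 * pr (T j.1 j.2) s),
    Fer.one.mul_prod (Λ.sigma nbr) (fun j => T j.1 j.2) (fun j => A j.1 j.2) (fun j => Bc j.1 j.2)
      ?_ ?_ ?_, ?_⟩
  · intro j _
    simp only [hA]
    split_ifs
    · exact Real.cosh_pos _
    · exact Real.cosh_pos _
    · exact one_pos
  · intro j _
    simp only [hB]
    split_ifs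
    · exact Real.sinh_nonneg_iff.2 (by linarith)
    · exact Real.sinh_nonneg_iff.2 hK
    · exact le_rfl
  · intro j _
    simp only [hA, hB]
    split_ifs
    · exact sinh_le_cosh _
    · exact sinh_le_cosh _
    · exact zero_le_one
  · intro s hs
    dsimp only
    rw [one_mul, Finset.prod_sigma]
    unfold act
    rw [Finset.mul_sum, Real.exp_sum]
    refine Finset.prod_congr rfl fun x hx => ?_
    rw [Finset.mul_sum, Real.exp_sum]
    refine Finset.prod_congr rfl fun y hy => ?_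
    have hxy := ne_of_mem_nbr hy
    simp only [hA, hB, hT]
    split_ifs with h1 h2
    · have h3 : s x * s y = 1 ∨ s x * s y = -1 := by
        rcases hs x with h | h <;> rcases hs y with h' | h' <;> simp [h, h']
      have h4 : pr {x, y} s = s x * s y := by
        unfold pr
        rw [Finset.prod_pair hxy]
      rw [h4, ← exp_factor h3]
      congr 1
      ring
    · have h4 : pr {x} s = s x := by simp [pr]
      rw [h4, ← exp_factor (hs x)]
    · simp

theorem Es_exp (plus : Bool) {K : ℝ} (Λ : Finset (ℤ × ℤ)) {w : (ℤ × ℤ → ℝ) → ℝ}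
    (hw : ∀ s : ℤ × ℤ → ℝ, (∀ x, s x = 1 ∨ s x = -1) → Real.exp (K * act plus Λ s) = w s)
    (Λ' : Finset (ℤ × ℤ)) (F : (ℤ × ℤ → ℝ) → ℝ) :
    Es Λ' (fun s => F s * Real.exp (K * act plus Λ s)) = Es Λ' (fun s => F s * w s) :=
  Es_congr fun s hs => by rw [hw s hs.1]

theorem Es_exp' (plus : Bool) {K : ℝ} (Λ : Finset (ℤ × ℤ)) {w : (ℤ × ℤ → ℝ) → ℝ}
    (hw : ∀ s : ℤ × ℤ → ℝ, (∀ x, s x = 1 ∨ s x = -1) → Real.exp (K * act plus Λ s) = w s)
    (Λ' : Finset (ℤ × ℤ)) :
    Es Λ' (fun s => Real.exp (K * act plus Λ s)) = Es Λ' w :=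
  Es_congr fun s hs => by rw [hw s hs.1]

theorem ev_eq (plus : Bool) (K : ℝ) (Λ : Finset (ℤ × ℤ)) (F : (ℤ × ℤ → ℝ) → ℝ) :
    ev plus K Λ F = Es Λ (fun s => F s * Real.exp (K * act plus Λ s)) /
      Es Λ (fun s => Real.exp (K * act plus Λ s)) := rfl

theorem ev_congr (plus : Bool) (K : ℝ) (Λ : Finset (ℤ × ℤ)) {F G : (ℤ × ℤ → ℝ) → ℝ}
    (h : ∀ s, Cfg Λ s → F s = G s) : ev plus K Λ F = ev plus K Λ G := by
  rw [ev_eq, ev_eq, Es_congr (G := fun s => F s * Real.exp (K * act plus Λ s))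
    (G' := fun s => G s * Real.exp (K * act plus Λ s)) fun s hs => by rw [h s hs]]

theorem den_pos (plus : Bool) (K : ℝ) (Λ : Finset (ℤ × ℤ)) :
    0 < Es Λ (fun s => Real.exp (K * act plus Λ s)) :=
  Finset.sum_pos (fun _ _ => Real.exp_pos _) Finset.univ_nonempty

theorem ev_pr_nonneg (plus : Bool) {K : ℝ} (hK : 0 ≤ K) (Λ B : Finset (ℤ × ℤ)) :
    0 ≤ ev plus K Λ (pr B) := by
  obtain ⟨w, hw, hw'⟩ := exists_fer plus hK Λ
  rw [ev_eq]
  refine div_nonneg ?_ (den_pos plus K Λ).le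
  rw [Es_exp plus Λ hw']
  exact hw.gks1 Λ B

theorem ev_le_one (plus : Bool) (K : ℝ) (Λ : Finset (ℤ × ℤ)) {F : (ℤ × ℤ → ℝ) → ℝ}
    (h : ∀ s, Cfg Λ s → F s ≤ 1) : ev plus K Λ F ≤ 1 := by
  rw [ev_eq, div_le_one (den_pos plus K Λ)]
  refine Finset.sum_le_sum fun σ _ => ?_
  have := h _ (cfg_ext Λ σ)
  exact mul_le_of_le_one_left (Real.exp_pos _).le this

theorem ev_pr_mul_le (plus : Bool) {K : ℝ} (hK : 0 ≤ K) (Λ B C : Finset (ℤ × ℤ)) :
    ev plus K Λ (pr B) * ev plus K Λ (pr C) ≤ ev plus K Λ (fun s => pr B s * pr C s) := by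
  obtain ⟨w, hw, hw'⟩ := exists_fer plus hK Λ
  rw [ev_eq, ev_eq, ev_eq, Es_exp plus Λ hw', Es_exp plus Λ hw', Es_exp plus Λ hw',
    Es_exp' plus Λ hw']
  have hp := hw.pos Λ
  have h := hw.gks2 Λ B C
  rw [div_mul_div_comm, div_le_div_iff₀ (mul_pos hp hp) hp]
  nlinarith

/-- the set whose spin product is `s x * s y` -/
def pB (x y : ℤ × ℤ) : Finset (ℤ × ℤ) := if x = y then ∅ else {x, y}

theorem pr_pB {s : ℤ × ℤ → ℝ} (hs : ∀ x, s x = 1 ∨ s x = -1) (x y : ℤ × ℤ) :
    s x * s y = pr (pB x y) s := by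
  unfold pB
  split_ifs with h
  · subst h
    rcases hs x with h | h <;> simp [h, pr]
  · unfold pr
    rw [Finset.prod_pair h]

theorem corr_eq (plus : Bool) (K : ℝ) (Λ : Finset (ℤ × ℤ)) (x y : ℤ × ℤ) :
    corr plus K Λ x y = ev plus K Λ (pr (pB x y)) :=
  ev_congr plus K Λ fun _ hs => pr_pB hs.1 x y

theorem mag_eq (plus : Bool) (K : ℝ) (Λ : Finset (ℤ × ℤ)) (x : ℤ × ℤ) :
    mag plus K Λ x = ev plus K Λ (pr {x}) :=
  ev_congr plus K Λ fun s _ => by simp [pr]

/-! ### adding a site -/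

theorem act_insert (plus : Bool) {Λ : Finset (ℤ × ℤ)} {z : ℤ × ℤ} (hz : z ∉ Λ) (s : ℤ × ℤ → ℝ) :
    act plus (insert z Λ) s = act plus Λ s +
      ∑ y ∈ nbr z, if y ∈ Λ then s z * s y - (if plus then s y else 0) else if plus then s z else 0 := by
  classical
  unfold act
  rw [Finset.sum_insert hz]
  have h1 : ∀ x ∈ Λ, (∑ y ∈ nbr x, if y ∈ insert z Λ then s x * s y / 2 else if plus then s x else 0) =
      (∑ y ∈ nbr x, if y ∈ Λ then s x * s y / 2 else if plus then s x else 0) +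
        if x ∈ nbr z then s x * s z / 2 - (if plus then s x else 0) else 0 := by
    intro x _
    have h2 : (if x ∈ nbr z then s x * s z / 2 - (if plus then s x else 0) else 0) =
        ∑ y ∈ nbr x, if y = z then s x * s z / 2 - (if plus then s x else 0) else 0 := by
      rw [Finset.sum_ite_eq']
      simp only [mem_nbr_comm (x := x) (y := z)]
    rw [h2, ← Finset.sum_add_distrib]
    refine Finset.sum_congr rfl fun y _ => ?_
    by_cases hy : y = z
    · subst hy
      simp [hz]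
    · simp [hy]
  rw [Finset.sum_congr rfl h1, Finset.sum_add_distrib]
  have h3 : (∑ x ∈ Λ, if x ∈ nbr z then s x * s z / 2 - (if plus then s x else 0) else 0) =
      ∑ y ∈ nbr z, if y ∈ Λ then s y * s z / 2 - (if plus then s y else 0) else 0 := by
    rw [← Finset.sum_filter, ← Finset.sum_filter]
    refine Finset.sum_congr ?_ fun _ _ => rfl
    ext y
    simp only [Finset.mem_filter]
    tauto
  rw [h3]
  have h4 : (∑ y ∈ nbr z, if y ∈ insert z Λ then s z * s y / 2 else if plus then s z else 0) =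
      ∑ y ∈ nbr z, if y ∈ Λ then s z * s y / 2 else if plus then s z else 0 := by
    refine Finset.sum_congr rfl fun y hy => ?_
    have : y ≠ z := (ne_of_mem_nbr hy).symm
    simp [this]
  rw [h4, add_comm, add_assoc, ← Finset.sum_add_distrib]
  congr 1
  refine Finset.sum_congr rfl fun y _ => ?_
  split_ifs <;> ring

theorem act_update (plus : Bool) {Λ : Finset (ℤ × ℤ)} {z : ℤ × ℤ} (hz : z ∉ Λ) (s : ℤ × ℤ → ℝ)
    (c : ℝ) : act plus Λ (Function.update s z c) = act plus Λ s := by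
  unfold act
  refine Finset.sum_congr rfl fun x hx => Finset.sum_congr rfl fun y _ => ?_
  have hxz : x ≠ z := fun h => hz (h ▸ hx)
  by_cases hy : y ∈ Λ
  · have hyz : y ≠ z := fun h => hz (h ▸ hy)
    simp [hy, Function.update_of_ne hxz, Function.update_of_ne hyz]
  · simp [hy, Function.update_of_ne hxz]

theorem pr_update {B : Finset (ℤ × ℤ)} {z : ℤ × ℤ} (hz : z ∉ B) (s : ℤ × ℤ → ℝ)
    (c : ℝ) : pr B (Function.update s z c) = pr B s := by
  unfold pr
  refine Finset.prod_congr rfl fun x hx => ?_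
  have hxz : x ≠ z := fun h => hz (h ▸ hx)
  simp [Function.update_of_ne hxz]

theorem step_free {K : ℝ} (hK : 0 ≤ K) {Λ B : Finset (ℤ × ℤ)} {z : ℤ × ℤ} (hz : z ∉ Λ)
    (hB : z ∉ B) : ev false K Λ (pr B) ≤ ev false K (insert z Λ) (pr B) := by
  classical
  obtain ⟨w, hw, hw'⟩ := exists_fer false hK Λ
  have h1 : Es (insert z Λ) (fun s => pr B s * Real.exp (K * act false Λ s)) =
      2 * Es Λ (fun s => pr B s * Real.exp (K * act false Λ s)) := by
    rw [Es_insert hz, two_mul]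
    congr 1
    exact Es_congr fun s _ => by rw [act_update false hz, pr_update hB]
  have h2 : Es (insert z Λ) (fun s => Real.exp (K * act false Λ s)) =
      2 * Es Λ (fun s => Real.exp (K * act false Λ s)) := by
    rw [Es_insert hz, two_mul]
    congr 1
    exact Es_congr fun s _ => by rw [act_update false hz]
  have h3 : ev false K Λ (pr B) = Es (insert z Λ) (fun s => pr B s * w s) / Es (insert z Λ) w := by
    rw [ev_eq, ← Es_exp false Λ hw', ← Es_exp' false Λ hw', h1, h2,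
      mul_div_mul_left _ _ (two_ne_zero)]
  rw [h3]
  have h4 : ∀ s : ℤ × ℤ → ℝ, (∀ x, s x = 1 ∨ s x = -1) →
      Real.exp (K * act false (insert z Λ) s) = w s * ∏ y ∈ nbr z,
        ((if y ∈ Λ then Real.cosh K else 1) + (if y ∈ Λ then Real.sinh K else 0) * pr {z, y} s) := by
    intro s hs
    rw [act_insert false hz, mul_add, Real.exp_add, hw' s hs, Finset.mul_sum, Real.exp_sum]
    congr 1
    refine Finset.prod_congr rfl fun y hy => ?_
    have hxy := ne_of_mem_nbr hy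
    by_cases h : y ∈ Λ
    · have h3 : s z * s y = 1 ∨ s z * s y = -1 := by
        rcases hs z with h | h <;> rcases hs y with h' | h' <;> simp [h, h']
      have h4 : pr {z, y} s = s z * s y := by
        unfold pr
        rw [Finset.prod_pair hxy]
      rw [if_pos h, if_pos h, if_pos h, h4, ← exp_factor h3]
      simp
    · simp [h]
  have h5 := hw.add_prod (insert z Λ) B (nbr z) (fun y => {z, y})
    (fun y => if y ∈ Λ then Real.cosh K else 1) (fun y => if y ∈ Λ then Real.sinh K else 0)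
    (fun y _ => by
      split_ifs
      · exact Real.cosh_pos _
      · exact one_pos)
    (fun y _ => by
      split_ifs
      · exact Real.sinh_nonneg_iff.2 hK
      · exact le_rfl)
    (fun y _ => by
      split_ifs
      · exact sinh_le_cosh _
      · exact zero_le_one)
  rw [ev_eq, Es_exp false (insert z Λ) h4, Es_exp' false (insert z Λ) h4]
  exact h5

theorem step_plus {K : ℝ} (hK : 0 ≤ K) {Λ : Finset (ℤ × ℤ)} (B : Finset (ℤ × ℤ)) {z : ℤ × ℤ}
    (hz : z ∉ Λ) : ev true K (insert z Λ) (pr B) ≤ ev true K Λ (pr B) := by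
  classical
  obtain ⟨w, hw, hw'⟩ := exists_fer true hK (insert z Λ)
  have h1 := hw.add_factor (insert z Λ) B {z} one_pos zero_le_one le_rfl
  rw [ev_eq, Es_exp true (insert z Λ) hw', Es_exp' true (insert z Λ) hw']
  refine h1.trans (le_of_eq ?_)
  obtain ⟨c, hc⟩ : ∃ c : ℝ, ∀ s : ℤ × ℤ → ℝ, s z = 1 → act true (insert z Λ) s = act true Λ s + c := by
    refine ⟨∑ y ∈ nbr z, if y ∈ Λ then 0 else 1, fun s hs => ?_⟩
    rw [act_insert true hz]
    congr 1
    refine Finset.sum_congr rfl fun y _ => ?_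
    simp [hs]
  have key : ∀ F : (ℤ × ℤ → ℝ) → ℝ, Es (insert z Λ) (fun s => F s * (w s * (1 + 1 * pr {z} s))) =
      (2 * Real.exp (K * c)) * Es Λ (fun s => F s * Real.exp (K * act true Λ s)) := by
    intro F
    rw [Es_insert hz]
    have e2 : Es Λ (fun s => F (Function.update s z (-1)) *
        (w (Function.update s z (-1)) * (1 + 1 * pr {z} (Function.update s z (-1))))) = 0 := by
      rw [Es_congr (G' := fun _ => 0)]
      · simp [Es]
      · intro s _
        simp [pr]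
    rw [e2, add_zero, ← Es_mul_left]
    refine Es_congr fun s hs => ?_
    have hs1 : s z = 1 := hs.2 z hz
    have : pr {z} s = 1 := by simp [pr, hs1]
    have e3 : Real.exp (K * (act true Λ s + c)) = Real.exp (K * act true Λ s) * Real.exp (K * c) := by
      rw [mul_add, Real.exp_add]
    rw [this, ← hw' s hs.1, hc s hs1, e3]
    ring
  have k1 := key (pr B)
  have k2 := key (fun _ => 1)
  simp only [one_mul] at k2
  simp only [one_mul] at k1
  simp only [one_mul]
  rw [k1, k2, ev_eq, mul_div_mul_left]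
  exact (mul_pos two_pos (Real.exp_pos _)).ne'

end Ineq

open Ineq

theorem corr_nonneg (plus : Bool) {K : ℝ} (hK : 0 ≤ K) (Λ : Finset (ℤ × ℤ)) (x y : ℤ × ℤ) :
    0 ≤ corr plus K Λ x y := by
  rw [corr_eq]
  exact ev_pr_nonneg plus hK Λ _

theorem corr_le_one (plus : Bool) (K : ℝ) (Λ : Finset (ℤ × ℤ)) (x y : ℤ × ℤ) :
    corr plus K Λ x y ≤ 1 := by
  rw [corr_eq]
  refine ev_le_one plus K Λ fun s hs => ?_
  rcases pr_one_or hs.1 (pB x y) with h | h <;> rw [h]
  norm_num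

theorem mag_nonneg {K : ℝ} (hK : 0 ≤ K) (Λ : Finset (ℤ × ℤ)) (x : ℤ × ℤ) :
    0 ≤ mag true K Λ x := by
  rw [mag_eq]
  exact ev_pr_nonneg true hK Λ _

theorem mag_le_one (K : ℝ) (Λ : Finset (ℤ × ℤ)) (x : ℤ × ℤ) : mag true K Λ x ≤ 1 := by
  rw [mag_eq]
  refine ev_le_one true K Λ fun s hs => ?_
  rcases pr_one_or hs.1 {x} with h | h <;> rw [h]
  norm_num

theorem mag_mul_le_corr {K : ℝ} (hK : 0 ≤ K) (Λ : Finset (ℤ × ℤ)) (x y : ℤ × ℤ) :
    mag true K Λ x * mag true K Λ y ≤ corr true K Λ x y := by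
  rw [mag_eq, mag_eq]
  refine (ev_pr_mul_le true hK Λ {x} {y}).trans (le_of_eq ?_)
  exact ev_congr true K Λ fun s _ => by simp [pr]

theorem corr_free_mono {K : ℝ} (hK : 0 ≤ K) {Λ Λ' : Finset (ℤ × ℤ)} (h : Λ ⊆ Λ') {x y : ℤ × ℤ}
    (hx : x ∈ Λ) (hy : y ∈ Λ) : corr false K Λ x y ≤ corr false K Λ' x y := by
  classical
  have hB : pB x y ⊆ Λ := by
    unfold pB
    split_ifs
    · exact Finset.empty_subset _
    · intro u hu
      rcases Finset.mem_insert.1 hu with rfl | hu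
      · exact hx
      · rw [Finset.mem_singleton.1 hu]; exact hy
  have key : ∀ D : Finset (ℤ × ℤ), ev false K Λ (pr (pB x y)) ≤ ev false K (Λ ∪ D) (pr (pB x y)) := by
    intro D
    induction D using Finset.induction_on with
    | empty => simp
    | insert z D hz ih =>
      rw [Finset.union_insert]
      by_cases hz' : z ∈ Λ ∪ D
      · rwa [Finset.insert_eq_of_mem hz']
      · exact ih.trans (step_free hK hz' fun hzB => hz' (Finset.mem_union_left _ (hB hzB)))
  rw [corr_eq, corr_eq]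
  have := key Λ'
  rwa [Finset.union_eq_right.2 h] at this

theorem Ineq.plus_anti_aux {K : ℝ} (hK : 0 ≤ K) {Λ Λ' : Finset (ℤ × ℤ)} (h : Λ ⊆ Λ') (B : Finset (ℤ × ℤ)) :
    ev true K Λ' (pr B) ≤ ev true K Λ (pr B) := by
  classical
  have key : ∀ D : Finset (ℤ × ℤ), ev true K (Λ ∪ D) (pr B) ≤ ev true K Λ (pr B) := by
    intro D
    induction D using Finset.induction_on with
    | empty => simp
    | insert z D hz ih =>
      rw [Finset.union_insert]
      by_cases hz' : z ∈ Λ ∪ D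
      · rwa [Finset.insert_eq_of_mem hz']
      · exact (step_plus hK B hz').trans ih
  have := key Λ'
  rwa [Finset.union_eq_right.2 h] at this

theorem corr_plus_anti {K : ℝ} (hK : 0 ≤ K) {Λ Λ' : Finset (ℤ × ℤ)} (h : Λ ⊆ Λ') (x y : ℤ × ℤ) :
    corr true K Λ' x y ≤ corr true K Λ x y := by
  rw [corr_eq, corr_eq]
  exact Ineq.plus_anti_aux hK h _

theorem mag_plus_anti {K : ℝ} (hK : 0 ≤ K) {Λ Λ' : Finset (ℤ × ℤ)} (h : Λ ⊆ Λ') (x : ℤ × ℤ) :
    mag true K Λ' x ≤ mag true K Λ x := by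
  rw [mag_eq, mag_eq]
  exact Ineq.plus_anti_aux hK h _

end

end IsingS2
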