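import Pool.Agent.Helper98.IS.GhsApp
import Pool.Agent.Helper98.IS.Ineq
import Pool.Agent.Helper98.IS.Defs2

/-!
# Equality of the plus and the free state when the free correlations are summable
-/

namespace IsingS2

open Finset Filter Topology Ghs Ineq

noncomputable section

theorem corr_free_le_plus {K : ℝ} (hK : 0 ≤ K) (Λ : Finset (ℤ × ℤ)) (x y : ℤ × ℤ) :
    corr false K Λ x y ≤ corr true K Λ x y := by
  classical
  obtain ⟨w, hw, hw'⟩ := exists_fer false hK Λ
  set t : Finset (Σ _ : ℤ × ℤ, ℤ × ℤ) := Λ.sigma fun x => (nbr x).filter (· ∉ Λ) with ht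
  have h1 : ∀ s : ℤ × ℤ → ℝ, act true Λ s = act false Λ s + ∑ p ∈ t, s p.1 := by
    intro s
    rw [ht, Finset.sum_sigma]
    unfold act
    rw [← Finset.sum_add_distrib]
    refine Finset.sum_congr rfl fun a _ => ?_
    rw [Finset.sum_filter, ← Finset.sum_add_distrib]
    refine Finset.sum_congr rfl fun b _ => ?_
    by_cases hb : b ∈ Λ <;> simp [hb]
  have h2 : ∀ s : ℤ × ℤ → ℝ, (∀ x, s x = 1 ∨ s x = -1) →
      Real.exp (K * act true Λ s) =
        w s * ∏ p ∈ t, (Real.cosh K + Real.sinh K * pr {p.1} s) := by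
    intro s hs
    rw [h1, mul_add, Real.exp_add, hw' s hs, Finset.mul_sum, Real.exp_sum]
    congr 1
    refine Finset.prod_congr rfl fun p _ => ?_
    have h4 : pr {p.1} s = s p.1 := by simp [pr]
    rw [h4, ← exp_factor (hs p.1)]
  rw [corr_eq, corr_eq, ev_eq, ev_eq, Es_exp false Λ hw', Es_exp' false Λ hw',
    Es_exp true Λ h2, Es_exp' true Λ h2]
  exact hw.add_prod Λ (pB x y) t (fun p => {p.1}) (fun _ => Real.cosh K) (fun _ => Real.sinh K)
    (fun _ _ => Real.cosh_pos K) (fun _ _ => Real.sinh_nonneg_iff.2 hK)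
    (fun _ _ => sinh_le_cosh K)

theorem ext_mem (Λ : Finset (ℤ × ℤ)) (σ : Λ → Bool) (i : Λ) : ext Λ σ i = sg (σ i) := by
  simp [ext]

theorem corr_eq_ee (plus : Bool) (K : ℝ) (Λ : Finset (ℤ × ℤ)) (i j : Λ) :
    corr plus K Λ i j = ee (latJ K Λ) (fun i => if plus then latb K Λ i else 0)
      (fun σ => sg (σ i) * sg (σ j)) := by
  unfold corr ev ee S
  simp only [action_eq, ext_mem, one_mul]

theorem mag_eq_ee (plus : Bool) (K : ℝ) (Λ : Finset (ℤ × ℤ)) (i : Λ) :
    mag plus K Λ i = ee (latJ K Λ) (fun i => if plus then latb K Λ i else 0)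
      (fun σ => sg (σ i)) := by
  unfold mag ev ee S
  simp only [action_eq, ext_mem, one_mul]

theorem latJ_nonneg {K : ℝ} (hK : 0 ≤ K) (Λ : Finset (ℤ × ℤ)) (i j : Λ) : 0 ≤ latJ K Λ i j := by
  unfold latJ; split_ifs <;> positivity

theorem latb_nonneg {K : ℝ} (hK : 0 ≤ K) (Λ : Finset (ℤ × ℤ)) (i : Λ) : 0 ≤ latb K Λ i := by
  unfold latb; positivity

theorem mag_false_eq (K : ℝ) (Λ : Finset (ℤ × ℤ)) {x : ℤ × ℤ} (hx : x ∈ Λ) :
    mag false K Λ x = 0 := by
  have := mag_eq_ee false K Λ ⟨x, hx⟩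
  simp only at this
  rw [this]
  unfold ee
  simp only [Bool.false_eq_true, if_false]
  rw [S_zero_field, zero_div]

theorem corr_plus_le {K : ℝ} (hK : 0 ≤ K) (Λ : Finset (ℤ × ℤ)) {x y : ℤ × ℤ} (hx : x ∈ Λ)
    (hy : y ∈ Λ) : corr true K Λ x y ≤ corr false K Λ x y + mag true K Λ x * mag true K Λ y := by
  have h := ee_cov_le (latJ_nonneg hK Λ) (latb_nonneg hK Λ) ⟨x, hx⟩ ⟨y, hy⟩ zero_le_one
  simp only [one_mul] at h
  have h1 := corr_eq_ee true K Λ ⟨x, hx⟩ ⟨y, hy⟩
  have h2 := corr_eq_ee false K Λ ⟨x, hx⟩ ⟨y, hy⟩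
  have h3 := mag_eq_ee true K Λ ⟨x, hx⟩
  have h4 := mag_eq_ee true K Λ ⟨y, hy⟩
  simp only [if_true, Bool.false_eq_true, if_false] at h1 h2 h3 h4
  rw [h1, h2, h3, h4]
  linarith

theorem mag_plus_le {K : ℝ} (hK : 0 ≤ K) (Λ : Finset (ℤ × ℤ)) {x : ℤ × ℤ} (hx : x ∈ Λ) :
    mag true K Λ x ≤ ∑ y ∈ Λ, K * (#{z ∈ nbr y | z ∉ Λ} : ℝ) * corr false K Λ x y := by
  have h := ee_mag_le (latJ_nonneg hK Λ) (latb_nonneg hK Λ) ⟨x, hx⟩
  have h3 := mag_eq_ee true K Λ ⟨x, hx⟩
  simp only [if_true] at h3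
  rw [h3]
  refine h.trans_eq ?_
  rw [← Finset.sum_coe_sort Λ]
  refine Finset.sum_congr rfl fun k _ => ?_
  have h2 := corr_eq_ee false K Λ ⟨x, hx⟩ k
  simp only [Bool.false_eq_true, if_false] at h2
  rw [h2, latb]

theorem mem_rect {k L : ℕ} {x : ℤ × ℤ} :
    x ∈ rect k L ↔ (-(k:ℤ) ≤ x.1 ∧ x.1 ≤ k) ∧ (-(L:ℤ) ≤ x.2 ∧ x.2 ≤ L) := by
  simp [rect, Finset.mem_product, Finset.mem_Icc]

theorem rect_mono {m n : ℕ} (h : m ≤ n) : rect m m ⊆ rect n n := by
  intro x hx
  rw [mem_rect] at hx ⊢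
  have : (m : ℤ) ≤ n := by exact_mod_cast h
  omega

theorem tendsto_rect : Tendsto (fun n : ℕ => rect n n) atTop atTop := by
  refine tendsto_atTop_finset_of_monotone (fun m n h => rect_mono h) fun x => ?_
  refine ⟨x.1.natAbs + x.2.natAbs, ?_⟩
  rw [mem_rect]
  omega

/-- If the free state has a summable two point function, the plus state has the same correlations,
and zero magnetisation. -/
theorem isSusc_plus_of_free {E T χ : ℝ} (hE : 0 < E) (hT : 0 < T) (h : IsSusc false E T χ) :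
    IsSusc true E T χ := by
  obtain ⟨G, m, hG, hm, hs⟩ := h
  set K := E / T with hKdef
  have hK : 0 < K := div_pos hE hT
  have h00 : ∀ n : ℕ, ((0 : ℤ), (0 : ℤ)) ∈ rect n n := by
    intro n; rw [mem_rect]; simp
  have hm0 : m = 0 := by
    refine tendsto_nhds_unique hm ?_
    refine tendsto_const_nhds.congr fun n => ?_
    rw [mag_false_eq K _ (h00 n)]
  have hs' : HasSum G (T * χ) := by
    simpa [hm0] using hs
  -- monotone convergence of the free correlations
  have hle : ∀ n : ℕ, ∀ x ∈ rect n n, corr false K (rect n n) (0, 0) x ≤ G x := by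
    intro n x hx
    refine ge_of_tendsto (hG x) ?_
    filter_upwards [eventually_ge_atTop n] with k hk
    exact corr_free_mono hK.le (rect_mono hk) (h00 n) hx
  have hGnn : ∀ x, 0 ≤ G x := by
    intro x
    exact ge_of_tendsto (hG x) (Eventually.of_forall fun n => corr_nonneg false hK.le _ _ _)
  -- the magnetisation
  have hmag : Tendsto (fun n => mag true K (rect n n) (0, 0)) atTop (𝓝 0) := by
    rw [← tendsto_add_atTop_iff_nat 1]
    have hb : ∀ n : ℕ, mag true K (rect (n+1) (n+1)) (0, 0) ≤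
        4 * K * (∑ y ∈ rect (n+1) (n+1), G y - ∑ y ∈ rect n n, G y) := by
      intro n
      refine (mag_plus_le hK.le _ (h00 (n+1))).trans ?_
      rw [← Finset.sum_sdiff (rect_mono (Nat.le_succ n)), ← Finset.sum_sdiff (rect_mono (Nat.le_succ n)),
        add_sub_cancel_right, Finset.mul_sum]
      have hz : ∑ y ∈ rect n n, K * (#{z ∈ nbr y | z ∉ rect n.succ n.succ} : ℝ) *
          corr false K (rect n.succ n.succ) (0, 0) y = 0 := by
        refine Finset.sum_eq_zero fun y hy => ?_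
        have : ({z ∈ nbr y | z ∉ rect n.succ n.succ} : Finset (ℤ × ℤ)) = ∅ := by
          rw [Finset.filter_eq_empty_iff]
          intro z hz hzz
          apply hzz
          rw [mem_rect] at hy ⊢
          simp only [nbr, Finset.mem_insert, Finset.mem_singleton] at hz
          push_cast
          rcases hz with rfl | rfl | rfl | rfl <;> simp only <;> omega
        rw [this]
        simp
      rw [hz, add_zero]
      refine Finset.sum_le_sum fun y hy => ?_
      have hy' : y ∈ rect n.succ n.succ := (Finset.mem_sdiff.1 hy).1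
      have h1 := hle _ y hy'
      have h2 : (#{z ∈ nbr y | z ∉ rect n.succ n.succ} : ℝ) ≤ 4 := by
        have h3 : #{z ∈ nbr y | z ∉ rect n.succ n.succ} ≤ 4 := by
          refine (Finset.card_filter_le _ _).trans ?_
          unfold nbr
          exact Finset.card_le_four
        exact_mod_cast h3
      have h5 := corr_nonneg false hK.le (rect n.succ n.succ) (0, 0) y
      calc K * (#{z ∈ nbr y | z ∉ rect n.succ n.succ} : ℝ) * corr false K (rect n.succ n.succ) (0, 0) y
          ≤ K * 4 * G y := by gcongr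
        _ = 4 * K * G y := by ring
    have hlim : Tendsto (fun n : ℕ => 4 * K * (∑ y ∈ rect (n+1) (n+1), G y - ∑ y ∈ rect n n, G y))
        atTop (𝓝 0) := by
      have h1 : Tendsto (fun n : ℕ => ∑ y ∈ rect n n, G y) atTop (𝓝 (T * χ)) :=
        hs'.comp tendsto_rect
      have h2 : Tendsto (fun n : ℕ => ∑ y ∈ rect (n+1) (n+1), G y) atTop (𝓝 (T * χ)) :=
        h1.comp (tendsto_add_atTop_nat 1)
      have h3 := (h2.sub h1).const_mul (4 * K)
      simpa using h3
    exact squeeze_zero (fun n => mag_nonneg hK.le _ _) hb hlim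
  refine ⟨G, 0, fun x => ?_, hmag, by simpa using hs'⟩
  have hx : ∀ᶠ n : ℕ in atTop, x ∈ rect n n := by
    filter_upwards [eventually_ge_atTop (x.1.natAbs + x.2.natAbs)] with n hn
    rw [mem_rect]
    omega
  have hup : Tendsto (fun n => corr false K (rect n n) (0, 0) x + mag true K (rect n n) (0, 0))
      atTop (𝓝 (G x)) := by
    simpa using (hG x).add hmag
  refine tendsto_of_tendsto_of_tendsto_of_le_of_le' (hG x) hup
    (Eventually.of_forall fun n => corr_free_le_plus hK.le _ _ _) ?_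
  filter_upwards [hx] with n hn
  refine (corr_plus_le hK.le _ (h00 n) hn).trans ?_
  have h1 := mag_le_one K (rect n n) x
  have h2 := mag_nonneg hK.le (rect n n) (0, 0)
  nlinarith

end

end IsingS2
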