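import Pool.Agent.Helper98.IS.Defs

/-!
# The GHS inequality for finite Ising models

The four replica proof: with `β = (σ₁+σ₂-σ₃-σ₄)/2` etc. all moments of `α, β, γ, δ` are nonnegative.
-/

namespace IsingS2

open Finset

noncomputable section

namespace Ghs

/-- the four new variables at one site -/
def lin : Fin 4 → (Bool × Bool × Bool × Bool) → ℝ
  | 0, q => (sg q.1 + sg q.2.1 + sg q.2.2.1 + sg q.2.2.2) / 2
  | 1, q => (sg q.1 + sg q.2.1 - sg q.2.2.1 - sg q.2.2.2) / 2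
  | 2, q => (sg q.1 - sg q.2.1 + sg q.2.2.1 - sg q.2.2.2) / 2
  | 3, q => (-sg q.1 + sg q.2.1 + sg q.2.2.1 - sg q.2.2.2) / 2

theorem lin0 (q) : lin 0 q = (sg q.1 + sg q.2.1 + sg q.2.2.1 + sg q.2.2.2) / 2 := rfl
theorem lin1 (q) : lin 1 q = (sg q.1 + sg q.2.1 - sg q.2.2.1 - sg q.2.2.2) / 2 := rfl
theorem lin2 (q) : lin 2 q = (sg q.1 - sg q.2.1 + sg q.2.2.1 - sg q.2.2.2) / 2 := rfl
theorem lin3 (q) : lin 3 q = (-sg q.1 + sg q.2.1 + sg q.2.2.1 - sg q.2.2.2) / 2 := rfl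

theorem sg_true : sg true = 1 := rfl
theorem sg_false : sg false = -1 := rfl

theorem site_nonneg (e : Fin 4 → ℕ) :
    0 ≤ ∑ q : Bool × Bool × Bool × Bool, ∏ a, lin a q ^ e a := by
  simp only [Fintype.sum_prod_type, Fintype.sum_bool, Fin.prod_univ_four, lin0, lin1, lin2, lin3,
    sg_true, sg_false]
  norm_num
  have h2 : ∀ n : ℕ, (0:ℝ) ≤ 2 ^ n + (-2) ^ n := by
    intro n
    have : ((-2:ℝ)) ^ n = (-1) ^ n * 2 ^ n := by rw [← mul_pow]; norm_num
    rw [this]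
    rcases neg_one_pow_eq_or ℝ n with h | h <;> rw [h] <;> nlinarith [pow_pos (two_pos : (0:ℝ) < 2) n]
  have h0 : ∀ n : ℕ, (0:ℝ) ≤ 0 ^ n := fun n => by positivity
  have key : (0:ℝ) ≤ (2 ^ e 0 + (-2) ^ e 0) * (0 ^ e 1 * 0 ^ e 2 * 0 ^ e 3) +
      (2 ^ e 1 + (-2) ^ e 1) * (0 ^ e 0 * 0 ^ e 2 * 0 ^ e 3) +
      (2 ^ e 2 + (-2) ^ e 2) * (0 ^ e 0 * 0 ^ e 1 * 0 ^ e 3) +
      (2 ^ e 3 + (-2) ^ e 3) * (0 ^ e 0 * 0 ^ e 1 * 0 ^ e 2) := by
    have a0 := h2 (e 0); have a1 := h2 (e 1); have a2 := h2 (e 2); have a3 := h2 (e 3)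
    have b0 := h0 (e 0); have b1 := h0 (e 1); have b2 := h0 (e 2); have b3 := h0 (e 3)
    positivity
  rcases neg_one_pow_eq_or ℝ (e 0) with h | h <;> rcases neg_one_pow_eq_or ℝ (e 1) with h' | h' <;>
  rcases neg_one_pow_eq_or ℝ (e 2) with h'' | h'' <;> rcases neg_one_pow_eq_or ℝ (e 3) with h''' | h''' <;>
  rw [h, h', h'', h'''] <;> nlinarith [key]

variable {ι : Type*} [Fintype ι] [DecidableEq ι]

/-- a monomial in the new variables -/
def mon (e : ι → Fin 4 → ℕ) (τ : ι → Bool × Bool × Bool × Bool) : ℝ :=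
  ∏ i, ∏ a, lin a (τ i) ^ e i a

theorem mon_add (e e' : ι → Fin 4 → ℕ) (τ) : mon (e + e') τ = mon e τ * mon e' τ := by
  simp only [mon, Pi.add_apply, pow_add, Finset.prod_mul_distrib]

theorem mon_single (i : ι) (a : Fin 4) (τ) :
    mon (Pi.single i (Pi.single a 1)) τ = lin a (τ i) := by
  unfold mon
  rw [Finset.prod_eq_single i]
  · rw [Finset.prod_eq_single a]
    · simp
    · intro b _ hb
      simp [Pi.single_eq_of_ne hb]
    · simp
  · intro j _ hj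
    simp [Pi.single_eq_of_ne hj]
  · simp

/-- all moments are nonnegative -/
def PosM (F : (ι → Bool × Bool × Bool × Bool) → ℝ) : Prop := ∀ e, 0 ≤ ∑ τ, F τ * mon e τ

/-- multiplication preserves nonnegativity of moments -/
def Good (f : (ι → Bool × Bool × Bool × Bool) → ℝ) : Prop := ∀ F, PosM F → PosM (fun τ => F τ * f τ)

theorem posM_one : PosM (fun _ : ι → Bool × Bool × Bool × Bool => (1 : ℝ)) := by
  intro e
  simp only [one_mul, mon]
  have := (Finset.prod_univ_sum (fun _ : ι => (Finset.univ : Finset (Bool × Bool × Bool × Bool)))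
    (fun i q => ∏ a, lin a q ^ e i a))
  rw [Fintype.piFinset_univ] at this
  rw [← this]
  exact Finset.prod_nonneg fun i _ => site_nonneg (e i)

theorem good_lin (i : ι) (a : Fin 4) : Good (fun τ : ι → Bool × Bool × Bool × Bool => lin a (τ i)) := by
  intro F hF e
  have := hF (Pi.single i (Pi.single a 1) + e)
  refine this.trans_eq (Finset.sum_congr rfl fun τ _ => ?_)
  rw [mon_add, mon_single, mul_assoc]

theorem Good.mul {f g : (ι → Bool × Bool × Bool × Bool) → ℝ} (hf : Good f) (hg : Good g) :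
    Good (fun τ => f τ * g τ) := by
  intro F hF
  have := hg _ (hf F hF)
  simpa [mul_assoc] using this

theorem Good.add {f g : (ι → Bool × Bool × Bool × Bool) → ℝ} (hf : Good f) (hg : Good g) :
    Good (fun τ => f τ + g τ) := by
  intro F hF e
  have h1 := hf F hF e
  have h2 := hg F hF e
  have := add_nonneg h1 h2
  rw [← Finset.sum_add_distrib] at this
  refine this.trans_eq (Finset.sum_congr rfl fun τ _ => ?_)
  ring

theorem Good.smul {f : (ι → Bool × Bool × Bool × Bool) → ℝ} (hf : Good f) {r : ℝ} (hr : 0 ≤ r) :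
    Good (fun τ => r * f τ) := by
  intro F hF e
  have h1 := mul_nonneg hr (hf F hF e)
  rw [Finset.mul_sum] at h1
  refine h1.trans_eq (Finset.sum_congr rfl fun τ _ => ?_)
  ring

theorem good_one : Good (fun _ : ι → Bool × Bool × Bool × Bool => (1 : ℝ)) := by
  intro F hF
  simpa using hF

theorem good_zero : Good (fun _ : ι → Bool × Bool × Bool × Bool => (0 : ℝ)) := by
  intro F hF e
  simp

theorem Good.sum {κ : Type*} (s : Finset κ) {f : κ → (ι → Bool × Bool × Bool × Bool) → ℝ}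
    (hf : ∀ k ∈ s, Good (f k)) : Good (fun τ => ∑ k ∈ s, f k τ) := by
  classical
  induction s using Finset.induction_on with
  | empty => simpa using good_zero
  | insert k s hk ih =>
    simp only [Finset.sum_insert hk]
    exact (hf k (Finset.mem_insert_self k s)).add
      (ih fun j hj => hf j (Finset.mem_insert_of_mem hj))

theorem Good.pow {f : (ι → Bool × Bool × Bool × Bool) → ℝ} (hf : Good f) (n : ℕ) :
    Good (fun τ => f τ ^ n) := by
  induction n with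
  | zero => simpa using good_one
  | succ n ih => simpa [pow_succ] using ih.mul hf

theorem Good.exp {f : (ι → Bool × Bool × Bool × Bool) → ℝ} (hf : Good f) :
    Good (fun τ => Real.exp (f τ)) := by
  intro F hF e
  have hs : ∀ x : ℝ, HasSum (fun n : ℕ => x ^ n / n.factorial) (Real.exp x) := by
    intro x
    rw [Real.exp_eq_exp_ℝ]
    exact NormedSpace.expSeries_div_hasSum_exp x
  have h1 : HasSum (fun n : ℕ => ∑ τ, F τ * (f τ ^ n / n.factorial) * mon e τ)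
      (∑ τ, F τ * Real.exp (f τ) * mon e τ) := by
    refine hasSum_sum fun τ _ => ?_
    exact ((hs (f τ)).mul_left (F τ)).mul_right (mon e τ)
  refine h1.nonneg fun n => ?_
  have h2 := ((hf.pow n).smul (r := 1 / n.factorial) (by positivity)) F hF e
  refine h2.trans_eq (Finset.sum_congr rfl fun τ _ => ?_)
  ring

/-- the four copies of a configuration -/
def split : ((ι → Bool) × (ι → Bool) × (ι → Bool) × (ι → Bool)) ≃
    (ι → Bool × Bool × Bool × Bool) where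
  toFun p i := (p.1 i, p.2.1 i, p.2.2.1 i, p.2.2.2 i)
  invFun τ := (fun i => (τ i).1, fun i => (τ i).2.1, fun i => (τ i).2.2.1, fun i => (τ i).2.2.2)
  left_inv p := rfl
  right_inv τ := rfl

/-- the interaction -/
def ham (J : ι → ι → ℝ) (h : ι → ℝ) (σ : ι → Bool) : ℝ :=
  ∑ i, ∑ j, J i j * (sg (σ i) * sg (σ j)) + ∑ i, h i * sg (σ i)

/-- the unnormalised sum -/
def S (J : ι → ι → ℝ) (h : ι → ℝ) (F : (ι → Bool) → ℝ) : ℝ := ∑ σ, F σ * Real.exp (ham J h σ)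

theorem ham_split (J : ι → ι → ℝ) (h : ι → ℝ) (p : (ι → Bool) × (ι → Bool) × (ι → Bool) × (ι → Bool)) :
    ham J h p.1 + ham J h p.2.1 + ham J h p.2.2.1 + ham J h p.2.2.2 =
      ∑ i, ∑ j, J i j * ∑ a, lin a (split p i) * lin a (split p j) +
        ∑ i, h i * (2 * lin 0 (split p i)) := by
  have h1 : ∑ i, ∑ j, J i j * (sg (p.1 i) * sg (p.1 j)) + ∑ i, ∑ j, J i j * (sg (p.2.1 i) * sg (p.2.1 j)) +
      ∑ i, ∑ j, J i j * (sg (p.2.2.1 i) * sg (p.2.2.1 j)) +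
      ∑ i, ∑ j, J i j * (sg (p.2.2.2 i) * sg (p.2.2.2 j)) =
      ∑ i, ∑ j, J i j * ∑ a, lin a (split p i) * lin a (split p j) := by
    simp only [← Finset.sum_add_distrib]
    refine Finset.sum_congr rfl fun i _ => Finset.sum_congr rfl fun j _ => ?_
    simp only [Fin.sum_univ_four, lin0, lin1, lin2, lin3, split, Equiv.coe_fn_mk]
    ring
  have h2 : ∑ i, h i * sg (p.1 i) + ∑ i, h i * sg (p.2.1 i) + ∑ i, h i * sg (p.2.2.1 i) +
      ∑ i, h i * sg (p.2.2.2 i) = ∑ i, h i * (2 * lin 0 (split p i)) := by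
    simp only [← Finset.sum_add_distrib]
    refine Finset.sum_congr rfl fun i _ => ?_
    simp only [lin0, split, Equiv.coe_fn_mk]
    ring
  rw [← h1, ← h2]
  simp only [ham]
  ring

theorem good_weight {J : ι → ι → ℝ} {h : ι → ℝ} (hJ : ∀ i j, 0 ≤ J i j) (hh : ∀ i, 0 ≤ h i) :
    Good (fun τ : ι → Bool × Bool × Bool × Bool => Real.exp (∑ i, ∑ j, J i j * ∑ a, lin a (τ i) * lin a (τ j) +
        ∑ i, h i * (2 * lin 0 (τ i)))) := by
  apply Good.exp
  apply Good.add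
  · exact Good.sum _ fun i _ => Good.sum _ fun j _ => Good.smul
      (Good.sum _ fun a _ => (good_lin i a).mul (good_lin j a)) (hJ i j)
  · exact Good.sum _ fun i _ => Good.smul ((good_lin i 0).smul (by norm_num)) (hh i)

theorem four_nonneg {J : ι → ι → ℝ} {h : ι → ℝ} (hJ : ∀ i j, 0 ≤ J i j) (hh : ∀ i, 0 ≤ h i)
    {f : (ι → Bool × Bool × Bool × Bool) → ℝ} (hf : Good f) :
    0 ≤ ∑ σ1 : ι → Bool, ∑ σ2 : ι → Bool, ∑ σ3 : ι → Bool, ∑ σ4 : ι → Bool,
      f (fun i => (σ1 i, σ2 i, σ3 i, σ4 i)) * (Real.exp (ham J h σ1) * Real.exp (ham J h σ2) *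
        Real.exp (ham J h σ3) * Real.exp (ham J h σ4)) := by
  have h0 := (hf.mul (good_weight hJ hh)) _ posM_one 0
  have h1 : ∀ τ : ι → Bool × Bool × Bool × Bool, mon 0 τ = 1 := by
    intro τ; simp [mon]
  simp only [h1, mul_one, one_mul] at h0
  rw [← Equiv.sum_comp split] at h0
  simp only [Fintype.sum_prod_type] at h0
  refine h0.trans_eq ?_
  refine Finset.sum_congr rfl fun σ1 _ => Finset.sum_congr rfl fun σ2 _ =>
    Finset.sum_congr rfl fun σ3 _ => Finset.sum_congr rfl fun σ4 _ => ?_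
  have h2 := ham_split J h (σ1, σ2, σ3, σ4)
  rw [← h2]
  simp only [Real.exp_add]
  rfl

theorem sum_four (F1 F2 F3 F4 : (ι → Bool) → ℝ) :
    ∑ σ1 : ι → Bool, ∑ σ2 : ι → Bool, ∑ σ3 : ι → Bool, ∑ σ4 : ι → Bool,
      F1 σ1 * F2 σ2 * F3 σ3 * F4 σ4 =
    (∑ σ, F1 σ) * (∑ σ, F2 σ) * (∑ σ, F3 σ) * (∑ σ, F4 σ) := by
  simp only [← Finset.mul_sum, ← Finset.sum_mul]

/-- a cubic polynomial, linear in each of the three variables -/
def Pl (c0 c1 c2 c3 c12 c13 c23 c123 A B C : ℝ) : ℝ :=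
  c0 + c1 * A + c2 * B + c3 * C + c12 * (A * B) + c13 * (A * C) + c23 * (B * C) + c123 * (A * B * C)

theorem step {κ : Type*} [Fintype κ] (x y z w : κ → ℝ)
    (Z si sj sk sij sik sjk sijk : ℝ) (hZ : ∑ σ, w σ = Z) (hi : ∑ σ, x σ * w σ = si)
    (hj : ∑ σ, y σ * w σ = sj) (hk : ∑ σ, z σ * w σ = sk) (hij : ∑ σ, x σ * y σ * w σ = sij)
    (hik : ∑ σ, x σ * z σ * w σ = sik) (hjk : ∑ σ, y σ * z σ * w σ = sjk)
    (hijk : ∑ σ, x σ * y σ * z σ * w σ = sijk)
    (c0 c1 c2 c3 c12 c13 c23 c123 A B C α β γ : ℝ) :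
    ∑ σ, Pl c0 c1 c2 c3 c12 c13 c23 c123 (A + α * x σ) (B + β * y σ) (C + γ * z σ) * w σ =
      Pl (c0 * Z + c1 * α * si + c2 * β * sj + c3 * γ * sk + c12 * α * β * sij +
          c13 * α * γ * sik + c23 * β * γ * sjk + c123 * α * β * γ * sijk)
        (c1 * Z + c12 * β * sj + c13 * γ * sk + c123 * β * γ * sjk)
        (c2 * Z + c12 * α * si + c23 * γ * sk + c123 * α * γ * sik)
        (c3 * Z + c13 * α * si + c23 * β * sj + c123 * α * β * sij)
        (c12 * Z + c123 * γ * sk) (c13 * Z + c123 * β * sj) (c23 * Z + c123 * α * si)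
        (c123 * Z) A B C := by
  subst hZ hi hj hk hij hik hjk hijk
  simp only [Pl, Finset.mul_sum, Finset.sum_mul, ← Finset.sum_add_distrib]
  refine Finset.sum_congr rfl fun σ _ => ?_
  ring

theorem ghs_aux (J : ι → ι → ℝ) (h : ι → ℝ) (i j k : ι) :
    ∑ σ1 : ι → Bool, ∑ σ2 : ι → Bool, ∑ σ3 : ι → Bool, ∑ σ4 : ι → Bool,
      ((sg (σ1 i) + sg (σ2 i) - sg (σ3 i) - sg (σ4 i)) *
        (sg (σ1 j) - sg (σ2 j) + sg (σ3 j) - sg (σ4 j)) *
        (-sg (σ1 k) + sg (σ2 k) + sg (σ3 k) - sg (σ4 k))) *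
      (Real.exp (ham J h σ1) * Real.exp (ham J h σ2) *
        Real.exp (ham J h σ3) * Real.exp (ham J h σ4)) =
    -4 * (S J h (fun σ => sg (σ i) * sg (σ j) * sg (σ k)) * S J h (fun _ => 1) ^ 3 -
      S J h (fun σ => sg (σ i) * sg (σ j)) * S J h (fun σ => sg (σ k)) * S J h (fun _ => 1) ^ 2 -
      S J h (fun σ => sg (σ i) * sg (σ k)) * S J h (fun σ => sg (σ j)) * S J h (fun _ => 1) ^ 2 -
      S J h (fun σ => sg (σ j) * sg (σ k)) * S J h (fun σ => sg (σ i)) * S J h (fun _ => 1) ^ 2 +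
      2 * (S J h (fun σ => sg (σ i)) * S J h (fun σ => sg (σ j)) * S J h (fun σ => sg (σ k))) *
        S J h (fun _ => 1)) := by
  have st := step (fun σ : ι → Bool => sg (σ i)) (fun σ => sg (σ j)) (fun σ => sg (σ k))
    (fun σ => Real.exp (ham J h σ)) (S J h (fun _ => 1)) (S J h (fun σ => sg (σ i)))
    (S J h (fun σ => sg (σ j))) (S J h (fun σ => sg (σ k)))
    (S J h (fun σ => sg (σ i) * sg (σ j))) (S J h (fun σ => sg (σ i) * sg (σ k)))
    (S J h (fun σ => sg (σ j) * sg (σ k))) (S J h (fun σ => sg (σ i) * sg (σ j) * sg (σ k)))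
    (by simp [S]) rfl rfl rfl rfl rfl rfl rfl
  have e1 : ∀ (u c0 c1 c2 c3 c12 c13 c23 c123 A B C α β γ : ℝ),
      ∑ σ : ι → Bool, (u * Real.exp (ham J h σ)) *
        Pl c0 c1 c2 c3 c12 c13 c23 c123 (A + α * sg (σ i)) (B + β * sg (σ j)) (C + γ * sg (σ k)) =
      u * ∑ σ : ι → Bool,
        Pl c0 c1 c2 c3 c12 c13 c23 c123 (A + α * sg (σ i)) (B + β * sg (σ j)) (C + γ * sg (σ k)) *
          Real.exp (ham J h σ) := by
    intros
    rw [Finset.mul_sum]
    refine Finset.sum_congr rfl fun σ _ => ?_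
    ring
  have e0 : ∀ σ1 σ2 σ3 σ4 : ι → Bool,
      ((sg (σ1 i) + sg (σ2 i) - sg (σ3 i) - sg (σ4 i)) *
        (sg (σ1 j) - sg (σ2 j) + sg (σ3 j) - sg (σ4 j)) *
        (-sg (σ1 k) + sg (σ2 k) + sg (σ3 k) - sg (σ4 k))) *
      (Real.exp (ham J h σ1) * Real.exp (ham J h σ2) *
        Real.exp (ham J h σ3) * Real.exp (ham J h σ4)) =
      (1 * Real.exp (ham J h σ1) * Real.exp (ham J h σ2) * Real.exp (ham J h σ3) *
        Real.exp (ham J h σ4)) * Pl 0 0 0 0 0 0 0 1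
        ((((0 + 1 * sg (σ1 i)) + 1 * sg (σ2 i)) + (-1) * sg (σ3 i)) + (-1) * sg (σ4 i))
        ((((0 + 1 * sg (σ1 j)) + (-1) * sg (σ2 j)) + 1 * sg (σ3 j)) + (-1) * sg (σ4 j))
        ((((0 + (-1) * sg (σ1 k)) + 1 * sg (σ2 k)) + 1 * sg (σ3 k)) + (-1) * sg (σ4 k)) := by
    intro σ1 σ2 σ3 σ4
    simp only [Pl]
    ring
  simp only [e0]
  simp only [e1, st]
  simp only [Pl]
  ring

/-- The GHS inequality: the third truncated correlation is nonpositive. -/
theorem ghs {J : ι → ι → ℝ} {h : ι → ℝ} (hJ : ∀ i j, 0 ≤ J i j) (hh : ∀ i, 0 ≤ h i) (i j k : ι) :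
    S J h (fun σ => sg (σ i) * sg (σ j) * sg (σ k)) * S J h (fun _ => 1) ^ 2 -
      S J h (fun σ => sg (σ i) * sg (σ j)) * S J h (fun σ => sg (σ k)) * S J h (fun _ => 1) -
      S J h (fun σ => sg (σ i) * sg (σ k)) * S J h (fun σ => sg (σ j)) * S J h (fun _ => 1) -
      S J h (fun σ => sg (σ j) * sg (σ k)) * S J h (fun σ => sg (σ i)) * S J h (fun _ => 1) +
      2 * (S J h (fun σ => sg (σ i)) * S J h (fun σ => sg (σ j)) * S J h (fun σ => sg (σ k))) ≤ 0 := by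
  have h1 := four_nonneg hJ hh (((good_lin i 1).mul (good_lin j 2)).mul (good_lin k 3))
  have h2 : 0 ≤ 8 * ∑ σ1 : ι → Bool, ∑ σ2 : ι → Bool, ∑ σ3 : ι → Bool, ∑ σ4 : ι → Bool,
      (lin 1 (σ1 i, σ2 i, σ3 i, σ4 i) * lin 2 (σ1 j, σ2 j, σ3 j, σ4 j) *
        lin 3 (σ1 k, σ2 k, σ3 k, σ4 k)) * (Real.exp (ham J h σ1) * Real.exp (ham J h σ2) *
        Real.exp (ham J h σ3) * Real.exp (ham J h σ4)) := mul_nonneg (by norm_num) h1
  have h3 := ghs_aux J h i j k
  have h4 : (8 : ℝ) * ∑ σ1 : ι → Bool, ∑ σ2 : ι → Bool, ∑ σ3 : ι → Bool, ∑ σ4 : ι → Bool,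
      (lin 1 (σ1 i, σ2 i, σ3 i, σ4 i) * lin 2 (σ1 j, σ2 j, σ3 j, σ4 j) *
        lin 3 (σ1 k, σ2 k, σ3 k, σ4 k)) * (Real.exp (ham J h σ1) * Real.exp (ham J h σ2) *
        Real.exp (ham J h σ3) * Real.exp (ham J h σ4)) =
      ∑ σ1 : ι → Bool, ∑ σ2 : ι → Bool, ∑ σ3 : ι → Bool, ∑ σ4 : ι → Bool,
      ((sg (σ1 i) + sg (σ2 i) - sg (σ3 i) - sg (σ4 i)) *
        (sg (σ1 j) - sg (σ2 j) + sg (σ3 j) - sg (σ4 j)) *
        (-sg (σ1 k) + sg (σ2 k) + sg (σ3 k) - sg (σ4 k))) *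
      (Real.exp (ham J h σ1) * Real.exp (ham J h σ2) *
        Real.exp (ham J h σ3) * Real.exp (ham J h σ4)) := by
    simp only [Finset.mul_sum]
    refine Finset.sum_congr rfl fun σ1 _ => Finset.sum_congr rfl fun σ2 _ =>
      Finset.sum_congr rfl fun σ3 _ => Finset.sum_congr rfl fun σ4 _ => ?_
    simp only [lin1, lin2, lin3]
    ring
  rw [h4, h3] at h2
  have hZ : 0 < S J h (fun _ => 1) := by
    unfold S
    exact Finset.sum_pos (fun σ _ => by positivity) Finset.univ_nonempty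
  by_contra hc
  push Not at hc
  have := mul_pos hc hZ
  nlinarith

end Ghs

end

end IsingS2
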