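import Pool.Agent.Helper98.IS.Ghs

/-!
# Comparison of plus and free boundary conditions by the GHS inequality
-/

namespace IsingS2

open Finset

noncomputable section

namespace Ghs

variable {ι : Type*} [Fintype ι] [DecidableEq ι]

theorem S_pos (J : ι → ι → ℝ) (h : ι → ℝ) : 0 < S J h (fun _ => 1) := by
  unfold S
  exact Finset.sum_pos (fun σ _ => by positivity) Finset.univ_nonempty

theorem S_deriv (J : ι → ι → ℝ) (b : ι → ℝ) (F : (ι → Bool) → ℝ) (s : ℝ) :
    HasDerivAt (fun s => S J (fun i => s * b i) F)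
      (∑ k, b k * S J (fun i => s * b i) (fun σ => F σ * sg (σ k))) s := by
  have h1 : ∀ σ : ι → Bool, HasDerivAt (fun s => F σ * Real.exp (ham J (fun i => s * b i) σ))
      (F σ * (Real.exp (ham J (fun i => s * b i) σ) * ∑ k, b k * sg (σ k))) s := by
    intro σ
    have h2 : HasDerivAt (fun s => ham J (fun i => s * b i) σ) (∑ k, b k * sg (σ k)) s := by
      unfold ham
      have h3 : HasDerivAt (fun s : ℝ => ∑ i, (s * b i) * sg (σ i)) (∑ k, b k * sg (σ k)) s := by
        refine HasDerivAt.fun_sum fun i _ => ?_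
        have := ((hasDerivAt_id s).mul_const (b i)).mul_const (sg (σ i))
        simpa using this
      exact h3.const_add _
    exact (h2.exp).const_mul (F σ)
  have h4 := HasDerivAt.fun_sum (u := Finset.univ) fun σ _ => h1 σ
  refine h4.congr_deriv ?_
  unfold S
  simp only [Finset.mul_sum]
  rw [Finset.sum_comm]
  refine Finset.sum_congr rfl fun k _ => Finset.sum_congr rfl fun σ _ => ?_
  ring

/-- expectation -/
def ee (J : ι → ι → ℝ) (h : ι → ℝ) (F : (ι → Bool) → ℝ) : ℝ := S J h F / S J h (fun _ => 1)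

theorem ee_deriv (J : ι → ι → ℝ) (b : ι → ℝ) (F : (ι → Bool) → ℝ) (s : ℝ) :
    HasDerivAt (fun s => ee J (fun i => s * b i) F)
      (∑ k, b k * (ee J (fun i => s * b i) (fun σ => F σ * sg (σ k)) -
        ee J (fun i => s * b i) F * ee J (fun i => s * b i) (fun σ => sg (σ k)))) s := by
  have hZ := (S_pos J (fun i => s * b i)).ne'
  have h1 := (S_deriv J b F s).div (S_deriv J b (fun _ => 1) s) hZ
  refine h1.congr_deriv ?_
  unfold ee
  simp only [one_mul]
  rw [div_eq_iff (pow_ne_zero 2 hZ), Finset.sum_mul, Finset.sum_mul, Finset.mul_sum,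
    ← Finset.sum_sub_distrib]
  refine Finset.sum_congr rfl fun k _ => ?_
  field_simp

theorem ee_cov_anti {J : ι → ι → ℝ} {b : ι → ℝ} (hJ : ∀ i j, 0 ≤ J i j) (hb : ∀ i, 0 ≤ b i)
    (i j : ι) : AntitoneOn (fun s => ee J (fun i => s * b i) (fun σ => sg (σ i) * sg (σ j)) -
      ee J (fun i => s * b i) (fun σ => sg (σ i)) * ee J (fun i => s * b i) (fun σ => sg (σ j)))
      (Set.Ici 0) := by
  have hd : ∀ s, HasDerivAt (fun s => ee J (fun i => s * b i) (fun σ => sg (σ i) * sg (σ j)) -
      ee J (fun i => s * b i) (fun σ => sg (σ i)) * ee J (fun i => s * b i) (fun σ => sg (σ j))) _ s :=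
    fun s => (ee_deriv J b (fun σ => sg (σ i) * sg (σ j)) s).sub
      ((ee_deriv J b (fun σ => sg (σ i)) s).mul (ee_deriv J b (fun σ => sg (σ j)) s))
  refine antitoneOn_of_deriv_nonpos (convex_Ici 0)
    (fun s _ => (hd s).continuousAt.continuousWithinAt)
    (fun s _ => (hd s).differentiableAt.differentiableWithinAt) ?_
  intro s hs
  rw [interior_Ici] at hs
  have hs0 : 0 < s := hs
  rw [(hd s).deriv]
  have hg := fun k => ghs hJ (fun i => mul_nonneg hs0.le (hb i)) i j k
  have hZ := S_pos J (fun i => s * b i)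
  rw [Finset.sum_mul, Finset.mul_sum, ← Finset.sum_add_distrib, ← Finset.sum_sub_distrib]
  refine Finset.sum_nonpos fun k _ => ?_
  have h1 := hg k
  have h2 : b k * (ee J (fun i => s * b i) (fun σ => sg (σ i) * sg (σ j) * sg (σ k)) -
        ee J (fun i => s * b i) (fun σ => sg (σ i) * sg (σ j)) *
          ee J (fun i => s * b i) (fun σ => sg (σ k))) -
      (b k * (ee J (fun i => s * b i) (fun σ => sg (σ i) * sg (σ k)) -
        ee J (fun i => s * b i) (fun σ => sg (σ i)) * ee J (fun i => s * b i) (fun σ => sg (σ k))) *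
          ee J (fun i => s * b i) (fun σ => sg (σ j)) +
        ee J (fun i => s * b i) (fun σ => sg (σ i)) *
          (b k * (ee J (fun i => s * b i) (fun σ => sg (σ j) * sg (σ k)) -
            ee J (fun i => s * b i) (fun σ => sg (σ j)) *
              ee J (fun i => s * b i) (fun σ => sg (σ k))))) =
      b k * ((S J (fun i => s * b i) (fun σ => sg (σ i) * sg (σ j) * sg (σ k)) *
          S J (fun i => s * b i) (fun _ => 1) ^ 2 -
      S J (fun i => s * b i) (fun σ => sg (σ i) * sg (σ j)) * S J (fun i => s * b i) (fun σ => sg (σ k)) *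
        S J (fun i => s * b i) (fun _ => 1) -
      S J (fun i => s * b i) (fun σ => sg (σ i) * sg (σ k)) * S J (fun i => s * b i) (fun σ => sg (σ j)) *
        S J (fun i => s * b i) (fun _ => 1) -
      S J (fun i => s * b i) (fun σ => sg (σ j) * sg (σ k)) * S J (fun i => s * b i) (fun σ => sg (σ i)) *
        S J (fun i => s * b i) (fun _ => 1) +
      2 * (S J (fun i => s * b i) (fun σ => sg (σ i)) * S J (fun i => s * b i) (fun σ => sg (σ j)) *
        S J (fun i => s * b i) (fun σ => sg (σ k)))) / S J (fun i => s * b i) (fun _ => 1) ^ 3) := by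
    unfold ee
    field_simp
    ring
  rw [h2]
  exact mul_nonpos_of_nonneg_of_nonpos (hb k) (div_nonpos_of_nonpos_of_nonneg h1 (by positivity))

theorem S_zero_field (J : ι → ι → ℝ) (i : ι) : S J (fun _ => 0) (fun σ => sg (σ i)) = 0 := by
  have hsg : ∀ b : Bool, sg (!b) = -sg b := by intro b; cases b <;> simp [sg]
  let e : (ι → Bool) ≃ (ι → Bool) :=
    { toFun := fun σ i => !σ i
      invFun := fun σ i => !σ i
      left_inv := fun σ => by simp
      right_inv := fun σ => by simp }
  have h1 : S J (fun _ => 0) (fun σ => sg (σ i)) = -S J (fun _ => 0) (fun σ => sg (σ i)) := by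
    conv_lhs => unfold S
    rw [← Equiv.sum_comp e]
    unfold S
    rw [← Finset.sum_neg_distrib]
    refine Finset.sum_congr rfl fun σ _ => ?_
    simp only [e, Equiv.coe_fn_mk, hsg, ham, zero_mul, Finset.sum_const_zero, neg_mul_neg, add_zero]
    ring
  linarith

theorem ee_cov_le {J : ι → ι → ℝ} {b : ι → ℝ} (hJ : ∀ i j, 0 ≤ J i j) (hb : ∀ i, 0 ≤ b i)
    (i j : ι) {s : ℝ} (hs : 0 ≤ s) : ee J (fun i => s * b i) (fun σ => sg (σ i) * sg (σ j)) -
      ee J (fun i => s * b i) (fun σ => sg (σ i)) * ee J (fun i => s * b i) (fun σ => sg (σ j)) ≤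
      ee J (fun _ => 0) (fun σ => sg (σ i) * sg (σ j)) := by
  have h := ee_cov_anti hJ hb i j (Set.mem_Ici.2 le_rfl) (Set.mem_Ici.2 hs) hs
  simp only [zero_mul] at h
  refine h.trans_eq ?_
  have : ee J (fun _ => 0) (fun σ => sg (σ i)) = 0 := by
    unfold ee; rw [S_zero_field, zero_div]
  rw [this]
  ring

theorem ee_mag_le {J : ι → ι → ℝ} {b : ι → ℝ} (hJ : ∀ i j, 0 ≤ J i j) (hb : ∀ i, 0 ≤ b i)
    (i : ι) : ee J b (fun σ => sg (σ i)) ≤
      ∑ k, b k * ee J (fun _ => 0) (fun σ => sg (σ i) * sg (σ k)) := by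
  set c := ∑ k, b k * ee J (fun _ => 0) (fun σ => sg (σ i) * sg (σ k)) with hc
  have hd : ∀ s, HasDerivAt (fun s => ee J (fun i => s * b i) (fun σ => sg (σ i)) - s * c) _ s :=
    fun s => (ee_deriv J b (fun σ => sg (σ i)) s).sub ((hasDerivAt_id s).mul_const c)
  have hanti : AntitoneOn (fun s => ee J (fun i => s * b i) (fun σ => sg (σ i)) - s * c)
      (Set.Ici 0) := by
    refine antitoneOn_of_deriv_nonpos (convex_Ici 0)
      (fun s _ => (hd s).continuousAt.continuousWithinAt)
      (fun s _ => (hd s).differentiableAt.differentiableWithinAt) ?_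
    intro s hs
    rw [interior_Ici] at hs
    have hs0 : 0 < s := hs
    rw [(hd s).deriv, one_mul, hc, ← Finset.sum_sub_distrib]
    refine Finset.sum_nonpos fun k _ => ?_
    have h1 := ee_cov_le hJ hb i k hs0.le
    have h2 := mul_le_mul_of_nonneg_left h1 (hb k)
    linarith
  have h := hanti (Set.mem_Ici.2 le_rfl) (Set.mem_Ici.2 zero_le_one) zero_le_one
  simp only [zero_mul, one_mul, sub_zero] at h
  have : ee J (fun _ => 0) (fun σ => sg (σ i)) = 0 := by
    unfold ee; rw [S_zero_field, zero_div]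
  rw [this] at h
  linarith

end Ghs

/-! ### the lattice -/

open Ghs

/-- couplings of the lattice model -/
def latJ (K : ℝ) (Λ : Finset (ℤ × ℤ)) (i j : Λ) : ℝ := if (j : ℤ × ℤ) ∈ nbr i then K / 2 else 0
/-- boundary fields -/
def latb (K : ℝ) (Λ : Finset (ℤ × ℤ)) (i : Λ) : ℝ := K * (#{y ∈ nbr (i : ℤ × ℤ) | y ∉ Λ} : ℝ)

theorem action_eq (K : ℝ) (plus : Bool) (Λ : Finset (ℤ × ℤ)) (σ : Λ → Bool) :
    K * action plus Λ σ = ham (latJ K Λ) (fun i => if plus then latb K Λ i else 0) σ := by
  have hx : ∀ i : Λ, ext Λ σ i = sg (σ i) := by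
    intro i
    simp [ext]
  unfold action ham
  rw [← Finset.sum_coe_sort Λ, ← Finset.sum_add_distrib, Finset.mul_sum]
  refine Finset.sum_congr rfl fun i _ => ?_
  rw [hx]
  have h1 : ∀ y ∈ nbr (i : ℤ × ℤ), (if y ∈ Λ then sg (σ i) * ext Λ σ y / 2 else
      if plus = true then sg (σ i) else 0) = (if y ∈ Λ then sg (σ i) * ext Λ σ y / 2 else 0) +
      (if y ∉ Λ then (if plus = true then sg (σ i) else 0) else 0) := by
    intro y _
    by_cases hy : y ∈ Λ <;> simp [hy]
  rw [Finset.sum_congr rfl h1, Finset.sum_add_distrib, mul_add]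
  congr 1
  · rw [← Finset.sum_filter, Finset.mul_sum]
    have h2 : ∑ j : Λ, latJ K Λ i j * (sg (σ i) * sg (σ j)) =
        ∑ y ∈ Λ, if y ∈ nbr (i : ℤ × ℤ) then K / 2 * (sg (σ i) * ext Λ σ y) else 0 := by
      rw [← Finset.sum_coe_sort Λ]
      refine Finset.sum_congr rfl fun j _ => ?_
      unfold latJ
      rw [hx]
      split_ifs <;> simp
    rw [h2, ← Finset.sum_filter]
    have h3 : Finset.filter (fun y => y ∈ nbr (i : ℤ × ℤ)) Λ =
        Finset.filter (fun y => y ∈ Λ) (nbr (i : ℤ × ℤ)) := by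
      ext y
      simp [and_comm]
    rw [h3]
    refine Finset.sum_congr rfl fun y _ => ?_
    ring
  · rw [← Finset.sum_filter, Finset.sum_const, nsmul_eq_mul]
    unfold latb
    by_cases hp : plus = true
    · simp only [hp, if_true]
      ring
    · simp [hp]

end

end IsingS2
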