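import Pool.Agent.Helper98.IS.Strip
import Pool.Agent.Helper98.IS.Spin
import Pool.Agent.Helper98.IS.EvenOdd
import Pool.Agent.Helper98.IS.LTvac
import Pool.Agent.Helper98.IS.YLim
import Pool.Agent.Helper98.IS.Lim1

/-!
# IS-43: low temperature strips, given the value of the Fredholm determinant (helper55)
-/

namespace IsingS2

open Complex Set MeasureTheory Filter Topology IsingNB
open scoped Real Matrix

noncomputable section

private theorem sg_sq_one (b : Bool) : sg b * sg b = 1 := by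
  cases b <;> simp [sg]

private theorem abs_sg_one (b : Bool) : |sg b| = 1 := by
  cases b <;> simp [sg]

/-- The magnetisation in the top eigenvector is at most one. -/
private theorem abs_mgn_le {n : ℕ} {V : Matrix (Fin (n + 1) → Bool) (Fin (n + 1) → Bool) ℝ}
    {Ω : (Fin (n + 1) → Bool) → ℝ} {Λ : ℝ} (hP : PFvec V Ω Λ) (a : Fin (n + 1)) :
    |Ω ⬝ᵥ (Zd n a).mulVec Ω| ≤ 1 := by
  have h1 : Ω ⬝ᵥ (Zd n a).mulVec Ω = ∑ σ, Ω σ * (sg (σ a) * Ω σ) := by
    unfold Zd dotProduct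
    apply Finset.sum_congr rfl
    intro σ _
    rw [Matrix.mulVec_diagonal]
  rw [h1]
  refine (Finset.abs_sum_le_sum_abs _ _).trans ?_
  rw [← hP.norm]
  apply Finset.sum_le_sum
  intro σ _
  rw [abs_mul, abs_mul, abs_sg_one, one_mul, ← sq, sq_abs]

private theorem tendsto_win {M : ℤ} {i : ℕ → ℕ} (hi : ∀ᶠ L : ℕ in atTop, (i L : ℤ) = L + M) :
    Tendsto (fun L : ℕ => (2 * L + 2, i L + 1)) atTop win := by
  rw [win, tendsto_comap_iff, tendsto_atTop]
  intro R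
  filter_upwards [hi, eventually_ge_atTop (R + M.natAbs)] with L hL hR
  simp only [Function.comp]
  omega

/-- Normalisation of the magnetisation. -/
private theorem LT_norm {v : ℝ} (hv : 1 < v)
    (hF : ∀ (M : ℤ) (N : ℕ), (Fdet fun k l => -P0 v M N k l) = Deven M N (cc v) ^ 2) (M : ℤ) (i : (L : ℕ) → Fin (2 * L + 1))
    (hi : ∀ᶠ L : ℕ in atTop, (((i L : Fin (2 * L + 1)) : ℕ) : ℤ) = L + M)
    (Ω : (L : ℕ) → (Fin (2 * L + 1) → Bool) → ℝ) (Λ : ℕ → ℝ)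
    (hP : ∀ L, PFvec (Vm true (κs v) (2 * L)) (Ω L) (Λ L)) :
    Tendsto (fun L => (((Ω L ⬝ᵥ (Zd (2 * L) (i L)).mulVec (Ω L)) ^ 4 : ℝ) : ℂ) *
      Deven 0 0 (cc v) ^ 2) atTop (𝓝 1) := by
  have hw : Tendsto (fun L : ℕ => (2 * L + 2, ((i L : Fin (2 * L + 1)) : ℕ) + 1)) atTop win :=
    tendsto_win hi
  have hdet := (Pm_lim hv 0 0).comp hw
  rw [hF] at hdet
  have hD := hw.eventually (Dm_unit hv)
  have heq : ∀ᶠ L in atTop, (((Ω L ⬝ᵥ (Zd (2 * L) (i L)).mulVec (Ω L)) ^ 4 : ℝ) : ℂ) *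
      ((((Pm v (2 * L + 2) ((i L : ℕ) + 1) ((i L : ℕ) + 1) 0).det : ℝ) : ℂ)) = 1 := by
    filter_upwards [hD] with L hL
    obtain ⟨Ω2, Λ2, hV, _, hO⟩ := LT_vac hv (2 * L) (hP L)
    have h1 := norm_formula hv (car_wall (2 * L + 2)) hV hL
    rw [hO (i L)] at h1
    rw [ofReal_pow]
    exact h1
  have hdiff : Tendsto (fun L => (((Ω L ⬝ᵥ (Zd (2 * L) (i L)).mulVec (Ω L)) ^ 4 : ℝ) : ℂ) *
      (Deven 0 0 (cc v) ^ 2 -
        ((((Pm v (2 * L + 2) ((i L : ℕ) + 1) ((i L : ℕ) + 1) 0).det : ℝ) : ℂ)))) atTop (𝓝 0) := by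
    have h2 := hdet.const_sub (Deven 0 0 (cc v) ^ 2)
    rw [sub_self] at h2
    refine squeeze_zero_norm (fun L => ?_) (tendsto_norm_zero.comp h2)
    rw [norm_mul, Complex.norm_real, Real.norm_eq_abs, abs_pow]
    have h3 : |Ω L ⬝ᵥ (Zd (2 * L) (i L)).mulVec (Ω L)| ^ 4 ≤ 1 :=
      pow_le_one₀ (abs_nonneg _) (abs_mgn_le (hP L) (i L))
    have h4 : (((((i L : Fin (2 * L + 1)) : ℕ) + 1 : ℕ) : ℤ) + 0).toNat =
        ((i L : Fin (2 * L + 1)) : ℕ) + 1 := by omega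
    simp only [Function.comp, h4]
    exact mul_le_of_le_one_left (norm_nonneg _) h3
  have hsum := hdiff.const_add 1
  rw [add_zero] at hsum
  refine hsum.congr' ?_
  filter_upwards [heq] with L hL
  rw [mul_sub, hL]
  ring

/-- The low temperature strips, given the value of the Fredholm determinant. -/
theorem LT_strip_of {v : ℝ} (hv : 1 < v)
    (hF : ∀ (M : ℤ) (N : ℕ), (Fdet fun k l => -P0 v M N k l) = Deven M N (cc v) ^ 2)
    (M : ℤ) (N : ℕ) :
    ∃ E mA mB : ℕ → ℝ,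
      (∀ᶠ L : ℕ in atTop,
        Tendsto (fun k => corr true (κs v) (rect k L) (0, 0) (N, M)) atTop (𝓝 (E L)) ∧
        Tendsto (fun k => mag true (κs v) (rect k L) (0, 0)) atTop (𝓝 (mA L)) ∧
        Tendsto (fun k => mag true (κs v) (rect k L) (N, M)) atTop (𝓝 (mB L))) ∧
      Tendsto (fun L => (((mA L) ^ 4 : ℝ) : ℂ) * Deven 0 0 (cc v) ^ 2) atTop (𝓝 1) ∧
      Tendsto (fun L => (((mB L) ^ 4 : ℝ) : ℂ) * Deven 0 0 (cc v) ^ 2) atTop (𝓝 1) ∧
      ∃ P : ℕ → ℝ, Tendsto (fun L => ((P L : ℝ) : ℂ)) atTop (𝓝 (Deven M N (cc v) ^ 2)) ∧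
        ∀ᶠ L : ℕ in atTop, E L ^ 2 = mA L ^ 2 * mB L ^ 2 * P L := by
  choose Ω Λ hP hcorr hmag using fun L : ℕ => strip_limit true (κs v) L
  let a : (L : ℕ) → Fin (2 * L + 1) := fun L => ⟨L, by omega⟩
  let b : (L : ℕ) → Fin (2 * L + 1) := fun L => ⟨min ((L : ℤ) + M).toNat (2 * L), by omega⟩
  have ha : ∀ L : ℕ, (((a L : Fin (2 * L + 1)) : ℕ) : ℤ) = L := fun L => rfl
  have hb : ∀ᶠ L : ℕ in atTop, (((b L : Fin (2 * L + 1)) : ℕ) : ℤ) = L + M := by
    filter_upwards [eventually_ge_atTop M.natAbs] with L hL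
    simp only [b]
    omega
  refine ⟨fun L => Ω L ⬝ᵥ (Zd (2 * L) (a L) * Vm true (κs v) (2 * L) ^ N *
      Zd (2 * L) (b L)).mulVec (Ω L) / Λ L ^ N,
    fun L => Ω L ⬝ᵥ (Zd (2 * L) (a L)).mulVec (Ω L),
    fun L => Ω L ⬝ᵥ (Zd (2 * L) (b L)).mulVec (Ω L), ?_, ?_, ?_,
    fun L => (Pm v (2 * L + 2) (L + 1) ((L + 1 : ℕ) + M).toNat N).det, ?_, ?_⟩
  · filter_upwards [hb] with L hL
    refine ⟨?_, ?_, ?_⟩
    · have h1 := hcorr L N (a L) (b L)
      rw [ha, hL, sub_self, add_sub_cancel_left] at h1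
      exact h1
    · have h1 := hmag L rfl 0 (a L)
      rw [ha, sub_self, Nat.cast_zero] at h1
      exact h1
    · have h1 := hmag L rfl N (b L)
      rw [hL, add_sub_cancel_left] at h1
      exact h1
  · exact LT_norm hv hF 0 a (Eventually.of_forall fun L => by rw [ha, add_zero]) Ω Λ hP
  · exact LT_norm hv hF M b hb Ω Λ hP
  · have hw : Tendsto (fun L : ℕ => (2 * L + 2, L + 1)) atTop win :=
      tendsto_win (M := 0) (i := fun L => L) (Eventually.of_forall fun L => by rw [add_zero])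
    have h1 := (Pm_lim hv M N).comp hw
    rw [hF] at h1
    exact h1
  · have hwa : Tendsto (fun L : ℕ => (2 * L + 2, L + 1)) atTop win :=
      tendsto_win (M := 0) (i := fun L => L) (Eventually.of_forall fun L => by rw [add_zero])
    have hwb : Tendsto (fun L : ℕ => (2 * L + 2, ((b L : Fin (2 * L + 1)) : ℕ) + 1)) atTop win :=
      tendsto_win hb
    filter_upwards [hb, hwa.eventually (Dm_unit hv), hwb.eventually (Dm_unit hv)] with L hL hDa hDb
    obtain ⟨Ω2, Λ2, hV, hE, hO⟩ := LT_vac hv (2 * L) (hP L)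
    have h1 := even_formula hv (car_wall (2 * L + 2)) hV hDa hDb N
    have h2 := hE (a L) (b L) N
    have h3 := hO (a L)
    have h4 := hO (b L)
    have h5 : ((a L : Fin (2 * L + 1)) : ℕ) = L := rfl
    have h6 : ((b L : Fin (2 * L + 1)) : ℕ) + 1 = (((L + 1 : ℕ) : ℤ) + M).toNat := by
      push_cast
      omega
    rw [h5] at h2 h3
    rw [h2, h3, h4, h6] at h1
    exact_mod_cast h1

end

end IsingS2
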