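import Pool.Agent.Helper98.IS.MainAux
import Pool.Agent.Helper98.IS.Final

/-!
# IS-47: natural boundary of the susceptibility
-/

namespace IsingS2

open Complex Set MeasureTheory Filter Topology IsingNB
open scoped Real Matrix

theorem main_HT {E : ℝ} (hE : 0 < E) :
    ∃ X : ℂ → ℂ, DifferentiableOn ℂ X {v | v ≠ 0 ∧ ‖v‖ < 1} ∧
      (∀ v : ℝ, 0 < v → v < 1 →
        IsSusc false E (2 * E / Real.arsinh v) (X v).re ∧ (X v).im = 0) ∧
      ∀ v0 : ℂ, ‖v0‖ = 1 → ¬ ∃ δ > 0, ∃ g : ℂ → ℂ, DifferentiableOn ℂ g (Metric.ball v0 δ) ∧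
        ∀ v ∈ Metric.ball v0 δ, ‖v‖ < 1 → g v = X v :=
  main_HT_of hE fun _ h0 h1 => susc_HT hE h0 h1

/-- in the variable `z = log v` (all branches of the continuation to `|v| > 1`) -/
theorem main_LT {E : ℝ} (hE : 0 < E) :
    ∃ X : ℂ → ℂ, DifferentiableOn ℂ X {z | 0 < z.re} ∧
      (∀ s : ℝ, 0 < s →
        IsSusc true E (2 * E / Real.arsinh (Real.exp s)) (X s).re ∧ (X s).im = 0) ∧
      ∀ z0 : ℂ, z0.re = 0 → ¬ ∃ δ > 0, ∃ g : ℂ → ℂ, DifferentiableOn ℂ g (Metric.ball z0 δ) ∧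
        ∀ z ∈ Metric.ball z0 δ, 0 < z.re → g z = X z :=
  main_LT_of hE fun _ h1 => susc_LT hE h1

end IsingS2
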