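import Pool.Agent.Helper98.IS.Defs2
import Pool.Agent.Helper98.NB.Final

/-!
# IS-47 (part 1): analytic continuation of the susceptibility, given the values on the real axis
-/

namespace IsingS2

open Complex Set MeasureTheory Filter Topology IsingNB
open scoped Real Matrix

noncomputable section

/-- complex square root -/
def rtC (u : ℂ) : ℂ := u ^ (1 / 2 : ℂ)

theorem rtC_sq (u : ℂ) : rtC u ^ 2 = u := half_pow_sq u

theorem rtC_re_pos {u : ℂ} (hu : 0 < u.re) : 0 < (rtC u).re := by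
  unfold rtC
  have hu0 : u ≠ 0 := by
    rintro rfl
    simp at hu
  rw [Complex.cpow_def_of_ne_zero hu0, Complex.exp_re]
  refine mul_pos (Real.exp_pos _) ?_
  have h1 : (Complex.log u * (1 / 2)).im = Complex.arg u / 2 := by
    have h2 : Complex.log u * (1 / 2 : ℂ) = Complex.log u * ((1 / 2 : ℝ) : ℂ) := by
      congr 1
      push_cast
      rfl
    rw [h2, Complex.im_mul_ofReal, Complex.log_im]
    ring
  rw [h1]
  have h2 := Complex.abs_arg_lt_pi_div_two_iff.2 (Or.inl hu)
  rw [abs_lt] at h2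
  apply Real.cos_pos_of_mem_Ioo
  constructor
  · linarith [h2.1, Real.pi_pos]
  · linarith [h2.2, Real.pi_pos]

theorem rtC_diff {u : ℂ} (hu : 0 < u.re) : DifferentiableAt ℂ rtC u := by
  unfold rtC
  exact DifferentiableAt.cpow (f := fun z : ℂ => z) (g := fun _ => (1 / 2 : ℂ))
    differentiableAt_id (differentiableAt_const _) (Or.inl hu)

theorem rtC_ofReal {x : ℝ} (hx : 0 ≤ x) : rtC (x : ℂ) = (Real.sqrt x : ℂ) := by
  unfold rtC
  rw [Real.sqrt_eq_rpow, Complex.ofReal_cpow hx]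
  norm_num

/-! ### the function arsinh in the disc -/

/-- complex arsinh -/
def arC (v : ℂ) : ℂ := Complex.log (v + rtC (1 + v ^ 2))

theorem arC_slit {v : ℂ} (hv : 0 < (1 + v ^ 2).re) : v + rtC (1 + v ^ 2) ∈ Complex.slitPlane := by
  by_contra h
  rw [Complex.mem_slitPlane_iff] at h
  push Not at h
  obtain ⟨h1, h2⟩ := h
  have hs := rtC_sq (1 + v ^ 2)
  have hp := rtC_re_pos hv
  set s := rtC (1 + v ^ 2) with hsdef
  set r : ℝ := -(v + s).re with hr
  have hr0 : 0 ≤ r := by rw [hr]; linarith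
  have h3 : v + s = ((-r : ℝ) : ℂ) := by
    apply Complex.ext
    · rw [Complex.ofReal_re, hr]; ring
    · rw [Complex.ofReal_im]; exact h2
  have h4 : (s - v) * (v + s) = 1 := by linear_combination hs
  rcases hr0.eq_or_lt with h5 | h5
  · rw [h3, ← h5] at h4
    simp at h4
  · have h6 : s - v = ((-r⁻¹ : ℝ) : ℂ) := by
      have h7 : ((-r : ℝ) : ℂ) ≠ 0 := by
        rw [Ne, Complex.ofReal_eq_zero]
        linarith
      rw [h3] at h4
      apply mul_right_cancel₀ h7
      rw [h4, ← Complex.ofReal_mul]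
      have : -r⁻¹ * -r = 1 := by field_simp
      rw [this, Complex.ofReal_one]
    have h8 : s = (((-r - r⁻¹) / 2 : ℝ) : ℂ) := by
      have : (2 : ℂ) * s = ((-r : ℝ) : ℂ) + ((-r⁻¹ : ℝ) : ℂ) := by rw [← h3, ← h6]; ring
      push_cast at this ⊢
      linear_combination this / 2
    have h9 : s.re = (-r - r⁻¹) / 2 := by
      conv_lhs => rw [h8]
      exact Complex.ofReal_re _
    have h10 : 0 < r⁻¹ := inv_pos.2 h5
    rw [h9] at hp
    linarith

theorem arC_diff {v : ℂ} (hv : 0 < (1 + v ^ 2).re) : DifferentiableAt ℂ arC v := by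
  unfold arC
  have h1 : DifferentiableAt ℂ (fun v : ℂ => rtC (1 + v ^ 2)) v :=
    DifferentiableAt.comp (g := rtC) (f := fun v : ℂ => 1 + v ^ 2) v (rtC_diff hv) (by fun_prop)
  exact (differentiableAt_id.add h1).clog (arC_slit hv)

theorem arC_ne {v : ℂ} (hv : 0 < (1 + v ^ 2).re) (h0 : v ≠ 0) : arC v ≠ 0 := by
  intro h
  have hs := rtC_sq (1 + v ^ 2)
  have h1 : v + rtC (1 + v ^ 2) = 1 := by
    have h2 := Complex.exp_log (Complex.slitPlane_ne_zero (arC_slit hv))
    unfold arC at h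
    rw [h, Complex.exp_zero] at h2
    exact h2.symm
  have h3 : rtC (1 + v ^ 2) = 1 - v := by linear_combination h1
  rw [h3] at hs
  apply h0
  linear_combination -(1 / 2 : ℂ) * hs

theorem arC_ofReal (x : ℝ) : arC (x : ℂ) = (Real.arsinh x : ℂ) := by
  unfold arC Real.arsinh
  have h1 : (1 : ℂ) + (x : ℂ) ^ 2 = ((1 + x ^ 2 : ℝ) : ℂ) := by push_cast; ring
  rw [h1, rtC_ofReal (by positivity), ← Complex.ofReal_add, ← Complex.ofReal_log]
  have h2 : |x| ≤ Real.sqrt (1 + x ^ 2) := by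
    apply Real.le_sqrt_of_sq_le
    rw [sq_abs]
    linarith
  have := neg_abs_le x
  linarith

/-- the real part is positive in the disc and on the circle except at `± i` -/
theorem re_one_add_sq {v : ℂ} (hv : ‖v‖ ≤ 1) (h : v ^ 2 ≠ -1) : 0 < (1 + v ^ 2).re := by
  have h1 : 1 - (-v ^ 2) ∈ Complex.slitPlane := by
    apply one_sub_mem_slitPlane
    · rw [norm_neg, norm_pow]
      exact pow_le_one₀ (norm_nonneg _) hv
    · intro h2
      apply h
      linear_combination -h2
  have h2 : ‖v ^ 2‖ ≤ 1 := by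
    rw [norm_pow]
    exact pow_le_one₀ (norm_nonneg _) hv
  by_contra h3
  rw [Complex.add_re, Complex.one_re] at h3
  have h4 : (v ^ 2).re ≤ -1 := by linarith
  have h5 : (v ^ 2).re ^ 2 + (v ^ 2).im ^ 2 ≤ 1 := by
    have h6 := Complex.sq_norm (v ^ 2)
    rw [Complex.normSq_apply] at h6
    nlinarith [norm_nonneg (v ^ 2)]
  apply h
  apply Complex.ext
  · rw [Complex.neg_re, Complex.one_re]
    nlinarith [sq_nonneg (v ^ 2).im]
  · rw [Complex.neg_im, Complex.one_im, neg_zero]
    have : (v ^ 2).im ^ 2 ≤ 0 := by nlinarith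
    exact pow_eq_zero_iff (two_ne_zero) |>.1 (le_antisymm this (sq_nonneg _))

theorem sq_ne_of_lt {v : ℂ} (hv : ‖v‖ < 1) : v ^ 2 ≠ -1 := by
  intro h
  have h1 : ‖v ^ 2‖ = 1 := by rw [h, norm_neg, norm_one]
  rw [norm_pow] at h1
  have h2 : ‖v‖ ^ 2 < 1 := pow_lt_one₀ (norm_nonneg v) hv (by norm_num)
  linarith

/-- nearby points of the circle -/
theorem exists_circle {v0 : ℂ} (hv0 : ‖v0‖ = 1) {δ : ℝ} (hδ : 0 < δ) :
    ∃ t : ℝ, |t| < δ ∧ (v0 * Complex.exp (t * I)) ^ 2 ≠ -1 := by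
  by_cases h : v0 ^ 2 = -1
  · refine ⟨min (δ / 2) 1, ?_, ?_⟩
    · rw [abs_of_nonneg (by positivity)]
      exact lt_of_le_of_lt (min_le_left _ _) (by linarith)
    · rw [mul_pow, h, ← Complex.exp_nat_mul]
      intro h1
      have h2 : Complex.exp (((2 : ℕ) : ℂ) * (((min (δ / 2) 1 : ℝ) : ℂ) * I)) = 1 := by
        linear_combination -h1
      rw [Complex.exp_eq_one_iff] at h2
      obtain ⟨n, hn⟩ := h2
      have h3 : 2 * (min (δ / 2) 1) = n * (2 * π) := by
        have h4 := congrArg Complex.im hn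
        have h5 : (((2 : ℕ) : ℂ) * (((min (δ / 2) 1 : ℝ) : ℂ) * I)) =
            ((2 * (min (δ / 2) 1) : ℝ) : ℂ) * I := by push_cast; ring
        have h6 : (n : ℂ) * (2 * π * I) = ((n * (2 * π) : ℝ) : ℂ) * I := by push_cast; ring
        rw [h5, h6, Complex.im_ofReal_mul, Complex.im_ofReal_mul, Complex.I_im, mul_one, mul_one]
          at h4
        exact h4
      have hm0 : 0 < min (δ / 2) 1 := by positivity
      have hm1 : min (δ / 2) 1 ≤ 1 := min_le_right _ _
      have hpi := Real.pi_gt_three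
      have hn0 : (0 : ℝ) < n := by
        by_contra hcon
        push Not at hcon
        nlinarith
      have hn1 : (1 : ℝ) ≤ n := by
        have : (0 : ℤ) < n := by exact_mod_cast hn0
        exact_mod_cast this
      nlinarith
  · refine ⟨0, by simpa using hδ, ?_⟩
    simpa using h

/-- transfer of a hypothetical continuation: a factor `L/(2E)` with `L` analytic and not zero -/
theorem noCont_factor {f X L : ℂ → ℂ} {E : ℝ} (hE : 0 < E) {P : ℂ → Prop} {v1 : ℂ}
    (hf : ¬ ∃ δ > 0, ∃ g : ℂ → ℂ, DifferentiableOn ℂ g (Metric.ball v1 δ) ∧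
        ∀ v ∈ Metric.ball v1 δ, P v → g v = f v)
    {V : Set ℂ} (hV : IsOpen V) (hv1 : v1 ∈ V) (hL : DifferentiableOn ℂ L V)
    (hL0 : ∀ v ∈ V, L v ≠ 0) (hX : ∀ v, P v → X v = L v / (2 * E) * f v) :
    ¬ ∃ δ > 0, ∃ g : ℂ → ℂ, DifferentiableOn ℂ g (Metric.ball v1 δ) ∧
        ∀ v ∈ Metric.ball v1 δ, P v → g v = X v := by
  rintro ⟨δ, hδ, g, hg, hgX⟩
  obtain ⟨δ', hδ', hball⟩ := Metric.isOpen_iff.1 hV v1 hv1
  refine hf ⟨min δ δ', lt_min hδ hδ', fun v => g v * (2 * E) / L v, ?_, ?_⟩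
  · have hs1 : Metric.ball v1 (min δ δ') ⊆ Metric.ball v1 δ := Metric.ball_subset_ball (min_le_left _ _)
    have hs2 : Metric.ball v1 (min δ δ') ⊆ V :=
      (Metric.ball_subset_ball (min_le_right _ _)).trans hball
    exact ((hg.mono hs1).mul_const _).div (hL.mono hs2) fun v hv => hL0 v (hs2 hv)
  · intro v hv hP
    have hs1 : v ∈ Metric.ball v1 δ := Metric.ball_subset_ball (min_le_left _ _) hv
    have hs2 : v ∈ V := hball (Metric.ball_subset_ball (min_le_right _ _) hv)
    have hE' : (E : ℂ) ≠ 0 := by exact_mod_cast hE.ne'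
    have hL' := hL0 v hs2
    simp only
    rw [hgX v hs1 hP, hX v hP]
    field_simp

theorem main_HT_of {E : ℝ} (hE : 0 < E)
    (H : ∀ v : ℝ, 0 < v → v < 1 →
      IsSusc false E (2 * E / Real.arsinh v) ((Real.arsinh v / (2 * E) : ℂ) * fHT v).re ∧
        (fHT v).im = 0) :
    ∃ X : ℂ → ℂ, DifferentiableOn ℂ X {v | v ≠ 0 ∧ ‖v‖ < 1} ∧
      (∀ v : ℝ, 0 < v → v < 1 →
        IsSusc false E (2 * E / Real.arsinh v) (X v).re ∧ (X v).im = 0) ∧
      ∀ v0 : ℂ, ‖v0‖ = 1 → ¬ ∃ δ > 0, ∃ g : ℂ → ℂ, DifferentiableOn ℂ g (Metric.ball v0 δ) ∧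
        ∀ v ∈ Metric.ball v0 δ, ‖v‖ < 1 → g v = X v := by
  refine ⟨fun v => arC v / (2 * E) * fHT v, ?_, ?_, ?_⟩
  · intro v hv
    have h1 := re_one_add_sq hv.2.le (sq_ne_of_lt hv.2)
    exact ((arC_diff h1).differentiableWithinAt.div_const _).mul (fHT_natural_boundary.1 v hv)
  · intro v h0 h1
    obtain ⟨h2, h3⟩ := H v h0 h1
    simp only [arC_ofReal]
    refine ⟨h2, ?_⟩
    have h4 : ((Real.arsinh v : ℂ) / (2 * E)) = ((Real.arsinh v / (2 * E) : ℝ) : ℂ) := by push_cast; rfl
    rw [h4, Complex.im_ofReal_mul, h3, mul_zero]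
  · intro v0 hv0
    rintro ⟨δ, hδ, g, hg, hgX⟩
    obtain ⟨t, ht, hne⟩ := exists_circle hv0 hδ
    set v1 := v0 * Complex.exp (t * I) with hv1
    have hn1 : ‖v1‖ = 1 := by rw [hv1, norm_mul, hv0, Complex.norm_exp_ofReal_mul_I, one_mul]
    have hd : v1 ∈ Metric.ball v0 δ := by
      rw [Metric.mem_ball, Complex.dist_eq, hv1]
      have h1 : v0 * Complex.exp (t * I) - v0 = v0 * (Complex.exp (I * t) - 1) := by
        rw [mul_comm I]; ring
      rw [h1, norm_mul, hv0, one_mul]
      exact (Real.norm_exp_I_mul_ofReal_sub_one_le).trans_lt ht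
    obtain ⟨δ', hδ', hball⟩ := Metric.isOpen_iff.1 (Metric.isOpen_ball (x := v0) (ε := δ)) v1 hd
    have hc2 : Continuous fun v : ℂ => (1 + v ^ 2).re :=
      Complex.continuous_re.comp (by fun_prop)
    have hV : IsOpen ({v : ℂ | 0 < (1 + v ^ 2).re} ∩ {v : ℂ | v ≠ 0}) :=
      (isOpen_lt continuous_const hc2).inter isOpen_ne
    refine noCont_factor (E := E) hE (P := fun v => ‖v‖ < 1) (fHT_natural_boundary.2 v1 hn1) hV
      ⟨re_one_add_sq hn1.le hne, ?_⟩ (L := arC)
      (fun v hv => (arC_diff hv.1).differentiableWithinAt) (fun v hv => arC_ne hv.1 hv.2)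
      (X := fun v => arC v / (2 * E) * fHT v) (fun v _ => rfl)
      ⟨δ', hδ', g, hg.mono hball, fun v hv hP => hgX v (hball hv) hP⟩
    intro h
    rw [h, norm_zero] at hn1
    norm_num at hn1

/-! ### low temperatures -/

/-- complex `arsinh (exp z)` -/
def arE (z : ℂ) : ℂ := z + Complex.log (1 + rtC (1 + Complex.exp (-(2 * z))))

theorem arE_slit {z : ℂ} (hz : 0 < (1 + Complex.exp (-(2 * z))).re) :
    1 + rtC (1 + Complex.exp (-(2 * z))) ∈ Complex.slitPlane := by
  left
  rw [Complex.add_re, Complex.one_re]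
  have := rtC_re_pos hz
  linarith

theorem arE_diff {z : ℂ} (hz : 0 < (1 + Complex.exp (-(2 * z))).re) : DifferentiableAt ℂ arE z := by
  unfold arE
  have h1 : DifferentiableAt ℂ (fun z : ℂ => rtC (1 + Complex.exp (-(2 * z)))) z :=
    DifferentiableAt.comp (g := rtC) (f := fun z : ℂ => 1 + Complex.exp (-(2 * z))) z
      (rtC_diff hz) (by fun_prop)
  exact differentiableAt_id.add ((h1.const_add _).clog (arE_slit hz))

theorem arE_ne {z : ℂ} (hz : 0 < (1 + Complex.exp (-(2 * z))).re) : arE z ≠ 0 := by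
  intro h
  have hs := rtC_sq (1 + Complex.exp (-(2 * z)))
  have h2 := Complex.exp_log (Complex.slitPlane_ne_zero (arE_slit hz))
  have h1 : Complex.exp z * (1 + rtC (1 + Complex.exp (-(2 * z)))) = 1 := by
    rw [← h2, ← Complex.exp_add]
    unfold arE at h
    rw [h, Complex.exp_zero]
  have h3 : Complex.exp (-(2 * z)) = Complex.exp (-z) * Complex.exp (-z) := by
    rw [← Complex.exp_add]; congr 1; ring
  have h4 : Complex.exp z * Complex.exp (-z) = 1 := by
    rw [← Complex.exp_add, add_neg_cancel, Complex.exp_zero]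
  have h5 : rtC (1 + Complex.exp (-(2 * z))) = Complex.exp (-z) - 1 := by
    linear_combination Complex.exp (-z) * h1 - (1 + rtC (1 + Complex.exp (-(2 * z)))) * h4
  rw [h5, h3] at hs
  have h6 : Complex.exp (-z) = 0 := by linear_combination -(1 / 2 : ℂ) * hs
  exact Complex.exp_ne_zero _ h6

theorem arE_ofReal (s : ℝ) : arE (s : ℂ) = (Real.arsinh (Real.exp s) : ℂ) := by
  unfold arE
  have h1 : (1 : ℂ) + Complex.exp (-(2 * (s : ℂ))) = ((1 + Real.exp (-(2 * s)) : ℝ) : ℂ) := by
    push_cast; ring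
  have hp : 0 < 1 + Real.exp (-(2 * s)) := by positivity
  rw [h1, rtC_ofReal hp.le]
  have h2 : (1 : ℂ) + ((Real.sqrt (1 + Real.exp (-(2 * s))) : ℝ) : ℂ) =
      ((1 + Real.sqrt (1 + Real.exp (-(2 * s))) : ℝ) : ℂ) := by push_cast; ring
  rw [h2, ← Complex.ofReal_log (by positivity), ← Complex.ofReal_add]
  congr 1
  unfold Real.arsinh
  have h3 : Real.exp s + Real.sqrt (1 + Real.exp s ^ 2) =
      Real.exp s * (1 + Real.sqrt (1 + Real.exp (-(2 * s)))) := by
    have h4 : 1 + Real.exp s ^ 2 = Real.exp s ^ 2 * (1 + Real.exp (-(2 * s))) := by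
      have h5 : Real.exp s ^ 2 * Real.exp (-(2 * s)) = 1 := by
        rw [← Real.exp_nat_mul, ← Real.exp_add]
        push_cast
        rw [add_neg_cancel, Real.exp_zero]
      linear_combination -h5
    rw [h4, Real.sqrt_mul (by positivity), Real.sqrt_sq (Real.exp_pos s).le]
    ring
  rw [h3, Real.log_mul (Real.exp_pos s).ne' (by positivity), Real.log_exp]

theorem re_one_add_exp {z : ℂ} (hz : 0 ≤ z.re) (h : Complex.exp (-(2 * z)) ≠ -1) :
    0 < (1 + Complex.exp (-(2 * z))).re := by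
  have h1 : Complex.exp (-(2 * z)) = Complex.exp (-z) ^ 2 := by
    rw [← Complex.exp_nat_mul]; congr 1; push_cast; ring
  rw [h1] at h ⊢
  refine re_one_add_sq ?_ h
  rw [Complex.norm_exp, Complex.neg_re]
  exact Real.exp_le_one_iff.2 (by linarith)

theorem main_LT_of {E : ℝ} (hE : 0 < E)
    (H : ∀ v : ℝ, 1 < v →
      IsSusc true E (2 * E / Real.arsinh v) ((Real.arsinh v / (2 * E) : ℂ) * fLT v).re ∧
        (fLT v).im = 0) :
    ∃ X : ℂ → ℂ, DifferentiableOn ℂ X {z | 0 < z.re} ∧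
      (∀ s : ℝ, 0 < s →
        IsSusc true E (2 * E / Real.arsinh (Real.exp s)) (X s).re ∧ (X s).im = 0) ∧
      ∀ z0 : ℂ, z0.re = 0 → ¬ ∃ δ > 0, ∃ g : ℂ → ℂ, DifferentiableOn ℂ g (Metric.ball z0 δ) ∧
        ∀ z ∈ Metric.ball z0 δ, 0 < z.re → g z = X z := by
  have hexpne : ∀ z : ℂ, 0 < z.re → Complex.exp (-(2 * z)) ≠ -1 := by
    intro z hz h
    have h1 : ‖Complex.exp (-(2 * z))‖ = 1 := by rw [h, norm_neg, norm_one]
    rw [Complex.norm_exp] at h1
    have h2 : Real.exp (-(2 * z)).re < 1 := by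
      rw [Real.exp_lt_one_iff]
      simp
      linarith
    linarith
  refine ⟨fun z => arE z / (2 * E) * fLT (Complex.exp z), ?_, ?_, ?_⟩
  · intro z hz
    have hz' : 0 < z.re := hz
    have h1 := re_one_add_exp hz'.le (hexpne z hz')
    have h2 : (1 : ℝ) < ‖Complex.exp z‖ := by
      rw [Complex.norm_exp]
      exact Real.one_lt_exp_iff.2 hz'
    have hop : IsOpen {v : ℂ | 1 < ‖v‖} := isOpen_lt continuous_const continuous_norm
    have h3 : DifferentiableAt ℂ fLT (Complex.exp z) :=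
      fLT_natural_boundary.1.differentiableAt (hop.mem_nhds h2)
    have h4 : DifferentiableAt ℂ (fun z => fLT (Complex.exp z)) z :=
      DifferentiableAt.comp (g := fLT) (f := Complex.exp) z h3 Complex.differentiableAt_exp
    exact (((arE_diff h1).div_const _).mul h4).differentiableWithinAt
  · intro s hs
    obtain ⟨h2, h3⟩ := H (Real.exp s) (Real.one_lt_exp_iff.2 hs)
    simp only [arE_ofReal, ← Complex.ofReal_exp]
    refine ⟨h2, ?_⟩
    have h4 : ((Real.arsinh (Real.exp s) : ℂ) / (2 * E)) =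
        ((Real.arsinh (Real.exp s) / (2 * E) : ℝ) : ℂ) := by push_cast; rfl
    rw [h4, Complex.im_ofReal_mul, h3, mul_zero]
  · intro z0 hz0
    rintro ⟨δ, hδ, g, hg, hgX⟩
    have hn0 : ‖Complex.exp (-z0)‖ = 1 := by
      rw [Complex.norm_exp, Complex.neg_re, hz0, neg_zero, Real.exp_zero]
    obtain ⟨t, ht, hne⟩ := exists_circle hn0 hδ
    set z1 : ℂ := z0 - t * I with hz1
    have hz1re : z1.re = 0 := by rw [hz1]; simp [hz0]
    have hd : z1 ∈ Metric.ball z0 δ := by
      rw [Metric.mem_ball, Complex.dist_eq, hz1]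
      have h1 : z0 - t * I - z0 = -((t : ℂ) * I) := by ring
      rw [h1, norm_neg, norm_mul, Complex.norm_I, mul_one, Complex.norm_real]
      exact ht
    have hne1 : Complex.exp (-(2 * z1)) ≠ -1 := by
      intro h
      apply hne
      rw [← h, ← Complex.exp_add, ← Complex.exp_nat_mul, hz1]
      congr 1
      push_cast
      ring
    have hre1 := re_one_add_exp hz1re.ge hne1
    set v1 : ℂ := Complex.exp z1 with hv1
    have hn1 : ‖v1‖ = 1 := by rw [hv1, Complex.norm_exp, hz1re, Real.exp_zero]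
    have hv10 : v1 ≠ 0 := Complex.exp_ne_zero _
    -- the local logarithm
    set lg : ℂ → ℂ := fun v => Complex.log (v / v1) + z1 with hlg
    have hlg1 : lg v1 = z1 := by
      simp only [hlg]
      rw [div_self hv10, Complex.log_one, zero_add]
    have hlgd : ∀ v, v / v1 ∈ Complex.slitPlane → DifferentiableAt ℂ lg v := by
      intro v hv
      have h1 : DifferentiableAt ℂ (fun v : ℂ => v / v1) v := by fun_prop
      exact (h1.clog hv).add_const _
    have hlge : ∀ v, v ≠ 0 → Complex.exp (lg v) = v := by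
      intro v hv
      simp only [hlg]
      rw [Complex.exp_add, Complex.exp_log (div_ne_zero hv hv10), ← hv1]
      field_simp
    have hcont : ContinuousAt lg v1 := (hlgd v1 (by rw [div_self hv10]; exact Or.inl one_pos)).continuousAt
    have hc2 : Continuous fun z : ℂ => (1 + Complex.exp (-(2 * z))).re :=
      Complex.continuous_re.comp (by fun_prop)
    have hO : IsOpen (Metric.ball z0 δ ∩ {z : ℂ | 0 < (1 + Complex.exp (-(2 * z))).re}) :=
      Metric.isOpen_ball.inter (isOpen_lt continuous_const hc2)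
    have hO1 : lg v1 ∈ Metric.ball z0 δ ∩ {z : ℂ | 0 < (1 + Complex.exp (-(2 * z))).re} := by
      rw [hlg1]
      exact ⟨hd, hre1⟩
    have hev : ∀ᶠ v in 𝓝 v1, lg v ∈ Metric.ball z0 δ ∩ {z : ℂ | 0 < (1 + Complex.exp (-(2 * z))).re} ∧
        v / v1 ∈ Complex.slitPlane ∧ v ≠ 0 := by
      refine (hcont.eventually (hO.mem_nhds hO1)).and (Filter.Eventually.and ?_ ?_)
      · have h1 : ContinuousAt (fun v : ℂ => v / v1) v1 := by fun_prop
        refine h1.eventually (Complex.isOpen_slitPlane.mem_nhds ?_)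
        change v1 / v1 ∈ Complex.slitPlane
        rw [div_self hv10]
        exact Or.inl one_pos
      · exact isOpen_ne.mem_nhds hv10
    obtain ⟨δ', hδ', hball⟩ := Metric.eventually_nhds_iff_ball.1 hev
    refine fLT_natural_boundary.2 v1 hn1 ⟨δ', hδ', fun v => g (lg v) * (2 * E) / arE (lg v), ?_, ?_⟩
    · intro v hv
      obtain ⟨⟨h1, h2⟩, h3, h4⟩ := hball v hv
      have h5 := hlgd v h3
      have h6 : DifferentiableAt ℂ g (lg v) := hg.differentiableAt (Metric.isOpen_ball.mem_nhds h1)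
      have h7 : DifferentiableAt ℂ (fun v => g (lg v)) v := DifferentiableAt.comp v h6 h5
      have h8 : DifferentiableAt ℂ (fun v => arE (lg v)) v := DifferentiableAt.comp v (arE_diff h2) h5
      exact ((h7.mul_const _).div h8 (arE_ne h2)).differentiableWithinAt
    · intro v hv hv1'
      obtain ⟨⟨h1, h2⟩, h3, h4⟩ := hball v hv
      have h5 : 0 < (lg v).re := by
        simp only [hlg]
        rw [Complex.add_re, hz1re, add_zero, Complex.log_re, norm_div, hn1, div_one]
        exact Real.log_pos hv1'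
      have hE' : (E : ℂ) ≠ 0 := by exact_mod_cast hE.ne'
      have hL' := arE_ne h2
      have h6 := hgX (lg v) h1 h5
      beta_reduce at h6
      beta_reduce
      rw [h6, hlge v h4]
      field_simp

end

end IsingS2
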