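import Pool.Agent.Helper98.IS.Defs2

/-!
# IS-04: the transfer matrix formula for the rectangle (helper2)
-/

namespace IsingS2

open Complex Set MeasureTheory Filter Topology IsingNB
open scoped Real Matrix

noncomputable section

namespace TransferAux

/-! ### path sums -/

/-- `∏_{t<m} (D_t V)` -/
def Q {C : Type*} [Fintype C] [DecidableEq C] (V : Matrix C C ℝ) (d : ℕ → C → ℝ) :
    ℕ → Matrix C C ℝ
  | 0 => 1
  | m + 1 => Q V d m * Matrix.diagonal (d m) * V

theorem path_sum {C : Type*} [Fintype C] [DecidableEq C] (V : Matrix C C ℝ) (d : ℕ → C → ℝ)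
    (l : C → ℝ) (m : ℕ) : ∀ r : C → ℝ,
    l ⬝ᵥ (Q V d m * Matrix.diagonal (d m)).mulVec r =
      ∑ s : Fin (m + 1) → C, l (s 0) * (∏ t : Fin (m + 1), d t (s t)) *
        (∏ t : Fin m, V (s t.castSucc) (s t.succ)) * r (s (Fin.last m)) := by
  induction m with
  | zero =>
    intro r
    rw [← (Equiv.funUnique (Fin 1) C).symm.sum_comp]
    simp only [Q, one_mul, dotProduct, Matrix.mulVec_diagonal]
    refine Finset.sum_congr rfl fun c _ => ?_
    simp [mul_assoc]
  | succ m ih =>
    intro r
    have h1 : (Q V d (m + 1) * Matrix.diagonal (d (m + 1))).mulVec r =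
        (Q V d m * Matrix.diagonal (d m)).mulVec
          (V.mulVec ((Matrix.diagonal (d (m + 1))).mulVec r)) := by
      rw [Matrix.mulVec_mulVec, Matrix.mulVec_mulVec]
      congr 1
    rw [h1, ih, ← (Fin.snocEquiv (fun _ : Fin (m + 1 + 1) => C)).sum_comp, Fintype.sum_prod_type,
      Finset.sum_comm]
    refine Finset.sum_congr rfl fun s _ => ?_
    have h2 : V.mulVec ((Matrix.diagonal (d (m + 1))).mulVec r) (s (Fin.last m)) =
        ∑ c, V (s (Fin.last m)) c * (d (m + 1) c * r c) := by
      simp only [Matrix.mulVec, dotProduct, Matrix.diagonal_apply, ite_mul, zero_mul,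
        Finset.sum_ite_eq, Finset.mem_univ, if_true]
    rw [h2, Finset.mul_sum]
    refine Finset.sum_congr rfl fun c _ => ?_
    have hc : ∀ i : Fin (m + 1), (Fin.snocEquiv (fun _ : Fin (m + 1 + 1) => C)) (c, s) i.castSucc = s i := by
      intro i
      simp [Fin.snocEquiv]
    have hl : (Fin.snocEquiv (fun _ : Fin (m + 1 + 1) => C)) (c, s) (Fin.last (m + 1)) = c := by
      simp [Fin.snocEquiv]
    have h0 : (Fin.snocEquiv (fun _ : Fin (m + 1 + 1) => C)) (c, s) 0 = s 0 := by
      have := hc 0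
      rwa [Fin.castSucc_zero] at this
    have hs : ∀ i : Fin m, (Fin.snocEquiv (fun _ : Fin (m + 1 + 1) => C)) (c, s) (i.castSucc.succ) =
        s i.succ := by
      intro i
      have := hc i.succ
      rwa [← Fin.succ_castSucc] at this
    have hsl : (Fin.snocEquiv (fun _ : Fin (m + 1 + 1) => C)) (c, s) ((Fin.last m).succ) = c := by
      rw [Fin.succ_last]
      exact hl
    have hD : ∏ t : Fin (m + 1 + 1), d t ((Fin.snocEquiv (fun _ : Fin (m + 1 + 1) => C)) (c, s) t) =
        (∏ t : Fin (m + 1), d t (s t)) * d (m + 1) c := by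
      rw [Fin.prod_univ_castSucc]
      simp only [hc, hl, Fin.val_castSucc, Fin.val_last]
    have hV : ∏ t : Fin (m + 1), V ((Fin.snocEquiv (fun _ : Fin (m + 1 + 1) => C)) (c, s) t.castSucc)
        ((Fin.snocEquiv (fun _ : Fin (m + 1 + 1) => C)) (c, s) t.succ) =
        (∏ t : Fin m, V (s t.castSucc) (s t.succ)) * V (s (Fin.last m)) c := by
      simp only [hc]
      rw [Fin.prod_univ_castSucc]
      simp only [hs, hsl]
    rw [h0, hl, hD, hV]
    ring

theorem Q_add {C : Type*} [Fintype C] [DecidableEq C] (V : Matrix C C ℝ) (d : ℕ → C → ℝ)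
    (m j : ℕ) (h : ∀ t, m ≤ t → t < m + j → ∀ c, d t c = 1) :
    Q V d (m + j) = Q V d m * V ^ j := by
  induction j with
  | zero => simp
  | succ j ih =>
    have h1 : Q V d (m + (j + 1)) = Q V d (m + j) * Matrix.diagonal (d (m + j)) * V := rfl
    have h2 : d (m + j) = fun _ => (1 : ℝ) := by
      funext c
      exact h _ (by omega) (by omega) c
    rw [h1, h2, Matrix.diagonal_one, mul_one, ih fun t h3 h4 => h t h3 (by omega), pow_succ,
      mul_assoc]

/-- two insertions -/
theorem Q_two {C : Type*} [Fintype C] [DecidableEq C] (V : Matrix C C ℝ) (x y : C → ℝ)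
    (k N : ℕ) (hN : N ≤ k) :
    Q V (fun t c => (if t = k then x c else 1) * (if t = k + N then y c else 1)) (2 * k) *
      Matrix.diagonal (fun c => (if 2 * k = k then x c else 1) *
        (if 2 * k = k + N then y c else 1)) =
    V ^ k * Matrix.diagonal x * V ^ N * Matrix.diagonal y * V ^ (k - N) := by
  set d : ℕ → C → ℝ := fun t c => (if t = k then x c else 1) * (if t = k + N then y c else 1)
    with hd
  have hk : Q V d k = V ^ k := by
    have := Q_add V d 0 k (by
      intro t _ ht c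
      have h1 : t ≠ k := by omega
      have h2 : t ≠ k + N := by omega
      simp [hd, h1, h2])
    rw [zero_add] at this
    rw [this]
    simp [Q]
  -- the value before the second insertion
  have key : Q V d (k + N) * Matrix.diagonal (d (k + N)) =
      V ^ k * Matrix.diagonal x * V ^ N * Matrix.diagonal y := by
    rcases Nat.eq_zero_or_pos N with h0 | hpos
    · subst h0
      have h3 : d (k + 0) = fun c => x c * y c := by
        funext c
        simp [hd]
      rw [h3, add_zero, hk, ← Matrix.diagonal_mul_diagonal]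
      simp [mul_assoc]
    · obtain ⟨j, rfl⟩ : ∃ j, N = j + 1 := ⟨N - 1, by omega⟩
      have h3 : d k = x := by
        funext c
        have : ¬ (k = k + (j + 1)) := by omega
        simp [hd]
      have h4 : d (k + (j + 1)) = y := by
        funext c
        simp [hd]
      have h5 : Q V d (k + 1) = V ^ k * Matrix.diagonal x * V := by
        have : Q V d (k + 1) = Q V d k * Matrix.diagonal (d k) * V := rfl
        rw [this, hk, h3]
      have h6 : Q V d (k + (j + 1)) = V ^ k * Matrix.diagonal x * V ^ (j + 1) := by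
        have := Q_add V d (k + 1) j (by
          intro t h7 h8 c
          have h1 : t ≠ k := by omega
          have h2 : t ≠ k + (j + 1) := by omega
          simp [hd, h1, h2])
        rw [show k + (j + 1) = k + 1 + j by ring, this, h5, pow_succ' V j]
        simp only [mul_assoc]
      rw [h6, h4]
  have hlast : (fun c => (if 2 * k = k then x c else 1) *
        (if 2 * k = k + N then y c else 1)) = d (2 * k) := rfl
  rw [hlast]
  rcases Nat.eq_or_lt_of_le hN with h0 | hlt
  · subst h0
    rw [show 2 * N = N + N by ring, key]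
    simp
  · obtain ⟨j, hj⟩ : ∃ j, k - N = j + 1 := ⟨k - N - 1, by omega⟩
    have h5 : Q V d (k + N + 1) = V ^ k * Matrix.diagonal x * V ^ N * Matrix.diagonal y * V := by
      have : Q V d (k + N + 1) = Q V d (k + N) * Matrix.diagonal (d (k + N)) * V := rfl
      rw [this, key]
    have h6 : Q V d (2 * k) = V ^ k * Matrix.diagonal x * V ^ N * Matrix.diagonal y * V ^ (k - N) := by
      have := Q_add V d (k + N + 1) j (by
        intro t h7 h8 c
        have h1 : t ≠ k := by omega
        have h2 : t ≠ k + N := by omega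
        simp [hd, h1, h2])
      rw [show 2 * k = k + N + 1 + j by omega, this, h5, hj, pow_succ' V j]
      simp only [mul_assoc]
    have h7 : d (2 * k) = fun _ => (1 : ℝ) := by
      funext c
      have h1 : 2 * k ≠ k := by omega
      have h2 : 2 * k ≠ k + N := by omega
      simp [hd, h1, h2]
    rw [h6, h7, Matrix.diagonal_one, mul_one]

/-! ### the action of the rectangle -/

theorem sum_Icc (k : ℕ) (f : ℤ → ℝ) :
    ∑ t ∈ Finset.Icc (-(k : ℤ)) k, f t = ∑ i ∈ Finset.range (2 * k + 1), f ((i : ℤ) - k) := by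
  symm
  refine Finset.sum_nbij (fun i : ℕ => (i : ℤ) - k) ?_ ?_ ?_ (fun _ _ => rfl)
  · intro i hi
    simp only [Finset.mem_range, Finset.mem_Icc] at hi ⊢
    omega
  · intro i _ j _ h
    simpa using h
  · intro t ht
    simp only [Finset.coe_Icc, Set.mem_Icc] at ht
    refine ⟨(t + k).toNat, ?_, ?_⟩
    · simp only [Finset.coe_range, Set.mem_Iio]
      omega
    · simp only
      omega

theorem line (n : ℕ) (p : ℝ) (u : ℕ → ℝ) :
    ∑ i ∈ Finset.range (n + 1), ((if i + 1 ≤ n then u i * u (i + 1) / 2 else p * u i) +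
      (if 1 ≤ i then u i * u (i - 1) / 2 else p * u i)) =
    ∑ i ∈ Finset.range n, u i * u (i + 1) + p * (u 0 + u n) := by
  rw [Finset.sum_add_distrib, Finset.sum_range_succ, Finset.sum_range_succ' (n := n)]
  have h1 : ∑ i ∈ Finset.range n, (if i + 1 ≤ n then u i * u (i + 1) / 2 else p * u i) =
      ∑ i ∈ Finset.range n, u i * u (i + 1) / 2 := by
    refine Finset.sum_congr rfl fun i hi => ?_
    rw [if_pos (by simpa using hi)]
  have h2 : ∑ i ∈ Finset.range n, (if 1 ≤ i + 1 then u (i + 1) * u (i + 1 - 1) / 2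
      else p * u (i + 1)) = ∑ i ∈ Finset.range n, u i * u (i + 1) / 2 := by
    refine Finset.sum_congr rfl fun i hi => ?_
    rw [if_pos (by omega), Nat.add_sub_cancel]
    ring
  have h3 : ∑ i ∈ Finset.range n, u i * u (i + 1) = ∑ i ∈ Finset.range n, u i * u (i + 1) / 2 +
      ∑ i ∈ Finset.range n, u i * u (i + 1) / 2 := by
    rw [← Finset.sum_add_distrib]
    exact Finset.sum_congr rfl fun i _ => by ring
  rw [h1, h2, h3, if_neg (by omega), if_neg (by omega)]
  ring

theorem sum_nbr (x : ℤ × ℤ) (f : ℤ × ℤ → ℝ) : ∑ y ∈ nbr x, f y =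
    (f (x.1 + 1, x.2) + f (x.1 - 1, x.2)) + (f (x.1, x.2 + 1) + f (x.1, x.2 - 1)) := by
  unfold nbr
  rw [Finset.sum_insert, Finset.sum_insert, Finset.sum_insert, Finset.sum_singleton]
  · ring
  all_goals simp only [Finset.mem_insert, Finset.mem_singleton, Prod.mk.injEq]; omega

theorem mem_rect (k L : ℕ) (x y : ℤ) :
    ((x, y) ∈ rect k L) ↔ (-(k : ℤ) ≤ x ∧ x ≤ k) ∧ (-(L : ℤ) ≤ y ∧ y ≤ L) := by
  simp [rect]

theorem sum_rect (k L : ℕ) (f : ℤ × ℤ → ℝ) :
    ∑ x ∈ rect k L, f x = ∑ t ∈ Finset.range (2 * k + 1), ∑ a ∈ Finset.range (2 * L + 1),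
      f ((t : ℤ) - k, (a : ℤ) - L) := by
  unfold rect
  rw [Finset.sum_product, sum_Icc]
  exact Finset.sum_congr rfl fun t _ => sum_Icc _ _

theorem act_eq (plus : Bool) (k L : ℕ) (σ : rect k L → Bool) (S : ℕ → ℕ → ℝ)
    (hS : ∀ t a : ℕ, S t a = ext (rect k L) σ ((t : ℤ) - k, (a : ℤ) - L)) :
    action plus (rect k L) σ =
      ∑ t ∈ Finset.range (2 * k + 1), (∑ a ∈ Finset.range (2 * L), S t a * S t (a + 1) +
        (if plus then 1 else 0) * (S t 0 + S t (2 * L))) +
      ∑ a ∈ Finset.range (2 * L + 1), (∑ t ∈ Finset.range (2 * k), S t a * S (t + 1) a +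
        (if plus then 1 else 0) * (S 0 a + S (2 * k) a)) := by
  set p : ℝ := if plus then 1 else 0 with hp
  have h1 : action plus (rect k L) σ = ∑ t ∈ Finset.range (2 * k + 1),
      ∑ a ∈ Finset.range (2 * L + 1),
      (((if t + 1 ≤ 2 * k then S t a * S (t + 1) a / 2 else p * S t a) +
        (if 1 ≤ t then S t a * S (t - 1) a / 2 else p * S t a)) +
      ((if a + 1 ≤ 2 * L then S t a * S t (a + 1) / 2 else p * S t a) +
        (if 1 ≤ a then S t a * S t (a - 1) / 2 else p * S t a))) := by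
    unfold action
    rw [sum_rect]
    refine Finset.sum_congr rfl fun t ht => ?_
    refine Finset.sum_congr rfl fun a ha => ?_
    rw [Finset.mem_range] at ht ha
    rw [sum_nbr]
    simp only
    have e1 : ((t : ℤ) - k + 1, (a : ℤ) - L) ∈ rect k L ↔ t + 1 ≤ 2 * k := by
      rw [mem_rect]; omega
    have e2 : ((t : ℤ) - k - 1, (a : ℤ) - L) ∈ rect k L ↔ 1 ≤ t := by
      rw [mem_rect]; omega
    have e3 : ((t : ℤ) - k, (a : ℤ) - L + 1) ∈ rect k L ↔ a + 1 ≤ 2 * L := by
      rw [mem_rect]; omega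
    have e4 : ((t : ℤ) - k, (a : ℤ) - L - 1) ∈ rect k L ↔ 1 ≤ a := by
      rw [mem_rect]; omega
    have hq : ∀ z : ℝ, (if plus = true then z else 0) = p * z := by
      intro z
      rw [hp]
      split_ifs <;> simp
    simp only [hq, e1, e2, e3, e4, ← hS]
    have f1 : ext (rect k L) σ ((t : ℤ) - k + 1, (a : ℤ) - L) = S (t + 1) a := by
      rw [hS]; congr 2; push_cast; ring
    have f3 : ext (rect k L) σ ((t : ℤ) - k, (a : ℤ) - L + 1) = S t (a + 1) := by
      rw [hS]; congr 2; push_cast; ring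
    rw [f1, f3]
    have f2 : 1 ≤ t → ext (rect k L) σ ((t : ℤ) - k - 1, (a : ℤ) - L) = S (t - 1) a := by
      intro h
      rw [hS, Nat.cast_sub h]; congr 2; push_cast; ring
    have f4 : 1 ≤ a → ext (rect k L) σ ((t : ℤ) - k, (a : ℤ) - L - 1) = S t (a - 1) := by
      intro h
      rw [hS, Nat.cast_sub h]; congr 2; push_cast; ring
    congr 1
    · congr 1
      by_cases h : 1 ≤ t
      · rw [if_pos h, if_pos h, f2 h]
      · rw [if_neg h, if_neg h]
    · congr 1
      by_cases h : 1 ≤ a
      · rw [if_pos h, if_pos h, f4 h]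
      · rw [if_neg h, if_neg h]
  rw [h1]
  have h2 : ∀ f g : ℕ → ℕ → ℝ, ∑ t ∈ Finset.range (2 * k + 1), ∑ a ∈ Finset.range (2 * L + 1),
      (f t a + g t a) = ∑ t ∈ Finset.range (2 * k + 1), ∑ a ∈ Finset.range (2 * L + 1), g t a +
      ∑ a ∈ Finset.range (2 * L + 1), ∑ t ∈ Finset.range (2 * k + 1), f t a := by
    intro f g
    simp only [Finset.sum_add_distrib]
    rw [add_comm, Finset.sum_comm (s := Finset.range (2 * k + 1)) (f := f)]
  rw [h2]
  congr 1
  · refine Finset.sum_congr rfl fun t _ => ?_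
    exact line (2 * L) p (fun a => S t a)
  · refine Finset.sum_congr rfl fun a _ => ?_
    exact line (2 * k) p (fun t => S t a)

/-! ### configurations as arrays -/

/-- Array of columns to configuration. -/
def eqv (k L : ℕ) : (Fin (2 * k + 1) → Fin (2 * L + 1) → Bool) ≃ (rect k L → Bool) where
  toFun s := fun x => s ⟨(x.1.1 + k).toNat, by
      have := (mem_rect k L x.1.1 x.1.2).1 x.2
      omega⟩ ⟨(x.1.2 + L).toNat, by
      have := (mem_rect k L x.1.1 x.1.2).1 x.2
      omega⟩
  invFun σ := fun t a => σ ⟨((t : ℕ) - k, (a : ℕ) - L), by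
    rw [mem_rect]
    have := t.2
    have := a.2
    omega⟩
  left_inv := by
    intro s
    funext t a
    simp
  right_inv := by
    intro σ
    funext x
    have := (mem_rect k L x.1.1 x.1.2).1 x.2
    simp only
    congr 1
    apply Subtype.ext
    apply Prod.ext
    · simp only
      omega
    · simp only
      omega

theorem ext_eqv (k L : ℕ) (s : Fin (2 * k + 1) → Fin (2 * L + 1) → Bool) (t : Fin (2 * k + 1))
    (a : Fin (2 * L + 1)) : ext (rect k L) (eqv k L s) (((t : ℕ) : ℤ) - k, ((a : ℕ) : ℤ) - L) =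
      sg (s t a) := by
  have h : ((((t : ℕ) : ℤ) - k, ((a : ℕ) : ℤ) - L) : ℤ × ℤ) ∈ rect k L := by
    rw [mem_rect]
    have := t.2
    have := a.2
    omega
  unfold ext
  rw [dif_pos h]
  congr 1
  simp [eqv]

theorem weight (plus : Bool) (K : ℝ) (k L : ℕ) (s : Fin (2 * k + 1) → Fin (2 * L + 1) → Bool) :
    Real.exp (K * action plus (rect k L) (eqv k L s)) =
      lv plus K (2 * L) (s 0) * (∏ t : Fin (2 * k), Vm plus K (2 * L) (s t.castSucc) (s t.succ)) *
        lv plus K (2 * L) (s (Fin.last (2 * k))) := by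
  have hA : ∀ c : Fin (2 * L + 1) → Bool, 0 ≤ Av plus K (2 * L) c := fun c => (Real.exp_pos _).le
  -- the action
  have h1 : action plus (rect k L) (eqv k L s) =
      ∑ t : Fin (2 * k + 1), (∑ a : Fin (2 * L), sg (s t a.castSucc) * sg (s t a.succ) +
        (if plus then 1 else 0) * (sg (s t 0) + sg (s t (Fin.last (2 * L))))) +
      (∑ t : Fin (2 * k), ∑ a : Fin (2 * L + 1), sg (s t.castSucc a) * sg (s t.succ a) +
        (if plus then 1 else 0) * (∑ a : Fin (2 * L + 1), sg (s 0 a) +
          ∑ a : Fin (2 * L + 1), sg (s (Fin.last (2 * k)) a))) := by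
    rw [act_eq plus k L (eqv k L s) (fun t a => ext (rect k L) (eqv k L s) ((t : ℤ) - k, (a : ℤ) - L))
      (fun _ _ => rfl)]
    congr 1
    · rw [Finset.sum_range]
      refine Finset.sum_congr rfl fun t _ => ?_
      congr 1
      · rw [Finset.sum_range]
        refine Finset.sum_congr rfl fun a _ => ?_
        rw [← ext_eqv k L s t a.castSucc, ← ext_eqv k L s t a.succ, Fin.val_castSucc, Fin.val_succ]
      · rw [← ext_eqv k L s t 0, ← ext_eqv k L s t (Fin.last (2 * L)), Fin.val_zero, Fin.val_last]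
    · rw [Finset.sum_add_distrib, Finset.sum_comm, ← Finset.mul_sum, Finset.sum_add_distrib]
      congr 1
      · rw [Finset.sum_range]
        refine Finset.sum_congr rfl fun t _ => ?_
        rw [Finset.sum_range]
        refine Finset.sum_congr rfl fun a _ => ?_
        rw [← ext_eqv k L s t.castSucc a, ← ext_eqv k L s t.succ a, Fin.val_castSucc, Fin.val_succ]
      · congr 2
        · rw [Finset.sum_range]
          refine Finset.sum_congr rfl fun a _ => ?_
          rw [← ext_eqv k L s 0 a, Fin.val_zero]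
        · rw [Finset.sum_range]
          refine Finset.sum_congr rfl fun a _ => ?_
          rw [← ext_eqv k L s (Fin.last (2 * k)) a, Fin.val_last]
  -- the product
  set E : (Fin (2 * L + 1) → Bool) → ℝ := fun c => if plus then Real.exp (K * ∑ a, sg (c a)) else 1
    with hE
  have h2 : Real.exp (K * action plus (rect k L) (eqv k L s)) =
      (∏ t : Fin (2 * k + 1), Av plus K (2 * L) (s t)) *
        (∏ t : Fin (2 * k), Bm K (2 * L) (s t.castSucc) (s t.succ)) *
          (E (s 0) * E (s (Fin.last (2 * k)))) := by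
    rw [h1, mul_add, Real.exp_add, mul_add, Real.exp_add, Finset.mul_sum, Real.exp_sum,
      Finset.mul_sum, Real.exp_sum, mul_assoc]
    congr 1
    · refine Finset.prod_congr rfl fun t _ => ?_
      unfold Av
      congr 3
      split_ifs <;> simp
    · congr 1
      rw [hE]
      cases plus
      · simp
      · simp [mul_add, Real.exp_add]
  have h3 : ∏ t : Fin (2 * k + 1), Av plus K (2 * L) (s t) =
      (Real.sqrt (Av plus K (2 * L) (s 0)) * ∏ t : Fin (2 * k), Real.sqrt (Av plus K (2 * L) (s t.succ))) *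
      ((∏ t : Fin (2 * k), Real.sqrt (Av plus K (2 * L) (s t.castSucc))) *
        Real.sqrt (Av plus K (2 * L) (s (Fin.last (2 * k))))) := by
    rw [← Fin.prod_univ_succ (fun t : Fin (2 * k + 1) => Real.sqrt (Av plus K (2 * L) (s t))),
      ← Fin.prod_univ_castSucc (fun t : Fin (2 * k + 1) => Real.sqrt (Av plus K (2 * L) (s t))),
      ← Finset.prod_mul_distrib]
    refine Finset.prod_congr rfl fun t _ => ?_
    rw [Real.mul_self_sqrt (hA _)]
  have h4 : ∏ t : Fin (2 * k), Vm plus K (2 * L) (s t.castSucc) (s t.succ) =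
      (∏ t : Fin (2 * k), Real.sqrt (Av plus K (2 * L) (s t.castSucc))) *
      (∏ t : Fin (2 * k), Bm K (2 * L) (s t.castSucc) (s t.succ)) *
      ∏ t : Fin (2 * k), Real.sqrt (Av plus K (2 * L) (s t.succ)) := by
    rw [← Finset.prod_mul_distrib, ← Finset.prod_mul_distrib]
    rfl
  rw [h2, h3, h4]
  have h5 : ∀ c, lv plus K (2 * L) c = Real.sqrt (Av plus K (2 * L) c) * E c := fun c => rfl
  rw [h5, h5]
  ring

/-- numerator with two insertions -/
theorem num (plus : Bool) (K : ℝ) (k L N : ℕ) (hN : N ≤ k) (x y : (Fin (2 * L + 1) → Bool) → ℝ)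
    (F : (ℤ × ℤ → ℝ) → ℝ)
    (hF : ∀ s : Fin (2 * k + 1) → Fin (2 * L + 1) → Bool, F (ext (rect k L) (eqv k L s)) =
      x (s ⟨k, by omega⟩) * y (s ⟨k + N, by omega⟩)) :
    ∑ σ : rect k L → Bool, F (ext (rect k L) σ) * Real.exp (K * action plus (rect k L) σ) =
      lv plus K (2 * L) ⬝ᵥ (Vm plus K (2 * L) ^ k * Matrix.diagonal x * Vm plus K (2 * L) ^ N *
        Matrix.diagonal y * Vm plus K (2 * L) ^ (k - N)).mulVec (lv plus K (2 * L)) := by
  rw [← Q_two _ _ _ _ _ hN, ← (eqv k L).sum_comp]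
  have h := path_sum (Vm plus K (2 * L))
    (fun t c => (if t = k then x c else 1) * (if t = k + N then y c else 1)) (lv plus K (2 * L))
    (2 * k) (lv plus K (2 * L))
  rw [h]
  refine Finset.sum_congr rfl fun s _ => ?_
  rw [weight, hF, Finset.prod_mul_distrib]
  have h1 : ∏ t : Fin (2 * k + 1), (if (t : ℕ) = k then x (s t) else 1) = x (s ⟨k, by omega⟩) := by
    rw [Finset.prod_eq_single ⟨k, by omega⟩]
    · simp
    · intro t _ ht
      rw [if_neg]
      intro h
      exact ht (Fin.ext h)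
    · simp
  have h2 : ∏ t : Fin (2 * k + 1), (if (t : ℕ) = k + N then y (s t) else 1) =
      y (s ⟨k + N, by omega⟩) := by
    rw [Finset.prod_eq_single ⟨k + N, by omega⟩]
    · simp
    · intro t _ ht
      rw [if_neg]
      intro h
      exact ht (Fin.ext h)
    · simp
  rw [h1, h2]
  ring

theorem den (plus : Bool) (K : ℝ) (k L : ℕ) :
    ∑ σ : rect k L → Bool, Real.exp (K * action plus (rect k L) σ) =
      lv plus K (2 * L) ⬝ᵥ (Vm plus K (2 * L) ^ (2 * k)).mulVec (lv plus K (2 * L)) := by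
  have h := num plus K k L 0 (Nat.zero_le k) (fun _ => 1) (fun _ => 1) (fun _ => 1)
    (fun s => by simp)
  simp only [one_mul] at h
  rw [h]
  congr 2
  rw [Matrix.diagonal_one]
  simp [← pow_add, two_mul]

end TransferAux

theorem corr_rect (plus : Bool) (K : ℝ) (k L N : ℕ) (hN : N ≤ k) (a b : Fin (2 * L + 1)) :
    corr plus K (rect k L) (0, (a : ℤ) - L) (N, (b : ℤ) - L) =
      (lv plus K (2 * L) ⬝ᵥ (Vm plus K (2 * L) ^ k * Zd (2 * L) a * Vm plus K (2 * L) ^ N *
        Zd (2 * L) b * Vm plus K (2 * L) ^ (k - N)).mulVec (lv plus K (2 * L))) /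
      (lv plus K (2 * L) ⬝ᵥ (Vm plus K (2 * L) ^ (2 * k)).mulVec (lv plus K (2 * L))) := by
  unfold corr ev
  rw [TransferAux.den]
  congr 1
  have h := TransferAux.num plus K k L N hN (fun c => sg (c a)) (fun c => sg (c b))
    (fun s => s (0, (a : ℤ) - L) * s (N, (b : ℤ) - L)) (fun s => ?_)
  · rw [h]
    rfl
  · have h1 := TransferAux.ext_eqv k L s ⟨k, by omega⟩ a
    have h2 := TransferAux.ext_eqv k L s ⟨k + N, by omega⟩ b
    simp only [sub_self] at h1
    have e : (((k + N : ℕ) : ℤ) - (k : ℤ)) = (N : ℤ) := by push_cast; ring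
    simp only [e] at h2
    rw [h1, h2]

theorem mag_rect (K : ℝ) (k L N : ℕ) (hN : N ≤ k) (a : Fin (2 * L + 1)) :
    mag true K (rect k L) (N, (a : ℤ) - L) =
      (lv true K (2 * L) ⬝ᵥ (Vm true K (2 * L) ^ (k + N) * Zd (2 * L) a *
        Vm true K (2 * L) ^ (k - N)).mulVec (lv true K (2 * L))) /
      (lv true K (2 * L) ⬝ᵥ (Vm true K (2 * L) ^ (2 * k)).mulVec (lv true K (2 * L))) := by
  unfold mag ev
  rw [TransferAux.den]
  congr 1
  have h := TransferAux.num true K k L N hN (fun _ => 1) (fun c => sg (c a)) (fun s => s (N, (a : ℤ) - L))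
    (fun s => ?_)
  · rw [h, Matrix.diagonal_one, mul_one, ← pow_add]
    rfl
  · have h2 := TransferAux.ext_eqv k L s ⟨k + N, by omega⟩ a
    have e : (((k + N : ℕ) : ℤ) - (k : ℤ)) = (N : ℤ) := by push_cast; ring
    simp only [e] at h2
    rw [h2, one_mul]

end

end IsingS2
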