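import Pool.Agent.Helper98.IS.Band
import Pool.Agent.Helper98.IS.FC
import Pool.Agent.Helper98.IS.SymbolsB
import Pool.Agent.Helper98.IS.WH
import Pool.Agent.Helper98.IS.Lim2
import Pool.Agent.Helper98.IS.FdetMul
import Pool.Agent.Helper98.IS.Comm
import Pool.Agent.Helper98.IS.CommBase

/-!
# IS-40: the prefactor

`Y0 v` in terms of semi infinite Toeplitz matrices; the Fredholm determinant of `- Y0 * Y0`.
The matrices with exponential decay away from the diagonal form a ring `Rg`.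
-/

namespace IsingS2

open Complex Set MeasureTheory Filter Topology IsingNB
open scoped Real Matrix

noncomputable section

namespace Zval

/-! ### The ring -/

/-- matrices with exponential decay away from the diagonal -/
structure Rg where
  /-- the matrix -/
  mat : ℤ → ℤ → ℂ
  bb : BB mat

theorem Rg.ext' {A B : Rg} (h : A.mat = B.mat) : A = B := by
  cases A; cases B; cases h; rfl

theorem BB_zero' : BB (fun _ _ => 0) :=
  ⟨0, 1 / 2, le_rfl, by norm_num, by norm_num, fun k l => by simp⟩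

instance : Zero Rg := ⟨⟨fun _ _ => 0, BB_zero'⟩⟩
instance : One Rg := ⟨⟨one', BB_one⟩⟩
instance : Add Rg := ⟨fun A B => ⟨fun k l => A.mat k l + B.mat k l, BB_add A.bb B.bb⟩⟩
instance : Neg Rg := ⟨fun A => ⟨fun k l => -A.mat k l, BB_neg A.bb⟩⟩
instance : Mul Rg := ⟨fun A B => ⟨mm A.mat B.mat, BB_mm A.bb B.bb⟩⟩

theorem zero_mat (k l : ℤ) : (0 : Rg).mat k l = 0 := rfl
theorem one_mat : (1 : Rg).mat = one' := rfl
theorem add_mat (A B : Rg) (k l : ℤ) : (A + B).mat k l = A.mat k l + B.mat k l := rfl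
theorem neg_mat (A : Rg) (k l : ℤ) : (-A).mat k l = -A.mat k l := rfl
theorem mul_mat (A B : Rg) : (A * B).mat = mm A.mat B.mat := rfl

theorem mm_zero' (A : ℤ → ℤ → ℂ) : mm A (fun _ _ => 0) = fun _ _ => 0 := by
  funext k l
  simp [mm]

theorem zero_mm' (A : ℤ → ℤ → ℂ) : mm (fun _ _ => 0) A = fun _ _ => 0 := by
  funext k l
  simp [mm]

instance : Ring Rg where
  add_assoc A B C := Rg.ext' (by funext k l; simp only [add_mat]; ring)
  zero_add A := Rg.ext' (by funext k l; simp only [add_mat, zero_mat]; ring)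
  add_zero A := Rg.ext' (by funext k l; simp only [add_mat, zero_mat]; ring)
  add_comm A B := Rg.ext' (by funext k l; simp only [add_mat]; ring)
  neg_add_cancel A := Rg.ext' (by funext k l; simp only [add_mat, neg_mat, zero_mat]; ring)
  nsmul := nsmulRec
  zsmul := zsmulRec
  mul_assoc A B C := Rg.ext' (mm_assoc A.bb B.bb C.bb)
  one_mul A := Rg.ext' (one_mm A.mat)
  mul_one A := Rg.ext' (mm_one A.mat)
  left_distrib A B C := Rg.ext' (mm_add_right A.bb B.bb C.bb)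
  right_distrib A B C := Rg.ext' (mm_add_left A.bb B.bb C.bb)
  zero_mul A := Rg.ext' (zero_mm' A.mat)
  mul_zero A := Rg.ext' (mm_zero' A.mat)

theorem sub_mat (A B : Rg) (k l : ℤ) : (A - B).mat k l = A.mat k l - B.mat k l := by
  rw [sub_eq_add_neg, add_mat, neg_mat, ← sub_eq_add_neg]

/-! ### Projections -/

theorem mm_Pi (A : ℤ → ℤ → ℂ) (k l : ℤ) : mm A PiZ k l = if 0 ≤ l then A k l else 0 := by
  unfold mm
  rw [tsum_eq_single l]
  · unfold PiZ
    by_cases h : 0 ≤ l <;> simp [h]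
  · intro i hi
    unfold PiZ
    rw [if_neg (fun h => hi h.1), mul_zero]

theorem Pi_mm (A : ℤ → ℤ → ℂ) (k l : ℤ) : mm PiZ A k l = if 0 ≤ k then A k l else 0 := by
  unfold mm
  rw [tsum_eq_single k]
  · unfold PiZ
    by_cases h : 0 ≤ k <;> simp [h]
  · intro i hi
    unfold PiZ
    rw [if_neg (fun h => hi h.1.symm), zero_mul]

/-- the projection -/
def e : Rg := ⟨PiZ, BB_Pi⟩

theorem e_mat (k l : ℤ) : e.mat k l = if k = l ∧ 0 ≤ k then 1 else 0 := rfl
theorem mul_e (A : Rg) (k l : ℤ) : (A * e).mat k l = if 0 ≤ l then A.mat k l else 0 :=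
  mm_Pi A.mat k l
theorem e_mul (A : Rg) (k l : ℤ) : (e * A).mat k l = if 0 ≤ k then A.mat k l else 0 :=
  Pi_mm A.mat k l

theorem e_e : e * e = e := by
  apply Rg.ext'
  funext k l
  rw [mul_e, e_mat]
  by_cases h : k = l
  · subst h
    by_cases h0 : 0 ≤ k <;> simp [h0]
  · simp [h]

/-! ### Toeplitz matrices -/

section
variable {v : ℝ} (hv : 1 < v)

/-- `Tz b₊` -/
def ra : Rg := ⟨Tz (bp v), Tz_BB (bp_ann hv)⟩
/-- `Tz (1/b₊)` -/
def ra' : Rg := ⟨Tz fun x => (bp v x)⁻¹, Tz_BB (bp_inv_ann hv)⟩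
/-- `Tz b₋` -/
def rb : Rg := ⟨Tz (bq v), Tz_BB (bq_ann hv)⟩
/-- `Tz (1/b₋)` -/
def rb' : Rg := ⟨Tz fun x => (bq v x)⁻¹, Tz_BB (bq_inv_ann hv)⟩

include hv

theorem fc_bp_neg {n : ℤ} (hn : n < 0) : fc (bp v) n = 0 := by
  obtain ⟨r, hr, h1, -⟩ := bp_disc hv
  exact fc_inside hr h1 hn

theorem fc_bpi_neg {n : ℤ} (hn : n < 0) : fc (fun x => (bp v x)⁻¹) n = 0 := by
  obtain ⟨r, hr, -, h2⟩ := bp_disc hv
  exact fc_inside hr h2 hn

omit hv in
theorem rb_apply (k l : ℤ) : Tz (bq v) k l = fc (fun x => (bp v x)⁻¹) (l - k) := by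
  exact Tz_inv (fun x => (bp v x)⁻¹) k l

omit hv in
theorem rb'_apply (k l : ℤ) : Tz (fun x => (bq v x)⁻¹) k l = fc (bp v) (l - k) := by
  have h : (fun x => (bq v x)⁻¹) = fun x => bp v x⁻¹ := by
    funext x
    simp [bq]
  rw [h]
  exact Tz_inv (bp v) k l

theorem ra_zero {k l : ℤ} (h : k < l) : (ra hv).mat k l = 0 := fc_bp_neg hv (by omega)
theorem ra'_zero {k l : ℤ} (h : k < l) : (ra' hv).mat k l = 0 := fc_bpi_neg hv (by omega)
theorem rb_zero {k l : ℤ} (h : l < k) : (rb hv).mat k l = 0 := by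
  show Tz (bq v) k l = 0
  rw [rb_apply]
  exact fc_bpi_neg hv (by omega)
theorem rb'_zero {k l : ℤ} (h : l < k) : (rb' hv).mat k l = 0 := by
  show Tz (fun x => (bq v x)⁻¹) k l = 0
  rw [rb'_apply]
  exact fc_bp_neg hv (by omega)

omit hv in
theorem Tz_congr {f g : ℂ → ℂ} (h : ∀ x : ℂ, ‖x‖ = 1 → f x = g x) : Tz f = Tz g := by
  funext k l
  exact fc_congr h _

theorem ra_ra' : ra hv * ra' hv = 1 := by
  apply Rg.ext'
  rw [mul_mat, one_mat]
  show mm (Tz (bp v)) (Tz fun x => (bp v x)⁻¹) = one'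
  rw [Tz_mul (bp_ann hv) (bp_inv_ann hv), ← Tz_one]
  exact Tz_congr fun x hx => mul_inv_cancel₀ (bp_ne hv hx)

theorem bq_ne {x : ℂ} (hx : ‖x‖ = 1) : bq v x ≠ 0 := by
  unfold bq
  exact inv_ne_zero (bp_ne hv (by rw [norm_inv, hx, inv_one]))

theorem rb_rb' : rb hv * rb' hv = 1 := by
  apply Rg.ext'
  rw [mul_mat, one_mat]
  show mm (Tz (bq v)) (Tz fun x => (bq v x)⁻¹) = one'
  rw [Tz_mul (bq_ann hv) (bq_inv_ann hv), ← Tz_one]
  exact Tz_congr fun x hx => mul_inv_cancel₀ (bq_ne hv hx)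

theorem ra'_rb : ra' hv * rb hv = rb hv * ra' hv := by
  apply Rg.ext'
  rw [mul_mat, mul_mat]
  show mm (Tz fun x => (bp v x)⁻¹) (Tz (bq v)) = mm (Tz (bq v)) (Tz fun x => (bp v x)⁻¹)
  rw [Tz_mul (bp_inv_ann hv) (bq_ann hv), Tz_mul (bq_ann hv) (bp_inv_ann hv)]
  exact Tz_congr fun x _ => mul_comm _ _

theorem Tp_p : Tp (bps v) = (ra hv * e).mat := by
  funext k l
  rw [mul_e]
  show (if 0 ≤ l ∧ l ≤ k then PowerSeries.coeff (k - l).toNat (bps v) else 0) =
    if 0 ≤ l then fc (bp v) (k - l) else 0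
  by_cases hl : 0 ≤ l
  · by_cases hk : l ≤ k
    · rw [if_pos ⟨hl, hk⟩, if_pos hl, bps, PowerSeries.coeff_mk, Int.toNat_of_nonneg (by omega)]
    · rw [if_neg (fun h => hk h.2), if_pos hl, fc_bp_neg hv (by omega)]
  · rw [if_neg (fun h => hl h.1), if_neg hl]

theorem Tp_r : Tp (bps v)⁻¹ = (ra' hv * e).mat := by
  funext k l
  rw [mul_e]
  show (if 0 ≤ l ∧ l ≤ k then PowerSeries.coeff (k - l).toNat (bps v)⁻¹ else 0) =
    if 0 ≤ l then fc (fun x => (bp v x)⁻¹) (k - l) else 0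
  by_cases hl : 0 ≤ l
  · by_cases hk : l ≤ k
    · rw [if_pos ⟨hl, hk⟩, if_pos hl, bps_inv hv, Int.toNat_of_nonneg (by omega)]
    · rw [if_neg (fun h => hk h.2), if_pos hl, fc_bpi_neg hv (by omega)]
  · rw [if_neg (fun h => hl h.1), if_neg hl]

theorem Tm_p : Tm (bps v) = (e * rb' hv).mat := by
  funext k l
  rw [e_mul]
  show (if 0 ≤ k ∧ k ≤ l then PowerSeries.coeff (l - k).toNat (bps v) else 0) =
    if 0 ≤ k then Tz (fun x => (bq v x)⁻¹) k l else 0
  rw [rb'_apply]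
  by_cases hl : 0 ≤ k
  · by_cases hk : k ≤ l
    · rw [if_pos ⟨hl, hk⟩, if_pos hl, bps, PowerSeries.coeff_mk, Int.toNat_of_nonneg (by omega)]
    · rw [if_neg (fun h => hk h.2), if_pos hl, fc_bp_neg hv (by omega)]
  · rw [if_neg (fun h => hl h.1), if_neg hl]

theorem Tm_r : Tm (bps v)⁻¹ = (e * rb hv).mat := by
  funext k l
  rw [e_mul]
  show (if 0 ≤ k ∧ k ≤ l then PowerSeries.coeff (l - k).toNat (bps v)⁻¹ else 0) =
    if 0 ≤ k then Tz (bq v) k l else 0
  rw [rb_apply]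
  by_cases hl : 0 ≤ k
  · by_cases hk : k ≤ l
    · rw [if_pos ⟨hl, hk⟩, if_pos hl, bps_inv hv, Int.toNat_of_nonneg (by omega)]
    · rw [if_neg (fun h => hk h.2), if_pos hl, fc_bpi_neg hv (by omega)]
  · rw [if_neg (fun h => hl h.1), if_neg hl]

/-- `Y0` as an element of the ring -/
theorem Y0_eq : Y0 v = (rb hv * e * rb' hv - ra hv * e * ra' hv).mat := by
  funext k l
  rw [sub_mat]
  rfl

/-- triangularity -/
theorem e_rb : e * rb hv * e = e * rb hv := by
  apply Rg.ext'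
  funext k l
  rw [mul_e, e_mul]
  by_cases hl : 0 ≤ l
  · rw [if_pos hl]
  · rw [if_neg hl]
    by_cases hk : 0 ≤ k
    · rw [if_pos hk, rb_zero hv (by omega)]
    · rw [if_neg hk]

theorem e_ra' : e * ra' hv * e = ra' hv * e := by
  apply Rg.ext'
  funext k l
  rw [mul_e, mul_e, e_mul]
  by_cases hl : 0 ≤ l
  · rw [if_pos hl, if_pos hl]
    by_cases hk : 0 ≤ k
    · rw [if_pos hk]
    · rw [if_neg hk, ra'_zero hv (by omega)]
  · rw [if_neg hl, if_neg hl]

theorem e_rb' : e * rb' hv * e = e * rb' hv := by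
  apply Rg.ext'
  funext k l
  rw [mul_e, e_mul]
  by_cases hl : 0 ≤ l
  · rw [if_pos hl]
  · rw [if_neg hl]
    by_cases hk : 0 ≤ k
    · rw [if_pos hk, rb'_zero hv (by omega)]
    · rw [if_neg hk]

theorem e_ra : e * ra hv * e = ra hv * e := by
  apply Rg.ext'
  funext k l
  rw [mul_e, mul_e, e_mul]
  by_cases hl : 0 ≤ l
  · rw [if_pos hl, if_pos hl]
    by_cases hk : 0 ≤ k
    · rw [if_pos hk]
    · rw [if_neg hk, ra_zero hv (by omega)]
  · rw [if_neg hl, if_neg hl]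

/-- `Y0` in the ring -/
def yy : Rg := rb hv * e * rb' hv - ra hv * e * ra' hv

theorem e_Y : e * yy hv = e - ra hv * e * ra' hv := by
  unfold yy
  rw [mul_sub]
  have h1 : e * (rb hv * e * rb' hv) = e := by
    calc e * (rb hv * e * rb' hv) = e * rb hv * e * rb' hv := by noncomm_ring
      _ = e * (rb hv * rb' hv) := by rw [e_rb]; noncomm_ring
      _ = e := by rw [rb_rb', mul_one]
  have h2 : e * (ra hv * e * ra' hv) = ra hv * e * ra' hv := by
    calc e * (ra hv * e * ra' hv) = e * ra hv * e * ra' hv := by noncomm_ring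
      _ = ra hv * e * ra' hv := by rw [e_ra]
  rw [h1, h2]

theorem Y_e : yy hv * e = rb hv * e * rb' hv - e := by
  unfold yy
  rw [sub_mul]
  have h1 : rb hv * e * rb' hv * e = rb hv * e * rb' hv := by
    calc rb hv * e * rb' hv * e = rb hv * (e * rb' hv * e) := by noncomm_ring
      _ = rb hv * e * rb' hv := by rw [e_rb']; noncomm_ring
  have h2 : ra hv * e * ra' hv * e = e := by
    calc ra hv * e * ra' hv * e = ra hv * (e * ra' hv * e) := by noncomm_ring
      _ = ra hv * ra' hv * e := by rw [e_ra']; noncomm_ring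
      _ = e := by rw [ra_ra', one_mul]
  rw [h1, h2]

theorem Y_sum : e * yy hv + yy hv * e = yy hv := by
  rw [e_Y, Y_e]
  unfold yy
  abel

theorem e_Y_e : e * yy hv * e = 0 := by
  rw [e_Y, sub_mul, e_e]
  have h2 : ra hv * e * ra' hv * e = e := by
    calc ra hv * e * ra' hv * e = ra hv * (e * ra' hv * e) := by noncomm_ring
      _ = ra hv * ra' hv * e := by rw [e_ra']; noncomm_ring
      _ = e := by rw [ra_ra', one_mul]
  rw [h2, sub_self]

/-- the product of the two blocks -/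
theorem one_sub_eYYe : e - e * yy hv * (yy hv * e) =
    (ra hv * e) * (e * rb hv) * (ra' hv * e) * (e * rb' hv) := by
  rw [e_Y, Y_e]
  have h1 : e * (rb hv * e * rb' hv) = e := by
    calc e * (rb hv * e * rb' hv) = e * rb hv * e * rb' hv := by noncomm_ring
      _ = e * (rb hv * rb' hv) := by rw [e_rb]; noncomm_ring
      _ = e := by rw [rb_rb', mul_one]
  have h2 : ra hv * e * ra' hv * e = e := by
    calc ra hv * e * ra' hv * e = ra hv * (e * ra' hv * e) := by noncomm_ring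
      _ = ra hv * ra' hv * e := by rw [e_ra']; noncomm_ring
      _ = e := by rw [ra_ra', one_mul]
  have h3 : (ra hv * e) * (e * rb hv) * (ra' hv * e) * (e * rb' hv) =
      ra hv * e * ra' hv * (rb hv * e * rb' hv) := by
    calc (ra hv * e) * (e * rb hv) * (ra' hv * e) * (e * rb' hv)
        = ra hv * (e * e) * (rb hv * ra' hv) * (e * e) * rb' hv := by noncomm_ring
      _ = ra hv * e * (ra' hv * rb hv) * e * rb' hv := by rw [e_e, ra'_rb]
      _ = ra hv * e * ra' hv * (rb hv * e * rb' hv) := by noncomm_ring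
  rw [h3, sub_mul, mul_sub, mul_sub, h1, h2, e_e]
  noncomm_ring

theorem yy_mat : (yy hv).mat = Y0 v := (Y0_eq hv).symm

theorem yy_LL : LL (yy hv).mat := by
  rw [yy_mat]
  exact Y0_LL hv

theorem G1_mat : ((ra hv * e) * (e * rb hv) * (ra' hv * e) * (e * rb' hv)).mat =
    mm (mm (mm (Tp (bps v)) (Tm (bps v)⁻¹)) (Tp (bps v)⁻¹)) (Tm (bps v)) := by
  rw [Tp_p hv, Tm_r hv, Tp_r hv, Tm_p hv]
  rfl

end

end Zval

open Zval

theorem one_add_XX {v : ℝ} (hv : 1 < v) (k l : ℤ) (hk : 0 ≤ k) (hl : 0 ≤ l) :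
    PiZ k l - mm (Y0 v) (Y0 v) k l =
      mm (mm (mm (Tp (bps v)) (Tm (bps v)⁻¹)) (Tp (bps v)⁻¹)) (Tm (bps v)) k l := by
  rw [← G1_mat hv, ← one_sub_eYYe hv, sub_mat]
  have h : e * yy hv * (yy hv * e) = e * (yy hv * yy hv) * e := by noncomm_ring
  rw [h, mul_e, if_pos hl, e_mul, if_pos hk, mul_mat, yy_mat]
  rfl

namespace Zval

section
variable {v : ℝ} (hv : 1 < v)

include hv

theorem bps_cc : PowerSeries.constantCoeff (bps v) = 1 := by
  rw [← PowerSeries.coeff_zero_eq_constantCoeff_apply]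
  exact (bps_good hv).one

theorem bps_unit : bps v * (bps v)⁻¹ = 1 := by
  apply PowerSeries.mul_inv_cancel
  rw [bps_cc hv]
  exact one_ne_zero

theorem bps_inv_inv : ((bps v)⁻¹)⁻¹ = bps v := by
  symm
  rw [PowerSeries.eq_inv_iff_mul_eq_one]
  · exact bps_unit hv
  · rw [PowerSeries.constantCoeff_inv, bps_cc hv, inv_one]
    exact one_ne_zero

theorem bps_unit' : (bps v)⁻¹ * bps v = 1 := by
  rw [mul_comm]
  exact bps_unit hv

theorem tmp_tmr : (e * rb' hv) * (e * rb hv) = e := by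
  apply Rg.ext'
  rw [mul_mat, ← Tm_p hv, ← Tm_r hv, Tm_mul, bps_unit hv, Tm_one]
  rfl

theorem tmr_tmp : (e * rb hv) * (e * rb' hv) = e := by
  apply Rg.ext'
  rw [mul_mat, ← Tm_p hv, ← Tm_r hv, Tm_mul, bps_unit' hv, Tm_one]
  rfl

theorem tpp_tpr : (ra hv * e) * (ra' hv * e) = e := by
  apply Rg.ext'
  rw [mul_mat, ← Tp_p hv, ← Tp_r hv, Tp_mul, bps_unit hv, Tp_one]
  rfl

theorem tpr_tpp : (ra' hv * e) * (ra hv * e) = e := by
  apply Rg.ext'
  rw [mul_mat, ← Tp_p hv, ← Tp_r hv, Tp_mul, bps_unit' hv, Tp_one]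
  rfl

/-- the first group commutator -/
def G1 : Rg := (ra hv * e) * (e * rb hv) * (ra' hv * e) * (e * rb' hv)
/-- the second group commutator -/
def G2 : Rg := (e * rb hv) * (ra hv * e) * (e * rb' hv) * (ra' hv * e)

theorem e_ra2 : e * (ra hv * e) = ra hv * e := by
  rw [← mul_assoc, e_ra]
theorem e_ra'2 : e * (ra' hv * e) = ra' hv * e := by
  rw [← mul_assoc, e_ra']
theorem e_rb2 : (e * rb hv) * e = e * rb hv := e_rb hv
theorem e_rb'2 : (e * rb' hv) * e = e * rb' hv := e_rb' hv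

theorem G1_G2 : G1 hv * G2 hv = e := by
  unfold G1 G2
  calc (ra hv * e) * (e * rb hv) * (ra' hv * e) * (e * rb' hv) *
        ((e * rb hv) * (ra hv * e) * (e * rb' hv) * (ra' hv * e))
      = (ra hv * e) * (e * rb hv) * (ra' hv * e) * ((e * rb' hv) * (e * rb hv)) *
        (ra hv * e) * (e * rb' hv) * (ra' hv * e) := by simp only [mul_assoc]
    _ = (ra hv * e) * (e * rb hv) * (ra' hv * e) * (e * (ra hv * e)) * (e * rb' hv) *
        (ra' hv * e) := by rw [tmp_tmr]; simp only [mul_assoc]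
    _ = (ra hv * e) * (e * rb hv) * ((ra' hv * e) * (ra hv * e)) * (e * rb' hv) *
        (ra' hv * e) := by rw [e_ra2]; simp only [mul_assoc]
    _ = (ra hv * e) * ((e * rb hv) * e) * (e * rb' hv) * (ra' hv * e) := by
        rw [tpr_tpp]; simp only [mul_assoc]
    _ = (ra hv * e) * ((e * rb hv) * (e * rb' hv)) * (ra' hv * e) := by
        rw [e_rb2]; simp only [mul_assoc]
    _ = (ra hv * e) * (e * (ra' hv * e)) := by rw [tmr_tmp]; simp only [mul_assoc]
    _ = e := by rw [e_ra'2, tpp_tpr]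

theorem G1_e : G1 hv * e = G1 hv := by
  unfold G1
  rw [mul_assoc _ (e * rb' hv) e, e_rb'2]

theorem e_G2 : e * G2 hv = G2 hv := by
  unfold G2
  simp only [← mul_assoc]
  rw [e_e]

theorem K_sum : (G1 hv - e) + (G2 hv - e) + (G1 hv - e) * (G2 hv - e) = 0 := by
  have h : (G1 hv - e) * (G2 hv - e) = G1 hv * G2 hv - G1 hv * e - e * G2 hv + e * e := by
    noncomm_ring
  rw [h, G1_G2, G1_e, e_G2, e_e]
  abel

theorem G2_mat : (G2 hv).mat = mm (mm (mm (Tm (bps v)⁻¹) (Tp (bps v))) (Tm ((bps v)⁻¹)⁻¹))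
    (Tp (bps v)⁻¹) := by
  rw [bps_inv_inv hv, Tp_p hv, Tm_r hv, Tp_r hv, Tm_p hv]
  rfl

theorem Fc_eq : Fc (bps v)⁻¹ (bps v) = Fdet (G2 hv - e).mat := by
  unfold Fc
  congr 1
  funext k l
  rw [sub_mat, G2_mat hv]
  rfl

theorem G2_LL : LL (G2 hv - e).mat := by
  have h := comm_LL (bps_good hv).inv (bps_good hv)
  have h2 : (G2 hv - e).mat = fun k l => mm (mm (mm (Tm (bps v)⁻¹) (Tp (bps v)))
      (Tm ((bps v)⁻¹)⁻¹)) (Tp (bps v)⁻¹) k l - PiZ k l := by
    funext k l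
    rw [sub_mat, G2_mat hv]
    rfl
  rw [h2]
  exact h

theorem G1_eq : G1 hv - e = -(e * yy hv * (yy hv * e)) := by
  unfold G1
  rw [← one_sub_eYYe hv]
  abel

omit hv in
theorem mul_LL_left {A B : Rg} (hB : LL B.mat) : LL (A * B).mat := by
  rw [mul_mat]
  exact LL_mm_left A.bb hB

omit hv in
theorem mul_LL_right {A B : Rg} (hA : LL A.mat) : LL (A * B).mat := by
  rw [mul_mat]
  exact LL_mm_right hA B.bb

omit hv in
theorem neg_LL {A : Rg} (hA : LL A.mat) : LL (-A).mat := LL_neg hA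

theorem G1_LL : LL (G1 hv - e).mat := by
  rw [G1_eq]
  exact neg_LL (mul_LL_right (mul_LL_left (yy_LL hv)))

omit hv in
theorem Fdet_mul' {A B : Rg} (hA : LL A.mat) (hB : LL B.mat) :
    Fdet (A + B + A * B).mat = Fdet A.mat * Fdet B.mat := by
  rw [← Fdet_mul hA hB]
  rfl

theorem Fdet_G1 : Fdet (G1 hv - e).mat * Fc (bps v)⁻¹ (bps v) = 1 := by
  rw [Fc_eq hv, ← Fdet_mul' (G1_LL hv) (G2_LL hv), K_sum hv]
  exact Fdet_zero

theorem YY_sum : -(yy hv * yy hv) = -(e * yy hv * (yy hv * e)) + -(yy hv * e * (e * yy hv)) +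
    -(e * yy hv * (yy hv * e)) * -(yy hv * e * (e * yy hv)) := by
  have h1 : -(e * yy hv * (yy hv * e)) * -(yy hv * e * (e * yy hv)) = 0 := by
    calc -(e * yy hv * (yy hv * e)) * -(yy hv * e * (e * yy hv))
        = e * yy hv * yy hv * (e * yy hv * e) * (e * yy hv) := by noncomm_ring
      _ = 0 := by rw [e_Y_e]; simp
  have h2 : yy hv * yy hv = e * yy hv * (yy hv * e) + yy hv * e * (e * yy hv) := by
    calc yy hv * yy hv = (e * yy hv + yy hv * e) * (e * yy hv + yy hv * e) := by rw [Y_sum]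
      _ = e * yy hv * e * yy hv + e * yy hv * (yy hv * e) + yy hv * e * (e * yy hv) +
          yy hv * (e * yy hv * e) := by noncomm_ring
      _ = e * yy hv * (yy hv * e) + yy hv * e * (e * yy hv) := by rw [e_Y_e]; simp
  rw [h1, h2]
  abel

theorem Fdet_YY_sq : Fdet (-(yy hv * yy hv)).mat = Fdet (G1 hv - e).mat ^ 2 := by
  have hL1 : LL (-(e * yy hv * (yy hv * e))).mat :=
    neg_LL (mul_LL_right (mul_LL_left (yy_LL hv)))
  have hL2 : LL (-(yy hv * e * (e * yy hv))).mat :=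
    neg_LL (mul_LL_left (mul_LL_left (yy_LL hv)))
  have h3 : Fdet (-(yy hv * e * (e * yy hv))).mat = Fdet (-(e * yy hv * (yy hv * e))).mat := by
    have h4 : -(yy hv * e * (e * yy hv)) = (-(yy hv * e)) * (e * yy hv) := by noncomm_ring
    have h5 : -(e * yy hv * (yy hv * e)) = (e * yy hv) * (-(yy hv * e)) := by noncomm_ring
    rw [h4, h5]
    exact Fdet_cyc (-(yy hv * e)).bb (mul_LL_left (yy_LL hv))
  rw [YY_sum hv, Fdet_mul' hL1 hL2, h3, G1_eq]
  ring

end

end Zval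

theorem Fdet_YY {v : ℝ} (hv : 1 < v) :
    (Fdet fun k l => -mm (Y0 v) (Y0 v) k l) * Fc (bps v)⁻¹ (bps v) ^ 2 = 1 := by
  have h : (fun k l => -mm (Y0 v) (Y0 v) k l) = (-(yy hv * yy hv)).mat := by
    funext k l
    rw [neg_mat, mul_mat, yy_mat]
  rw [h, Fdet_YY_sq hv, ← mul_pow, Fdet_G1 hv, one_pow]

theorem Deven_zero {v : ℝ} (hv : 1 < v) :
    Deven 0 0 (cc v) ^ 8 * (1 - 1 / (v : ℂ) ^ 4) ^ 2 = 1 := by
  have h0 : (fun k l => -P0 v 0 0 k l) = fun k l => -mm (Y0 v) (Y0 v) k l := by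
    have hT : (Tz fun x => ww (cc v) x ^ 0) = one' := by
      rw [← Tz_one]
      congr 1
    have hs : sft 0 (Y0 v) = Y0 v := by
      funext k l
      simp [sft]
    funext k l
    unfold P0
    rw [hT, hs, one_mm, mm_one]
  have h1 := Fdet_P0 hv 0 0
  rw [h0] at h1
  have h2 := Fdet_YY hv
  rw [h1] at h2
  have h3 := Fc_value hv
  calc Deven 0 0 (cc v) ^ 8 * (1 - 1 / (v : ℂ) ^ 4) ^ 2
      = (Deven 0 0 (cc v) ^ 2 * Fc (bps v)⁻¹ (bps v) ^ 2) ^ 4 := by rw [← h3]; ring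
    _ = 1 := by rw [h2, one_pow]

end

end IsingS2
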